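import Mathlib
import Pool.Agent.GBQ.Basic

set_option autoImplicit false

/-!
# NRP: nonlinear Roth configurations `n, n + h, n + h² + c h` in the primes.  Definitions (inverse theorem)
-/

namespace Pool.Agent.NRP

open Finset
open Pool.Agent.GBQ (ee nd)
open scoped ComplexConjugate

/-- bounded by `1` and supported in `[-M, M]` -/
def Bd (M : ℕ) (f : ℤ → ℂ) : Prop := (∀ n, ‖f n‖ ≤ 1) ∧ ∀ n : ℤ, (M : ℤ) < |n| → f n = 0

/-- the polynomial `h² + c h` -/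
def pp (c h : ℤ) : ℤ := h ^ 2 + c * h

/-- the trilinear sum with a weight: `∑_{1 ≤ h ≤ H} w(h) ∑_n f0(n) f1(n+h) f2(n+h²+ch)` -/
noncomputable def TW (c : ℤ) (H : ℕ) (w f0 f1 f2 : ℤ → ℂ) : ℂ :=
  ∑ h ∈ Icc (1 : ℤ) H, w h * ∑' n : ℤ, f0 n * f1 (n + h) * f2 (n + pp c h)

/-- the trilinear sum -/
noncomputable def TT (c : ℤ) (H : ℕ) (f0 f1 f2 : ℤ → ℂ) : ℂ :=
  ∑ h ∈ Icc (1 : ℤ) H, ∑' n : ℤ, f0 n * f1 (n + h) * f2 (n + pp c h)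

/-- the regime of the parameters: `δ` is at most `1/2` and at most `1/(1 + log H)`, and `H ≥ δ^{-C}` -/
def Rg (C H : ℕ) (δ : ℝ) : Prop :=
  0 < δ ∧ δ ≤ 1 / 2 ∧ δ * (1 + Real.log H) ≤ 1 ∧ 1 ≤ δ ^ C * H

/-- multiplicative derivative -/
noncomputable def dl (D : ℤ) (f : ℤ → ℂ) : ℤ → ℂ := fun n => f n * conj (f (n + D))

/-- Gowers norms: `UU m R f` is `‖f‖_{U^{m+1}}^{2^{m+1}}` without normalisation, differences in `[-R, R]` -/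
noncomputable def UU : ℕ → ℕ → (ℤ → ℂ) → ℝ
  | 0, _, f => ‖∑' n : ℤ, f n‖ ^ 2
  | m + 1, R, f => ∑ D ∈ Icc (-(R : ℤ)) R, UU m R (dl D f)

/-- the box `[-R, R]^m` -/
noncomputable def bx (m R : ℕ) : Finset (Fin m → ℤ) := Fintype.piFinset (fun _ : Fin m => Icc (-(R : ℤ)) R)

/-- iterated derivatives -/
noncomputable def dls : (m : ℕ) → (Fin m → ℤ) → (ℤ → ℂ) → (ℤ → ℂ)
  | 0, _, f => f
  | m + 1, k, f => dls m (Fin.tail k) (dl (k 0) f)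

/-- product over the vertices of a cube, with conjugations:
`∏_ω C^{|ω|} g(k^ω)`, `k^ω` with the coordinates `k0 i` (`ω i = 0`) resp. `k1 i` (`ω i = 1`) -/
noncomputable def cb : (m : ℕ) → ((Fin m → ℤ) → ℂ) → (Fin m → ℤ) → (Fin m → ℤ) → ℂ
  | 0, g, k0, _ => g k0
  | m + 1, g, k0, k1 => cb m (fun k => g (Fin.cons (k0 0) k) * conj (g (Fin.cons (k1 0) k)))
      (Fin.tail k0) (Fin.tail k1)

/-- alternating sum over the vertices of a cube -/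
noncomputable def dph : (m : ℕ) → ((Fin m → ℤ) → ℝ) → (Fin m → ℤ) → (Fin m → ℤ) → ℝ
  | 0, φ, k0, _ => φ k0
  | m + 1, φ, k0, k1 => dph m (fun k => φ (Fin.cons (k0 0) k) - φ (Fin.cons (k1 0) k))
      (Fin.tail k0) (Fin.tail k1)

/-- one term of the dual function -/
noncomputable def Fh (c : ℤ) (f0 f1 : ℤ → ℂ) (h : ℤ) : ℤ → ℂ :=
  fun x => conj (f0 (x - pp c h) * f1 (x - pp c h + h))

/-- the dual function of the third place -/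
noncomputable def dualF (c : ℤ) (H : ℕ) (f0 f1 : ℤ → ℂ) : ℤ → ℂ :=
  fun x => (1 / (H : ℂ)) * ∑ h ∈ Icc (1 : ℤ) H, Fh c f0 f1 h x

/-- the dual function of the second place -/
noncomputable def dualG (c : ℤ) (H : ℕ) (f0 f2 : ℤ → ℂ) : ℤ → ℂ :=
  fun x => (1 / (H : ℂ)) * ∑ h ∈ Icc (1 : ℤ) H, conj (f0 (x - h) * f2 (x - h + pp c h))

/-- nested sums of iterated derivatives along linear maps -/
noncomputable def dsm {V : Type} [AddCommGroup V] (Δ : Finset V) : List (V →+ ℤ) → (ℤ → ℂ) → ℝ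
  | [], f => ‖∑' n : ℤ, f n‖
  | M :: l, f => ∑ v ∈ Δ, dsm Δ l (dl (M v) f)

/-- the linear form `(x, y) ↦ u x + v y` -/
def mp (u v : ℤ) : ℤ × ℤ →+ ℤ where
  toFun := fun x => u * x.1 + v * x.2
  map_zero' := by simp
  map_add' := fun x y => by simp only [Prod.fst_add, Prod.snd_add]; ring

/-- the square `[-R, R]²` -/
noncomputable def sqr (R : ℕ) : Finset (ℤ × ℤ) := Icc (-(R : ℤ)) R ×ˢ Icc (-(R : ℤ)) R

/-- the seven linear forms of the parallelepiped with the sides `2ah1`, `2bh2`, `2(a+b)h3` -/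
def L7 (h1 h2 h3 : ℤ) : List (ℤ × ℤ →+ ℤ) :=
  [mp (2 * h1) 0, mp 0 (2 * h2), mp (2 * h3) (2 * h3), mp (2 * h1) (2 * h2),
    mp (2 * (h1 + h3)) (2 * h3), mp (2 * h3) (2 * (h2 + h3)), mp (2 * (h1 + h3)) (2 * (h2 + h3))]

/-- the sum over `a`, `b` for fixed `h1, h2, h3` -/
noncomputable def SS (H : ℕ) (f : ℤ → ℂ) (h1 h2 h3 : ℤ) : ℂ :=
  ∑ a ∈ Icc (-(H : ℤ)) H, ∑ b ∈ Icc (-(H : ℤ)) H,
    ∑' n : ℤ, dl (2 * a * h1) (dl (2 * b * h2) (dl (2 * (a + b) * h3) f)) n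

/-- the sum of their absolute values -/
noncomputable def VV (H : ℕ) (f : ℤ → ℂ) : ℝ :=
  ∑ h1 ∈ Icc (-(H : ℤ)) H, ∑ h2 ∈ Icc (-(H : ℤ)) H, ∑ h3 ∈ Icc (-(H : ℤ)) H, ‖SS H f h1 h2 h3‖

/-- `(u, v)` is a vector which is long compared with its greatest common divisor -/
def Gd (κ : ℝ) (H : ℕ) (u v : ℤ) : Prop :=
  (u ≠ 0 ∨ v ≠ 0) ∧ κ ^ 2 * H * (Int.gcd u v : ℝ) ≤ max |(u : ℝ)| |(v : ℝ)|

/-- the four directions are good -/
def Good (κ : ℝ) (H : ℕ) (h1 h2 h3 : ℤ) : Prop :=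
  Gd κ H h1 h2 ∧ Gd κ H (h1 + h3) h3 ∧ Gd κ H h3 (h2 + h3) ∧ Gd κ H (h1 + h3) (h2 + h3)

/-- `θ` is near to a fraction with a small denominator -/
def Mj (C H : ℕ) (δ θ : ℝ) : Prop :=
  ∃ q : ℕ, 1 ≤ q ∧ (q : ℝ) ≤ (1 / δ) ^ C ∧ nd (q * θ) ≤ (1 / δ) ^ C / (H : ℝ) ^ 2

/-- `b i` does not depend on the `i`-th coordinate -/
def Ind {m : ℕ} {α : Type} (b : Fin m → (Fin m → ℤ) → α) : Prop :=
  ∀ (i : Fin m) (k k' : Fin m → ℤ), (∀ j, j ≠ i → k j = k' j) → b i k = b i k'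

end Pool.Agent.NRP
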