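import Mathlib
import Pool.Agent.NRP.Defs

set_option autoImplicit false

/-!
# NRP: statements of the modules, block I (inverse theorem)

Overview.  `TT c H f0 f1 f2 = ∑_{h ≤ H} ∑_n f0(n) f1(n+h) f2(n+h²+ch)`, functions bounded by `1` and
supported in `[-K H², K H²]`; trivial bound `(2K+1) H³`.  If it is at least `δ H³` then `f2` has a
Fourier coefficient `≥ δ^C H²` (`St_Inv2`, with arbitrary bounded weights in `h`: `St_Inv2w`) and the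
averages of `f1` over progressions of length `δ^C H` with difference `q ≤ δ^{-C}` are large
(`St_Inv1`).  All constants `C` may depend on `K` and on the given exponents.  `Rg C H δ` contains
`δ ≤ 1/2`, `δ (1 + log H) ≤ 1`, `δ^C H ≥ 1`; so every constant and every power of `log H` is at most a
power of `1/δ`.
-/

namespace Pool.Agent.NRP

open Finset
open Pool.Agent.GBQ (ee nd)
open scoped ComplexConjugate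

/-! ## 1. Dual functions -/

/-- Dual functions.  `TT = H ∑ f2 conj F`, `F = dualF`; `TT c H f0 f1 F = H ∑ |F|²`; Cauchy and Schwarz
give `|TT|² ≤ H² (2KH²+1) ∑ |F|²`.  The same for `G = dualG` and `f1`. -/
def St_Dual : Prop := ∀ (K H : ℕ) (c : ℤ), 1 ≤ H → (c = 0 ∨ c = 1) → ∀ f0 f1 f2 : ℤ → ℂ,
  Bd (K * H ^ 2) f0 → Bd (K * H ^ 2) f1 → Bd (K * H ^ 2) f2 →
  (Bd ((K + 2) * H ^ 2) (dualF c H f0 f1) ∧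
    ‖TT c H f0 f1 f2‖ ^ 2 ≤ (2 * K + 1) * (H : ℝ) ^ 3 * ‖TT c H f0 f1 (dualF c H f0 f1)‖) ∧
  (Bd ((K + 2) * H ^ 2) (dualG c H f0 f2) ∧
    ‖TT c H f0 f1 f2‖ ^ 2 ≤ (2 * K + 1) * (H : ℝ) ^ 3 * ‖TT c H f0 (dualG c H f0 f2) f2‖)

/-! ## 2. Linear forms, PET -/

/-- Linear forms.  Induction on the list.  Put `x = n + M w` for the first form `(M, g)`: the sum is
`∑_x g(x) ∑_w f(x - M w) ∏ g_i(x + (M_i - M) w)`; Cauchy and Schwarz in `x` (at most `2A+1` values with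
`g(x) ≠ 0`), expand the square, `w' = w + v`, `v ∈ Δ`: `f` is replaced by `dl (-(M v)) f`, `g_i` by
`dl ((M_i - M) v) g_i` (again `Bd A`), `B` by `{w ∈ B : w + v ∈ B}`.  Hölder for the power
`2^(m-1)` of the sum over `v ∈ Δ`; at the end `|B| ≤ |Δ|`.  (`v ↦ -v` maps `Δ` to itself.) -/
def St_Lf : Prop := ∀ (V : Type) [AddCommGroup V] [DecidableEq V] (Δ B : Finset V) (A : ℕ)
  (f : ℤ → ℂ) (l : List ((V →+ ℤ) × (ℤ → ℂ))), (∀ v ∈ Δ, -v ∈ Δ) →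
  (∀ v ∈ B, ∀ w ∈ B, w - v ∈ Δ) → Bd A f → (∀ g ∈ l, Bd A g.2) →
  ‖∑ w ∈ B, ∑' n : ℤ, f n * (l.map (fun g => g.2 (n + g.1 w))).prod‖ ^ (2 ^ l.length) ≤
    (2 * (A : ℝ) + 1) ^ (2 ^ l.length - 1) * (Δ.card : ℝ) ^ (2 ^ l.length - l.length) *
      dsm Δ (l.map Prod.fst) f

/-- PET.  Cauchy and Schwarz in `n` (removes `f0`), `h' = h + a`, `n → n - h`; Cauchy and Schwarz in
`(a, n)` (removes `f1(n) conj f1(n+a)`), `h' = h + b`, `n → n - (pp c h - h)`; then the triangle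
inequality over `a`, `b`. -/
def St_Pet : Prop := ∀ (K H : ℕ) (c : ℤ), 1 ≤ H → (c = 0 ∨ c = 1) → ∀ f0 f1 f2 : ℤ → ℂ,
  Bd (K * H ^ 2) f0 → Bd (K * H ^ 2) f1 → Bd (K * H ^ 2) f2 →
  ‖TT c H f0 f1 f2‖ ^ 4 ≤ 2 * (2 * K + 1) ^ 3 * (H : ℝ) ^ 7 *
    ∑ a ∈ Icc (-(H : ℤ)) H, ∑ b ∈ Icc (-(H : ℤ)) H,
      ‖∑ h ∈ (Icc (1 : ℤ) H).filter (fun h => h + a ∈ Icc (1 : ℤ) H ∧ h + b ∈ Icc (1 : ℤ) H ∧
          h + a + b ∈ Icc (1 : ℤ) H),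
        ∑' n : ℤ, f2 n * conj (f2 (n + (2 * a * h + (a ^ 2 + c * a)))) *
          conj (f2 (n + (2 * b * h + (b ^ 2 + (c - 1) * b)))) *
          f2 (n + (2 * (a + b) * h + ((a + b) ^ 2 + c * (a + b) - b)))‖

/-- `St_Pet`, `St_Lf` (with `V = ℤ`, `Δ = Icc (-H) H`, the forms `2a`, `2b`, `2(a+b)`, the functions
`conj f2(· + r)`; `8`-th powers and Hölder over `a`, `b`): the sum over `a, b, h1, h2, h3 ∈ [-H, H]` of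
`‖∑ₙ dl(2ah1) dl(2bh2) dl(2(a+b)h3) f2‖` is at least `δ^C H^7` (derivatives commute; extending the
ranges is harmless, the terms are nonnegative).  Cauchy and Schwarz once more:
`‖∑ g‖² = ∑_k ∑ₙ dl k g (n)`, and the triangle inequality over `k, h1, h2, h3`. -/
def St_V2 : Prop := ∀ K : ℕ, ∃ C : ℕ, ∀ (H : ℕ) (δ : ℝ), Rg C H δ → ∀ c : ℤ, (c = 0 ∨ c = 1) →
  ∀ f0 f1 f2 : ℤ → ℂ, Bd (K * H ^ 2) f0 → Bd (K * H ^ 2) f1 → Bd (K * H ^ 2) f2 →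
  δ * (H : ℝ) ^ 3 ≤ ‖TT c H f0 f1 f2‖ →
  δ ^ C * (H : ℝ) ^ 9 ≤ ∑ k ∈ Icc (-((2 * K * H ^ 2 : ℕ) : ℤ)) ((2 * K * H ^ 2 : ℕ) : ℤ),
    VV H (dl k f2)

/-! ## 3. Control by a Gowers norm -/

/-- `St_Lf` with `V = ℤ × ℤ`, `B = sqr H`, `Δ = sqr (2H)` (`(4H+1)² ≤ 25H²` elements): the product of
the eight values of `f` in `dl(2ah1) dl(2bh2) dl(2(a+b)h3) f (n)`. -/
def St_Cl : Prop := ∀ (K H : ℕ) (f : ℤ → ℂ), 1 ≤ H → Bd (K * H ^ 2) f → ∀ h1 h2 h3 : ℤ,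
  ‖SS H f h1 h2 h3‖ ^ 128 ≤ ((2 * K + 1) * (H : ℝ) ^ 2) ^ 127 * (25 * (H : ℝ) ^ 2) ^ 121 *
    dsm (sqr (2 * H)) (L7 h1 h2 h3) f

/-- Second moment of the number of representations by a linear form `u x + v y`: for
`(s, t) = x - y ∈ sqr (4H)` with `u s + v t = 0` there are at most `8 H g / max + 1` possibilities
(multiples of `(v, -u) / g`), `g = gcd (u, v)`; `25 H²` possibilities for `y`. -/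
def St_Rep : Prop := ∀ (H : ℕ) (u v : ℤ), 1 ≤ H → (u ≠ 0 ∨ v ≠ 0) →
  (((sqr (2 * H) ×ˢ sqr (2 * H)).filter (fun x => mp u v x.1 = mp u v x.2)).card : ℝ) *
      max |(u : ℝ)| |(v : ℝ)| ≤
    25 * (H : ℝ) ^ 2 * (8 * H * (Int.gcd u v : ℝ) + max |(u : ℝ)| |(v : ℝ)|)

/-- Few bad triples.  Pairs `(x, y)` in `[-2H, 2H]²` which are not good (`Gd κ H x y` false): either
`max(|x|, |y|) ≤ κ H` (at most `(2κH+1)² ≤ 9 κ H²`) or `gcd(x, y) > 1/κ`: at most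
`∑_{g > 1/κ} (4H/g + 1)²`, `g ≤ 2H`, i.e. `≤ 36 H² ∑ 1/g² ≤ 72 κ H²`.  Each of the four pairs determines
the triple up to `2H+1` possibilities. -/
def St_Bad : Prop := ∀ (H : ℕ) (κ : ℝ), 0 < κ → κ ≤ 1 → 1 ≤ κ * H →
  (Set.ncard {x : ℤ × ℤ × ℤ | x.1 ∈ Icc (-(H : ℤ)) H ∧ x.2.1 ∈ Icc (-(H : ℤ)) H ∧
    x.2.2 ∈ Icc (-(H : ℤ)) H ∧ ¬ Good κ H x.1 x.2.1 x.2.2} : ℝ) ≤ 2000 * κ * (H : ℝ) ^ 3

/-- Second moment of the number of representations `D = 2 h (u x + v y)`, `|h| ≤ H`,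
`(x, y) ∈ sqr (2H)`, for the three forms `x`, `y`, `x + y`: for `D ≠ 0` there are at most
`8 (4H+1) τ(|D|)` representations, and `∑_{m ≤ x} τ(m)² ≤ x (1 + log x)³`; for `D = 0` at most
`C H²`. -/
def St_Div : Prop := ∃ C : ℝ, 0 < C ∧ ∀ (H : ℕ) (u v : ℤ), 1 ≤ H →
  ((u = 1 ∧ v = 0) ∨ (u = 0 ∧ v = 1) ∨ (u = 1 ∧ v = 1)) →
  (((((Icc (-(H : ℤ)) H) ×ˢ sqr (2 * H)) ×ˢ ((Icc (-(H : ℤ)) H) ×ˢ sqr (2 * H))).filter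
    (fun x => 2 * x.1.1 * mp u v x.1.2 = 2 * x.2.1 * mp u v x.2.2)).card : ℝ) ≤
    C * (H : ℝ) ^ 4 * (1 + Real.log H) ^ 3

/-- Control by `U^8`.  By `St_Bad` with `κ = δ^c` the good triples carry half of the sum; `128`-th power
(Hölder), `St_Cl`: `Y = ∑_{h good} dsm (sqr (2H)) (L7 h) f ≥ δ^C H^19`.  Group the sum over
`v4, .., v7` by the values `D4, .., D7` of the last four forms (numbers of representations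
`r_j^h(D_j)`), Cauchy and Schwarz over `(h, D4, .., D7)`: `Y² ≤ [∑ ∏ r_j²] [∑_h ∑_D (∑_{v1,v2,v3})²]`, the
first factor is at most `H^11 δ^{-C}` by `St_Rep` and goodness, in the second one `(∑)² ≤ (25H²)³ ∑`.
So `∑_h ∑_{D4..D7} ∑_{v1,v2,v3} ‖∑ₙ dl .. f‖² ≥ δ^C H^21`.  Group by the values `D1 = 2h1 α`,
`D2 = 2h2 β`, `D3 = 2h3(α+β)` of the first three forms, Cauchy and Schwarz over `D1, .., D7` with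
`St_Div` (`H^12 log^9` for the three squares of numbers of representations, `(CH²)^4` for
`D4, .., D7`) and `‖∑ₙ‖² ≤ (CH²)²`. -/
def St_Cub : Prop := ∀ K : ℕ, ∃ C : ℕ, ∀ (H : ℕ) (δ : ℝ), Rg C H δ → ∀ f : ℤ → ℂ,
  Bd (K * H ^ 2) f → δ * (H : ℝ) ^ 7 ≤ VV H f →
  δ ^ C * (H : ℝ) ^ 18 ≤ UU 7 (2 * K * H ^ 2) f

/-- `St_V2` and `St_Cub` for the functions `dl k f2`: for at least `δ^C H²` of the `k` one has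
`VV H (dl k f2) ≥ δ^C H^7`. -/
def St_U9 : Prop := ∀ K : ℕ, ∃ C : ℕ, ∀ (H : ℕ) (δ : ℝ), Rg C H δ → ∀ c : ℤ, (c = 0 ∨ c = 1) →
  ∀ f0 f1 f2 : ℤ → ℂ, Bd (K * H ^ 2) f0 → Bd (K * H ^ 2) f1 → Bd (K * H ^ 2) f2 →
  δ * (H : ℝ) ^ 3 ≤ ‖TT c H f0 f1 f2‖ → δ ^ C * (H : ℝ) ^ 20 ≤ UU 8 (2 * K * H ^ 2) f2

/-! ## 4. Degree lowering -/

/-- Inverse theorem for `U²`.  With `q = 4M + 2R + 1` (no wrapping) and `α = j/q`: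
`UU 1 R G ≤ (1/q) ∑_j |Ĝ(j/q)|⁴ ≤ max_j |Ĝ(j/q)|² ∑ |G|²`. -/
def St_U2I : Prop := ∀ (M R : ℕ) (G : ℤ → ℂ), Bd M G → ∃ α : ℝ,
  UU 1 R G ≤ (2 * M + 1) * ‖∑' n : ℤ, G n * ee (α * n)‖ ^ 2

/-- Box Cauchy-Schwarz.  For one `z`, with `S = 2R+1`:
`|∑_k g(k) ∏ b_i(k)|^(2^m) ≤ (S^m)^(2^m - 2) ∑_{k0,k1} cb m g k0 k1` by induction on `m`: for `m + 1` write
`k = (a, k')`, `b_0` does not depend on `a`, Cauchy and Schwarz over `k'`, Hölder over `(a, a')`, and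
induction for `g(a, ·) conj g(a', ·)`, `b_i(a, ·) conj b_i(a', ·)`.  The sum over `k0, k1` is real and
nonnegative; Hölder over `z`. -/
def St_Bcs : Prop := ∀ (ι : Type) (Ω : Finset ι) (m R : ℕ), 1 ≤ m →
  ∀ (g : ι → (Fin m → ℤ) → ℂ) (b : ι → Fin m → (Fin m → ℤ) → ℂ),
  (∀ z i k, ‖b z i k‖ ≤ 1) → (∀ z, Ind (b z)) →
  ‖∑ z ∈ Ω, ∑ k ∈ bx m R, g z k * ∏ i, b z i k‖ ^ (2 ^ m) ≤
    (Ω.card : ℝ) ^ (2 ^ m - 1) * (((2 * R + 1 : ℕ) : ℝ) ^ m) ^ (2 ^ m - 2) *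
      ‖∑ k0 ∈ bx m R, ∑ k1 ∈ bx m R, ∑ z ∈ Ω, cb m (g z) k0 k1‖

/-- Algebra of `cb`, `dls`, `dph`, by induction on `m`. -/
def St_Alg : Prop :=
  (∀ (m : ℕ) (g g' : (Fin m → ℤ) → ℂ) (k0 k1 : Fin m → ℤ),
    cb m (fun k => g k * g' k) k0 k1 = cb m g k0 k1 * cb m g' k0 k1) ∧
  (∀ (m : ℕ) (g : (Fin m → ℤ) → ℂ) (k0 k1 : Fin m → ℤ),
    cb m (fun k => conj (g k)) k0 k1 = conj (cb m g k0 k1)) ∧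
  (∀ (m : ℕ) (F : ℤ → ℂ) (t : ℤ) (k0 k1 : Fin m → ℤ),
    cb m (fun k => F (t + ∑ i, k i)) k0 k1 = dls m (k1 - k0) F (t + ∑ i, k0 i)) ∧
  (∀ (m : ℕ) (φ : (Fin m → ℤ) → ℝ) (x : ℝ) (k0 k1 : Fin m → ℤ),
    cb m (fun k => ee (φ k * x)) k0 k1 = ee (dph m φ k0 k1 * x)) ∧
  (∀ (m : ℕ) (g : (Fin m → ℤ) → ℂ) (k0 k1 : Fin m → ℤ), (∀ k, ‖g k‖ ≤ 1) →
    ‖cb m g k0 k1‖ ≤ 1) ∧
  (∀ (m : ℕ) (g : (Fin m → ℤ) → ℂ) (k0 k1 : Fin m → ℤ), (g k0 = 0 ∨ g k1 = 0) →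
    cb m g k0 k1 = 0)

/-- Algebra of `dls`: it is multiplicative, commutes with conjugation and with shifts, keeps bounds and
supports, vanishes if some difference is larger than `2M`, and `UU` is a sum over a box. -/
def St_Dls : Prop :=
  (∀ (m : ℕ) (k : Fin m → ℤ) (f g : ℤ → ℂ) (x : ℤ),
    dls m k (fun n => f n * g n) x = dls m k f x * dls m k g x) ∧
  (∀ (m : ℕ) (k : Fin m → ℤ) (f : ℤ → ℂ) (x : ℤ),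
    dls m k (fun n => conj (f n)) x = conj (dls m k f x)) ∧
  (∀ (m : ℕ) (k : Fin m → ℤ) (f : ℤ → ℂ) (a x : ℤ),
    dls m k (fun n => f (n + a)) x = dls m k f (x + a)) ∧
  (∀ (m M : ℕ) (k : Fin m → ℤ) (f : ℤ → ℂ), Bd M f → Bd M (dls m k f) ∧
    ((∃ i, 2 * (M : ℤ) < |k i|) → ∀ x, dls m k f x = 0)) ∧
  (∀ (m R : ℕ) (f : ℤ → ℂ), UU m R f = ∑ k ∈ bx m R, ‖∑' x : ℤ, dls m k f x‖ ^ 2) ∧
  (∀ (m R : ℕ) (f : ℤ → ℂ), UU (m + 1) R f = ∑ k ∈ bx m R, UU 1 R (dls m k f)) ∧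
  (∀ (m M R R' : ℕ) (f : ℤ → ℂ), Bd M f → 2 * M ≤ R → R ≤ R' → UU m R' f = UU m R f)

/-- Splitting of `dls`: the vertex `ω = (1, .., 1)` and, for each `i`, a factor which does not depend on
`k i`.  Induction: `dls (m+1) k F x = dls m (tail k) F x * conj (dls m (tail k) F (x + k 0))`. -/
def St_Split : Prop := ∀ (m : ℕ) (F : ℤ → ℂ), (∀ n, ‖F n‖ ≤ 1) →
  ∃ b : ℤ → Fin m → (Fin m → ℤ) → ℂ, (∀ x i k, ‖b x i k‖ ≤ 1) ∧ (∀ x, Ind (b x)) ∧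
  ∀ (x : ℤ) (k : Fin m → ℤ), dls m k F x =
    (if Even m then F (x + ∑ i, k i) else conj (F (x + ∑ i, k i))) * ∏ i, b x i k

/-- The alternating sum is `(-1)^m φ(k1)` plus functions which do not depend on one coordinate of
`k1`. -/
def St_Dec : Prop := ∀ (m : ℕ) (φ : (Fin m → ℤ) → ℝ) (k0 : Fin m → ℤ),
  ∃ ψ : Fin m → (Fin m → ℤ) → ℝ, Ind ψ ∧
  ∀ k1 : Fin m → ℤ, dph m φ k0 k1 = (-1) ^ m * φ k1 + ∑ i, ψ i k1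

/-- Exchange of derivative and dual function.  With unimodular `c_k` and `s = (-1)^m`:
`δ² H^(2m+3) ≤ ∑_{k ∈ K1} c_k ∑_{x,h} dls m k F x ee(φ(k) x)`, where by `St_Split` the vertex
`F(x + ∑ k_i) = (1/H) ∑_h F_h(x + ∑ k_i)` is written as an average over `h`; `St_Bcs` with
`z = (x, h)`, `|x| ≤ (K+2)H² + m · 2(K+2)H²` (outside of `|x| ≤ (K+2)H²` the terms are `0`), and
`g z k = 1_{K1}(k) c_k ee(φ(k) x) C^m F_h(x + ∑ k_i)`; `St_Alg` gives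
`cb = C(k0, k1) ee(dph m φ k0 k1 x) C^m dls m (k1 - k0) F_h (x + ∑ k0_i)`; put `x' = x + ∑ k0_i`.
Finally `dls m κ F_h (x) = conj (g0(x - pp c h) g1(x - pp c h + h))`, `g_i = dls m κ f_i`. -/
def St_Ic : Prop := ∀ K m : ℕ, 1 ≤ m → ∃ C : ℕ, ∀ (H : ℕ) (δ : ℝ), Rg C H δ →
  ∀ c : ℤ, (c = 0 ∨ c = 1) → ∀ f0 f1 : ℤ → ℂ, Bd (K * H ^ 2) f0 → Bd (K * H ^ 2) f1 →
  ∀ (K1 : Finset (Fin m → ℤ)) (φ : (Fin m → ℤ) → ℝ), K1 ⊆ bx m (2 * (K + 2) * H ^ 2) →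
  δ * (H : ℝ) ^ (2 * m) ≤ K1.card →
  (∀ k ∈ K1, δ * (H : ℝ) ^ 2 ≤ ‖∑' x : ℤ, dls m k (dualF c H f0 f1) x * ee (φ k * x)‖) →
  δ ^ C * (H : ℝ) ^ (4 * m + 3) ≤ ∑ k0 ∈ K1, ∑ k1 ∈ K1,
    ‖TT c H (dls m (k1 - k0) f0) (dls m (k1 - k0) f1)
      (fun n => ee (-((-1) ^ m * dph m φ k0 k1) * n))‖

/-- Vinogradov's lemma: if many multiples `a α`, `|a| ≤ H`, are near to integers then `α` is near to a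
fraction with a small denominator. -/
def St_Vl : Prop := ∀ C0 : ℕ, ∃ C : ℕ, ∀ (H : ℕ) (δ : ℝ), Rg C H δ → ∀ α : ℝ,
  δ ^ C0 * H ≤ (((Icc (-(H : ℤ)) H).filter (fun a : ℤ => nd (a * α) ≤ (1 / δ) ^ C0 / H)).card : ℝ) →
  Mj C H δ α

/-- Weyl.  Absorb `ee(ψ n)` in `g0`; Cauchy and Schwarz in `n`, `h' = h + a`, `n → n - h`:
`|TT|² ≤ (2KH²+1)² ∑_{|a| < H} |∑_h ee(2ψ a h)|`, `h` in an interval; the inner sums are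
`≤ min(H, 1/(2 nd(2ψa)))`; `St_Vl` for `2ψ`. -/
def St_Weyl : Prop := ∀ K C0 : ℕ, ∃ C : ℕ, ∀ (H : ℕ) (δ : ℝ), Rg C H δ → ∀ c : ℤ,
  (c = 0 ∨ c = 1) → ∀ g0 g1 : ℤ → ℂ, Bd (K * H ^ 2) g0 → Bd (K * H ^ 2) g1 → ∀ ψ : ℝ,
  δ ^ C0 * (H : ℝ) ^ 3 ≤ ‖TT c H g0 g1 (fun n => ee (ψ * n))‖ → Mj C H δ ψ

/-- Pigeonhole: the numbers `ψ` with `Mj C0 H δ ψ` are covered, modulo `1`, by at most `δ^{-C}` balls of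
radius `δ^C1 / H²`. -/
def St_Cell : Prop := ∀ C0 C1 : ℕ, ∃ C : ℕ, ∀ (H : ℕ) (δ : ℝ), 1 ≤ H → 0 < δ → δ ≤ 1 / 2 →
  ∀ (ι : Type) (S : Finset ι) (ψ : ι → ℝ), (∀ i ∈ S, Mj C0 H δ (ψ i)) →
  ∃ θ : ℝ, δ ^ C * (S.card : ℝ) ≤
    ((S.filter (fun i => nd (ψ i - θ) ≤ δ ^ C1 / (H : ℝ) ^ 2)).card : ℝ)

/-- End of the degree lowering.  `St_Split` for `F`, `St_Bcs` with `z = x`,
`g z k = 1_{K2}(k) c_k C^m F(x + ∑ k_i)`, and the phases `ee(ψ_i(k) x)` in the factors `b_i`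
(`ee(θ x)` in any of them); `St_Alg`; then
`∑_{k0,k1} ‖∑_x dls m (k1 - k0) F‖ ≥ δ^C H^(4m+2)` and Cauchy and Schwarz
(`κ = k1 - k0`, at most `(2R+1)^m` pairs for each `κ`). -/
def St_Fin : Prop := ∀ K m : ℕ, 1 ≤ m → ∃ C : ℕ, ∀ (H : ℕ) (δ : ℝ), Rg C H δ → ∀ F : ℤ → ℂ,
  Bd (K * H ^ 2) F → ∀ (K2 : Finset (Fin m → ℤ)) (θ : ℝ) (ψ : Fin m → (Fin m → ℤ) → ℝ), Ind ψ →
  K2 ⊆ bx m (2 * K * H ^ 2) → δ * (H : ℝ) ^ (2 * m) ≤ K2.card →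
  (∀ k ∈ K2, δ * (H : ℝ) ^ 2 ≤ ‖∑' x : ℤ, dls m k F x * ee ((θ + ∑ i, ψ i k) * x)‖) →
  δ ^ C * (H : ℝ) ^ (2 * m + 4) ≤ UU m (2 * K * H ^ 2) F

/-- Degree lowering.  `St_U2I` for `dls m k F` gives `φ(k)`; `K1` = the `k` with
`‖∑ dls m k F x ee(φ(k) x)‖ ≥ δ^C H²`, at least `δ^C H^(2m)` many; `St_Ic`; for at least `δ^C H^(4m)` pairs
in `K1²` the sum is `≥ δ^C H³`, so `Mj` by `St_Weyl`; fix `k0` with many `k1`, `St_Cell` (with a large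
`C1`), `St_Dec` (`(-1)^m` twice), replace `φ(k1)` by `θ + ∑ ψ_i(k1)` (error at most `2π |x| δ^C1 / H²` for
every `x`); `St_Fin` with `K + 2` in place of `K`. -/
def St_DL : Prop := ∀ K m : ℕ, 1 ≤ m → ∃ C : ℕ, ∀ (H : ℕ) (δ : ℝ), Rg C H δ → ∀ c : ℤ,
  (c = 0 ∨ c = 1) → ∀ f0 f1 : ℤ → ℂ, Bd (K * H ^ 2) f0 → Bd (K * H ^ 2) f1 →
  δ * (H : ℝ) ^ (2 * m + 6) ≤ UU (m + 1) (2 * (K + 2) * H ^ 2) (dualF c H f0 f1) →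
  δ ^ C * (H : ℝ) ^ (2 * m + 4) ≤ UU m (2 * (K + 2) * H ^ 2) (dualF c H f0 f1)

/-- `St_DL` for `m = 7, 6, .., 1`, `St_U2I`, and `St_Weyl` (the Fourier coefficient of the dual function
is `TT` with `ee` in the third place). -/
def St_Low : Prop := ∀ K : ℕ, ∃ C : ℕ, ∀ (H : ℕ) (δ : ℝ), Rg C H δ → ∀ c : ℤ, (c = 0 ∨ c = 1) →
  ∀ f0 f1 : ℤ → ℂ, Bd (K * H ^ 2) f0 → Bd (K * H ^ 2) f1 →
  δ * (H : ℝ) ^ 20 ≤ UU 8 (2 * (K + 2) * H ^ 2) (dualF c H f0 f1) →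
  ∃ α : ℝ, Mj C H δ α ∧ δ ^ C * (H : ℝ) ^ 3 ≤ ‖TT c H f0 f1 (fun n => ee (α * n))‖

/-! ## 5. Inverse theorems -/

/-- Progressions.  `h = h0 + q y`, `y ≤ L`: `ee(α pp c (h0 + q y))` is `ee(α pp c h0)` up to
`2π (1/δ)^C0 L (2H + q L + 1) / H²`; so
`∑_{h0} ∑_n |∑_{y ≤ L} f1(n + h0 + q y)| ≥ δ^C H³ L` over at most `H + qL` values of `h0` (average over all
`h0`, each `h ≤ H` is counted `L` times up to the ends), `n → n - h0`. -/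
def St_Ap : Prop := ∀ K C0 : ℕ, ∃ C : ℕ, ∀ (H : ℕ) (δ : ℝ), Rg C H δ → ∀ c : ℤ, (c = 0 ∨ c = 1) →
  ∀ f0 f1 : ℤ → ℂ, Bd (K * H ^ 2) f0 → Bd (K * H ^ 2) f1 → ∀ (α : ℝ) (q : ℕ), 1 ≤ q →
  (q : ℝ) ≤ (1 / δ) ^ C0 → nd (q * α) ≤ (1 / δ) ^ C0 / (H : ℝ) ^ 2 →
  δ ^ C0 * (H : ℝ) ^ 3 ≤ ‖TT c H f0 f1 (fun n => ee (α * n))‖ →
  ∀ L : ℕ, 1 ≤ L → (L : ℝ) ≤ δ ^ C * H →
  δ ^ C * (H : ℝ) ^ 2 * L ≤ ∑' n : ℤ, ‖∑ y ∈ Icc (1 : ℤ) L, f1 (n + q * y)‖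

/-- First inverse theorem: `St_Dual`, `St_U9` (for the dual function, `K + 2`), `St_Low`, `St_Ap`. -/
def St_Inv1 : Prop := ∀ K : ℕ, ∃ C : ℕ, ∀ (H : ℕ) (δ : ℝ), Rg C H δ → ∀ c : ℤ, (c = 0 ∨ c = 1) →
  ∀ f0 f1 f2 : ℤ → ℂ, Bd (K * H ^ 2) f0 → Bd (K * H ^ 2) f1 → Bd (K * H ^ 2) f2 →
  δ * (H : ℝ) ^ 3 ≤ ‖TT c H f0 f1 f2‖ → ∃ q : ℕ, 1 ≤ q ∧ (q : ℝ) ≤ (1 / δ) ^ C ∧
  ∀ L : ℕ, 1 ≤ L → (L : ℝ) ≤ δ ^ C * H →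
  δ ^ C * (H : ℝ) ^ 2 * L ≤ ∑' n : ℤ, ‖∑ y ∈ Icc (1 : ℤ) L, f1 (n + q * y)‖

/-- Replacing `f1` by a function which is almost constant along progressions.  `St_Dual` for
`G = dualG`, `St_Inv1` for `(f0, G, f2)`: with `L = ⌊δ^C H⌋` and unimodular `σ`,
`∑_x G(x) g1(x) ≥ δ^C H²`, `g1(x) = (1/L) ∑_{y ≤ L} σ(x - q y)`, that is `|TT c H f0 (conj g1)~ f2| ≥ δ^C H³`;
`|g1(x + q z) - g1(x)| ≤ 2 |z| / L`; split `h = h0 + q z`, `z ≤ Z = ⌊δ^C' H⌋`, `C' > C`; one `h0` is good.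
(`G(x) = (1/H) ∑_h conj (f0(x-h) f2(x-h+pp c h))`.) -/
def St_Sm : Prop := ∀ K : ℕ, ∃ C : ℕ, ∀ (H : ℕ) (δ : ℝ), Rg C H δ → ∀ c : ℤ, (c = 0 ∨ c = 1) →
  ∀ f0 f1 f2 : ℤ → ℂ, Bd (K * H ^ 2) f0 → Bd (K * H ^ 2) f1 → Bd (K * H ^ 2) f2 →
  δ * (H : ℝ) ^ 3 ≤ ‖TT c H f0 f1 f2‖ → ∃ (q Z : ℕ) (h0 : ℤ), 1 ≤ q ∧ (q : ℝ) ≤ (1 / δ) ^ C ∧
  |h0| ≤ H ∧ q * Z ≤ H ∧ δ ^ C * H ≤ Z ∧
  δ ^ C * (H : ℝ) ^ 2 * Z ≤ ∑' n : ℤ, ‖∑ z ∈ Icc (1 : ℤ) Z, f2 (n + pp c (h0 + q * z))‖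

/-- Two functions.  Cauchy and Schwarz: `∑_n |∑_z f2(n + pp c (h0 + q z))|² ≥ δ^C H² Z²`; Fourier analysis
modulo `N'` (a large multiple of `H²`, no wrapping): this is
`(1/N') ∑_j |f̂2(j/N')|² |W(j/N')|²`, `W(α) = ∑_z ee(-α pp c (h0 + q z))`; the `j` with
`|W| ≤ δ^C' Z` are negligible, for the others `j/N'` is near to a fraction with a small denominator (Weyl
and `St_Vl` for the quadratic polynomial), and there are at most `δ^{-C}` of these `j`. -/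
def St_W2 : Prop := ∀ K C0 : ℕ, ∃ C : ℕ, ∀ (H : ℕ) (δ : ℝ), Rg C H δ → ∀ c : ℤ,
  (c = 0 ∨ c = 1) → ∀ f2 : ℤ → ℂ, Bd (K * H ^ 2) f2 → ∀ (q Z : ℕ) (h0 : ℤ), 1 ≤ q →
  (q : ℝ) ≤ (1 / δ) ^ C0 → |h0| ≤ H → q * Z ≤ H → δ ^ C0 * H ≤ Z →
  δ ^ C0 * (H : ℝ) ^ 2 * Z ≤ ∑' n : ℤ, ‖∑ z ∈ Icc (1 : ℤ) Z, f2 (n + pp c (h0 + q * z))‖ →
  ∃ α : ℝ, Mj C H δ α ∧ δ ^ C * (H : ℝ) ^ 2 ≤ ‖∑' n : ℤ, f2 n * ee (α * n)‖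

/-- Second inverse theorem: `St_Sm` and `St_W2`. -/
def St_Inv2 : Prop := ∀ K : ℕ, ∃ C : ℕ, ∀ (H : ℕ) (δ : ℝ), Rg C H δ → ∀ c : ℤ, (c = 0 ∨ c = 1) →
  ∀ f0 f1 f2 : ℤ → ℂ, Bd (K * H ^ 2) f0 → Bd (K * H ^ 2) f1 → Bd (K * H ^ 2) f2 →
  δ * (H : ℝ) ^ 3 ≤ ‖TT c H f0 f1 f2‖ →
  ∃ α : ℝ, Mj C H δ α ∧ δ ^ C * (H : ℝ) ^ 2 ≤ ‖∑' n : ℤ, f2 n * ee (α * n)‖

/-- The second inverse theorem with weights.  Cauchy and Schwarz in `h`: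
`|TW|² ≤ H ∑_{|k| ≤ 2KH²} TT c H (dl k f0) (dl k f1) (dl k f2)`; `St_Inv2` for many `k`, `St_Cell`:
`∑_k ‖∑_n f2(n) conj f2(n+k) ee(θ n)‖² ≥ δ^C H^6` for one `θ`; with `g1 = f2 ee(θ ·)` this is at most
`max_β |f̂2(β)|² ∑ |g1|²` (Fourier analysis modulo a large number). -/
def St_Inv2w : Prop := ∀ K : ℕ, ∃ C : ℕ, ∀ (H : ℕ) (δ : ℝ), Rg C H δ → ∀ c : ℤ, (c = 0 ∨ c = 1) →
  ∀ w f0 f1 f2 : ℤ → ℂ, (∀ h, ‖w h‖ ≤ 1) → Bd (K * H ^ 2) f0 → Bd (K * H ^ 2) f1 →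
  Bd (K * H ^ 2) f2 → δ * (H : ℝ) ^ 3 ≤ ‖TW c H w f0 f1 f2‖ →
  ∃ β : ℝ, δ ^ C * (H : ℝ) ^ 2 ≤ ‖∑' n : ℤ, f2 n * ee (β * n)‖

end Pool.Agent.NRP
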