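import Mathlib
import Pool.Agent.NRP.StI
import Pool.Agent.GBQ.Defs

set_option autoImplicit false

/-!
# NRP: interfaces between the blocks and the final theorems

`lam = Λ`, `LamS z n = (∏_{p ≤ z} (1 - 1/p))⁻¹` if `n` has no prime factor `≤ z`, otherwise `0`;
`zz B X = ⌊log^B X⌋`.  Blocks: I (inverse theorem, `StI.lean`), J (weights, `StJ.lean`), P (the model
in short progressions, here), L (local Fourier uniformity of `lam - LamS` at the scale `X^{1/2}`,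
`StL.lean`), V (`St_Sap`, `StV.lean`), BVS (`St_BVS`, `StBV.lean`), M (main terms, `StM.lean`),
F (assembly, here).
-/

namespace Pool.Agent.NRP

open Finset Filter
open Pool.Agent.GBQ (ee nd gm lam LamS zz rho pr)
open scoped ComplexConjugate

/-- `Λ` on the integers -/
noncomputable def lamZ (n : ℤ) : ℝ := lam n.toNat

/-- the model on the integers -/
noncomputable def LamZ (z : ℕ) (n : ℤ) : ℝ := if 0 < n then LamS z n.toNat else 0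

/-- `Λ - Λ_z` on `(u, v]` -/
noncomputable def gI (z u v : ℕ) (n : ℤ) : ℝ :=
  if (u : ℤ) < n ∧ n ≤ v then lamZ n - LamZ z n else 0

/-- the local factor of a `k`-tuple -/
noncomputable def locf (S : Finset ℤ) (k p : ℕ) : ℝ :=
  (1 - ((S.image (fun x => x % (p : ℤ))).card : ℝ) / p) / (1 - 1 / (p : ℝ)) ^ k

/-- truncated singular series of a triple -/
noncomputable def GS (z : ℕ) (S : Finset ℤ) : ℝ := ∏ p ∈ pr z, locf S 3 p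

/-- the singular series of `n, n + h, n + h² + h` and of `n, n + h², n + h² + h` -/
noncomputable def SG (h : ℕ) : ℝ := ∏' p : Nat.Primes, locf {0, (h : ℤ), (h : ℤ) ^ 2 + h} 3 p

/-- number of the `k` modulo `p` with `p ∣ (n + k)(n + k²)` -/
def om (p n : ℕ) : ℕ := ((range p).filter (fun k => p ∣ (n + k) * (n + k ^ 2))).card

/-- truncated singular series of `n + k, n + k²` -/
noncomputable def GA (z n : ℕ) : ℝ := ∏ p ∈ pr z, (1 - (om p n : ℝ) / p) / (1 - 1 / (p : ℝ)) ^ 2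

/-! ## Block P: the model in short progressions and on minor arcs

Tools: `GBQ.thm_Bonf`, `GBQ.thm_Esym`, `GBQ.thm_Trunc` (level `X^ε'`, see the proofs of
`GBQ.thm_LSAP` and `GBQ.thm_MinLS`, which are the long smooth versions), `GBQ.thm_TypeI`,
`GBQ.thm_Geo`. -/

/-- The model in short progressions, sharp; `z ≤ log^B X`, all prime factors of `q` are `≤ z`.
For `b` not coprime to `q` the sum is empty.  Otherwise the primes `p ≤ z`, `p ∤ q` are sifted with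
Bonferroni; for squarefree `d` coprime to `q` the number of `n ∈ (u, u+L]`, `n ≡ b (q)`, `d ∣ n`, is
`L/(dq) + O(1)`; `rho(z)⁻¹ ∏_{p ≤ z, p ∤ q} (1 - 1/p) = q/φ(q)`. -/
def St_ModS : Prop := ∀ (A B : ℕ) (ε : ℝ), 0 < ε → ∀ᶠ X : ℕ in atTop, ∀ z : ℕ, 2 ≤ z →
  (z : ℝ) ≤ Real.log X ^ B → ∀ q b u L : ℕ, 1 ≤ q → q ≤ z → u ≤ X ^ 2 → (X : ℝ) ^ ε ≤ L →
  |∑ n ∈ (Ioc u (u + L)).filter (fun n => n % q = b % q), LamS z n -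
    (if b.Coprime q then (L : ℝ) / (q.totient : ℝ) else 0)| ≤ L / Real.log X ^ A

/-- The model on minor arcs, in short intervals.  Bonferroni with the level `D ≤ X^(ε/2)`: the sum over
the multiples of `d` is a geometric sum, `≤ gm (L/d + 1) (α d)`; `GBQ.thm_TypeI` with `N = L`
(`gm (L/d + 1) ≤ 2 gm (L/d)`).  `(rho z)⁻¹ ≤ C log z` (`GBQ.thm_RhoLow`): the exponent `C` does not depend on
`A` and `B`. -/
def St_MinS : Prop := ∀ ε : ℝ, 0 < ε → ε < 1 → ∃ C : ℕ, ∀ A B : ℕ, ∀ᶠ X : ℕ in atTop,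
  ∀ z : ℕ, 2 ≤ z → (z : ℝ) ≤ Real.log X ^ B → ∀ u L : ℕ, (X : ℝ) ^ ε ≤ L → L ≤ X ^ 2 →
  ∀ (α : ℝ) (a : ℤ) (q : ℕ), 1 ≤ q → q ≤ L → Int.gcd a q = 1 → |α - a / q| ≤ 1 / (q : ℝ) ^ 2 →
  ‖∑ n ∈ Ioc u (u + L), ((LamS z n : ℝ) : ℂ) * ee (α * n)‖ ≤
    ((L : ℝ) / q + (X : ℝ) ^ (ε / 2) + q) * Real.log X ^ C + L / Real.log X ^ A

/-- The Fourier transform of `Λ - Λ_z` on `(u, v]` is small everywhere.  Dirichlet with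
`Q = X / log^D X`; minor arcs (`q > log^D X`): `GBQ.thm_Vin` and `St_MinS` (for `v - u ≥ X^(1/2)`, otherwise
trivial); major arcs (`|α - a/q| ≤ log^D X / (q X)`): split `(0, u]` and `(0, v]` into residue classes modulo `q`,
`BVX.sw_ap` (at `N = 3X`, all `M ≤ N`) and `St_ModS`, partial summation; the classes not coprime to `q`
contain only prime powers.  `B₀ = D`. -/
def St_SupS : Prop := ∀ A : ℕ, ∃ B₀ : ℕ, ∀ B : ℕ, B₀ ≤ B → ∀ᶠ X : ℕ in atTop, ∀ u v : ℕ,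
  v ≤ 3 * X → ∀ α : ℝ,
  ‖∑ n ∈ Ioc u v, ((lam n - LamS (zz B X) n : ℝ) : ℂ) * ee (α * n)‖ ≤ X / Real.log X ^ A

/-! ## Block BVS -/

/-- Bombieri-Vinogradov with sharp cutoffs and divisor weights, small level -/
def St_BVS : Prop := ∀ A C : ℕ, ∀ᶠ X : ℕ in atTop, ∃ E : ℕ → ℝ, (∀ q, 0 ≤ E q) ∧
  (∀ q b u : ℕ, 1 ≤ q → (q : ℝ) ≤ (X : ℝ) ^ (1 / 100 : ℝ) → b.Coprime q → u ≤ X →
    |∑ n ∈ (range (u + 1)).filter (fun n => n % q = b % q), lam n - (u : ℝ) / (q.totient : ℝ)| ≤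
      E q) ∧
  ∑ q ∈ (Icc 1 X).filter (fun q : ℕ => (q : ℝ) ≤ (X : ℝ) ^ (1 / 100 : ℝ)),
    (C : ℝ) ^ q.primeFactors.card * E q ≤ X / Real.log X ^ A

/-! ## Block V -/

/-- `Λ` in almost all intervals of length about `X^(1/2)` and in residue classes to small moduli -/
def St_Sap : Prop := ∀ A C D : ℕ, ∀ᶠ X : ℕ in atTop, ∀ q b L : ℕ, 1 ≤ q →
  (q : ℝ) ≤ Real.log X ^ D → b.Coprime q → Real.sqrt X / Real.log X ^ C ≤ L →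
  (L : ℝ) ≤ Real.sqrt X * Real.log X ^ C →
  ∑ x ∈ Icc X (2 * X), ((∑ n ∈ (Ioc x (x + L)).filter (fun n => n % q = b % q), lam n) -
    (L : ℝ) / (q.totient : ℝ)) ^ 2 ≤ X * (L : ℝ) ^ 2 / Real.log X ^ A

/-! ## Block L: the result -/

/-- minor windows (= Theorem M of helper62, `StM.lean`) -/
def St_MinL : Prop := ∀ A C : ℕ, ∃ D B₀ : ℕ, ∀ B : ℕ, ∀ᶠ X : ℕ in atTop, ∀ z : ℕ,
  Real.log X ^ B₀ ≤ z → (z : ℝ) ≤ Real.log X ^ B → ∀ L : ℕ,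
  Real.sqrt X / Real.log X ^ C ≤ L → (L : ℝ) ≤ Real.sqrt X → ∀ (β : ℝ) (a : ℤ) (q : ℕ),
  Real.log X ^ D ≤ q → (q : ℝ) ≤ L / Real.log X ^ D → Int.gcd a q = 1 →
  |β - a / q| ≤ 1 / (q : ℝ) ^ 2 →
  ∑ x ∈ Icc X (2 * X), ‖∑ n ∈ Ioc x (x + L), ((lam n - LamS z n : ℝ) : ℂ) * ee (β * n)‖ ^ 2 ≤
    X * (L : ℝ) ^ 2 / Real.log X ^ A

/-- Major windows.  Cut `(x, x + L]` into windows of length `L' = ⌊L / log^(D+A+4) X⌋` (and a shorter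
one); on a window `(y, y + L']` the factor `ee((β - a/q) n)` is constant up to `2π log^D X L' / (q L)`; split into residue
classes `b` modulo `q`; for `(b, q) = 1` compare `lam` (`St_Sap`, on `[X, 2X]` and `[2X, 4X]`) and `LamS z`
(`St_ModS`, `ε = 1/4`) with `L'/φ(q)`; for `(b, q) > 1` the model vanishes (`q ≤ z`) and `lam` is supported on the
powers of the prime factors of `q`; `|lam|, |LamS| ≤ log² X` for the trivial estimates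
(`GBQ.thm_RhoLow`). -/
def St_MajL : Prop := ∀ A C D : ℕ, ∃ B₀ : ℕ, ∀ B : ℕ, ∀ᶠ X : ℕ in atTop, ∀ z : ℕ,
  Real.log X ^ B₀ ≤ z → (z : ℝ) ≤ Real.log X ^ B → ∀ L : ℕ,
  Real.sqrt X / Real.log X ^ C ≤ L → (L : ℝ) ≤ Real.sqrt X → ∀ (β : ℝ) (a : ℤ) (q : ℕ), 1 ≤ q →
  (q : ℝ) ≤ Real.log X ^ D → |β - a / q| ≤ Real.log X ^ D / (q * L) →
  ∑ x ∈ Icc X (2 * X), ‖∑ n ∈ Ioc x (x + L), ((lam n - LamS z n : ℝ) : ℂ) * ee (β * n)‖ ^ 2 ≤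
    X * (L : ℝ) ^ 2 / Real.log X ^ A

/-- Dyadic form, the parameter `z` is free.  `L ≤ √X`: Dirichlet with `Q = ⌊L / log^D X⌋`, `D` from `St_MinL`
(for `A`, `C`), then `St_MajL` for this `D`.  `L > √X`: cut `(x, x + L]` into windows of length about `√X`
(at most `log^C X + 1` of them, Cauchy and Schwarz, `[X, 2X + L] ⊆ [X, 2X] ∪ [2X, 4X]`). -/
def St_LocD : Prop := ∀ A C : ℕ, ∃ B₀ : ℕ, ∀ B : ℕ, ∀ᶠ X : ℕ in atTop, ∀ z : ℕ,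
  Real.log X ^ B₀ ≤ z → (z : ℝ) ≤ Real.log X ^ B → ∀ L : ℕ,
  Real.sqrt X / Real.log X ^ C ≤ L → (L : ℝ) ≤ Real.sqrt X * Real.log X ^ C → ∀ β : ℝ,
  ∑ x ∈ Icc X (2 * X), ‖∑ n ∈ Ioc x (x + L), ((lam n - LamS z n : ℝ) : ℂ) * ee (β * n)‖ ^ 2 ≤
    X * (L : ℝ) ^ 2 / Real.log X ^ A

/-- `St_LocD` for `X_j = ⌊3X / 2^j⌋`, as long as `X_j ≥ X / log^(A+3) X` (`log^B₀ X_j ≤ zz B X ≤ log^(B+1) X_j`,
`L` compared with `X_j^(1/2)`); the `x` below, and the `x` with `u` or `v` in `(x, x + L]`, are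
estimated trivially (`|gI| ≤ 2 log X`). -/
def St_Loc : Prop := ∀ A C : ℕ, ∃ B₀ : ℕ, ∀ B : ℕ, B₀ ≤ B → ∀ᶠ X : ℕ in atTop, ∀ u v : ℕ,
  v ≤ 3 * X → ∀ L : ℕ, Real.sqrt X / Real.log X ^ C ≤ L → (L : ℝ) ≤ Real.sqrt X * Real.log X ^ C →
  ∀ β : ℝ, ∑' x : ℤ, ‖∑ n ∈ Ioc x (x + L), ((gI (zz B X) u v n : ℝ) : ℂ) * ee (β * n)‖ ^ 2 ≤
    X * (L : ℝ) ^ 2 / Real.log X ^ A

/-- `St_Loc` for the length `q L` and the frequencies `β + a/q`, `a < q`: detect `m ≡ n (mod q)` by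
additive characters, `‖∑_{y ≤ L} g(n + q y) ee(β q y)‖² ≤ (1/q) ∑_{a<q} ‖∑_{m ∈ (n, n+qL]} g(m) ee((β+a/q) m)‖²`. -/
def St_LocAP : Prop := ∀ A C : ℕ, ∃ B₀ : ℕ, ∀ B : ℕ, B₀ ≤ B → ∀ᶠ X : ℕ in atTop, ∀ u v : ℕ,
  v ≤ 3 * X → ∀ q L : ℕ, 1 ≤ q → (q : ℝ) ≤ Real.log X ^ C → Real.sqrt X / Real.log X ^ C ≤ L →
  (L : ℝ) ≤ Real.sqrt X → ∀ β : ℝ,
  ∑' n : ℤ, ‖∑ y ∈ Icc (1 : ℤ) L, ((gI (zz B X) u v (n + q * y) : ℝ) : ℂ) * ee (β * (q * y))‖ ^ 2 ≤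
    X * (L : ℝ) ^ 2 / Real.log X ^ A

/-! ## Block M: main terms -/

/-- one prime and two models; `n + a`, `n + b` positive; uniform in `a`, `b` -/
def St_BVM : Prop := ∀ A B : ℕ, ∀ᶠ X : ℕ in atTop, ∀ z : ℕ, 2 ≤ z → (z : ℝ) ≤ Real.log X ^ B →
  ∀ (a b : ℤ) (u v : ℕ), u ≤ v → v ≤ 3 * X → |a| ≤ 3 * X → |b| ≤ 3 * X → 0 ≤ u + a → 0 ≤ u + b →
  |∑ n ∈ Ioc u v, lam n * LamZ z (n + a) * LamZ z (n + b) - ((v : ℝ) - u) * GS z {0, a, b}| ≤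
    X / Real.log X ^ A

/-- the singular series -/
def St_Sing : Prop :=
  (∀ h : ℕ, 1 ≤ h → Multipliable (fun p : Nat.Primes => locf {0, (h : ℤ), (h : ℤ) ^ 2 + h} 3 p)) ∧
  (∀ (h : ℕ) (z : ℕ), GS z {0, (h : ℤ) ^ 2, (h : ℤ) ^ 2 + h} = GS z {0, (h : ℤ), (h : ℤ) ^ 2 + h}) ∧
  (∀ (h : ℤ) (z : ℕ), GS z {0, -h, -h ^ 2 - h} = GS z {0, h, h ^ 2 + h}) ∧
  (∀ A : ℕ, ∃ B₀ : ℕ, ∀ B : ℕ, B₀ ≤ B → ∀ᶠ X : ℕ in atTop, ∀ h : ℕ, 1 ≤ h → h ≤ X →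
    |GS (zz B X) {0, (h : ℤ), (h : ℤ) ^ 2 + h} - SG h| ≤ 1 / Real.log X ^ A) ∧
  (∀ h : ℕ, 1 ≤ h → ¬ (h % 2 = 0 ∧ h % 3 ≠ 1) → SG h = 0) ∧
  (∃ c : ℝ, 0 < c ∧ ∀ h : ℕ, 1 ≤ h → h % 2 = 0 → h % 3 ≠ 1 → c ≤ SG h)

/-- two models along `n + k`, `n + k²` -/
def St_A3 : Prop := ∀ A B : ℕ, ∀ᶠ X : ℕ in atTop, ∀ z : ℕ, 2 ≤ z → (z : ℝ) ≤ Real.log X ^ B →
  ∀ n K : ℕ, n ≤ X → (X : ℝ) ^ (1 / 4 : ℝ) ≤ K → K ≤ X →
  |∑ k ∈ Icc 1 K, LamS z (n + k) * LamS z (n + k ^ 2) - K * GA z n| ≤ K / Real.log X ^ A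

/-- lower and upper bound for the truncated singular series -/
def St_GAl : Prop := ∃ c C : ℝ, 0 < c ∧ 0 < C ∧ ∀ z n : ℕ, 2 ≤ z →
  c / Real.log z ≤ GA z n ∧ GA z n ≤ C * Real.log z ^ 2

/-! ## Block F: assembly -/

/-- the third place.  Normalise (`|gI| ≤ 2 log X`), `δ = log^{-A'} X`, `H = ⌊√X⌋`, `3X ≤ 12 H²`; `St_Inv2w` with
`K = 12` and `St_SupS` (`β` or `-β`). -/
def St_TW2 : Prop := ∀ A : ℕ, ∃ B₀ : ℕ, ∀ B : ℕ, B₀ ≤ B → ∀ᶠ X : ℕ in atTop, ∀ c : ℤ,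
  (c = 0 ∨ c = 1) → ∀ (w f0 f1 : ℤ → ℂ) (u v : ℕ) (s : ℤ), v ≤ 3 * X → (s = 1 ∨ s = -1) →
  (∀ h, ‖w h‖ ≤ 1) → (∀ n, ‖f0 n‖ ≤ Real.log X ^ 2) → (∀ n, ‖f1 n‖ ≤ Real.log X ^ 2) →
  (∀ n : ℤ, 3 * (X : ℤ) < |n| → f0 n = 0 ∧ f1 n = 0) →
  ‖TW c (Nat.sqrt X) w f0 f1 (fun n => ((gI (zz B X) u v (s * n) : ℝ) : ℂ))‖ ≤
    X * Real.sqrt X / Real.log X ^ A

/-- the second place: `St_Inv1w` with `K = 12`, `L = ⌊δ^C H⌋`, and `St_LocAP` (for `s = -1`: `n → -n - q (L+1)`,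
`y → L + 1 - y`, `β → -β`). -/
def St_TW1 : Prop := ∀ A : ℕ, ∃ B₀ : ℕ, ∀ B : ℕ, B₀ ≤ B → ∀ᶠ X : ℕ in atTop, ∀ c : ℤ,
  (c = 0 ∨ c = 1) → ∀ (w f0 f2 : ℤ → ℂ) (u v : ℕ) (s : ℤ), v ≤ 3 * X → (s = 1 ∨ s = -1) →
  (∀ h, ‖w h‖ ≤ 1) → (∀ n, ‖f0 n‖ ≤ Real.log X ^ 2) → (∀ n, ‖f2 n‖ ≤ Real.log X ^ 2) →
  (∀ n : ℤ, 3 * (X : ℤ) < |n| → f0 n = 0 ∧ f2 n = 0) →
  ‖TW c (Nat.sqrt X) w f0 (fun n => ((gI (zz B X) u v (s * n) : ℝ) : ℂ)) f2‖ ≤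
    X * Real.sqrt X / Real.log X ^ A

/-- the two triple sums -/
noncomputable def T3a (X h : ℕ) : ℝ := ∑ n ∈ Icc 1 X, lam n * lam (n + h) * lam (n + h ^ 2 + h)

noncomputable def T3b (X h : ℕ) : ℝ := ∑ n ∈ Icc 1 X, lam n * lam (n + h ^ 2) * lam (n + h ^ 2 + h)

/-- Theorem B for the pattern `n, n + h, n + h² + h`: `w(h)` = sign of the difference,
`lam lam lam = lam lam gI + lam gI LamZ + lam LamZ LamZ` (`n ≤ X`, `n + h ≤ 2X`, `n + h² + h ≤ 3X`), `St_TW2`, `St_TW1`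
with `s = 1`, `c = 1`; `St_BVM`, `St_Sing`. -/
def St_Ba : Prop := ∀ A : ℕ, ∀ᶠ X : ℕ in atTop,
  ∑ h ∈ Icc 1 (Nat.sqrt X), |T3a X h - SG h * X| ≤ X * Real.sqrt X / Real.log X ^ A

/-- Theorem B for the pattern `n, n + h², n + h² + h`, by reflection `m = -(n + h² + h)`:
`TW 1 H w f0 f1 f2` with `f0(m) = lamZ(-m)` (at `n + h² + h`), `f1(m) = lamZ(-m)` (at `n + h²`),
`f2(m) = lamZ(-m) 1_{-m ≤ X}` (at `n`); replace `f2`, then `f1` (`s = -1`); the remaining sum is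
`∑_n LamZ(n) LamZ(n + h²) lam(n + h² + h)`, `n' = n + h² + h`: `St_BVM` with `a = -h`, `b = -h² - h`. -/
def St_Bb : Prop := ∀ A : ℕ, ∀ᶠ X : ℕ in atTop,
  ∑ h ∈ Icc 1 (Nat.sqrt X), |T3b X h - SG h * X| ≤ X * Real.sqrt X / Real.log X ^ A

/-- Theorem A: for `n ≤ X` and one `K ≤ √X`; `c = 0`, `f0(n)` = sign on `[1, X]`, `w = 1_{k ≤ K}`. -/
def St_Aa : Prop := ∀ A : ℕ, ∃ B₀ : ℕ, ∀ B : ℕ, B₀ ≤ B → ∀ᶠ X : ℕ in atTop, ∀ K : ℕ,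
  K ≤ Nat.sqrt X →
  ∑ n ∈ Icc 1 X, |∑ k ∈ Icc 1 K, lam (n + k) * lam (n + k ^ 2) - K * GA (zz B X) n| ≤
    X * Real.sqrt X / Real.log X ^ A

/-- Theorem A with `k ≤ √n`: `St_Aa` for `K = ⌊j √X / log^A' X⌋`, `j ≤ log^A' X`; for each `n` take the `K`
next to `√n` (`lam ≤ 2 log X`, `GA ≤ C log log² X`). -/
def St_Ab : Prop := ∀ A : ℕ, ∃ B₀ : ℕ, ∀ B : ℕ, B₀ ≤ B → ∀ᶠ X : ℕ in atTop,
  ∑ n ∈ Icc 1 X, |∑ k ∈ Icc 1 (Nat.sqrt n), lam (n + k) * lam (n + k ^ 2) -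
    Real.sqrt n * GA (zz B X) n| ≤ X * Real.sqrt X / Real.log X ^ A

end Pool.Agent.NRP
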