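import Pool.Agent.NRP.StN
import Pool.Agent.GBQ.RhoLow

set_option autoImplicit false

/-!
# NRP, module Loc: dyadic decomposition and trivial parts (helper63)
-/

namespace Pool.Agent.NRP

open Finset Filter
open Pool.Agent.GBQ (ee nd gm lam LamS zz rho pr)

theorem loc_zero (z u v L : ℕ) (β : ℝ) (x : ℤ) (h : (v : ℤ) ≤ x ∨ x + L ≤ u) :
    ∑ n ∈ Ioc x (x + L), ((gI z u v n : ℝ) : ℂ) * ee (β * n) = 0 := by
  apply sum_eq_zero
  intro n hn
  rw [mem_Ioc] at hn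
  unfold gI
  rw [if_neg]
  · simp
  · rintro ⟨h1, h2⟩
    omega

theorem loc_full (z u v L : ℕ) (β : ℝ) (x : ℕ) (hu : u ≤ x) (hv : x + L ≤ v) :
    ∑ n ∈ Ioc (x : ℤ) (x + L), ((gI z u v n : ℝ) : ℂ) * ee (β * n) =
      ∑ n ∈ Ioc x (x + L), ((lam n - LamS z n : ℝ) : ℂ) * ee (β * n) := by
  have h1 : Ioc (x : ℤ) (x + L) = (Ioc x (x + L)).image (fun n : ℕ => (n : ℤ)) := by
    ext n
    rw [mem_Ioc, mem_image]
    constructor
    · rintro ⟨h1, h2⟩
      exact ⟨n.toNat, by rw [mem_Ioc]; omega, by omega⟩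
    · rintro ⟨m, hm, rfl⟩
      rw [mem_Ioc] at hm
      omega
  rw [h1, sum_image (fun a _ b _ h => by exact_mod_cast h)]
  refine sum_congr rfl fun n hn => ?_
  rw [mem_Ioc] at hn
  unfold gI
  rw [if_pos ⟨by omega, by omega⟩]
  unfold lamZ LamZ
  rw [if_pos (by omega), Int.toNat_natCast, Int.cast_natCast]

theorem loc_bound (z u v L : ℕ) (β M : ℝ) (hM : ∀ n, |gI z u v n| ≤ M) (x : ℤ) :
    ‖∑ n ∈ Ioc x (x + L), ((gI z u v n : ℝ) : ℂ) * ee (β * n)‖ ^ 2 ≤ (M * L) ^ 2 := by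
  have h1 : ‖∑ n ∈ Ioc x (x + L), ((gI z u v n : ℝ) : ℂ) * ee (β * n)‖ ≤ M * L := by
    refine (norm_sum_le _ _).trans ?_
    have h2 : ∀ n ∈ Ioc x (x + L), ‖((gI z u v n : ℝ) : ℂ) * ee (β * n)‖ ≤ M := by
      intro n _
      rw [norm_mul, Pool.Agent.GBQ.ee_norm, mul_one, Complex.norm_real, Real.norm_eq_abs]
      exact hM n
    refine (sum_le_sum h2).trans ?_
    rw [sum_const, Int.card_Ioc, nsmul_eq_mul]
    have h3 : (x + (L : ℤ) - x).toNat = L := by omega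
    rw [h3]
    exact (mul_comm _ _).le
  exact pow_le_pow_left₀ (norm_nonneg _) h1 2

theorem loc_ite_card (T T1 : Finset ℤ) (K : ℝ) (hK : 0 ≤ K) :
    ∑ x ∈ T, (if x ∈ T1 then K else 0) ≤ T1.card * K := by
  rw [sum_ite_mem, sum_const, nsmul_eq_mul]
  refine mul_le_mul_of_nonneg_right ?_ hK
  exact_mod_cast card_le_card inter_subset_right

/-- the splitting -/
theorem loc_split (z u v L V Y1 : ℕ) (β M : ℝ) (hM : ∀ n, |gI z u v n| ≤ M) (hv : v ≤ V) :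
    ∑' x : ℤ, ‖∑ n ∈ Ioc x (x + L), ((gI z u v n : ℝ) : ℂ) * ee (β * n)‖ ^ 2 ≤
      (2 * L + Y1) * (M * L) ^ 2 + ∑ x ∈ Icc Y1 V,
        ‖∑ n ∈ Ioc x (x + L), ((lam n - LamS z n : ℝ) : ℂ) * ee (β * n)‖ ^ 2 := by
  classical
  set F : ℤ → ℝ := fun x => ‖∑ n ∈ Ioc x (x + L), ((gI z u v n : ℝ) : ℂ) * ee (β * n)‖ ^ 2 with hF
  set G : ℕ → ℝ := fun x =>
    ‖∑ n ∈ Ioc x (x + L), ((lam n - LamS z n : ℝ) : ℂ) * ee (β * n)‖ ^ 2 with hG
  set T : Finset ℤ := Ioo ((u : ℤ) - L) v with hT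
  have hz : ∀ x ∉ T, F x = 0 := by
    intro x hx
    rw [hT, mem_Ioo, not_and_or, not_lt, not_lt] at hx
    simp only [hF]
    rw [loc_zero z u v L β x (by omega)]
    simp
  have h1 : ∑' x : ℤ, F x = ∑ x ∈ T, F x := tsum_eq_sum fun x hx => hz x hx
  change ∑' x : ℤ, F x ≤ _
  rw [h1]
  set K : ℝ := (M * L) ^ 2 with hK
  have hK0 : 0 ≤ K := sq_nonneg _
  have hFK : ∀ x, F x ≤ K := fun x => loc_bound z u v L β M hM x
  have hF0 : ∀ x, 0 ≤ F x := fun x => sq_nonneg _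
  have hG0 : ∀ x, 0 ≤ G x := fun x => sq_nonneg _
  set T1 : Finset ℤ := Ioo ((u : ℤ) - L) u with hT1
  set T2 : Finset ℤ := Ioo ((v : ℤ) - L) v with hT2
  set T3 : Finset ℤ := Ico (0 : ℤ) Y1 with hT3
  set T4 : Finset ℤ := (Icc Y1 V).image (fun n : ℕ => (n : ℤ)) with hT4
  have h2 : ∀ x ∈ T, F x ≤ (if x ∈ T1 then K else 0) + (if x ∈ T2 then K else 0) +
      (if x ∈ T3 then K else 0) + (if x ∈ T4 then G x.toNat else 0) := by
    intro x hx
    rw [hT, mem_Ioo] at hx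
    have e1 : 0 ≤ (if x ∈ T1 then K else 0) := by split_ifs <;> simp [hK0]
    have e2 : 0 ≤ (if x ∈ T2 then K else 0) := by split_ifs <;> simp [hK0]
    have e3 : 0 ≤ (if x ∈ T3 then K else 0) := by split_ifs <;> simp [hK0]
    have e4 : 0 ≤ (if x ∈ T4 then G x.toNat else 0) := by
      split_ifs
      · exact hG0 _
      · exact le_rfl
    by_cases c1 : x ∈ T1
    · rw [if_pos c1]
      linarith [hFK x]
    by_cases c2 : x ∈ T2
    · rw [if_pos c2] at *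
      linarith [hFK x]
    by_cases c3 : x ∈ T3
    · rw [if_pos c3] at *
      linarith [hFK x]
    rw [hT1, mem_Ioo] at c1
    rw [hT2, mem_Ioo] at c2
    rw [hT3, mem_Ico] at c3
    have c4 : x ∈ T4 := by
      rw [hT4, mem_image]
      exact ⟨x.toNat, by rw [mem_Icc]; omega, by omega⟩
    rw [if_pos c4]
    have h3 : F x = G x.toNat := by
      have h4 : x = ((x.toNat : ℕ) : ℤ) := by omega
      simp only [hF, hG]
      rw [h4, Int.toNat_natCast, loc_full z u v L β x.toNat (by omega) (by omega)]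
    linarith
  refine (sum_le_sum h2).trans ?_
  rw [sum_add_distrib, sum_add_distrib, sum_add_distrib]
  have b1 := loc_ite_card T T1 K hK0
  have b2 := loc_ite_card T T2 K hK0
  have b3 := loc_ite_card T T3 K hK0
  have d1 : (T1.card : ℝ) ≤ L := by
    rw [hT1, Int.card_Ioo]
    exact_mod_cast (show ((u : ℤ) - (u - L) - 1).toNat ≤ L by omega)
  have d2 : (T2.card : ℝ) ≤ L := by
    rw [hT2, Int.card_Ioo]
    exact_mod_cast (show ((v : ℤ) - (v - L) - 1).toNat ≤ L by omega)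
  have d3 : (T3.card : ℝ) ≤ Y1 := by
    rw [hT3, Int.card_Ico]
    exact_mod_cast (show ((Y1 : ℤ) - 0).toNat ≤ Y1 by omega)
  have b4 : ∑ x ∈ T, (if x ∈ T4 then G x.toNat else 0) ≤ ∑ x ∈ Icc Y1 V, G x := by
    rw [sum_ite_mem]
    have h5 : ∑ x ∈ T4, G x.toNat = ∑ x ∈ Icc Y1 V, G x := by
      rw [hT4, sum_image (fun a _ b _ h => by exact_mod_cast h)]
      exact sum_congr rfl fun n _ => by rw [Int.toNat_natCast]
    rw [← h5]
    exact sum_le_sum_of_subset_of_nonneg inter_subset_right fun x _ _ => hG0 _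
  have f1 := mul_le_mul_of_nonneg_right d1 hK0
  have f2 := mul_le_mul_of_nonneg_right d2 hK0
  have f3 := mul_le_mul_of_nonneg_right d3 hK0
  have f4 : (2 * (L : ℝ) + Y1) * K = L * K + L * K + Y1 * K := by ring
  rw [f4]
  linarith

/-- dyadic decomposition -/
theorem loc_dyad (G : ℕ → ℝ) (hG : ∀ x, 0 ≤ G x) (Y1 V : ℕ) (t E : ℝ) (hY1 : 1 ≤ Y1)
    (ht : 2 * t ≤ Y1) (hE : 0 ≤ E)
    (h : ∀ Y : ℕ, t ≤ Y → Y ≤ V → ∑ x ∈ Icc Y (2 * Y), G x ≤ Y * E) :
    ∑ x ∈ Icc Y1 V, G x ≤ 2 * V * E := by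
  classical
  rcases Nat.eq_zero_or_pos V with hV | hV
  · subst hV
    rw [Icc_eq_empty (by omega), sum_empty]
    simp
  set J : Finset ℕ := (range (Nat.log 2 V + 1)).filter (fun j => t ≤ ((2 ^ j : ℕ) : ℝ)) with hJ
  have h1 : ∑ x ∈ Icc Y1 V, G x ≤ ∑ x ∈ Icc Y1 V, ∑ j ∈ J,
      if x ∈ Icc (2 ^ j) (2 * 2 ^ j) then G x else 0 := by
    refine sum_le_sum fun x hx => ?_
    rw [mem_Icc] at hx
    have hx0 : x ≠ 0 := by omega
    have h2 : 2 ^ Nat.log 2 x ≤ x := Nat.pow_log_le_self 2 hx0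
    have h3 : x < 2 ^ (Nat.log 2 x + 1) := Nat.lt_pow_succ_log_self (by norm_num) x
    have hj : Nat.log 2 x ∈ J := by
      rw [hJ, mem_filter, mem_range]
      refine ⟨Nat.lt_succ_of_le (Nat.log_mono_right hx.2), ?_⟩
      have h4 : (x : ℝ) ≤ 2 * ((2 ^ Nat.log 2 x : ℕ) : ℝ) := by
        have h5 : x ≤ 2 * 2 ^ Nat.log 2 x := by
          rw [pow_succ] at h3; omega
        exact_mod_cast h5
      have h6 : (Y1 : ℝ) ≤ x := by exact_mod_cast hx.1
      linarith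
    have h7 : G x = if x ∈ Icc (2 ^ Nat.log 2 x) (2 * 2 ^ Nat.log 2 x) then G x else 0 := by
      rw [if_pos]
      rw [mem_Icc]
      rw [pow_succ] at h3
      omega
    calc G x = _ := h7
      _ ≤ _ := single_le_sum (f := fun j => if x ∈ Icc (2 ^ j) (2 * 2 ^ j) then G x else 0)
        (fun j _ => by split_ifs; exacts [hG x, le_rfl]) hj
  refine h1.trans ?_
  rw [sum_comm]
  have h2 : ∀ j ∈ J, ∑ x ∈ Icc Y1 V, (if x ∈ Icc (2 ^ j) (2 * 2 ^ j) then G x else 0) ≤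
      ((2 ^ j : ℕ) : ℝ) * E := by
    intro j hj
    rw [hJ, mem_filter, mem_range] at hj
    rw [sum_ite_mem]
    refine le_trans (sum_le_sum_of_subset_of_nonneg inter_subset_right fun x _ _ => hG x) ?_
    refine h (2 ^ j) hj.2 ?_
    exact (Nat.pow_le_pow_right (by norm_num) (Nat.lt_succ_iff.1 hj.1)).trans
      (Nat.pow_log_le_self 2 (by omega))
  refine (sum_le_sum h2).trans ?_
  rw [← sum_mul]
  refine mul_le_mul_of_nonneg_right ?_ hE
  have h3 : ∑ j ∈ J, ((2 ^ j : ℕ) : ℝ) ≤ ∑ j ∈ range (Nat.log 2 V + 1), ((2 ^ j : ℕ) : ℝ) :=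
    sum_le_sum_of_subset_of_nonneg (filter_subset _ _) fun x _ _ => Nat.cast_nonneg _
  refine h3.trans ?_
  have h4 : ∑ j ∈ range (Nat.log 2 V + 1), 2 ^ j < 2 ^ (Nat.log 2 V + 1) := by
    have := Nat.geomSum_lt (m := 2) (n := Nat.log 2 V + 1) (s := range (Nat.log 2 V + 1))
      (by norm_num) (fun k hk => mem_range.1 hk)
    exact this
  have h5 : 2 ^ Nat.log 2 V ≤ V := Nat.pow_log_le_self 2 (by omega)
  have h6 : ∑ j ∈ range (Nat.log 2 V + 1), 2 ^ j ≤ 2 * V := by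
    rw [pow_succ] at h4; omega
  exact_mod_cast h6

theorem loc_zz_le (B X : ℕ) (hX : 1 ≤ X) : ((zz B X : ℕ) : ℝ) ≤ Real.log X ^ B := by
  unfold zz
  exact Nat.floor_le (pow_nonneg (Real.log_nonneg (by exact_mod_cast hX)) _)

/-- the factor `1 / rho z` -/
theorem loc_rho (B : ℕ) :
    ∀ᶠ X : ℕ in atTop, (rho (zz B X))⁻¹ ≤ Real.log X := by
  obtain ⟨c, hc, h7⟩ := Pool.Agent.GBQ.thm_RhoLow
  have hlog : Tendsto (fun X : ℕ => Real.log X) atTop atTop :=
    Real.tendsto_log_atTop.comp tendsto_natCast_atTop_atTop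
  have h8 : ∀ᶠ y : ℝ in atTop, Real.log y ≤ (c / (B + 1)) * y := by
    have h9 := Real.isLittleO_log_id_atTop.def (c := c / (B + 1)) (by positivity)
    filter_upwards [h9, eventually_ge_atTop (1 : ℝ)] with y hy hy1
    rw [Real.norm_eq_abs, Real.norm_eq_abs, id, abs_of_nonneg (Real.log_nonneg hy1),
      abs_of_nonneg (by linarith)] at hy
    exact hy
  filter_upwards [hlog.eventually h8, hlog.eventually (eventually_ge_atTop (1 : ℝ)),
    eventually_ge_atTop 3] with X hX1 hX2 hX3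
  set z := zz B X with hz
  rcases Nat.lt_or_ge z 2 with hz2 | hz2
  · have : pr z = ∅ := by
      rw [eq_empty_iff_forall_notMem]
      intro p hp
      rw [Pool.Agent.GBQ.mem_pr] at hp
      have := hp.2.two_le
      omega
    have : rho z = 1 := by
      unfold rho
      rw [this, prod_empty]
    rw [this, inv_one]
    exact hX2
  · have h9 := h7 z hz2
    have hz0 : (0 : ℝ) < z := by positivity
    have hz1 : 0 < Real.log z := Real.log_pos (by exact_mod_cast hz2)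
    have h10 : Real.log z ≤ B * Real.log (Real.log X) := by
      rw [← Real.log_pow]
      exact Real.log_le_log hz0 (loc_zz_le B X (by omega))
    have h11 : Real.log z ≤ c * Real.log X := by
      have hB0 : (0 : ℝ) ≤ B := Nat.cast_nonneg B
      have h12 : B * Real.log (Real.log X) ≤ B * ((c / (B + 1)) * Real.log X) :=
        mul_le_mul_of_nonneg_left hX1 hB0
      have h13 : B * ((c / (B + 1)) * Real.log X) ≤ c * Real.log X := by
        have h14 : (B : ℝ) / (B + 1) ≤ 1 := by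
          rw [div_le_one (by positivity)]
          linarith
        calc (B : ℝ) * ((c / (B + 1)) * Real.log X) = (B / (B + 1)) * (c * Real.log X) := by ring
          _ ≤ 1 * (c * Real.log X) := mul_le_mul_of_nonneg_right h14 (by positivity)
          _ = _ := one_mul _
      linarith
    rw [inv_le_iff_one_le_mul₀ (Pool.Agent.GBQ.rho_pos z)]
    have h12 : Real.log X * (c / Real.log z) ≤ Real.log X * rho z :=
      mul_le_mul_of_nonneg_left h9 (by linarith)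
    refine le_trans ?_ h12
    rw [← mul_div_assoc, one_le_div hz1]
    linarith

/-- the trivial bound -/
theorem loc_gI (z u v X : ℕ) (hX : 3 ≤ X) (hv : v ≤ 3 * X) (hr : (rho z)⁻¹ ≤ Real.log X) (n : ℤ) :
    |gI z u v n| ≤ 2 * Real.log X := by
  have hX0 : (0 : ℝ) < X := by positivity
  have hl0 : 0 ≤ Real.log X := Real.log_nonneg (by exact_mod_cast (by omega : 1 ≤ X))
  unfold gI
  split_ifs with h
  · have h1 : lamZ n ≤ 2 * Real.log X := by
      unfold lamZ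
      refine (Pool.Agent.GBQ.lam_le_log _).trans ?_
      have h2 : n.toNat ≤ X * X := by nlinarith [show n.toNat ≤ 3 * X by omega]
      have h3 : (0 : ℝ) < n.toNat := by exact_mod_cast (show 0 < n.toNat by omega)
      have h4 : ((n.toNat : ℕ) : ℝ) ≤ X * X := by exact_mod_cast h2
      refine (Real.log_le_log h3 h4).trans ?_
      rw [Real.log_mul hX0.ne' hX0.ne']
      linarith
    have h2 : 0 ≤ lamZ n := Pool.Agent.GBQ.lam_nonneg _
    have h3 : 0 ≤ LamZ z n := by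
      unfold LamZ
      split_ifs
      · exact Pool.Agent.GBQ.LamS_nonneg _ _
      · exact le_rfl
    have h4 : LamZ z n ≤ 2 * Real.log X := by
      unfold LamZ LamS
      split_ifs
      · linarith
      · linarith
      · linarith
    rw [abs_le]
    constructor <;> linarith
  · rw [abs_zero]
    linarith

set_option maxHeartbeats 2000000 in
theorem thm_Loc (hD : St_LocD) : St_Loc := by
  intro A C
  set A' := A + 4 with hA'
  set AD := A + 2 with hAD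
  set C' := C + A' + 2 with hC'
  obtain ⟨B₀, hB₀⟩ := hD AD C'
  refine ⟨B₀ + 1, ?_⟩
  intro B hB
  obtain ⟨Y₀, hY₀⟩ := eventually_atTop.1 (hB₀ (B + 1))
  have hlog : Tendsto (fun X : ℕ => Real.log X) atTop atTop :=
    Real.tendsto_log_atTop.comp tendsto_natCast_atTop_atTop
  -- powers of the logarithm are small
  have hpow : ∀ k : ℕ, ∀ c : ℝ, 0 < c → ∀ᶠ X : ℕ in atTop,
      c * Real.log X ^ k ≤ Real.sqrt X := by
    intro k c hc
    have h1 : ∀ᶠ x : ℝ in atTop, c * Real.log x ^ k ≤ Real.sqrt x := by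
      have h2 := (isLittleO_log_rpow_rpow_atTop (s := 1 / 2) (k : ℝ) (by norm_num)).def
        (c := 1 / c) (by positivity)
      filter_upwards [h2, eventually_ge_atTop (1 : ℝ)] with x hx hx1
      have hl := Real.log_nonneg hx1
      rw [Real.rpow_natCast, Real.norm_eq_abs, Real.norm_eq_abs,
        abs_of_nonneg (pow_nonneg hl k), abs_of_nonneg (by positivity),
        ← Real.sqrt_eq_rpow] at hx
      calc c * Real.log x ^ k ≤ c * (1 / c * Real.sqrt x) :=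
            mul_le_mul_of_nonneg_left hx hc.le
        _ = Real.sqrt x := by field_simp
    exact tendsto_natCast_atTop_atTop.eventually h1
  filter_upwards [loc_rho B, hpow (A' + 1) (2 * (Y₀ + 1)) (by positivity),
    hpow (C + 2 + A) 32 (by norm_num),
    hlog.eventually (eventually_ge_atTop ((2 : ℝ) ^ (B₀ + B + C' + AD + 6))),
    eventually_ge_atTop 3] with X hr hp1 hp2 hl hX3
  intro u v hv L hL1 hL2 β
  set ℓ := Real.log X with hℓ
  have hX0 : (0 : ℝ) < X := by positivity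
  have hX3' : (3 : ℝ) ≤ X := by exact_mod_cast hX3
  have hs : Real.sqrt X * Real.sqrt X = X := Real.mul_self_sqrt hX0.le
  have hs0 : 0 < Real.sqrt X := Real.sqrt_pos.2 hX0
  have h2pow : ∀ k : ℕ, k ≤ B₀ + B + C' + AD + 6 → (2 : ℝ) ^ k ≤ ℓ := fun k hk =>
    (pow_le_pow_right₀ (by norm_num) hk).trans hl
  have hℓ64 : (64 : ℝ) ≤ ℓ := by
    have := h2pow 6 (by omega)
    norm_num at this
    exact this
  have hℓ0 : 0 < ℓ := by linarith
  have hℓ1 : 1 ≤ ℓ := by linarith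
  set Y1 : ℕ := ⌈(X : ℝ) / ℓ ^ A'⌉₊ with hY1
  have hA'pos : 0 < ℓ ^ A' := pow_pos hℓ0 _
  have hq0 : 0 < (X : ℝ) / ℓ ^ A' := div_pos hX0 hA'pos
  have hY1pos : 1 ≤ Y1 := Nat.ceil_pos.2 hq0
  have hY1le : (X : ℝ) / ℓ ^ A' ≤ Y1 := Nat.le_ceil _
  have hY1lt : (Y1 : ℝ) < (X : ℝ) / ℓ ^ A' + 1 := Nat.ceil_lt_add_one hq0.le
  set t : ℝ := (X : ℝ) / ℓ ^ A' / 2 with ht
  -- `t ≥ √X` and `t ≥ Y₀`
  have ht1 : (Y₀ + 1) * Real.sqrt X ≤ t := by
    have h1 : (2 * (Y₀ + 1)) * ℓ ^ A' ≤ Real.sqrt X := by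
      refine le_trans ?_ hp1
      refine mul_le_mul_of_nonneg_left ?_ (by positivity)
      exact pow_le_pow_right₀ hℓ1 (by omega)
    rw [ht, le_div_iff₀ (by norm_num), le_div_iff₀ hA'pos]
    calc (Y₀ + 1) * Real.sqrt X * 2 * ℓ ^ A' = (2 * (Y₀ + 1)) * ℓ ^ A' * Real.sqrt X := by ring
      _ ≤ Real.sqrt X * Real.sqrt X := mul_le_mul_of_nonneg_right h1 hs0.le
      _ = X := hs
  have hsq1 : 1 ≤ Real.sqrt X := by
    rw [Real.one_le_sqrt]; linarith
  have ht2 : Real.sqrt X ≤ t := by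
    have : (0 : ℝ) ≤ Y₀ := Nat.cast_nonneg _
    nlinarith
  have ht3 : (Y₀ : ℝ) ≤ t := by
    have : (0 : ℝ) ≤ Y₀ := Nat.cast_nonneg _
    nlinarith
  have hgI : ∀ n, |gI (zz B X) u v n| ≤ 2 * ℓ := loc_gI (zz B X) u v X hX3 hv hr
  refine (loc_split (zz B X) u v L (3 * X) Y1 β (2 * ℓ) hgI hv).trans ?_
  -- the main part
  set E : ℝ := (L : ℝ) ^ 2 * (2 ^ AD / ℓ ^ AD) with hE
  have hE0 : 0 ≤ E := by positivity
  have hmain := loc_dyad (fun x => ‖∑ n ∈ Ioc x (x + L),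
      ((lam n - LamS (zz B X) n : ℝ) : ℂ) * ee (β * n)‖ ^ 2) (fun x => sq_nonneg _) Y1 (3 * X) t E
      hY1pos (by rw [ht]; linarith) hE0 (by
    intro Y hY1' hY2'
    have hYpos : (0 : ℝ) < Y := by linarith
    have hYge : Y₀ ≤ Y := by exact_mod_cast ht3.trans hY1'
    have hYle : (Y : ℝ) ≤ 3 * X := by exact_mod_cast hY2'
    have hlY1 : ℓ / 2 ≤ Real.log Y := by
      have h1 : Real.log (Real.sqrt X) ≤ Real.log Y := Real.log_le_log hs0 (ht2.trans hY1')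
      rw [Real.log_sqrt hX0.le] at h1
      exact h1
    have hlY2 : Real.log Y ≤ 2 * ℓ := by
      have h1 : (Y : ℝ) ≤ X * X := by nlinarith
      have h2 := Real.log_le_log hYpos h1
      rw [Real.log_mul hX0.ne' hX0.ne'] at h2
      linarith
    have hlY0 : 0 < Real.log Y := by linarith
    -- conditions on `z`
    have hz1 : Real.log Y ^ B₀ ≤ (zz B X : ℕ) := by
      have h1 : Real.log Y ^ B₀ ≤ (2 * ℓ) ^ B₀ := pow_le_pow_left₀ hlY0.le hlY2 _
      have h2 : (2 * ℓ) ^ B₀ ≤ ℓ ^ B - 1 := by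
        rw [mul_pow]
        have h3 : ℓ ^ (B₀ + 1) ≤ ℓ ^ B := pow_le_pow_right₀ hℓ1 hB
        rw [pow_succ] at h3
        have h4 : 2 ^ B₀ * ℓ ^ B₀ + 1 ≤ ℓ ^ B₀ * ℓ := by
          have h5 : (2 : ℝ) ^ (B₀ + 1) ≤ ℓ := h2pow _ (by omega)
          rw [pow_succ] at h5
          have h6 : (1 : ℝ) ≤ 2 ^ B₀ := one_le_pow₀ (by norm_num)
          have h7 : (1 : ℝ) ≤ ℓ ^ B₀ := one_le_pow₀ hℓ1
          nlinarith
        linarith
      have h3 : ℓ ^ B - 1 ≤ (zz B X : ℕ) := by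
        have := Nat.lt_floor_add_one (ℓ ^ B)
        unfold zz
        linarith
      linarith
    have hz2 : ((zz B X : ℕ) : ℝ) ≤ Real.log Y ^ (B + 1) := by
      refine (loc_zz_le B X (by omega)).trans ?_
      have h1 : ℓ ^ B ≤ (2 * Real.log Y) ^ B := pow_le_pow_left₀ hℓ0.le (by linarith) _
      rw [mul_pow] at h1
      have h2 : (2 : ℝ) ^ B ≤ Real.log Y := by
        have h3 : (2 : ℝ) ^ (B + 1) ≤ ℓ := h2pow _ (by omega)
        rw [pow_succ] at h3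
        linarith
      rw [pow_succ]
      have h3 : 0 ≤ Real.log Y ^ B := pow_nonneg hlY0.le _
      have h4 := mul_le_mul_of_nonneg_left h2 h3
      linarith
    have h2C : (2 : ℝ) ^ (C' + 1) ≤ ℓ := h2pow _ (by omega)
    have hlC : (ℓ / 2) ^ C' ≤ Real.log Y ^ C' := pow_le_pow_left₀ (by linarith) hlY1 _
    rw [div_pow] at hlC
    have hC2 : (0 : ℝ) < 2 ^ C' := by positivity
    rw [div_le_iff₀ hC2] at hlC
    -- conditions on `L`
    have hL1' : Real.sqrt Y / Real.log Y ^ C' ≤ L := by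
      refine le_trans ?_ hL1
      have h1 : Real.sqrt Y ≤ 2 * Real.sqrt X := by
        rw [Real.sqrt_le_left (by positivity), mul_pow, Real.sq_sqrt hX0.le]
        linarith
      rw [div_le_div_iff₀ (pow_pos hlY0 _) (pow_pos hℓ0 _)]
      have h2 : 2 * ℓ ^ C ≤ Real.log Y ^ C' := by
        have h3 : ℓ ^ (C + 1) ≤ ℓ ^ C' := pow_le_pow_right₀ hℓ1 (by omega)
        rw [pow_succ] at h3
        rw [pow_succ] at h2C
        have h4 : 0 < ℓ ^ C := pow_pos hℓ0 _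
        have h5 : ℓ ^ C * (2 ^ C' * 2) ≤ ℓ ^ C * ℓ := mul_le_mul_of_nonneg_left h2C h4.le
        have h6 : (2 * ℓ ^ C) * 2 ^ C' ≤ Real.log Y ^ C' * 2 ^ C' := by linarith
        exact le_of_mul_le_mul_right h6 hC2
      calc Real.sqrt Y * ℓ ^ C ≤ (2 * Real.sqrt X) * ℓ ^ C :=
            mul_le_mul_of_nonneg_right h1 (pow_pos hℓ0 _).le
        _ = Real.sqrt X * (2 * ℓ ^ C) := by ring
        _ ≤ Real.sqrt X * Real.log Y ^ C' := mul_le_mul_of_nonneg_left h2 hs0.le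
    have hL2' : (L : ℝ) ≤ Real.sqrt Y * Real.log Y ^ C' := by
      refine hL2.trans ?_
      have h1 : Real.sqrt X ≤ Real.sqrt Y * (2 * ℓ ^ A') := by
        rw [Real.sqrt_le_left (by positivity), mul_pow, Real.sq_sqrt hYpos.le]
        have h2 : (X : ℝ) = t * (2 * ℓ ^ A') := by
          rw [ht]; field_simp
        have h3 : (1 : ℝ) ≤ 2 * ℓ ^ A' := by
          have : (1 : ℝ) ≤ ℓ ^ A' := one_le_pow₀ hℓ1
          linarith
        calc (X : ℝ) = t * (2 * ℓ ^ A') := h2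
          _ ≤ Y * (2 * ℓ ^ A') := mul_le_mul_of_nonneg_right hY1' (by positivity)
          _ ≤ Y * (2 * ℓ ^ A') ^ 2 := by
            refine mul_le_mul_of_nonneg_left ?_ hYpos.le
            nlinarith
      have h2 : 2 * ℓ ^ A' * ℓ ^ C ≤ Real.log Y ^ C' := by
        have h3 : ℓ ^ C' = ℓ ^ A' * ℓ ^ C * (ℓ * ℓ) := by
          rw [hC']; ring
        rw [pow_succ] at h2C
        have h4 : 0 < ℓ ^ A' * ℓ ^ C := by positivity
        have h5 : ℓ ^ A' * ℓ ^ C * (2 ^ C' * 2) ≤ ℓ ^ A' * ℓ ^ C * (ℓ * ℓ) := by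
          refine mul_le_mul_of_nonneg_left ?_ h4.le
          nlinarith
        have h6 : (2 * ℓ ^ A' * ℓ ^ C) * 2 ^ C' ≤ Real.log Y ^ C' * 2 ^ C' := by linarith
        exact le_of_mul_le_mul_right h6 hC2
      calc Real.sqrt X * ℓ ^ C ≤ (Real.sqrt Y * (2 * ℓ ^ A')) * ℓ ^ C :=
            mul_le_mul_of_nonneg_right h1 (pow_pos hℓ0 _).le
        _ = Real.sqrt Y * (2 * ℓ ^ A' * ℓ ^ C) := by ring
        _ ≤ Real.sqrt Y * Real.log Y ^ C' := mul_le_mul_of_nonneg_left h2 (Real.sqrt_nonneg _)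
    refine (hY₀ Y hYge (zz B X) hz1 hz2 L hL1' hL2' β).trans ?_
    rw [hE, mul_div_assoc]
    refine mul_le_mul_of_nonneg_left ?_ hYpos.le
    rw [div_eq_mul_inv]
    refine mul_le_mul_of_nonneg_left ?_ (sq_nonneg _)
    rw [← div_pow, inv_le_comm₀ (pow_pos hlY0 _) (by positivity), ← inv_pow, inv_div]
    exact pow_le_pow_left₀ (by linarith) hlY1 _)
  refine (add_le_add_right hmain _).trans ?_
  -- numerical inequalities
  have hA0 : 0 < ℓ ^ A := pow_pos hℓ0 _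
  have g1 : 2 * ((3 * X : ℕ) : ℝ) * E ≤ X * (L : ℝ) ^ 2 / ℓ ^ A / 4 := by
    have h1 : ℓ ^ AD = ℓ ^ A * (ℓ * ℓ) := by rw [hAD]; ring
    have h2 : 24 * (2 : ℝ) ^ AD ≤ ℓ * ℓ := by
      have := h2pow AD (by omega)
      nlinarith
    rw [hE, h1]
    push_cast
    rw [div_div, le_div_iff₀ (by positivity)]
    have h3 : 2 * (3 * (X : ℝ)) * ((L : ℝ) ^ 2 * (2 ^ AD / (ℓ ^ A * (ℓ * ℓ)))) * (ℓ ^ A * 4) =
        (X * (L : ℝ) ^ 2) * (24 * 2 ^ AD / (ℓ * ℓ)) := by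
      field_simp
      ring
    rw [h3]
    have h4 : 24 * 2 ^ AD / (ℓ * ℓ) ≤ 1 := by
      rw [div_le_one (by positivity)]
      exact h2
    have h5 : 0 ≤ X * (L : ℝ) ^ 2 := by positivity
    nlinarith
  have g2 : 2 * (L : ℝ) * (2 * ℓ * L) ^ 2 ≤ X * (L : ℝ) ^ 2 / ℓ ^ A / 4 := by
    rw [div_div, le_div_iff₀ (by positivity)]
    have h1 : 32 * (L : ℝ) * ℓ ^ 2 * ℓ ^ A ≤ X := by
      calc 32 * (L : ℝ) * ℓ ^ 2 * ℓ ^ A ≤ 32 * (Real.sqrt X * ℓ ^ C) * ℓ ^ 2 * ℓ ^ A := by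
            gcongr
        _ = Real.sqrt X * (32 * ℓ ^ (C + 2 + A)) := by ring
        _ ≤ Real.sqrt X * Real.sqrt X := mul_le_mul_of_nonneg_left hp2 hs0.le
        _ = X := hs
    calc 2 * (L : ℝ) * (2 * ℓ * L) ^ 2 * (ℓ ^ A * 4) = (32 * (L : ℝ) * ℓ ^ 2 * ℓ ^ A) * (L : ℝ) ^ 2 := by
          ring
      _ ≤ X * (L : ℝ) ^ 2 := mul_le_mul_of_nonneg_right h1 (sq_nonneg _)
  have g3 : (Y1 : ℝ) * (2 * ℓ * L) ^ 2 ≤ X * (L : ℝ) ^ 2 / ℓ ^ A / 4 := by
    rw [div_div, le_div_iff₀ (by positivity)]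
    have h0 : (1 : ℝ) ≤ X / ℓ ^ A' := by
      have : (1 : ℝ) ≤ t := hsq1.trans ht2
      rw [ht] at this
      linarith
    have h1 : (Y1 : ℝ) ≤ 2 * (X / ℓ ^ A') := by linarith
    have h2 : (Y1 : ℝ) * (16 * ℓ ^ 2 * ℓ ^ A) ≤ X := by
      calc (Y1 : ℝ) * (16 * ℓ ^ 2 * ℓ ^ A) ≤ (2 * (X / ℓ ^ A')) * (16 * ℓ ^ 2 * ℓ ^ A) :=
            mul_le_mul_of_nonneg_right h1 (by positivity)
        _ = X * (32 / ℓ ^ 2) := by
          rw [hA']
          field_simp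
          ring
        _ ≤ X * 1 := by
          refine mul_le_mul_of_nonneg_left ?_ hX0.le
          rw [div_le_one (by positivity)]
          nlinarith
        _ = X := mul_one _
    calc (Y1 : ℝ) * (2 * ℓ * L) ^ 2 * (ℓ ^ A * 4) = ((Y1 : ℝ) * (16 * ℓ ^ 2 * ℓ ^ A)) * (L : ℝ) ^ 2 := by
          ring
      _ ≤ X * (L : ℝ) ^ 2 := mul_le_mul_of_nonneg_right h2 (sq_nonneg _)
  have g4 : 0 ≤ X * (L : ℝ) ^ 2 / ℓ ^ A := by positivity
  have g5 : (2 * (L : ℝ) + Y1) * (2 * ℓ * L) ^ 2 =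
      2 * (L : ℝ) * (2 * ℓ * L) ^ 2 + (Y1 : ℝ) * (2 * ℓ * L) ^ 2 := by ring
  rw [g5]
  linarith

end Pool.Agent.NRP
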