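import Pool.Agent.NRP.StN

set_option autoImplicit false

/-!
# NRP: LocD.  The local estimate from the minor and the major windows (helper42)
-/

namespace Pool.Agent.NRP

open Finset Filter
open Pool.Agent.GBQ (ee nd gm lam LamS zz rho pr)

namespace LocD

/-- the local Fourier coefficient -/
noncomputable def W (z L : ℕ) (β : ℝ) (x : ℕ) : ℂ :=
  ∑ n ∈ Ioc x (x + L), ((lam n - LamS z n : ℝ) : ℂ) * ee (β * n)

theorem ev_log (c : ℝ) : ∀ᶠ X : ℕ in atTop, c ≤ Real.log X :=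
  (Real.tendsto_log_atTop.comp tendsto_natCast_atTop_atTop).eventually_ge_atTop c

theorem ev_pow (D : ℕ) : ∀ᶠ X : ℕ in atTop, Real.log X ^ D ≤ Real.sqrt X := by
  have h := (Real.isLittleO_pow_log_id_atTop (n := 2 * D)).bound (c := 1) one_pos
  have h1 := tendsto_natCast_atTop_atTop.eventually h
  filter_upwards [h1, ev_log 1] with X hX hlog
  have hl : 0 < Real.log X := by linarith
  have h2 : Real.log X ^ (2 * D) ≤ X := by
    have h3 := hX
    simp only [id, Real.norm_eq_abs, one_mul] at h3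
    rw [abs_of_nonneg (by positivity), abs_of_nonneg (by positivity)] at h3
    exact h3
  apply Real.le_sqrt_of_sq_le
  rw [← pow_mul, mul_comm]
  exact h2

theorem cut (f : ℕ → ℂ) (s : ℕ → ℕ) (hs : Monotone s) (h0 : s 0 = 0) (x k : ℕ) :
    ∑ n ∈ Ioc x (x + s k), f n = ∑ i ∈ range k, ∑ n ∈ Ioc (x + s i) (x + s i + (s (i + 1) - s i)), f n := by
  induction k with
  | zero => simp [h0]
  | succ k ih =>
    have h1 : s k ≤ s (k + 1) := hs (Nat.le_succ k)
    rw [Finset.sum_range_succ, ← ih, show x + s k + (s (k + 1) - s k) = x + s (k + 1) by omega,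
      Finset.sum_Ioc_consecutive _ (by omega) (by omega)]

theorem shift (g : ℕ → ℝ) (hg : ∀ y, 0 ≤ g y) (X t : ℕ) (ht : t ≤ 2 * X) :
    ∑ x ∈ Icc X (2 * X), g (x + t) ≤ ∑ y ∈ Icc X (2 * X), g y + ∑ y ∈ Icc (2 * X) (2 * (2 * X)), g y := by
  have h1 : ∑ x ∈ Icc X (2 * X), g (x + t) = ∑ y ∈ Icc (X + t) (2 * X + t), g y := by
    rw [← Finset.map_add_right_Icc, Finset.sum_map]
    rfl
  rw [h1]
  have h2 : Icc (X + t) (2 * X + t) ⊆ Icc X (2 * X) ∪ Icc (2 * X) (2 * (2 * X)) := by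
    intro y hy
    rw [Finset.mem_union, Finset.mem_Icc, Finset.mem_Icc]
    rw [Finset.mem_Icc] at hy
    omega
  calc _ ≤ ∑ y ∈ Icc X (2 * X) ∪ Icc (2 * X) (2 * (2 * X)), g y :=
        Finset.sum_le_sum_of_subset_of_nonneg h2 fun y _ _ => hg y
    _ ≤ _ := by
        rw [← Finset.sum_union_inter]
        exact le_add_of_nonneg_right (Finset.sum_nonneg fun y _ => hg y)

theorem short (hMin : St_MinL) (hMaj : St_MajL) (A C : ℕ) : ∃ B₀ : ℕ, ∀ B : ℕ, ∀ᶠ X : ℕ in atTop, ∀ z : ℕ,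
    Real.log X ^ B₀ ≤ z → (z : ℝ) ≤ Real.log X ^ B → ∀ L : ℕ,
    Real.sqrt X / Real.log X ^ C ≤ L → (L : ℝ) ≤ Real.sqrt X → ∀ β : ℝ,
    ∑ x ∈ Icc X (2 * X), ‖W z L β x‖ ^ 2 ≤ X * (L : ℝ) ^ 2 / Real.log X ^ A := by
  obtain ⟨D, B₁, h1⟩ := hMin A C
  obtain ⟨B₂, h2⟩ := hMaj A C D
  refine ⟨max B₁ B₂, fun B => ?_⟩
  filter_upwards [h1 B, h2 B, ev_log 1, ev_pow (C + D)] with X g1 g2 hlog hpow z hz1 hz2 L hL1 hL2 β
  have hl0 : 0 < Real.log X := by linarith
  have e1 : Real.log X ^ B₁ ≤ z := (pow_le_pow_right₀ hlog (le_max_left _ _)).trans hz1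
  have e2 : Real.log X ^ B₂ ≤ z := (pow_le_pow_right₀ hlog (le_max_right _ _)).trans hz1
  have hD0 : 0 < Real.log X ^ D := by positivity
  have hC0 : 0 < Real.log X ^ C := by positivity
  have hLD : 1 ≤ (L : ℝ) / Real.log X ^ D := by
    rw [le_div_iff₀ hD0, one_mul]
    refine le_trans ?_ hL1
    rw [le_div_iff₀ hC0, ← pow_add, add_comm D C]
    exact hpow
  have hLpos : (0 : ℝ) < L := by
    by_contra h0
    have h3 : (L : ℝ) / Real.log X ^ D ≤ 0 := div_nonpos_of_nonpos_of_nonneg (not_lt.1 h0) hD0.le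
    linarith
  obtain ⟨Q, hQ⟩ : ∃ Q : ℕ, Q = ⌊(L : ℝ) / Real.log X ^ D⌋₊ := ⟨_, rfl⟩
  have hQ1 : 0 < Q := by
    rw [hQ]
    exact Nat.floor_pos.2 hLD
  have hQle : (Q : ℝ) ≤ L / Real.log X ^ D := by
    rw [hQ]
    exact Nat.floor_le (by positivity)
  have hQlt : (L : ℝ) / Real.log X ^ D < Q + 1 := by
    rw [hQ]
    exact Nat.lt_floor_add_one _
  obtain ⟨r, hr1, hr2⟩ := Real.exists_rat_abs_sub_le_and_den_le β hQ1
  have hrq : (r : ℝ) = (r.num : ℝ) / (r.den : ℝ) := Rat.cast_def r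
  rw [hrq] at hr1
  have hden : (1 : ℝ) ≤ r.den := by exact_mod_cast r.pos
  have hden2 : (r.den : ℝ) ≤ Q := by exact_mod_cast hr2
  by_cases hq : Real.log X ^ D ≤ (r.den : ℝ)
  · refine g1 z e1 hz2 L hL1 hL2 β r.num r.den hq (hden2.trans hQle) ?_ (hr1.trans ?_)
    · exact r.reduced
    · apply one_div_le_one_div_of_le (by positivity)
      rw [pow_two]
      exact mul_le_mul_of_nonneg_right (by linarith) (by linarith)
  · refine g2 z e2 hz2 L hL1 hL2 β r.num r.den r.pos (not_le.1 hq).le (hr1.trans ?_)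
    rw [div_le_div_iff₀ (by positivity) (by positivity), one_mul]
    rw [div_lt_iff₀ hD0] at hQlt
    calc (r.den : ℝ) * L ≤ r.den * (((Q : ℝ) + 1) * Real.log X ^ D) :=
          mul_le_mul_of_nonneg_left hQlt.le (by linarith)
      _ = _ := by ring

/-- lengths of the pieces -/
theorem len (L k i : ℕ) (hk : 0 < k) :
    (((L * (i + 1) / k - L * i / k : ℕ) : ℝ) ≤ (L : ℝ) / k + 1) ∧
      (L : ℝ) / k - 1 ≤ ((L * (i + 1) / k - L * i / k : ℕ) : ℝ) := by
  have hk0 : (0 : ℝ) < k := by exact_mod_cast hk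
  have hmono : L * i / k ≤ L * (i + 1) / k := Nat.div_le_div_right (Nat.mul_le_mul_left _ (Nat.le_succ _))
  rw [Nat.cast_sub hmono]
  have a1 : ((L * (i + 1) / k : ℕ) : ℝ) ≤ (L : ℝ) * (i + 1) / k := by
    have := @Nat.cast_div_le ℝ _ _ _ (L * (i + 1)) k
    push_cast at this ⊢
    exact this
  have a2 : ((L * i / k : ℕ) : ℝ) ≤ (L : ℝ) * i / k := by
    have := @Nat.cast_div_le ℝ _ _ _ (L * i) k
    push_cast at this ⊢
    exact this
  have b1 : (L : ℝ) * (i + 1) / k < ((L * (i + 1) / k : ℕ) : ℝ) + 1 := by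
    rw [div_lt_iff₀ hk0]
    have := Nat.lt_mul_div_succ (L * (i + 1)) hk
    rw [mul_comm k] at this
    exact_mod_cast this
  have b2 : (L : ℝ) * i / k < ((L * i / k : ℕ) : ℝ) + 1 := by
    rw [div_lt_iff₀ hk0]
    have := Nat.lt_mul_div_succ (L * i) hk
    rw [mul_comm k] at this
    exact_mod_cast this
  have e : (L : ℝ) * (i + 1) / k = (L : ℝ) * i / k + L / k := by ring
  constructor <;> linarith

end LocD

theorem thm_LocD (hMin : St_MinL) (hMaj : St_MajL) : St_LocD := by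
  intro A C
  obtain ⟨B₁, h1⟩ := LocD.short hMin hMaj A C
  obtain ⟨B₂, h2⟩ := LocD.short hMin hMaj (A + 2 * C + 1) 1
  refine ⟨max B₁ (B₂ + 1), fun B => ?_⟩
  have hdbl : Tendsto (fun X : ℕ => 2 * X) atTop atTop :=
    tendsto_id.const_mul_atTop' (by norm_num)
  filter_upwards [h1 B, h2 B, hdbl.eventually (h2 B), LocD.ev_log 27, LocD.ev_log (2 ^ B₂),
    LocD.ev_pow (C + 1), eventually_ge_atTop 144] with X g1 g2 g3 hlog hlogB hpow hX z hz1 hz2 L hL1 hL2 β
  change ∑ x ∈ Icc X (2 * X), ‖LocD.W z L β x‖ ^ 2 ≤ X * (L : ℝ) ^ 2 / Real.log X ^ A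
  have hl1 : 1 ≤ Real.log X := by linarith
  have hl0 : 0 < Real.log X := by linarith
  have e1 : Real.log X ^ B₁ ≤ z := (pow_le_pow_right₀ hl1 (le_max_left _ _)).trans hz1
  have e2 : Real.log X ^ (B₂ + 1) ≤ z := (pow_le_pow_right₀ hl1 (le_max_right _ _)).trans hz1
  have e3 : Real.log X ^ B₂ ≤ z := (pow_le_pow_right₀ hl1 (Nat.le_succ _)).trans e2
  by_cases hLs : (L : ℝ) ≤ Real.sqrt X
  · exact g1 z e1 hz2 L hL1 hLs β
  rw [not_le] at hLs
  have hX1 : (144 : ℝ) ≤ X := by exact_mod_cast hX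
  obtain ⟨r, hr⟩ : ∃ r : ℝ, r = Real.sqrt X := ⟨_, rfl⟩
  have hr12 : 12 ≤ r := by
    rw [hr]
    apply Real.le_sqrt_of_sq_le
    linarith
  have hrr : r * r = X := by
    rw [hr]
    exact Real.mul_self_sqrt (by positivity)
  rw [← hr] at hLs hL2 hpow
  have hL0 : (0 : ℝ) < L := by linarith
  have hlC : 1 ≤ Real.log X ^ C := one_le_pow₀ hl1
  have hlCr : Real.log X ^ C * 27 ≤ r := by
    rw [pow_succ] at hpow
    nlinarith
  have hX2 : (L : ℝ) + r ≤ X := by
    rw [← hrr]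
    nlinarith
  have hLX : L ≤ X := by
    have : (L : ℝ) ≤ X := by linarith
    exact_mod_cast this
  -- the number of the windows
  obtain ⟨k, hk⟩ : ∃ k : ℕ, k = ⌊(L : ℝ) / r⌋₊ + 2 := ⟨_, rfl⟩
  have hr0 : 0 < r := by linarith
  have hLr : 1 ≤ (L : ℝ) / r := by
    rw [le_div_iff₀ hr0]
    linarith
  have hk1 : (L : ℝ) / r + 1 ≤ k := by
    rw [hk]
    push_cast
    have := (Nat.lt_floor_add_one ((L : ℝ) / r)).le
    linarith
  have hk2 : (k : ℝ) ≤ 3 * (L / r) := by
    rw [hk]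
    push_cast
    have := Nat.floor_le (show 0 ≤ (L : ℝ) / r by linarith)
    linarith
  have hkpos : 0 < k := by omega
  have hk0 : (0 : ℝ) < k := by exact_mod_cast hkpos
  have hk3 : (k : ℝ) ≤ 3 * Real.log X ^ C := by
    refine hk2.trans (mul_le_mul_of_nonneg_left ?_ (by norm_num))
    rw [div_le_iff₀ hr0, mul_comm]
    exact hL2
  have hup : (L : ℝ) / k + 1 ≤ r := by
    have h3 : (L : ℝ) / k ≤ L * r / (L + r) := by
      rw [div_le_div_iff₀ hk0 (by positivity)]
      have h4 : (L : ℝ) + r ≤ r * k := by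
        have := mul_le_mul_of_nonneg_left hk1 hr0.le
        rw [mul_add, mul_one, mul_div_cancel₀ _ hr0.ne'] at this
        exact this
      calc (L : ℝ) * (L + r) ≤ L * (r * k) := mul_le_mul_of_nonneg_left h4 hL0.le
        _ = _ := by ring
    have h5 : (L : ℝ) * r / (L + r) + 1 ≤ r := by
      rw [div_add_one (by positivity), div_le_iff₀ (by positivity)]
      nlinarith
    linarith
  have hlow : r / 4 ≤ (L : ℝ) / k - 1 := by
    have h3 : r / 3 ≤ (L : ℝ) / k := by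
      rw [le_div_iff₀ hk0]
      calc r / 3 * k ≤ r / 3 * (3 * (L / r)) := mul_le_mul_of_nonneg_left hk2 (by linarith)
        _ = L := by field_simp
    linarith
  obtain ⟨s, hs⟩ : ∃ s : ℕ → ℕ, s = fun i => L * i / k := ⟨_, rfl⟩
  have hsm : Monotone s := by
    rw [hs]
    intro i j hij
    exact Nat.div_le_div_right (Nat.mul_le_mul_left _ hij)
  have hs0 : s 0 = 0 := by simp [hs]
  have hsk : s k = L := by
    rw [hs]
    exact Nat.mul_div_cancel _ hkpos
  have hlog2X : Real.log ((2 * X : ℕ) : ℝ) = Real.log 2 + Real.log X := by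
    push_cast
    rw [Real.log_mul (by norm_num) (by positivity)]
  have hlog2 : Real.log 2 ≤ 1 := by
    have := Real.log_two_lt_d9
    linarith
  have hlog2' : 0 < Real.log 2 := Real.log_pos (by norm_num)
  have hA0 : 0 < Real.log X ^ (A + 2 * C + 1) := by positivity
  have hwin : ∀ i, ∑ x ∈ Icc X (2 * X), ‖LocD.W z (s (i + 1) - s i) β (x + s i)‖ ^ 2 ≤
      3 * (X * (L : ℝ) ^ 2 / Real.log X ^ (A + 2 * C + 1)) ∨ k ≤ i := by
    intro i
    by_cases hik : k ≤ i
    · exact Or.inr hik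
    left
    have hsi : s i ≤ 2 * X := by
      have := hsm (not_le.1 hik).le
      rw [hsk] at this
      omega
    obtain ⟨M, hM⟩ : ∃ M : ℕ, M = s (i + 1) - s i := ⟨_, rfl⟩
    have hlen := LocD.len L k i hkpos
    have hM' : L * (i + 1) / k - L * i / k = M := by rw [hM, hs]
    rw [hM'] at hlen
    rw [← hM]
    have hMr : (M : ℝ) ≤ r := by linarith
    have hMl : r / 4 ≤ (M : ℝ) := by linarith
    refine (LocD.shift (fun y => ‖LocD.W z M β y‖ ^ 2) (fun y => by positivity) X (s i) hsi).trans ?_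
    have w1 := g2 z e3 hz2 M (by
      rw [pow_one, ← hr]
      refine le_trans ?_ hMl
      apply div_le_div_of_nonneg_left hr0.le (by norm_num) (by linarith)) (by rw [← hr]; exact hMr) β
    have w2 := g3 z (by
      rw [hlog2X]
      refine le_trans ?_ e2
      calc (Real.log 2 + Real.log X) ^ B₂ ≤ (2 * Real.log X) ^ B₂ :=
            pow_le_pow_left₀ (by linarith) (by linarith) _
        _ = 2 ^ B₂ * Real.log X ^ B₂ := by rw [mul_pow]
        _ ≤ Real.log X * Real.log X ^ B₂ := mul_le_mul_of_nonneg_right hlogB (by positivity)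
        _ = _ := by rw [pow_succ, mul_comm]) (by
      refine hz2.trans ?_
      rw [hlog2X]
      exact pow_le_pow_left₀ hl0.le (by linarith) _) M (by
      rw [pow_one, hlog2X]
      refine le_trans ?_ hMl
      have h5 : Real.sqrt ((2 * X : ℕ) : ℝ) ≤ 2 * r := by
        rw [hr]
        apply Real.sqrt_le_iff.2
        constructor
        · positivity
        · push_cast
          rw [mul_pow, Real.sq_sqrt (by positivity)]
          nlinarith
      calc Real.sqrt ((2 * X : ℕ) : ℝ) / (Real.log 2 + Real.log X) ≤ 2 * r / 27 :=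
            div_le_div₀ (by positivity) h5 (by norm_num) (by linarith)
        _ ≤ _ := by linarith) (by
      refine hMr.trans ?_
      rw [hr]
      apply Real.sqrt_le_sqrt
      push_cast
      linarith) β
    have hM2 : (M : ℝ) ^ 2 ≤ (L : ℝ) ^ 2 := pow_le_pow_left₀ (by positivity) (by linarith) 2
    have w1' : X * (M : ℝ) ^ 2 / Real.log X ^ (A + 2 * C + 1) ≤
        X * (L : ℝ) ^ 2 / Real.log X ^ (A + 2 * C + 1) :=
      div_le_div_of_nonneg_right (mul_le_mul_of_nonneg_left hM2 (by positivity)) hA0.le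
    have w2' : ((2 * X : ℕ) : ℝ) * (M : ℝ) ^ 2 / Real.log ((2 * X : ℕ) : ℝ) ^ (A + 2 * C + 1) ≤
        2 * (X * (L : ℝ) ^ 2 / Real.log X ^ (A + 2 * C + 1)) := by
      rw [hlog2X, ← mul_div_assoc]
      apply div_le_div₀ (by positivity)
      · push_cast
        nlinarith [mul_le_mul_of_nonneg_left hM2 (show (0 : ℝ) ≤ X by positivity)]
      · exact hA0
      · exact pow_le_pow_left₀ hl0.le (by linarith) _
    linarith
  -- Cauchy and Schwarz
  have hcs : ∀ x, ‖LocD.W z L β x‖ ^ 2 ≤ k * ∑ i ∈ range k, ‖LocD.W z (s (i + 1) - s i) β (x + s i)‖ ^ 2 := by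
    intro x
    have h3 : LocD.W z L β x = ∑ i ∈ range k, LocD.W z (s (i + 1) - s i) β (x + s i) := by
      unfold LocD.W
      rw [← LocD.cut _ s hsm hs0 x k, hsk]
    rw [h3]
    calc ‖∑ i ∈ range k, LocD.W z (s (i + 1) - s i) β (x + s i)‖ ^ 2
        ≤ (∑ i ∈ range k, ‖LocD.W z (s (i + 1) - s i) β (x + s i)‖) ^ 2 :=
          pow_le_pow_left₀ (norm_nonneg _) (norm_sum_le _ _) 2
      _ ≤ _ := by
          have := sq_sum_le_card_mul_sum_sq (s := range k)
            (f := fun i => ‖LocD.W z (s (i + 1) - s i) β (x + s i)‖)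
          rw [Finset.card_range] at this
          exact this
  calc ∑ x ∈ Icc X (2 * X), ‖LocD.W z L β x‖ ^ 2
      ≤ ∑ x ∈ Icc X (2 * X), k * ∑ i ∈ range k, ‖LocD.W z (s (i + 1) - s i) β (x + s i)‖ ^ 2 :=
        Finset.sum_le_sum fun x _ => hcs x
    _ = k * ∑ i ∈ range k, ∑ x ∈ Icc X (2 * X), ‖LocD.W z (s (i + 1) - s i) β (x + s i)‖ ^ 2 := by
        rw [← Finset.mul_sum, Finset.sum_comm]
    _ ≤ k * ∑ _i ∈ range k, 3 * (X * (L : ℝ) ^ 2 / Real.log X ^ (A + 2 * C + 1)) := by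
        apply mul_le_mul_of_nonneg_left _ hk0.le
        apply Finset.sum_le_sum
        intro i hi
        rcases hwin i with h | h
        · exact h
        · exact absurd (Finset.mem_range.1 hi) (not_lt.2 h)
    _ = (k : ℝ) ^ 2 * (3 * (X * (L : ℝ) ^ 2 / Real.log X ^ (A + 2 * C + 1))) := by
        rw [Finset.sum_const, Finset.card_range, nsmul_eq_mul]
        ring
    _ ≤ (3 * Real.log X ^ C) ^ 2 * (3 * (X * (L : ℝ) ^ 2 / Real.log X ^ (A + 2 * C + 1))) := by
        apply mul_le_mul_of_nonneg_right _ (by positivity)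
        exact pow_le_pow_left₀ hk0.le hk3 2
    _ = 27 * Real.log X ^ (2 * C) * (X * (L : ℝ) ^ 2) / Real.log X ^ (A + 2 * C + 1) := by
        rw [pow_mul', mul_pow]
        ring
    _ ≤ X * (L : ℝ) ^ 2 / Real.log X ^ A := by
        rw [div_le_div_iff₀ hA0 (by positivity)]
        have e : Real.log X ^ (A + 2 * C + 1) = Real.log X ^ (2 * C) * Real.log X * Real.log X ^ A := by ring
        rw [e]
        have h3 : 27 * Real.log X ^ (2 * C) * (X * (L : ℝ) ^ 2) * Real.log X ^ A =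
          X * (L : ℝ) ^ 2 * (Real.log X ^ (2 * C) * 27 * Real.log X ^ A) := by ring
        rw [h3]
        apply mul_le_mul_of_nonneg_left _ (by positivity)
        apply mul_le_mul_of_nonneg_right _ (by positivity)
        exact mul_le_mul_of_nonneg_left hlog (by positivity)

end Pool.Agent.NRP
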