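import Mathlib
import Pool.Agent.NRP.StN
import Pool.Agent.GBQ.Basic
import Pool.Agent.MT.Cheb

set_option autoImplicit false

/-!
# NRP: major windows

`thm_MajL`: from `St_Sap` and `St_ModS` to `St_MajL`.
-/

namespace Pool.Agent.NRP

open Finset Filter
open Pool.Agent.GBQ (ee nd gm lam LamS zz rho pr)

private theorem MajL_ee (x y : ℝ) : ‖ee x - ee y‖ ≤ 2 * Real.pi * |x - y| := by
  have h1 : ee x - ee y = ee y * (ee (x - y) - 1) := by
    rw [mul_sub, ← GBQ.ee_add, mul_one]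
    congr 2
    ring
  rw [h1, norm_mul, GBQ.ee_norm, one_mul]
  have h2 : ee (x - y) = Complex.exp (Complex.I * ((2 * Real.pi * (x - y) : ℝ) : ℂ)) := by
    unfold ee
    rw [mul_comm]
  rw [h2]
  refine Real.norm_exp_I_mul_ofReal_sub_one_le.trans ?_
  rw [Real.norm_eq_abs, abs_mul, abs_of_pos (by positivity : (0 : ℝ) < 2 * Real.pi)]

/-- one short window: residue classes -/
private theorem MajL_window (f : ℕ → ℝ) (y M q : ℕ) (hq : 1 ≤ q) (a : ℤ) (β F : ℝ)
    (hf : ∀ n ∈ Ioc y (y + M), |f n| ≤ F) :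
    ‖∑ n ∈ Ioc y (y + M), ((f n : ℝ) : ℂ) * ee (β * n)‖ ≤
      ∑ b ∈ range q, |∑ n ∈ (Ioc y (y + M)).filter (fun n => n % q = b), f n| +
        M * (F * (2 * Real.pi * (|β - a / q| * M))) := by
  have hq0 : (q : ℝ) ≠ 0 := by
    have : (0 : ℝ) < q := by exact_mod_cast hq
    exact this.ne'
  set θ : ℝ := β - a / q with hθ
  have h1 : ∀ n ∈ Ioc y (y + M), ((f n : ℝ) : ℂ) * ee (β * n) =
      ee (θ * y) * (((f n : ℝ) : ℂ) * ee ((a : ℝ) / q * ((n % q : ℕ) : ℝ))) +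
        ((f n : ℝ) : ℂ) * ((ee (θ * n) - ee (θ * y)) * ee ((a : ℝ) / q * ((n % q : ℕ) : ℝ))) := by
    intro n _
    have e1 : ee (β * n) = ee (θ * n) * ee ((a : ℝ) / q * ((n % q : ℕ) : ℝ)) := by
      rw [← GBQ.ee_add, ← GBQ.ee_add_int (θ * n + _) (a * ((n / q : ℕ) : ℤ))]
      congr 1
      have e2 : (n : ℝ) = (q : ℝ) * ((n / q : ℕ) : ℝ) + ((n % q : ℕ) : ℝ) := by
        exact_mod_cast (Nat.div_add_mod n q).symm
      have e3 : (a : ℝ) / q * (n : ℝ) = a * ((n / q : ℕ) : ℝ) + (a : ℝ) / q * ((n % q : ℕ) : ℝ) := by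
        have e4 : (a : ℝ) / q * (n : ℝ) =
            (a : ℝ) / q * ((q : ℝ) * ((n / q : ℕ) : ℝ) + ((n % q : ℕ) : ℝ)) := by rw [← e2]
        rw [e4, mul_add, ← mul_assoc, div_mul_cancel₀ _ hq0]
      have e5 : ((a * ((n / q : ℕ) : ℤ) : ℤ) : ℝ) = a * ((n / q : ℕ) : ℝ) := by
        rw [Int.cast_mul, Int.cast_natCast]
      rw [e5, hθ, sub_mul, e3]
      ring
    rw [e1]
    ring
  rw [sum_congr rfl h1, sum_add_distrib, ← mul_sum]
  refine (norm_add_le _ _).trans (add_le_add ?_ ?_)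
  · rw [norm_mul, GBQ.ee_norm, one_mul]
    have hmaps : ∀ n ∈ Ioc y (y + M), n % q ∈ range q := fun n _ => mem_range.2 (Nat.mod_lt _ hq)
    rw [← sum_fiberwise_of_maps_to hmaps]
    refine (norm_sum_le _ _).trans (sum_le_sum fun b _ => ?_)
    have h2 : ∑ n ∈ (Ioc y (y + M)).filter (fun n => n % q = b),
        ((f n : ℝ) : ℂ) * ee ((a : ℝ) / q * ((n % q : ℕ) : ℝ)) =
        ((∑ n ∈ (Ioc y (y + M)).filter (fun n => n % q = b), f n : ℝ) : ℂ) *
          ee ((a : ℝ) / q * (b : ℝ)) := by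
      rw [Complex.ofReal_sum, sum_mul]
      refine sum_congr rfl fun n hn => ?_
      rw [(mem_filter.1 hn).2]
    rw [h2, norm_mul, GBQ.ee_norm, mul_one, Complex.norm_real, Real.norm_eq_abs]
  · refine (norm_sum_le _ _).trans ?_
    have h3 : ∀ n ∈ Ioc y (y + M),
        ‖((f n : ℝ) : ℂ) * ((ee (θ * n) - ee (θ * y)) * ee ((a : ℝ) / q * ((n % q : ℕ) : ℝ)))‖ ≤
          F * (2 * Real.pi * (|θ| * M)) := by
      intro n hn
      rw [norm_mul, norm_mul, GBQ.ee_norm, mul_one, Complex.norm_real, Real.norm_eq_abs]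
      have hF : 0 ≤ F := (abs_nonneg _).trans (hf n hn)
      refine mul_le_mul (hf n hn) ((MajL_ee _ _).trans ?_) (norm_nonneg _) hF
      have h4 : |θ * n - θ * y| ≤ |θ| * M := by
        rw [← mul_sub, abs_mul]
        refine mul_le_mul_of_nonneg_left ?_ (abs_nonneg _)
        obtain ⟨h5, h6⟩ := mem_Ioc.1 hn
        have h7 : (y : ℝ) ≤ n := by exact_mod_cast h5.le
        have h8 : (n : ℝ) ≤ y + M := by exact_mod_cast h6
        rw [abs_of_nonneg (by linarith)]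
        linarith
      exact mul_le_mul_of_nonneg_left h4 (by positivity)
    refine (sum_le_sum h3).trans (le_of_eq ?_)
    rw [sum_const, Nat.card_Ioc, nsmul_eq_mul, Nat.add_sub_cancel_left]

/-- consecutive windows -/
private theorem MajL_split {G : Type*} [AddCommMonoid G] (g : ℕ → G) (x M J : ℕ) :
    ∑ n ∈ Ioc x (x + J * M), g n =
      ∑ j ∈ range J, ∑ n ∈ Ioc (x + j * M) (x + j * M + M), g n := by
  induction J with
  | zero => simp
  | succ J ih =>
    have h1 : x + (J + 1) * M = x + J * M + M := by ring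
    rw [sum_range_succ, ← ih, h1,
      sum_Ioc_consecutive g (Nat.le_add_right _ _) (Nat.le_add_right _ _)]

/-- the deviation of `lam` in a class coprime to `q` -/
private noncomputable def MajL_v (q M b y : ℕ) : ℝ :=
  if b.Coprime q then (∑ n ∈ (Ioc y (y + M)).filter (fun n => n % q = b % q), lam n) -
    (M : ℝ) / (q.totient : ℝ) else 0

private noncomputable def MajL_h (q n : ℕ) : ℝ := if n.Coprime q then 0 else lam n

private theorem MajL_h_nonneg (q n : ℕ) : 0 ≤ MajL_h q n := by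
  unfold MajL_h
  split_ifs
  · exact le_rfl
  · exact GBQ.lam_nonneg n

private theorem MajL_coprime (n q : ℕ) : n.Coprime q ↔ (n % q).Coprime q := by
  unfold Nat.Coprime
  rw [Nat.gcd_comm n q, Nat.gcd_rec q n]

/-- one class in one window -/
private theorem MajL_class (y M q z b : ℕ) (T : ℝ) (hb : b < q)
    (hmod : |∑ n ∈ (Ioc y (y + M)).filter (fun n => n % q = b % q), LamS z n -
      (if b.Coprime q then (M : ℝ) / (q.totient : ℝ) else 0)| ≤ T) :
    |∑ n ∈ (Ioc y (y + M)).filter (fun n => n % q = b), (lam n - LamS z n)| ≤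
      |MajL_v q M b y| + T + ∑ n ∈ (Ioc y (y + M)).filter (fun n => n % q = b), MajL_h q n := by
  have hb' : b % q = b := Nat.mod_eq_of_lt hb
  have h0 : 0 ≤ ∑ n ∈ (Ioc y (y + M)).filter (fun n => n % q = b), MajL_h q n :=
    sum_nonneg fun n _ => MajL_h_nonneg q n
  rw [hb'] at hmod
  rw [sum_sub_distrib]
  set u := ∑ n ∈ (Ioc y (y + M)).filter (fun n => n % q = b), lam n with hu
  set w := ∑ n ∈ (Ioc y (y + M)).filter (fun n => n % q = b), LamS z n with hw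
  by_cases hc : b.Coprime q
  · rw [if_pos hc] at hmod
    have h1 : MajL_v q M b y = u - (M : ℝ) / (q.totient : ℝ) := by
      rw [MajL_v, if_pos hc, hb', hu]
    rw [h1]
    have h2 : |u - w| ≤ |u - (M : ℝ) / (q.totient : ℝ)| + |(M : ℝ) / (q.totient : ℝ) - w| :=
      abs_sub_le _ _ _
    rw [abs_sub_comm ((M : ℝ) / (q.totient : ℝ)) w] at h2
    linarith
  · rw [if_neg hc, sub_zero] at hmod
    have h1 : MajL_v q M b y = 0 := by rw [MajL_v, if_neg hc]
    have h2 : ∑ n ∈ (Ioc y (y + M)).filter (fun n => n % q = b), MajL_h q n = u := by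
      rw [hu]
      refine sum_congr rfl fun n hn => ?_
      have h3 : n % q = b := (mem_filter.1 hn).2
      rw [MajL_h, if_neg]
      rw [MajL_coprime, h3]
      exact hc
    have h3 : 0 ≤ u := by
      rw [← h2]
      exact h0
    rw [h1, h2, abs_zero]
    have h4 : |u - w| ≤ |u| + |w| := abs_sub _ _
    rw [abs_of_nonneg h3] at h4
    linarith

/-- the whole interval -/
private theorem MajL_point (x L M J R q z N : ℕ) (a : ℤ) (β F T P : ℝ) (hL : L = J * M + R)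
    (hR : R ≤ M) (hq : 1 ≤ q) (hF : 0 ≤ F)
    (hf : ∀ n ∈ Ioc x (x + L), |lam n - LamS z n| ≤ F)
    (hmod : ∀ y b : ℕ, y ≤ x + L →
      |∑ n ∈ (Ioc y (y + M)).filter (fun n => n % q = b % q), LamS z n -
        (if b.Coprime q then (M : ℝ) / (q.totient : ℝ) else 0)| ≤ T)
    (hN : x + L ≤ N) (hP : ∑ n ∈ (range (N + 1)).filter (fun n => ¬ n.Coprime q), lam n ≤ P) :
    ‖∑ n ∈ Ioc x (x + L), ((lam n - LamS z n : ℝ) : ℂ) * ee (β * n)‖ ≤
      ∑ j ∈ range J, ∑ b ∈ range q, |MajL_v q M b (x + j * M)| +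
        (J * (q * T) + P + J * (M * (F * (2 * Real.pi * (|β - a / q| * M)))) + M * F) := by
  have hJL : J * M ≤ L := by omega
  have h1 : ∑ n ∈ Ioc x (x + L), ((lam n - LamS z n : ℝ) : ℂ) * ee (β * n) =
      ∑ j ∈ range J, ∑ n ∈ Ioc (x + j * M) (x + j * M + M),
        ((lam n - LamS z n : ℝ) : ℂ) * ee (β * n) +
      ∑ n ∈ Ioc (x + J * M) (x + L), ((lam n - LamS z n : ℝ) : ℂ) * ee (β * n) := by
    rw [← MajL_split, sum_Ioc_consecutive _ (Nat.le_add_right _ _) (by omega)]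
  have h2 : ‖∑ n ∈ Ioc (x + J * M) (x + L), ((lam n - LamS z n : ℝ) : ℂ) * ee (β * n)‖ ≤ M * F := by
    refine (norm_sum_le _ _).trans ?_
    have h3 : ∀ n ∈ Ioc (x + J * M) (x + L), ‖((lam n - LamS z n : ℝ) : ℂ) * ee (β * n)‖ ≤ F := by
      intro n hn
      rw [norm_mul, GBQ.ee_norm, mul_one, Complex.norm_real, Real.norm_eq_abs]
      obtain ⟨h5, h6⟩ := mem_Ioc.1 hn
      exact hf n (mem_Ioc.2 ⟨by omega, h6⟩)
    refine (sum_le_sum h3).trans ?_
    rw [sum_const, Nat.card_Ioc, nsmul_eq_mul]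
    refine mul_le_mul_of_nonneg_right ?_ hF
    have : x + L - (x + J * M) ≤ M := by omega
    exact_mod_cast this
  have hjM : ∀ j ∈ range J, j * M + M ≤ L := by
    intro j hj
    have h4 : (j + 1) * M ≤ J * M := Nat.mul_le_mul_right _ (mem_range.1 hj)
    have h5 : (j + 1) * M = j * M + M := by ring
    omega
  have h3 : ∀ j ∈ range J, ‖∑ n ∈ Ioc (x + j * M) (x + j * M + M),
      ((lam n - LamS z n : ℝ) : ℂ) * ee (β * n)‖ ≤
      ∑ b ∈ range q, |MajL_v q M b (x + j * M)| + q * T +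
        ∑ n ∈ Ioc (x + j * M) (x + j * M + M), MajL_h q n +
        M * (F * (2 * Real.pi * (|β - a / q| * M))) := by
    intro j hj
    have hj' := hjM j hj
    refine (MajL_window (fun n => lam n - LamS z n) (x + j * M) M q hq a β F ?_).trans ?_
    · intro n hn
      obtain ⟨h5, h6⟩ := mem_Ioc.1 hn
      exact hf n (mem_Ioc.2 ⟨by omega, by omega⟩)
    · refine add_le_add ?_ le_rfl
      have hmaps : ∀ n ∈ Ioc (x + j * M) (x + j * M + M), n % q ∈ range q :=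
        fun n _ => mem_range.2 (Nat.mod_lt _ hq)
      have h5 : ∀ b ∈ range q, |∑ n ∈ (Ioc (x + j * M) (x + j * M + M)).filter
          (fun n => n % q = b), (lam n - LamS z n)| ≤ |MajL_v q M b (x + j * M)| + T +
          ∑ n ∈ (Ioc (x + j * M) (x + j * M + M)).filter (fun n => n % q = b), MajL_h q n :=
        fun b hb => MajL_class _ M q z b T (mem_range.1 hb) (hmod _ b (by omega))
      refine (sum_le_sum h5).trans (le_of_eq ?_)
      rw [sum_add_distrib, sum_add_distrib, sum_fiberwise_of_maps_to hmaps, sum_const, card_range,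
        nsmul_eq_mul]
  rw [h1]
  refine (norm_add_le _ _).trans ?_
  have h4 := (norm_sum_le (range J) fun j => ∑ n ∈ Ioc (x + j * M) (x + j * M + M),
      ((lam n - LamS z n : ℝ) : ℂ) * ee (β * n)).trans (sum_le_sum h3)
  rw [sum_add_distrib, sum_add_distrib, sum_add_distrib, ← MajL_split (MajL_h q), sum_const,
    sum_const, card_range, nsmul_eq_mul, nsmul_eq_mul] at h4
  have h5 : ∑ n ∈ Ioc x (x + J * M), MajL_h q n ≤ P := by
    refine le_trans ?_ hP
    have h6 : ∑ n ∈ (range (N + 1)).filter (fun n => ¬ n.Coprime q), lam n =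
        ∑ n ∈ range (N + 1), MajL_h q n := by
      rw [sum_filter]
      refine sum_congr rfl fun n _ => ?_
      unfold MajL_h
      by_cases hc : n.Coprime q
      · rw [if_pos hc, if_neg (not_not.2 hc)]
      · rw [if_neg hc, if_pos hc]
    rw [h6]
    refine sum_le_sum_of_subset_of_nonneg ?_ fun n _ _ => MajL_h_nonneg q n
    intro n hn
    obtain ⟨h7, h8⟩ := mem_Ioc.1 hn
    exact mem_range.2 (by omega)
  linarith

/-- mean squares -/
private theorem MajL_ms (X J q : ℕ) (hX : 1 ≤ X) (s : ℕ → ℝ) (v : ℕ → ℕ → ℕ → ℝ) (Err W : ℝ)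
    (hs0 : ∀ x ∈ Icc X (2 * X), 0 ≤ s x)
    (hs : ∀ x ∈ Icc X (2 * X), s x ≤ ∑ j ∈ range J, ∑ b ∈ range q, |v j b x| + Err)
    (hv : ∀ j ∈ range J, ∀ b ∈ range q, ∑ x ∈ Icc X (2 * X), (v j b x) ^ 2 ≤ W) :
    ∑ x ∈ Icc X (2 * X), s x ^ 2 ≤ 2 * (((J : ℝ) * q) ^ 2 * W) + 4 * X * Err ^ 2 := by
  have h1 : ∀ x ∈ Icc X (2 * X), s x ^ 2 ≤
      2 * (((J : ℝ) * q) * ∑ j ∈ range J, ∑ b ∈ range q, (v j b x) ^ 2) + 2 * Err ^ 2 := by
    intro x hx
    have h2 := hs x hx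
    have h3 := hs0 x hx
    set A := ∑ j ∈ range J, ∑ b ∈ range q, |v j b x| with hA
    have h4 : A ^ 2 ≤ ((J : ℝ) * q) * ∑ j ∈ range J, ∑ b ∈ range q, (v j b x) ^ 2 := by
      have h5 : A = ∑ p ∈ range J ×ˢ range q, |v p.1 p.2 x| := by
        rw [hA, sum_product]
      have h6 : ∑ j ∈ range J, ∑ b ∈ range q, (v j b x) ^ 2 =
          ∑ p ∈ range J ×ˢ range q, |v p.1 p.2 x| ^ 2 := by
        rw [sum_product]
        refine sum_congr rfl fun j _ => sum_congr rfl fun b _ => ?_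
        rw [sq_abs]
      rw [h5, h6]
      refine sq_sum_le_card_mul_sum_sq.trans (le_of_eq ?_)
      rw [card_product, card_range, card_range, Nat.cast_mul]
    have h7 : s x ^ 2 ≤ (A + Err) ^ 2 := pow_le_pow_left₀ h3 h2 2
    nlinarith [sq_nonneg (A - Err)]
  refine (sum_le_sum h1).trans ?_
  rw [sum_add_distrib, ← mul_sum, ← mul_sum]
  have h2 : ∑ x ∈ Icc X (2 * X), ∑ j ∈ range J, ∑ b ∈ range q, (v j b x) ^ 2 ≤ (J : ℝ) * (q * W) := by
    rw [sum_comm]
    have h3 : ∀ j ∈ range J, ∑ x ∈ Icc X (2 * X), ∑ b ∈ range q, (v j b x) ^ 2 ≤ q * W := by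
      intro j hj
      rw [sum_comm]
      refine (sum_le_sum (hv j hj)).trans (le_of_eq ?_)
      rw [sum_const, card_range, nsmul_eq_mul]
    refine (sum_le_sum h3).trans (le_of_eq ?_)
    rw [sum_const, card_range, nsmul_eq_mul]
  have h3 : ∑ _x ∈ Icc X (2 * X), 2 * Err ^ 2 ≤ 4 * X * Err ^ 2 := by
    rw [sum_const, Nat.card_Icc, nsmul_eq_mul]
    have h4 : ((2 * X + 1 - X : ℕ) : ℝ) ≤ 2 * X := by
      have : 2 * X + 1 - X ≤ 2 * X := by omega
      exact_mod_cast this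
    nlinarith [sq_nonneg Err]
  have h4 : (0 : ℝ) ≤ (J : ℝ) * q := by positivity
  have h5 := mul_le_mul_of_nonneg_left h2 h4
  refine add_le_add ?_ h3
  refine (mul_le_mul_of_nonneg_left h5 (by norm_num : (0 : ℝ) ≤ 2)).trans (le_of_eq ?_)
  ring

/-- shifted sums of squares -/
private theorem MajL_shift (g : ℕ → ℝ) (hg : ∀ y, 0 ≤ g y) (X k : ℕ) (hk : k ≤ 2 * X) :
    ∑ x ∈ Icc X (2 * X), g (x + k) ≤ ∑ x ∈ Icc X (2 * X), g x + ∑ x ∈ Icc (2 * X) (2 * (2 * X)), g x := by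
  have h1 : ∑ x ∈ Icc X (2 * X), g (x + k) = ∑ y ∈ (Icc X (2 * X)).image (fun x => x + k), g y := by
    rw [sum_image]
    intro a _ b _ h
    exact Nat.add_right_cancel h
  rw [h1]
  have h2 : (Icc X (2 * X)).image (fun x => x + k) ⊆
      Icc X (2 * X) ∪ Icc (2 * X) (2 * (2 * X)) := by
    intro y hy
    obtain ⟨x, hx, rfl⟩ := mem_image.1 hy
    obtain ⟨h3, h4⟩ := mem_Icc.1 hx
    rw [mem_union, mem_Icc, mem_Icc]
    omega
  refine (sum_le_sum_of_subset_of_nonneg h2 fun y _ _ => hg y).trans ?_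
  rw [← sum_union_inter]
  have h3 : 0 ≤ ∑ x ∈ Icc X (2 * X) ∩ Icc (2 * X) (2 * (2 * X)), g x :=
    sum_nonneg fun y _ => hg y
  linarith

private theorem MajL_logpow (c s : ℝ) (k : ℕ) (hc : 0 < c) (hs : 0 < s) :
    ∀ᶠ X : ℕ in atTop, Real.log X ^ k ≤ c * (X : ℝ) ^ s := by
  have h := ((isLittleO_log_rpow_rpow_atTop (k : ℝ) hs).bound hc)
  have h2 := tendsto_natCast_atTop_atTop.eventually (h.and (eventually_ge_atTop (1 : ℝ)))
  filter_upwards [h2] with X hX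
  obtain ⟨h3, h4⟩ := hX
  rw [Real.rpow_natCast, Real.norm_of_nonneg (pow_nonneg (Real.log_nonneg h4) _),
    Real.norm_of_nonneg (Real.rpow_nonneg (by linarith) _)] at h3
  exact h3

/-- the error term -/
private theorem MajL_err (A D K q : ℕ) (ℓ L M J P θ : ℝ) (hl : 100 ≤ ℓ)
    (hL : 0 < L) (hM0 : 0 ≤ M) (hJ : 0 ≤ J) (hJM : J * M ≤ L) (hM : M ≤ L / ℓ ^ (D + K + A + 2))
    (hq1 : 1 ≤ q) (hq : (q : ℝ) ≤ ℓ ^ D) (hθ0 : 0 ≤ θ) (hθ : θ ≤ ℓ ^ D / (q * L))
    (hP : P ≤ L / ℓ ^ (A + 2)) :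
    J * (q * (M / ℓ ^ (D + A + 2))) + P + J * (M * (ℓ ^ K * (2 * Real.pi * (θ * M)))) + M * ℓ ^ K ≤
      10 * (L / ℓ ^ (A + 2)) := by
  have hl0 : 0 < ℓ := by linarith
  have hq0 : (1 : ℝ) ≤ q := by exact_mod_cast hq1
  have hM' : M * ℓ ^ K * ℓ ^ D ≤ L / ℓ ^ (A + 2) := by
    rw [le_div_iff₀ (by positivity)] at hM ⊢
    calc M * ℓ ^ K * ℓ ^ D * ℓ ^ (A + 2) = M * ℓ ^ (D + K + A + 2) := by ring
      _ ≤ L := hM
  have hD1 : 1 ≤ ℓ ^ D := one_le_pow₀ (by linarith)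
  have h1 : J * (q * (M / ℓ ^ (D + A + 2))) ≤ L / ℓ ^ (A + 2) := by
    have e1 : J * (q * (M / ℓ ^ (D + A + 2))) = (J * M) * (q / ℓ ^ D) / ℓ ^ (A + 2) := by
      rw [show D + A + 2 = D + (A + 2) by ring, pow_add]
      field_simp
    rw [e1]
    refine div_le_div_of_nonneg_right ?_ (by positivity)
    have e2 : (q : ℝ) / ℓ ^ D ≤ 1 := (div_le_one (by positivity)).2 hq
    calc (J * M) * (q / ℓ ^ D) ≤ L * 1 := by
          refine mul_le_mul hJM e2 (by positivity) hL.le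
      _ = L := mul_one L
  have h2 : M * ℓ ^ K ≤ L / ℓ ^ (A + 2) := by
    refine le_trans ?_ hM'
    have : 0 ≤ M * ℓ ^ K := by positivity
    nlinarith
  have h3 : J * (M * (ℓ ^ K * (2 * Real.pi * (θ * M)))) ≤ 2 * Real.pi * (L / ℓ ^ (A + 2)) := by
    have e1 : J * (M * (ℓ ^ K * (2 * Real.pi * (θ * M)))) =
        2 * Real.pi * ((J * M) * (θ * (M * ℓ ^ K))) := by ring
    rw [e1]
    refine mul_le_mul_of_nonneg_left ?_ (by positivity)
    have e2 : θ ≤ ℓ ^ D / L := by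
      refine hθ.trans (div_le_div_of_nonneg_left (by positivity) hL ?_)
      nlinarith
    calc (J * M) * (θ * (M * ℓ ^ K)) ≤ L * (ℓ ^ D / L * (M * ℓ ^ K)) := by
          refine mul_le_mul hJM (mul_le_mul_of_nonneg_right e2 (by positivity)) (by positivity) hL.le
      _ = M * ℓ ^ K * ℓ ^ D := by field_simp
      _ ≤ L / ℓ ^ (A + 2) := hM'
  have h4 : 2 * Real.pi ≤ 7 := by
    have := Real.pi_lt_d2
    linarith
  have h5 : 0 ≤ L / ℓ ^ (A + 2) := by positivity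
  have h6 := mul_le_mul_of_nonneg_right h4 h5
  linarith

/-- the final bound -/
private theorem MajL_fin (A D q : ℕ) (X ℓ L M J Err : ℝ) (hl : 100 ≤ ℓ) (hX : 0 ≤ X)
    (hL : 0 < L) (hM0 : 0 ≤ M) (hJ : 0 ≤ J) (hJM : J * M ≤ L) (hq : (q : ℝ) ≤ ℓ ^ D)
    (hE0 : 0 ≤ Err) (hE : Err ≤ 10 * (L / ℓ ^ (A + 2))) :
    2 * ((J * q) ^ 2 * (3 * X * M ^ 2 / ℓ ^ (A + 2 * D + 2))) + 4 * X * Err ^ 2 ≤
      X * L ^ 2 / ℓ ^ A := by
  have hl0 : 0 < ℓ := by linarith
  have h1 : 2 * ((J * q) ^ 2 * (3 * X * M ^ 2 / ℓ ^ (A + 2 * D + 2))) ≤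
      6 / ℓ ^ 2 * (X * L ^ 2 / ℓ ^ A) := by
    have e1 : 2 * ((J * q) ^ 2 * (3 * X * M ^ 2 / ℓ ^ (A + 2 * D + 2))) =
        6 / ℓ ^ 2 * (X * ((J * M) ^ 2 * ((q / ℓ ^ D) ^ 2)) / ℓ ^ A) := by
      rw [show A + 2 * D + 2 = A + (D + D) + 2 by ring, pow_add, pow_add, pow_add]
      field_simp
      ring
    rw [e1]
    refine mul_le_mul_of_nonneg_left ?_ (by positivity)
    refine div_le_div_of_nonneg_right ?_ (by positivity)
    refine mul_le_mul_of_nonneg_left ?_ hX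
    have e2 : (q : ℝ) / ℓ ^ D ≤ 1 := (div_le_one (by positivity)).2 hq
    have e3 : ((q : ℝ) / ℓ ^ D) ^ 2 ≤ 1 := pow_le_one₀ (by positivity) e2
    have e4 : (J * M) ^ 2 ≤ L ^ 2 := pow_le_pow_left₀ (by positivity) hJM 2
    calc (J * M) ^ 2 * ((q / ℓ ^ D) ^ 2) ≤ L ^ 2 * 1 := mul_le_mul e4 e3 (by positivity) (by positivity)
      _ = L ^ 2 := mul_one _
  have h2 : 4 * X * Err ^ 2 ≤ 400 / ℓ ^ (A + 4) * (X * L ^ 2 / ℓ ^ A) := by
    have e1 : Err ^ 2 ≤ (10 * (L / ℓ ^ (A + 2))) ^ 2 := pow_le_pow_left₀ hE0 hE 2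
    have e2 : 400 / ℓ ^ (A + 4) * (X * L ^ 2 / ℓ ^ A) = 4 * X * (10 * (L / ℓ ^ (A + 2))) ^ 2 := by
      rw [show A + 4 = A + 2 + 2 by ring, pow_add, pow_add]
      field_simp
      ring
    rw [e2]
    exact mul_le_mul_of_nonneg_left e1 (by positivity)
  have h3 : 6 / ℓ ^ 2 ≤ 1 / 2 := by
    rw [div_le_iff₀ (by positivity)]
    nlinarith
  have h4 : 400 / ℓ ^ (A + 4) ≤ 1 / 2 := by
    rw [div_le_iff₀ (by positivity)]
    have e1 : ℓ ^ 2 ≤ ℓ ^ (A + 4) := pow_le_pow_right₀ (by linarith) (by omega)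
    nlinarith
  have h5 : 0 ≤ X * L ^ 2 / ℓ ^ A := by positivity
  have h6 := mul_le_mul_of_nonneg_right h3 h5
  have h7 := mul_le_mul_of_nonneg_right h4 h5
  linarith

theorem thm_MajL (hV : St_Sap) (hM : St_ModS) : St_MajL := by
  intro A C D
  refine ⟨D + 1, fun B => ?_⟩
  have hS1 := hV (A + 2 * D + 2) (C + (D + (B + 2) + A + 2) + 1) D
  have htwo : Tendsto (fun X : ℕ => 2 * X) atTop atTop :=
    tendsto_atTop_mono (fun X => by simp only [id]; omega) tendsto_id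
  have hS2 := htwo.eventually hS1
  have hlogt : Tendsto (fun X : ℕ => Real.log X) atTop atTop :=
    Real.tendsto_log_atTop.comp tendsto_natCast_atTop_atTop
  filter_upwards [hS1, hS2, hM (D + A + 2) B (1 / 4) (by norm_num),
    MajL_logpow (1 / 8) (1 / 4) (A + C + (D + (B + 2) + A + 2) + 4) (by norm_num) (by norm_num),
    hlogt.eventually (eventually_ge_atTop (100 : ℝ)), eventually_ge_atTop 4] with
    X hS1 hS2 hMod hgrow hl hX4
  intro z hz1 hz2 L hL1 hL2 β a q hq1 hqD hβ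
  set K := B + 2 with hK
  set E := D + K + A + 2 with hE
  set ℓ : ℝ := Real.log X with hℓ
  have hl0 : 0 < ℓ := by linarith
  have hl1 : 1 ≤ ℓ := by linarith
  have hX4' : (4 : ℝ) ≤ X := by exact_mod_cast hX4
  have hX0 : (0 : ℝ) < X := by linarith
  set w : ℝ := (X : ℝ) ^ (1 / 4 : ℝ) with hw
  have hw0 : 0 < w := Real.rpow_pos_of_pos hX0 _
  have hw4 : w ^ 4 = X := by
    rw [hw, ← Real.rpow_natCast, ← Real.rpow_mul hX0.le]
    norm_num
  have hsq : Real.sqrt X = w ^ 2 := by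
    rw [Real.sqrt_eq_iff_mul_self_eq hX0.le (by positivity)]
    rw [← hw4]
    ring
  have hgrow' : 8 * ℓ ^ (A + C + E + 4) ≤ w := by linarith
  have hw1 : 1 ≤ w := by
    have : 1 ≤ ℓ ^ (A + C + E + 4) := one_le_pow₀ hl1
    linarith
  rw [hsq] at hL1 hL2
  have hwL : w ^ 2 ≤ L * ℓ ^ C := by rwa [div_le_iff₀ (by positivity)] at hL1
  have hLX : (L : ℝ) ≤ X := by
    refine hL2.trans ?_
    rw [← hw4]
    exact pow_le_pow_right₀ hw1 (by norm_num)
  have hLX' : L ≤ X := by exact_mod_cast hLX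
  -- lower bounds for `L`
  have hLlow : ∀ k : ℕ, k ≤ A + E + 4 → 8 * ℓ ^ k ≤ L := by
    intro k hk
    have h1 : 8 * ℓ ^ k * ℓ ^ C ≤ L * ℓ ^ C := by
      calc 8 * ℓ ^ k * ℓ ^ C = 8 * ℓ ^ (k + C) := by ring
        _ ≤ 8 * ℓ ^ (A + C + E + 4) := by
            refine mul_le_mul_of_nonneg_left (pow_le_pow_right₀ hl1 (by omega)) (by norm_num)
        _ ≤ w := hgrow'
        _ ≤ w ^ 2 := by nlinarith
        _ ≤ L * ℓ ^ C := hwL
    exact le_of_mul_le_mul_right h1 (by positivity)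
  have hL0 : (0 : ℝ) < L := by
    have h1 := hLlow 0 (by omega)
    rw [pow_zero] at h1
    linarith
  -- `q ≤ z`
  have hqz : (q : ℝ) ≤ z := by
    refine hqD.trans (le_trans ?_ hz1)
    exact pow_le_pow_right₀ hl1 (by omega)
  have hqz' : q ≤ z := by exact_mod_cast hqz
  have hz2' : 2 ≤ z := by
    have h1 : ℓ ^ 1 ≤ ℓ ^ (D + 1) := pow_le_pow_right₀ hl1 (by omega)
    rw [pow_one] at h1
    have h2 : (2 : ℝ) ≤ z := by linarith
    exact_mod_cast h2
  -- the length of the windows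
  set M : ℕ := ⌊(L : ℝ) / ℓ ^ E⌋₊ with hMdef
  have hMle : (M : ℝ) ≤ L / ℓ ^ E := Nat.floor_le (by positivity)
  have hMge : (L : ℝ) / (2 * ℓ ^ E) ≤ M := by
    have h1 : (L : ℝ) / ℓ ^ E - 1 < M := Nat.sub_one_lt_floor _
    have h2 : 2 ≤ (L : ℝ) / ℓ ^ E := by
      rw [le_div_iff₀ (by positivity)]
      have h3 := hLlow E (by omega)
      have h4 : 0 < ℓ ^ E := by positivity
      linarith
    have h3 : (L : ℝ) / (2 * ℓ ^ E) = (L : ℝ) / ℓ ^ E / 2 := by
      rw [div_div, mul_comm]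
    rw [h3]
    linarith
  have hM0 : (0 : ℝ) < M := lt_of_lt_of_le (by positivity) hMge
  have hM0' : 0 < M := by exact_mod_cast hM0
  have hMw : w ^ 2 ≤ 2 * ℓ ^ (C + E) * M := by
    have h1 : (L : ℝ) ≤ M * (2 * ℓ ^ E) := by rwa [div_le_iff₀ (by positivity)] at hMge
    calc w ^ 2 ≤ L * ℓ ^ C := hwL
      _ ≤ M * (2 * ℓ ^ E) * ℓ ^ C := mul_le_mul_of_nonneg_right h1 (by positivity)
      _ = 2 * ℓ ^ (C + E) * M := by ring
  have hCE : 8 * ℓ ^ (C + E) ≤ w := by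
    refine le_trans ?_ hgrow'
    exact mul_le_mul_of_nonneg_left (pow_le_pow_right₀ hl1 (by omega)) (by norm_num)
  have hMX : (X : ℝ) ^ (1 / 4 : ℝ) ≤ M := by
    rw [← hw]
    have h1 : w * w ≤ w * M := by
      calc w * w = w ^ 2 := by ring
        _ ≤ 2 * ℓ ^ (C + E) * M := hMw
        _ ≤ w * M := by
            refine mul_le_mul_of_nonneg_right ?_ hM0.le
            have h4 : 0 < ℓ ^ (C + E) := by positivity
            linarith
    exact le_of_mul_le_mul_left h1 hw0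
  have hML : (M : ℝ) ≤ L := by
    refine hMle.trans (div_le_self hL0.le (one_le_pow₀ hl1))
  have hJR : L = L / M * M + L % M := by
    rw [Nat.div_add_mod']
  set J := L / M with hJ
  have hJM' : J * M ≤ L := by omega
  have hJM : (J : ℝ) * M ≤ L := by exact_mod_cast hJM'
  -- logarithms
  have hlog4 : Real.log ((4 * X : ℕ) : ℝ) ≤ 2 * ℓ := by
    rw [Nat.cast_mul, Real.log_mul (by norm_num) (by positivity)]
    have h1 : Real.log ((4 : ℕ) : ℝ) ≤ Real.log X := by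
      refine Real.log_le_log (by norm_num) ?_
      exact_mod_cast hX4
    linarith
  have hlog4' : 0 ≤ Real.log ((4 * X : ℕ) : ℝ) := Real.log_natCast_nonneg _
  -- classes
  have hq4 : q ≤ 4 * X := by
    have h1 : (q : ℝ) ≤ X := by
      calc (q : ℝ) ≤ ℓ ^ D := hqD
        _ ≤ 8 * ℓ ^ (C + E) := by
            have h2 : ℓ ^ D ≤ ℓ ^ (C + E) := pow_le_pow_right₀ hl1 (by omega)
            have h3 : 0 < ℓ ^ (C + E) := by positivity
            linarith
        _ ≤ w := hCE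
        _ ≤ w ^ 4 := by
            calc w = w ^ 1 := (pow_one w).symm
              _ ≤ w ^ 4 := pow_le_pow_right₀ hw1 (by norm_num)
        _ = X := hw4
    have h2 : q ≤ X := by exact_mod_cast h1
    omega
  have hP := MT.noncoprime_part (4 * X) q (by omega) hq1 hq4
  have hv : ∀ j ∈ range J, ∀ b ∈ range q, ∑ x ∈ Icc X (2 * X), (MajL_v q M b (x + j * M)) ^ 2 ≤
      3 * X * (M : ℝ) ^ 2 / ℓ ^ (A + 2 * D + 2) := by
    intro j hj b _
    have hjM : j * M ≤ J * M := Nat.mul_le_mul_right _ (mem_range.1 hj).le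
    refine (MajL_shift (fun y => (MajL_v q M b y) ^ 2) (fun y => sq_nonneg _) X (j * M)
      (by omega)).trans ?_
    by_cases hc : b.Coprime q
    · have h1 : ∀ y, MajL_v q M b y = (∑ n ∈ (Ioc y (y + M)).filter (fun n => n % q = b % q),
          lam n) - (M : ℝ) / (q.totient : ℝ) := fun y => by rw [MajL_v, if_pos hc]
      simp only [h1]
      have hlX : ℓ ≤ Real.log ((2 * X : ℕ) : ℝ) := by
        refine Real.log_le_log hX0 ?_
        push_cast
        linarith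
      have h2 := hS1 q b M hq1 hqD hc ?_ ?_
      · have h3 := hS2 q b M hq1 (hqD.trans (pow_le_pow_left₀ hl0.le hlX _)) hc ?_ ?_
        · have h4 : ((2 * X : ℕ) : ℝ) * (M : ℝ) ^ 2 / Real.log ((2 * X : ℕ) : ℝ) ^ (A + 2 * D + 2) ≤
              2 * X * (M : ℝ) ^ 2 / ℓ ^ (A + 2 * D + 2) := by
            rw [Nat.cast_mul, Nat.cast_ofNat] at hlX ⊢
            exact div_le_div_of_nonneg_left (by positivity) (by positivity)
              (pow_le_pow_left₀ hl0.le hlX _)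
          have h5 : 3 * X * (M : ℝ) ^ 2 / ℓ ^ (A + 2 * D + 2) =
              X * (M : ℝ) ^ 2 / ℓ ^ (A + 2 * D + 2) + 2 * X * (M : ℝ) ^ 2 / ℓ ^ (A + 2 * D + 2) := by
            ring
          rw [h5]
          exact add_le_add h2 (h3.trans h4)
        · -- lower bound at `2 X`
          have h6 : Real.sqrt ((2 * X : ℕ) : ℝ) ≤ 2 * w ^ 2 := by
            rw [Real.sqrt_le_left (by positivity)]
            rw [Nat.cast_mul, Nat.cast_ofNat, ← hw4]
            nlinarith [pow_pos hw0 4]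
          have h7 : ℓ ^ (C + E + 1) ≤ Real.log ((2 * X : ℕ) : ℝ) ^ (C + E + 1) :=
            pow_le_pow_left₀ hl0.le hlX _
          rw [div_le_iff₀ (lt_of_lt_of_le (by positivity) h7)]
          refine h6.trans (le_trans ?_ (mul_le_mul_of_nonneg_left h7 hM0.le))
          have h8 : (M : ℝ) * ℓ ^ (C + E + 1) = ℓ * (ℓ ^ (C + E) * M) := by ring
          rw [h8]
          have h9 : 0 < ℓ ^ (C + E) * M := by positivity
          nlinarith
        · -- upper bound at `2 X`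
          have h6 : w ^ 2 ≤ Real.sqrt ((2 * X : ℕ) : ℝ) := by
            rw [← hsq]
            refine Real.sqrt_le_sqrt ?_
            push_cast
            linarith
          have h7 : 1 ≤ Real.log ((2 * X : ℕ) : ℝ) ^ (C + E + 1) :=
            one_le_pow₀ (hl1.trans hlX)
          have h8 : (M : ℝ) ≤ w ^ 2 := hML.trans hL2
          nlinarith [Real.sqrt_nonneg ((2 * X : ℕ) : ℝ)]
      · rw [hsq, div_le_iff₀ (by positivity)]
        have h8 : (M : ℝ) * ℓ ^ (C + E + 1) = ℓ * (ℓ ^ (C + E) * M) := by ring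
        have h9 : 0 < ℓ ^ (C + E) * M := by positivity
        rw [h8]
        nlinarith
      · rw [hsq]
        have h7 : 1 ≤ ℓ ^ (C + E + 1) := one_le_pow₀ hl1
        have h8 : (M : ℝ) ≤ w ^ 2 := hML.trans hL2
        nlinarith
    · have h1 : ∀ y, MajL_v q M b y = 0 := fun y => by rw [MajL_v, if_neg hc]
      simp only [h1]
      rw [zero_pow (by norm_num), sum_const_zero, sum_const_zero, add_zero]
      positivity
  -- the pointwise bound
  have hpt : ∀ x ∈ Icc X (2 * X),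
      ‖∑ n ∈ Ioc x (x + L), ((lam n - LamS z n : ℝ) : ℂ) * ee (β * n)‖ ≤
      ∑ j ∈ range J, ∑ b ∈ range q, |MajL_v q M b (x + j * M)| +
        (J * (q * (M / ℓ ^ (D + A + 2))) + 2 * Real.log ((4 * X : ℕ) : ℝ) ^ 2 +
          J * (M * (ℓ ^ K * (2 * Real.pi * (|β - a / q| * M)))) + M * ℓ ^ K) := by
    intro x hx
    obtain ⟨hx1, hx2⟩ := mem_Icc.1 hx
    refine MajL_point x L M J (L % M) q z (4 * X) a β (ℓ ^ K) (M / ℓ ^ (D + A + 2)) _ hJR
      (Nat.mod_lt _ hM0').le hq1 (by positivity) ?_ ?_ (by omega) hP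
    · intro n hn
      obtain ⟨hn1, hn2⟩ := mem_Ioc.1 hn
      have h1 : lam n ≤ 2 * ℓ := by
        refine (GBQ.lam_le_log n).trans (le_trans ?_ hlog4)
        refine Real.log_le_log ?_ ?_
        · have : 0 < n := by omega
          exact_mod_cast this
        · have : n ≤ 4 * X := by omega
          exact_mod_cast this
      have h2 := GBQ.lam_nonneg n
      have h3 := GBQ.LamS_nonneg z n
      have h4 : LamS z n ≤ ℓ ^ B + 1 := (GBQ.LamS_le z n).trans (by linarith)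
      have h5 : 1 ≤ ℓ ^ B := one_le_pow₀ hl1
      have h6 : ℓ ^ K = ℓ ^ B * ℓ ^ 2 := by rw [hK, pow_add]
      have h7 : 2 * ℓ + (ℓ ^ B + 1) ≤ ℓ ^ K := by
        rw [h6]
        have h8 : 100 * ℓ ≤ ℓ ^ 2 := by nlinarith
        have h9 : ℓ ^ B * (100 * ℓ) ≤ ℓ ^ B * ℓ ^ 2 := mul_le_mul_of_nonneg_left h8 (by positivity)
        have h10 : 1 * ℓ ≤ ℓ ^ B * ℓ := mul_le_mul_of_nonneg_right h5 hl0.le
        have h11 : ℓ ^ B * 1 ≤ ℓ ^ B * ℓ := mul_le_mul_of_nonneg_left hl1 (by positivity)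
        nlinarith
      rw [abs_le]
      constructor
      · linarith
      · linarith
    · intro y b hy
      refine hMod z hz2' hz2 q b y M hq1 hqz' ?_ hMX
      have h1 : x + L ≤ 3 * X := by omega
      nlinarith
  refine (MajL_ms X J q (by omega) _ (fun j b x => MajL_v q M b (x + j * M)) _ _
    (fun x _ => norm_nonneg _) hpt hv).trans ?_
  have hθ0 : 0 ≤ |β - a / q| := abs_nonneg _
  have hPL : 2 * Real.log ((4 * X : ℕ) : ℝ) ^ 2 ≤ L / ℓ ^ (A + 2) := by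
    rw [le_div_iff₀ (by positivity)]
    have h1 := hLlow (A + 4) (by omega)
    have h2 : Real.log ((4 * X : ℕ) : ℝ) ^ 2 ≤ (2 * ℓ) ^ 2 := pow_le_pow_left₀ hlog4' hlog4 2
    calc 2 * Real.log ((4 * X : ℕ) : ℝ) ^ 2 * ℓ ^ (A + 2) ≤ 2 * (2 * ℓ) ^ 2 * ℓ ^ (A + 2) := by
          refine mul_le_mul_of_nonneg_right ?_ (by positivity)
          linarith
      _ = 8 * ℓ ^ (A + 4) := by ring
      _ ≤ L := h1
  have herr := MajL_err A D K q ℓ L M J _ _ hl hL0 hM0.le (Nat.cast_nonneg J) hJM hMle hq1 hqD hθ0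
    hβ hPL
  refine MajL_fin A D q X ℓ L M J _ hl hX0.le hL0 hM0.le (Nat.cast_nonneg J) hJM hqD ?_ herr
  positivity

end Pool.Agent.NRP
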