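import Mathlib
import Pool.Agent.NRP.StN
import Pool.Agent.GBQ.Bridge
import Pool.Agent.GBQ.Bonf
import Pool.Agent.GBQ.Esym
import Pool.Agent.GBQ.Trunc
import Pool.Agent.GBQ.RhoLow

set_option autoImplicit false

/-!
# NRP / MinS

The sieve model on the minor arcs, in short intervals (Bonferroni), see `GBQ/MinLS.lean`.
-/

namespace Pool.Agent.NRP

open Finset Filter
open Pool.Agent.GBQ

private theorem minS_gm_nonneg {K θ : ℝ} (hK : 0 ≤ K) : 0 ≤ gm K θ := by
  unfold gm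
  split_ifs with h
  · exact hK
  · refine le_min hK ?_
    have : 0 ≤ nd θ := abs_nonneg _
    positivity

private theorem minS_gm_mono {K K' θ : ℝ} (h : K ≤ K') : gm K θ ≤ gm K' θ := by
  unfold gm
  split_ifs with h0
  · exact h
  · exact min_le_min_right _ h

private theorem minS_gm_two {K θ : ℝ} : gm (2 * K) θ ≤ 2 * gm K θ := by
  unfold gm
  split_ifs with h0
  · exact le_rfl
  · have h1 : 0 ≤ 1 / (2 * nd θ) := by
      have : 0 ≤ nd θ := abs_nonneg _
      positivity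
    rw [mul_min_of_nonneg _ _ (by norm_num : (0 : ℝ) ≤ 2)]
    exact min_le_min le_rfl (by linarith)

/-- one modulus -/
private theorem minS_inner (h2 : St_Geo) {u L e : ℕ} (he : 1 ≤ e) (heL : e ≤ L) (α : ℝ) :
    ‖∑ n ∈ (Ioc u (u + L)).filter (fun n => e ∣ n), ee (α * n)‖ ≤
      2 * gm ((L : ℝ) / e) (α * e) := by
  have he0 : (0 : ℝ) < e := by exact_mod_cast he
  have e1 : ∑ n ∈ (Ioc u (u + L)).filter (fun n => e ∣ n), ee (α * n) =
      ∑ k ∈ Ioc (u / e) ((u + L) / e), ee (α * e * k) := by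
    have h3 : (Ioc u (u + L)).filter (fun n => e ∣ n) =
        (Ioc (u / e) ((u + L) / e)).image (fun k => e * k) := by
      ext x
      simp only [mem_filter, mem_Ioc, mem_image]
      constructor
      · rintro ⟨⟨h4, h5⟩, k, rfl⟩
        refine ⟨k, ⟨?_, ?_⟩, rfl⟩
        · rw [Nat.div_lt_iff_lt_mul he, mul_comm]
          exact h4
        · rw [Nat.le_div_iff_mul_le he, mul_comm]
          exact h5
      · rintro ⟨k, ⟨h4, h5⟩, rfl⟩
        rw [Nat.div_lt_iff_lt_mul he, mul_comm] at h4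
        rw [Nat.le_div_iff_mul_le he, mul_comm] at h5
        exact ⟨⟨h4, h5⟩, dvd_mul_right _ _⟩
    rw [h3, sum_image]
    · refine sum_congr rfl fun k _ => ?_
      have : α * ((e * k : ℕ) : ℝ) = α * e * k := by push_cast; ring
      rw [this]
    · intro a _ b _ hab
      exact Nat.eq_of_mul_eq_mul_left he hab
  rw [e1]
  refine (h2 (u / e) ((u + L) / e) (α * e) (Nat.div_le_div_right (Nat.le_add_right _ _))).trans ?_
  refine (minS_gm_mono ?_).trans minS_gm_two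
  have h5 : (((u + L) / e : ℕ) : ℝ) ≤ ((u : ℝ) + L) / e := by
    have := @Nat.cast_div_le ℝ _ _ _ (u + L) e
    push_cast at this
    exact this
  have h6 : (u : ℝ) / e < ((u / e : ℕ) : ℝ) + 1 := by
    rw [div_lt_iff₀ he0]
    have h7 := Nat.lt_div_mul_add (a := u) (b := e) he
    have h8 : (u : ℝ) < ((u / e : ℕ) : ℝ) * e + e := by exact_mod_cast h7
    linarith
  have h7 : (1 : ℝ) ≤ (L : ℝ) / e := by
    rw [one_le_div he0]
    exact_mod_cast heL
  have h8 : ((u : ℝ) + L) / e = (u : ℝ) / e + (L : ℝ) / e := add_div _ _ _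
  linarith

private theorem minS_prod_dvd {z : ℕ} {T : Finset ℕ} (hT : T ⊆ pr z) (x : ℕ) :
    (∀ p ∈ T, p ∣ x) ↔ (∏ p ∈ T, p) ∣ x := by
  constructor
  · intro h
    exact Finset.prod_primes_dvd x (fun p hp => (mem_pr.1 (hT hp)).2.prime) h
  · intro h p hp
    exact (dvd_prod_of_mem _ hp).trans h

private theorem minS_prod_pos {z : ℕ} {T : Finset ℕ} (hT : T ⊆ pr z) : 1 ≤ ∏ p ∈ T, p :=
  Nat.one_le_iff_ne_zero.2 (prod_ne_zero_iff.2 fun _ hp => (mem_pr.1 (hT hp)).2.ne_zero)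

private theorem minS_prod_inj {z : ℕ} {T T' : Finset ℕ} (hT : T ⊆ pr z) (hT' : T' ⊆ pr z)
    (h : ∏ p ∈ T, p = ∏ p ∈ T', p) : T = T' := by
  rw [← Nat.primeFactors_prod (s := T) (fun p hp => (mem_pr.1 (hT hp)).2), h,
    Nat.primeFactors_prod (s := T') (fun p hp => (mem_pr.1 (hT' hp)).2)]

/-- the truncated sum over `T` -/
private theorem minS_main (h2 : St_Geo) {u L z t D : ℕ} (hDL : D ≤ L) (α : ℝ)
    (hD : ∀ T ⊆ pr z, T.card ≤ t → ∏ p ∈ T, p ≤ D) :
    ‖∑ x ∈ Ioc u (u + L), (((∑ T ∈ (pr z).powerset.filter (fun T => T.card ≤ t ∧ ∀ p ∈ T, p ∣ x),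
        (-1 : ℝ) ^ T.card : ℝ)) : ℂ) * ee (α * x)‖ ≤
      2 * ∑ e ∈ Icc 1 D, gm ((L : ℝ) / e) (α * e) := by
  classical
  have e1 : ∑ x ∈ Ioc u (u + L), (((∑ T ∈ (pr z).powerset.filter
        (fun T => T.card ≤ t ∧ ∀ p ∈ T, p ∣ x), (-1 : ℝ) ^ T.card : ℝ)) : ℂ) * ee (α * x) =
      ∑ T ∈ (pr z).powerset.filter (fun T => T.card ≤ t), (((-1 : ℝ) ^ T.card : ℝ) : ℂ) *
        ∑ x ∈ (Ioc u (u + L)).filter (fun x => (∏ p ∈ T, p) ∣ x), ee (α * x) := by
    have h3 : ∀ x : ℕ, (((∑ T ∈ (pr z).powerset.filter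
        (fun T => T.card ≤ t ∧ ∀ p ∈ T, p ∣ x), (-1 : ℝ) ^ T.card : ℝ)) : ℂ) * ee (α * x) =
        ∑ T ∈ (pr z).powerset.filter (fun T => T.card ≤ t),
          if (∏ p ∈ T, p) ∣ x then (((-1 : ℝ) ^ T.card : ℝ) : ℂ) * ee (α * x) else 0 := by
      intro x
      rw [← filter_filter, Complex.ofReal_sum, sum_mul, ← sum_filter]
      refine sum_congr ?_ fun _ _ => rfl
      ext T
      simp only [mem_filter, mem_powerset]
      constructor
      · rintro ⟨⟨h4, h5⟩, h6⟩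
        exact ⟨⟨h4, h5⟩, (minS_prod_dvd h4 x).1 h6⟩
      · rintro ⟨⟨h4, h5⟩, h6⟩
        exact ⟨⟨h4, h5⟩, (minS_prod_dvd h4 x).2 h6⟩
    rw [sum_congr rfl fun x _ => h3 x, sum_comm]
    refine sum_congr rfl fun T _ => ?_
    rw [mul_sum, sum_filter]
  rw [e1]
  have h4 : ∀ T ∈ (pr z).powerset.filter (fun T => T.card ≤ t),
      ‖(((-1 : ℝ) ^ T.card : ℝ) : ℂ) * ∑ x ∈ (Ioc u (u + L)).filter (fun x => (∏ p ∈ T, p) ∣ x),
          ee (α * x)‖ ≤
        2 * gm ((L : ℝ) / ((∏ p ∈ T, p : ℕ) : ℝ)) (α * ((∏ p ∈ T, p : ℕ) : ℝ)) := by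
    intro T hT
    rw [mem_filter, mem_powerset] at hT
    have h5 : ‖(((-1 : ℝ) ^ T.card : ℝ) : ℂ)‖ = 1 := by
      rw [Complex.norm_real, Real.norm_eq_abs, abs_pow, abs_neg, abs_one, one_pow]
    rw [norm_mul, h5, one_mul]
    exact minS_inner h2 (minS_prod_pos hT.1) ((hD T hT.1 hT.2).trans hDL) α
  refine (norm_sum_le _ _).trans ((sum_le_sum h4).trans ?_)
  rw [← mul_sum]
  refine mul_le_mul_of_nonneg_left ?_ (by norm_num)
  have h5 : ∑ T ∈ (pr z).powerset.filter (fun T => T.card ≤ t),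
        gm ((L : ℝ) / ((∏ p ∈ T, p : ℕ) : ℝ)) (α * ((∏ p ∈ T, p : ℕ) : ℝ)) =
      ∑ e ∈ ((pr z).powerset.filter (fun T => T.card ≤ t)).image (fun T => ∏ p ∈ T, p),
        gm ((L : ℝ) / (e : ℝ)) (α * (e : ℝ)) := by
    rw [sum_image]
    intro T hT T' hT' h
    rw [mem_coe, mem_filter, mem_powerset] at hT hT'
    exact minS_prod_inj hT.1 hT'.1 h
  rw [h5]
  refine sum_le_sum_of_subset_of_nonneg ?_ fun e _ _ => minS_gm_nonneg (by positivity)
  intro e he
  obtain ⟨T, hT, rfl⟩ := mem_image.1 he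
  rw [mem_filter, mem_powerset] at hT
  exact mem_Icc.2 ⟨minS_prod_pos hT.1, hD T hT.1 hT.2⟩

/-- the number of multiples -/
private theorem minS_cnt {u L e : ℕ} (he : 1 ≤ e) :
    (((Ioc u (u + L)).filter (fun x => e ∣ x)).card : ℝ) ≤ (L : ℝ) / e + 1 := by
  have he0 : (0 : ℝ) < e := by exact_mod_cast he
  have h3 : (Ioc u (u + L)).filter (fun n => e ∣ n) =
      (Ioc (u / e) ((u + L) / e)).image (fun k => e * k) := by
    ext x
    simp only [mem_filter, mem_Ioc, mem_image]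
    constructor
    · rintro ⟨⟨h4, h5⟩, k, rfl⟩
      refine ⟨k, ⟨?_, ?_⟩, rfl⟩
      · rw [Nat.div_lt_iff_lt_mul he, mul_comm]
        exact h4
      · rw [Nat.le_div_iff_mul_le he, mul_comm]
        exact h5
    · rintro ⟨k, ⟨h4, h5⟩, rfl⟩
      rw [Nat.div_lt_iff_lt_mul he, mul_comm] at h4
      rw [Nat.le_div_iff_mul_le he, mul_comm] at h5
      exact ⟨⟨h4, h5⟩, dvd_mul_right _ _⟩
  have h4 : ((Ioc u (u + L)).filter (fun n => e ∣ n)).card ≤ (u + L) / e - u / e := by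
    rw [h3]
    exact card_image_le.trans (le_of_eq (Nat.card_Ioc _ _))
  have h4' : (((Ioc u (u + L)).filter (fun x => e ∣ x)).card : ℝ) ≤
      (((u + L) / e : ℕ) : ℝ) - ((u / e : ℕ) : ℝ) := by
    rw [← Nat.cast_sub (Nat.div_le_div_right (Nat.le_add_right _ _))]
    exact_mod_cast h4
  have h5 : (((u + L) / e : ℕ) : ℝ) ≤ ((u : ℝ) + L) / e := by
    have := @Nat.cast_div_le ℝ _ _ _ (u + L) e
    push_cast at this
    exact this
  have h6 : (u : ℝ) / e < ((u / e : ℕ) : ℝ) + 1 := by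
    rw [div_lt_iff₀ he0]
    have h7 := Nat.lt_div_mul_add (a := u) (b := e) he
    have h8 : (u : ℝ) < ((u / e : ℕ) : ℝ) * e + e := by exact_mod_cast h7
    linarith
  have h8 : ((u : ℝ) + L) / e = (u : ℝ) / e + (L : ℝ) / e := add_div _ _ _
  linarith

/-- the error of the truncation -/
private theorem minS_err (h4 : St_Esym) (u L z t : ℕ) :
    ∑ x ∈ Ioc u (u + L), ((((pr z).powersetCard (t + 1)).filter
      (fun T => ∀ p ∈ T, p ∣ x)).card : ℝ) ≤
      L * ((∑ p ∈ pr z, 1 / (p : ℝ)) ^ (t + 1) / ((t + 1).factorial : ℝ)) +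
        (z : ℝ) ^ (t + 1) := by
  classical
  have e2 : ∑ x ∈ Ioc u (u + L), ((((pr z).powersetCard (t + 1)).filter
      (fun T => ∀ p ∈ T, p ∣ x)).card : ℝ) =
      ∑ T ∈ (pr z).powersetCard (t + 1),
        (((Ioc u (u + L)).filter (fun x => ∀ p ∈ T, p ∣ x)).card : ℝ) := by
    simp only [card_filter, Nat.cast_sum]
    exact sum_comm
  rw [e2]
  have h5 : ∀ T ∈ (pr z).powersetCard (t + 1),
      (((Ioc u (u + L)).filter (fun x => ∀ p ∈ T, p ∣ x)).card : ℝ) ≤
        L * ∏ p ∈ T, (1 / (p : ℝ)) + 1 := by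
    intro T hT
    rw [mem_powersetCard] at hT
    have h6 : (Ioc u (u + L)).filter (fun x => ∀ p ∈ T, p ∣ x) =
        (Ioc u (u + L)).filter (fun x => (∏ p ∈ T, p) ∣ x) :=
      filter_congr fun x _ => minS_prod_dvd hT.1 x
    rw [h6]
    refine (minS_cnt (minS_prod_pos hT.1)).trans (le_of_eq ?_)
    rw [div_eq_mul_inv, Nat.cast_prod]
    congr 2
    rw [← prod_inv_distrib]
    exact prod_congr rfl fun p _ => (one_div _).symm
  refine (sum_le_sum h5).trans ?_
  rw [sum_add_distrib, ← mul_sum]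
  refine add_le_add ?_ ?_
  · refine mul_le_mul_of_nonneg_left ?_ (Nat.cast_nonneg _)
    exact (h4 (pr z) (fun p => 1 / (p : ℝ)) (fun p _ => by positivity) (t + 1)).1
  · rw [sum_const, nsmul_eq_mul, mul_one, card_powersetCard]
    have h6 : (pr z).card ≤ z := by
      have h7 : pr z ⊆ Icc 1 z := by
        intro p hp
        rw [mem_pr] at hp
        exact mem_Icc.2 ⟨hp.2.one_lt.le, hp.1⟩
      have h8 := card_le_card h7
      rwa [Nat.card_Icc, Nat.add_sub_cancel] at h8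
    have h7 : (pr z).card.choose (t + 1) ≤ z ^ (t + 1) :=
      (Nat.choose_le_pow _ _).trans (Nat.pow_le_pow_left h6 _)
    exact_mod_cast h7

private theorem minS_sum_inv (z : ℕ) : ∑ p ∈ pr z, 1 / (p : ℝ) ≤ 1 * (1 + Real.log (1 + z)) := by
  rw [one_mul]
  have h1 : ∑ p ∈ pr z, 1 / (p : ℝ) ≤ ∑ n ∈ Icc 1 z, 1 / (n : ℝ) := by
    refine sum_le_sum_of_subset_of_nonneg ?_ fun n _ _ => by positivity
    intro p hp
    rw [mem_pr] at hp
    exact mem_Icc.2 ⟨hp.2.one_lt.le, hp.1⟩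
  have h2 : ∑ n ∈ Icc 1 z, 1 / (n : ℝ) = ((harmonic z : ℚ) : ℝ) := by
    rw [harmonic_eq_sum_Icc]
    push_cast
    exact sum_congr rfl fun n _ => one_div _
  have h3 := harmonic_le_one_add_log z
  have h4 : Real.log z ≤ Real.log (1 + z) := by
    rcases Nat.eq_zero_or_pos z with rfl | hz
    · simp
    · exact Real.log_le_log (by exact_mod_cast hz) (by linarith)
  linarith [h1, h2, h3, h4]

/-- the factor `1 / rho z` -/
private theorem minS_rho (h6 : St_RhoLow) (B : ℕ) :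
    ∀ᶠ X : ℕ in atTop, ∀ z : ℕ, 2 ≤ z → (z : ℝ) ≤ Real.log X ^ B → (rho z)⁻¹ ≤ Real.log X := by
  obtain ⟨c, hc, h7⟩ := h6
  have hlog : Tendsto (fun X : ℕ => Real.log X) atTop atTop :=
    Real.tendsto_log_atTop.comp tendsto_natCast_atTop_atTop
  have h8 : ∀ᶠ y : ℝ in atTop, Real.log y ≤ (c / (B + 1)) * y := by
    have h9 := Real.isLittleO_log_id_atTop.def (c := c / (B + 1)) (by positivity)
    filter_upwards [h9, eventually_ge_atTop (1 : ℝ)] with y hy hy1
    rw [Real.norm_eq_abs, Real.norm_eq_abs, id, abs_of_nonneg (Real.log_nonneg hy1),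
      abs_of_nonneg (by linarith)] at hy
    exact hy
  filter_upwards [hlog.eventually h8, hlog.eventually (eventually_ge_atTop (1 : ℝ)),
    eventually_ge_atTop 3] with X hX1 hX2 hX3
  intro z hz2 hzB
  have h9 := h7 z hz2
  have hz0 : (0 : ℝ) < z := by positivity
  have hz1 : 0 < Real.log z := Real.log_pos (by exact_mod_cast hz2)
  have h10 : Real.log z ≤ B * Real.log (Real.log X) := by
    rw [← Real.log_pow]
    exact Real.log_le_log hz0 hzB
  have h11 : Real.log z ≤ c * Real.log X := by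
    have hB0 : (0 : ℝ) ≤ B := Nat.cast_nonneg B
    have h12 : B * Real.log (Real.log X) ≤ B * ((c / (B + 1)) * Real.log X) :=
      mul_le_mul_of_nonneg_left hX1 hB0
    have h13 : B * ((c / (B + 1)) * Real.log X) ≤ c * Real.log X := by
      have h14 : (B : ℝ) / (B + 1) ≤ 1 := by
        rw [div_le_one (by positivity)]
        linarith
      calc (B : ℝ) * ((c / (B + 1)) * Real.log X) = (B / (B + 1)) * (c * Real.log X) := by ring
        _ ≤ 1 * (c * Real.log X) := mul_le_mul_of_nonneg_right h14 (by positivity)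
        _ = _ := one_mul _
    linarith
  rw [inv_le_iff_one_le_mul₀ (rho_pos z)]
  have h12 : Real.log X * (c / Real.log z) ≤ Real.log X * rho z :=
    mul_le_mul_of_nonneg_left h9 (by linarith)
  refine le_trans ?_ h12
  rw [← mul_div_assoc, one_le_div hz1]
  linarith

private theorem minS_of (h1 : St_TypeI) (h2 : St_Geo) (h3 : St_Bonf) (h4 : St_Esym)
    (h5 : St_Trunc) (h6 : St_RhoLow) : St_MinS := by
  intro ε hε hε1
  obtain ⟨C₁, hC₁⟩ := h1
  refine ⟨3, fun A B => ?_⟩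
  have hlog : Tendsto (fun X : ℕ => Real.log X) atTop atTop :=
    Real.tendsto_log_atTop.comp tendsto_natCast_atTop_atTop
  have hpow : Tendsto (fun X : ℕ => (X : ℝ) ^ ε) atTop atTop :=
    (tendsto_rpow_atTop hε).comp tendsto_natCast_atTop_atTop
  filter_upwards [h5 (A + 1) B 1 (ε / 2) one_pos (by positivity), minS_rho h6 B,
    hlog.eventually (eventually_ge_atTop (4 * (C₁ : ℝ) + 1)), eventually_ge_atTop 3,
    hpow.eventually (eventually_ge_atTop 3)] with
    X hX1 hX2 hX3 hX4 hX5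
  intro z hz2 hzB u L hL1 hL2 α a q hq hqL hgcd hα
  obtain ⟨t, ht⟩ := hX1
  obtain ⟨ht1, ht2⟩ := ht z hzB
  have hX0 : (0 : ℝ) < X := by positivity
  have hX1' : (1 : ℝ) ≤ X := by exact_mod_cast (show 1 ≤ X by omega)
  have hC0 : (0 : ℝ) ≤ C₁ := Nat.cast_nonneg _
  have hl1 : 1 ≤ Real.log X := by linarith
  have hl0 : 0 < Real.log X := by linarith
  have hL3 : 3 ≤ L := by
    have : (3 : ℝ) ≤ L := hX5.trans hL1
    exact_mod_cast this
  have hL0 : (0 : ℝ) < L := by positivity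
  set D := ⌊(X : ℝ) ^ (ε / 2)⌋₊ with hDdef
  have hD1 : 1 ≤ D := Nat.le_floor (by
    push_cast
    exact Real.one_le_rpow hX1' (by positivity))
  have hD2 : (D : ℝ) ≤ (X : ℝ) ^ (ε / 2) := Nat.floor_le (by positivity)
  have hD4 : D ≤ L := by
    have : (D : ℝ) ≤ L := by
      refine hD2.trans (le_trans ?_ hL1)
      exact Real.rpow_le_rpow_of_exponent_le hX1' (by linarith)
    exact_mod_cast this
  have hD5 : ∀ T ⊆ pr z, T.card ≤ t → ∏ p ∈ T, p ≤ D := by
    intro T hT hTt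
    apply Nat.le_floor
    have h7 : ∏ p ∈ T, p ≤ z ^ (t + 1) := by
      calc ∏ p ∈ T, p ≤ z ^ T.card := prod_le_pow_card _ _ _ fun p hp => (mem_pr.1 (hT hp)).1
        _ ≤ z ^ (t + 1) := Nat.pow_le_pow_right (by omega) (by omega)
    have h8 : ((∏ p ∈ T, p : ℕ) : ℝ) ≤ (z : ℝ) ^ (t + 1) := by exact_mod_cast h7
    exact h8.trans ht1
  -- split
  set S1 : ℕ → ℝ := fun x => ∑ T ∈ (pr z).powerset.filter (fun T => T.card ≤ t ∧ ∀ p ∈ T, p ∣ x),
        (-1 : ℝ) ^ T.card with hS1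
  set S0 : ℕ → ℝ := fun x => if ∀ p ∈ pr z, ¬ p ∣ x then (1 : ℝ) else 0 with hS0
  have hdec : ∀ x : ℕ, |S0 x - S1 x| ≤ ((((pr z).powersetCard (t + 1)).filter
      (fun T => ∀ p ∈ T, p ∣ x)).card : ℝ) := fun x => h3 (pr z) (fun p => p ∣ x) t
  have hsum : ∑ x ∈ Ioc u (u + L), ((LamS z x : ℝ) : ℂ) * ee (α * x) =
      (((rho z)⁻¹ : ℝ) : ℂ) * (∑ x ∈ Ioc u (u + L), ((S1 x : ℝ) : ℂ) * ee (α * x) +
      ∑ x ∈ Ioc u (u + L), ((S0 x - S1 x : ℝ) : ℂ) * ee (α * x)) := by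
    rw [← sum_add_distrib, mul_sum]
    refine sum_congr rfl fun x _ => ?_
    have h7 : LamS z x = (rho z)⁻¹ * S0 x := by
      unfold LamS
      rw [hS0]
      simp only [Rough]
      split_ifs <;> simp
    rw [h7]
    push_cast
    ring
  rw [hsum, norm_mul, Complex.norm_real, Real.norm_eq_abs,
    abs_of_nonneg (inv_nonneg.2 (rho_pos z).le)]
  have hA1 := minS_main h2 (u := u) (L := L) (z := z) (t := t) (D := D) hD4 α hD5
  have hA2 := hC₁ L D α a q hL3 hD1 hD4 hq hqL hgcd hα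
  have hB1 : ‖∑ x ∈ Ioc u (u + L), ((S0 x - S1 x : ℝ) : ℂ) * ee (α * x)‖ ≤
      L / Real.log X ^ (A + 1) + (X : ℝ) ^ (ε / 2) := by
    have h7 : ‖∑ x ∈ Ioc u (u + L), ((S0 x - S1 x : ℝ) : ℂ) * ee (α * x)‖ ≤
        ∑ x ∈ Ioc u (u + L), ((((pr z).powersetCard (t + 1)).filter
          (fun T => ∀ p ∈ T, p ∣ x)).card : ℝ) := by
      refine (norm_sum_le _ _).trans (sum_le_sum fun x _ => ?_)
      rw [norm_mul, ee_norm, mul_one, Complex.norm_real, Real.norm_eq_abs]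
      exact hdec x
    refine h7.trans ((minS_err h4 u L z t).trans (add_le_add ?_ ht1))
    have hs0 : 0 ≤ ∑ p ∈ pr z, 1 / (p : ℝ) := sum_nonneg fun p _ => by positivity
    have h8 := ht2 _ hs0 (minS_sum_inv z)
    have h9 : (∑ p ∈ pr z, 1 / (p : ℝ)) ^ (t + 1) / ((t + 1).factorial : ℝ) ≤
        1 / Real.log X ^ (A + 1) := by
      refine le_trans ?_ h8
      refine le_mul_of_one_le_right (by positivity) ?_
      exact Real.one_le_exp hs0
    calc (L : ℝ) * ((∑ p ∈ pr z, 1 / (p : ℝ)) ^ (t + 1) / ((t + 1).factorial : ℝ))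
        ≤ L * (1 / Real.log X ^ (A + 1)) := mul_le_mul_of_nonneg_left h9 hL0.le
      _ = L / Real.log X ^ (A + 1) := by ring
  have hq0 : (0 : ℝ) < q := by exact_mod_cast hq
  have hlL : Real.log L ≤ 2 * Real.log X := by
    have h7 : (L : ℝ) ≤ (X : ℝ) ^ 2 := by exact_mod_cast hL2
    have h8 := Real.log_le_log hL0 h7
    rw [Real.log_pow] at h8
    exact_mod_cast h8
  set Y : ℝ := (L : ℝ) / q + (X : ℝ) ^ (ε / 2) + q with hY
  have hY0 : 0 ≤ Y := by positivity
  have hYX : (X : ℝ) ^ (ε / 2) ≤ Y := by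
    rw [hY]
    have : 0 ≤ (L : ℝ) / q := by positivity
    linarith
  have hM : 2 * ∑ e ∈ Icc 1 D, gm ((L : ℝ) / e) (α * e) ≤ 4 * C₁ * Real.log X * Y := by
    calc 2 * ∑ e ∈ Icc 1 D, gm ((L : ℝ) / e) (α * e)
        ≤ 2 * (C₁ * ((L : ℝ) / q + D + q) * Real.log L) := by linarith
      _ ≤ 2 * (C₁ * ((L : ℝ) / q + D + q) * (2 * Real.log X)) := by
          refine mul_le_mul_of_nonneg_left (mul_le_mul_of_nonneg_left hlL ?_) (by norm_num)
          positivity
      _ = 4 * C₁ * Real.log X * ((L : ℝ) / q + D + q) := by ring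
      _ ≤ 4 * C₁ * Real.log X * Y := by
          refine mul_le_mul_of_nonneg_left ?_ (by positivity)
          rw [hY]
          linarith
  calc (rho z)⁻¹ * ‖∑ x ∈ Ioc u (u + L), ((S1 x : ℝ) : ℂ) * ee (α * x) +
      ∑ x ∈ Ioc u (u + L), ((S0 x - S1 x : ℝ) : ℂ) * ee (α * x)‖
      ≤ Real.log X * (4 * C₁ * Real.log X * Y + (L / Real.log X ^ (A + 1) + Y)) := by
        refine mul_le_mul (hX2 z hz2 hzB) ?_ (norm_nonneg _) hl0.le
        refine (norm_add_le _ _).trans (add_le_add (hA1.trans hM) (hB1.trans ?_))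
        linarith
    _ = Real.log X * (4 * C₁ * Real.log X + 1) * Y + L / Real.log X ^ A := by
        have h7 : Real.log X * (L / Real.log X ^ (A + 1)) = L / Real.log X ^ A := by
          rw [pow_succ]
          field_simp
        rw [← h7]
        ring
    _ ≤ Y * Real.log X ^ 3 + L / Real.log X ^ A := by
        refine add_le_add ?_ le_rfl
        have h8 : Real.log X * (4 * C₁ * Real.log X + 1) ≤ Real.log X ^ 3 := by
          have h9 : 4 * C₁ * Real.log X + 1 ≤ Real.log X ^ 2 := by nlinarith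
          calc Real.log X * (4 * C₁ * Real.log X + 1) ≤ Real.log X * Real.log X ^ 2 :=
                mul_le_mul_of_nonneg_left h9 hl0.le
            _ = Real.log X ^ 3 := by ring
        calc Real.log X * (4 * C₁ * Real.log X + 1) * Y ≤ Real.log X ^ 3 * Y :=
              mul_le_mul_of_nonneg_right h8 hY0
          _ = Y * Real.log X ^ 3 := by ring

/-- see `St_MinS` in `StN.lean` -/
theorem thm_MinS : St_MinS :=
  minS_of thm_TypeI thm_Geo thm_Bonf thm_Esym thm_Trunc thm_RhoLow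

end Pool.Agent.NRP
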