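import Pool.Agent.NRP.StN
import Pool.Agent.GBQ.LSAP
import Pool.Agent.GBQ.Crt
import Pool.Agent.GBQ.Bonf
import Pool.Agent.GBQ.Esym
import Pool.Agent.GBQ.Trunc

set_option autoImplicit false

/-!
# NRP / A3

Two models along `n + k`, `n + k²`.
-/

namespace Pool.Agent.NRP

open Finset Filter
open Pool.Agent.GBQ (lam LamS zz rho pr mem_pr Rough rho_pos rho_inv_le lsap_card lsap_sum lsap_ev1
  lsap_ev2 thm_Bonf thm_Esym thm_Trunc thm_Crt)

theorem A3_class (K d r : ℕ) (hr : r < d) :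
    |(((Icc 1 K).filter (fun k => k % d = r)).card : ℝ) - (K : ℝ) / d| ≤ 1 := by
  have hd : 0 < d := by omega
  have h1 := Nat.Ioc_filter_modEq_card 0 K hd r
  have h2 : (Ioc 0 K).filter (fun x => x ≡ r [MOD d]) = (Icc 1 K).filter (fun k => k % d = r) := by
    ext x
    rw [mem_filter, mem_filter, mem_Ioc, mem_Icc, Nat.ModEq, Nat.mod_eq_of_lt hr]
    constructor
    · rintro ⟨⟨h3, h4⟩, h5⟩
      exact ⟨⟨h3, h4⟩, h5⟩
    · rintro ⟨⟨h3, h4⟩, h5⟩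
      exact ⟨⟨h3, h4⟩, h5⟩
  rw [h2] at h1
  set c := ((Icc 1 K).filter (fun k => k % d = r)).card with hc
  have hdq : (0 : ℚ) < d := by exact_mod_cast hd
  have h3 : ((c : ℕ) : ℤ) = ⌊((K : ℚ) - r) / (d : ℚ)⌋ - ⌊(((0 : ℕ) : ℚ) - r) / (d : ℚ)⌋ := by
    rw [h1]
    apply max_eq_left
    rw [sub_nonneg]
    apply Int.floor_le_floor
    apply div_le_div_of_nonneg_right _ hdq.le
    have : (0 : ℚ) ≤ K := by positivity
    push_cast
    linarith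
  have h4 : ((c : ℕ) : ℚ) = (⌊((K : ℚ) - r) / (d : ℚ)⌋ : ℚ) - (⌊(((0 : ℕ) : ℚ) - r) / (d : ℚ)⌋ : ℚ) := by
    exact_mod_cast h3
  have a1 := Int.floor_le (((K : ℚ) - r) / (d : ℚ))
  have a2 := Int.lt_floor_add_one (((K : ℚ) - r) / (d : ℚ))
  have b1 := Int.floor_le ((((0 : ℕ) : ℚ) - r) / (d : ℚ))
  have b2 := Int.lt_floor_add_one ((((0 : ℕ) : ℚ) - r) / (d : ℚ))
  have e1 : ((K : ℚ) - r) / (d : ℚ) - (((0 : ℕ) : ℚ) - r) / (d : ℚ) = (K : ℚ) / d := by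
    field_simp
    push_cast
    ring
  have h5 : |((c : ℕ) : ℚ) - (K : ℚ) / d| ≤ 1 := by
    rw [h4, ← e1, abs_le]
    constructor <;> linarith
  have h6 := (Rat.cast_le (K := ℝ)).2 h5
  push_cast at h6
  exact h6

theorem A3_count (K d : ℕ) (hd : 1 ≤ d) (P : Finset ℕ) (hP : P ⊆ range d) :
    |(((Icc 1 K).filter (fun k => k % d ∈ P)).card : ℝ) - K * ((P.card : ℝ) / d)| ≤ d := by
  have h1 : (((Icc 1 K).filter (fun k => k % d ∈ P)).card : ℝ) =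
      ∑ r ∈ P, (((Icc 1 K).filter (fun k => k % d = r)).card : ℝ) := by
    simp only [card_filter, Nat.cast_sum]
    rw [sum_comm]
    refine sum_congr rfl fun k _ => ?_
    push_cast
    rw [sum_ite_eq]
  have h2 : (K : ℝ) * ((P.card : ℝ) / d) = ∑ r ∈ P, (K : ℝ) / d := by
    rw [sum_const, nsmul_eq_mul]
    ring
  rw [h1, h2, ← sum_sub_distrib]
  refine (abs_sum_le_sum_abs _ _).trans ?_
  calc ∑ r ∈ P, |(((Icc 1 K).filter (fun k => k % d = r)).card : ℝ) - (K : ℝ) / d|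
      ≤ ∑ r ∈ P, (1 : ℝ) := sum_le_sum fun r hr => A3_class K d r (mem_range.1 (hP hr))
    _ = (P.card : ℝ) := by simp
    _ ≤ d := by
        have := card_le_card hP
        rw [card_range] at this
        exact_mod_cast this

theorem A3_dens (K : ℕ) (T : Finset ℕ) (Om : ℕ → Finset ℕ) (hT : ∀ p ∈ T, p.Prime)
    (hOm : ∀ p ∈ T, Om p ⊆ range p) :
    |(((Icc 1 K).filter (fun k => ∀ p ∈ T, k % p ∈ Om p)).card : ℝ) -
      K * ∏ p ∈ T, ((Om p).card : ℝ) / p| ≤ ((∏ p ∈ T, p : ℕ) : ℝ) := by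
  have hd : 1 ≤ ∏ p ∈ T, p := Nat.succ_le_of_lt (prod_pos fun p hp => (hT p hp).pos)
  have h1 := A3_count K (∏ p ∈ T, p) hd
    ((range (∏ p ∈ T, p)).filter (fun c => ∀ p ∈ T, c % p ∈ Om p)) (filter_subset _ _)
  have h2 : (Icc 1 K).filter (fun k => k % (∏ p ∈ T, p) ∈
      (range (∏ p ∈ T, p)).filter (fun c => ∀ p ∈ T, c % p ∈ Om p)) =
      (Icc 1 K).filter (fun k => ∀ p ∈ T, k % p ∈ Om p) := by
    apply filter_congr
    intro k _
    rw [mem_filter, mem_range]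
    constructor
    · rintro ⟨_, h⟩ p hp
      have h3 := h p hp
      rwa [Nat.mod_mod_of_dvd _ (dvd_prod_of_mem (fun q => q) hp)] at h3
    · intro h
      refine ⟨Nat.mod_lt _ hd, fun p hp => ?_⟩
      rw [Nat.mod_mod_of_dvd _ (dvd_prod_of_mem (fun q => q) hp)]
      exact h p hp
  rw [h2, thm_Crt T Om hT hOm] at h1
  have h3 : ((∏ p ∈ T, (Om p).card : ℕ) : ℝ) / ((∏ p ∈ T, p : ℕ) : ℝ) =
      ∏ p ∈ T, ((Om p).card : ℝ) / p := by
    push_cast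
    rw [prod_div_distrib]
  rwa [h3] at h1

theorem A3_core (S : Finset ℕ) (hS : ∀ p ∈ S, p.Prime) (Om : ℕ → Finset ℕ)
    (hOm : ∀ p ∈ S, Om p ⊆ range p) (K t : ℕ) :
    |∑ k ∈ Icc 1 K, (if ∀ p ∈ S, ¬ (k % p ∈ Om p) then (1 : ℝ) else 0) -
      K * ∏ p ∈ S, (1 - ((Om p).card : ℝ) / p)| ≤
      ∑ T ∈ S.powerset.filter (fun T => T.card ≤ t), ((∏ p ∈ T, p : ℕ) : ℝ) +
        ∑ T ∈ S.powersetCard (t + 1), ((K : ℝ) * ∏ p ∈ T, ((Om p).card : ℝ) / p +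
          ((∏ p ∈ T, p : ℕ) : ℝ)) +
        (K : ℝ) * ∑ T ∈ S.powerset.filter (fun T => t < T.card),
          ∏ p ∈ T, ((Om p).card : ℝ) / p := by
  classical
  set P := S.powerset.filter (fun T => T.card ≤ t) with hP
  set R := S.powerset.filter (fun T => t < T.card) with hR
  -- step 1
  have e1 : |∑ k ∈ Icc 1 K, (if ∀ p ∈ S, ¬ (k % p ∈ Om p) then (1 : ℝ) else 0) -
      ∑ k ∈ Icc 1 K, ∑ T ∈ S.powerset.filter (fun T => T.card ≤ t ∧ ∀ p ∈ T, k % p ∈ Om p),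
        (-1 : ℝ) ^ T.card| ≤
      ∑ T ∈ S.powersetCard (t + 1), ((K : ℝ) * ∏ p ∈ T, ((Om p).card : ℝ) / p +
          ((∏ p ∈ T, p : ℕ) : ℝ)) := by
    rw [← sum_sub_distrib]
    refine (abs_sum_le_sum_abs _ _).trans ?_
    have e2 : ∀ k ∈ Icc 1 K, |(if ∀ p ∈ S, ¬ (k % p ∈ Om p) then (1 : ℝ) else 0) -
        ∑ T ∈ S.powerset.filter (fun T => T.card ≤ t ∧ ∀ p ∈ T, k % p ∈ Om p),
        (-1 : ℝ) ^ T.card| ≤
        (((S.powersetCard (t + 1)).filter (fun T => ∀ p ∈ T, k % p ∈ Om p)).card : ℝ) :=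
      fun k _ => thm_Bonf S (fun p => k % p ∈ Om p) t
    refine (sum_le_sum e2).trans ?_
    have e5 : ∑ k ∈ Icc 1 K,
        (((S.powersetCard (t + 1)).filter (fun T => ∀ p ∈ T, k % p ∈ Om p)).card : ℝ) =
        ∑ T ∈ S.powersetCard (t + 1),
          (((Icc 1 K).filter (fun k => ∀ p ∈ T, k % p ∈ Om p)).card : ℝ) := by
      simp only [card_filter, Nat.cast_sum]
      exact sum_comm
    rw [e5]
    refine sum_le_sum fun T hT => ?_
    have hTS : T ⊆ S := (mem_powersetCard.1 hT).1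
    have h3 := A3_dens K T Om (fun p hp => hS p (hTS hp)) (fun p hp => hOm p (hTS hp))
    have h4 := (abs_le.1 h3).2
    linarith
  -- step 2: exchange
  have e8 : ∑ k ∈ Icc 1 K, ∑ T ∈ S.powerset.filter (fun T => T.card ≤ t ∧ ∀ p ∈ T, k % p ∈ Om p),
        (-1 : ℝ) ^ T.card =
      ∑ T ∈ P, ((-1 : ℝ) ^ T.card) *
        (((Icc 1 K).filter (fun k => ∀ p ∈ T, k % p ∈ Om p)).card : ℝ) := by
    have e9 : ∀ k, ∑ T ∈ S.powerset.filter (fun T => T.card ≤ t ∧ ∀ p ∈ T, k % p ∈ Om p),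
        (-1 : ℝ) ^ T.card = ∑ T ∈ P, if ∀ p ∈ T, k % p ∈ Om p then ((-1 : ℝ) ^ T.card) else 0 := by
      intro k
      rw [← filter_filter, ← hP, ← sum_filter]
    simp only [e9]
    rw [sum_comm]
    refine sum_congr rfl fun T _ => ?_
    rw [← sum_filter, sum_const, nsmul_eq_mul, mul_comm]
  -- step 3
  have e13 : |∑ T ∈ P, ((-1 : ℝ) ^ T.card) *
        (((Icc 1 K).filter (fun k => ∀ p ∈ T, k % p ∈ Om p)).card : ℝ) -
      ∑ T ∈ P, ((-1 : ℝ) ^ T.card) * (K * ∏ p ∈ T, ((Om p).card : ℝ) / p)| ≤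
      ∑ T ∈ P, ((∏ p ∈ T, p : ℕ) : ℝ) := by
    rw [← sum_sub_distrib]
    refine (abs_sum_le_sum_abs _ _).trans (sum_le_sum fun T hT => ?_)
    have hTS : T ⊆ S := mem_powerset.1 (mem_filter.1 hT).1
    have h3 := A3_dens K T Om (fun p hp => hS p (hTS hp)) (fun p hp => hOm p (hTS hp))
    rw [← mul_sub, abs_mul, abs_pow, abs_neg, abs_one, one_pow, one_mul]
    exact h3
  -- step 4: completion
  have e14 : (∏ p ∈ S, (1 - ((Om p).card : ℝ) / p)) =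
      ∑ T ∈ P, (-1 : ℝ) ^ T.card * ∏ p ∈ T, ((Om p).card : ℝ) / p +
        ∑ T ∈ R, (-1 : ℝ) ^ T.card * ∏ p ∈ T, ((Om p).card : ℝ) / p := by
    have e15 : (∏ p ∈ S, (1 - ((Om p).card : ℝ) / p)) =
        ∑ T ∈ S.powerset, (-1 : ℝ) ^ T.card * ∏ p ∈ T, ((Om p).card : ℝ) / p := by
      have e17 : (∏ p ∈ S, (1 - ((Om p).card : ℝ) / p)) =
          ∏ p ∈ S, (1 + -(((Om p).card : ℝ) / p)) := prod_congr rfl fun p _ => by ring
      rw [e17, prod_one_add]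
      refine sum_congr rfl fun T _ => ?_
      rw [prod_neg]
    rw [e15, ← sum_filter_add_sum_filter_not S.powerset (fun T => T.card ≤ t)]
    simp only [not_le]
    rfl
  have e18 : |∑ T ∈ P, ((-1 : ℝ) ^ T.card) * (K * ∏ p ∈ T, ((Om p).card : ℝ) / p) -
      K * ∏ p ∈ S, (1 - ((Om p).card : ℝ) / p)| ≤
      (K : ℝ) * ∑ T ∈ R, ∏ p ∈ T, ((Om p).card : ℝ) / p := by
    have e19 : ∑ T ∈ P, ((-1 : ℝ) ^ T.card) * (K * ∏ p ∈ T, ((Om p).card : ℝ) / p) -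
      K * ∏ p ∈ S, (1 - ((Om p).card : ℝ) / p) =
        - (K * ∑ T ∈ R, (-1 : ℝ) ^ T.card * ∏ p ∈ T, ((Om p).card : ℝ) / p) := by
      rw [e14, mul_add, mul_sum]
      have : ∑ T ∈ P, ((-1 : ℝ) ^ T.card) * (K * ∏ p ∈ T, ((Om p).card : ℝ) / p) =
          ∑ T ∈ P, (K : ℝ) * ((-1 : ℝ) ^ T.card * ∏ p ∈ T, ((Om p).card : ℝ) / p) :=
        sum_congr rfl fun T _ => by ring
      rw [this]
      ring
    rw [e19, abs_neg, abs_mul, Nat.abs_cast]
    apply mul_le_mul_of_nonneg_left _ (by positivity)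
    refine (abs_sum_le_sum_abs _ _).trans (le_of_eq (sum_congr rfl fun T _ => ?_))
    rw [abs_mul, abs_pow, abs_neg, abs_one, one_pow, one_mul, abs_of_nonneg]
    exact prod_nonneg fun p _ => by positivity
  rw [e8] at e1
  have e24 := abs_sub_le (∑ k ∈ Icc 1 K, (if ∀ p ∈ S, ¬ (k % p ∈ Om p) then (1 : ℝ) else 0))
    (∑ T ∈ P, ((-1 : ℝ) ^ T.card) *
        (((Icc 1 K).filter (fun k => ∀ p ∈ T, k % p ∈ Om p)).card : ℝ))
    (K * ∏ p ∈ S, (1 - ((Om p).card : ℝ) / p))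
  have e25 := abs_sub_le (∑ T ∈ P, ((-1 : ℝ) ^ T.card) *
        (((Icc 1 K).filter (fun k => ∀ p ∈ T, k % p ∈ Om p)).card : ℝ))
    (∑ T ∈ P, ((-1 : ℝ) ^ T.card) * (K * ∏ p ∈ T, ((Om p).card : ℝ) / p))
    (K * ∏ p ∈ S, (1 - ((Om p).card : ℝ) / p))
  linarith

theorem A3_om (p n : ℕ) (hp : p.Prime) : om p n ≤ 3 := by
  classical
  haveI := Fact.mk hp
  obtain ⟨f, hf⟩ : ∃ f : Polynomial (ZMod p), f = (Polynomial.X + Polynomial.C (n : ZMod p)) *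
      (Polynomial.X ^ 2 + Polynomial.C (n : ZMod p)) := ⟨_, rfl⟩
  have hm1 : (Polynomial.X + Polynomial.C (n : ZMod p)).Monic := Polynomial.monic_X_add_C _
  have hm2 : (Polynomial.X ^ 2 + Polynomial.C (n : ZMod p)).Monic :=
    Polynomial.monic_X_pow_add_C _ two_ne_zero
  have hm : f.Monic := by
    rw [hf]
    exact hm1.mul hm2
  have hdeg : f.natDegree = 3 := by
    rw [hf, hm1.natDegree_mul hm2, Polynomial.natDegree_X_add_C,
      Polynomial.natDegree_X_pow_add_C]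
  have h1 : om p n ≤ f.roots.toFinset.card := by
    refine card_le_card_of_injOn (fun k => (k : ZMod p)) (fun k hk => ?_) ?_
    · obtain ⟨h2, h3⟩ := mem_filter.1 (mem_coe.1 hk)
      rw [mem_coe, Multiset.mem_toFinset, Polynomial.mem_roots hm.ne_zero]
      show Polynomial.eval _ f = 0
      rw [hf]
      simp only [Polynomial.eval_mul, Polynomial.eval_add, Polynomial.eval_X, Polynomial.eval_C,
        Polynomial.eval_pow]
      have h4 : (((n + k) * (n + k ^ 2) : ℕ) : ZMod p) = 0 := (ZMod.natCast_eq_zero_iff _ _).2 h3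
      push_cast at h4
      rw [add_comm (k : ZMod p), add_comm ((k : ZMod p) ^ 2)]
      exact h4
    · intro k hk k' hk' h
      have h2 := mem_range.1 (mem_filter.1 (mem_coe.1 hk)).1
      have h3 := mem_range.1 (mem_filter.1 (mem_coe.1 hk')).1
      have h4 : (k : ZMod p) = (k' : ZMod p) := h
      rw [ZMod.natCast_eq_natCast_iff, Nat.ModEq, Nat.mod_eq_of_lt h2, Nat.mod_eq_of_lt h3] at h4
      exact h4
  calc om p n ≤ f.roots.toFinset.card := h1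
    _ ≤ Multiset.card f.roots := Multiset.toFinset_card_le _
    _ ≤ f.natDegree := Polynomial.card_roots' f
    _ = 3 := hdeg

theorem A3_mod (p n k : ℕ) : p ∣ (n + k % p) * (n + (k % p) ^ 2) ↔ p ∣ (n + k) * (n + k ^ 2) := by
  have h1 : k % p ≡ k [MOD p] := Nat.mod_modEq k p
  have h2 : (n + k % p) * (n + (k % p) ^ 2) ≡ (n + k) * (n + k ^ 2) [MOD p] :=
    (h1.add_left n).mul ((h1.pow 2).add_left n)
  rw [← Nat.modEq_zero_iff_dvd, ← Nat.modEq_zero_iff_dvd]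
  exact ⟨fun h => h2.symm.trans h, fun h => h2.trans h⟩

/-- the bad classes modulo `p` -/
def A3_Om (n p : ℕ) : Finset ℕ := (range p).filter (fun k => p ∣ (n + k) * (n + k ^ 2))

theorem A3_prod (z n k : ℕ) : LamS z (n + k) * LamS z (n + k ^ 2) =
    (rho z)⁻¹ * (rho z)⁻¹ * (if ∀ p ∈ pr z, ¬ (k % p ∈ A3_Om n p) then (1 : ℝ) else 0) := by
  have h1 : (∀ p ∈ pr z, ¬ (k % p ∈ A3_Om n p)) ↔
      Rough z (n + k) ∧ Rough z (n + k ^ 2) := by
    constructor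
    · intro h
      constructor
      · intro p hp hd
        apply h p hp
        unfold A3_Om
        rw [mem_filter, mem_range, A3_mod]
        exact ⟨Nat.mod_lt _ (mem_pr.1 hp).2.pos, Dvd.dvd.mul_right hd _⟩
      · intro p hp hd
        apply h p hp
        unfold A3_Om
        rw [mem_filter, mem_range, A3_mod]
        exact ⟨Nat.mod_lt _ (mem_pr.1 hp).2.pos, Dvd.dvd.mul_left hd _⟩
    · rintro ⟨h, h'⟩ p hp hd
      unfold A3_Om at hd
      rw [mem_filter, A3_mod] at hd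
      rcases (mem_pr.1 hp).2.dvd_mul.1 hd.2 with h2 | h2
      · exact h p hp h2
      · exact h' p hp h2
  by_cases h2 : Rough z (n + k)
  · by_cases h3 : Rough z (n + k ^ 2)
    · rw [if_pos (h1.2 ⟨h2, h3⟩), mul_one]
      unfold LamS
      rw [if_pos h2, if_pos h3]
    · rw [if_neg (fun h => h3 (h1.1 h).2), mul_zero]
      unfold LamS
      rw [if_neg h3, mul_zero]
  · rw [if_neg (fun h => h2 (h1.1 h).1), mul_zero]
    unfold LamS
    rw [if_neg h2, zero_mul]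

theorem A3_GA (z n : ℕ) : GA z n = (rho z)⁻¹ * (rho z)⁻¹ *
    ∏ p ∈ pr z, (1 - ((A3_Om n p).card : ℝ) / p) := by
  have h1 := rho_pos z
  have h3 : GA z n = (∏ p ∈ pr z, (1 - ((A3_Om n p).card : ℝ) / p)) / rho z ^ 2 := by
    unfold GA rho
    rw [prod_div_distrib, prod_pow]
    rfl
  rw [h3]
  generalize (∏ p ∈ pr z, (1 - ((A3_Om n p).card : ℝ) / p)) = Q
  field_simp

/-- number of and products over small sets of primes -/
theorem A3_small (S : Finset ℕ) (z t : ℕ) (hz : 1 ≤ z) (hS : S ⊆ pr z) (Y : ℝ)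
    (hY : (z : ℝ) ^ (t + 1) ≤ Y) (F : Finset (Finset ℕ)) (hF : ∀ T ∈ F, T ⊆ S ∧ T.card ≤ t + 1) :
    ∑ T ∈ F, ((∏ p ∈ T, p : ℕ) : ℝ) ≤ Y * Y := by
  have h1 : (F.card : ℝ) ≤ Y := by
    have h2 : F.card ≤ z ^ (t + 1) := lsap_card (S := S) (fun p hp => (mem_pr.1 (hS hp)).2)
      (fun p hp => (mem_pr.1 (hS hp)).1) hz hF
    calc (F.card : ℝ) ≤ ((z ^ (t + 1) : ℕ) : ℝ) := by exact_mod_cast h2
      _ = (z : ℝ) ^ (t + 1) := by push_cast; ring
      _ ≤ Y := hY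
  have hY0 : 0 ≤ Y := le_trans (by positivity) hY
  calc ∑ T ∈ F, ((∏ p ∈ T, p : ℕ) : ℝ) ≤ ∑ T ∈ F, Y := by
        refine sum_le_sum fun T hT => ?_
        obtain ⟨h2, h3⟩ := hF T hT
        have h4 : ∏ p ∈ T, p ≤ z ^ (t + 1) := by
          calc ∏ p ∈ T, p ≤ z ^ T.card := prod_le_pow_card _ _ _ fun p hp => (mem_pr.1 (hS (h2 hp))).1
            _ ≤ z ^ (t + 1) := Nat.pow_le_pow_right hz h3
        calc ((∏ p ∈ T, p : ℕ) : ℝ) ≤ ((z ^ (t + 1) : ℕ) : ℝ) := by exact_mod_cast h4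
          _ = (z : ℝ) ^ (t + 1) := by push_cast; ring
          _ ≤ Y := hY
    _ = (F.card : ℝ) * Y := by rw [sum_const, nsmul_eq_mul]
    _ ≤ Y * Y := mul_le_mul_of_nonneg_right h1 hY0

theorem A3_num {K L Y z δ : ℝ} {A B : ℕ} (hK : 0 ≤ K) (hL : 16 ≤ L) (hz0 : 0 ≤ z)
    (hz : z ≤ L ^ B) (hY0 : 0 ≤ Y) (hY : 16 * L ^ (A + 2 * B) * (Y * Y) ≤ K)
    (hδ0 : 0 ≤ δ) (hδ : δ ≤ 1 / L ^ (A + 2 * B + 1)) :
    (z + 1) * (z + 1) * (Y * Y + (K * δ + Y * Y) + K * δ) ≤ K / L ^ A := by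
  have hL1 : (1 : ℝ) ≤ L := by linarith
  have hLB : 1 ≤ L ^ B := one_le_pow₀ hL1
  have hLA : 0 < L ^ A := by positivity
  have h1 : z + 1 ≤ 2 * L ^ B := by linarith
  have h2 : (z + 1) * (z + 1) ≤ (2 * L ^ B) * (2 * L ^ B) :=
    mul_le_mul h1 h1 (by linarith) (by positivity)
  have h3 : Y * Y + (K * δ + Y * Y) + K * δ ≤ 2 * (Y * Y) + 2 * K * (1 / L ^ (A + 2 * B + 1)) := by
    have := mul_le_mul_of_nonneg_left hδ hK
    linarith
  have h4 : 0 ≤ Y * Y + (K * δ + Y * Y) + K * δ := by positivity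
  calc (z + 1) * (z + 1) * (Y * Y + (K * δ + Y * Y) + K * δ)
      ≤ (2 * L ^ B) * (2 * L ^ B) * (2 * (Y * Y) + 2 * K * (1 / L ^ (A + 2 * B + 1))) :=
        mul_le_mul h2 h3 h4 (by positivity)
    _ = (16 * L ^ (A + 2 * B) * (Y * Y)) / (2 * L ^ A) + 8 * K / (L ^ A * L) := by
        have e1 : L ^ (2 * B) = L ^ B * L ^ B := by rw [two_mul, pow_add]
        have e2 : L ^ (A + 2 * B) = L ^ A * (L ^ B * L ^ B) := by rw [pow_add, e1]
        have e3 : L ^ (A + 2 * B + 1) = L ^ A * (L ^ B * L ^ B) * L := by rw [pow_succ, e2]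
        rw [e3, e2]
        generalize L ^ B = b at hLB
        generalize L ^ A = a at hLA
        have hb : b ≠ 0 := by linarith
        have ha : a ≠ 0 := hLA.ne'
        have hl : L ≠ 0 := by linarith
        field_simp
        ring
    _ ≤ K / (2 * L ^ A) + K / (2 * L ^ A) := by
        apply add_le_add
        · exact div_le_div_of_nonneg_right hY (by positivity)
        · rw [div_le_div_iff₀ (by positivity) (by positivity)]
          nlinarith [mul_nonneg hK hLA.le]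
    _ = K / L ^ A := by
        field_simp
        ring

theorem thm_A3 : St_A3 := by
  intro A B
  filter_upwards [thm_Trunc (A + 2 * B + 1) B 3 (1 / 16) (by norm_num) (by norm_num), lsap_ev1 16,
    lsap_ev2 16 (A + 2 * B) (1 / 8) (by norm_num), eventually_ge_atTop 1] with X hX1 hX2 hX3 hX4
  intro z hz2 hzL n K hn hK1 hK2
  obtain ⟨t, ht⟩ := hX1
  obtain ⟨ht1, ht2⟩ := ht z hzL
  set L := Real.log X with hL
  have hL1 : (1 : ℝ) ≤ L := by linarith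
  have hXr : (1 : ℝ) ≤ X := by exact_mod_cast hX4
  have hz1 : 1 ≤ z := by omega
  obtain ⟨Om, hOm⟩ : ∃ Om : ℕ → Finset ℕ, Om = A3_Om n := ⟨_, rfl⟩
  have hOms : ∀ p ∈ pr z, Om p ⊆ range p := by
    intro p _
    rw [hOm]
    exact filter_subset _ _
  have hSp : ∀ p ∈ pr z, p.Prime := fun p hp => (mem_pr.1 hp).2
  have hcore := A3_core (pr z) hSp Om hOms K t
  have ha0 : ∀ p ∈ pr z, 0 ≤ ((Om p).card : ℝ) / p := fun p _ => by positivity
  obtain ⟨s, hs⟩ : ∃ s : ℝ, s = ∑ p ∈ pr z, ((Om p).card : ℝ) / p := ⟨_, rfl⟩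
  have hs0 : 0 ≤ s := by
    rw [hs]
    exact sum_nonneg ha0
  have hs1 : s ≤ 3 * (1 + Real.log (1 + z)) := by
    have h5 := lsap_sum (pr z) z (Subset.refl _)
    have h6 : s ≤ 3 * ∑ p ∈ pr z, 1 / (p : ℝ) := by
      rw [hs, mul_sum]
      refine sum_le_sum fun p hp => ?_
      have h7 : ((Om p).card : ℝ) ≤ 3 := by
        have h8 := A3_om p n (hSp p hp)
        rw [hOm]
        exact_mod_cast h8
      have h9 : (0 : ℝ) < p := by exact_mod_cast (hSp p hp).pos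
      rw [mul_one_div]
      exact div_le_div_of_nonneg_right h7 h9.le
    linarith
  have hδ := ht2 s hs0 hs1
  obtain ⟨hE1, _⟩ := thm_Esym (pr z) (fun p => ((Om p).card : ℝ) / p) ha0 (t + 1)
  obtain ⟨_, hE2⟩ := thm_Esym (pr z) (fun p => ((Om p).card : ℝ) / p) ha0 t
  rw [← hs] at hE1 hE2
  obtain ⟨δ, hδe⟩ : ∃ δ : ℝ, δ = s ^ (t + 1) / ((t + 1).factorial : ℝ) * Real.exp s := ⟨_, rfl⟩
  have hδ1 : 0 ≤ s ^ (t + 1) / ((t + 1).factorial : ℝ) :=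
    div_nonneg (pow_nonneg hs0 _) (Nat.cast_nonneg _)
  have hδ0 : 0 ≤ δ := by
    rw [hδe]
    exact mul_nonneg hδ1 (Real.exp_pos _).le
  have hE3 : s ^ (t + 1) / ((t + 1).factorial : ℝ) ≤ δ := by
    rw [hδe]
    exact le_mul_of_one_le_right hδ1 (Real.one_le_exp hs0)
  rw [← hδe] at hδ hE2
  obtain ⟨Y, hY⟩ : ∃ Y : ℝ, Y = (X : ℝ) ^ (1 / 16 : ℝ) := ⟨_, rfl⟩
  have hY0 : 0 < Y := by
    rw [hY]
    exact Real.rpow_pos_of_pos (by linarith) _
  rw [← hY] at ht1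
  have hK0 : (0 : ℝ) ≤ K := Nat.cast_nonneg _
  have hB1 : ∑ T ∈ (pr z).powerset.filter (fun T => T.card ≤ t), ((∏ p ∈ T, p : ℕ) : ℝ) ≤ Y * Y :=
    A3_small (pr z) z t hz1 (Subset.refl _) Y ht1 _ fun T hT =>
      ⟨mem_powerset.1 (mem_filter.1 hT).1, (mem_filter.1 hT).2.trans (Nat.le_succ t)⟩
  have hB3 : ∑ T ∈ (pr z).powersetCard (t + 1), ((∏ p ∈ T, p : ℕ) : ℝ) ≤ Y * Y :=
    A3_small (pr z) z t hz1 (Subset.refl _) Y ht1 _ fun T hT =>
      ⟨(mem_powersetCard.1 hT).1, (mem_powersetCard.1 hT).2.le⟩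
  have hB2 : ∑ T ∈ (pr z).powersetCard (t + 1), ((K : ℝ) * ∏ p ∈ T, ((Om p).card : ℝ) / p +
          ((∏ p ∈ T, p : ℕ) : ℝ)) ≤ K * δ + Y * Y := by
    rw [sum_add_distrib, ← mul_sum]
    exact add_le_add (mul_le_mul_of_nonneg_left (hE1.trans hE3) hK0) hB3
  have hbound : |∑ k ∈ Icc 1 K, (if ∀ p ∈ pr z, ¬ (k % p ∈ Om p) then (1 : ℝ) else 0) -
      K * ∏ p ∈ pr z, (1 - ((Om p).card : ℝ) / p)| ≤ Y * Y + (K * δ + Y * Y) + K * δ := by
    refine hcore.trans (add_le_add (add_le_add hB1 hB2) ?_)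
    exact mul_le_mul_of_nonneg_left hE2 hK0
  have hrho := rho_pos z
  have e1 : ∑ k ∈ Icc 1 K, LamS z (n + k) * LamS z (n + k ^ 2) - K * GA z n =
      (rho z)⁻¹ * (rho z)⁻¹ * (∑ k ∈ Icc 1 K,
        (if ∀ p ∈ pr z, ¬ (k % p ∈ Om p) then (1 : ℝ) else 0) -
      K * ∏ p ∈ pr z, (1 - ((Om p).card : ℝ) / p)) := by
    have e2 : ∑ k ∈ Icc 1 K, LamS z (n + k) * LamS z (n + k ^ 2) =
        (rho z)⁻¹ * (rho z)⁻¹ * ∑ k ∈ Icc 1 K,
          (if ∀ p ∈ pr z, ¬ (k % p ∈ Om p) then (1 : ℝ) else 0) := by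
      rw [mul_sum]
      refine sum_congr rfl fun k _ => ?_
      rw [A3_prod, hOm]
    rw [e2, A3_GA, ← hOm]
    ring
  have hri : 0 < (rho z)⁻¹ := inv_pos.2 hrho
  rw [e1, abs_mul, abs_of_pos (mul_pos hri hri)]
  have hYK : 16 * L ^ (A + 2 * B) * (Y * Y) ≤ K := by
    have h5 : Y * Y = (X : ℝ) ^ (1 / 8 : ℝ) := by
      rw [hY, ← Real.rpow_add (by linarith)]
      norm_num
    calc 16 * L ^ (A + 2 * B) * (Y * Y) ≤ (X : ℝ) ^ (1 / 8 : ℝ) * (Y * Y) :=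
          mul_le_mul_of_nonneg_right hX3 (mul_nonneg hY0.le hY0.le)
      _ = (X : ℝ) ^ (1 / 4 : ℝ) := by
          rw [h5, ← Real.rpow_add (by linarith)]
          norm_num
      _ ≤ K := hK1
  have hzr : (0 : ℝ) ≤ z := Nat.cast_nonneg _
  have hz3 : (0 : ℝ) ≤ (z : ℝ) + 1 := by linarith
  calc (rho z)⁻¹ * (rho z)⁻¹ * _ ≤ (((z : ℝ) + 1) * ((z : ℝ) + 1)) *
        (Y * Y + (K * δ + Y * Y) + K * δ) := by
        refine mul_le_mul ?_ hbound (abs_nonneg _) (mul_nonneg hz3 hz3)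
        exact mul_le_mul (rho_inv_le z) (rho_inv_le z) hri.le hz3
    _ ≤ K / L ^ A := A3_num hK0 hX2 hzr hzL hY0.le hYK hδ0 hδ

end Pool.Agent.NRP
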