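import Mathlib
import Pool.Agent.NRP.StN
import Pool.Agent.GBQ.RhoLow

set_option autoImplicit false

/-!
# NRP / Aa: Theorem A for `n ≤ X` and one `K ≤ √X` (telescoping)
-/

namespace Pool.Agent.NRP

open Finset Filter
open Pool.Agent.GBQ (ee nd gm lam LamS zz rho pr rho_pos mem_pr lam_nonneg lam_le_log)
open scoped ComplexConjugate

private theorem nrpaa_tsum (X : ℕ) (F : ℤ → ℂ) (hF : ∀ n : ℤ, ¬ (1 ≤ n ∧ n ≤ X) → F n = 0) :
    ∑' n : ℤ, F n = ∑ n ∈ Icc 1 X, F (n : ℤ) := by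
  have h1 : ∑ n ∈ Icc 1 X, F (n : ℤ) = ∑ n ∈ (Icc 1 X).map Nat.castEmbedding, F n := by
    rw [sum_map]
    rfl
  rw [h1]
  refine tsum_eq_sum ?_
  intro n hn
  refine hF n ?_
  rintro ⟨h2, h3⟩
  apply hn
  rw [Finset.mem_map]
  refine ⟨n.toNat, ?_, ?_⟩
  · rw [mem_Icc]
    omega
  · show ((n.toNat : ℕ) : ℤ) = n
    omega

private theorem nrpaa_int (H : ℕ) (F : ℤ → ℂ) :
    ∑ h ∈ Icc (1 : ℤ) H, F h = ∑ h ∈ Icc 1 H, F (h : ℤ) := by
  have h1 : ∑ n ∈ Icc 1 H, F (n : ℤ) = ∑ n ∈ (Icc 1 H).map Nat.castEmbedding, F n := by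
    rw [sum_map]
    rfl
  rw [h1]
  refine sum_congr ?_ (fun _ _ => rfl)
  ext n
  rw [mem_Icc, Finset.mem_map]
  constructor
  · rintro ⟨h2, h3⟩
    refine ⟨n.toNat, ?_, ?_⟩
    · rw [mem_Icc]
      omega
    · show ((n.toNat : ℕ) : ℤ) = n
      omega
  · rintro ⟨m, hm, rfl⟩
    rw [mem_Icc] at hm
    show (1 : ℤ) ≤ ((m : ℕ) : ℤ) ∧ ((m : ℕ) : ℤ) ≤ H
    omega

/-- the cutoff `h ≤ K` -/
noncomputable def nrpaa_w (K : ℕ) (h : ℤ) : ℂ := if h ≤ K then 1 else 0

private theorem nrpaa_w_le (K : ℕ) (h : ℤ) : ‖nrpaa_w K h‖ ≤ 1 := by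
  unfold nrpaa_w
  split_ifs
  · rw [norm_one]
  · rw [norm_zero]
    norm_num

private theorem nrpaa_TW (X H K : ℕ) (hK : K ≤ H) (F0 F1 F2 : ℤ → ℂ)
    (hF : ∀ n : ℤ, ¬ (1 ≤ n ∧ n ≤ X) → F0 n = 0) :
    TW 0 H (nrpaa_w K) F0 F1 F2 = ∑ n ∈ Icc 1 X, ∑ k ∈ Icc 1 K,
      F0 (n : ℤ) * F1 ((n : ℤ) + k) * F2 ((n : ℤ) + (k : ℤ) ^ 2) := by
  unfold TW
  rw [nrpaa_int, sum_comm]
  have h1 : ∑ k ∈ Icc 1 K, ∑ n ∈ Icc 1 X,
      F0 (n : ℤ) * F1 ((n : ℤ) + k) * F2 ((n : ℤ) + (k : ℤ) ^ 2) =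
      ∑ k ∈ Icc 1 K, nrpaa_w K (k : ℤ) *
        ∑' n : ℤ, F0 n * F1 (n + (k : ℤ)) * F2 (n + pp 0 (k : ℤ)) := by
    refine sum_congr rfl (fun k hk => ?_)
    rw [mem_Icc] at hk
    have h2 : nrpaa_w K (k : ℤ) = 1 := by
      unfold nrpaa_w
      rw [if_pos (by omega)]
    rw [h2, one_mul, nrpaa_tsum X]
    · refine sum_congr rfl (fun n _ => ?_)
      unfold pp
      rw [zero_mul, add_zero]
    · intro n hn
      rw [hF n hn]
      ring
  rw [h1]
  symm
  refine sum_subset (Icc_subset_Icc_right hK) (fun k hk hk2 => ?_)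
  rw [mem_Icc] at hk hk2
  have h2 : nrpaa_w K (k : ℤ) = 0 := by
    unfold nrpaa_w
    rw [if_neg (by omega)]
  rw [h2, zero_mul]

private theorem nrpaa_zz_le (B X : ℕ) (hX : 1 ≤ X) : ((zz B X : ℕ) : ℝ) ≤ Real.log X ^ B := by
  unfold zz
  exact Nat.floor_le (pow_nonneg (Real.log_nonneg (by exact_mod_cast hX)) _)

private theorem nrpaa_LamS_le (z n : ℕ) : LamS z n ≤ (rho z)⁻¹ := by
  unfold LamS
  split_ifs
  · exact le_refl _
  · exact (inv_pos.2 (rho_pos z)).le

/-- `log z ≤ B log X` -/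
private theorem nrpaa_logz (B X : ℕ) (hX : 1 < Real.log X) (hz : 2 ≤ zz B X) (hX1 : 1 ≤ X) :
    Real.log (zz B X : ℕ) ≤ B * Real.log X := by
  have hz0 : (0 : ℝ) < (zz B X : ℕ) := by
    have : 0 < zz B X := by omega
    exact_mod_cast this
  have h10 : Real.log (zz B X : ℕ) ≤ B * Real.log (Real.log X) := by
    rw [← Real.log_pow]
    exact Real.log_le_log hz0 (nrpaa_zz_le B X hX1)
  have h11 : Real.log (Real.log X) ≤ Real.log X := by
    have := Real.log_le_sub_one_of_pos (show (0 : ℝ) < Real.log X by linarith)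
    linarith
  refine le_trans h10 (mul_le_mul_of_nonneg_left h11 (Nat.cast_nonneg B))

private theorem nrpaa_ev (C : ℝ) (hC : 0 ≤ C) (A : ℕ) :
    ∀ᶠ X : ℕ in atTop, C * Real.log X ^ A ≤ (X : ℝ) ^ (1 / 4 : ℝ) := by
  have h1 := (isLittleO_log_rpow_rpow_atTop (s := (1 / 4 : ℝ)) (A : ℝ) (by norm_num)).def
    (c := 1 / (C + 1)) (by positivity)
  have hcast : Tendsto (fun X : ℕ => (X : ℝ)) atTop atTop := tendsto_natCast_atTop_atTop
  filter_upwards [hcast.eventually h1, eventually_ge_atTop 1] with X hX hX1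
  have hl : 0 ≤ Real.log X := Real.log_nonneg (by exact_mod_cast hX1)
  rw [Real.norm_eq_abs, Real.norm_eq_abs, abs_of_nonneg (Real.rpow_nonneg hl _),
    abs_of_nonneg (Real.rpow_nonneg (Nat.cast_nonneg _) _), Real.rpow_natCast] at hX
  have h2 : C * (1 / (C + 1)) ≤ 1 := by
    rw [mul_one_div, div_le_one (by positivity)]
    linarith
  have h3 : 0 ≤ (X : ℝ) ^ (1 / 4 : ℝ) := Real.rpow_nonneg (Nat.cast_nonneg _) _
  calc C * Real.log X ^ A ≤ C * (1 / (C + 1) * (X : ℝ) ^ (1 / 4 : ℝ)) :=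
        mul_le_mul_of_nonneg_left hX hC
    _ = C * (1 / (C + 1)) * (X : ℝ) ^ (1 / 4 : ℝ) := by ring
    _ ≤ 1 * (X : ℝ) ^ (1 / 4 : ℝ) := mul_le_mul_of_nonneg_right h2 h3
    _ = _ := one_mul _

/-- the pointwise telescoping identity -/
private theorem nrpaa_tel (z X n k : ℕ) (hn : 1 ≤ n) (hnX : n ≤ X) (hk : k ≤ X)
    (hk2 : k ^ 2 ≤ X) :
    lam (n + k) * lam (n + k ^ 2) =
      lam (n + k) * gI z 0 (3 * X) ((n : ℤ) + (k : ℤ) ^ 2) +
      gI z 0 (3 * X) ((n : ℤ) + k) * LamS z (n + k ^ 2) +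
      LamS z (n + k) * LamS z (n + k ^ 2) := by
  have h0 : ((n : ℤ) + (k : ℤ) ^ 2) = ((n + k ^ 2 : ℕ) : ℤ) := by
    push_cast
    ring
  have h1 : ((n : ℤ) + k) = ((n + k : ℕ) : ℤ) := by push_cast; ring
  rw [h0, h1]
  have h2 : gI z 0 (3 * X) ((n + k ^ 2 : ℕ) : ℤ) = lam (n + k ^ 2) - LamS z (n + k ^ 2) := by
    unfold gI
    rw [if_pos]
    · unfold lamZ LamZ
      rw [Int.toNat_natCast, if_pos]
      generalize k ^ 2 = t at *
      omega
    · generalize k ^ 2 = t at *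
      push_cast
      omega
  have h3 : gI z 0 (3 * X) ((n + k : ℕ) : ℤ) = lam (n + k) - LamS z (n + k) := by
    unfold gI
    rw [if_pos]
    · unfold lamZ LamZ
      rw [Int.toNat_natCast, if_pos]
      omega
    · push_cast
      omega
  rw [h2, h3]
  ring

private theorem nrpaa_lam_le (X n : ℕ) (hX : 4 ≤ Real.log X) (hX1 : 1 ≤ X) (hn : n ≤ 3 * X) :
    lam n ≤ 2 * Real.log X := by
  rcases Nat.eq_zero_or_pos n with rfl | hn0
  · rw [Pool.Agent.GBQ.lam_zero]
    linarith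
  · refine le_trans (lam_le_log n) ?_
    have h1 : Real.log n ≤ Real.log (3 * X) :=
      Real.log_le_log (by exact_mod_cast hn0) (by exact_mod_cast hn)
    have h2 : Real.log (3 * X) = Real.log 3 + Real.log X := by
      rw [Real.log_mul (by norm_num) (by positivity)]
    have h3 : Real.log 3 ≤ 2 := by
      have := Real.log_le_sub_one_of_pos (show (0 : ℝ) < 3 by norm_num)
      linarith
    linarith

theorem thm_Aa (h2 : St_TW2) (h1 : St_TW1) (h3 : St_A3) (hG : St_GAl) : St_Aa := by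
  intro A
  obtain ⟨B2, hB2⟩ := h2 (A + 1)
  obtain ⟨B1, hB1⟩ := h1 (A + 1)
  obtain ⟨cg, Cg, hcg, hCg, hGA⟩ := hG
  obtain ⟨r, hr, hR⟩ := Pool.Agent.GBQ.thm_RhoLow
  refine ⟨B2 + B1 + 1, fun B hB => ?_⟩
  have e1 := hB2 B (by omega)
  have e2 := hB1 B (by omega)
  have e3 := h3 (A + 1) B
  have hlog : Tendsto (fun X : ℕ => Real.log X) atTop atTop :=
    Real.tendsto_log_atTop.comp tendsto_natCast_atTop_atTop
  filter_upwards [e1, e2, e3, nrpaa_ev (4 + Cg * B ^ 2) (by positivity) (A + 2),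
    hlog.eventually (eventually_ge_atTop (4 : ℝ)), hlog.eventually (eventually_ge_atTop (B / r)),
    eventually_ge_atTop 3] with X hX1 hX2 hX3 hX4 hX6 hX5 hX7
  intro K hK
  set z := zz B X with hz
  set H := Nat.sqrt X with hH
  have hHX : H ≤ X := Nat.sqrt_le_self X
  have hH2 : ∀ h : ℕ, h ≤ K → h ^ 2 ≤ X := fun h hh => by
    have := Nat.sqrt_le' X
    calc h ^ 2 ≤ H ^ 2 := Nat.pow_le_pow_left (le_trans hh hK) 2
      _ ≤ X := this
  have hX0 : (0 : ℝ) < X := by positivity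
  have hL0 : (0 : ℝ) < Real.log X := by linarith
  have hLA : (0 : ℝ) < Real.log X ^ (A + 1) := by positivity
  -- `z ≥ 2`
  have hzlog : (z : ℝ) ≤ Real.log X ^ B := nrpaa_zz_le B X (by omega)
  have hz2 : 2 ≤ z := by
    rw [hz]
    unfold zz
    rw [Nat.le_floor_iff (by positivity)]
    push_cast
    calc (2 : ℝ) ≤ 4 ^ 1 := by norm_num
      _ ≤ Real.log X ^ 1 := by
        rw [pow_one, pow_one]
        exact hX6
      _ ≤ Real.log X ^ B := pow_le_pow_right₀ (by linarith) (by omega)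
  have hlz : Real.log z ≤ B * Real.log X := nrpaa_logz B X (by linarith) hz2 (by omega)
  have hlz0 : 0 < Real.log z := Real.log_pos (by exact_mod_cast hz2)
  have hlog2 : 2 * Real.log X ≤ Real.log X ^ 2 := by nlinarith
  have hrho : (rho z)⁻¹ ≤ Real.log X ^ 2 := by
    rw [inv_le_iff_one_le_mul₀ (rho_pos z)]
    have h9 := hR z hz2
    have h10 : (B : ℝ) * Real.log X ≤ r * Real.log X ^ 2 := by
      rw [div_le_iff₀ hr] at hX5
      calc (B : ℝ) * Real.log X ≤ (Real.log X * r) * Real.log X :=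
            mul_le_mul_of_nonneg_right hX5 hL0.le
        _ = _ := by ring
    have h12 : Real.log X ^ 2 * (r / Real.log z) ≤ Real.log X ^ 2 * rho z :=
      mul_le_mul_of_nonneg_left h9 (by positivity)
    refine le_trans ?_ h12
    rw [← mul_div_assoc, one_le_div hlz0]
    linarith
  have hGA0 : ∀ n, 0 ≤ GA z n := fun n =>
    le_trans (div_pos hcg hlz0).le (hGA z n hz2).1
  have hGA1 : ∀ n, GA z n ≤ Cg * B ^ 2 * Real.log X ^ 2 := fun n => by
    refine le_trans (hGA z n hz2).2 ?_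
    calc Cg * Real.log z ^ 2 ≤ Cg * (B * Real.log X) ^ 2 :=
          mul_le_mul_of_nonneg_left (pow_le_pow_left₀ hlz0.le hlz 2) hCg.le
      _ = _ := by ring
  rcases lt_or_ge (K : ℝ) ((X : ℝ) ^ (1 / 4 : ℝ)) with hKs | hKb
  · -- small `K`
    have k1 : ∀ n ∈ Icc 1 X, |∑ k ∈ Icc 1 K, lam (n + k) * lam (n + k ^ 2) - K * GA z n| ≤
        Real.sqrt X / Real.log X ^ A := by
      intro n hn
      rw [mem_Icc] at hn
      have k2 : |∑ k ∈ Icc 1 K, lam (n + k) * lam (n + k ^ 2)| ≤ K * (4 * Real.log X ^ 2) := by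
        refine le_trans (abs_sum_le_sum_abs _ _) ?_
        calc ∑ k ∈ Icc 1 K, |lam (n + k) * lam (n + k ^ 2)| ≤
              ∑ k ∈ Icc 1 K, 4 * Real.log X ^ 2 := by
              refine sum_le_sum (fun k hk => ?_)
              rw [mem_Icc] at hk
              have h5 := hH2 k hk.2
              have h6 := nrpaa_lam_le X (n + k) hX6 (by omega) (by omega)
              have h7 := nrpaa_lam_le X (n + k ^ 2) hX6 (by omega) (by omega)
              have h8 := lam_nonneg (n + k)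
              have h9 := lam_nonneg (n + k ^ 2)
              rw [abs_of_nonneg (mul_nonneg h8 h9)]
              calc lam (n + k) * lam (n + k ^ 2) ≤ (2 * Real.log X) * (2 * Real.log X) :=
                    mul_le_mul h6 h7 h9 (by positivity)
                _ = _ := by ring
          _ = _ := by
            rw [sum_const, Nat.card_Icc, nsmul_eq_mul, Nat.add_sub_cancel]
      have k3 : |(K : ℝ) * GA z n| ≤ K * (Cg * B ^ 2 * Real.log X ^ 2) := by
        rw [abs_of_nonneg (mul_nonneg (Nat.cast_nonneg _) (hGA0 n))]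
        exact mul_le_mul_of_nonneg_left (hGA1 n) (Nat.cast_nonneg _)
      have k4 : |∑ k ∈ Icc 1 K, lam (n + k) * lam (n + k ^ 2) - K * GA z n| ≤
          K * ((4 + Cg * B ^ 2) * Real.log X ^ 2) := by
        refine le_trans (abs_sub _ _) ?_
        calc _ ≤ K * (4 * Real.log X ^ 2) + K * (Cg * B ^ 2 * Real.log X ^ 2) := add_le_add k2 k3
          _ = _ := by ring
      refine le_trans k4 ?_
      rw [le_div_iff₀ (by positivity)]
      have k5 : (X : ℝ) ^ (1 / 4 : ℝ) * (X : ℝ) ^ (1 / 4 : ℝ) = Real.sqrt X := by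
        rw [← Real.rpow_add hX0, Real.sqrt_eq_rpow]
        norm_num
      have k6 : (0 : ℝ) ≤ (X : ℝ) ^ (1 / 4 : ℝ) := by positivity
      calc (K : ℝ) * ((4 + Cg * B ^ 2) * Real.log X ^ 2) * Real.log X ^ A
          = K * ((4 + Cg * B ^ 2) * Real.log X ^ (A + 2)) := by ring
        _ ≤ (X : ℝ) ^ (1 / 4 : ℝ) * (X : ℝ) ^ (1 / 4 : ℝ) :=
            mul_le_mul hKs.le hX4 (by positivity) k6
        _ = _ := k5
    calc ∑ n ∈ Icc 1 X, |∑ k ∈ Icc 1 K, lam (n + k) * lam (n + k ^ 2) - K * GA z n|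
        ≤ ∑ n ∈ Icc 1 X, Real.sqrt X / Real.log X ^ A := sum_le_sum k1
      _ = X * Real.sqrt X / Real.log X ^ A := by
          rw [sum_const, Nat.card_Icc, nsmul_eq_mul, Nat.add_sub_cancel]
          ring
  · -- large `K`
    set D : ℕ → ℝ := fun n => ∑ k ∈ Icc 1 K, lam (n + k) * lam (n + k ^ 2) - K * GA z n with hD
    set σ : ℕ → ℝ := fun n => if 0 ≤ D n then 1 else -1 with hσ
    have hσ1 : ∀ n, |σ n| ≤ 1 := by
      intro n
      rw [hσ]
      dsimp only
      split_ifs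
      · simp
      · simp
    set F0 : ℤ → ℂ := fun n => if 1 ≤ n ∧ n ≤ X then ((σ n.toNat : ℝ) : ℂ) else 0 with hF0
    set F1 : ℤ → ℂ := fun n => if 1 ≤ n ∧ n ≤ 3 * X then ((lamZ n : ℝ) : ℂ) else 0 with hF1
    set F2 : ℤ → ℂ := fun n => if 1 ≤ n ∧ n ≤ 3 * X then ((LamZ z n : ℝ) : ℂ) else 0 with hF2
    have hF0b : ∀ n, ‖F0 n‖ ≤ Real.log X ^ 2 := by
      intro n
      rw [hF0]
      dsimp only
      split_ifs with hc
      · rw [Complex.norm_real, Real.norm_eq_abs]
        refine le_trans (hσ1 _) ?_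
        nlinarith
      · rw [norm_zero]
        positivity
    have hF1b : ∀ n, ‖F1 n‖ ≤ Real.log X ^ 2 := by
      intro n
      rw [hF1]
      dsimp only
      split_ifs with hc
      · rw [Complex.norm_real, Real.norm_eq_abs]
        unfold lamZ
        rw [abs_of_nonneg (lam_nonneg _)]
        exact le_trans (nrpaa_lam_le X n.toNat hX6 (by omega) (by omega)) hlog2
      · rw [norm_zero]
        positivity
    have hF2b : ∀ n, ‖F2 n‖ ≤ Real.log X ^ 2 := by
      intro n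
      rw [hF2]
      dsimp only
      split_ifs with hc
      · rw [Complex.norm_real, Real.norm_eq_abs]
        unfold LamZ
        rw [if_pos (by omega), abs_of_nonneg (Pool.Agent.GBQ.LamS_nonneg _ _)]
        exact le_trans (nrpaa_LamS_le _ _) hrho
      · rw [norm_zero]
        positivity
    have hF0z : ∀ n : ℤ, ¬ (1 ≤ n ∧ n ≤ X) → F0 n = 0 := by
      intro n hn
      rw [hF0]
      dsimp only
      rw [if_neg hn]
    have hF1z : ∀ n : ℤ, 3 * (X : ℤ) < |n| → F1 n = 0 := by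
      intro n hn
      rw [hF1]
      dsimp only
      rw [if_neg]
      rintro ⟨h4, h5⟩
      have : |n| = n := abs_of_nonneg (by omega)
      omega
    have hF2z : ∀ n : ℤ, 3 * (X : ℤ) < |n| → F2 n = 0 := by
      intro n hn
      rw [hF2]
      dsimp only
      rw [if_neg]
      rintro ⟨h4, h5⟩
      have : |n| = n := abs_of_nonneg (by omega)
      omega
    have hF0y : ∀ n : ℤ, 3 * (X : ℤ) < |n| → F0 n = 0 := by
      intro n hn
      refine hF0z n ?_
      rintro ⟨h4, h5⟩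
      have : |n| = n := abs_of_nonneg (by omega)
      omega
    have hF0v : ∀ n ∈ Icc 1 X, F0 (n : ℤ) = ((σ n : ℝ) : ℂ) := by
      intro n hn
      rw [mem_Icc] at hn
      rw [hF0]
      dsimp only
      rw [if_pos (by omega), Int.toNat_natCast]
    -- the two error terms
    set S1 : ℕ → ℝ := fun n => ∑ k ∈ Icc 1 K,
      lam (n + k) * gI z 0 (3 * X) ((n : ℤ) + (k : ℤ) ^ 2) with hS1
    set S2 : ℕ → ℝ := fun n => ∑ k ∈ Icc 1 K,
      gI z 0 (3 * X) ((n : ℤ) + k) * LamS z (n + k ^ 2) with hS2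
    set S3 : ℕ → ℝ := fun n => ∑ k ∈ Icc 1 K, LamS z (n + k) * LamS z (n + k ^ 2) with hS3
    have hT : ∀ n ∈ Icc 1 X, D n = S1 n + S2 n + (S3 n - K * GA z n) := by
      intro n hn
      rw [mem_Icc] at hn
      rw [hD, hS1, hS2, hS3]
      dsimp only
      have h4 : ∑ k ∈ Icc 1 K, lam (n + k) * lam (n + k ^ 2) =
          ∑ k ∈ Icc 1 K, lam (n + k) * gI z 0 (3 * X) ((n : ℤ) + (k : ℤ) ^ 2) +
          ∑ k ∈ Icc 1 K, gI z 0 (3 * X) ((n : ℤ) + k) * LamS z (n + k ^ 2) +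
          ∑ k ∈ Icc 1 K, LamS z (n + k) * LamS z (n + k ^ 2) := by
        rw [← sum_add_distrib, ← sum_add_distrib]
        refine sum_congr rfl (fun k hk => ?_)
        rw [mem_Icc] at hk
        exact nrpaa_tel z X n k hn.1 hn.2 (by omega) (hH2 k hk.2)
      rw [h4]
      ring
    have k1 : |∑ n ∈ Icc 1 X, σ n * S1 n| ≤ X * Real.sqrt X / Real.log X ^ (A + 1) := by
      have h3 := hX1 0 (Or.inl rfl) (nrpaa_w K) F0 F1 0 (3 * X) 1 (le_refl _) (Or.inl rfl)
        (nrpaa_w_le K) hF0b hF1b (fun n hn => ⟨hF0y n hn, hF1z n hn⟩)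
      rw [nrpaa_TW X H K hK F0 F1 _ hF0z] at h3
      have h4 : ∑ n ∈ Icc 1 X, ∑ k ∈ Icc 1 K, F0 (n : ℤ) * F1 ((n : ℤ) + k) *
          ((gI z 0 (3 * X) (1 * ((n : ℤ) + (k : ℤ) ^ 2)) : ℝ) : ℂ) =
          ((∑ n ∈ Icc 1 X, σ n * S1 n : ℝ) : ℂ) := by
        rw [Complex.ofReal_sum]
        refine sum_congr rfl (fun n hn => ?_)
        rw [hF0v n hn]
        rw [mem_Icc] at hn
        rw [hS1]
        dsimp only
        rw [Complex.ofReal_mul, Complex.ofReal_sum, mul_sum]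
        refine sum_congr rfl (fun k hk => ?_)
        rw [mem_Icc] at hk
        have h7 : F1 ((n : ℤ) + k) = ((lam (n + k) : ℝ) : ℂ) := by
          rw [hF1]
          dsimp only
          rw [if_pos (by omega)]
          unfold lamZ
          have : ((n : ℤ) + k).toNat = n + k := by omega
          rw [this]
        rw [h7, one_mul]
        push_cast
        ring
      rw [h4, Complex.norm_real, Real.norm_eq_abs] at h3
      exact h3
    have k2 : |∑ n ∈ Icc 1 X, σ n * S2 n| ≤ X * Real.sqrt X / Real.log X ^ (A + 1) := by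
      have h3 := hX2 0 (Or.inl rfl) (nrpaa_w K) F0 F2 0 (3 * X) 1 (le_refl _) (Or.inl rfl)
        (nrpaa_w_le K) hF0b hF2b (fun n hn => ⟨hF0y n hn, hF2z n hn⟩)
      rw [nrpaa_TW X H K hK F0 _ F2 hF0z] at h3
      have h4 : ∑ n ∈ Icc 1 X, ∑ k ∈ Icc 1 K, F0 (n : ℤ) *
          ((gI z 0 (3 * X) (1 * ((n : ℤ) + k)) : ℝ) : ℂ) * F2 ((n : ℤ) + (k : ℤ) ^ 2) =
          ((∑ n ∈ Icc 1 X, σ n * S2 n : ℝ) : ℂ) := by
        rw [Complex.ofReal_sum]
        refine sum_congr rfl (fun n hn => ?_)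
        rw [hF0v n hn]
        rw [mem_Icc] at hn
        rw [hS2]
        dsimp only
        rw [Complex.ofReal_mul, Complex.ofReal_sum, mul_sum]
        refine sum_congr rfl (fun k hk => ?_)
        rw [mem_Icc] at hk
        have h7 : F2 ((n : ℤ) + (k : ℤ) ^ 2) = ((LamS z (n + k ^ 2) : ℝ) : ℂ) := by
          have h8 := hH2 k hk.2
          have h9 : (n : ℤ) + (k : ℤ) ^ 2 = ((n + k ^ 2 : ℕ) : ℤ) := by push_cast; ring
          rw [hF2]
          dsimp only
          rw [h9]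
          rw [if_pos]
          · unfold LamZ
            rw [Int.toNat_natCast, if_pos]
            generalize k ^ 2 = t at *
            omega
          · generalize k ^ 2 = t at *
            omega
        rw [h7, one_mul]
        push_cast
        ring
      rw [h4, Complex.norm_real, Real.norm_eq_abs] at h3
      exact h3
    -- the main term
    have k3 : ∀ n ∈ Icc 1 X, |S3 n - K * GA z n| ≤ K / Real.log X ^ (A + 1) := by
      intro n hn
      rw [mem_Icc] at hn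
      exact hX3 z hz2 hzlog n K hn.2 hKb (by omega)
    -- assembly
    have m1 : ∑ n ∈ Icc 1 X, |D n| =
        ∑ n ∈ Icc 1 X, σ n * S1 n + ∑ n ∈ Icc 1 X, σ n * S2 n +
        ∑ n ∈ Icc 1 X, σ n * (S3 n - K * GA z n) := by
      rw [← sum_add_distrib, ← sum_add_distrib]
      refine sum_congr rfl (fun n hn => ?_)
      have h3 : |D n| = σ n * D n := by
        rw [hσ]
        dsimp only
        split_ifs with hc
        · rw [abs_of_nonneg hc, one_mul]
        · rw [abs_of_neg (not_le.1 hc)]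
          ring
      rw [h3, hT n hn]
      ring
    have m2 : ∑ n ∈ Icc 1 X, σ n * (S3 n - K * GA z n) ≤
        X * Real.sqrt X / Real.log X ^ (A + 1) := by
      have hKH : (K : ℝ) ≤ Real.sqrt X := by
        refine le_trans ?_ Real.nat_sqrt_le_real_sqrt
        exact_mod_cast hK
      calc ∑ n ∈ Icc 1 X, σ n * (S3 n - K * GA z n)
          ≤ ∑ n ∈ Icc 1 X, Real.sqrt X / Real.log X ^ (A + 1) := by
            refine sum_le_sum (fun n hn => ?_)
            refine le_trans (le_abs_self _) ?_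
            rw [abs_mul]
            calc |σ n| * |S3 n - K * GA z n| ≤ 1 * |S3 n - K * GA z n| :=
                  mul_le_mul_of_nonneg_right (hσ1 n) (abs_nonneg _)
              _ = |S3 n - K * GA z n| := one_mul _
              _ ≤ K / Real.log X ^ (A + 1) := k3 n hn
              _ ≤ _ := div_le_div_of_nonneg_right hKH hLA.le
        _ = X * Real.sqrt X / Real.log X ^ (A + 1) := by
            rw [sum_const, Nat.card_Icc, nsmul_eq_mul, Nat.add_sub_cancel]
            ring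
    rw [m1]
    have m3 := le_trans (le_abs_self _) k1
    have m4 := le_trans (le_abs_self _) k2
    have m5 : (X : ℝ) * Real.sqrt X / Real.log X ^ (A + 1) +
        X * Real.sqrt X / Real.log X ^ (A + 1) +
        X * Real.sqrt X / Real.log X ^ (A + 1) ≤ X * Real.sqrt X / Real.log X ^ A := by
      have h3 : (X : ℝ) * Real.sqrt X / Real.log X ^ (A + 1) +
          X * Real.sqrt X / Real.log X ^ (A + 1) + X * Real.sqrt X / Real.log X ^ (A + 1) =
          (X * Real.sqrt X / Real.log X ^ A) * (3 / Real.log X) := by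
        rw [pow_succ]
        field_simp
        ring
      rw [h3]
      have h4 : 3 / Real.log X ≤ 1 := by
        rw [div_le_one hL0]
        linarith
      have h5 : 0 ≤ (X : ℝ) * Real.sqrt X / Real.log X ^ A := by positivity
      calc _ ≤ (X * Real.sqrt X / Real.log X ^ A) * 1 := mul_le_mul_of_nonneg_left h4 h5
        _ = _ := mul_one _
    linarith

end Pool.Agent.NRP
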