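import Mathlib
import Pool.Agent.NRP.StN

set_option autoImplicit false

/-!
# NRP: Theorem A with `k ≤ √n` (`St_Ab`)
-/

namespace Pool.Agent.NRP

open Finset Filter
open Pool.Agent.GBQ (ee nd gm lam LamS zz rho pr)

private theorem Ab_lam_nonneg (n : ℕ) : 0 ≤ lam n := ArithmeticFunction.vonMangoldt_nonneg

private theorem Ab_lam_le (X n : ℕ) (hX : 2 ≤ X) (hn : n ≤ 2 * X) : lam n ≤ 2 * Real.log X := by
  have hX' : (2 : ℝ) ≤ X := by exact_mod_cast hX
  rcases Nat.eq_zero_or_pos n with h0 | h0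
  · subst h0
    have h1 : 0 ≤ Real.log X := Real.log_nonneg (by linarith)
    have h2 : lam 0 = 0 := by simp [lam]
    rw [h2]
    linarith
  · have h1 : lam n ≤ Real.log n := ArithmeticFunction.vonMangoldt_le_log
    have h2 : Real.log n ≤ Real.log (2 * X) := by
      apply Real.log_le_log
      · exact_mod_cast h0
      · exact_mod_cast hn
    rw [Real.log_mul (by norm_num) (by linarith)] at h2
    have h3 : Real.log 2 ≤ Real.log X := Real.log_le_log (by norm_num) hX'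
    linarith

/-- choice of a grid point -/
private theorem Ab_grid (s r J : ℕ) (hs : 1 ≤ s) (hJ : 1 ≤ J) (hr : r ≤ s) :
    ∃ j, j < J + 1 ∧ j * s / J ≤ r ∧ (r : ℝ) - ((j * s / J : ℕ) : ℝ) ≤ (s : ℝ) / J + 1 := by
  have hs0 : 0 < s := hs
  have hJ0 : 0 < J := hJ
  have hJr : (0 : ℝ) < J := by exact_mod_cast hJ0
  have h1 : r * J / s * s ≤ r * J := Nat.div_mul_le_self _ _
  have h2 : r * J < r * J / s * s + s := Nat.lt_div_mul_add hs0
  refine ⟨r * J / s, ?_, ?_, ?_⟩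
  · have : r * J / s ≤ J := by
      apply Nat.div_le_of_le_mul
      exact Nat.mul_le_mul_right J hr
    omega
  · apply Nat.div_le_of_le_mul
    rw [mul_comm J r]
    exact h1
  · have h3 : r * J / s * s < r * J / s * s / J * J + J := Nat.lt_div_mul_add hJ0
    have h2' : (r : ℝ) * J < ((r * J / s : ℕ) : ℝ) * s + s := by exact_mod_cast h2
    have h3' : ((r * J / s : ℕ) : ℝ) * s < ((r * J / s * s / J : ℕ) : ℝ) * J + J := by
      exact_mod_cast h3
    have h4 : ((r : ℝ) - ((r * J / s * s / J : ℕ) : ℝ)) * J ≤ ((s : ℝ) / J + 1) * J := by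
      have : (s : ℝ) / J * J = s := div_mul_cancel₀ _ hJr.ne'
      nlinarith
    exact le_of_mul_le_mul_right h4 hJr

/-- the bound for one `n` -/
private theorem Ab_one (X s J n B : ℕ) (C : ℝ) (hX : 2 ≤ X) (hs : 1 ≤ s) (hJ : 1 ≤ J)
    (hn1 : n ≤ X) (hr : Nat.sqrt n ≤ s) (hsX : s * s ≤ X) (hC : 0 < C)
    (hg0 : 0 ≤ GA (zz B X) n) (hg : GA (zz B X) n ≤ C * Real.log X ^ 2) :
    |∑ k ∈ Icc 1 (Nat.sqrt n), lam (n + k) * lam (n + k ^ 2) - Real.sqrt n * GA (zz B X) n| ≤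
      (∑ j ∈ range (J + 1), |∑ k ∈ Icc 1 (j * s / J), lam (n + k) * lam (n + k ^ 2) -
        ((j * s / J : ℕ) : ℝ) * GA (zz B X) n|) +
      ((s : ℝ) / J + 2) * ((4 + C) * Real.log X ^ 2) := by
  obtain ⟨j, hj1, hj2, hj3⟩ := Ab_grid s (Nat.sqrt n) J hs hJ hr
  obtain ⟨g, hgd⟩ : ∃ g, g = GA (zz B X) n := ⟨_, rfl⟩
  rw [← hgd] at hg0 hg ⊢
  obtain ⟨Kj, hKj⟩ : ∃ Kj, Kj = j * s / J := ⟨_, rfl⟩
  rw [← hKj] at hj2 hj3
  obtain ⟨f, hf⟩ : ∃ f : ℕ → ℝ, f = fun k => lam (n + k) * lam (n + k ^ 2) := ⟨_, rfl⟩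
  have hL0 : 0 ≤ Real.log X := Real.log_nonneg (by exact_mod_cast (by omega : 1 ≤ X))
  -- the grid term is one of the summands
  have h1 : |∑ k ∈ Icc 1 Kj, f k - (Kj : ℝ) * g| ≤
      ∑ j ∈ range (J + 1), |∑ k ∈ Icc 1 (j * s / J), lam (n + k) * lam (n + k ^ 2) -
        ((j * s / J : ℕ) : ℝ) * g| := by
    have := Finset.single_le_sum (s := range (J + 1)) (f := fun j =>
      |∑ k ∈ Icc 1 (j * s / J), lam (n + k) * lam (n + k ^ 2) - ((j * s / J : ℕ) : ℝ) * g|)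
      (fun _ _ => abs_nonneg _) (mem_range.2 hj1)
    rw [hf, hKj]
    exact this
  -- splitting of the sum
  have h2 : ∑ k ∈ Icc 1 (Nat.sqrt n), f k = ∑ k ∈ Icc 1 Kj, f k + ∑ k ∈ Ioc Kj (Nat.sqrt n), f k := by
    have e1 : ∀ a : ℕ, Icc 1 a = Ioc 0 a := fun a => by
      ext x
      simp only [mem_Icc, mem_Ioc]
      omega
    rw [e1, e1, Finset.sum_Ioc_consecutive f (Nat.zero_le _) hj2]
  have h3 : ∀ k ∈ Ioc Kj (Nat.sqrt n), 0 ≤ f k ∧ f k ≤ 4 * Real.log X ^ 2 := by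
    intro k hk
    rw [mem_Ioc] at hk
    have hks : k ≤ s := le_trans hk.2 hr
    have hk2 : k * k ≤ X := le_trans (Nat.mul_le_mul hks hks) hsX
    have hkX : k ≤ X := by
      rcases Nat.eq_zero_or_pos k with h0 | h0
      · omega
      · exact le_trans (Nat.le_mul_of_pos_left k h0) hk2
    have a1 := Ab_lam_le X (n + k) hX (by omega)
    have a2 := Ab_lam_le X (n + k ^ 2) hX (by rw [pow_two]; omega)
    have b1 := Ab_lam_nonneg (n + k)
    have b2 := Ab_lam_nonneg (n + k ^ 2)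
    rw [hf]
    refine ⟨mul_nonneg b1 b2, ?_⟩
    have := mul_le_mul a1 a2 b2 (by linarith)
    calc lam (n + k) * lam (n + k ^ 2) ≤ 2 * Real.log X * (2 * Real.log X) := this
      _ = 4 * Real.log X ^ 2 := by ring
  have h4 : 0 ≤ ∑ k ∈ Ioc Kj (Nat.sqrt n), f k := Finset.sum_nonneg fun k hk => (h3 k hk).1
  have h5 : ∑ k ∈ Ioc Kj (Nat.sqrt n), f k ≤
      ((Nat.sqrt n : ℝ) - Kj) * (4 * Real.log X ^ 2) := by
    have := Finset.sum_le_card_nsmul (Ioc Kj (Nat.sqrt n)) f _ fun k hk => (h3 k hk).2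
    rw [Nat.card_Ioc, nsmul_eq_mul, Nat.cast_sub hj2] at this
    exact this
  have h6 : (Nat.sqrt n : ℝ) ≤ Real.sqrt n := Real.nat_sqrt_le_real_sqrt
  have h7 : Real.sqrt n ≤ Nat.sqrt n + 1 := Real.real_sqrt_le_nat_sqrt_succ
  have hKr : (Kj : ℝ) ≤ Nat.sqrt n := by exact_mod_cast hj2
  have h8 : |∑ k ∈ Icc 1 (Nat.sqrt n), f k - Real.sqrt n * g| ≤
      |∑ k ∈ Icc 1 Kj, f k - (Kj : ℝ) * g| +
        (((Nat.sqrt n : ℝ) - Kj) * (4 * Real.log X ^ 2) + (Real.sqrt n - Kj) * g) := by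
    rw [h2]
    have e : ∑ k ∈ Icc 1 Kj, f k + ∑ k ∈ Ioc Kj (Nat.sqrt n), f k - Real.sqrt n * g =
        (∑ k ∈ Icc 1 Kj, f k - (Kj : ℝ) * g) +
          (∑ k ∈ Ioc Kj (Nat.sqrt n), f k - (Real.sqrt n - Kj) * g) := by ring
    rw [e]
    refine le_trans (abs_add_le _ _) ?_
    gcongr
    rw [abs_le]
    have h9 : 0 ≤ (Real.sqrt n - Kj) * g := mul_nonneg (by linarith) hg0
    have h10 : 0 ≤ ((Nat.sqrt n : ℝ) - Kj) * (4 * Real.log X ^ 2) :=
      mul_nonneg (by linarith) (by positivity)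
    constructor <;> linarith
  have h11 : (Real.sqrt n - Kj) * g ≤ ((s : ℝ) / J + 2) * (C * Real.log X ^ 2) :=
    mul_le_mul (by linarith) hg hg0 (by
      have : 0 ≤ (s : ℝ) / J := by positivity
      linarith)
  have h12 : ((Nat.sqrt n : ℝ) - Kj) * (4 * Real.log X ^ 2) ≤
      ((s : ℝ) / J + 2) * (4 * Real.log X ^ 2) :=
    mul_le_mul_of_nonneg_right (by linarith) (by positivity)
  rw [hf] at h8
  calc |∑ k ∈ Icc 1 (Nat.sqrt n), lam (n + k) * lam (n + k ^ 2) - Real.sqrt n * g|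
      ≤ |∑ k ∈ Icc 1 Kj, lam (n + k) * lam (n + k ^ 2) - (Kj : ℝ) * g| +
        (((Nat.sqrt n : ℝ) - Kj) * (4 * Real.log X ^ 2) + (Real.sqrt n - Kj) * g) := h8
    _ ≤ _ := by
      rw [hf] at h1
      have h13 : ((s : ℝ) / J + 2) * ((4 + C) * Real.log X ^ 2) =
          ((s : ℝ) / J + 2) * (4 * Real.log X ^ 2) + ((s : ℝ) / J + 2) * (C * Real.log X ^ 2) := by
        ring
      rw [h13]
      linarith

theorem thm_Ab (ha : St_Aa) (hG : St_GAl) : St_Ab := by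
  intro A
  obtain ⟨B₀, hB₀⟩ := ha (2 * A + 4)
  obtain ⟨c, C, hc, hC, hGA⟩ := hG
  refine ⟨max B₀ 1, fun B hB => ?_⟩
  have hB1 : B₀ ≤ B := le_trans (le_max_left _ _) hB
  have hB2 : 1 ≤ B := le_trans (le_max_right _ _) hB
  have hlog : Tendsto (fun X : ℕ => Real.log X) atTop atTop :=
    Real.tendsto_log_atTop.comp tendsto_natCast_atTop_atTop
  have e1 : ∀ᶠ X : ℕ in atTop, 4 * (4 + C) + 6 ≤ Real.log X := hlog.eventually_ge_atTop _
  have e2 : ∀ᶠ X : ℕ in atTop, 8 * (4 + C) * Real.log X ^ (A + 2) ≤ Real.sqrt X := by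
    have h := (Real.isLittleO_pow_log_id_atTop (n := 2 * (A + 2))).bound
      (c := 1 / (8 * (4 + C)) ^ 2) (by positivity)
    have h' := tendsto_natCast_atTop_atTop.eventually h
    filter_upwards [h', eventually_ge_atTop 1] with X hX hX1
    have hX1' : (1 : ℝ) ≤ X := by exact_mod_cast hX1
    have hL0 : 0 ≤ Real.log X := Real.log_nonneg hX1'
    apply Real.le_sqrt_of_sq_le
    rw [Real.norm_of_nonneg (by positivity), id_eq, Real.norm_of_nonneg (by positivity)] at hX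
    have hpos : (0 : ℝ) < (8 * (4 + C)) ^ 2 := by positivity
    calc (8 * (4 + C) * Real.log X ^ (A + 2)) ^ 2
        = (8 * (4 + C)) ^ 2 * Real.log X ^ (2 * (A + 2)) := by ring
      _ ≤ (8 * (4 + C)) ^ 2 * (1 / (8 * (4 + C)) ^ 2 * X) := by gcongr
      _ = X := by
        rw [← mul_assoc, mul_one_div_cancel hpos.ne', one_mul]
  have e3 : ∀ᶠ X : ℕ in atTop, Real.log X ^ B ≤ X := by
    have h := (Real.isLittleO_pow_log_id_atTop (n := B)).bound (c := 1) one_pos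
    have h' := tendsto_natCast_atTop_atTop.eventually h
    filter_upwards [h', eventually_ge_atTop 1] with X hX hX1
    have hX1' : (1 : ℝ) ≤ X := by exact_mod_cast hX1
    have hL0 : 0 ≤ Real.log X := Real.log_nonneg hX1'
    rw [Real.norm_of_nonneg (by positivity), id_eq, Real.norm_of_nonneg (by positivity),
      one_mul] at hX
    exact hX
  filter_upwards [hB₀ B hB1, e1, e2, e3, eventually_ge_atTop 2] with X hX h1 h2 h3 hX2
  have hXr : (2 : ℝ) ≤ X := by exact_mod_cast hX2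
  obtain ⟨L, hL⟩ : ∃ L, L = Real.log X := ⟨_, rfl⟩
  rw [← hL] at h1 h2 h3 hX ⊢
  have hL6 : 6 ≤ L := by linarith
  have hL1 : 1 ≤ L := by linarith
  have hLp : 0 < L := by linarith
  obtain ⟨s, hs⟩ : ∃ s, s = Nat.sqrt X := ⟨_, rfl⟩
  rw [← hs] at hX
  have hs1 : 1 ≤ s := by
    rw [hs]
    exact Nat.sqrt_pos.2 (by omega)
  have hssX : s * s ≤ X := by
    rw [hs]
    exact Nat.sqrt_le X
  have hsr : (s : ℝ) ≤ Real.sqrt X := by
    rw [hs]
    exact Real.nat_sqrt_le_real_sqrt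
  obtain ⟨J, hJ⟩ : ∃ J, J = ⌈L ^ (A + 3)⌉₊ := ⟨_, rfl⟩
  have hLA : 1 ≤ L ^ (A + 3) := one_le_pow₀ hL1
  have hJ1 : L ^ (A + 3) ≤ J := by
    rw [hJ]
    exact Nat.le_ceil _
  have hJ2 : (J : ℝ) < L ^ (A + 3) + 1 := by
    rw [hJ]
    exact Nat.ceil_lt_add_one (by positivity)
  have hJp : 1 ≤ J := by
    have : (1 : ℝ) ≤ J := le_trans hLA hJ1
    exact_mod_cast this
  have hz2 : 2 ≤ zz B X := by
    apply Nat.le_floor
    push_cast
    rw [← hL]
    calc (2 : ℝ) ≤ L ^ 1 := by linarith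
      _ ≤ L ^ B := pow_le_pow_right₀ hL1 hB2
  have hzL : Real.log (zz B X) ≤ L := by
    rw [hL]
    apply Real.log_le_log
    · have : 0 < zz B X := by omega
      exact_mod_cast this
    · refine le_trans (Nat.floor_le (by rw [← hL]; positivity)) ?_
      rw [← hL]
      exact h3
  have hz0 : 0 < Real.log (zz B X) := Real.log_pos (by exact_mod_cast (by omega : 1 < zz B X))
  have hg0 : ∀ n, 0 ≤ GA (zz B X) n := fun n =>
    le_trans (by positivity) (hGA (zz B X) n hz2).1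
  have hg1 : ∀ n, GA (zz B X) n ≤ C * Real.log X ^ 2 := fun n => by
    refine le_trans (hGA (zz B X) n hz2).2 ?_
    rw [← hL]
    gcongr
  have hone : ∀ n ∈ Icc 1 X,
      |∑ k ∈ Icc 1 (Nat.sqrt n), lam (n + k) * lam (n + k ^ 2) - Real.sqrt n * GA (zz B X) n| ≤
      (∑ j ∈ range (J + 1), |∑ k ∈ Icc 1 (j * s / J), lam (n + k) * lam (n + k ^ 2) -
        ((j * s / J : ℕ) : ℝ) * GA (zz B X) n|) +
      ((s : ℝ) / J + 2) * ((4 + C) * L ^ 2) := by
    intro n hn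
    rw [mem_Icc] at hn
    rw [hL]
    exact Ab_one X s J n B C hX2 hs1 hJp hn.2 (by rw [hs]; exact Nat.sqrt_le_sqrt hn.2) hssX hC
      (hg0 n) (hg1 n)
  refine le_trans (Finset.sum_le_sum hone) ?_
  rw [Finset.sum_add_distrib, Finset.sum_comm]
  have hK : ∀ j ∈ range (J + 1), ∑ n ∈ Icc 1 X,
      |∑ k ∈ Icc 1 (j * s / J), lam (n + k) * lam (n + k ^ 2) -
        ((j * s / J : ℕ) : ℝ) * GA (zz B X) n| ≤ X * Real.sqrt X / L ^ (2 * A + 4) := by
    intro j hj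
    rw [mem_range] at hj
    apply hX
    apply Nat.div_le_of_le_mul
    exact Nat.mul_le_mul_right s (by omega)
  have hS1 := Finset.sum_le_card_nsmul (range (J + 1)) _ _ hK
  rw [card_range, nsmul_eq_mul] at hS1
  refine le_trans (add_le_add_left hS1 _) ?_
  rw [Finset.sum_const, Nat.card_Icc, nsmul_eq_mul]
  have hX0 : (0 : ℝ) ≤ X := by positivity
  have hsq0 : 0 ≤ Real.sqrt X := Real.sqrt_nonneg _
  have hLA0 : (0 : ℝ) < L ^ A := by positivity
  -- first part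
  have p1 : ((J + 1 : ℕ) : ℝ) * (X * Real.sqrt X / L ^ (2 * A + 4)) ≤
      X * Real.sqrt X / L ^ A / 2 := by
    have q1 : ((J + 1 : ℕ) : ℝ) ≤ 3 * L ^ (A + 3) := by
      push_cast
      linarith
    have q2 : X * Real.sqrt X / L ^ (2 * A + 4) = X * Real.sqrt X / L ^ A / L ^ (A + 4) := by
      rw [div_div, ← pow_add]
      congr 2
      ring
    rw [q2]
    have q3 : 0 ≤ X * Real.sqrt X / L ^ A := by positivity
    calc ((J + 1 : ℕ) : ℝ) * (X * Real.sqrt X / L ^ A / L ^ (A + 4))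
        ≤ 3 * L ^ (A + 3) * (X * Real.sqrt X / L ^ A / L ^ (A + 4)) :=
          mul_le_mul_of_nonneg_right q1 (by positivity)
      _ = X * Real.sqrt X / L ^ A * (3 / L) := by
          rw [show A + 4 = (A + 3) + 1 by ring, pow_succ]
          field_simp
          ring
      _ ≤ X * Real.sqrt X / L ^ A * (1 / 2) := by
          apply mul_le_mul_of_nonneg_left _ q3
          rw [div_le_div_iff₀ hLp (by norm_num)]
          linarith
      _ = X * Real.sqrt X / L ^ A / 2 := by ring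
  -- second part
  have p2 : ((X + 1 - 1 : ℕ) : ℝ) * (((s : ℝ) / J + 2) * ((4 + C) * L ^ 2)) ≤
      X * Real.sqrt X / L ^ A / 2 := by
    rw [Nat.add_sub_cancel]
    have q1 : (s : ℝ) / J ≤ Real.sqrt X / L ^ (A + 3) := by
      apply div_le_div₀ hsq0 hsr (by positivity) hJ1
    have q2 : Real.sqrt X / L ^ (A + 3) * ((4 + C) * L ^ 2) ≤ Real.sqrt X / L ^ A / 4 := by
      have : Real.sqrt X / L ^ (A + 3) * ((4 + C) * L ^ 2) =
          Real.sqrt X / L ^ A * ((4 + C) / L) := by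
        rw [pow_add]
        field_simp
      rw [this, div_eq_mul_one_div (Real.sqrt X / L ^ A) 4]
      apply mul_le_mul_of_nonneg_left _ (by positivity)
      rw [div_le_div_iff₀ hLp (by norm_num)]
      linarith
    have q3 : 2 * ((4 + C) * L ^ 2) ≤ Real.sqrt X / L ^ A / 4 := by
      rw [div_div, le_div_iff₀ (by positivity)]
      calc 2 * ((4 + C) * L ^ 2) * (L ^ A * 4) = 8 * (4 + C) * L ^ (A + 2) := by
            rw [pow_add]
            ring
        _ ≤ Real.sqrt X := h2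
    have q4 : ((s : ℝ) / J + 2) * ((4 + C) * L ^ 2) ≤ Real.sqrt X / L ^ A / 2 := by
      have q5 : (s : ℝ) / J * ((4 + C) * L ^ 2) ≤ Real.sqrt X / L ^ (A + 3) * ((4 + C) * L ^ 2) :=
        mul_le_mul_of_nonneg_right q1 (by positivity)
      rw [add_mul]
      linarith
    calc (X : ℝ) * (((s : ℝ) / J + 2) * ((4 + C) * L ^ 2)) ≤ X * (Real.sqrt X / L ^ A / 2) :=
          mul_le_mul_of_nonneg_left q4 hX0
      _ = X * Real.sqrt X / L ^ A / 2 := by ring
  linarith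

end Pool.Agent.NRP
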