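import Pool.Agent.NRP.StI

set_option autoImplicit false

/-!
# NRP: algebra of the products over the vertices of a cube
-/

namespace Pool.Agent.NRP

open Finset
open Pool.Agent.GBQ (ee nd)
open scoped ComplexConjugate

theorem Alg_mul (m : ℕ) (g g' : (Fin m → ℤ) → ℂ) (k0 k1 : Fin m → ℤ) :
    cb m (fun k => g k * g' k) k0 k1 = cb m g k0 k1 * cb m g' k0 k1 := by
  induction m with
  | zero => rfl
  | succ m ih =>
    show cb m (fun k => (g (Fin.cons (k0 0) k) * g' (Fin.cons (k0 0) k)) *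
      conj (g (Fin.cons (k1 0) k) * g' (Fin.cons (k1 0) k))) (Fin.tail k0) (Fin.tail k1) =
      cb m (fun k => g (Fin.cons (k0 0) k) * conj (g (Fin.cons (k1 0) k)))
        (Fin.tail k0) (Fin.tail k1) *
      cb m (fun k => g' (Fin.cons (k0 0) k) * conj (g' (Fin.cons (k1 0) k)))
        (Fin.tail k0) (Fin.tail k1)
    rw [← ih]
    congr 1
    funext k
    rw [map_mul]
    ring

theorem Alg_conj (m : ℕ) (g : (Fin m → ℤ) → ℂ) (k0 k1 : Fin m → ℤ) :
    cb m (fun k => conj (g k)) k0 k1 = conj (cb m g k0 k1) := by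
  induction m with
  | zero => rfl
  | succ m ih =>
    show cb m (fun k => conj (g (Fin.cons (k0 0) k)) * conj (conj (g (Fin.cons (k1 0) k))))
      (Fin.tail k0) (Fin.tail k1) =
      conj (cb m (fun k => g (Fin.cons (k0 0) k) * conj (g (Fin.cons (k1 0) k)))
        (Fin.tail k0) (Fin.tail k1))
    rw [← ih]
    congr 1
    funext k
    rw [map_mul]

theorem Alg_shift (m : ℕ) (F : ℤ → ℂ) (t : ℤ) (k0 k1 : Fin m → ℤ) :
    cb m (fun k => F (t + ∑ i, k i)) k0 k1 = dls m (k1 - k0) F (t + ∑ i, k0 i) := by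
  induction m generalizing F t with
  | zero => rfl
  | succ m ih =>
    show cb m (fun k => F (t + ∑ i, (Fin.cons (k0 0) k : Fin (m + 1) → ℤ) i) *
      conj (F (t + ∑ i, (Fin.cons (k1 0) k : Fin (m + 1) → ℤ) i))) (Fin.tail k0) (Fin.tail k1) =
      dls m (Fin.tail (k1 - k0)) (dl ((k1 - k0) 0) F) (t + ∑ i, k0 i)
    have h1 : (fun k : Fin m → ℤ => F (t + ∑ i, (Fin.cons (k0 0) k : Fin (m + 1) → ℤ) i) *
        conj (F (t + ∑ i, (Fin.cons (k1 0) k : Fin (m + 1) → ℤ) i))) =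
        fun k : Fin m → ℤ => dl ((k1 - k0) 0) F ((t + k0 0) + ∑ i, k i) := by
      funext k
      unfold dl
      rw [Fin.sum_univ_succ, Fin.sum_univ_succ]
      simp only [Fin.cons_zero, Fin.cons_succ, Pi.sub_apply]
      have h2 : t + (k0 0 + ∑ i, k i) = t + k0 0 + ∑ i, k i := by ring
      have h3 : t + (k1 0 + ∑ i, k i) = t + k0 0 + ∑ i, k i + (k1 0 - k0 0) := by ring
      rw [h2, h3]
    rw [h1, ih (dl ((k1 - k0) 0) F) (t + k0 0) (Fin.tail k0) (Fin.tail k1), Fin.sum_univ_succ]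
    have h4 : t + (k0 0 + ∑ i : Fin m, k0 i.succ) = t + k0 0 + ∑ i, Fin.tail k0 i := by
      rw [add_assoc]
      rfl
    rw [h4]
    rfl

theorem Alg_ph (m : ℕ) (φ : (Fin m → ℤ) → ℝ) (x : ℝ) (k0 k1 : Fin m → ℤ) :
    cb m (fun k => ee (φ k * x)) k0 k1 = ee (dph m φ k0 k1 * x) := by
  induction m with
  | zero => rfl
  | succ m ih =>
    show cb m (fun k => ee (φ (Fin.cons (k0 0) k) * x) * conj (ee (φ (Fin.cons (k1 0) k) * x)))
      (Fin.tail k0) (Fin.tail k1) =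
      ee (dph m (fun k => φ (Fin.cons (k0 0) k) - φ (Fin.cons (k1 0) k))
        (Fin.tail k0) (Fin.tail k1) * x)
    rw [← ih]
    congr 1
    funext k
    rw [← Pool.Agent.GBQ.ee_neg, ← Pool.Agent.GBQ.ee_add]
    congr 1
    ring

theorem Alg_norm (m : ℕ) (g : (Fin m → ℤ) → ℂ) (k0 k1 : Fin m → ℤ) (hg : ∀ k, ‖g k‖ ≤ 1) :
    ‖cb m g k0 k1‖ ≤ 1 := by
  induction m with
  | zero => exact hg k0
  | succ m ih =>
    refine ih _ _ _ fun k => ?_
    rw [norm_mul, RCLike.norm_conj]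
    exact mul_le_one₀ (hg _) (norm_nonneg _) (hg _)

theorem Alg_zero (m : ℕ) (g : (Fin m → ℤ) → ℂ) (k0 k1 : Fin m → ℤ) (h : g k0 = 0 ∨ g k1 = 0) :
    cb m g k0 k1 = 0 := by
  induction m with
  | zero =>
    have h1 : k1 = k0 := Subsingleton.elim _ _
    rw [h1, or_self_iff] at h
    exact h
  | succ m ih =>
    refine ih _ _ _ ?_
    rcases h with h | h
    · left
      show g (Fin.cons (k0 0) (Fin.tail k0)) * conj (g (Fin.cons (k1 0) (Fin.tail k0))) = 0
      rw [Fin.cons_self_tail, h, zero_mul]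
    · right
      show g (Fin.cons (k0 0) (Fin.tail k1)) * conj (g (Fin.cons (k1 0) (Fin.tail k1))) = 0
      rw [Fin.cons_self_tail, h, map_zero, mul_zero]

/-- **Alg**: algebra of `cb`, `dls`, `dph`. -/
theorem thm_Alg : St_Alg :=
  ⟨Alg_mul, Alg_conj, Alg_shift, Alg_ph, Alg_norm, Alg_zero⟩

end Pool.Agent.NRP
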