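import Pool.Agent.NRP.StI

set_option autoImplicit false

/-!
# NRP: progressions along which the quadratic phase is constant (module Ap)
-/

namespace Pool.Agent.NRP

open Finset
open Pool.Agent.GBQ (ee nd)
open scoped ComplexConjugate

namespace Apx

theorem sum_Icc (a : ℤ → ℂ) (H : ℕ) : ∑ h ∈ Icc (1 : ℤ) H, a h = ∑ i ∈ range H, a (i + 1) := by
  induction H with
  | zero => simp
  | succ H ih =>
    have h1 : Icc (1 : ℤ) ((H + 1 : ℕ) : ℤ) = insert ((H : ℤ) + 1) (Icc (1 : ℤ) H) := by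
      ext x
      simp only [mem_Icc, mem_insert]
      push_cast
      omega
    rw [h1, sum_insert, ih, sum_range_succ, add_comm]
    simp only [mem_Icc, not_and, not_le]
    intro _
    omega

theorem shift_one (a : ℤ → ℂ) (ha : ∀ h, ‖a h‖ ≤ 1) (H : ℕ) :
    ‖∑ h ∈ Icc (1 : ℤ) H, a (h + 1) - ∑ h ∈ Icc (1 : ℤ) H, a h‖ ≤ 2 := by
  rw [sum_Icc, sum_Icc, ← sum_sub_distrib]
  have h1 : ∑ i ∈ range H, (a ((i : ℤ) + 1 + 1) - a ((i : ℤ) + 1)) = a ((H : ℤ) + 1) - a (0 + 1) := by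
    have := Finset.sum_range_sub (fun i : ℕ => a ((i : ℤ) + 1)) H
    simpa using this
  rw [h1]
  calc ‖a ((H : ℤ) + 1) - a (0 + 1)‖ ≤ ‖a ((H : ℤ) + 1)‖ + ‖a (0 + 1)‖ := norm_sub_le _ _
    _ ≤ 2 := by
        have := ha ((H : ℤ) + 1)
        have := ha (0 + 1)
        linarith

theorem shift_nat (a : ℤ → ℂ) (ha : ∀ h, ‖a h‖ ≤ 1) (H : ℕ) (t : ℕ) :
    ‖∑ h ∈ Icc (1 : ℤ) H, a (h + t) - ∑ h ∈ Icc (1 : ℤ) H, a h‖ ≤ 2 * t := by
  induction t with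
  | zero => simp
  | succ t ih =>
    have h1 := shift_one (fun h => a (h + t)) (fun h => ha _) H
    have h2 : ∀ h : ℤ, a (h + 1 + t) = a (h + ((t + 1 : ℕ) : ℤ)) := by
      intro h
      congr 1
      push_cast
      ring
    simp only [h2] at h1
    calc ‖∑ h ∈ Icc (1 : ℤ) H, a (h + ((t + 1 : ℕ) : ℤ)) - ∑ h ∈ Icc (1 : ℤ) H, a h‖
        = ‖(∑ h ∈ Icc (1 : ℤ) H, a (h + ((t + 1 : ℕ) : ℤ)) - ∑ h ∈ Icc (1 : ℤ) H, a (h + t)) +
          (∑ h ∈ Icc (1 : ℤ) H, a (h + t) - ∑ h ∈ Icc (1 : ℤ) H, a h)‖ := by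
          congr 1
          ring
      _ ≤ 2 + 2 * t := (norm_add_le _ _).trans (add_le_add h1 ih)
      _ = 2 * ((t + 1 : ℕ) : ℝ) := by
          push_cast
          ring

theorem card_Icc_one (L : ℕ) : ((Icc (1 : ℤ) L).card : ℝ) = L := by
  rw [Int.card_Icc]
  have : ((L : ℤ) + 1 - 1).toNat = L := by omega
  rw [this]

/-- averaging over shifts -/
theorem avg (a : ℤ → ℂ) (ha : ∀ h, ‖a h‖ ≤ 1) (H q L : ℕ) :
    (L : ℝ) * ‖∑ h ∈ Icc (1 : ℤ) H, a h‖ ≤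
      ∑ h ∈ Icc (1 : ℤ) H, ‖∑ y ∈ Icc (1 : ℤ) L, a (h + q * y)‖ + 2 * q * (L : ℝ) ^ 2 := by
  have h1 : ∀ y ∈ Icc (1 : ℤ) L, ‖∑ h ∈ Icc (1 : ℤ) H, a (h + q * y) - ∑ h ∈ Icc (1 : ℤ) H, a h‖ ≤
      2 * (q * L) := by
    intro y hy
    rw [mem_Icc] at hy
    obtain ⟨t, ht⟩ := Int.eq_ofNat_of_zero_le (show (0 : ℤ) ≤ q * y by
      have := hy.1
      positivity)
    have h2 := shift_nat a ha H t
    rw [← ht] at h2
    refine h2.trans ?_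
    have h3 : (t : ℤ) ≤ q * L := by
      rw [← ht]
      exact mul_le_mul_of_nonneg_left hy.2 (by positivity)
    have h4 : (t : ℝ) ≤ q * L := by exact_mod_cast h3
    linarith
  have h2 : (L : ℂ) * ∑ h ∈ Icc (1 : ℤ) H, a h =
      ∑ h ∈ Icc (1 : ℤ) H, ∑ y ∈ Icc (1 : ℤ) L, a (h + q * y) -
        ∑ y ∈ Icc (1 : ℤ) L, (∑ h ∈ Icc (1 : ℤ) H, a (h + q * y) - ∑ h ∈ Icc (1 : ℤ) H, a h) := by
    rw [sum_sub_distrib, sum_comm, sum_const, nsmul_eq_mul]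
    have : ((Icc (1 : ℤ) L).card : ℂ) = L := by
      exact_mod_cast card_Icc_one L
    rw [this]
    ring
  have h3 : (L : ℝ) * ‖∑ h ∈ Icc (1 : ℤ) H, a h‖ = ‖(L : ℂ) * ∑ h ∈ Icc (1 : ℤ) H, a h‖ := by
    rw [norm_mul, Complex.norm_natCast]
  rw [h3, h2]
  refine (norm_sub_le _ _).trans (add_le_add (norm_sum_le _ _) ?_)
  refine (norm_sum_le _ _).trans ((sum_le_sum h1).trans ?_)
  rw [sum_const, nsmul_eq_mul, card_Icc_one]
  apply le_of_eq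
  ring

theorem norm_ee_sub_one (x : ℝ) : ‖ee x - 1‖ ≤ 2 * Real.pi * |x| := by
  unfold ee
  rw [mul_comm]
  refine (Real.norm_exp_I_mul_ofReal_sub_one_le).trans ?_
  rw [Real.norm_eq_abs, abs_mul, abs_mul, abs_of_pos Real.pi_pos, abs_of_pos (by norm_num : (0 : ℝ) < 2)]

/-- integer multiples of a number near to an integer -/
theorem norm_ee_mul (θ : ℝ) (N : ℤ) : ‖ee (θ * N) - 1‖ ≤ 2 * Real.pi * (nd θ * |(N : ℝ)|) := by
  have h1 : ee (θ * N) = ee ((θ - round θ) * N) := by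
    rw [← GBQ.ee_add_int ((θ - round θ) * N) (round θ * N)]
    congr 1
    push_cast
    ring
  rw [h1]
  refine (norm_ee_sub_one _).trans (le_of_eq ?_)
  rw [abs_mul, nd]

theorem phase (α : ℝ) (c h0 y : ℤ) (q : ℕ) :
    ‖ee (α * (pp c (h0 + q * y) : ℤ)) - ee (α * (pp c h0 : ℤ))‖ ≤
      2 * Real.pi * (nd (q * α) * |((y * (2 * h0 + q * y + c) : ℤ) : ℝ)|) := by
  have h1 : α * (pp c (h0 + q * y) : ℤ) = α * (pp c h0 : ℤ) +
      (q * α) * ((y * (2 * h0 + q * y + c) : ℤ) : ℝ) := by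
    unfold pp
    push_cast
    ring
  rw [h1, GBQ.ee_add]
  have h2 : ee (α * (pp c h0 : ℤ)) * ee ((q * α) * ((y * (2 * h0 + q * y + c) : ℤ) : ℝ)) -
      ee (α * (pp c h0 : ℤ)) =
      ee (α * (pp c h0 : ℤ)) * (ee ((q * α) * ((y * (2 * h0 + q * y + c) : ℤ) : ℝ)) - 1) := by ring
  rw [h2, norm_mul, GBQ.ee_norm, one_mul]
  exact norm_ee_mul _ _

theorem supp_bd {A : ℕ} {f : ℤ → ℂ} (hf : Bd A f) {n : ℤ} (hn : n ∉ Icc (-(A : ℤ)) A) : f n = 0 := by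
  apply hf.2
  simp only [mem_Icc, not_and_or, not_le] at hn
  rcases hn with h | h
  · rw [abs_of_neg (by omega)]
    omega
  · exact lt_of_lt_of_le h (le_abs_self n)

theorem box_le (Φ : ℤ → ℝ) (h0 : ∀ n, 0 ≤ Φ n) (hs : Summable Φ) (I : Finset ℤ) (h : ℤ) :
    ∑ n ∈ I, Φ (n + h) ≤ ∑' n, Φ n := by
  have h6 : ∑' n : ℤ, Φ n = ∑' n : ℤ, Φ (n + h) := ((Equiv.addRight h).tsum_eq Φ).symm
  rw [h6]
  have h7 : Summable fun n : ℤ => Φ (n + h) := (Equiv.addRight h).summable_iff.2 hs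
  exact h7.sum_le_tsum I fun n _ => h0 _

theorem summ (A : ℕ) (f1 : ℤ → ℂ) (hf1 : Bd A f1) (q L : ℕ) :
    Summable fun n : ℤ => ‖∑ y ∈ Icc (1 : ℤ) L, f1 (n + q * y)‖ := by
  apply summable_of_finite_support
  refine ((Icc (1 : ℤ) L).finite_toSet.biUnion (t := fun y =>
    ((Icc (-(A : ℤ) - q * y) ((A : ℤ) - q * y) : Finset ℤ) : Set ℤ))
    (fun y _ => Finset.finite_toSet _)).subset ?_
  intro n hn
  by_contra hne
  apply hn
  show ‖∑ y ∈ Icc (1 : ℤ) L, f1 (n + q * y)‖ = 0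
  rw [norm_eq_zero]
  apply sum_eq_zero
  intro y hy
  apply supp_bd hf1
  intro hm
  apply hne
  simp only [Set.mem_iUnion]
  refine ⟨y, hy, ?_⟩
  rw [mem_Icc] at hm
  rw [Finset.mem_coe, mem_Icc]
  constructor <;> linarith [hm.1, hm.2]

/-- the main inequality -/
theorem main_ineq (K H q L : ℕ) (c : ℤ) (f0 f1 : ℤ → ℂ) (hf0 : Bd (K * H ^ 2) f0)
    (hf1 : Bd (K * H ^ 2) f1) (α ε : ℝ)
    (hε : ∀ h ∈ Icc (1 : ℤ) H, ∀ y ∈ Icc (1 : ℤ) L,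
      ‖ee (α * (pp c (h + q * y) : ℤ)) - ee (α * (pp c h : ℤ))‖ ≤ ε) :
    (L : ℝ) * ‖TT c H f0 f1 (fun n => ee (α * n))‖ ≤
      H * ∑' n : ℤ, ‖∑ y ∈ Icc (1 : ℤ) L, f1 (n + q * y)‖ +
        (2 * (K * H ^ 2) + 1) * (H * (L * ε) + 2 * q * (L : ℝ) ^ 2) := by
  set I := Icc (-((K * H ^ 2 : ℕ) : ℤ)) ((K * H ^ 2 : ℕ) : ℤ) with hI
  have hcard : (I.card : ℝ) = 2 * (K * H ^ 2) + 1 := by
    rw [hI, Int.card_Icc]
    have : (((K * H ^ 2 : ℕ) : ℤ) + 1 - -((K * H ^ 2 : ℕ) : ℤ)).toNat = 2 * (K * H ^ 2) + 1 := by omega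
    rw [this]
    push_cast
    ring
  have hsupp : ∀ n ∉ I, f0 n = 0 := fun n hn => supp_bd hf0 hn
  have h1 : TT c H f0 f1 (fun n => ee (α * n)) = ∑ n ∈ I, f0 n * ee (α * n) *
      ∑ h ∈ Icc (1 : ℤ) H, f1 (n + h) * ee (α * (pp c h : ℤ)) := by
    unfold TT
    have h2 : ∀ h : ℤ, ∑' n : ℤ, f0 n * f1 (n + h) * ee (α * ((n + pp c h : ℤ) : ℝ)) =
        ∑ n ∈ I, f0 n * ee (α * n) * (f1 (n + h) * ee (α * (pp c h : ℤ))) := by
      intro h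
      rw [tsum_eq_sum (s := I) (fun n hn => by rw [hsupp n hn, zero_mul, zero_mul])]
      refine sum_congr rfl fun n _ => ?_
      have : α * ((n + pp c h : ℤ) : ℝ) = α * n + α * (pp c h : ℤ) := by
        push_cast
        ring
      rw [this, GBQ.ee_add]
      ring
    rw [sum_congr rfl fun h _ => h2 h, sum_comm]
    refine sum_congr rfl fun n _ => ?_
    rw [mul_sum]
  have h2 : ‖TT c H f0 f1 (fun n => ee (α * n))‖ ≤
      ∑ n ∈ I, ‖∑ h ∈ Icc (1 : ℤ) H, f1 (n + h) * ee (α * (pp c h : ℤ))‖ := by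
    rw [h1]
    refine (norm_sum_le _ _).trans (sum_le_sum fun n _ => ?_)
    rw [norm_mul, norm_mul, GBQ.ee_norm, mul_one]
    calc ‖f0 n‖ * _ ≤ 1 * _ := mul_le_mul_of_nonneg_right (hf0.1 n) (norm_nonneg _)
      _ = _ := one_mul _
  have h3 : ∀ n : ℤ, (L : ℝ) * ‖∑ h ∈ Icc (1 : ℤ) H, f1 (n + h) * ee (α * (pp c h : ℤ))‖ ≤
      ∑ h ∈ Icc (1 : ℤ) H, ‖∑ y ∈ Icc (1 : ℤ) L, f1 (n + h + q * y)‖ +
        (H * (L * ε) + 2 * q * (L : ℝ) ^ 2) := by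
    intro n
    have h4 := avg (fun h => f1 (n + h) * ee (α * (pp c h : ℤ))) (fun h => by
      rw [norm_mul, GBQ.ee_norm, mul_one]
      exact hf1.1 _) H q L
    have h5 : ∀ h ∈ Icc (1 : ℤ) H,
        ‖∑ y ∈ Icc (1 : ℤ) L, f1 (n + (h + q * y)) * ee (α * (pp c (h + q * y) : ℤ))‖ ≤
        ‖∑ y ∈ Icc (1 : ℤ) L, f1 (n + h + q * y)‖ + L * ε := by
      intro h hh
      have h6 : ∑ y ∈ Icc (1 : ℤ) L, f1 (n + (h + q * y)) * ee (α * (pp c (h + q * y) : ℤ)) =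
          ee (α * (pp c h : ℤ)) * ∑ y ∈ Icc (1 : ℤ) L, f1 (n + h + q * y) +
          ∑ y ∈ Icc (1 : ℤ) L, f1 (n + h + q * y) *
            (ee (α * (pp c (h + q * y) : ℤ)) - ee (α * (pp c h : ℤ))) := by
        rw [mul_sum, ← sum_add_distrib]
        refine sum_congr rfl fun y _ => ?_
        rw [← add_assoc]
        ring
      rw [h6]
      refine (norm_add_le _ _).trans (add_le_add ?_ ?_)
      · rw [norm_mul, GBQ.ee_norm, one_mul]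
      · refine (norm_sum_le _ _).trans ?_
        have h7 : ∀ y ∈ Icc (1 : ℤ) L, ‖f1 (n + h + q * y) *
            (ee (α * (pp c (h + q * y) : ℤ)) - ee (α * (pp c h : ℤ)))‖ ≤ ε := by
          intro y hy
          rw [norm_mul]
          calc ‖f1 (n + h + q * y)‖ * _ ≤ 1 * _ :=
                mul_le_mul_of_nonneg_right (hf1.1 _) (norm_nonneg _)
            _ ≤ ε := by
                rw [one_mul]
                exact hε h hh y hy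
        refine (sum_le_sum h7).trans ?_
        rw [sum_const, nsmul_eq_mul, card_Icc_one]
    refine h4.trans ?_
    have h8 := sum_le_sum h5
    rw [sum_add_distrib, sum_const, nsmul_eq_mul, card_Icc_one] at h8
    linarith
  have hsumm := summ (K * H ^ 2) f1 hf1 q L
  have h4 : ∑ n ∈ I, ∑ h ∈ Icc (1 : ℤ) H, ‖∑ y ∈ Icc (1 : ℤ) L, f1 (n + h + q * y)‖ ≤
      H * ∑' n : ℤ, ‖∑ y ∈ Icc (1 : ℤ) L, f1 (n + q * y)‖ := by
    rw [sum_comm]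
    have h5 : ∀ h ∈ Icc (1 : ℤ) H, ∑ n ∈ I, ‖∑ y ∈ Icc (1 : ℤ) L, f1 (n + h + q * y)‖ ≤
        ∑' n : ℤ, ‖∑ y ∈ Icc (1 : ℤ) L, f1 (n + q * y)‖ := fun h _ =>
      box_le (fun n => ‖∑ y ∈ Icc (1 : ℤ) L, f1 (n + q * y)‖) (fun n => norm_nonneg _) hsumm I h
    refine (sum_le_sum h5).trans ?_
    rw [sum_const, nsmul_eq_mul, card_Icc_one]
  calc (L : ℝ) * ‖TT c H f0 f1 (fun n => ee (α * n))‖
      ≤ L * ∑ n ∈ I, ‖∑ h ∈ Icc (1 : ℤ) H, f1 (n + h) * ee (α * (pp c h : ℤ))‖ :=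
        mul_le_mul_of_nonneg_left h2 (by positivity)
    _ = ∑ n ∈ I, L * ‖∑ h ∈ Icc (1 : ℤ) H, f1 (n + h) * ee (α * (pp c h : ℤ))‖ := mul_sum _ _ _
    _ ≤ ∑ n ∈ I, (∑ h ∈ Icc (1 : ℤ) H, ‖∑ y ∈ Icc (1 : ℤ) L, f1 (n + h + q * y)‖ +
        (H * (L * ε) + 2 * q * (L : ℝ) ^ 2)) := sum_le_sum fun n _ => h3 n
    _ = ∑ n ∈ I, ∑ h ∈ Icc (1 : ℤ) H, ‖∑ y ∈ Icc (1 : ℤ) L, f1 (n + h + q * y)‖ +
        (2 * (K * H ^ 2) + 1) * (H * (L * ε) + 2 * q * (L : ℝ) ^ 2) := by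
        rw [sum_add_distrib, sum_const, nsmul_eq_mul, hcard]
    _ ≤ _ := by linarith

end Apx

open Apx

theorem thm_Ap : St_Ap := by
  intro K C0
  refine ⟨2 * C0 + 56 * (2 * K + 1), ?_⟩
  intro H δ hR c hc f0 f1 hf0 hf1 α q hq1 hq hnd hT L hL1 hL
  obtain ⟨hδ0, hδ2, -, hH⟩ := hR
  set C1 := 56 * (2 * K + 1) with hC1
  have hδ1 : δ ≤ 1 := by linarith
  -- small powers
  have hpow1 : δ ^ (2 * C0 + C1) ≤ δ ^ C0 := pow_le_pow_of_le_one hδ0.le hδ1 (by omega)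
  have hle1 : δ ^ (2 * C0 + C1) ≤ 1 := pow_le_one₀ hδ0.le hδ1
  have hHpos : (0 : ℝ) < H := by
    by_contra h0
    have : (H : ℝ) = 0 := le_antisymm (not_lt.1 h0) (by positivity)
    rw [this, mul_zero] at hH
    linarith
  have hH1 : (1 : ℝ) ≤ H := by
    have : 0 < H := by exact_mod_cast hHpos
    exact_mod_cast this
  have hLpos : (0 : ℝ) < L := by
    have : 0 < L := hL1
    exact_mod_cast this
  have hD : 0 < δ ^ C0 := by positivity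
  have hE : 0 < δ ^ C1 := by positivity
  have hPD : (1 / δ) ^ C0 * δ ^ C0 = 1 := by
    rw [← mul_pow, one_div_mul_cancel hδ0.ne', one_pow]
  set P := (1 / δ) ^ C0 with hP
  have hP0 : 0 < P := by positivity
  have hsplit : δ ^ (2 * C0 + C1) = δ ^ C0 * δ ^ C0 * δ ^ C1 := by
    rw [pow_add, two_mul, pow_add]
  -- `56 (2K+1) δ^C1 ≤ 1`
  have hC1' : (C1 : ℝ) * δ ^ C1 ≤ 1 := by
    have h1 : δ ^ C1 ≤ (1 / 2 : ℝ) ^ C1 := pow_le_pow_left₀ hδ0.le hδ2 _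
    have h2 : (C1 : ℝ) ≤ 2 ^ C1 := by exact_mod_cast (Nat.lt_two_pow_self).le
    calc (C1 : ℝ) * δ ^ C1 ≤ 2 ^ C1 * (1 / 2 : ℝ) ^ C1 := by
          exact mul_le_mul h2 h1 hE.le (by positivity)
      _ = 1 := by
          rw [← mul_pow]
          norm_num
  have hKC : (C1 : ℝ) = 56 * (2 * K + 1) := by
    rw [hC1]
    push_cast
    ring
  -- `P L ≤ δ^C0 δ^C1 H`
  have hPL : P * L ≤ δ ^ C0 * δ ^ C1 * H := by
    calc P * L ≤ P * (δ ^ (2 * C0 + C1) * H) := mul_le_mul_of_nonneg_left hL hP0.le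
      _ = (P * δ ^ C0) * (δ ^ C0 * δ ^ C1 * H) := by
          rw [hsplit]
          ring
      _ = _ := by rw [hPD, one_mul]
  have hqL : (q : ℝ) * L ≤ H := by
    have h1 : (q : ℝ) * L ≤ P * L := mul_le_mul_of_nonneg_right hq hLpos.le
    have h2 : δ ^ C0 * δ ^ C1 ≤ 1 := mul_le_one₀ (pow_le_one₀ hδ0.le hδ1) hE.le (pow_le_one₀ hδ0.le hδ1)
    have h3 : δ ^ C0 * δ ^ C1 * H ≤ 1 * H := mul_le_mul_of_nonneg_right h2 hHpos.le
    linarith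
  -- the phase
  have hpi : Real.pi ≤ 3.15 := Real.pi_lt_d2.le
  have hε : ∀ h ∈ Icc (1 : ℤ) H, ∀ y ∈ Icc (1 : ℤ) L,
      ‖ee (α * (pp c (h + q * y) : ℤ)) - ee (α * (pp c h : ℤ))‖ ≤ 26 * (P * L / H) := by
    intro h hh y hy
    refine (phase α c h y q).trans ?_
    rw [mem_Icc] at hh hy
    have hy1 : (1 : ℝ) ≤ y := by exact_mod_cast hy.1
    have hy2 : (y : ℝ) ≤ L := by exact_mod_cast hy.2
    have hh1 : (1 : ℝ) ≤ h := by exact_mod_cast hh.1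
    have hh2 : (h : ℝ) ≤ H := by exact_mod_cast hh.2
    have hc0 : (0 : ℝ) ≤ c := by
      rcases hc with rfl | rfl <;> norm_num
    have hc1 : (c : ℝ) ≤ 1 := by
      rcases hc with rfl | rfl <;> norm_num
    have hqy : (q : ℝ) * y ≤ H := (mul_le_mul_of_nonneg_left hy2 (by positivity)).trans hqL
    have hqy0 : (0 : ℝ) ≤ q * y := by positivity
    have h1 : |((y * (2 * h + q * y + c) : ℤ) : ℝ)| ≤ L * (4 * H) := by
      push_cast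
      rw [abs_of_nonneg (mul_nonneg (by linarith) (by linarith))]
      exact mul_le_mul hy2 (by linarith) (by linarith) hLpos.le
    have h2 : 0 ≤ nd (q * α) := abs_nonneg _
    have h3 : nd (q * α) * |((y * (2 * h + q * y + c) : ℤ) : ℝ)| ≤ (P / (H : ℝ) ^ 2) * (L * (4 * H)) :=
      mul_le_mul hnd h1 (abs_nonneg _) (by positivity)
    have h4 : (P / (H : ℝ) ^ 2) * (L * (4 * H)) = 4 * (P * L / H) := by
      field_simp
    rw [h4] at h3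
    have h5 : 0 ≤ P * L / H := by positivity
    calc 2 * Real.pi * (nd (q * α) * |((y * (2 * h + q * y + c) : ℤ) : ℝ)|)
        ≤ 2 * Real.pi * (4 * (P * L / H)) := mul_le_mul_of_nonneg_left h3 (by positivity)
      _ ≤ 26 * (P * L / H) := by nlinarith
  have hmain := main_ineq K H q L c f0 f1 hf0 hf1 α _ hε
  set Sg := ∑' n : ℤ, ‖∑ y ∈ Icc (1 : ℤ) L, f1 (n + q * y)‖ with hSg
  -- the error
  have herr : (2 * (K * (H : ℝ) ^ 2) + 1) * (H * (L * (26 * (P * L / H))) + 2 * q * (L : ℝ) ^ 2) ≤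
      (1 / 2) * (δ ^ C0 * (H : ℝ) ^ 3 * L) := by
    have e1 : H * (L * (26 * (P * L / H))) = 26 * (P * (L : ℝ) ^ 2) := by
      field_simp
    have e2 : 2 * q * (L : ℝ) ^ 2 ≤ 2 * (P * (L : ℝ) ^ 2) := by
      have := mul_le_mul_of_nonneg_right hq (by positivity : (0 : ℝ) ≤ (L : ℝ) ^ 2)
      linarith
    have e3 : 2 * (K * (H : ℝ) ^ 2) + 1 ≤ (2 * K + 1) * (H : ℝ) ^ 2 := by
      have : (1 : ℝ) ≤ (H : ℝ) ^ 2 := one_le_pow₀ hH1
      linarith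
    have e4 : P * (L : ℝ) ^ 2 ≤ δ ^ C0 * δ ^ C1 * H * L := by
      have := mul_le_mul_of_nonneg_right hPL hLpos.le
      calc P * (L : ℝ) ^ 2 = P * L * L := by ring
        _ ≤ _ := this
    calc (2 * (K * (H : ℝ) ^ 2) + 1) * (H * (L * (26 * (P * L / H))) + 2 * q * (L : ℝ) ^ 2)
        ≤ ((2 * K + 1) * (H : ℝ) ^ 2) * (28 * (δ ^ C0 * δ ^ C1 * H * L)) := by
          refine mul_le_mul e3 ?_ (by positivity) (by positivity)
          rw [e1]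
          linarith
      _ = (1 / 2) * ((C1 * δ ^ C1) * (δ ^ C0 * (H : ℝ) ^ 3 * L)) := by
          rw [hKC]
          ring
      _ ≤ (1 / 2) * (1 * (δ ^ C0 * (H : ℝ) ^ 3 * L)) := by
          refine mul_le_mul_of_nonneg_left ?_ (by norm_num)
          exact mul_le_mul_of_nonneg_right hC1' (by positivity)
      _ = _ := by ring
  have hlow : δ ^ C0 * (H : ℝ) ^ 3 * L ≤ L * ‖TT c H f0 f1 (fun n => ee (α * n))‖ := by
    rw [mul_comm]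
    exact mul_le_mul_of_nonneg_left hT hLpos.le
  have hfin : (1 / 2) * (δ ^ C0 * (H : ℝ) ^ 3 * L) ≤ H * Sg := by linarith
  have hfin2 : (1 / 2) * (δ ^ C0 * (H : ℝ) ^ 2 * L) ≤ Sg := by
    have h1 : H * ((1 / 2) * (δ ^ C0 * (H : ℝ) ^ 2 * L)) ≤ H * Sg := by
      calc H * ((1 / 2) * (δ ^ C0 * (H : ℝ) ^ 2 * L)) = (1 / 2) * (δ ^ C0 * (H : ℝ) ^ 3 * L) := by ring
        _ ≤ _ := hfin
    exact le_of_mul_le_mul_left h1 hHpos
  have hpow2 : δ ^ (2 * C0 + C1) ≤ (1 / 2) * δ ^ C0 := by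
    calc δ ^ (2 * C0 + C1) ≤ δ ^ (C0 + 1) := pow_le_pow_of_le_one hδ0.le hδ1 (by omega)
      _ = δ ^ C0 * δ := pow_succ _ _
      _ ≤ δ ^ C0 * (1 / 2) := mul_le_mul_of_nonneg_left hδ2 hD.le
      _ = _ := by ring
  calc δ ^ (2 * C0 + C1) * (H : ℝ) ^ 2 * L ≤ ((1 / 2) * δ ^ C0) * (H : ℝ) ^ 2 * L := by
        refine mul_le_mul_of_nonneg_right ?_ hLpos.le
        exact mul_le_mul_of_nonneg_right hpow2 (by positivity)
    _ = (1 / 2) * (δ ^ C0 * (H : ℝ) ^ 2 * L) := by ring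
    _ ≤ _ := hfin2

end Pool.Agent.NRP
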