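import Pool.Agent.NRP.StI

set_option autoImplicit false

/-!
# NRP, module Bad: few bad triples
-/

namespace Pool.Agent.NRP

open Finset

private theorem Bad_gcd {κ : ℝ} {H : ℕ} (hκ : 0 < κ) {u v : ℤ}
    (h1 : κ * H < max |(u : ℝ)| |(v : ℝ)|) (h2 : ¬ Gd κ H u v) : 1 / κ < (Int.gcd u v : ℝ) := by
  by_contra h3
  push Not at h3
  apply h2
  constructor
  · by_contra h4
    push Not at h4
    rw [h4.1, h4.2] at h1
    simp only [Int.cast_zero, abs_zero, max_self] at h1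
    have : 0 ≤ κ * (H : ℝ) := by positivity
    linarith
  · have h4 : κ ^ 2 * H * (Int.gcd u v : ℝ) ≤ κ ^ 2 * H * (1 / κ) := by gcongr
    have h5 : κ ^ 2 * H * (1 / κ) = κ * H := by field_simp
    linarith

private theorem Bad_card (R : ℕ) : ((Icc (-(R : ℤ)) R).card : ℝ) = 2 * R + 1 := by
  rw [Int.card_Icc]
  have h1 : ((R : ℤ) + 1 - -(R : ℤ)).toNat = 2 * R + 1 := by omega
  rw [h1]
  push_cast
  ring

open Classical in
/-- The bad pairs in `[-2H, 2H]²`. -/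
private theorem Bad_pairs (H : ℕ) (κ : ℝ) (hκ : 0 < κ) (hκ1 : κ ≤ 1) (hH : 1 ≤ κ * H) :
    (((sqr (2 * H)).filter fun x => ¬ Gd κ H x.1 x.2).card : ℝ) ≤ 81 * κ * (H : ℝ) ^ 2 := by
  set a : ℕ := ⌊κ * H⌋₊ with ha
  set k : ℕ := ⌊1 / κ⌋₊ with hk
  set A : Finset (ℤ × ℤ) := Icc (-(a : ℤ)) a ×ˢ Icc (-(a : ℤ)) a with hA
  let Q : ℕ → Finset (ℤ × ℤ) := fun g =>
    (Icc (-((2 * H / g : ℕ) : ℤ)) ((2 * H / g : ℕ) : ℤ) ×ˢ
      Icc (-((2 * H / g : ℕ) : ℤ)) ((2 * H / g : ℕ) : ℤ)).image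
        fun x => ((g : ℤ) * x.1, (g : ℤ) * x.2)
  have hsub : ((sqr (2 * H)).filter fun x => ¬ Gd κ H x.1 x.2) ⊆
      A ∪ (Ioo k (2 * H + 1)).biUnion Q := by
    rintro ⟨u, v⟩ hx
    rw [mem_filter, sqr, mem_product] at hx
    obtain ⟨⟨hu, hv⟩, hbad⟩ := hx
    simp only at hu hv hbad
    rw [mem_Icc] at hu hv
    rw [mem_union]
    rcases le_or_gt (max |(u : ℝ)| |(v : ℝ)|) (κ * H) with h1 | h1
    · left
      have key : ∀ w : ℤ, |(w : ℝ)| ≤ κ * H → w ∈ Icc (-(a : ℤ)) a := by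
        intro w hw
        have h2 : ((w.natAbs : ℕ) : ℝ) ≤ κ * H := by
          rw [Nat.cast_natAbs, Int.cast_abs]
          exact hw
        have h3 : w.natAbs ≤ a := Nat.le_floor h2
        rw [mem_Icc]
        omega
      rw [hA, mem_product]
      exact ⟨key u ((le_max_left _ _).trans h1), key v ((le_max_right _ _).trans h1)⟩
    · right
      have h2 := Bad_gcd hκ h1 hbad
      have h3 : k < Int.gcd u v := by
        rw [hk]
        exact (Nat.floor_lt (by positivity)).2 h2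
      have hg0 : 0 < Int.gcd u v := by omega
      have hne : u ≠ 0 ∨ v ≠ 0 := by
        by_contra h4
        push Not at h4
        rw [h4.1, h4.2] at hg0
        simp at hg0
      have hdu : ((Int.gcd u v : ℕ) : ℤ) ∣ u := Int.gcd_dvd_left ..
      have hdv : ((Int.gcd u v : ℕ) : ℤ) ∣ v := Int.gcd_dvd_right ..
      have hle : Int.gcd u v ≤ 2 * H := by
        rcases hne with h4 | h4
        · have h5 := Int.natAbs_dvd_natAbs.2 hdu
          have h6 := Nat.le_of_dvd (Int.natAbs_pos.2 h4) h5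
          rw [Int.natAbs_natCast] at h6
          omega
        · have h5 := Int.natAbs_dvd_natAbs.2 hdv
          have h6 := Nat.le_of_dvd (Int.natAbs_pos.2 h4) h5
          rw [Int.natAbs_natCast] at h6
          omega
      rw [mem_biUnion]
      refine ⟨Int.gcd u v, ?_, ?_⟩
      · rw [mem_Ioo]
        omega
      · obtain ⟨i, hi⟩ := hdu
        obtain ⟨j, hj⟩ := hdv
        have key : ∀ w i : ℤ, -((2 * H : ℕ) : ℤ) ≤ w → w ≤ ((2 * H : ℕ) : ℤ) →
            w = ((Int.gcd u v : ℕ) : ℤ) * i →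
            i ∈ Icc (-((2 * H / Int.gcd u v : ℕ) : ℤ)) ((2 * H / Int.gcd u v : ℕ) : ℤ) := by
          intro w i hw1 hw2 hw
          have h5 : w.natAbs ≤ 2 * H := by omega
          have h6 : Int.gcd u v * i.natAbs ≤ 2 * H := by
            rw [hw, Int.natAbs_mul, Int.natAbs_natCast] at h5
            exact h5
          have h7 : i.natAbs ≤ 2 * H / Int.gcd u v := by
            rw [Nat.le_div_iff_mul_le hg0, mul_comm]
            exact h6
          rw [mem_Icc]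
          omega
        show (u, v) ∈ Q (Int.gcd u v)
        rw [mem_image]
        refine ⟨(i, j), ?_, ?_⟩
        · rw [mem_product]
          exact ⟨key u i hu.1 hu.2 hi, key v j hv.1 hv.2 hj⟩
        · rw [Prod.mk.injEq]
          exact ⟨hi.symm, hj.symm⟩
  have hHr : (0 : ℝ) < H := by
    by_contra h1
    push Not at h1
    have : κ * (H : ℝ) ≤ 0 := mul_nonpos_of_nonneg_of_nonpos hκ.le h1
    linarith
  have hcA : (A.card : ℝ) ≤ 9 * κ * (H : ℝ) ^ 2 := by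
    rw [hA, card_product, Nat.cast_mul, Bad_card]
    have h1 : (a : ℝ) ≤ κ * H := Nat.floor_le (by positivity)
    have h2 : 2 * (a : ℝ) + 1 ≤ 3 * (κ * H) := by linarith
    have h3 : (0 : ℝ) ≤ 2 * (a : ℝ) + 1 := by positivity
    calc (2 * (a : ℝ) + 1) * (2 * a + 1) ≤ (3 * (κ * H)) * (3 * (κ * H)) :=
          mul_le_mul h2 h2 h3 (by positivity)
      _ = 9 * κ * (H : ℝ) ^ 2 * κ := by ring
      _ ≤ 9 * κ * (H : ℝ) ^ 2 * 1 := by gcongr
      _ = _ := by ring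
  have hcQ : ∀ g ∈ Ioo k (2 * H + 1), ((Q g).card : ℝ) ≤ 36 * (H : ℝ) ^ 2 * ((g : ℝ) ^ 2)⁻¹ := by
    intro g hg
    rw [mem_Ioo] at hg
    have hg0 : (0 : ℝ) < g := by
      have : 0 < g := by omega
      exact_mod_cast this
    have h1 : ((Q g).card : ℝ) ≤
        (2 * ((2 * H / g : ℕ) : ℝ) + 1) * (2 * ((2 * H / g : ℕ) : ℝ) + 1) := by
      have h2 : (Q g).card ≤ _ := card_image_le
      rw [card_product] at h2
      have h3 : ((Q g).card : ℝ) ≤ _ := Nat.cast_le.2 h2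
      rw [Nat.cast_mul, Bad_card] at h3
      exact h3
    have h2 : ((2 * H / g : ℕ) : ℝ) ≤ 2 * H / g := by
      have h3 : ((2 * H / g : ℕ) : ℝ) ≤ ((2 * H : ℕ) : ℝ) / (g : ℝ) := Nat.cast_div_le
      push_cast at h3
      exact h3
    have h3 : (1 : ℝ) ≤ 2 * H / g := by
      rw [le_div_iff₀ hg0, one_mul]
      have h4 : g ≤ 2 * H := by omega
      exact_mod_cast h4
    have h4 : 2 * ((2 * H / g : ℕ) : ℝ) + 1 ≤ 6 * (H / g) := by
      have h5 : 2 * (H : ℝ) / g = 2 * (H / g) := by ring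
      rw [h5] at h2 h3
      linarith
    have h5 : (0 : ℝ) ≤ 2 * ((2 * H / g : ℕ) : ℝ) + 1 := by positivity
    refine h1.trans ((mul_le_mul h4 h4 h5 (by positivity)).trans (le_of_eq ?_))
    field_simp
    ring
  have hcB : (((Ioo k (2 * H + 1)).biUnion Q).card : ℝ) ≤ 72 * κ * (H : ℝ) ^ 2 := by
    have h1 : (((Ioo k (2 * H + 1)).biUnion Q).card : ℝ) ≤
        ∑ g ∈ Ioo k (2 * H + 1), ((Q g).card : ℝ) := by
      rw [← Nat.cast_sum]
      exact Nat.cast_le.2 card_biUnion_le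
    refine h1.trans ((sum_le_sum hcQ).trans ?_)
    rw [← mul_sum]
    have h2 : ∑ g ∈ Ioo k (2 * H + 1), ((g : ℝ) ^ 2)⁻¹ ≤ 2 / (k + 1) := sum_Ioo_inv_sq_le k _
    have h3 : (2 : ℝ) / (k + 1) ≤ 2 * κ := by
      have h4 : 1 / κ < (k : ℝ) + 1 := Nat.lt_floor_add_one _
      have h5 : (0 : ℝ) < (k : ℝ) + 1 := by positivity
      rw [div_le_iff₀ h5]
      rw [div_lt_iff₀ hκ] at h4
      nlinarith
    calc 36 * (H : ℝ) ^ 2 * ∑ g ∈ Ioo k (2 * H + 1), ((g : ℝ) ^ 2)⁻¹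
        ≤ 36 * (H : ℝ) ^ 2 * (2 * κ) := by
          gcongr
          exact h2.trans h3
      _ = _ := by ring
  have h1 : (((sqr (2 * H)).filter fun x => ¬ Gd κ H x.1 x.2).card : ℝ) ≤
      A.card + ((Ioo k (2 * H + 1)).biUnion Q).card := by
    rw [← Nat.cast_add]
    exact Nat.cast_le.2 ((card_le_card hsub).trans (card_union_le _ _))
  linarith

theorem thm_Bad : St_Bad := by
  classical
  intro H κ hκ hκ1 hH
  have hHr : (0 : ℝ) < H := by
    by_contra h1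
    push Not at h1
    have : κ * (H : ℝ) ≤ 0 := mul_nonpos_of_nonneg_of_nonpos hκ.le h1
    linarith
  have hH1 : (1 : ℝ) ≤ H := by
    have h1 : 0 < H := by exact_mod_cast hHr
    exact_mod_cast h1
  set P : Finset (ℤ × ℤ) := (sqr (2 * H)).filter fun x => ¬ Gd κ H x.1 x.2 with hP
  set T : Finset ℤ := Icc (-(H : ℤ)) H with hT
  have hmem : ∀ u v : ℤ, -(2 * (H : ℤ)) ≤ u → u ≤ 2 * H → -(2 * (H : ℤ)) ≤ v → v ≤ 2 * H →
      ¬ Gd κ H u v → (u, v) ∈ P := by
    intro u v h1 h2 h3 h4 h5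
    rw [hP, mem_filter, sqr, mem_product]
    refine ⟨⟨?_, ?_⟩, h5⟩
    · rw [mem_Icc]
      push_cast
      exact ⟨h1, h2⟩
    · rw [mem_Icc]
      push_cast
      exact ⟨h3, h4⟩
  set D : Finset ((ℤ × ℤ) × ℤ) := P ×ˢ T with hD
  let m1 : (ℤ × ℤ) × ℤ → ℤ × ℤ × ℤ := fun x => (x.1.1, x.1.2, x.2)
  let m2 : (ℤ × ℤ) × ℤ → ℤ × ℤ × ℤ := fun x => (x.1.1 - x.1.2, x.2, x.1.2)
  let m3 : (ℤ × ℤ) × ℤ → ℤ × ℤ × ℤ := fun x => (x.2, x.1.2 - x.1.1, x.1.1)
  let m4 : (ℤ × ℤ) × ℤ → ℤ × ℤ × ℤ := fun x => (x.1.1 - x.2, x.1.2 - x.2, x.2)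
  have hsub : {x : ℤ × ℤ × ℤ | x.1 ∈ Icc (-(H : ℤ)) H ∧ x.2.1 ∈ Icc (-(H : ℤ)) H ∧
      x.2.2 ∈ Icc (-(H : ℤ)) H ∧ ¬ Good κ H x.1 x.2.1 x.2.2} ⊆
      (((D.image m1 ∪ D.image m2) ∪ (D.image m3 ∪ D.image m4) : Finset (ℤ × ℤ × ℤ)) :
        Set (ℤ × ℤ × ℤ)) := by
    rintro ⟨h1, h2, h3⟩ ⟨g1, g2, g3, hb⟩
    simp only at g1 g2 g3 hb
    have t1 := g1
    have t2 := g2
    have t3 := g3
    rw [mem_Icc] at t1 t2 t3
    rw [mem_coe, mem_union, mem_union, mem_union]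
    by_cases c1 : Gd κ H h1 h2
    · by_cases c2 : Gd κ H (h1 + h3) h3
      · by_cases c3 : Gd κ H h3 (h2 + h3)
        · have c4 : ¬ Gd κ H (h1 + h3) (h2 + h3) := fun h => hb ⟨c1, c2, c3, h⟩
          right
          right
          rw [mem_image]
          refine ⟨((h1 + h3, h2 + h3), h3), ?_, ?_⟩
          · rw [hD, mem_product]
            exact ⟨hmem _ _ (by omega) (by omega) (by omega) (by omega) c4, g3⟩
          · show ((h1 + h3) - h3, (h2 + h3) - h3, h3) = (h1, h2, h3)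
            rw [add_sub_cancel_right, add_sub_cancel_right]
        · right
          left
          rw [mem_image]
          refine ⟨((h3, h2 + h3), h1), ?_, ?_⟩
          · rw [hD, mem_product]
            exact ⟨hmem _ _ (by omega) (by omega) (by omega) (by omega) c3, g1⟩
          · show (h1, (h2 + h3) - h3, h3) = (h1, h2, h3)
            rw [add_sub_cancel_right]
      · left
        right
        rw [mem_image]
        refine ⟨((h1 + h3, h3), h2), ?_, ?_⟩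
        · rw [hD, mem_product]
          exact ⟨hmem _ _ (by omega) (by omega) (by omega) (by omega) c2, g2⟩
        · show ((h1 + h3) - h3, h2, h3) = (h1, h2, h3)
          rw [add_sub_cancel_right]
    · left
      left
      rw [mem_image]
      refine ⟨((h1, h2), h3), ?_, rfl⟩
      rw [hD, mem_product]
      exact ⟨hmem _ _ (by omega) (by omega) (by omega) (by omega) c1, g3⟩
  have hn : Set.ncard {x : ℤ × ℤ × ℤ | x.1 ∈ Icc (-(H : ℤ)) H ∧ x.2.1 ∈ Icc (-(H : ℤ)) H ∧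
      x.2.2 ∈ Icc (-(H : ℤ)) H ∧ ¬ Good κ H x.1 x.2.1 x.2.2} ≤ 4 * D.card := by
    refine (Set.ncard_le_ncard hsub (Finset.finite_toSet _)).trans ?_
    rw [Set.ncard_coe_finset]
    have e1 := card_union_le (D.image m1 ∪ D.image m2) (D.image m3 ∪ D.image m4)
    have e2 := card_union_le (D.image m1) (D.image m2)
    have e3 := card_union_le (D.image m3) (D.image m4)
    have f1 : (D.image m1).card ≤ D.card := card_image_le
    have f2 : (D.image m2).card ≤ D.card := card_image_le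
    have f3 : (D.image m3).card ≤ D.card := card_image_le
    have f4 : (D.image m4).card ≤ D.card := card_image_le
    omega
  have hDc : (D.card : ℝ) ≤ 243 * κ * (H : ℝ) ^ 3 := by
    rw [hD, card_product, Nat.cast_mul, hT, Bad_card]
    have e1 := Bad_pairs H κ hκ hκ1 hH
    have e2 : 2 * (H : ℝ) + 1 ≤ 3 * H := by linarith
    calc (P.card : ℝ) * (2 * H + 1) ≤ (81 * κ * (H : ℝ) ^ 2) * (3 * H) :=
          mul_le_mul e1 e2 (by positivity) (by positivity)
      _ = _ := by ring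
  have hn' : (Set.ncard {x : ℤ × ℤ × ℤ | x.1 ∈ Icc (-(H : ℤ)) H ∧ x.2.1 ∈ Icc (-(H : ℤ)) H ∧
      x.2.2 ∈ Icc (-(H : ℤ)) H ∧ ¬ Good κ H x.1 x.2.1 x.2.2} : ℝ) ≤ 4 * D.card := by
    exact_mod_cast hn
  have hp : 0 ≤ κ * (H : ℝ) ^ 3 := by positivity
  refine hn'.trans ?_
  nlinarith

end Pool.Agent.NRP
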