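import Pool.Agent.NRP.StI

set_option autoImplicit false

/-!
# NRP: box Cauchy and Schwarz
-/

namespace Pool.Agent.NRP

open Finset
open scoped ComplexConjugate

theorem Bcs_card (R : ℕ) : (Icc (-(R : ℤ)) R).card = 2 * R + 1 := by
  rw [Int.card_Icc]
  omega

theorem Bcs_mem {m R : ℕ} (k : Fin m → ℤ) :
    k ∈ bx m R ↔ ∀ i, k i ∈ Icc (-(R : ℤ)) R := by
  unfold bx
  exact Fintype.mem_piFinset

theorem Bcs_bx_card (m R : ℕ) : (bx m R).card = (2 * R + 1) ^ m := by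
  unfold bx
  rw [Fintype.card_piFinset]
  simp only [Bcs_card]
  rw [Finset.prod_const, Finset.card_univ, Fintype.card_fin]

theorem Bcs_sum {M : Type} [AddCommMonoid M] (m R : ℕ) (F : (Fin (m + 1) → ℤ) → M) :
    ∑ k ∈ bx (m + 1) R, F k =
      ∑ a ∈ Icc (-(R : ℤ)) R, ∑ k ∈ bx m R, F (Fin.cons a k) := by
  rw [← Finset.sum_product' (Icc (-(R : ℤ)) R) (bx m R) (fun a k => F (Fin.cons a k))]
  refine Finset.sum_nbij' (fun k => (k 0, Fin.tail k)) (fun x => Fin.cons x.1 x.2) ?_ ?_ ?_ ?_ ?_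
  · intro k hk
    rw [Bcs_mem] at hk
    exact Finset.mem_product.2 ⟨hk 0, (Bcs_mem _).2 fun i => hk i.succ⟩
  · intro x hx
    have hx' := Finset.mem_product.1 hx
    rw [Bcs_mem]
    intro i
    refine Fin.cases ?_ (fun j => ?_) i
    · exact hx'.1
    · rw [Fin.cons_succ]
      exact (Bcs_mem _).1 hx'.2 j
  · intro k _
    exact Fin.cons_self_tail k
  · intro x _
    exact Prod.ext rfl rfl
  · intro k _
    show F k = F (Fin.cons (k 0) (Fin.tail k))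
    rw [Fin.cons_self_tail]

theorem Bcs_cb_sum (m R : ℕ) (g : (Fin (m + 1) → ℤ) → ℂ) :
    ∑ k0 ∈ bx (m + 1) R, ∑ k1 ∈ bx (m + 1) R, cb (m + 1) g k0 k1 =
      ∑ a ∈ Icc (-(R : ℤ)) R, ∑ a' ∈ Icc (-(R : ℤ)) R, ∑ k0 ∈ bx m R, ∑ k1 ∈ bx m R,
        cb m (fun k => g (Fin.cons a k) * conj (g (Fin.cons a' k))) k0 k1 := by
  rw [Bcs_sum]
  refine Finset.sum_congr rfl fun a _ => ?_
  rw [Finset.sum_comm]
  rw [Bcs_sum]
  refine Finset.sum_congr rfl fun a' _ => ?_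
  rw [Finset.sum_comm]
  refine Finset.sum_congr rfl fun k0 _ => Finset.sum_congr rfl fun k1 _ => ?_
  show cb m (fun k => g (Fin.cons ((Fin.cons a k0 : Fin (m + 1) → ℤ) 0) k) *
    conj (g (Fin.cons ((Fin.cons a' k1 : Fin (m + 1) → ℤ) 0) k)))
    (Fin.tail (Fin.cons a k0 : Fin (m + 1) → ℤ)) (Fin.tail (Fin.cons a' k1 : Fin (m + 1) → ℤ)) = _
  rw [Fin.cons_zero, Fin.cons_zero, Fin.tail_cons, Fin.tail_cons]

/-- One Cauchy and Schwarz in the last coordinates. -/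
theorem Bcs_step (m R : ℕ) (g : (Fin (m + 1) → ℤ) → ℂ) (b : Fin (m + 1) → (Fin (m + 1) → ℤ) → ℂ)
    (hb : ∀ i k, ‖b i k‖ ≤ 1) (hI : Ind b) :
    ‖∑ k ∈ bx (m + 1) R, g k * ∏ i, b i k‖ ^ 2 ≤ ((2 * R + 1 : ℕ) : ℝ) ^ m *
      (∑ a ∈ Icc (-(R : ℤ)) R, ∑ a' ∈ Icc (-(R : ℤ)) R, ∑ k ∈ bx m R,
        (g (Fin.cons a k) * conj (g (Fin.cons a' k))) *
          ∏ i : Fin m, (b i.succ (Fin.cons a k) * conj (b i.succ (Fin.cons a' k)))).re := by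
  set I := Icc (-(R : ℤ)) R with hIdef
  set X : (Fin m → ℤ) → ℂ := fun k => ∑ a ∈ I, g (Fin.cons a k) * ∏ i : Fin m, b i.succ (Fin.cons a k)
    with hX
  have h1 : ∑ k ∈ bx (m + 1) R, g k * ∏ i, b i k =
      ∑ k ∈ bx m R, b 0 (Fin.cons 0 k) * X k := by
    rw [Bcs_sum, Finset.sum_comm]
    refine Finset.sum_congr rfl fun k _ => ?_
    rw [hX]
    show _ = b 0 (Fin.cons 0 k) * ∑ a ∈ I, g (Fin.cons a k) * ∏ i : Fin m, b i.succ (Fin.cons a k)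
    rw [Finset.mul_sum]
    refine Finset.sum_congr rfl fun a _ => ?_
    rw [Fin.prod_univ_succ]
    have : b 0 (Fin.cons a k) = b 0 (Fin.cons 0 k) := by
      refine hI 0 _ _ fun j hj => ?_
      obtain ⟨i, rfl⟩ := Fin.exists_succ_eq.2 hj
      rw [Fin.cons_succ, Fin.cons_succ]
    rw [this]
    ring
  have h2 : ‖∑ k ∈ bx (m + 1) R, g k * ∏ i, b i k‖ ≤ ∑ k ∈ bx m R, ‖X k‖ := by
    rw [h1]
    refine (norm_sum_le _ _).trans (Finset.sum_le_sum fun k _ => ?_)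
    rw [norm_mul]
    exact mul_le_of_le_one_left (norm_nonneg _) (hb _ _)
  have h3 : (∑ k ∈ bx m R, ‖X k‖) ^ 2 ≤ ((2 * R + 1 : ℕ) : ℝ) ^ m * ∑ k ∈ bx m R, ‖X k‖ ^ 2 := by
    have := sq_sum_le_card_mul_sum_sq (s := bx m R) (f := fun k => ‖X k‖)
    rw [Bcs_bx_card] at this
    push_cast at this ⊢
    exact this
  have h4 : ∀ k : Fin m → ℤ, ((‖X k‖ ^ 2 : ℝ) : ℂ) = ∑ a ∈ I, ∑ a' ∈ I,
      (g (Fin.cons a k) * conj (g (Fin.cons a' k))) *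
          ∏ i : Fin m, (b i.succ (Fin.cons a k) * conj (b i.succ (Fin.cons a' k))) := by
    intro k
    rw [← Complex.normSq_eq_norm_sq, ← Complex.mul_conj]
    rw [hX]
    simp only [map_sum, map_mul, map_prod]
    rw [Finset.sum_mul_sum]
    refine Finset.sum_congr rfl fun a _ => Finset.sum_congr rfl fun a' _ => ?_
    rw [Finset.prod_mul_distrib]
    ring
  have h5 : ∑ k ∈ bx m R, ‖X k‖ ^ 2 = (∑ a ∈ I, ∑ a' ∈ I, ∑ k ∈ bx m R,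
        (g (Fin.cons a k) * conj (g (Fin.cons a' k))) *
          ∏ i : Fin m, (b i.succ (Fin.cons a k) * conj (b i.succ (Fin.cons a' k)))).re := by
    have h6 : ((∑ k ∈ bx m R, ‖X k‖ ^ 2 : ℝ) : ℂ) = ∑ a ∈ I, ∑ a' ∈ I, ∑ k ∈ bx m R,
        (g (Fin.cons a k) * conj (g (Fin.cons a' k))) *
          ∏ i : Fin m, (b i.succ (Fin.cons a k) * conj (b i.succ (Fin.cons a' k))) := by
      rw [Complex.ofReal_sum, Finset.sum_congr rfl fun k _ => h4 k, Finset.sum_comm]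
      refine Finset.sum_congr rfl fun a _ => ?_
      rw [Finset.sum_comm]
    rw [← h6, Complex.ofReal_re]
  rw [← h5]
  calc ‖∑ k ∈ bx (m + 1) R, g k * ∏ i, b i k‖ ^ 2 ≤ (∑ k ∈ bx m R, ‖X k‖) ^ 2 := by
        gcongr
    _ ≤ _ := h3

theorem Bcs_Ind {m : ℕ} (b : Fin (m + 1) → (Fin (m + 1) → ℤ) → ℂ) (hI : Ind b) (a a' : ℤ) :
    Ind (fun (i : Fin m) (k : Fin m → ℤ) =>
      b i.succ (Fin.cons a k) * conj (b i.succ (Fin.cons a' k))) := by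
  intro i k k' hk
  have h : ∀ c : ℤ, b i.succ (Fin.cons c k) = b i.succ (Fin.cons c k') := by
    intro c
    refine hI i.succ _ _ fun j hj => ?_
    revert hj
    refine Fin.cases ?_ (fun j' => ?_) j
    · intro _
      rw [Fin.cons_zero, Fin.cons_zero]
    · intro hj
      rw [Fin.cons_succ, Fin.cons_succ]
      exact hk j' fun h => hj (by rw [h])
  show b i.succ (Fin.cons a k) * conj (b i.succ (Fin.cons a' k)) =
    b i.succ (Fin.cons a k') * conj (b i.succ (Fin.cons a' k'))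
  rw [h a, h a']

theorem Bcs_pow {ι : Type} (s : Finset ι) (f : ι → ℝ) (hf : ∀ i ∈ s, 0 ≤ f i) (n : ℕ) (hn : 1 ≤ n) :
    (∑ i ∈ s, f i) ^ n ≤ (s.card : ℝ) ^ (n - 1) * ∑ i ∈ s, f i ^ n := by
  obtain ⟨n, rfl⟩ := Nat.exists_eq_add_of_le' hn
  rw [Nat.add_sub_cancel]
  rcases s.eq_empty_or_nonempty with rfl | hs
  · simp
  · have h := pow_sum_div_card_le_sum_pow (s := s) (f := f) hf n
    have hc : (0 : ℝ) < (s.card : ℝ) ^ n := by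
      have : (0 : ℝ) < s.card := by exact_mod_cast hs.card_pos
      positivity
    rw [div_le_iff₀ hc] at h
    linarith

theorem Bcs_one (R : ℕ) : ∀ (m : ℕ) (g : (Fin (m + 1) → ℤ) → ℂ)
    (b : Fin (m + 1) → (Fin (m + 1) → ℤ) → ℂ), (∀ i k, ‖b i k‖ ≤ 1) → Ind b →
    ‖∑ k ∈ bx (m + 1) R, g k * ∏ i, b i k‖ ^ (2 ^ (m + 1)) ≤
      (((2 * R + 1 : ℕ) : ℝ) ^ (m + 1)) ^ (2 ^ (m + 1) - 2) *
        (∑ k0 ∈ bx (m + 1) R, ∑ k1 ∈ bx (m + 1) R, cb (m + 1) g k0 k1).re := by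
  intro m
  induction m with
  | zero =>
    intro g b hb hI
    have h := Bcs_step 0 R g b hb hI
    rw [Bcs_cb_sum]
    have h1 : bx 0 R = {default} := by
      ext k
      rw [Bcs_mem, Finset.mem_singleton]
      exact ⟨fun _ => Subsingleton.elim _ _, fun _ i => i.elim0⟩
    have h2 : 2 ^ (0 + 1) = 2 := by norm_num
    rw [h2]
    rw [Nat.sub_self, pow_zero, one_mul]
    rw [pow_zero, one_mul] at h
    refine h.trans (le_of_eq ?_)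
    congr 1
    refine Finset.sum_congr rfl fun a _ => Finset.sum_congr rfl fun a' _ => ?_
    rw [h1, Finset.sum_singleton, Finset.sum_singleton, Finset.sum_singleton]
    simp only [Finset.univ_eq_empty, Finset.prod_empty, mul_one]
    rfl
  | succ m ih =>
    intro g b hb hI
    set S : ℝ := ((2 * R + 1 : ℕ) : ℝ) with hS
    have hS0 : 0 ≤ S := Nat.cast_nonneg _
    set I := Icc (-(R : ℤ)) R with hIdef
    set G : ℤ → ℤ → (Fin (m + 1) → ℤ) → ℂ :=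
      fun a a' k => g (Fin.cons a k) * conj (g (Fin.cons a' k)) with hG
    set B : ℤ → ℤ → Fin (m + 1) → (Fin (m + 1) → ℤ) → ℂ :=
      fun a a' i k => b i.succ (Fin.cons a k) * conj (b i.succ (Fin.cons a' k)) with hB
    have hBb : ∀ a a' i k, ‖B a a' i k‖ ≤ 1 := by
      intro a a' i k
      show ‖b i.succ (Fin.cons a k) * conj (b i.succ (Fin.cons a' k))‖ ≤ 1
      rw [norm_mul, RCLike.norm_conj]
      exact mul_le_one₀ (hb _ _) (norm_nonneg _) (hb _ _)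
    have h := Bcs_step (m + 1) R g b hb hI
    have h1 : ‖∑ k ∈ bx (m + 2) R, g k * ∏ i, b i k‖ ^ 2 ≤ S ^ (m + 1) *
        ∑ p ∈ I ×ˢ I, ‖∑ k ∈ bx (m + 1) R, G p.1 p.2 k * ∏ i, B p.1 p.2 i k‖ := by
      refine h.trans (mul_le_mul_of_nonneg_left ?_ (by positivity))
      rw [← Finset.sum_product']
      refine (Complex.re_le_norm _).trans ((norm_sum_le _ _).trans (le_of_eq ?_))
      rfl
    have hn : 1 ≤ 2 ^ (m + 1) := Nat.one_le_two_pow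
    have h2 : (∑ p ∈ I ×ˢ I, ‖∑ k ∈ bx (m + 1) R, G p.1 p.2 k * ∏ i, B p.1 p.2 i k‖) ^ (2 ^ (m + 1)) ≤
        (S ^ 2) ^ (2 ^ (m + 1) - 1) * ∑ p ∈ I ×ˢ I,
          ‖∑ k ∈ bx (m + 1) R, G p.1 p.2 k * ∏ i, B p.1 p.2 i k‖ ^ (2 ^ (m + 1)) := by
      have := Bcs_pow (I ×ˢ I) (fun p => ‖∑ k ∈ bx (m + 1) R, G p.1 p.2 k * ∏ i, B p.1 p.2 i k‖)
        (fun _ _ => norm_nonneg _) (2 ^ (m + 1)) hn
      have hc : (((I ×ˢ I).card : ℕ) : ℝ) = S ^ 2 := by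
        rw [Finset.card_product, hIdef, Bcs_card, hS]
        push_cast
        ring
      rw [hc] at this
      exact this
    have h3 : ∑ p ∈ I ×ˢ I,
          ‖∑ k ∈ bx (m + 1) R, G p.1 p.2 k * ∏ i, B p.1 p.2 i k‖ ^ (2 ^ (m + 1)) ≤
        (S ^ (m + 1)) ^ (2 ^ (m + 1) - 2) *
          (∑ k0 ∈ bx (m + 2) R, ∑ k1 ∈ bx (m + 2) R, cb (m + 2) g k0 k1).re := by
      rw [Bcs_cb_sum, ← Finset.sum_product', Complex.re_sum, Finset.mul_sum]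
      refine Finset.sum_le_sum fun p _ => ?_
      exact ih (G p.1 p.2) (B p.1 p.2) (hBb p.1 p.2) (Bcs_Ind b hI p.1 p.2)
    have e1 : 2 ^ (m + 1 + 1) = 2 * 2 ^ (m + 1) := by ring
    obtain ⟨n, hn2⟩ := Nat.exists_eq_add_of_le' hn
    calc ‖∑ k ∈ bx (m + 1 + 1) R, g k * ∏ i, b i k‖ ^ (2 ^ (m + 1 + 1))
        = (‖∑ k ∈ bx (m + 2) R, g k * ∏ i, b i k‖ ^ 2) ^ (2 ^ (m + 1)) := by
          rw [← pow_mul, e1]
      _ ≤ (S ^ (m + 1) *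
          ∑ p ∈ I ×ˢ I, ‖∑ k ∈ bx (m + 1) R, G p.1 p.2 k * ∏ i, B p.1 p.2 i k‖) ^ (2 ^ (m + 1)) := by
          gcongr
      _ = (S ^ (m + 1)) ^ (2 ^ (m + 1)) * (∑ p ∈ I ×ˢ I,
          ‖∑ k ∈ bx (m + 1) R, G p.1 p.2 k * ∏ i, B p.1 p.2 i k‖) ^ (2 ^ (m + 1)) := mul_pow _ _ _
      _ ≤ (S ^ (m + 1)) ^ (2 ^ (m + 1)) * ((S ^ 2) ^ (2 ^ (m + 1) - 1) *
          ((S ^ (m + 1)) ^ (2 ^ (m + 1) - 2) *
          (∑ k0 ∈ bx (m + 2) R, ∑ k1 ∈ bx (m + 2) R, cb (m + 2) g k0 k1).re)) := by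
          refine mul_le_mul_of_nonneg_left (h2.trans ?_) (by positivity)
          exact mul_le_mul_of_nonneg_left h3 (by positivity)
      _ = (S ^ (m + 1 + 1)) ^ (2 ^ (m + 1 + 1) - 2) *
          (∑ k0 ∈ bx (m + 1 + 1) R, ∑ k1 ∈ bx (m + 1 + 1) R, cb (m + 1 + 1) g k0 k1).re := by
          rw [← mul_assoc, ← mul_assoc]
          congr 1
          rw [← pow_mul, ← pow_mul, ← pow_mul, ← pow_mul, ← pow_add, ← pow_add]
          congr 1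
          have h2' : 2 ≤ 2 ^ (m + 1) := by
            calc 2 = 2 ^ 1 := by norm_num
              _ ≤ 2 ^ (m + 1) := Nat.pow_le_pow_right (by norm_num) (by omega)
          obtain ⟨t, ht⟩ := Nat.exists_eq_add_of_le' h2'
          rw [e1, ht]
          have e2 : 2 * (t + 2) - 2 = 2 * t + 2 := by omega
          rw [e2, Nat.add_sub_cancel, show t + 2 - 1 = t + 1 by omega]
          ring

theorem thm_Bcs : St_Bcs := by
  intro ι Ω m R hm g b hb hI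
  obtain ⟨m, rfl⟩ := Nat.exists_eq_add_of_le' hm
  set S : ℝ := ((2 * R + 1 : ℕ) : ℝ) with hS
  have hS0 : 0 ≤ S := Nat.cast_nonneg _
  have h1 := Bcs_pow Ω (fun z => ‖∑ k ∈ bx (m + 1) R, g z k * ∏ i, b z i k‖)
    (fun _ _ => norm_nonneg _) (2 ^ (m + 1)) Nat.one_le_two_pow
  have h2 : ∑ z ∈ Ω, ‖∑ k ∈ bx (m + 1) R, g z k * ∏ i, b z i k‖ ^ (2 ^ (m + 1)) ≤
      (S ^ (m + 1)) ^ (2 ^ (m + 1) - 2) *
        ‖∑ k0 ∈ bx (m + 1) R, ∑ k1 ∈ bx (m + 1) R, ∑ z ∈ Ω, cb (m + 1) (g z) k0 k1‖ := by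
    calc ∑ z ∈ Ω, ‖∑ k ∈ bx (m + 1) R, g z k * ∏ i, b z i k‖ ^ (2 ^ (m + 1))
        ≤ ∑ z ∈ Ω, (S ^ (m + 1)) ^ (2 ^ (m + 1) - 2) *
          (∑ k0 ∈ bx (m + 1) R, ∑ k1 ∈ bx (m + 1) R, cb (m + 1) (g z) k0 k1).re :=
          Finset.sum_le_sum fun z _ => Bcs_one R m (g z) (b z) (hb z) (hI z)
      _ = (S ^ (m + 1)) ^ (2 ^ (m + 1) - 2) *
          (∑ k0 ∈ bx (m + 1) R, ∑ k1 ∈ bx (m + 1) R, ∑ z ∈ Ω, cb (m + 1) (g z) k0 k1).re := by
          rw [← Finset.mul_sum, ← Complex.re_sum]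
          congr 2
          rw [Finset.sum_comm]
          refine Finset.sum_congr rfl fun k0 _ => ?_
          rw [Finset.sum_comm]
      _ ≤ _ := mul_le_mul_of_nonneg_left (Complex.re_le_norm _) (by positivity)
  calc ‖∑ z ∈ Ω, ∑ k ∈ bx (m + 1) R, g z k * ∏ i, b z i k‖ ^ (2 ^ (m + 1))
      ≤ (∑ z ∈ Ω, ‖∑ k ∈ bx (m + 1) R, g z k * ∏ i, b z i k‖) ^ (2 ^ (m + 1)) := by
        gcongr
        exact norm_sum_le _ _
    _ ≤ (Ω.card : ℝ) ^ (2 ^ (m + 1) - 1) * ((S ^ (m + 1)) ^ (2 ^ (m + 1) - 2) *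
        ‖∑ k0 ∈ bx (m + 1) R, ∑ k1 ∈ bx (m + 1) R, ∑ z ∈ Ω, cb (m + 1) (g z) k0 k1‖) :=
        h1.trans (mul_le_mul_of_nonneg_left h2 (by positivity))
    _ = _ := by ring

end Pool.Agent.NRP
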