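import Pool.Agent.NRP.StI

set_option autoImplicit false

/-!
# NRP, Cell: pigeonhole for major arcs
-/

namespace Pool.Agent.NRP

open Finset
open Pool.Agent.GBQ (ee nd)

theorem Cell_card (X : ℝ) (hX : 2 ≤ X) (C0 C1 : ℕ) :
    ((((Icc 1 ⌊X ^ C0⌋₊) ×ˢ ((Ico (0 : ℤ) (⌊X ^ C0⌋₊ : ℕ)) ×ˢ
      (Icc (-(⌈X ^ (C0 + C1)⌉₊ : ℤ)) (⌈X ^ (C0 + C1)⌉₊ : ℤ)))).card : ℕ) : ℝ) ≤
      X ^ (3 * C0 + C1 + 3) := by
  have hX0 : 0 < X := by linarith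
  have h1 : 1 ≤ X := by linarith
  rw [Finset.card_product, Finset.card_product, Nat.card_Icc, Int.card_Ico, Int.card_Icc]
  have e1 : ⌊X ^ C0⌋₊ + 1 - 1 = ⌊X ^ C0⌋₊ := by omega
  have e2 : (((⌊X ^ C0⌋₊ : ℕ) : ℤ) - 0).toNat = ⌊X ^ C0⌋₊ := by omega
  have e3 : (((⌈X ^ (C0 + C1)⌉₊ : ℕ) : ℤ) + 1 - -((⌈X ^ (C0 + C1)⌉₊ : ℕ) : ℤ)).toNat =
      2 * ⌈X ^ (C0 + C1)⌉₊ + 1 := by omega
  rw [e1, e2, e3]
  push_cast
  have h2 : (⌊X ^ C0⌋₊ : ℝ) ≤ X ^ C0 := Nat.floor_le (by positivity)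
  have h3 : (⌈X ^ (C0 + C1)⌉₊ : ℝ) ≤ X ^ (C0 + C1) + 1 := (Nat.ceil_lt_add_one (by positivity)).le
  have h4 : 1 ≤ X ^ (C0 + C1) := one_le_pow₀ h1
  have h5 : (2 : ℝ) ^ 3 ≤ X ^ 3 := pow_le_pow_left₀ (by norm_num) hX 3
  have h6 : 2 * (⌈X ^ (C0 + C1)⌉₊ : ℝ) + 1 ≤ X ^ (C0 + C1) * X ^ 3 := by
    have h7 : X ^ (C0 + C1) * 2 ^ 3 ≤ X ^ (C0 + C1) * X ^ 3 :=
      mul_le_mul_of_nonneg_left h5 (by positivity)
    linarith
  have e4 : X ^ (3 * C0 + C1 + 3) = X ^ C0 * (X ^ C0 * (X ^ (C0 + C1) * X ^ 3)) := by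
    rw [← pow_add, ← pow_add, ← pow_add]
    congr 1
    ring
  rw [e4]
  have h8 : 0 ≤ (⌊X ^ C0⌋₊ : ℝ) := Nat.cast_nonneg _
  have h9 : 0 ≤ 2 * (⌈X ^ (C0 + C1)⌉₊ : ℝ) + 1 := by positivity
  exact mul_le_mul h2 (mul_le_mul h2 h6 h9 (by positivity)) (by positivity) (by positivity)

/-- Pigeonhole for major arcs. -/
theorem thm_Cell : St_Cell := by
  intro C0 C1
  refine ⟨3 * C0 + C1 + 3, ?_⟩
  intro H δ hH hδ0 hδ2 ι S ψ hS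
  classical
  rcases S.eq_empty_or_nonempty with h0 | hne
  · exact ⟨0, by simp [h0]⟩
  have hHr : (0 : ℝ) < (H : ℝ) := by exact_mod_cast hH
  have hH2 : (0 : ℝ) < (H : ℝ) ^ 2 := by positivity
  have hX : 2 ≤ 1 / δ := by
    rw [le_div_iff₀ hδ0]
    linarith
  have hX0 : 0 < 1 / δ := by positivity
  choose! q hq1 hqX hnd using hS
  obtain ⟨a, ha⟩ : ∃ a : ι → ℤ, ∀ i, a i = round ((q i : ℝ) * ψ i) := ⟨_, fun _ => rfl⟩
  obtain ⟨e, he⟩ : ∃ e : ι → ℝ, ∀ i, e i = (q i : ℝ) * ψ i - a i := ⟨_, fun _ => rfl⟩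
  obtain ⟨u, hu⟩ : ∃ u : ι → ℝ, ∀ i, u i = e i / q i * ((H : ℝ) ^ 2 / δ ^ C1) := ⟨_, fun _ => rfl⟩
  have hel : ∀ i ∈ S, |e i| ≤ (1 / δ) ^ C0 / (H : ℝ) ^ 2 := by
    intro i hi
    have h1 := hnd i hi
    unfold nd at h1
    rw [he, ha]
    exact h1
  have hul : ∀ i ∈ S, |u i| ≤ (1 / δ) ^ (C0 + C1) := by
    intro i hi
    have h1 : (1 : ℝ) ≤ q i := by exact_mod_cast hq1 i hi
    have h2 : |e i / q i| ≤ (1 / δ) ^ C0 / (H : ℝ) ^ 2 := by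
      rw [abs_div, abs_of_nonneg (by linarith : (0 : ℝ) ≤ q i)]
      exact (div_le_self (abs_nonneg _) h1).trans (hel i hi)
    rw [hu, abs_mul, abs_of_nonneg (by positivity : 0 ≤ (H : ℝ) ^ 2 / δ ^ C1)]
    calc |e i / q i| * ((H : ℝ) ^ 2 / δ ^ C1) ≤
          (1 / δ) ^ C0 / (H : ℝ) ^ 2 * ((H : ℝ) ^ 2 / δ ^ C1) :=
          mul_le_mul_of_nonneg_right h2 (by positivity)
      _ = (1 / δ) ^ (C0 + C1) := by
          have h3 : (1 / δ) ^ C1 = 1 / δ ^ C1 := one_div_pow δ C1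
          rw [pow_add, h3]
          generalize (1 / δ) ^ C0 = Y
          field_simp
  obtain ⟨f, hf⟩ : ∃ f : ι → ℕ × ℤ × ℤ, ∀ i, f i = (q i, a i % (q i : ℤ), ⌊u i⌋) :=
    ⟨_, fun _ => rfl⟩
  obtain ⟨t, ht⟩ : ∃ t : Finset (ℕ × ℤ × ℤ), t = (Icc 1 ⌊(1 / δ) ^ C0⌋₊) ×ˢ
      ((Ico (0 : ℤ) (⌊(1 / δ) ^ C0⌋₊ : ℕ)) ×ˢ
      (Icc (-(⌈(1 / δ) ^ (C0 + C1)⌉₊ : ℤ)) (⌈(1 / δ) ^ (C0 + C1)⌉₊ : ℤ))) := ⟨_, rfl⟩
  have hft : ∀ i ∈ S, f i ∈ t := by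
    intro i hi
    have h1 := hq1 i hi
    have h2 : q i ≤ ⌊(1 / δ) ^ C0⌋₊ := Nat.le_floor (hqX i hi)
    have h3 : (0 : ℤ) < q i := by exact_mod_cast h1
    have h4 := abs_le.1 (hul i hi)
    have h5 := Nat.le_ceil ((1 / δ) ^ (C0 + C1))
    rw [hf, ht, mem_product, mem_product, mem_Icc, mem_Ico, mem_Icc]
    refine ⟨⟨h1, h2⟩, ⟨Int.emod_nonneg _ h3.ne', ?_⟩, ?_, ?_⟩
    · exact (Int.emod_lt_of_pos _ h3).trans_le (by exact_mod_cast h2)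
    · rw [Int.le_floor]
      push_cast
      linarith [h4.1]
    · have h6 : (⌊u i⌋ : ℝ) ≤ u i := Int.floor_le _
      have h7 : (⌊u i⌋ : ℝ) ≤ (⌈(1 / δ) ^ (C0 + C1)⌉₊ : ℝ) := by linarith [h4.2]
      exact_mod_cast h7
  have htne : t.Nonempty := by
    obtain ⟨i, hi⟩ := hne
    exact ⟨f i, hft i hi⟩
  have htc : (0 : ℝ) < t.card := by exact_mod_cast htne.card_pos
  have hcard : (t.card : ℝ) ≤ (1 / δ) ^ (3 * C0 + C1 + 3) := by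
    rw [ht]
    exact Cell_card (1 / δ) hX C0 C1
  obtain ⟨y, -, hy⟩ := Finset.exists_le_card_fiber_of_nsmul_le_card_of_maps_to (s := S) (t := t)
    (f := f) (b := (S.card : ℝ) / t.card) hft htne (by
      rw [nsmul_eq_mul, mul_div_cancel₀ _ htc.ne'])
  have hSc : (0 : ℝ) < S.card := by exact_mod_cast hne.card_pos
  have hfib : (S.filter fun i => f i = y).Nonempty := by
    rw [← Finset.card_pos]
    have h1 : (0 : ℝ) < ((S.filter fun i => f i = y).card : ℝ) := (div_pos hSc htc).trans_le hy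
    exact_mod_cast h1
  obtain ⟨j, hj⟩ := hfib
  rw [mem_filter] at hj
  refine ⟨ψ j, ?_⟩
  have h1 : δ ^ (3 * C0 + C1 + 3) * (S.card : ℝ) ≤ (S.card : ℝ) / t.card := by
    rw [le_div_iff₀ htc]
    have h2 : δ ^ (3 * C0 + C1 + 3) * (t.card : ℝ) ≤ 1 := by
      have h3 : δ ^ (3 * C0 + C1 + 3) * (t.card : ℝ) ≤
          δ ^ (3 * C0 + C1 + 3) * (1 / δ) ^ (3 * C0 + C1 + 3) :=
        mul_le_mul_of_nonneg_left hcard (by positivity)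
      rwa [← mul_pow, mul_one_div_cancel hδ0.ne', one_pow] at h3
    calc δ ^ (3 * C0 + C1 + 3) * (S.card : ℝ) * t.card =
          δ ^ (3 * C0 + C1 + 3) * (t.card : ℝ) * S.card := by ring
      _ ≤ 1 * S.card := mul_le_mul_of_nonneg_right h2 hSc.le
      _ = S.card := one_mul _
  refine h1.trans (hy.trans ?_)
  have h2 : (S.filter fun i => f i = y) ⊆
      S.filter (fun i => nd (ψ i - ψ j) ≤ δ ^ C1 / (H : ℝ) ^ 2) := by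
    intro i hi
    rw [mem_filter] at hi ⊢
    refine ⟨hi.1, ?_⟩
    have h3 : f i = f j := by rw [hi.2, hj.2]
    rw [hf, hf, Prod.mk.injEq, Prod.mk.injEq] at h3
    obtain ⟨h4, h5, h6⟩ := h3
    have hq0 : (0 : ℝ) < q j := by exact_mod_cast hq1 j hj.1
    rw [h4] at h5
    obtain ⟨n, hn⟩ : (q j : ℤ) ∣ a i - a j := Int.ModEq.dvd h5.symm
    have h7 := Int.abs_sub_lt_one_of_floor_eq_floor h6
    have h8 : (a i : ℝ) - a j = q j * n := by exact_mod_cast hn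
    have h9 : ψ i - ψ j - (n : ℤ) = (u i - u j) * (δ ^ C1 / (H : ℝ) ^ 2) := by
      rw [hu, hu, he, he, h4]
      have h10 : (a i : ℝ) = a j + q j * n := by linarith
      rw [h10]
      field_simp
      ring
    unfold nd
    refine (round_le (ψ i - ψ j) n).trans ?_
    rw [h9, abs_mul, abs_of_nonneg (by positivity : 0 ≤ δ ^ C1 / (H : ℝ) ^ 2)]
    exact mul_le_of_le_one_left (by positivity) h7.le
  exact_mod_cast Finset.card_le_card h2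

end Pool.Agent.NRP
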