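import Mathlib
import Pool.Agent.NRP.StI

set_option autoImplicit false

/-!
# NRP: the linear forms of the parallelepiped (`St_Cl` from `St_Lf`)
-/

namespace Pool.Agent.NRP

open Finset
open scoped ComplexConjugate

namespace ClM

/-- the seven forms with their functions -/
noncomputable def lst (f : ℤ → ℂ) (h1 h2 h3 : ℤ) : List ((ℤ × ℤ →+ ℤ) × (ℤ → ℂ)) :=
  [(mp (2 * h1) 0, fun n => conj (f n)), (mp 0 (2 * h2), fun n => conj (f n)),
    (mp (2 * h3) (2 * h3), fun n => conj (f n)), (mp (2 * h1) (2 * h2), f),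
    (mp (2 * (h1 + h3)) (2 * h3), f), (mp (2 * h3) (2 * (h2 + h3)), f),
    (mp (2 * (h1 + h3)) (2 * (h2 + h3)), fun n => conj (f n))]

theorem bd_conj {M : ℕ} {f : ℤ → ℂ} (hf : Bd M f) : Bd M (fun n => conj (f n)) := by
  refine ⟨fun n => ?_, fun n hn => ?_⟩
  · rw [RCLike.norm_conj]; exact hf.1 n
  · simp only [hf.2 n hn, map_zero]

theorem mp_apply (u v a b : ℤ) : mp u v (a, b) = u * a + v * b := rfl

theorem prod_eq (f : ℤ → ℂ) (h1 h2 h3 a b n : ℤ) :
    dl (2 * a * h1) (dl (2 * b * h2) (dl (2 * (a + b) * h3) f)) n =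
      f n * ((lst f h1 h2 h3).map (fun g => g.2 (n + g.1 (a, b)))).prod := by
  have e1 : n + mp (2 * h1) 0 (a, b) = n + 2 * a * h1 := by rw [mp_apply]; ring
  have e2 : n + mp 0 (2 * h2) (a, b) = n + 2 * b * h2 := by rw [mp_apply]; ring
  have e3 : n + mp (2 * h3) (2 * h3) (a, b) = n + 2 * (a + b) * h3 := by rw [mp_apply]; ring
  have e4 : n + mp (2 * h1) (2 * h2) (a, b) = n + 2 * a * h1 + 2 * b * h2 := by
    rw [mp_apply]; ring
  have e5 : n + mp (2 * (h1 + h3)) (2 * h3) (a, b) = n + 2 * a * h1 + 2 * (a + b) * h3 := by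
    rw [mp_apply]; ring
  have e6 : n + mp (2 * h3) (2 * (h2 + h3)) (a, b) = n + 2 * b * h2 + 2 * (a + b) * h3 := by
    rw [mp_apply]; ring
  have e7 : n + mp (2 * (h1 + h3)) (2 * (h2 + h3)) (a, b) =
      n + 2 * a * h1 + 2 * b * h2 + 2 * (a + b) * h3 := by
    rw [mp_apply]; ring
  simp only [lst, List.map_cons, List.map_nil, List.prod_cons, List.prod_nil, mul_one, dl, map_mul,
    Complex.conj_conj, e1, e2, e3, e4, e5, e6, e7]
  ring

theorem card_sqr (H : ℕ) (hH : 1 ≤ H) : ((sqr (2 * H)).card : ℝ) ≤ 25 * (H : ℝ) ^ 2 := by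
  have h1 : (sqr (2 * H)).card = (4 * H + 1) * (4 * H + 1) := by
    rw [sqr, card_product, Int.card_Icc]
    have : (((2 * H : ℕ) : ℤ) + 1 - -((2 * H : ℕ) : ℤ)).toNat = 4 * H + 1 := by
      push_cast; omega
    rw [this]
  rw [h1]
  push_cast
  have h2 : (1 : ℝ) ≤ H := by exact_mod_cast hH
  nlinarith

end ClM

open ClM in
theorem thm_Cl (hL : St_Lf) : St_Cl := by
  intro K H f hH hf h1 h2 h3
  have hneg : ∀ v ∈ sqr (2 * H), -v ∈ sqr (2 * H) := by
    intro v hv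
    simp only [sqr, mem_product, mem_Icc, Prod.fst_neg, Prod.snd_neg] at hv ⊢
    omega
  have hsub : ∀ v ∈ sqr H, ∀ w ∈ sqr H, w - v ∈ sqr (2 * H) := by
    intro v hv w hw
    simp only [sqr, mem_product, mem_Icc, Prod.fst_sub, Prod.snd_sub] at hv hw ⊢
    push_cast
    omega
  have hl : ∀ g ∈ lst f h1 h2 h3, Bd (K * H ^ 2) g.2 := by
    intro g hg
    have hc := bd_conj hf
    simp only [lst, List.mem_cons, List.not_mem_nil, or_false] at hg
    rcases hg with h | h | h | h | h | h | h <;> rw [h] <;> first | exact hf | exact hc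
  have key := hL (ℤ × ℤ) (sqr (2 * H)) (sqr H) (K * H ^ 2) f (lst f h1 h2 h3) hneg hsub hf hl
  have hlen : (lst f h1 h2 h3).length = 7 := rfl
  have hfst : (lst f h1 h2 h3).map Prod.fst = L7 h1 h2 h3 := rfl
  rw [hlen, hfst] at key
  have hSS : SS H f h1 h2 h3 = ∑ w ∈ sqr H, ∑' n : ℤ,
      f n * ((lst f h1 h2 h3).map (fun g => g.2 (n + g.1 w))).prod := by
    rw [SS, sqr, sum_product]
    refine sum_congr rfl fun a _ => sum_congr rfl fun b _ => ?_
    exact tsum_congr fun n => prod_eq f h1 h2 h3 a b n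
  rw [hSS]
  have hd0 : 0 ≤ dsm (sqr (2 * H)) (L7 h1 h2 h3) f := by
    have : ∀ (l : List (ℤ × ℤ →+ ℤ)) (g : ℤ → ℂ), 0 ≤ dsm (sqr (2 * H)) l g := by
      intro l
      induction l with
      | nil => intro g; exact norm_nonneg _
      | cons M l ih => intro g; exact sum_nonneg fun v _ => ih _
    exact this _ _
  have h2H : (1 : ℝ) ≤ H := by exact_mod_cast hH
  have hA : 2 * (((K * H ^ 2 : ℕ) : ℝ)) + 1 ≤ (2 * K + 1) * (H : ℝ) ^ 2 := by
    push_cast
    nlinarith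
  have hA0 : 0 ≤ 2 * (((K * H ^ 2 : ℕ) : ℝ)) + 1 := by positivity
  have hB0 : 0 ≤ (2 * K + 1) * (H : ℝ) ^ 2 := by positivity
  have e0 : (2 : ℕ) ^ 7 = 128 := by norm_num
  have e1 : 128 - 1 = 127 := by norm_num
  have e2 : 128 - 7 = 121 := by norm_num
  rw [e0, e1, e2] at key
  refine key.trans (mul_le_mul_of_nonneg_right ?_ hd0)
  exact mul_le_mul (pow_le_pow_left₀ hA0 hA 127)
    (pow_le_pow_left₀ (Nat.cast_nonneg _) (card_sqr H hH) 121) (pow_nonneg (Nat.cast_nonneg _) _)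
    (pow_nonneg hB0 _)

end Pool.Agent.NRP
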