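import Pool.Agent.NRP.StI

set_option autoImplicit false

namespace Pool.Agent.NRP

open Finset
open scoped ComplexConjugate

/-! ### Elementary facts -/

private theorem Cub_bd (M : ℕ) (f : ℤ → ℂ) (D : ℤ) (h : Bd M f) : Bd M (dl D f) := by
  constructor
  · intro n
    unfold dl
    rw [norm_mul, RCLike.norm_conj]
    exact mul_le_one₀ (h.1 n) (norm_nonneg _) (h.1 _)
  · intro n hn
    unfold dl
    rw [h.2 n hn, zero_mul]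

private theorem Cub_zero (D : ℤ) : dl D (fun _ => 0) = fun _ => 0 := by
  funext n
  simp [dl]

private theorem Cub_dl0 (M : ℕ) (f : ℤ → ℂ) (D : ℤ) (h : Bd M f)
    (hD : D ∉ Icc (-((2 * M : ℕ) : ℤ)) ((2 * M : ℕ) : ℤ)) : dl D f = fun _ => 0 := by
  have hD' : 2 * (M : ℤ) < |D| := by
    by_contra hcon
    apply hD
    rw [mem_Icc, ← abs_le]
    push_cast
    omega
  funext n
  unfold dl
  by_cases hn : (M : ℤ) < |n|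
  · rw [h.2 n hn, zero_mul]
  · have h1 : |D| ≤ |n + D| + |n| := by
      have h2 := abs_sub (n + D) n
      rwa [add_sub_cancel_left] at h2
    rw [h.2 (n + D) (by omega), map_zero, mul_zero]

private theorem Cub_ts (M : ℕ) (f : ℤ → ℂ) (h : Bd M f) : ‖∑' n : ℤ, f n‖ ≤ 2 * M + 1 := by
  rw [tsum_eq_sum (s := Icc (-(M : ℤ)) M)]
  · refine (norm_sum_le_of_le _ (f := f) (n := fun _ => (1 : ℝ)) fun n _ => h.1 n).trans ?_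
    rw [sum_const, Int.card_Icc, nsmul_eq_mul, mul_one]
    have : ((M : ℤ) + 1 - -(M : ℤ)).toNat = 2 * M + 1 := by omega
    rw [this]
    push_cast
    exact le_refl _
  · intro n hn
    apply h.2
    by_contra hcon
    apply hn
    rw [mem_Icc, ← abs_le]
    omega

/-- the seventh derivative -/
private noncomputable def Cub_Phi (f : ℤ → ℂ) (D1 D2 D3 D4 D5 D6 D7 : ℤ) : ℝ :=
  ‖∑' n : ℤ, dl D7 (dl D6 (dl D5 (dl D4 (dl D3 (dl D2 (dl D1 f)))))) n‖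

private theorem Cub_Phi_le (M : ℕ) (f : ℤ → ℂ) (h : Bd M f) (D1 D2 D3 D4 D5 D6 D7 : ℤ) :
    Cub_Phi f D1 D2 D3 D4 D5 D6 D7 ≤ 2 * M + 1 :=
  Cub_ts M _ (Cub_bd M _ _ (Cub_bd M _ _ (Cub_bd M _ _ (Cub_bd M _ _ (Cub_bd M _ _
    (Cub_bd M _ _ (Cub_bd M _ _ h)))))))

/-! ### Cauchy and Schwarz -/

private theorem Cub_C1 {ι : Type} [DecidableEq ι] (S : Finset ι) (M : ι → ℤ) (I : Finset ℤ) (F : ℤ → ℝ)
    (h0 : ∀ D, D ∉ I → F D = 0) :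
    (∑ v ∈ S, F (M v)) ^ 2 ≤
      (((S ×ˢ S).filter (fun x => M x.1 = M x.2)).card : ℝ) * ∑ D ∈ I, F D ^ 2 := by
  have h1 : ∑ v ∈ S, F (M v) = ∑ D ∈ I, ((S.filter (fun v => M v = D)).card : ℝ) * F D := by
    have h2 : ∀ D ∈ I, ((S.filter (fun v => M v = D)).card : ℝ) * F D =
        ∑ v ∈ S, if M v = D then F D else 0 := by
      intro D _
      rw [← sum_filter, sum_const, nsmul_eq_mul]
    rw [sum_congr rfl h2, sum_comm]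
    refine sum_congr rfl fun v _ => ?_
    rw [sum_ite_eq]
    split_ifs with h3
    · rfl
    · exact h0 _ h3
  have h2 : ∑ D ∈ I, ((S.filter (fun v => M v = D)).card : ℝ) ^ 2 ≤
      (((S ×ˢ S).filter (fun x => M x.1 = M x.2)).card : ℝ) := by
    have h3 : ∑ D ∈ I, ((S.filter (fun v => M v = D)).card) ^ 2 =
        ((S ×ˢ S).filter (fun x => M x.1 = M x.2 ∧ M x.1 ∈ I)).card := by
      rw [card_eq_sum_card_fiberwise (f := fun x => M x.1) (t := I)]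
      · refine sum_congr rfl fun D hD => ?_
        rw [sq, ← card_product]
        congr 1
        ext x
        simp only [mem_product, mem_filter]
        constructor
        · rintro ⟨⟨a, b⟩, c, d⟩
          exact ⟨⟨⟨a, c⟩, b.trans d.symm, b ▸ hD⟩, b⟩
        · rintro ⟨⟨⟨a, b⟩, c, _⟩, d⟩
          exact ⟨⟨a, d⟩, b, c ▸ d⟩
      · intro x hx
        simp only [coe_filter, Set.mem_ofPred_eq] at hx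
        exact hx.2.2
    have h4 : ((S ×ˢ S).filter (fun x => M x.1 = M x.2 ∧ M x.1 ∈ I)).card ≤
        ((S ×ˢ S).filter (fun x => M x.1 = M x.2)).card := by
      apply card_le_card
      intro x hx
      rw [mem_filter] at hx ⊢
      exact ⟨hx.1, hx.2.1⟩
    rw [← h3] at h4
    exact_mod_cast h4
  rw [h1]
  refine (sum_mul_sq_le_sq_mul_sq I _ _).trans ?_
  exact mul_le_mul_of_nonneg_right h2 (sum_nonneg fun D _ => sq_nonneg _)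

private theorem Cub_C2 {ι : Type} [DecidableEq ι] (S : Finset ι) (M : ι → ℤ) (I : Finset ℤ) (F G : ℤ → ℝ)
    (B N : ℝ) (h0 : ∀ D, D ∉ I → F D = 0) (hF : ∀ D, F D ^ 2 ≤ B * G D)
    (hN : (((S ×ˢ S).filter (fun x => M x.1 = M x.2)).card : ℝ) ≤ N) :
    (∑ v ∈ S, F (M v)) ^ 2 ≤ N * B * ∑ D ∈ I, G D := by
  have h1 : ∑ D ∈ I, F D ^ 2 ≤ B * ∑ D ∈ I, G D := by
    rw [mul_sum]
    exact sum_le_sum fun D _ => hF D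
  have h2 : 0 ≤ ∑ D ∈ I, F D ^ 2 := sum_nonneg fun D _ => sq_nonneg _
  have h3 : 0 ≤ N := le_trans (Nat.cast_nonneg _) hN
  calc (∑ v ∈ S, F (M v)) ^ 2 ≤ _ := Cub_C1 S M I F h0
    _ ≤ N * ∑ D ∈ I, F D ^ 2 := mul_le_mul_of_nonneg_right hN h2
    _ ≤ N * (B * ∑ D ∈ I, G D) := mul_le_mul_of_nonneg_left h1 h3
    _ = N * B * ∑ D ∈ I, G D := by ring

private theorem Cub_T {ι : Type} (S : Finset ι) (F G : ι → ℝ) (B N : ℝ)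
    (hF : ∀ D ∈ S, F D ^ 2 ≤ B * G D) (hN : (S.card : ℝ) ≤ N) :
    (∑ v ∈ S, F v) ^ 2 ≤ N * B * ∑ D ∈ S, G D := by
  have h1 : ∑ D ∈ S, F D ^ 2 ≤ B * ∑ D ∈ S, G D := by
    rw [mul_sum]
    exact sum_le_sum fun D hD => hF D hD
  have h2 : 0 ≤ ∑ D ∈ S, F D ^ 2 := sum_nonneg fun D _ => sq_nonneg _
  have h3 : 0 ≤ N := le_trans (Nat.cast_nonneg _) hN
  calc (∑ v ∈ S, F v) ^ 2 ≤ (S.card : ℝ) * ∑ D ∈ S, F D ^ 2 := sq_sum_le_card_mul_sum_sq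
    _ ≤ N * ∑ D ∈ S, F D ^ 2 := mul_le_mul_of_nonneg_right hN h2
    _ ≤ N * (B * ∑ D ∈ S, G D) := mul_le_mul_of_nonneg_left h1 h3
    _ = N * B * ∑ D ∈ S, G D := by ring

/-- Hölder for one finite sum of nonnegative numbers -/
private theorem Cub_pow {ι : Type} (S : Finset ι) (F : ι → ℝ) (h : ∀ x ∈ S, 0 ≤ F x) (N : ℝ)
    (hN : (S.card : ℝ) ≤ N) (p : ℕ) : (∑ x ∈ S, F x) ^ (p + 1) ≤ N ^ p * ∑ x ∈ S, F x ^ (p + 1) := by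
  have h2 : 0 ≤ ∑ x ∈ S, F x ^ (p + 1) := sum_nonneg fun x hx => pow_nonneg (h x hx) _
  have h3 : (S.card : ℝ) ^ p * ∑ x ∈ S, F x ^ (p + 1) ≤ N ^ p * ∑ x ∈ S, F x ^ (p + 1) :=
    mul_le_mul_of_nonneg_right (pow_le_pow_left₀ (Nat.cast_nonneg _) hN p) h2
  refine le_trans ?_ h3
  rcases S.eq_empty_or_nonempty with rfl | hS
  · simp
  have h4 := pow_sum_div_card_le_sum_pow h p
  have h5 : (0 : ℝ) < (S.card : ℝ) ^ p := pow_pos (by exact_mod_cast card_pos.2 hS) p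
  rw [div_le_iff₀ h5] at h4
  linarith

/-! ### Numbers of representations -/

private theorem Cub_N (hR : St_Rep) (H : ℕ) (hH : 1 ≤ H) (κ : ℝ) (hκ : 0 < κ) (hκ1 : κ ≤ 1) (u v : ℤ)
    (hg : Gd κ H u v) :
    (((sqr (2 * H) ×ˢ sqr (2 * H)).filter
      (fun x => mp (2 * u) (2 * v) x.1 = mp (2 * u) (2 * v) x.2)).card : ℝ) ≤
      225 * (H : ℝ) ^ 2 / κ ^ 2 := by
  have h1 : ((sqr (2 * H) ×ˢ sqr (2 * H)).filter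
      (fun x => mp (2 * u) (2 * v) x.1 = mp (2 * u) (2 * v) x.2)) =
      ((sqr (2 * H) ×ˢ sqr (2 * H)).filter (fun x => mp u v x.1 = mp u v x.2)) := by
    apply filter_congr
    intro x _
    have h2 : ∀ y, mp (2 * u) (2 * v) y = 2 * mp u v y := by
      intro y
      change 2 * u * y.1 + 2 * v * y.2 = 2 * (u * y.1 + v * y.2)
      ring
    rw [h2, h2]
    omega
  rw [h1]
  obtain ⟨h2, h3⟩ := hg
  have h4 := hR H u v hH h2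
  set m := max |(u : ℝ)| |(v : ℝ)| with hm
  have hm0 : 0 < m := by
    rcases h2 with h2 | h2
    · exact lt_of_lt_of_le (abs_pos.2 (Int.cast_ne_zero.2 h2)) (le_max_left _ _)
    · exact lt_of_lt_of_le (abs_pos.2 (Int.cast_ne_zero.2 h2)) (le_max_right _ _)
  have hH0 : (0 : ℝ) < H := by exact_mod_cast hH
  rw [le_div_iff₀ (by positivity)]
  have h5 : κ ^ 2 ≤ 1 := pow_le_one₀ hκ.le hκ1
  refine le_of_mul_le_mul_right ?_ hm0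
  calc _ = κ ^ 2 * ((((sqr (2 * H) ×ˢ sqr (2 * H)).filter (fun x => mp u v x.1 = mp u v x.2)).card : ℝ) *
        m) := by ring
    _ ≤ κ ^ 2 * (25 * (H : ℝ) ^ 2 * (8 * H * (Int.gcd u v : ℝ) + m)) :=
        mul_le_mul_of_nonneg_left h4 (by positivity)
    _ = 25 * (H : ℝ) ^ 2 * (8 * (κ ^ 2 * H * (Int.gcd u v : ℝ)) + κ ^ 2 * m) := by ring
    _ ≤ 25 * (H : ℝ) ^ 2 * (8 * m + 1 * m) := by
        gcongr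
    _ = _ := by ring

/-! ### The two main steps -/

private theorem Cub_C4 {ι : Type} [DecidableEq ι] (S : Finset ι) (M4 M5 M6 M7 : ι → ℤ) (I : Finset ℤ)
    (Ψ : ℤ → ℤ → ℤ → ℤ → ℝ) (ν : ℝ)
    (z4 : ∀ a b c d, a ∉ I → Ψ a b c d = 0) (z5 : ∀ a b c d, b ∉ I → Ψ a b c d = 0)
    (z6 : ∀ a b c d, c ∉ I → Ψ a b c d = 0) (z7 : ∀ a b c d, d ∉ I → Ψ a b c d = 0)
    (h4 : (((S ×ˢ S).filter (fun x => M4 x.1 = M4 x.2)).card : ℝ) ≤ ν)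
    (h5 : (((S ×ˢ S).filter (fun x => M5 x.1 = M5 x.2)).card : ℝ) ≤ ν)
    (h6 : (((S ×ˢ S).filter (fun x => M6 x.1 = M6 x.2)).card : ℝ) ≤ ν)
    (h7 : (((S ×ˢ S).filter (fun x => M7 x.1 = M7 x.2)).card : ℝ) ≤ ν) :
    (∑ v4 ∈ S, ∑ v5 ∈ S, ∑ v6 ∈ S, ∑ v7 ∈ S, Ψ (M4 v4) (M5 v5) (M6 v6) (M7 v7)) ^ 2 ≤
      ν ^ 4 * ∑ D4 ∈ I, ∑ D5 ∈ I, ∑ D6 ∈ I, ∑ D7 ∈ I, Ψ D4 D5 D6 D7 ^ 2 := by
  have s7 : ∀ a b c, (∑ v7 ∈ S, Ψ a b c (M7 v7)) ^ 2 ≤ ν * 1 * ∑ D7 ∈ I, Ψ a b c D7 ^ 2 :=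
    fun a b c => Cub_C2 S M7 I (Ψ a b c) (fun D => Ψ a b c D ^ 2) 1 ν (fun D hD => z7 a b c D hD)
      (fun D => by rw [one_mul]) h7
  have s6 : ∀ a b, (∑ v6 ∈ S, ∑ v7 ∈ S, Ψ a b (M6 v6) (M7 v7)) ^ 2 ≤
      ν * (ν * 1) * ∑ D6 ∈ I, ∑ D7 ∈ I, Ψ a b D6 D7 ^ 2 :=
    fun a b => Cub_C2 S M6 I (fun D => ∑ v7 ∈ S, Ψ a b D (M7 v7)) (fun D => ∑ D7 ∈ I, Ψ a b D D7 ^ 2)
      (ν * 1) ν (fun D hD => sum_eq_zero fun v _ => z6 a b D _ hD) (fun D => s7 a b D) h6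
  have s5 : ∀ a, (∑ v5 ∈ S, ∑ v6 ∈ S, ∑ v7 ∈ S, Ψ a (M5 v5) (M6 v6) (M7 v7)) ^ 2 ≤
      ν * (ν * (ν * 1)) * ∑ D5 ∈ I, ∑ D6 ∈ I, ∑ D7 ∈ I, Ψ a D5 D6 D7 ^ 2 :=
    fun a => Cub_C2 S M5 I (fun D => ∑ v6 ∈ S, ∑ v7 ∈ S, Ψ a D (M6 v6) (M7 v7))
      (fun D => ∑ D6 ∈ I, ∑ D7 ∈ I, Ψ a D D6 D7 ^ 2) (ν * (ν * 1)) ν
      (fun D hD => sum_eq_zero fun v _ => sum_eq_zero fun w _ => z5 a D _ _ hD) (fun D => s6 a D) h5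
  have s4 := Cub_C2 S M4 I (fun D => ∑ v5 ∈ S, ∑ v6 ∈ S, ∑ v7 ∈ S, Ψ D (M5 v5) (M6 v6) (M7 v7))
      (fun D => ∑ D5 ∈ I, ∑ D6 ∈ I, ∑ D7 ∈ I, Ψ D D5 D6 D7 ^ 2) (ν * (ν * (ν * 1))) ν
      (fun D hD => sum_eq_zero fun v _ => sum_eq_zero fun w _ => sum_eq_zero fun x _ =>
        z4 D _ _ _ hD) (fun D => s5 D) h4
  refine s4.trans (le_of_eq ?_)
  ring

private theorem Cub_T3 {ι : Type} (S : Finset ι) (F G : ι → ι → ι → ℝ) (B N : ℝ)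
    (hF : ∀ a b c, F a b c ^ 2 ≤ B * G a b c) (hN : (S.card : ℝ) ≤ N) :
    (∑ a ∈ S, ∑ b ∈ S, ∑ c ∈ S, F a b c) ^ 2 ≤ N ^ 3 * B * ∑ a ∈ S, ∑ b ∈ S, ∑ c ∈ S, G a b c := by
  have s3 : ∀ a b, (∑ c ∈ S, F a b c) ^ 2 ≤ N * B * ∑ c ∈ S, G a b c :=
    fun a b => Cub_T S (F a b) (G a b) B N (fun c _ => hF a b c) hN
  have s2 : ∀ a, (∑ b ∈ S, ∑ c ∈ S, F a b c) ^ 2 ≤ N * (N * B) * ∑ b ∈ S, ∑ c ∈ S, G a b c :=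
    fun a => Cub_T S (fun b => ∑ c ∈ S, F a b c) (fun b => ∑ c ∈ S, G a b c) (N * B) N
      (fun b _ => s3 a b) hN
  have s1 := Cub_T S (fun a => ∑ b ∈ S, ∑ c ∈ S, F a b c) (fun a => ∑ b ∈ S, ∑ c ∈ S, G a b c)
      (N * (N * B)) N (fun a _ => s2 a) hN
  refine s1.trans (le_of_eq ?_)
  ring

private theorem Cub_T4 {ι : Type} (S : Finset ι) (F G : ι → ι → ι → ι → ℝ) (B N : ℝ)
    (hF : ∀ a b c d, F a b c d ^ 2 ≤ B * G a b c d) (hN : (S.card : ℝ) ≤ N) :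
    (∑ a ∈ S, ∑ b ∈ S, ∑ c ∈ S, ∑ d ∈ S, F a b c d) ^ 2 ≤
      N ^ 4 * B * ∑ a ∈ S, ∑ b ∈ S, ∑ c ∈ S, ∑ d ∈ S, G a b c d := by
  have s4 : ∀ a, (∑ b ∈ S, ∑ c ∈ S, ∑ d ∈ S, F a b c d) ^ 2 ≤
      N ^ 3 * B * ∑ b ∈ S, ∑ c ∈ S, ∑ d ∈ S, G a b c d :=
    fun a => Cub_T3 S (F a) (G a) B N (hF a) hN
  have s1 := Cub_T S (fun a => ∑ b ∈ S, ∑ c ∈ S, ∑ d ∈ S, F a b c d)
      (fun a => ∑ b ∈ S, ∑ c ∈ S, ∑ d ∈ S, G a b c d) (N ^ 3 * B) N (fun a _ => s4 a) hN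
  refine s1.trans (le_of_eq ?_)
  ring

private theorem Cub_C3 {ι : Type} [DecidableEq ι] (S : Finset ι) (M1 M2 M3 : ι → ℤ) (I : Finset ℤ)
    (P G : ℤ → ℤ → ℤ → ℝ) (B ν : ℝ)
    (z1 : ∀ a b c, a ∉ I → P a b c = 0) (z2 : ∀ a b c, b ∉ I → P a b c = 0)
    (z3 : ∀ a b c, c ∉ I → P a b c = 0) (hP : ∀ a b c, P a b c ^ 2 ≤ B * G a b c)
    (h1 : (((S ×ˢ S).filter (fun x => M1 x.1 = M1 x.2)).card : ℝ) ≤ ν)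
    (h2 : (((S ×ˢ S).filter (fun x => M2 x.1 = M2 x.2)).card : ℝ) ≤ ν)
    (h3 : (((S ×ˢ S).filter (fun x => M3 x.1 = M3 x.2)).card : ℝ) ≤ ν) :
    (∑ a ∈ S, ∑ b ∈ S, ∑ c ∈ S, P (M1 a) (M2 b) (M3 c)) ^ 2 ≤
      ν ^ 3 * B * ∑ a ∈ I, ∑ b ∈ I, ∑ c ∈ I, G a b c := by
  have s3 : ∀ a b, (∑ c ∈ S, P a b (M3 c)) ^ 2 ≤ ν * B * ∑ c ∈ I, G a b c :=
    fun a b => Cub_C2 S M3 I (P a b) (G a b) B ν (fun D hD => z3 a b D hD) (fun D => hP a b D) h3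
  have s2 : ∀ a, (∑ b ∈ S, ∑ c ∈ S, P a (M2 b) (M3 c)) ^ 2 ≤
      ν * (ν * B) * ∑ b ∈ I, ∑ c ∈ I, G a b c :=
    fun a => Cub_C2 S M2 I (fun D => ∑ c ∈ S, P a D (M3 c)) (fun D => ∑ c ∈ I, G a D c) (ν * B) ν
      (fun D hD => sum_eq_zero fun v _ => z2 a D _ hD) (fun D => s3 a D) h2
  have s1 := Cub_C2 S M1 I (fun D => ∑ b ∈ S, ∑ c ∈ S, P D (M2 b) (M3 c))
      (fun D => ∑ b ∈ I, ∑ c ∈ I, G D b c) (ν * (ν * B)) ν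
      (fun D hD => sum_eq_zero fun v _ => sum_eq_zero fun w _ => z1 D _ _ hD) (fun D => s2 D) h1
  refine s1.trans (le_of_eq ?_)
  ring

private theorem Cub_Phi_zero (M : ℕ) (f : ℤ → ℂ) (h : Bd M f) (I : Finset ℤ)
    (hI : I = Icc (-((2 * M : ℕ) : ℤ)) ((2 * M : ℕ) : ℤ)) (D1 D2 D3 D4 D5 D6 D7 : ℤ)
    (hD : D1 ∉ I ∨ D2 ∉ I ∨ D3 ∉ I ∨ D4 ∉ I ∨ D5 ∉ I ∨ D6 ∉ I ∨ D7 ∉ I) :
    Cub_Phi f D1 D2 D3 D4 D5 D6 D7 = 0 := by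
  subst hI
  unfold Cub_Phi
  have b1 := Cub_bd M f D1 h
  have b2 := Cub_bd M _ D2 b1
  have b3 := Cub_bd M _ D3 b2
  have b4 := Cub_bd M _ D4 b3
  have b5 := Cub_bd M _ D5 b4
  have b6 := Cub_bd M _ D6 b5
  rcases hD with hD | hD | hD | hD | hD | hD | hD
  · rw [Cub_dl0 M f D1 h hD]
    simp only [Cub_zero, tsum_zero, norm_zero]
  · rw [Cub_dl0 M _ D2 b1 hD]
    simp only [Cub_zero, tsum_zero, norm_zero]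
  · rw [Cub_dl0 M _ D3 b2 hD]
    simp only [Cub_zero, tsum_zero, norm_zero]
  · rw [Cub_dl0 M _ D4 b3 hD]
    simp only [Cub_zero, tsum_zero, norm_zero]
  · rw [Cub_dl0 M _ D5 b4 hD]
    simp only [Cub_zero, tsum_zero, norm_zero]
  · rw [Cub_dl0 M _ D6 b5 hD]
    simp only [Cub_zero, tsum_zero, norm_zero]
  · rw [Cub_dl0 M _ D7 b6 hD]
    simp only [tsum_zero, norm_zero]

private theorem Cub_Phi_nn (f : ℤ → ℂ) (D1 D2 D3 D4 D5 D6 D7 : ℤ) :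
    0 ≤ Cub_Phi f D1 D2 D3 D4 D5 D6 D7 := norm_nonneg _

private theorem Cub_sqr (H : ℕ) (hH : 1 ≤ H) : ((sqr (2 * H)).card : ℝ) ≤ 25 * (H : ℝ) ^ 2 := by
  unfold sqr
  rw [card_product, Int.card_Icc]
  have h1 : (((2 * H : ℕ) : ℤ) + 1 - -((2 * H : ℕ) : ℤ)).toNat = 4 * H + 1 := by
    push_cast
    omega
  rw [h1]
  push_cast
  have : (1 : ℝ) ≤ H := by exact_mod_cast hH
  nlinarith

/-- the sum over the last four differences -/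
private noncomputable def Cub_P (f : ℤ → ℂ) (I : Finset ℤ) (D1 D2 D3 : ℤ) : ℝ :=
  ∑ D4 ∈ I, ∑ D5 ∈ I, ∑ D6 ∈ I, ∑ D7 ∈ I, Cub_Phi f D1 D2 D3 D4 D5 D6 D7 ^ 2

private theorem Cub_UU (R : ℕ) (f : ℤ → ℂ) :
    UU 7 R f = ∑ a ∈ Icc (-(R : ℤ)) R, ∑ b ∈ Icc (-(R : ℤ)) R, ∑ c ∈ Icc (-(R : ℤ)) R,
      Cub_P f (Icc (-(R : ℤ)) R) a b c := rfl

/-- First step, for one good triple. -/
private theorem Cub_A (hR : St_Rep) (K H : ℕ) (hH : 1 ≤ H) (κ : ℝ) (hκ : 0 < κ) (hκ1 : κ ≤ 1)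
    (f : ℤ → ℂ) (hf : Bd (K * H ^ 2) f) (I : Finset ℤ)
    (hI : I = Icc (-((2 * (K * H ^ 2) : ℕ) : ℤ)) ((2 * (K * H ^ 2) : ℕ) : ℤ)) (h1 h2 h3 : ℤ)
    (hg : Good κ H h1 h2 h3) :
    dsm (sqr (2 * H)) (L7 h1 h2 h3) f ^ 2 ≤
      (25 * (H : ℝ) ^ 2) ^ 3 * (225 * (H : ℝ) ^ 2 / κ ^ 2) ^ 4 *
      ∑ v1 ∈ sqr (2 * H), ∑ v2 ∈ sqr (2 * H), ∑ v3 ∈ sqr (2 * H),
        Cub_P f I (mp (2 * h1) 0 v1) (mp 0 (2 * h2) v2) (mp (2 * h3) (2 * h3) v3) := by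
  obtain ⟨g4, g5, g6, g7⟩ := hg
  refine Cub_T3 (sqr (2 * H)) (fun v1 v2 v3 => ∑ v4 ∈ sqr (2 * H), ∑ v5 ∈ sqr (2 * H),
    ∑ v6 ∈ sqr (2 * H), ∑ v7 ∈ sqr (2 * H), Cub_Phi f (mp (2 * h1) 0 v1) (mp 0 (2 * h2) v2)
      (mp (2 * h3) (2 * h3) v3) (mp (2 * h1) (2 * h2) v4) (mp (2 * (h1 + h3)) (2 * h3) v5)
      (mp (2 * h3) (2 * (h2 + h3)) v6) (mp (2 * (h1 + h3)) (2 * (h2 + h3)) v7))
    (fun v1 v2 v3 => Cub_P f I (mp (2 * h1) 0 v1) (mp 0 (2 * h2) v2) (mp (2 * h3) (2 * h3) v3))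
    ((225 * (H : ℝ) ^ 2 / κ ^ 2) ^ 4) (25 * (H : ℝ) ^ 2) ?_ (Cub_sqr H hH)
  intro v1 v2 v3
  refine Cub_C4 (sqr (2 * H)) _ _ _ _ I (Cub_Phi f _ _ _) _ ?_ ?_ ?_ ?_
    (Cub_N hR H hH κ hκ hκ1 h1 h2 g4) (Cub_N hR H hH κ hκ hκ1 (h1 + h3) h3 g5)
    (Cub_N hR H hH κ hκ hκ1 h3 (h2 + h3) g6) (Cub_N hR H hH κ hκ hκ1 (h1 + h3) (h2 + h3) g7)
  · intro a b c d h
    exact Cub_Phi_zero _ f hf I hI _ _ _ a b c d (Or.inr (Or.inr (Or.inr (Or.inl h))))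
  · intro a b c d h
    exact Cub_Phi_zero _ f hf I hI _ _ _ a b c d (Or.inr (Or.inr (Or.inr (Or.inr (Or.inl h)))))
  · intro a b c d h
    exact Cub_Phi_zero _ f hf I hI _ _ _ a b c d
      (Or.inr (Or.inr (Or.inr (Or.inr (Or.inr (Or.inl h))))))
  · intro a b c d h
    exact Cub_Phi_zero _ f hf I hI _ _ _ a b c d
      (Or.inr (Or.inr (Or.inr (Or.inr (Or.inr (Or.inr h))))))

private theorem Cub_W (H : ℕ) (P : ℤ → ℤ → ℤ → ℝ) :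
    (∑ h1 ∈ Icc (-(H : ℤ)) H, ∑ h2 ∈ Icc (-(H : ℤ)) H, ∑ h3 ∈ Icc (-(H : ℤ)) H,
      ∑ v1 ∈ sqr (2 * H), ∑ v2 ∈ sqr (2 * H), ∑ v3 ∈ sqr (2 * H),
        P (mp (2 * h1) 0 v1) (mp 0 (2 * h2) v2) (mp (2 * h3) (2 * h3) v3)) =
      ∑ x1 ∈ Icc (-(H : ℤ)) H ×ˢ sqr (2 * H), ∑ x2 ∈ Icc (-(H : ℤ)) H ×ˢ sqr (2 * H),
        ∑ x3 ∈ Icc (-(H : ℤ)) H ×ˢ sqr (2 * H),
        P (2 * x1.1 * mp 1 0 x1.2) (2 * x2.1 * mp 0 1 x2.2) (2 * x3.1 * mp 1 1 x3.2) := by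
  have e1 : ∀ (h : ℤ) (v : ℤ × ℤ), mp (2 * h) 0 v = 2 * h * mp 1 0 v := by
    intro h v
    change 2 * h * v.1 + 0 * v.2 = 2 * h * (1 * v.1 + 0 * v.2)
    ring
  have e2 : ∀ (h : ℤ) (v : ℤ × ℤ), mp 0 (2 * h) v = 2 * h * mp 0 1 v := by
    intro h v
    change 0 * v.1 + 2 * h * v.2 = 2 * h * (0 * v.1 + 1 * v.2)
    ring
  have e3 : ∀ (h : ℤ) (v : ℤ × ℤ), mp (2 * h) (2 * h) v = 2 * h * mp 1 1 v := by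
    intro h v
    change 2 * h * v.1 + 2 * h * v.2 = 2 * h * (1 * v.1 + 1 * v.2)
    ring
  rw [sum_product]
  refine sum_congr rfl fun h1 _ => ?_
  have h5 : ∀ h2 ∈ Icc (-(H : ℤ)) H, (∑ h3 ∈ Icc (-(H : ℤ)) H,
      ∑ v1 ∈ sqr (2 * H), ∑ v2 ∈ sqr (2 * H), ∑ v3 ∈ sqr (2 * H),
      P (mp (2 * h1) 0 v1) (mp 0 (2 * h2) v2) (mp (2 * h3) (2 * h3) v3)) =
      ∑ v1 ∈ sqr (2 * H), ∑ h3 ∈ Icc (-(H : ℤ)) H, ∑ v2 ∈ sqr (2 * H), ∑ v3 ∈ sqr (2 * H),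
      P (mp (2 * h1) 0 v1) (mp 0 (2 * h2) v2) (mp (2 * h3) (2 * h3) v3) := fun h2 _ => sum_comm
  rw [sum_congr rfl h5, sum_comm]
  refine sum_congr rfl fun v1 _ => ?_
  rw [sum_product]
  refine sum_congr rfl fun h2 _ => ?_
  rw [sum_comm]
  refine sum_congr rfl fun v2 _ => ?_
  rw [sum_product]
  refine sum_congr rfl fun h3 _ => ?_
  refine sum_congr rfl fun v3 _ => ?_
  rw [e1, e2, e3]

private theorem Cub_P_sq (K H : ℕ) (hH : 1 ≤ H) (f : ℤ → ℂ) (hf : Bd (K * H ^ 2) f) (I : Finset ℤ)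
    (hI : I = Icc (-((2 * (K * H ^ 2) : ℕ) : ℤ)) ((2 * (K * H ^ 2) : ℕ) : ℤ)) (a b c : ℤ) :
    Cub_P f I a b c ^ 2 ≤ ((((4 * K + 1 : ℕ) : ℝ) * (H : ℝ) ^ 2) ^ 4 *
      (((2 * K + 1 : ℕ) : ℝ) * (H : ℝ) ^ 2) ^ 2) * Cub_P f I a b c := by
  have hH1 : (1 : ℝ) ≤ H := by exact_mod_cast hH
  have hIcard : (I.card : ℝ) ≤ ((4 * K + 1 : ℕ) : ℝ) * (H : ℝ) ^ 2 := by
    rw [hI, Int.card_Icc]
    have h1 : ∀ M : ℕ, (((2 * M : ℕ) : ℤ) + 1 - -((2 * M : ℕ) : ℤ)).toNat = 4 * M + 1 := by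
      intro M
      push_cast
      omega
    rw [h1]
    push_cast
    nlinarith
  have hPhi : ∀ D4 D5 D6 D7, (Cub_Phi f a b c D4 D5 D6 D7 ^ 2) ^ 2 ≤
      (((2 * K + 1 : ℕ) : ℝ) * (H : ℝ) ^ 2) ^ 2 * Cub_Phi f a b c D4 D5 D6 D7 ^ 2 := by
    intro D4 D5 D6 D7
    have h1 := Cub_Phi_le _ f hf a b c D4 D5 D6 D7
    have h2 := Cub_Phi_nn f a b c D4 D5 D6 D7
    have h3 : Cub_Phi f a b c D4 D5 D6 D7 ≤ ((2 * K + 1 : ℕ) : ℝ) * (H : ℝ) ^ 2 := by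
      refine h1.trans ?_
      push_cast
      nlinarith
    rw [sq (Cub_Phi f a b c D4 D5 D6 D7 ^ 2)]
    exact mul_le_mul_of_nonneg_right (pow_le_pow_left₀ h2 h3 2) (sq_nonneg _)
  exact Cub_T4 I (fun D4 D5 D6 D7 => Cub_Phi f a b c D4 D5 D6 D7 ^ 2)
      (fun D4 D5 D6 D7 => Cub_Phi f a b c D4 D5 D6 D7 ^ 2) _ _ hPhi hIcard

/-- Second step. -/
private theorem Cub_B (K H : ℕ) (hH : 1 ≤ H) (f : ℤ → ℂ) (hf : Bd (K * H ^ 2) f) (I : Finset ℤ)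
    (hI : I = Icc (-((2 * (K * H ^ 2) : ℕ) : ℤ)) ((2 * (K * H ^ 2) : ℕ) : ℤ)) (ν : ℝ)
    (hν : ∀ u v : ℤ, ((u = 1 ∧ v = 0) ∨ (u = 0 ∧ v = 1) ∨ (u = 1 ∧ v = 1)) →
      (((((Icc (-(H : ℤ)) H) ×ˢ sqr (2 * H)) ×ˢ ((Icc (-(H : ℤ)) H) ×ˢ sqr (2 * H))).filter
        (fun x => 2 * x.1.1 * mp u v x.1.2 = 2 * x.2.1 * mp u v x.2.2)).card : ℝ) ≤ ν) :
    (∑ h1 ∈ Icc (-(H : ℤ)) H, ∑ h2 ∈ Icc (-(H : ℤ)) H, ∑ h3 ∈ Icc (-(H : ℤ)) H,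
      ∑ v1 ∈ sqr (2 * H), ∑ v2 ∈ sqr (2 * H), ∑ v3 ∈ sqr (2 * H),
        Cub_P f I (mp (2 * h1) 0 v1) (mp 0 (2 * h2) v2) (mp (2 * h3) (2 * h3) v3)) ^ 2 ≤
      ν ^ 3 * ((((4 * K + 1 : ℕ) : ℝ) * (H : ℝ) ^ 2) ^ 4 * (((2 * K + 1 : ℕ) : ℝ) * (H : ℝ) ^ 2) ^ 2) *
        UU 7 (2 * K * H ^ 2) f := by
  have hUU : UU 7 (2 * K * H ^ 2) f = ∑ a ∈ I, ∑ b ∈ I, ∑ c ∈ I, Cub_P f I a b c := by
    have h1 : 2 * K * H ^ 2 = 2 * (K * H ^ 2) := by ring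
    rw [h1, hI, Cub_UU]
  rw [hUU, Cub_W]
  have zz : ∀ a b c, (a ∉ I ∨ b ∉ I ∨ c ∉ I) → Cub_P f I a b c = 0 := by
    intro a b c h
    refine sum_eq_zero fun D4 _ => sum_eq_zero fun D5 _ => sum_eq_zero fun D6 _ =>
      sum_eq_zero fun D7 _ => ?_
    rw [Cub_Phi_zero _ f hf I hI a b c D4 D5 D6 D7 (by tauto)]
    norm_num
  have n1 := hν 1 0 (by simp)
  have n2 := hν 0 1 (by simp)
  have n3 := hν 1 1 (by simp)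
  have key := Cub_C3 (Icc (-(H : ℤ)) H ×ˢ sqr (2 * H))
    (fun x : ℤ × (ℤ × ℤ) => 2 * x.1 * mp 1 0 x.2)
    (fun x : ℤ × (ℤ × ℤ) => 2 * x.1 * mp 0 1 x.2)
    (fun x : ℤ × (ℤ × ℤ) => 2 * x.1 * mp 1 1 x.2) I (Cub_P f I) (Cub_P f I)
    ((((4 * K + 1 : ℕ) : ℝ) * (H : ℝ) ^ 2) ^ 4 * (((2 * K + 1 : ℕ) : ℝ) * (H : ℝ) ^ 2) ^ 2) ν
    (fun a b c h => zz a b c (Or.inl h))
    (fun a b c h => zz a b c (Or.inr (Or.inl h))) (fun a b c h => zz a b c (Or.inr (Or.inr h)))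
    (Cub_P_sq K H hH f hf I hI) n1 n2 n3
  exact key

/-! ### Arithmetic -/

private theorem Cub_e1 (δ H q X Y : ℝ) (hδ : 0 < δ) (hH : 1 ≤ H) (h1 : δ / 2 * H ^ 7 ≤ X)
    (h2 : X ^ 128 ≤ (27 * H ^ 3) ^ 127 * ((q * H ^ 2) ^ 127 * (25 * H ^ 2) ^ 121 * Y)) :
    δ ^ 128 * H ^ 19 ≤ 2 ^ 128 * 27 ^ 127 * q ^ 127 * 25 ^ 121 * Y := by
  have h3 : (δ / 2 * H ^ 7) ^ 128 ≤ X ^ 128 := pow_le_pow_left₀ (by positivity) h1 128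
  have h4 : (δ ^ 128 * H ^ 19) * H ^ 877 ≤ (2 ^ 128 * 27 ^ 127 * q ^ 127 * 25 ^ 121 * Y) * H ^ 877 := by
    calc (δ ^ 128 * H ^ 19) * H ^ 877 = 2 ^ 128 * (δ / 2 * H ^ 7) ^ 128 := by ring
      _ ≤ 2 ^ 128 * ((27 * H ^ 3) ^ 127 * ((q * H ^ 2) ^ 127 * (25 * H ^ 2) ^ 121 * Y)) :=
        mul_le_mul_of_nonneg_left (h3.trans h2) (by positivity)
      _ = _ := by ring
  exact le_of_mul_le_mul_right h4 (by positivity)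

private theorem Cub_e2 (κ H Y W : ℝ) (hκ : 0 < κ)
    (h : Y ^ 2 ≤ 27 * H ^ 3 * ((25 * H ^ 2) ^ 3 * (225 * H ^ 2 / κ ^ 2) ^ 4) * W) :
    κ ^ 8 * Y ^ 2 ≤ 27 * 25 ^ 3 * 225 ^ 4 * H ^ 17 * W := by
  calc κ ^ 8 * Y ^ 2 ≤ κ ^ 8 * (27 * H ^ 3 * ((25 * H ^ 2) ^ 3 * (225 * H ^ 2 / κ ^ 2) ^ 4) * W) :=
        mul_le_mul_of_nonneg_left h (by positivity)
    _ = _ := by
        field_simp

private theorem Cub_e3 (δ H CD l a b W U : ℝ) (hδ : 0 < δ) (hH : 1 ≤ H) (hCD : 0 < CD) (hl : 0 ≤ l)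
    (hl1 : δ * l ≤ 1) (hU : 0 ≤ U)
    (h : W ^ 2 ≤ (CD * H ^ 4 * l ^ 3) ^ 3 * ((a * H ^ 2) ^ 4 * (b * H ^ 2) ^ 2) * U) :
    δ ^ 9 * W ^ 2 ≤ CD ^ 3 * a ^ 4 * b ^ 2 * H ^ 24 * U := by
  have h1 : (δ * l) ^ 9 ≤ 1 := pow_le_one₀ (by positivity) hl1
  calc δ ^ 9 * W ^ 2 ≤ δ ^ 9 * ((CD * H ^ 4 * l ^ 3) ^ 3 * ((a * H ^ 2) ^ 4 * (b * H ^ 2) ^ 2) * U) :=
        mul_le_mul_of_nonneg_left h (by positivity)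
    _ = (δ * l) ^ 9 * (CD ^ 3 * a ^ 4 * b ^ 2 * H ^ 24 * U) := by ring
    _ ≤ 1 * (CD ^ 3 * a ^ 4 * b ^ 2 * H ^ 24 * U) := by
        refine mul_le_mul_of_nonneg_right h1 ?_
        have : 0 ≤ a ^ 4 * b ^ 2 := by positivity
        positivity
    _ = _ := one_mul _

private theorem Cub_e4 (δ κ H A1 A2 A3 Y W U : ℝ) (hδ : 0 < δ) (hκ : 0 < κ) (hH : 1 ≤ H)
    (h1 : δ ^ 128 * H ^ 19 ≤ A1 * Y) (h2 : κ ^ 8 * Y ^ 2 ≤ A2 * H ^ 17 * W)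
    (h3 : δ ^ 9 * W ^ 2 ≤ A3 * H ^ 24 * U) :
    κ ^ 16 * δ ^ 521 * H ^ 18 ≤ (A1 ^ 2 * A2) ^ 2 * A3 * U := by
  have s1 : (δ ^ 128 * H ^ 19) ^ 2 ≤ (A1 * Y) ^ 2 := pow_le_pow_left₀ (by positivity) h1 2
  have s2 : (κ ^ 8 * δ ^ 256 * H ^ 21) * H ^ 17 ≤ (A1 ^ 2 * A2 * W) * H ^ 17 := by
    calc (κ ^ 8 * δ ^ 256 * H ^ 21) * H ^ 17 = κ ^ 8 * (δ ^ 128 * H ^ 19) ^ 2 := by ring
      _ ≤ κ ^ 8 * (A1 * Y) ^ 2 := mul_le_mul_of_nonneg_left s1 (by positivity)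
      _ = A1 ^ 2 * (κ ^ 8 * Y ^ 2) := by ring
      _ ≤ A1 ^ 2 * (A2 * H ^ 17 * W) := mul_le_mul_of_nonneg_left h2 (by positivity)
      _ = _ := by ring
  have s3 : κ ^ 8 * δ ^ 256 * H ^ 21 ≤ A1 ^ 2 * A2 * W := le_of_mul_le_mul_right s2 (by positivity)
  have s4 : (κ ^ 8 * δ ^ 256 * H ^ 21) ^ 2 ≤ (A1 ^ 2 * A2 * W) ^ 2 :=
    pow_le_pow_left₀ (by positivity) s3 2
  have s5 : (κ ^ 16 * δ ^ 521 * H ^ 18) * H ^ 24 ≤ ((A1 ^ 2 * A2) ^ 2 * A3 * U) * H ^ 24 := by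
    calc (κ ^ 16 * δ ^ 521 * H ^ 18) * H ^ 24 = δ ^ 9 * (κ ^ 8 * δ ^ 256 * H ^ 21) ^ 2 := by ring
      _ ≤ δ ^ 9 * (A1 ^ 2 * A2 * W) ^ 2 := mul_le_mul_of_nonneg_left s4 (by positivity)
      _ = (A1 ^ 2 * A2) ^ 2 * (δ ^ 9 * W ^ 2) := by ring
      _ ≤ (A1 ^ 2 * A2) ^ 2 * (A3 * H ^ 24 * U) := mul_le_mul_of_nonneg_left h3 (by positivity)
      _ = _ := by ring
  exact le_of_mul_le_mul_right s5 (by positivity)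

private theorem Cub_SS (K H : ℕ) (hH : 1 ≤ H) (f : ℤ → ℂ) (hf : Bd (K * H ^ 2) f) (h1 h2 h3 : ℤ) :
    ‖SS H f h1 h2 h3‖ ≤ 9 * ((2 * K + 1 : ℕ) : ℝ) * (H : ℝ) ^ 4 := by
  have hH1 : (1 : ℝ) ≤ H := by exact_mod_cast hH
  have e0 : ((Icc (-(H : ℤ)) H).card : ℝ) ≤ 3 * H := by
    rw [Int.card_Icc]
    have : ((H : ℤ) + 1 - -(H : ℤ)).toNat = 2 * H + 1 := by omega
    rw [this]
    push_cast
    linarith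
  have e1 : ∀ a b : ℤ, ‖∑' n : ℤ, dl (2 * a * h1) (dl (2 * b * h2) (dl (2 * (a + b) * h3) f)) n‖ ≤
      ((2 * K + 1 : ℕ) : ℝ) * (H : ℝ) ^ 2 := by
    intro a b
    refine (Cub_ts _ _ (Cub_bd _ _ _ (Cub_bd _ _ _ (Cub_bd _ _ _ hf)))).trans ?_
    push_cast
    nlinarith
  have e2 : ∀ (s : Finset ℤ) (g : ℤ → ℂ) (x : ℝ), (∀ a, ‖g a‖ ≤ x) → ‖∑ a ∈ s, g a‖ ≤ s.card * x := by
    intro s g x hx
    refine (norm_sum_le_of_le s fun a _ => hx a).trans ?_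
    rw [sum_const, nsmul_eq_mul]
  have e3 : ‖SS H f h1 h2 h3‖ ≤ ((Icc (-(H : ℤ)) H).card : ℝ) * (((Icc (-(H : ℤ)) H).card : ℝ) *
      (((2 * K + 1 : ℕ) : ℝ) * (H : ℝ) ^ 2)) :=
    e2 _ _ _ fun a => e2 _ _ _ fun b => e1 a b
  refine e3.trans ?_
  calc _ ≤ (3 * (H : ℝ)) * ((3 * H) * (((2 * K + 1 : ℕ) : ℝ) * (H : ℝ) ^ 2)) := by gcongr
    _ = _ := by ring

theorem thm_Cub (hC : St_Cl) (hR : St_Rep) (hB : St_Bad) (hD : St_Div) : St_Cub := by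
  classical
  intro K
  obtain ⟨CD, hCD, hD⟩ := hD
  obtain ⟨c0, hc0⟩ := pow_unbounded_of_one_lt (36000 * ((2 * K + 1 : ℕ) : ℝ)) (one_lt_two (α := ℝ))
  set q : ℝ := ((2 * K + 1 : ℕ) : ℝ) with hq
  have hq0 : 0 < q := by rw [hq]; positivity
  obtain ⟨A1, hA1⟩ : ∃ A1 : ℝ, A1 = 2 ^ 128 * 27 ^ 127 * q ^ 127 * 25 ^ 121 := ⟨_, rfl⟩
  obtain ⟨A2, hA2⟩ : ∃ A2 : ℝ, A2 = 27 * 25 ^ 3 * 225 ^ 4 := ⟨_, rfl⟩
  obtain ⟨A3, hA3⟩ : ∃ A3 : ℝ, A3 = CD ^ 3 * ((4 * K + 1 : ℕ) : ℝ) ^ 4 * q ^ 2 := ⟨_, rfl⟩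
  have hA1p : 0 < A1 := by rw [hA1]; positivity
  have hA2p : 0 < A2 := by rw [hA2]; positivity
  have hA3p : 0 < A3 := by rw [hA3]; positivity
  obtain ⟨k, hk⟩ := pow_unbounded_of_one_lt ((A1 ^ 2 * A2) ^ 2 * A3) (one_lt_two (α := ℝ))
  refine ⟨16 * (c0 + 1) + 521 + k, ?_⟩
  rintro H δ ⟨hδ, hδ2, hlog, hHδ⟩ f hf hV
  have hH : 1 ≤ H := by
    by_contra hcon
    have : H = 0 := by omega
    rw [this] at hHδ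
    norm_num at hHδ
  have hH1 : (1 : ℝ) ≤ H := by exact_mod_cast hH
  have hδ1 : δ ≤ 1 := by linarith
  obtain ⟨κ, hκd⟩ : ∃ κ : ℝ, κ = δ ^ (c0 + 1) := ⟨_, rfl⟩
  have hκ : 0 < κ := by rw [hκd]; positivity
  have hκ1 : κ ≤ 1 := by rw [hκd]; exact pow_le_one₀ hδ.le hδ1
  have hκH : 1 ≤ κ * H := by
    refine hHδ.trans ?_
    rw [hκd]
    refine mul_le_mul_of_nonneg_right (pow_le_pow_of_le_one hδ.le hδ1 (by omega)) (by positivity)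
  have hκδ : 36000 * q * κ ≤ δ := by
    have h1 : δ ^ c0 ≤ (1 / 2 : ℝ) ^ c0 := pow_le_pow_left₀ hδ.le hδ2 c0
    have h2 : (2 : ℝ) ^ c0 * (1 / 2 : ℝ) ^ c0 = 1 := by rw [← mul_pow]; norm_num
    have h3 : 36000 * q * δ ^ c0 ≤ 1 := by
      calc 36000 * q * δ ^ c0 ≤ 2 ^ c0 * (1 / 2 : ℝ) ^ c0 := by
            refine mul_le_mul hc0.le h1 (by positivity) (by positivity)
        _ = 1 := h2
    rw [hκd, pow_succ]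
    nlinarith
  set T : Finset (ℤ × ℤ × ℤ) := Icc (-(H : ℤ)) H ×ˢ (Icc (-(H : ℤ)) H ×ˢ Icc (-(H : ℤ)) H) with hT
  have hTcard : (T.card : ℝ) ≤ 27 * (H : ℝ) ^ 3 := by
    rw [hT, card_product, card_product, Int.card_Icc]
    have : ((H : ℤ) + 1 - -(H : ℤ)).toNat = 2 * H + 1 := by omega
    rw [this]
    push_cast
    calc (2 * (H : ℝ) + 1) * ((2 * H + 1) * (2 * H + 1)) ≤ (3 * H) * ((3 * H) * (3 * H)) := by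
          gcongr <;> linarith
      _ = _ := by ring
  set G : Finset (ℤ × ℤ × ℤ) := T.filter (fun x => Good κ H x.1 x.2.1 x.2.2) with hG
  have hGcard : (G.card : ℝ) ≤ 27 * (H : ℝ) ^ 3 := by
    refine le_trans ?_ hTcard
    exact_mod_cast card_le_card (filter_subset _ _)
  have hBad : ((T.filter (fun x => ¬ Good κ H x.1 x.2.1 x.2.2)).card : ℝ) ≤
      2000 * κ * (H : ℝ) ^ 3 := by
    have h1 := hB H κ hκ hκ1 hκH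
    have h2 : {x : ℤ × ℤ × ℤ | x.1 ∈ Icc (-(H : ℤ)) H ∧ x.2.1 ∈ Icc (-(H : ℤ)) H ∧
        x.2.2 ∈ Icc (-(H : ℤ)) H ∧ ¬ Good κ H x.1 x.2.1 x.2.2} =
        ((T.filter (fun x => ¬ Good κ H x.1 x.2.1 x.2.2) : Finset (ℤ × ℤ × ℤ)) :
          Set (ℤ × ℤ × ℤ)) := by
      ext x
      simp only [Set.mem_ofPred_eq, coe_filter, hT, mem_product]
      tauto
    rw [h2, Set.ncard_coe_finset] at h1
    exact h1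
  -- the good triples
  obtain ⟨X, hX⟩ : ∃ X : ℝ, X = ∑ x ∈ G, ‖SS H f x.1 x.2.1 x.2.2‖ := ⟨_, rfl⟩
  have hXlow : δ / 2 * (H : ℝ) ^ 7 ≤ X := by
    have h1 : VV H f = ∑ x ∈ T, ‖SS H f x.1 x.2.1 x.2.2‖ := by
      rw [hT, sum_product]
      refine sum_congr rfl fun h1 _ => ?_
      rw [sum_product]
    have h2 : VV H f = X + ∑ x ∈ T.filter (fun x => ¬ Good κ H x.1 x.2.1 x.2.2),
        ‖SS H f x.1 x.2.1 x.2.2‖ := by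
      rw [h1, hX, hG, sum_filter_add_sum_filter_not]
    have h3 : ∑ x ∈ T.filter (fun x => ¬ Good κ H x.1 x.2.1 x.2.2), ‖SS H f x.1 x.2.1 x.2.2‖ ≤
        (2000 * κ * (H : ℝ) ^ 3) * (9 * q * (H : ℝ) ^ 4) := by
      refine (sum_le_card_nsmul _ _ _ fun x _ => Cub_SS K H hH f hf x.1 x.2.1 x.2.2).trans ?_
      rw [nsmul_eq_mul]
      exact mul_le_mul_of_nonneg_right hBad (by positivity)
    have h4 : (2000 * κ * (H : ℝ) ^ 3) * (9 * q * (H : ℝ) ^ 4) ≤ δ / 2 * (H : ℝ) ^ 7 := by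
      calc (2000 * κ * (H : ℝ) ^ 3) * (9 * q * (H : ℝ) ^ 4) = (36000 * q * κ) / 2 * (H : ℝ) ^ 7 := by
            ring
        _ ≤ _ := by gcongr
    linarith
  obtain ⟨Y, hY⟩ : ∃ Y : ℝ, Y = ∑ x ∈ G, dsm (sqr (2 * H)) (L7 x.1 x.2.1 x.2.2) f := ⟨_, rfl⟩
  have hXY : X ^ 128 ≤ (27 * (H : ℝ) ^ 3) ^ 127 * ((q * (H : ℝ) ^ 2) ^ 127 * (25 * (H : ℝ) ^ 2) ^ 121 * Y) := by
    rw [hX]
    refine (Cub_pow G _ (fun x _ => norm_nonneg _) _ hGcard 127).trans ?_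
    refine mul_le_mul_of_nonneg_left ?_ (by positivity)
    rw [hY, mul_sum]
    refine sum_le_sum fun x _ => ?_
    have h1 := hC K H f hH hf x.1 x.2.1 x.2.2
    have h2 : (2 * (K : ℝ) + 1) = q := by rw [hq]; push_cast; ring
    rw [h2] at h1
    exact h1
  obtain ⟨I, hI⟩ : ∃ I : Finset ℤ, I = Icc (-((2 * (K * H ^ 2) : ℕ) : ℤ)) ((2 * (K * H ^ 2) : ℕ) : ℤ) :=
    ⟨_, rfl⟩
  obtain ⟨W, hW⟩ : ∃ W : ℝ, W = ∑ h1 ∈ Icc (-(H : ℤ)) H, ∑ h2 ∈ Icc (-(H : ℤ)) H,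
      ∑ h3 ∈ Icc (-(H : ℤ)) H,
      ∑ v1 ∈ sqr (2 * H), ∑ v2 ∈ sqr (2 * H), ∑ v3 ∈ sqr (2 * H),
        Cub_P f I (mp (2 * h1) 0 v1) (mp 0 (2 * h2) v2) (mp (2 * h3) (2 * h3) v3) := ⟨_, rfl⟩
  have hPnn : ∀ a b c, 0 ≤ Cub_P f I a b c := fun a b c =>
    sum_nonneg fun _ _ => sum_nonneg fun _ _ => sum_nonneg fun _ _ => sum_nonneg fun _ _ => sq_nonneg _
  have hYW : Y ^ 2 ≤ 27 * (H : ℝ) ^ 3 * ((25 * (H : ℝ) ^ 2) ^ 3 * (225 * (H : ℝ) ^ 2 / κ ^ 2) ^ 4) * W := by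
    rw [hY]
    refine (Cub_T G _ (fun x => ∑ v1 ∈ sqr (2 * H), ∑ v2 ∈ sqr (2 * H), ∑ v3 ∈ sqr (2 * H),
        Cub_P f I (mp (2 * x.1) 0 v1) (mp 0 (2 * x.2.1) v2) (mp (2 * x.2.2) (2 * x.2.2) v3))
      ((25 * (H : ℝ) ^ 2) ^ 3 * (225 * (H : ℝ) ^ 2 / κ ^ 2) ^ 4) _ ?_ hGcard).trans ?_
    · intro x hx
      rw [hG, mem_filter] at hx
      exact Cub_A hR K H hH κ hκ hκ1 f hf I hI x.1 x.2.1 x.2.2 hx.2
    · refine mul_le_mul_of_nonneg_left ?_ (by positivity)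
      have h1 : W = ∑ x ∈ T, ∑ v1 ∈ sqr (2 * H), ∑ v2 ∈ sqr (2 * H), ∑ v3 ∈ sqr (2 * H),
        Cub_P f I (mp (2 * x.1) 0 v1) (mp 0 (2 * x.2.1) v2) (mp (2 * x.2.2) (2 * x.2.2) v3) := by
        rw [hW, hT, sum_product]
        refine sum_congr rfl fun h1 _ => ?_
        rw [sum_product]
      rw [h1]
      exact sum_le_sum_of_subset_of_nonneg (filter_subset _ _) fun x _ _ =>
        sum_nonneg fun _ _ => sum_nonneg fun _ _ => sum_nonneg fun _ _ => hPnn _ _ _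
  have hUnn : 0 ≤ UU 7 (2 * K * H ^ 2) f := by
    rw [Cub_UU]
    exact sum_nonneg fun _ _ => sum_nonneg fun _ _ => sum_nonneg fun _ _ =>
      sum_nonneg fun _ _ => sum_nonneg fun _ _ => sum_nonneg fun _ _ => sum_nonneg fun _ _ => sq_nonneg _
  have hWU := Cub_B K H hH f hf I hI (CD * (H : ℝ) ^ 4 * (1 + Real.log H) ^ 3)
    (fun u v huv => hD H u v hH huv)
  rw [← hW] at hWU
  have hlog0 : 0 ≤ 1 + Real.log H := by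
    have := Real.log_nonneg hH1
    linarith
  have r1 := Cub_e1 δ H q X Y hδ hH1 hXlow hXY
  rw [← hA1] at r1
  have r2 := Cub_e2 κ H Y W hκ hYW
  rw [← hA2] at r2
  have r3 := Cub_e3 δ H CD (1 + Real.log H) _ q W _ hδ hH1 hCD hlog0 hlog hUnn hWU
  rw [← hA3] at r3
  have r4 := Cub_e4 δ κ H A1 A2 A3 Y W _ hδ hκ hH1 r1 r2 r3
  have h1 : δ ^ k ≤ (1 / 2 : ℝ) ^ k := pow_le_pow_left₀ hδ.le hδ2 k
  have h2 : (2 : ℝ) ^ k * (1 / 2 : ℝ) ^ k = 1 := by rw [← mul_pow]; norm_num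
  have h3 : ((A1 ^ 2 * A2) ^ 2 * A3) * δ ^ k ≤ 1 := by
    calc ((A1 ^ 2 * A2) ^ 2 * A3) * δ ^ k ≤ 2 ^ k * (1 / 2 : ℝ) ^ k := by
          refine mul_le_mul hk.le h1 (by positivity) (by positivity)
      _ = 1 := h2
  calc δ ^ (16 * (c0 + 1) + 521 + k) * (H : ℝ) ^ 18 = δ ^ k * (κ ^ 16 * δ ^ 521 * (H : ℝ) ^ 18) := by
        rw [hκd, pow_add, pow_add, mul_comm 16 (c0 + 1), pow_mul]
        ring
    _ ≤ δ ^ k * ((A1 ^ 2 * A2) ^ 2 * A3 * UU 7 (2 * K * H ^ 2) f) :=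
        mul_le_mul_of_nonneg_left r4 (by positivity)
    _ = ((A1 ^ 2 * A2) ^ 2 * A3) * δ ^ k * UU 7 (2 * K * H ^ 2) f := by ring
    _ ≤ 1 * UU 7 (2 * K * H ^ 2) f := mul_le_mul_of_nonneg_right h3 hUnn
    _ = _ := one_mul _

end Pool.Agent.NRP
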