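import Mathlib
import Pool.Agent.NRP.StI

set_option autoImplicit false

/-!
# NRP: assembly of the degree lowering
-/

namespace Pool.Agent.NRP

open Finset
open Pool.Agent.GBQ (ee nd)
open scoped ComplexConjugate

theorem DL_exists_pow (X : ℝ) : ∃ N : ℕ, ∀ δ : ℝ, 0 < δ → δ ≤ 1 / 2 → X * δ ^ N ≤ 1 := by
  obtain ⟨N, hN⟩ := pow_unbounded_of_one_lt X (by norm_num : (1 : ℝ) < 2)
  refine ⟨N, fun δ h0 h1 => ?_⟩
  calc X * δ ^ N ≤ 2 ^ N * δ ^ N := mul_le_mul_of_nonneg_right hN.le (by positivity)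
    _ = (2 * δ) ^ N := by rw [mul_pow]
    _ ≤ 1 := pow_le_one₀ (by positivity) (by linarith)

theorem DL_rg {C C' e H : ℕ} {δ : ℝ} (h : Rg C H δ) (he : 1 ≤ e) (hC : e * C' ≤ C) :
    Rg C' H (δ ^ e) := by
  obtain ⟨h0, h1, h2, h3⟩ := h
  have hle : δ ^ e ≤ δ := by
    calc δ ^ e ≤ δ ^ 1 := pow_le_pow_of_le_one h0.le (by linarith) he
      _ = δ := pow_one δ
  have hlog : 0 ≤ 1 + Real.log H := by
    have : 0 ≤ Real.log H := Real.log_natCast_nonneg H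
    linarith
  refine ⟨pow_pos h0 e, hle.trans h1, (mul_le_mul_of_nonneg_right hle hlog).trans h2, h3.trans ?_⟩
  rw [← pow_mul]
  exact mul_le_mul_of_nonneg_right (pow_le_pow_of_le_one h0.le (by linarith) hC) (Nat.cast_nonneg H)

theorem DL_H {C H : ℕ} {δ : ℝ} (h : Rg C H δ) : 1 ≤ H := by
  obtain ⟨h0, h1, h2, h3⟩ := h
  rcases Nat.eq_zero_or_pos H with rfl | hp
  · simp at h3
    linarith
  · exact hp

theorem DL_tsum (M : ℕ) (f : ℤ → ℂ) (hf : ∀ n : ℤ, (M : ℤ) < |n| → f n = 0) :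
    ∑' n : ℤ, f n = ∑ n ∈ Icc (-(M : ℤ)) M, f n := by
  refine tsum_eq_sum fun n hn => hf n ?_
  rw [mem_Icc] at hn
  by_contra hc
  push Not at hc
  exact hn (abs_le.1 hc)

theorem DL_card (M : ℕ) : ((Icc (-(M : ℤ)) M).card : ℝ) = 2 * M + 1 := by
  have : (Icc (-(M : ℤ)) M).card = 2 * M + 1 := by
    rw [Int.card_Icc]
    omega
  rw [this]
  push_cast
  ring

theorem DL_norm (M : ℕ) (f : ℤ → ℂ) (hf : ∀ n : ℤ, (M : ℤ) < |n| → f n = 0) (b : ℝ)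
    (hb : ∀ n : ℤ, |n| ≤ M → ‖f n‖ ≤ b) : ‖∑' n : ℤ, f n‖ ≤ (2 * M + 1) * b := by
  rw [DL_tsum M f hf]
  calc ‖∑ n ∈ Icc (-(M : ℤ)) M, f n‖ ≤ ∑ n ∈ Icc (-(M : ℤ)) M, ‖f n‖ := norm_sum_le _ _
    _ ≤ ∑ _n ∈ Icc (-(M : ℤ)) M, b := sum_le_sum fun n hn => hb n (abs_le.2 (mem_Icc.1 hn))
    _ = (2 * M + 1) * b := by rw [sum_const, nsmul_eq_mul, DL_card]

theorem DL_TT (K H : ℕ) (c : ℤ) (g0 g1 g2 : ℤ → ℂ) (hH : 1 ≤ H) (h0 : Bd (K * H ^ 2) g0)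
    (h1 : ∀ n, ‖g1 n‖ ≤ 1) (h2 : ∀ n, ‖g2 n‖ ≤ 1) :
    ‖TT c H g0 g1 g2‖ ≤ (2 * K + 1) * (H : ℝ) ^ 3 := by
  have hH' : (1 : ℝ) ≤ H := by exact_mod_cast hH
  have hterm : ∀ h : ℤ, ‖∑' n : ℤ, g0 n * g1 (n + h) * g2 (n + pp c h)‖ ≤
      (2 * ((K * H ^ 2 : ℕ) : ℝ) + 1) * 1 := by
    intro h
    refine DL_norm _ _ (fun n hn => ?_) 1 (fun n _ => ?_)
    · rw [h0.2 n hn, zero_mul, zero_mul]
    · rw [norm_mul, norm_mul]
      have e0 := h0.1 n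
      have e1 := h1 (n + h)
      have e2 := h2 (n + pp c h)
      calc ‖g0 n‖ * ‖g1 (n + h)‖ * ‖g2 (n + pp c h)‖ ≤ 1 * 1 * 1 := by gcongr
        _ = 1 := by norm_num
  unfold TT
  calc ‖∑ h ∈ Icc (1 : ℤ) H, ∑' n : ℤ, g0 n * g1 (n + h) * g2 (n + pp c h)‖
      ≤ ∑ h ∈ Icc (1 : ℤ) H, ‖∑' n : ℤ, g0 n * g1 (n + h) * g2 (n + pp c h)‖ := norm_sum_le _ _
    _ ≤ ∑ _h ∈ Icc (1 : ℤ) H, (2 * ((K * H ^ 2 : ℕ) : ℝ) + 1) * 1 := sum_le_sum fun h _ => hterm h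
    _ = H * (2 * (K * (H : ℝ) ^ 2) + 1) := by
        rw [sum_const, nsmul_eq_mul, Int.card_Icc]
        have : ((H : ℤ) + 1 - 1).toNat = H := by omega
        rw [this]
        push_cast
        ring
    _ ≤ (2 * K + 1) * (H : ℝ) ^ 3 := by
        have h3 : (H : ℝ) ≤ (H : ℝ) ^ 3 := by
          calc (H : ℝ) = (H : ℝ) ^ 1 := (pow_one _).symm
            _ ≤ (H : ℝ) ^ 3 := pow_le_pow_right₀ hH' (by norm_num)
        nlinarith

/-- pigeonhole -/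
theorem DL_many {ι : Type} (S : Finset ι) (a : ι → ℝ) (P : ι → Prop) [DecidablePred P] (U τ : ℝ)
    (h1 : ∀ i ∈ S, a i ≤ U) (h2 : ∀ i ∈ S, ¬ P i → a i ≤ τ) (hτ : 0 ≤ τ) :
    ∑ i ∈ S, a i ≤ (S.filter P).card * U + S.card * τ := by
  rw [← sum_filter_add_sum_filter_not S P a]
  refine add_le_add ?_ ?_
  · calc ∑ i ∈ S.filter P, a i ≤ ∑ _i ∈ S.filter P, U :=
        sum_le_sum fun i hi => h1 i (mem_filter.1 hi).1
      _ = _ := by rw [sum_const, nsmul_eq_mul]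
  · calc ∑ i ∈ S.filter (fun i => ¬ P i), a i ≤ ∑ _i ∈ S.filter (fun i => ¬ P i), τ :=
        sum_le_sum fun i hi => h2 i (mem_filter.1 hi).1 (mem_filter.1 hi).2
      _ = ((S.filter (fun i => ¬ P i)).card : ℝ) * τ := by rw [sum_const, nsmul_eq_mul]
      _ ≤ S.card * τ := by
        refine mul_le_mul_of_nonneg_right ?_ hτ
        exact_mod_cast card_le_card (filter_subset _ _)

theorem DL_bx (m K H : ℕ) (hH : 1 ≤ H) :
    ((bx m (2 * (K + 2) * H ^ 2)).card : ℝ) ≤ (4 * K + 9) ^ m * (H : ℝ) ^ (2 * m) := by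
  unfold bx
  rw [Fintype.card_piFinset_const, Nat.cast_pow, pow_mul, ← mul_pow]
  refine pow_le_pow_left₀ (Nat.cast_nonneg _) ?_ m
  have h := DL_card (2 * (K + 2) * H ^ 2)
  rw [h]
  push_cast
  have hH' : (1 : ℝ) ≤ H := by exact_mod_cast hH
  nlinarith

theorem DL_ee (x y : ℝ) (t : ℤ) (ε : ℝ) (j : ℤ) (h : y = x + j + ε) :
    ‖ee (x * t) - ee (y * t)‖ ≤ 2 * Real.pi * |ε| * |(t : ℝ)| := by
  have e1 : ee (y * t) = ee (x * t) * ee (ε * t) := by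
    have : y * t = x * t + ε * t + ((j * t : ℤ) : ℝ) := by
      rw [h]
      push_cast
      ring
    rw [this, Pool.Agent.GBQ.ee_add_int, Pool.Agent.GBQ.ee_add]
  rw [e1]
  have e2 : ee (x * t) - ee (x * t) * ee (ε * t) = -(ee (x * t) * (ee (ε * t) - 1)) := by ring
  rw [e2, norm_neg, norm_mul, Pool.Agent.GBQ.ee_norm, one_mul]
  have e3 : ee (ε * t) = Complex.exp (Complex.I * ((2 * Real.pi * (ε * t) : ℝ) : ℂ)) := by
    unfold ee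
    rw [mul_comm]
  rw [e3]
  refine Real.norm_exp_I_mul_ofReal_sub_one_le.trans ?_
  rw [Real.norm_eq_abs, abs_mul, abs_mul, abs_mul, abs_of_pos Real.pi_pos, abs_two]
  ring_nf
  rfl

theorem DL_diff (M : ℕ) (G : ℤ → ℂ) (hG : Bd M G) (x y ε : ℝ) (j : ℤ) (h : y = x + j + ε) :
    ‖∑' n : ℤ, G n * ee (y * n)‖ ≤ ‖∑' n : ℤ, G n * ee (x * n)‖ +
      (2 * M + 1) * (2 * Real.pi * |ε| * M) := by
  have hs : ∀ z : ℝ, ∑' n : ℤ, G n * ee (z * n) = ∑ n ∈ Icc (-(M : ℤ)) M, G n * ee (z * n) := by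
    intro z
    exact DL_tsum M _ fun n hn => by rw [hG.2 n hn, zero_mul]
  have hd : ‖∑' n : ℤ, G n * ee (x * n) - ∑' n : ℤ, G n * ee (y * n)‖ ≤
      (2 * M + 1) * (2 * Real.pi * |ε| * M) := by
    rw [hs x, hs y, ← sum_sub_distrib]
    calc ‖∑ n ∈ Icc (-(M : ℤ)) M, (G n * ee (x * n) - G n * ee (y * n))‖
        ≤ ∑ n ∈ Icc (-(M : ℤ)) M, ‖G n * ee (x * n) - G n * ee (y * n)‖ := norm_sum_le _ _
      _ ≤ ∑ _n ∈ Icc (-(M : ℤ)) M, 2 * Real.pi * |ε| * M := by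
          refine sum_le_sum fun n hn => ?_
          rw [← mul_sub, norm_mul]
          have h1 := hG.1 n
          have h2 := DL_ee x y n ε j h
          have h3 : |(n : ℝ)| ≤ M := by
            have := abs_le.2 (mem_Icc.1 hn)
            exact_mod_cast this
          have h4 : 0 ≤ 2 * Real.pi * |ε| := by positivity
          calc ‖G n‖ * ‖ee (x * n) - ee (y * n)‖ ≤ 1 * (2 * Real.pi * |ε| * |(n : ℝ)|) := by
                gcongr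
            _ ≤ 2 * Real.pi * |ε| * M := by
                rw [one_mul]
                exact mul_le_mul_of_nonneg_left h3 h4
      _ = (2 * M + 1) * (2 * Real.pi * |ε| * M) := by rw [sum_const, nsmul_eq_mul, DL_card]
  have e : ∑' n : ℤ, G n * ee (y * n) = ∑' n : ℤ, G n * ee (x * n) -
      (∑' n : ℤ, G n * ee (x * n) - ∑' n : ℤ, G n * ee (y * n)) := by ring
  rw [e]
  exact (norm_sub_le _ _).trans (add_le_add le_rfl hd)

theorem DL_step1 (K m N H : ℕ) (δ : ℝ) (hδ0 : 0 < δ) (hδ1 : δ ≤ 1 / 2)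
    (hN : 2 * (2 * K + 5) ^ 3 * (4 * K + 9) ^ m * δ ^ N ≤ 1) (hH : 1 ≤ H)
    (a W : (Fin m → ℤ) → ℝ) (ha0 : ∀ k, 0 ≤ a k) (ha : ∀ k, a k ≤ (2 * K + 5) * (H : ℝ) ^ 2)
    (hW : ∀ k, W k ≤ (2 * K + 5) * (H : ℝ) ^ 2 * a k ^ 2)
    (hbig : δ * (H : ℝ) ^ (2 * m + 6) ≤ ∑ k ∈ bx m (2 * (K + 2) * H ^ 2), W k) :
    δ ^ (N + 1) * (H : ℝ) ^ (2 * m) ≤
      ((bx m (2 * (K + 2) * H ^ 2)).filter (fun k => δ ^ (N + 1) * (H : ℝ) ^ 2 ≤ a k)).card := by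
  have hH' : (1 : ℝ) ≤ H := by exact_mod_cast hH
  set A : ℝ := 2 * K + 5 with hA
  have hA1 : 1 ≤ A := by
    rw [hA]
    have : (0 : ℝ) ≤ K := Nat.cast_nonneg K
    linarith
  set B : ℝ := (4 * K + 9) ^ m with hB
  have hB1 : 1 ≤ B := by
    rw [hB]
    refine one_le_pow₀ ?_
    have : (0 : ℝ) ≤ K := Nat.cast_nonneg K
    linarith
  set x : ℝ := δ ^ (N + 1) with hx
  have hx0 : 0 < x := pow_pos hδ0 _
  have hx1 : x ≤ 1 := pow_le_one₀ hδ0.le (by linarith)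
  have hxs : 2 * A ^ 3 * B * x ≤ δ := by
    have : 2 * A ^ 3 * B * x = (2 * A ^ 3 * B * δ ^ N) * δ := by
      rw [hx, pow_succ]
      ring
    rw [this]
    calc _ ≤ 1 * δ := mul_le_mul_of_nonneg_right hN hδ0.le
      _ = δ := one_mul _
  have hcard := DL_bx m K H hH
  have hkey := DL_many (bx m (2 * (K + 2) * H ^ 2)) W (fun k => x * (H : ℝ) ^ 2 ≤ a k)
    (A ^ 3 * (H : ℝ) ^ 6) (A * (H : ℝ) ^ 2 * (x * (H : ℝ) ^ 2) ^ 2)
    (fun k _ => (hW k).trans (by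
      calc A * (H : ℝ) ^ 2 * a k ^ 2 ≤ A * (H : ℝ) ^ 2 * (A * (H : ℝ) ^ 2) ^ 2 := by
            refine mul_le_mul_of_nonneg_left (pow_le_pow_left₀ (ha0 k) (ha k) 2) (by positivity)
        _ = A ^ 3 * (H : ℝ) ^ 6 := by ring))
    (fun k _ hk => (hW k).trans (by
      refine mul_le_mul_of_nonneg_left (pow_le_pow_left₀ (ha0 k) (not_le.1 hk).le 2) (by positivity)))
    (by positivity)
  set c : ℝ := (((bx m (2 * (K + 2) * H ^ 2)).filter (fun k => x * (H : ℝ) ^ 2 ≤ a k)).card : ℝ)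
    with hc
  have hHm : 0 < (H : ℝ) ^ (2 * m) := by positivity
  have h1 : ((bx m (2 * (K + 2) * H ^ 2)).card : ℝ) * (A * (H : ℝ) ^ 2 * (x * (H : ℝ) ^ 2) ^ 2) ≤
      δ / 2 * (H : ℝ) ^ (2 * m + 6) := by
    calc _ ≤ (B * (H : ℝ) ^ (2 * m)) * (A * (H : ℝ) ^ 2 * (x * (H : ℝ) ^ 2) ^ 2) :=
          mul_le_mul_of_nonneg_right hcard (by positivity)
      _ = (A * B * x ^ 2) * (H : ℝ) ^ (2 * m + 6) := by
          rw [pow_add]
          ring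
      _ ≤ δ / 2 * (H : ℝ) ^ (2 * m + 6) := by
          refine mul_le_mul_of_nonneg_right ?_ (by positivity)
          have h2 : A * B * x ^ 2 ≤ A ^ 3 * B * x := by
            have h3 : A ≤ A ^ 3 := by
              calc A = A ^ 1 := (pow_one _).symm
                _ ≤ A ^ 3 := pow_le_pow_right₀ hA1 (by norm_num)
            have h4 : x ^ 2 ≤ x := by nlinarith
            gcongr
          linarith
  have h2 : δ / 2 * (H : ℝ) ^ (2 * m + 6) ≤ c * (A ^ 3 * (H : ℝ) ^ 6) := by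
    have := hbig.trans (hkey.trans (add_le_add le_rfl h1))
    linarith
  have h3 : δ / 2 * (H : ℝ) ^ (2 * m) ≤ c * A ^ 3 := by
    have h6 : (0 : ℝ) < (H : ℝ) ^ 6 := by positivity
    have h7 : δ / 2 * (H : ℝ) ^ (2 * m) * (H : ℝ) ^ 6 ≤ c * A ^ 3 * (H : ℝ) ^ 6 := by
      rw [pow_add] at h2
      linarith
    exact le_of_mul_le_mul_right h7 h6
  have hA3 : 0 < A ^ 3 := by positivity
  have h8 : x * (H : ℝ) ^ (2 * m) * A ^ 3 ≤ c * A ^ 3 := by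
    refine le_trans ?_ h3
    have h9 : A ^ 3 * x ≤ δ / 2 := by
      have : A ^ 3 * x ≤ A ^ 3 * B * x := by
        have h10 : 0 < A ^ 3 * x := by positivity
        nlinarith
      linarith
    calc x * (H : ℝ) ^ (2 * m) * A ^ 3 = (A ^ 3 * x) * (H : ℝ) ^ (2 * m) := by ring
      _ ≤ δ / 2 * (H : ℝ) ^ (2 * m) := mul_le_mul_of_nonneg_right h9 hHm.le
  exact le_of_mul_le_mul_right h8 hA3

theorem DL_step3 (K m N c H : ℕ) (δ : ℝ) (hδ0 : 0 < δ)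
    (hN : 2 * ((4 * K + 9) ^ m * ((4 * K + 9) ^ m + (2 * K + 1))) * δ ^ N ≤ 1) (hH : 1 ≤ H)
    (K1 : Finset (Fin m → ℤ)) (hK1 : K1 ⊆ bx m (2 * (K + 2) * H ^ 2))
    (T : (Fin m → ℤ) → (Fin m → ℤ) → ℝ) (hT : ∀ k0 k1, T k0 k1 ≤ (2 * K + 1) * (H : ℝ) ^ 3)
    (hbig : δ ^ c * (H : ℝ) ^ (4 * m + 3) ≤ ∑ k0 ∈ K1, ∑ k1 ∈ K1, T k0 k1) :
    ∃ k0 ∈ K1, δ ^ (c + N) * (H : ℝ) ^ (2 * m) ≤
      (K1.filter (fun k1 => δ ^ (c + N) * (H : ℝ) ^ 3 ≤ T k0 k1)).card := by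
  by_contra hcon
  push Not at hcon
  have hH' : (1 : ℝ) ≤ H := by exact_mod_cast hH
  have hK0 : (0 : ℝ) ≤ K := Nat.cast_nonneg K
  set B : ℝ := (4 * K + 9) ^ m with hB
  have hB1 : 1 ≤ B := by
    rw [hB]
    refine one_le_pow₀ ?_
    linarith
  set E : ℝ := 2 * K + 1 with hE
  have hE0 : 0 < E := by rw [hE]; linarith
  set x : ℝ := δ ^ (c + N) with hx
  have hx0 : 0 < x := pow_pos hδ0 _
  have hc0 : 0 < δ ^ c := pow_pos hδ0 _
  have hxs : 2 * (B * (B + E)) * x ≤ δ ^ c := by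
    have : 2 * (B * (B + E)) * x = (2 * (B * (B + E)) * δ ^ N) * δ ^ c := by
      rw [hx, pow_add]
      ring
    rw [this]
    calc _ ≤ 1 * δ ^ c := mul_le_mul_of_nonneg_right hN hc0.le
      _ = δ ^ c := one_mul _
  have hcardK : (K1.card : ℝ) ≤ B * (H : ℝ) ^ (2 * m) := by
    refine le_trans ?_ (DL_bx m K H hH)
    exact_mod_cast card_le_card hK1
  have hrow : ∀ k0 ∈ K1, ∑ k1 ∈ K1, T k0 k1 ≤ (B + E) * x * (H : ℝ) ^ (2 * m + 3) := by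
    intro k0 hk0
    have h1 := DL_many K1 (T k0) (fun k1 => x * (H : ℝ) ^ 3 ≤ T k0 k1) (E * (H : ℝ) ^ 3)
      (x * (H : ℝ) ^ 3) (fun k1 _ => hT k0 k1) (fun k1 _ hk => (not_le.1 hk).le) (by positivity)
    refine h1.trans ?_
    have h2 := (hcon k0 hk0).le
    calc _ ≤ (x * (H : ℝ) ^ (2 * m)) * (E * (H : ℝ) ^ 3) + (B * (H : ℝ) ^ (2 * m)) * (x * (H : ℝ) ^ 3) :=
          add_le_add (mul_le_mul_of_nonneg_right h2 (by positivity))
            (mul_le_mul_of_nonneg_right hcardK (by positivity))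
      _ = (B + E) * x * (H : ℝ) ^ (2 * m + 3) := by
          rw [pow_add]
          ring
  have hall : ∑ k0 ∈ K1, ∑ k1 ∈ K1, T k0 k1 ≤
      (B * (H : ℝ) ^ (2 * m)) * ((B + E) * x * (H : ℝ) ^ (2 * m + 3)) := by
    calc _ ≤ ∑ _k0 ∈ K1, (B + E) * x * (H : ℝ) ^ (2 * m + 3) := sum_le_sum hrow
      _ = (K1.card : ℝ) * ((B + E) * x * (H : ℝ) ^ (2 * m + 3)) := by rw [sum_const, nsmul_eq_mul]
      _ ≤ _ := mul_le_mul_of_nonneg_right hcardK (by positivity)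
  have hP : (0 : ℝ) < (H : ℝ) ^ (4 * m + 3) := by positivity
  have h5 : (B * (H : ℝ) ^ (2 * m)) * ((B + E) * x * (H : ℝ) ^ (2 * m + 3)) =
      (B * (B + E) * x) * (H : ℝ) ^ (4 * m + 3) := by
    have : (H : ℝ) ^ (4 * m + 3) = (H : ℝ) ^ (2 * m) * (H : ℝ) ^ (2 * m + 3) := by
      rw [← pow_add]
      congr 1
      ring
    rw [this]
    ring
  rw [h5] at hall
  have h6 := hbig.trans hall
  have h7 : δ ^ c ≤ B * (B + E) * x := le_of_mul_le_mul_right h6 hP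
  linarith

theorem thm_DL (hU : St_U2I) (hI : St_Ic) (hW : St_Weyl) (hC : St_Cell) (hE : St_Dec) (hF : St_Fin)
    (hD : St_Dls) (hDu : St_Dual) : St_DL := by
  intro K m hm
  obtain ⟨-, -, -, hD4, -, hD6, -⟩ := hD
  obtain ⟨N1, hN1⟩ := DL_exists_pow (2 * (2 * K + 5) ^ 3 * (4 * K + 9) ^ m)
  obtain ⟨CI, hCI⟩ := hI K m hm
  obtain ⟨N4, hN4⟩ := DL_exists_pow (2 * ((4 * K + 9) ^ m * ((4 * K + 9) ^ m + (2 * K + 1))))
  obtain ⟨CW, hCW⟩ := hW K ((N1 + 1) * CI + N4)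
  obtain ⟨N5, hN5⟩ := DL_exists_pow (16 * (2 * K + 5) * (K + 2))
  obtain ⟨CC, hCC⟩ := hC CW (N1 + 1 + N5)
  obtain ⟨CF, hCF⟩ := hF (K + 2) m hm
  refine ⟨(N1 + 1) * CI + CW + (N1 + 2 + CC + ((N1 + 1) * CI + N4)) * CF, ?_⟩
  intro H δ hRg c hc f0 f1 hf0 hf1 hbig
  have hδ0 : 0 < δ := hRg.1
  have hδ1 : δ ≤ 1 / 2 := hRg.2.1
  have hδ2 : δ ≤ 1 := by linarith
  have hH := DL_H hRg
  have hH' : (1 : ℝ) ≤ H := by exact_mod_cast hH
  have hK0 : (0 : ℝ) ≤ K := Nat.cast_nonneg K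
  set F := dualF c H f0 f1 with hFdef
  have hFB : Bd ((K + 2) * H ^ 2) F := (hDu K H c hH hc f0 f1 f1 hf0 hf1 hf1).1.1
  have hM : (2 * (((K + 2) * H ^ 2 : ℕ) : ℝ) + 1) ≤ (2 * K + 5) * (H : ℝ) ^ 2 := by
    push_cast
    nlinarith
  have hφ' := fun k : Fin m → ℤ =>
    hU ((K + 2) * H ^ 2) (2 * (K + 2) * H ^ 2) (dls m k F) (hD4 m _ k F hFB).1
  choose φ hφ using hφ'
  set a : (Fin m → ℤ) → ℝ := fun k => ‖∑' x : ℤ, dls m k F x * ee (φ k * x)‖ with ha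
  have ha0 : ∀ k, 0 ≤ a k := fun k => norm_nonneg _
  have hab : ∀ k, a k ≤ (2 * K + 5) * (H : ℝ) ^ 2 := by
    intro k
    have h := DL_norm ((K + 2) * H ^ 2) (fun x : ℤ => dls m k F x * ee (φ k * x))
      (fun n hn => by
        show dls m k F n * ee (φ k * n) = 0
        rw [(hD4 m _ k F hFB).1.2 n hn, zero_mul]) 1
      (fun n _ => by
        show ‖dls m k F n * ee (φ k * n)‖ ≤ 1
        rw [norm_mul, Pool.Agent.GBQ.ee_norm, mul_one]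
        exact (hD4 m _ k F hFB).1.1 n)
    rw [mul_one] at h
    exact h.trans hM
  have hbig' : δ * (H : ℝ) ^ (2 * m + 6) ≤
      ∑ k ∈ bx m (2 * (K + 2) * H ^ 2), UU 1 (2 * (K + 2) * H ^ 2) (dls m k F) := by
    rw [← hD6 m (2 * (K + 2) * H ^ 2) F]
    exact hbig
  have hs1 := DL_step1 K m N1 H δ hδ0 hδ1 (hN1 δ hδ0 hδ1) hH a
    (fun k => UU 1 (2 * (K + 2) * H ^ 2) (dls m k F)) ha0 hab
    (fun k => (hφ k).trans (mul_le_mul_of_nonneg_right hM (sq_nonneg _))) hbig'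
  set K1 := (bx m (2 * (K + 2) * H ^ 2)).filter (fun k => δ ^ (N1 + 1) * (H : ℝ) ^ 2 ≤ a k) with hK1
  have hK1s : K1 ⊆ bx m (2 * (K + 2) * H ^ 2) := filter_subset _ _
  have hs2 := hCI H (δ ^ (N1 + 1)) (DL_rg hRg (by omega) (by
    rw [add_assoc]
    exact Nat.le_add_right _ _)) c hc f0 f1 hf0 hf1 K1 φ hK1s hs1
    (fun k hk => (mem_filter.1 hk).2)
  rw [← pow_mul] at hs2
  have hTb : ∀ k0 k1 : Fin m → ℤ, ‖TT c H (dls m (k1 - k0) f0) (dls m (k1 - k0) f1)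
      (fun n => ee (-((-1) ^ m * dph m φ k0 k1) * n))‖ ≤ (2 * K + 1) * (H : ℝ) ^ 3 := by
    intro k0 k1
    exact DL_TT K H c _ _ _ hH (hD4 m _ _ f0 hf0).1 (hD4 m _ _ f1 hf1).1.1
      (fun n => (Pool.Agent.GBQ.ee_norm _).le)
  obtain ⟨k0, hk0, hs3⟩ := DL_step3 K m N4 ((N1 + 1) * CI) H δ hδ0 (hN4 δ hδ0 hδ1) hH K1 hK1s
    (fun k0 k1 => ‖TT c H (dls m (k1 - k0) f0) (dls m (k1 - k0) f1)
      (fun n => ee (-((-1) ^ m * dph m φ k0 k1) * n))‖) hTb hs2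
  set S := K1.filter (fun k1 => δ ^ ((N1 + 1) * CI + N4) * (H : ℝ) ^ 3 ≤
    ‖TT c H (dls m (k1 - k0) f0) (dls m (k1 - k0) f1)
      (fun n => ee (-((-1) ^ m * dph m φ k0 k1) * n))‖) with hS
  have hRW : Rg CW H δ := by
    have h := DL_rg (C' := CW) (e := 1) hRg le_rfl (by
      rw [one_mul]
      have : CW ≤ (N1 + 1) * CI + CW := Nat.le_add_left _ _
      exact this.trans (Nat.le_add_right _ _))
    rwa [pow_one] at h
  have hMj : ∀ k1 ∈ S, Mj CW H δ (-((-1) ^ m * dph m φ k0 k1)) := by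
    intro k1 hk1
    exact hCW H δ hRW c hc _ _ (hD4 m _ (k1 - k0) f0 hf0).1 (hD4 m _ (k1 - k0) f1 hf1).1 _
      (mem_filter.1 hk1).2
  obtain ⟨θ, hθ⟩ := hCC H δ hH hδ0 hδ1 (Fin m → ℤ) S (fun k1 => -((-1) ^ m * dph m φ k0 k1)) hMj
  obtain ⟨ψ, hψI, hψ⟩ := hE m φ k0
  set K2 := S.filter (fun k1 => nd (-((-1) ^ m * dph m φ k0 k1) - θ) ≤
    δ ^ (N1 + 1 + N5) / (H : ℝ) ^ 2) with hK2
  have hK2s : K2 ⊆ bx m (2 * (K + 2) * H ^ 2) :=
    (filter_subset _ _).trans ((filter_subset _ _).trans hK1s)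
  have hfin := hCF H (δ ^ (N1 + 2 + CC + ((N1 + 1) * CI + N4)))
    (DL_rg hRg (by omega) (Nat.le_add_left _ _)) F hFB K2 (-θ)
    (fun i k => -((-1) ^ m * ψ i k))
    (fun i k k' h => by
      show -((-1) ^ m * ψ i k) = -((-1) ^ m * ψ i k')
      rw [hψI i k k' h]) hK2s ?_ ?_
  · rw [← pow_mul] at hfin
    refine le_trans ?_ hfin
    refine mul_le_mul_of_nonneg_right ?_ (by positivity)
    exact pow_le_pow_of_le_one hδ0.le hδ2 (Nat.le_add_left _ _)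
  · calc δ ^ (N1 + 2 + CC + ((N1 + 1) * CI + N4)) * (H : ℝ) ^ (2 * m)
        ≤ δ ^ (CC + ((N1 + 1) * CI + N4)) * (H : ℝ) ^ (2 * m) := by
          refine mul_le_mul_of_nonneg_right ?_ (by positivity)
          exact pow_le_pow_of_le_one hδ0.le hδ2 (by omega)
      _ = δ ^ CC * (δ ^ ((N1 + 1) * CI + N4) * (H : ℝ) ^ (2 * m)) := by
          rw [pow_add]
          ring
      _ ≤ δ ^ CC * (S.card : ℝ) := mul_le_mul_of_nonneg_left hs3 (by positivity)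
      _ ≤ _ := hθ
  · intro k hk
    have hk2 := mem_filter.1 hk
    have hk1 : k ∈ K1 := (mem_filter.1 hk2.1).1
    have hka : δ ^ (N1 + 1) * (H : ℝ) ^ 2 ≤ a k := (mem_filter.1 hk1).2
    set y : ℝ := -((-1) ^ m * dph m φ k0 k) - θ with hy
    have hε : |y - round y| ≤ δ ^ (N1 + 1 + N5) / (H : ℝ) ^ 2 := hk2.2
    have hsgn : ((-1 : ℝ) ^ m) * (-1) ^ m = 1 := by
      rw [← mul_pow]
      norm_num
    have hdec : φ k = (-θ + ∑ i, -((-1) ^ m * ψ i k)) + ((-round y : ℤ) : ℝ) + -(y - round y) := by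
      have h1 := hψ k
      have h2 : ∑ i, -((-1 : ℝ) ^ m * ψ i k) = -((-1) ^ m * ∑ i, ψ i k) := by
        rw [sum_neg_distrib, mul_sum]
      rw [h2, Int.cast_neg, hy, h1]
      linear_combination (-(φ k)) * hsgn
    have hd := DL_diff ((K + 2) * H ^ 2) (dls m k F) (hD4 m _ k F hFB).1
      (-θ + ∑ i, -((-1) ^ m * ψ i k)) (φ k) (-(y - round y)) (-round y) hdec
    rw [abs_neg] at hd
    have herr : (2 * (((K + 2) * H ^ 2 : ℕ) : ℝ) + 1) *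
        (2 * Real.pi * |y - round y| * (((K + 2) * H ^ 2 : ℕ) : ℝ)) ≤
        δ ^ (N1 + 1) * (H : ℝ) ^ 2 / 2 := by
      have hpi : Real.pi ≤ 4 := Real.pi_le_four
      have hpi0 : 0 < Real.pi := Real.pi_pos
      have hcast : (((K + 2) * H ^ 2 : ℕ) : ℝ) = (K + 2) * (H : ℝ) ^ 2 := by push_cast; ring
      have h16 := hN5 δ hδ0 hδ1
      have hHp : (0 : ℝ) < (H : ℝ) ^ 2 := by positivity
      calc _ ≤ ((2 * K + 5) * (H : ℝ) ^ 2) *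
            (2 * 4 * (δ ^ (N1 + 1 + N5) / (H : ℝ) ^ 2) * ((K + 2) * (H : ℝ) ^ 2)) := by
            rw [hcast] at hM ⊢
            gcongr
        _ = (16 * (2 * K + 5) * (K + 2) * δ ^ N5) * (δ ^ (N1 + 1) * (H : ℝ) ^ 2 / 2) := by
            rw [pow_add δ (N1 + 1) N5]
            field_simp
            ring
        _ ≤ 1 * (δ ^ (N1 + 1) * (H : ℝ) ^ 2 / 2) := mul_le_mul_of_nonneg_right h16 (by positivity)
        _ = _ := one_mul _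
    have hfinal : δ ^ (N1 + 1) * (H : ℝ) ^ 2 / 2 ≤
        ‖∑' x : ℤ, dls m k F x * ee ((-θ + ∑ i, -((-1) ^ m * ψ i k)) * x)‖ := by
      have h1 : a k ≤ _ := hd
      linarith
    refine le_trans ?_ hfinal
    calc δ ^ (N1 + 2 + CC + ((N1 + 1) * CI + N4)) * (H : ℝ) ^ 2 ≤ δ ^ (N1 + 2) * (H : ℝ) ^ 2 := by
          refine mul_le_mul_of_nonneg_right ?_ (by positivity)
          exact pow_le_pow_of_le_one hδ0.le hδ2 (by omega)
      _ = δ ^ (N1 + 1) * (H : ℝ) ^ 2 * δ := by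
          rw [pow_succ]
          ring
      _ ≤ δ ^ (N1 + 1) * (H : ℝ) ^ 2 * (1 / 2) := mul_le_mul_of_nonneg_left hδ1 (by positivity)
      _ = _ := by ring

end Pool.Agent.NRP
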