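import Mathlib
import Pool.Agent.NRP.StI

set_option autoImplicit false

/-!
# NRP: alternating sum of phases (`St_Dec`)
-/

namespace Pool.Agent.NRP

open Finset

theorem thm_Dec : St_Dec := by
  intro m
  induction m with
  | zero =>
    intro φ k0
    refine ⟨fun i => i.elim0, fun i => i.elim0, fun k1 => ?_⟩
    have h : k0 = k1 := Subsingleton.elim _ _
    subst h
    simp [dph]
  | succ m ih =>
    intro φ k0
    choose ψ hψ hd using fun a : ℤ =>
      ih (fun k => φ (Fin.cons (k0 0) k) - φ (Fin.cons a k)) (Fin.tail k0)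
    refine ⟨Fin.cons (fun k => (-1) ^ m * φ (Fin.cons (k0 0) (Fin.tail k)))
      (fun i k => ψ (k 0) i (Fin.tail k)), ?_, ?_⟩
    · intro i
      refine Fin.cases ?_ ?_ i
      · intro k k' h
        simp only [Fin.cons_zero]
        have h1 : Fin.tail k = Fin.tail k' := by
          funext j
          exact h j.succ (Fin.succ_ne_zero j)
        rw [h1]
      · intro i k k' h
        simp only [Fin.cons_succ]
        have h0 : k 0 = k' 0 := h 0 (Fin.succ_ne_zero i).symm
        rw [h0]
        refine hψ (k' 0) i _ _ fun j hj => h j.succ fun e => hj (Fin.succ_injective _ e)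
    · intro k1
      have h2 : dph (m + 1) φ k0 k1 =
          dph m (fun k => φ (Fin.cons (k0 0) k) - φ (Fin.cons (k1 0) k)) (Fin.tail k0)
            (Fin.tail k1) := rfl
      rw [h2, hd (k1 0) (Fin.tail k1), Fin.sum_univ_succ]
      simp only [Fin.cons_zero, Fin.cons_succ, Fin.cons_self_tail]
      rw [pow_succ]
      ring

end Pool.Agent.NRP
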