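import Pool.Agent.NRP.StI
import Pool.Agent.MT.Vaughan

set_option autoImplicit false

/-!
# NRP: second moment of the number of representations `D = 2 h (u x + v y)`
-/

namespace Pool.Agent.NRP

open Finset

theorem Div_pairs {α : Type} [DecidableEq α] (S : Finset α) (φ : α → ℤ) :
    ((S ×ˢ S).filter (fun x => φ x.1 = φ x.2)).card =
      ∑ D ∈ S.image φ, (S.filter (fun a => φ a = D)).card ^ 2 := by
  rw [Finset.card_eq_sum_card_fiberwise (f := fun x : α × α => φ x.1) (t := S.image φ)]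
  · refine Finset.sum_congr rfl fun D _ => ?_
    rw [pow_two, ← Finset.card_product]
    congr 1
    ext x
    simp only [Finset.mem_filter, Finset.mem_product]
    constructor
    · rintro ⟨⟨⟨h1, h2⟩, h3⟩, h4⟩
      exact ⟨⟨h1, h4⟩, ⟨h2, by rw [← h3]; exact h4⟩⟩
    · rintro ⟨⟨h1, h2⟩, ⟨h3, h4⟩⟩
      exact ⟨⟨⟨h1, h3⟩, by rw [h2, h4]⟩, h2⟩
  · intro x hx
    have hx' := Finset.mem_filter.1 (Finset.mem_coe.1 hx)
    exact Finset.mem_coe.2 (Finset.mem_image_of_mem _ (Finset.mem_product.1 hx'.1).1)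

theorem Div_signed (H : ℕ) (D : ℤ) (hD : D ≠ 0) :
    ((Icc (-(H : ℤ)) H).filter (fun h => h ≠ 0 ∧ h ∣ D)).card ≤ 2 * D.natAbs.divisors.card := by
  have h2 : (2 : ℕ) = (Finset.univ : Finset Bool).card := by simp
  rw [h2, ← Finset.card_product]
  refine Finset.card_le_card_of_injOn (fun h => (decide (0 ≤ h), h.natAbs)) ?_ ?_
  · intro h hh
    have hh' := Finset.mem_filter.1 (Finset.mem_coe.1 hh)
    refine Finset.mem_coe.2 (Finset.mem_product.2 ⟨Finset.mem_univ _, ?_⟩)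
    rw [Nat.mem_divisors]
    exact ⟨Int.natAbs_dvd_natAbs.2 hh'.2.2, by simpa using hD⟩
  · intro h _ h' _ hE
    rw [Prod.mk.injEq] at hE
    obtain ⟨e1, e2⟩ := hE
    have e3 : (0 ≤ h) ↔ (0 ≤ h') := by simpa using e1
    omega

/-- The second coordinate which together with the value of the form determines the vector. -/
theorem Div_inj (u v : ℤ) (huv : (u = 1 ∧ v = 0) ∨ (u = 0 ∧ v = 1) ∨ (u = 1 ∧ v = 1)) :
    ∃ t : ℤ × ℤ → ℤ, (∀ x, t x = x.1 ∨ t x = x.2) ∧
      ∀ x y, mp u v x = mp u v y → t x = t y → x = y := by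
  have hmp : ∀ x : ℤ × ℤ, mp u v x = u * x.1 + v * x.2 := fun x => rfl
  rcases huv with ⟨rfl, rfl⟩ | ⟨rfl, rfl⟩ | ⟨rfl, rfl⟩
  · refine ⟨fun x => x.2, fun x => Or.inr rfl, fun x y h1 h2 => ?_⟩
    rw [hmp, hmp] at h1
    have h2' : x.2 = y.2 := h2
    exact Prod.ext (by linarith) h2'
  · refine ⟨fun x => x.1, fun x => Or.inl rfl, fun x y h1 h2 => ?_⟩
    rw [hmp, hmp] at h1
    have h2' : x.1 = y.1 := h2
    exact Prod.ext h2' (by linarith)
  · refine ⟨fun x => x.1, fun x => Or.inl rfl, fun x y h1 h2 => ?_⟩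
    rw [hmp, hmp] at h1
    have h2' : x.1 = y.1 := h2
    exact Prod.ext h2' (by linarith)

theorem Div_card_Icc (H : ℕ) : (Icc (-((2 * H : ℕ) : ℤ)) ((2 * H : ℕ) : ℤ)).card = 4 * H + 1 := by
  rw [Int.card_Icc]
  omega

theorem Div_count (H : ℕ) (u v : ℤ)
    (huv : (u = 1 ∧ v = 0) ∨ (u = 0 ∧ v = 1) ∨ (u = 1 ∧ v = 1)) (D : ℤ) (hD : D ≠ 0) :
    (((Icc (-(H : ℤ)) H) ×ˢ sqr (2 * H)).filter (fun a => 2 * a.1 * mp u v a.2 = D)).card ≤
      2 * D.natAbs.divisors.card * (4 * H + 1) := by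
  obtain ⟨t, ht, hinj⟩ := Div_inj u v huv
  refine le_trans ?_ (Nat.mul_le_mul_right _ (Div_signed H D hD))
  rw [← Div_card_Icc, ← Finset.card_product]
  refine Finset.card_le_card_of_injOn (fun a => (a.1, t a.2)) ?_ ?_
  · intro a ha
    have ha' := Finset.mem_filter.1 (Finset.mem_coe.1 ha)
    have ha1 := Finset.mem_product.1 ha'.1
    refine Finset.mem_coe.2 (Finset.mem_product.2 ⟨Finset.mem_filter.2 ⟨ha1.1, ?_, ?_⟩, ?_⟩)
    · intro h0
      apply hD
      rw [← ha'.2]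
      show 2 * a.1 * mp u v a.2 = 0
      have : a.1 = 0 := h0
      rw [this]
      ring
    · exact ⟨2 * mp u v a.2, by rw [← ha'.2]; ring⟩
    · have h2 := Finset.mem_product.1 (show a.2 ∈ _ from ha1.2)
      show t a.2 ∈ _
      rcases ht a.2 with h | h
      · rw [h]; exact h2.1
      · rw [h]; exact h2.2
  · intro a ha b hb hab
    have ha' := (Finset.mem_filter.1 (Finset.mem_coe.1 ha)).2
    have hb' := (Finset.mem_filter.1 (Finset.mem_coe.1 hb)).2
    rw [Prod.mk.injEq] at hab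
    obtain ⟨e1, e2⟩ := hab
    have h0 : a.1 ≠ 0 := by
      intro h0
      apply hD
      rw [← ha', h0]
      ring
    have e3 : mp u v a.2 = mp u v b.2 := by
      have : 2 * a.1 * mp u v a.2 = 2 * a.1 * mp u v b.2 := by
        rw [ha', e1, hb']
      exact mul_left_cancel₀ (mul_ne_zero two_ne_zero h0) this
    exact Prod.ext e1 (hinj _ _ e3 e2)

theorem Div_zero (H : ℕ) (hH : 1 ≤ H) (u v : ℤ)
    (huv : (u = 1 ∧ v = 0) ∨ (u = 0 ∧ v = 1) ∨ (u = 1 ∧ v = 1)) :
    (((Icc (-(H : ℤ)) H) ×ˢ sqr (2 * H)).filter (fun a => 2 * a.1 * mp u v a.2 = 0)).card ≤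
      40 * H ^ 2 := by
  obtain ⟨t, ht, hinj⟩ := Div_inj u v huv
  have hsub : ((Icc (-(H : ℤ)) H) ×ˢ sqr (2 * H)).filter (fun a => 2 * a.1 * mp u v a.2 = 0) ⊆
      ({(0 : ℤ)} ×ˢ sqr (2 * H)) ∪
        (((Icc (-(H : ℤ)) H) ×ˢ sqr (2 * H)).filter (fun a => mp u v a.2 = 0)) := by
    intro a ha
    have ha' := Finset.mem_filter.1 ha
    have ha1 := Finset.mem_product.1 ha'.1
    rw [Finset.mem_union]
    rcases mul_eq_zero.1 ha'.2 with h | h
    · left
      refine Finset.mem_product.2 ⟨?_, ha1.2⟩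
      rw [Finset.mem_singleton]
      rcases mul_eq_zero.1 h with h' | h'
      · norm_num at h'
      · exact h'
    · right
      exact Finset.mem_filter.2 ⟨ha'.1, h⟩
  have h1 : ({(0 : ℤ)} ×ˢ sqr (2 * H)).card = (4 * H + 1) * (4 * H + 1) := by
    rw [Finset.card_product, Finset.card_singleton, one_mul]
    unfold sqr
    rw [Finset.card_product, Div_card_Icc]
  have h2 : (((Icc (-(H : ℤ)) H) ×ˢ sqr (2 * H)).filter (fun a => mp u v a.2 = 0)).card ≤
      (2 * H + 1) * (4 * H + 1) := by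
    have hc : (Icc (-(H : ℤ)) (H : ℤ)).card = 2 * H + 1 := by
      rw [Int.card_Icc]
      omega
    rw [← Div_card_Icc, ← hc, ← Finset.card_product]
    refine Finset.card_le_card_of_injOn (fun a => (a.1, t a.2)) ?_ ?_
    · intro a ha
      have ha' := Finset.mem_filter.1 (Finset.mem_coe.1 ha)
      have ha1 := Finset.mem_product.1 ha'.1
      refine Finset.mem_coe.2 (Finset.mem_product.2 ⟨ha1.1, ?_⟩)
      have h2 := Finset.mem_product.1 (show a.2 ∈ _ from ha1.2)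
      show t a.2 ∈ _
      rcases ht a.2 with h | h
      · rw [h]; exact h2.1
      · rw [h]; exact h2.2
    · intro a ha b hb hab
      have ha' := (Finset.mem_filter.1 (Finset.mem_coe.1 ha)).2
      have hb' := (Finset.mem_filter.1 (Finset.mem_coe.1 hb)).2
      rw [Prod.mk.injEq] at hab
      obtain ⟨e1, e2⟩ := hab
      exact Prod.ext e1 (hinj _ _ (by rw [ha', hb']) e2)
  have h3 := (Finset.card_le_card hsub).trans (Finset.card_union_le _ _)
  nlinarith

theorem Div_natAbs_sum (T : Finset ℤ) (X : ℕ) (hT : ∀ D ∈ T, D ≠ 0 ∧ D.natAbs ≤ X)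
    (g : ℕ → ℝ) (hg : ∀ k, 0 ≤ g k) :
    ∑ D ∈ T, g D.natAbs ≤ 2 * ∑ k ∈ Icc 1 X, g k := by
  have hmaps : ∀ D ∈ T, D.natAbs ∈ Icc 1 X := by
    intro D hD
    obtain ⟨h1, h2⟩ := hT D hD
    rw [Finset.mem_Icc]
    omega
  rw [← Finset.sum_fiberwise_of_maps_to hmaps, Finset.mul_sum]
  refine Finset.sum_le_sum fun k _ => ?_
  have h1 : ∑ D ∈ T.filter (fun D => D.natAbs = k), g D.natAbs =
      ((T.filter (fun D => D.natAbs = k)).card : ℝ) * g k := by
    rw [Finset.sum_congr rfl (g := fun _ => g k), Finset.sum_const, nsmul_eq_mul]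
    intro D hD
    rw [(Finset.mem_filter.1 hD).2]
  rw [h1]
  refine mul_le_mul_of_nonneg_right ?_ (hg k)
  have h2 : (T.filter (fun D => D.natAbs = k)).card ≤ ({(k : ℤ), -(k : ℤ)} : Finset ℤ).card := by
    refine Finset.card_le_card fun D hD => ?_
    have := (Finset.mem_filter.1 hD).2
    rw [Finset.mem_insert, Finset.mem_singleton]
    omega
  exact_mod_cast h2.trans Finset.card_le_two

theorem thm_Div : St_Div := by
  refine ⟨200000, by norm_num, ?_⟩
  intro H u v hH huv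
  have hH1 : (1 : ℝ) ≤ H := by exact_mod_cast hH
  have hlog : 0 ≤ Real.log H := Real.log_nonneg hH1
  set S := (Icc (-(H : ℤ)) H) ×ˢ sqr (2 * H) with hS
  set φ : ℤ × ℤ × ℤ → ℤ := fun a => 2 * a.1 * mp u v a.2 with hφ
  have hpairs := Div_pairs S φ
  have hgoal : (((S ×ˢ S).filter (fun x => φ x.1 = φ x.2)).card : ℝ) ≤
      200000 * (H : ℝ) ^ 4 * (1 + Real.log H) ^ 3 := by
    rw [hpairs]
    push_cast
    set N : ℤ → ℝ := fun D => ((S.filter (fun a => φ a = D)).card : ℝ) with hN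
    have hsplit : ∑ D ∈ S.image φ, N D ^ 2 ≤
        N 0 ^ 2 + ∑ D ∈ (S.image φ).filter (fun D => D ≠ 0), N D ^ 2 := by
      rw [← Finset.sum_filter_add_sum_filter_not (S.image φ) (fun D => D ≠ 0), add_comm]
      refine add_le_add ?_ le_rfl
      have hsub : (S.image φ).filter (fun D => ¬ D ≠ 0) ⊆ {0} := by
        intro D hD
        rw [Finset.mem_singleton]
        exact not_not.1 (Finset.mem_filter.1 hD).2
      calc ∑ D ∈ (S.image φ).filter (fun D => ¬ D ≠ 0), N D ^ 2 ≤ ∑ D ∈ ({0} : Finset ℤ), N D ^ 2 :=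
            Finset.sum_le_sum_of_subset_of_nonneg hsub fun _ _ _ => sq_nonneg _
        _ = N 0 ^ 2 := by rw [Finset.sum_singleton]
    have hN0 : N 0 ≤ 40 * (H : ℝ) ^ 2 := by
      have h9 : (S.filter (fun a => φ a = 0)).card ≤ 40 * H ^ 2 := Div_zero H hH u v huv
      show ((S.filter (fun a => φ a = 0)).card : ℝ) ≤ 40 * (H : ℝ) ^ 2
      exact_mod_cast h9
    have hN0' : N 0 ^ 2 ≤ 1600 * (H : ℝ) ^ 4 := by
      have h0 : 0 ≤ N 0 := Nat.cast_nonneg _
      nlinarith [mul_le_mul hN0 hN0 h0 (by positivity)]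
    have hND : ∀ D ∈ (S.image φ).filter (fun D => D ≠ 0),
        N D ^ 2 ≤ 100 * (H : ℝ) ^ 2 * (D.natAbs.divisors.card : ℝ) ^ 2 := by
      intro D hD
      have hD0 : D ≠ 0 := (Finset.mem_filter.1 hD).2
      have h1 : (S.filter (fun a => φ a = D)).card ≤ 2 * D.natAbs.divisors.card * (4 * H + 1) :=
        Div_count H u v huv D hD0
      have h2 : N D ≤ 2 * (D.natAbs.divisors.card : ℝ) * (4 * H + 1) := by
        show ((S.filter (fun a => φ a = D)).card : ℝ) ≤
          2 * (D.natAbs.divisors.card : ℝ) * (4 * H + 1)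
        exact_mod_cast h1
      have h3 : N D ≤ 10 * H * (D.natAbs.divisors.card : ℝ) := by
        refine h2.trans ?_
        have : (0 : ℝ) ≤ (D.natAbs.divisors.card : ℝ) := Nat.cast_nonneg _
        nlinarith
      have h0 : 0 ≤ N D := Nat.cast_nonneg _
      calc N D ^ 2 ≤ (10 * H * (D.natAbs.divisors.card : ℝ)) ^ 2 := by gcongr
        _ = 100 * (H : ℝ) ^ 2 * (D.natAbs.divisors.card : ℝ) ^ 2 := by ring
    have hT : ∀ D ∈ (S.image φ).filter (fun D => D ≠ 0), D ≠ 0 ∧ D.natAbs ≤ 8 * H ^ 2 := by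
      intro D hD
      obtain ⟨h1, h2⟩ := Finset.mem_filter.1 hD
      refine ⟨h2, ?_⟩
      obtain ⟨a, ha, rfl⟩ := Finset.mem_image.1 h1
      have ha1 := Finset.mem_product.1 ha
      have ha2 := Finset.mem_Icc.1 ha1.1
      have ha3 := Finset.mem_product.1 (show a.2 ∈ _ from ha1.2)
      have ha4 := Finset.mem_Icc.1 ha3.1
      have ha5 := Finset.mem_Icc.1 ha3.2
      have hmp : mp u v a.2 = u * a.2.1 + v * a.2.2 := rfl
      have hab : |mp u v a.2| ≤ 4 * H := by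
        rw [hmp, abs_le]
        push_cast at ha4 ha5
        rcases huv with ⟨rfl, rfl⟩ | ⟨rfl, rfl⟩ | ⟨rfl, rfl⟩
        · constructor <;> linarith [ha4.1, ha4.2]
        · constructor <;> linarith [ha5.1, ha5.2]
        · constructor <;> linarith [ha4.1, ha4.2, ha5.1, ha5.2]
      have ha6 : |a.1| ≤ H := abs_le.2 ha2
      have h3 : |φ a| ≤ 8 * (H : ℤ) ^ 2 := by
        rw [hφ]
        show |2 * a.1 * mp u v a.2| ≤ _
        rw [abs_mul, abs_mul, abs_two]
        have := mul_le_mul ha6 hab (abs_nonneg _) (by positivity)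
        nlinarith
      have h4 : ((φ a).natAbs : ℤ) ≤ ((8 * H ^ 2 : ℕ) : ℤ) := by
        rw [Int.natCast_natAbs]
        push_cast
        exact h3
      exact_mod_cast h4
    have h8 : (1 : ℝ) ≤ ((8 * H ^ 2 : ℕ) : ℝ) := by
      have : 1 ≤ 8 * H ^ 2 := by nlinarith
      exact_mod_cast this
    have hsum : ∑ D ∈ (S.image φ).filter (fun D => D ≠ 0), N D ^ 2 ≤
        100 * (H : ℝ) ^ 2 * (2 * (((8 * H ^ 2 : ℕ) : ℝ) *
          (1 + Real.log ((8 * H ^ 2 : ℕ) : ℝ)) ^ 3)) := by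
      calc ∑ D ∈ (S.image φ).filter (fun D => D ≠ 0), N D ^ 2
          ≤ ∑ D ∈ (S.image φ).filter (fun D => D ≠ 0),
            100 * (H : ℝ) ^ 2 * (D.natAbs.divisors.card : ℝ) ^ 2 := Finset.sum_le_sum hND
        _ = 100 * (H : ℝ) ^ 2 * ∑ D ∈ (S.image φ).filter (fun D => D ≠ 0),
            (D.natAbs.divisors.card : ℝ) ^ 2 := by rw [Finset.mul_sum]
        _ ≤ 100 * (H : ℝ) ^ 2 * (2 * ∑ k ∈ Icc 1 (8 * H ^ 2), (k.divisors.card : ℝ) ^ 2) := by
            refine mul_le_mul_of_nonneg_left ?_ (by positivity)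
            exact Div_natAbs_sum _ (8 * H ^ 2) hT (fun k => (k.divisors.card : ℝ) ^ 2)
              fun k => sq_nonneg _
        _ ≤ _ := by
            refine mul_le_mul_of_nonneg_left ?_ (by positivity)
            refine mul_le_mul_of_nonneg_left ?_ (by norm_num)
            exact Pool.Agent.MT.sum_divisors_sq (8 * H ^ 2) (by nlinarith)
    have hlog8 : 1 + Real.log ((8 * H ^ 2 : ℕ) : ℝ) ≤ 4 * (1 + Real.log H) := by
      push_cast
      rw [Real.log_mul (by norm_num) (by positivity), Real.log_pow]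
      have h2 : Real.log 8 ≤ 3 := by
        have : Real.log 8 = 3 * Real.log 2 := by
          rw [show (8 : ℝ) = 2 ^ 3 by norm_num, Real.log_pow]
          norm_num
        rw [this]
        have := Real.log_two_lt_d9
        linarith
      push_cast
      linarith
    have hpow : (1 + Real.log ((8 * H ^ 2 : ℕ) : ℝ)) ^ 3 ≤ 64 * (1 + Real.log H) ^ 3 := by
      have h0 : 0 ≤ 1 + Real.log ((8 * H ^ 2 : ℕ) : ℝ) := by
        have := Real.log_nonneg h8
        linarith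
      calc (1 + Real.log ((8 * H ^ 2 : ℕ) : ℝ)) ^ 3 ≤ (4 * (1 + Real.log H)) ^ 3 := by gcongr
        _ = 64 * (1 + Real.log H) ^ 3 := by ring
    have hL : 1 ≤ (1 + Real.log H) ^ 3 := one_le_pow₀ (by linarith)
    calc ∑ D ∈ S.image φ, N D ^ 2
        ≤ N 0 ^ 2 + ∑ D ∈ (S.image φ).filter (fun D => D ≠ 0), N D ^ 2 := hsplit
      _ ≤ 1600 * (H : ℝ) ^ 4 + 100 * (H : ℝ) ^ 2 * (2 * (((8 * H ^ 2 : ℕ) : ℝ) *
          (64 * (1 + Real.log H) ^ 3))) := by
          refine add_le_add hN0' (hsum.trans ?_)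
          gcongr
      _ = 1600 * (H : ℝ) ^ 4 + 102400 * ((H : ℝ) ^ 4 * (1 + Real.log H) ^ 3) := by
          push_cast
          ring
      _ ≤ 1600 * ((H : ℝ) ^ 4 * (1 + Real.log H) ^ 3) +
          102400 * ((H : ℝ) ^ 4 * (1 + Real.log H) ^ 3) := by
          have : (H : ℝ) ^ 4 ≤ (H : ℝ) ^ 4 * (1 + Real.log H) ^ 3 :=
            le_mul_of_one_le_right (by positivity) hL
          linarith
      _ ≤ 200000 * (H : ℝ) ^ 4 * (1 + Real.log H) ^ 3 := by
          have : 0 ≤ (H : ℝ) ^ 4 * (1 + Real.log H) ^ 3 := by positivity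
          nlinarith
  exact hgoal

end Pool.Agent.NRP
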