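import Pool.Agent.NRP.StI

set_option autoImplicit false

/-!
# NRP: algebra of iterated derivatives
-/

namespace Pool.Agent.NRP

open Finset
open scoped ComplexConjugate

theorem Dls_dl_mul (D : ℤ) (f g : ℤ → ℂ) :
    dl D (fun n => f n * g n) = fun n => dl D f n * dl D g n := by
  funext n
  unfold dl
  rw [map_mul]
  ring

theorem Dls_dl_conj (D : ℤ) (f : ℤ → ℂ) :
    dl D (fun n => conj (f n)) = fun n => conj (dl D f n) := by
  funext n
  unfold dl
  rw [map_mul]

theorem Dls_dl_shift (D : ℤ) (f : ℤ → ℂ) (a : ℤ) :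
    dl D (fun n => f (n + a)) = fun n => dl D f (n + a) := by
  funext n
  show f (n + a) * conj (f (n + D + a)) = f (n + a) * conj (f (n + a + D))
  rw [add_right_comm n D a]

theorem Dls_dl_zero (D : ℤ) : dl D (fun _ => (0 : ℂ)) = fun _ => 0 := by
  funext n
  unfold dl
  rw [zero_mul]

theorem Dls_dl_bd {M : ℕ} {f : ℤ → ℂ} (hf : Bd M f) (D : ℤ) : Bd M (dl D f) := by
  refine ⟨fun n => ?_, fun n hn => ?_⟩
  · unfold dl
    rw [norm_mul, RCLike.norm_conj]
    exact mul_le_one₀ (hf.1 n) (norm_nonneg _) (hf.1 _)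
  · unfold dl
    rw [hf.2 n hn, zero_mul]

theorem Dls_dl_far {M : ℕ} {f : ℤ → ℂ} (hf : Bd M f) {D : ℤ} (hD : 2 * (M : ℤ) < |D|) :
    dl D f = fun _ => 0 := by
  funext n
  unfold dl
  by_cases h1 : (M : ℤ) < |n|
  · rw [hf.2 n h1, zero_mul]
  · have h2 : (M : ℤ) < |n + D| := by
      have h3 : |D| ≤ |n + D| + |n| := by
        have := abs_sub (n + D) n
        rw [add_sub_cancel_left] at this
        exact this
      omega
    rw [hf.2 _ h2, map_zero, mul_zero]

theorem Dls_zero (m : ℕ) (k : Fin m → ℤ) (x : ℤ) : dls m k (fun _ => 0) x = 0 := by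
  induction m with
  | zero => rfl
  | succ m ih =>
    show dls m (Fin.tail k) (dl (k 0) fun _ => 0) x = 0
    rw [Dls_dl_zero]
    exact ih _

theorem Dls_mul (m : ℕ) (k : Fin m → ℤ) (f g : ℤ → ℂ) (x : ℤ) :
    dls m k (fun n => f n * g n) x = dls m k f x * dls m k g x := by
  induction m generalizing f g with
  | zero => rfl
  | succ m ih =>
    show dls m (Fin.tail k) (dl (k 0) fun n => f n * g n) x = _
    rw [Dls_dl_mul]
    exact ih _ _ _

theorem Dls_conj (m : ℕ) (k : Fin m → ℤ) (f : ℤ → ℂ) (x : ℤ) :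
    dls m k (fun n => conj (f n)) x = conj (dls m k f x) := by
  induction m generalizing f with
  | zero => rfl
  | succ m ih =>
    show dls m (Fin.tail k) (dl (k 0) fun n => conj (f n)) x = _
    rw [Dls_dl_conj]
    exact ih _ _

theorem Dls_shift (m : ℕ) (k : Fin m → ℤ) (f : ℤ → ℂ) (a x : ℤ) :
    dls m k (fun n => f (n + a)) x = dls m k f (x + a) := by
  induction m generalizing f with
  | zero => rfl
  | succ m ih =>
    show dls m (Fin.tail k) (dl (k 0) fun n => f (n + a)) x = _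
    rw [Dls_dl_shift]
    exact ih _ _

theorem Dls_bd (m M : ℕ) (k : Fin m → ℤ) (f : ℤ → ℂ) (hf : Bd M f) : Bd M (dls m k f) := by
  induction m generalizing f with
  | zero => exact hf
  | succ m ih => exact ih (Fin.tail k) (dl (k 0) f) (Dls_dl_bd hf _)

theorem Dls_far (m M : ℕ) (k : Fin m → ℤ) (f : ℤ → ℂ) (hf : Bd M f)
    (hk : ∃ i, 2 * (M : ℤ) < |k i|) (x : ℤ) : dls m k f x = 0 := by
  induction m generalizing f with
  | zero =>
    obtain ⟨i, -⟩ := hk
    exact i.elim0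
  | succ m ih =>
    show dls m (Fin.tail k) (dl (k 0) f) x = 0
    obtain ⟨i, hi⟩ := hk
    by_cases h0 : 2 * (M : ℤ) < |k 0|
    · rw [Dls_dl_far hf h0]
      exact Dls_zero _ _ _
    · refine ih (Fin.tail k) (dl (k 0) f) (Dls_dl_bd hf _) ?_
      have hi0 : i ≠ 0 := by
        rintro rfl
        exact h0 hi
      obtain ⟨j, rfl⟩ := Fin.exists_succ_eq.2 hi0
      exact ⟨j, hi⟩

/-- the box in dimension `m + 1` -/
theorem Dls_bx_succ {A : Type} [AddCommMonoid A] (m R : ℕ) (F : (Fin (m + 1) → ℤ) → A) :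
    ∑ k ∈ bx (m + 1) R, F k =
      ∑ D ∈ Icc (-(R : ℤ)) R, ∑ k ∈ bx m R, F (Fin.cons D k) := by
  rw [← Finset.sum_product']
  symm
  refine Finset.sum_nbij' (fun p : ℤ × (Fin m → ℤ) => (Fin.cons p.1 p.2 : Fin (m + 1) → ℤ))
    (fun k : Fin (m + 1) → ℤ => (k 0, Fin.tail k)) ?_ ?_ ?_ ?_ ?_
  · rintro ⟨D, k⟩ hp
    rw [Finset.mem_product] at hp
    unfold bx at hp ⊢
    rw [Fintype.mem_piFinset]
    intro i
    refine Fin.cases ?_ (fun j => ?_) i
    · exact hp.1
    · exact (Fintype.mem_piFinset.1 hp.2) j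
  · intro k hk
    unfold bx at hk ⊢
    rw [Fintype.mem_piFinset] at hk
    rw [Finset.mem_product, Fintype.mem_piFinset]
    exact ⟨hk 0, fun i => hk i.succ⟩
  · rintro ⟨D, k⟩ _
    rfl
  · intro k _
    exact Fin.cons_self_tail k
  · rintro ⟨D, k⟩ _
    rfl

theorem Dls_bx_zero {A : Type} [AddCommMonoid A] (R : ℕ) (F : (Fin 0 → ℤ) → A) :
    ∑ k ∈ bx 0 R, F k = F (fun i => i.elim0) := by
  have h1 : bx 0 R = {fun i => i.elim0} := by
    unfold bx
    ext k
    rw [Fintype.mem_piFinset, Finset.mem_singleton]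
    constructor
    · intro _
      exact Subsingleton.elim _ _
    · intro _ i
      exact i.elim0
  rw [h1, Finset.sum_singleton]

theorem Dls_UU (m R : ℕ) (f : ℤ → ℂ) :
    UU m R f = ∑ k ∈ bx m R, ‖∑' x : ℤ, dls m k f x‖ ^ 2 := by
  induction m generalizing f with
  | zero => rw [Dls_bx_zero]; rfl
  | succ m ih =>
    rw [Dls_bx_succ]
    show ∑ D ∈ Icc (-(R : ℤ)) R, UU m R (dl D f) = _
    refine Finset.sum_congr rfl fun D _ => ?_
    rw [ih]
    rfl

theorem Dls_UU1 (m R : ℕ) (f : ℤ → ℂ) :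
    UU (m + 1) R f = ∑ k ∈ bx m R, UU 1 R (dls m k f) := by
  induction m generalizing f with
  | zero => rw [Dls_bx_zero]; rfl
  | succ m ih =>
    rw [Dls_bx_succ]
    show ∑ D ∈ Icc (-(R : ℤ)) R, UU (m + 1) R (dl D f) = _
    refine Finset.sum_congr rfl fun D _ => ?_
    rw [ih]
    rfl

theorem Dls_UU_zero (m R : ℕ) : UU m R (fun _ => 0) = 0 := by
  induction m with
  | zero =>
    show ‖∑' _ : ℤ, (0 : ℂ)‖ ^ 2 = 0
    rw [tsum_zero, norm_zero]
    norm_num
  | succ m ih =>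
    show ∑ D ∈ Icc (-(R : ℤ)) R, UU m R (dl D fun _ => 0) = 0
    refine Finset.sum_eq_zero fun D _ => ?_
    rw [Dls_dl_zero]
    exact ih

theorem Dls_UU_R (m M R R' : ℕ) (f : ℤ → ℂ) (hf : Bd M f) (hR : 2 * M ≤ R) (hR' : R ≤ R') :
    UU m R' f = UU m R f := by
  induction m generalizing f with
  | zero => rfl
  | succ m ih =>
    show ∑ D ∈ Icc (-(R' : ℤ)) R', UU m R' (dl D f) = ∑ D ∈ Icc (-(R : ℤ)) R, UU m R (dl D f)
    rw [← Finset.sum_subset (s₁ := Icc (-(R : ℤ)) R)]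
    · exact Finset.sum_congr rfl fun D _ => ih _ (Dls_dl_bd hf D)
    · intro D hD
      rw [Finset.mem_Icc] at hD ⊢
      constructor <;> omega
    · intro D _ hD
      rw [Finset.mem_Icc] at hD
      have h1 : 2 * (M : ℤ) < |D| := by
        by_contra h2
        apply hD
        have h3 := neg_abs_le D
        have h4 := le_abs_self D
        constructor <;> omega
      rw [Dls_dl_far hf h1]
      exact Dls_UU_zero _ _

/-- **Dls**: algebra of `dls` and `UU`. -/
theorem thm_Dls : St_Dls :=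
  ⟨Dls_mul, Dls_conj, Dls_shift, fun m M k f hf => ⟨Dls_bd m M k f hf, Dls_far m M k f hf⟩,
    Dls_UU, Dls_UU1, Dls_UU_R⟩

end Pool.Agent.NRP
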