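import Mathlib
import Pool.Agent.NRP.StI

set_option autoImplicit false

/-!
# NRP: dual functions
-/

namespace Pool.Agent.NRP

open Finset
open Pool.Agent.GBQ (ee nd)
open scoped ComplexConjugate

namespace DualX

lemma summ {A : ℕ} {g : ℤ → ℂ} (hg : ∀ n : ℤ, (A : ℤ) < |n| → g n = 0) : Summable g := by
  refine summable_of_ne_finset_zero (s := Icc (-(A : ℤ)) A) fun b hb => hg b ?_
  rw [mem_Icc, not_and_or, not_le, not_le] at hb
  rcases hb with h | h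
  · exact lt_of_lt_of_le (by linarith) (neg_le_abs b)
  · exact lt_of_lt_of_le h (le_abs_self b)

lemma summR {A : ℕ} {g : ℤ → ℝ} (hg : ∀ n : ℤ, (A : ℤ) < |n| → g n = 0) : Summable g := by
  refine summable_of_ne_finset_zero (s := Icc (-(A : ℤ)) A) fun b hb => hg b ?_
  rw [mem_Icc, not_and_or, not_le, not_le] at hb
  rcases hb with h | h
  · exact lt_of_lt_of_le (by linarith) (neg_le_abs b)
  · exact lt_of_lt_of_le h (le_abs_self b)

/-- the average of conjugates -/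
noncomputable def av (H : ℕ) (φ : ℤ → ℤ → ℂ) : ℤ → ℂ :=
  fun x => (1 / (H : ℂ)) * ∑ h ∈ Icc (1 : ℤ) H, conj (φ h x)

/-- the sum over the two variables -/
noncomputable def ts (H : ℕ) (φ : ℤ → ℤ → ℂ) (u : ℤ → ℂ) : ℂ :=
  ∑ h ∈ Icc (1 : ℤ) H, ∑' x : ℤ, u x * φ h x

lemma ts_eq {H A : ℕ} (hH : 1 ≤ H) (φ : ℤ → ℤ → ℂ) {u : ℤ → ℂ} (hu : Bd A u) :
    ts H φ u = H * ∑' x : ℤ, u x * conj (av H φ x) := by
  have hs : ∀ h ∈ Icc (1 : ℤ) H, Summable fun x => u x * φ h x := fun h _ =>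
    summ (A := A) fun n hn => by rw [hu.2 n hn, zero_mul]
  have h0 : (H : ℂ) ≠ 0 := by
    have : H ≠ 0 := by omega
    exact_mod_cast this
  rw [ts, ← Summable.tsum_finsetSum hs, ← tsum_mul_left]
  congr 1
  funext x
  rw [av, map_mul, map_sum, map_div₀, map_one, Complex.conj_natCast]
  simp only [Complex.conj_conj]
  rw [← mul_sum]
  field_simp

lemma ts_self {H B : ℕ} (hH : 1 ≤ H) (φ : ℤ → ℤ → ℂ) (hF : Bd B (av H φ)) :
    ‖ts H φ (av H φ)‖ = H * ∑' x : ℤ, ‖av H φ x‖ ^ 2 := by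
  have h1 : ∀ x, av H φ x * conj (av H φ x) = ((‖av H φ x‖ ^ 2 : ℝ) : ℂ) := fun x => by
    rw [Complex.mul_conj, Complex.normSq_eq_norm_sq]
  have hnn : 0 ≤ ∑' x : ℤ, ‖av H φ x‖ ^ 2 := tsum_nonneg fun x => by positivity
  rw [ts_eq hH φ hF]
  simp_rw [h1]
  rw [← Complex.ofReal_tsum, norm_mul, Complex.norm_natCast, Complex.norm_real, Real.norm_of_nonneg hnn]

lemma ts_le {H A B : ℕ} (hH : 1 ≤ H) (φ : ℤ → ℤ → ℂ) {u : ℤ → ℂ} (hu : Bd A u)
    (hF : Bd B (av H φ)) :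
    ‖ts H φ u‖ ^ 2 ≤ (2 * A + 1) * H * ‖ts H φ (av H φ)‖ := by
  have hsq : Summable fun x : ℤ => ‖av H φ x‖ ^ 2 :=
    summR (A := B) fun n hn => by rw [hF.2 n hn]; simp
  have h1 : ∑' x : ℤ, u x * conj (av H φ x) = ∑ x ∈ Icc (-(A : ℤ)) A, u x * conj (av H φ x) := by
    refine tsum_eq_sum fun b hb => ?_
    rw [mem_Icc, not_and_or, not_le, not_le] at hb
    have : (A : ℤ) < |b| := by
      rcases hb with h | h
      · exact lt_of_lt_of_le (by linarith) (neg_le_abs b)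
      · exact lt_of_lt_of_le h (le_abs_self b)
    rw [hu.2 b this, zero_mul]
  have h2 : ‖∑' x : ℤ, u x * conj (av H φ x)‖ ≤ ∑ x ∈ Icc (-(A : ℤ)) A, ‖av H φ x‖ := by
    rw [h1]
    refine (norm_sum_le _ _).trans (sum_le_sum fun x _ => ?_)
    rw [norm_mul, RCLike.norm_conj]
    calc ‖u x‖ * ‖av H φ x‖ ≤ 1 * ‖av H φ x‖ :=
          mul_le_mul_of_nonneg_right (hu.1 x) (norm_nonneg _)
      _ = _ := one_mul _
  have h3 : (∑ x ∈ Icc (-(A : ℤ)) A, ‖av H φ x‖) ^ 2 ≤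
      (2 * A + 1) * ∑' x : ℤ, ‖av H φ x‖ ^ 2 := by
    have hc : ((Icc (-(A : ℤ)) A).card : ℝ) = 2 * A + 1 := by
      rw [Int.card_Icc]
      have : ((A : ℤ) + 1 - -(A : ℤ)).toNat = 2 * A + 1 := by omega
      rw [this]
      push_cast
      ring
    calc (∑ x ∈ Icc (-(A : ℤ)) A, ‖av H φ x‖) ^ 2
        ≤ (Icc (-(A : ℤ)) A).card * ∑ x ∈ Icc (-(A : ℤ)) A, ‖av H φ x‖ ^ 2 :=
          sq_sum_le_card_mul_sum_sq
      _ ≤ (2 * A + 1) * ∑' x : ℤ, ‖av H φ x‖ ^ 2 := by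
          rw [hc]
          exact mul_le_mul_of_nonneg_left (hsq.sum_le_tsum _ fun x _ => by positivity) (by positivity)
  rw [ts_self hH φ hF, ts_eq hH φ hu, norm_mul, mul_pow, Complex.norm_natCast]
  calc (H : ℝ) ^ 2 * ‖∑' x : ℤ, u x * conj (av H φ x)‖ ^ 2
      ≤ (H : ℝ) ^ 2 * ((2 * A + 1) * ∑' x : ℤ, ‖av H φ x‖ ^ 2) := by
        refine mul_le_mul_of_nonneg_left ?_ (by positivity)
        exact (pow_le_pow_left₀ (norm_nonneg _) h2 2).trans h3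
    _ = _ := by ring

lemma av_norm {H : ℕ} (hH : 1 ≤ H) {φ : ℤ → ℤ → ℂ} (hφ : ∀ h x, ‖φ h x‖ ≤ 1) (x : ℤ) :
    ‖av H φ x‖ ≤ 1 := by
  have hHr : (0 : ℝ) < H := by exact_mod_cast hH
  rw [av, norm_mul, norm_div, norm_one, Complex.norm_natCast]
  have h1 : ‖∑ h ∈ Icc (1 : ℤ) H, conj (φ h x)‖ ≤ H := by
    refine (norm_sum_le _ _).trans ?_
    calc ∑ h ∈ Icc (1 : ℤ) H, ‖conj (φ h x)‖ ≤ ∑ h ∈ Icc (1 : ℤ) H, (1 : ℝ) :=
          sum_le_sum fun h _ => by rw [RCLike.norm_conj]; exact hφ h x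
      _ = H := by
          rw [sum_const, Int.card_Icc, nsmul_eq_mul, mul_one]
          simp
  calc 1 / (H : ℝ) * ‖∑ h ∈ Icc (1 : ℤ) H, conj (φ h x)‖ ≤ 1 / (H : ℝ) * H :=
        mul_le_mul_of_nonneg_left h1 (by positivity)
    _ = 1 := by field_simp

lemma av_bd {H B : ℕ} (hH : 1 ≤ H) {φ : ℤ → ℤ → ℂ} (hφ : ∀ h x, ‖φ h x‖ ≤ 1)
    (hs : ∀ h ∈ Icc (1 : ℤ) H, ∀ x : ℤ, (B : ℤ) < |x| → φ h x = 0) : Bd B (av H φ) := by
  refine ⟨av_norm hH hφ, fun x hx => ?_⟩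
  rw [av, sum_eq_zero fun h hh => by rw [hs h hh x hx, map_zero], mul_zero]

lemma pp_bd {c h : ℤ} {H : ℕ} (hc : c = 0 ∨ c = 1) (hh : h ∈ Icc (1 : ℤ) H) :
    0 ≤ pp c h ∧ pp c h ≤ 2 * (H : ℤ) ^ 2 := by
  rw [mem_Icc] at hh
  unfold pp
  rcases hc with rfl | rfl
  · constructor <;> nlinarith
  · constructor <;> nlinarith

lemma shiftF (c : ℤ) (H : ℕ) (f0 f1 u : ℤ → ℂ) :
    TT c H f0 f1 u = ts H (fun h x => f0 (x - pp c h) * f1 (x - pp c h + h)) u := by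
  unfold TT ts
  refine sum_congr rfl fun h _ => ?_
  rw [← (Equiv.subRight (pp c h)).tsum_eq]
  congr 1
  funext n
  simp only [Equiv.subRight_apply]
  rw [sub_add_cancel]
  ring

lemma shiftG (c : ℤ) (H : ℕ) (f0 u f2 : ℤ → ℂ) :
    TT c H f0 u f2 = ts H (fun h x => f0 (x - h) * f2 (x - h + pp c h)) u := by
  unfold TT ts
  refine sum_congr rfl fun h _ => ?_
  rw [← (Equiv.subRight h).tsum_eq]
  congr 1
  funext n
  simp only [Equiv.subRight_apply]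
  rw [sub_add_cancel]
  ring

lemma cst {K H : ℕ} (hH : 1 ≤ H) {t : ℝ} (ht : 0 ≤ t) :
    (2 * ((K * H ^ 2 : ℕ) : ℝ) + 1) * H * t ≤ (2 * K + 1) * (H : ℝ) ^ 3 * t := by
  have h1 : (1 : ℝ) ≤ H := by exact_mod_cast hH
  refine mul_le_mul_of_nonneg_right ?_ ht
  push_cast
  have h2 : (H : ℝ) ≤ H ^ 3 := by nlinarith [sq_nonneg ((H : ℝ) - 1), mul_nonneg (sub_nonneg.2 h1) (sub_nonneg.2 h1)]
  nlinarith

end DualX

open DualX in
/-- **Dual**. -/
theorem thm_Dual : St_Dual := by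
  intro K H c hH hc f0 f1 f2 h0 h1 h2
  have hHZ : (1 : ℤ) ≤ H := by exact_mod_cast hH
  have hHsq : (H : ℤ) ≤ (H : ℤ) ^ 2 := by nlinarith
  have eF : dualF c H f0 f1 = av H (fun h x => f0 (x - pp c h) * f1 (x - pp c h + h)) := rfl
  have eG : dualG c H f0 f2 = av H (fun h x => f0 (x - h) * f2 (x - h + pp c h)) := rfl
  have bF : Bd ((K + 2) * H ^ 2) (dualF c H f0 f1) := by
    rw [eF]
    refine av_bd hH (fun h x => ?_) fun h hh x hx => ?_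
    · rw [norm_mul]
      exact mul_le_one₀ (h0.1 _) (norm_nonneg _) (h1.1 _)
    · have hp := pp_bd hc hh
      rw [h0.2 (x - pp c h) ?_, zero_mul]
      push_cast at hx ⊢
      have : |x| ≤ |x - pp c h| + |pp c h| := by
        calc |x| = |(x - pp c h) + pp c h| := by rw [sub_add_cancel]
          _ ≤ _ := abs_add_le _ _
      rw [abs_of_nonneg hp.1] at this
      nlinarith
  have bG : Bd ((K + 2) * H ^ 2) (dualG c H f0 f2) := by
    rw [eG]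
    refine av_bd hH (fun h x => ?_) fun h hh x hx => ?_
    · rw [norm_mul]
      exact mul_le_one₀ (h0.1 _) (norm_nonneg _) (h2.1 _)
    · rw [mem_Icc] at hh
      rw [h0.2 (x - h) ?_, zero_mul]
      push_cast at hx ⊢
      have : |x| ≤ |x - h| + |h| := by
        calc |x| = |(x - h) + h| := by rw [sub_add_cancel]
          _ ≤ _ := abs_add_le _ _
      rw [abs_of_nonneg (by linarith : (0 : ℤ) ≤ h)] at this
      nlinarith
  refine ⟨⟨bF, ?_⟩, ⟨bG, ?_⟩⟩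
  · rw [shiftF, shiftF]
    rw [eF] at bF ⊢
    exact (ts_le hH _ h2 bF).trans (cst hH (norm_nonneg _))
  · rw [shiftG, shiftG]
    rw [eG] at bG ⊢
    exact (ts_le hH _ h1 bG).trans (cst hH (norm_nonneg _))

end Pool.Agent.NRP
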