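import Pool.Agent.NRP.StI

set_option autoImplicit false

/-!
# Fin : the end of the degree lowering step
-/

namespace Pool.Agent.NRP

open Finset
open Pool.Agent.GBQ (ee nd ee_norm ee_zero ee_add ee_neg ee_int)
open scoped ComplexConjugate

theorem Fin_uni (z : ℂ) : ∃ c : ℂ, ‖c‖ ≤ 1 ∧ c * z = (‖z‖ : ℂ) := by
  by_cases h : z = 0
  · exact ⟨0, by simp, by simp [h]⟩
  · have hz : (‖z‖ : ℂ) ≠ 0 := by
      exact_mod_cast norm_ne_zero_iff.2 h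
    refine ⟨conj z / ‖z‖, ?_, ?_⟩
    · rw [norm_div, RCLike.norm_conj, Complex.norm_real, norm_norm,
        div_self (norm_ne_zero_iff.2 h)]
    · rw [div_mul_eq_mul_div, mul_comm (conj z) z, Complex.mul_conj, Complex.normSq_eq_norm_sq,
        div_eq_iff hz]
      push_cast
      ring

theorem Fin_ee_sum {ι : Type} (s : Finset ι) (a : ι → ℝ) : ee (∑ i ∈ s, a i) = ∏ i ∈ s, ee (a i) := by
  classical
  induction s using Finset.induction_on with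
  | empty => simp [ee_zero]
  | insert i s hi ih => rw [sum_insert hi, prod_insert hi, ee_add, ih]

noncomputable def Fin_V (m : ℕ) (z : ℂ) : ℂ := if Even m then z else conj z

theorem Fin_V_norm (m : ℕ) (z : ℂ) : ‖Fin_V m z‖ = ‖z‖ := by
  unfold Fin_V
  split_ifs
  · rfl
  · exact RCLike.norm_conj z

theorem Fin_V_sum (m : ℕ) {ι : Type} (s : Finset ι) (f : ι → ℂ) :
    ∑ x ∈ s, Fin_V m (f x) = Fin_V m (∑ x ∈ s, f x) := by
  unfold Fin_V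
  split_ifs
  · rfl
  · rw [map_sum]

theorem Fin_cb (hA : St_Alg) (m : ℕ) (F : ℤ → ℂ) (G : (Fin m → ℤ) → ℂ) (x : ℤ)
    (k0 k1 : Fin m → ℤ) :
    cb m (fun k => G k * Fin_V m (F (x + ∑ i, k i))) k0 k1 =
      cb m G k0 k1 * Fin_V m (dls m (k1 - k0) F (x + ∑ i, k0 i)) := by
  rw [hA.1]
  congr 1
  unfold Fin_V
  split_ifs
  · exact hA.2.2.1 m F x k0 k1
  · rw [hA.2.1, hA.2.2.1]

theorem Fin_bd (hA : St_Alg) (m : ℕ) (F : ℤ → ℂ) (G : (Fin m → ℤ) → ℂ) (hG : ∀ k, ‖G k‖ ≤ 1)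
    (Ω : Finset ℤ) (k0 k1 : Fin m → ℤ) :
    ‖∑ x ∈ Ω, cb m (fun k => G k * Fin_V m (F (x + ∑ i, k i))) k0 k1‖ ≤
      ‖∑ x ∈ Ω, dls m (k1 - k0) F (x + ∑ i, k0 i)‖ := by
  have e : ∀ x ∈ Ω, cb m (fun k => G k * Fin_V m (F (x + ∑ i, k i))) k0 k1 =
      cb m G k0 k1 * Fin_V m (dls m (k1 - k0) F (x + ∑ i, k0 i)) := fun x _ =>
    Fin_cb hA m F G x k0 k1
  rw [sum_congr rfl e, ← mul_sum, Fin_V_sum, norm_mul, Fin_V_norm]
  calc ‖cb m G k0 k1‖ * ‖∑ x ∈ Ω, dls m (k1 - k0) F (x + ∑ i, k0 i)‖ ≤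
        1 * ‖∑ x ∈ Ω, dls m (k1 - k0) F (x + ∑ i, k0 i)‖ :=
        mul_le_mul_of_nonneg_right (hA.2.2.2.2.1 m G k0 k1 hG) (norm_nonneg _)
    _ = _ := one_mul _

theorem Fin_bd_sum {M B : ℕ} {f : ℤ → ℂ} (hf : Bd M f) (u : ℤ → ℂ) (s : ℤ) (hs : |s| ≤ B) :
    ∑ x ∈ Icc (-((M + B : ℕ) : ℤ)) ((M + B : ℕ) : ℤ), f (x + s) * u x =
      ∑' x : ℤ, f (x + s) * u x := by
  refine (tsum_eq_sum fun x hx => ?_).symm
  rw [hf.2, zero_mul]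
  rw [mem_Icc, not_and_or, not_le, not_le] at hx
  push_cast at hx
  rw [abs_le] at hs
  rw [lt_abs]
  rcases hx with h | h
  · right
    linarith [hs.2]
  · left
    linarith [hs.1]

theorem Fin_shift {M B : ℕ} {f : ℤ → ℂ} (hf : Bd M f) (s : ℤ) (hs : |s| ≤ B) :
    ∑ x ∈ Icc (-((M + B : ℕ) : ℤ)) ((M + B : ℕ) : ℤ), f (x + s) = ∑' x : ℤ, f x := by
  have h := Fin_bd_sum hf (fun _ => 1) s hs
  simp only [mul_one] at h
  rw [h]
  exact (Equiv.addRight s).tsum_eq f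

theorem Fin_mem {m R : ℕ} {k : Fin m → ℤ} (h : k ∉ bx m R) : ∃ i, (R : ℤ) < |k i| := by
  unfold bx at h
  rw [Fintype.mem_piFinset] at h
  push Not at h
  obtain ⟨i, hi⟩ := h
  refine ⟨i, ?_⟩
  rw [mem_Icc, not_and_or, not_le, not_le] at hi
  rw [lt_abs]
  rcases hi with h | h
  · right
    linarith
  · left
    exact h

theorem Fin_card (m R : ℕ) : ((bx m R).card : ℝ) = ((2 * R + 1 : ℕ) : ℝ) ^ m := by
  unfold bx
  rw [Fintype.card_piFinset_const, Int.card_Icc]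
  have e : ((R : ℤ) + 1 - -(R : ℤ)).toNat = 2 * R + 1 := by omega
  rw [e]
  push_cast
  rfl

theorem Fin_sum_le {m R : ℕ} {k : Fin m → ℤ} (hk : k ∈ bx m R) :
    |∑ i, k i| ≤ ((m * R : ℕ) : ℤ) := by
  unfold bx at hk
  rw [Fintype.mem_piFinset] at hk
  refine le_trans (abs_sum_le_sum_abs _ _) ?_
  have h : ∀ i ∈ (univ : Finset (Fin m)), |k i| ≤ (R : ℤ) := fun i _ => by
    have := mem_Icc.1 (hk i)
    exact abs_le.2 this
  refine le_trans (sum_le_sum h) ?_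
  rw [sum_const, card_univ, Fintype.card_fin, nsmul_eq_mul]
  push_cast
  exact le_rfl

theorem Fin_one (hD : St_Dls) {m M : ℕ} {F : ℤ → ℂ} (hF : Bd M F) (k0 : Fin m → ℤ) :
    ∑ k1 ∈ bx m (2 * M), ‖∑' x : ℤ, dls m (k1 - k0) F x‖ ≤
      ∑ κ ∈ bx m (2 * M), ‖∑' x : ℤ, dls m κ F x‖ := by
  classical
  obtain ⟨φ, hφ⟩ : ∃ φ : (Fin m → ℤ) → ℝ, φ = fun κ => ‖∑' x : ℤ, dls m κ F x‖ := ⟨_, rfl⟩
  have h0 : ∀ κ, 0 ≤ φ κ := fun κ => by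
    rw [hφ]
    exact norm_nonneg _
  have hz : ∀ κ, κ ∉ bx m (2 * M) → φ κ = 0 := by
    intro κ hκ
    obtain ⟨i, hi⟩ := Fin_mem hκ
    have h1 := (hD.2.2.2.1 m M κ F hF).2 ⟨i, by push_cast at hi; exact hi⟩
    rw [hφ]
    simp only [h1, tsum_zero, norm_zero]
  have e1 : ∑ k1 ∈ bx m (2 * M), φ (k1 - k0) = ∑ κ ∈ (bx m (2 * M)).image (fun k => k - k0), φ κ :=
    (sum_image fun x _ y _ h => sub_left_injective h).symm
  have e2 : ∑ κ ∈ (bx m (2 * M)).image (fun k => k - k0), φ κ =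
      ∑ κ ∈ (bx m (2 * M)).image (fun k => k - k0) ∩ bx m (2 * M), φ κ := by
    refine (sum_subset inter_subset_left fun κ hκ hκ' => hz κ fun h => hκ' ?_).symm
    exact mem_inter.2 ⟨hκ, h⟩
  have e3 : ∑ κ ∈ (bx m (2 * M)).image (fun k => k - k0) ∩ bx m (2 * M), φ κ ≤
      ∑ κ ∈ bx m (2 * M), φ κ :=
    sum_le_sum_of_subset_of_nonneg inter_subset_right fun κ _ _ => h0 κ
  rw [← e2, ← e1] at e3
  rw [hφ] at e3
  exact e3

/-- the lower bound for the sum -/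
theorem Fin_low (hD : St_Dls) (hS : St_Split) {m M R : ℕ} {δ : ℝ} {H : ℕ} {F : ℤ → ℂ}
    (hF : Bd M F) {K2 : Finset (Fin (m + 1) → ℤ)} {θ : ℝ} {ψ : Fin (m + 1) → (Fin (m + 1) → ℤ) → ℝ}
    (hψ : Ind ψ) (hK2 : K2 ⊆ bx (m + 1) R)
    (hc : δ * (H : ℝ) ^ (2 * (m + 1)) ≤ K2.card) (hδ : 0 ≤ δ)
    (hk : ∀ k ∈ K2, δ * (H : ℝ) ^ 2 ≤
      ‖∑' x : ℤ, dls (m + 1) k F x * ee ((θ + ∑ i, ψ i k) * x)‖) :
    ∃ (G : (Fin (m + 1) → ℤ) → ℂ) (b : ℤ → Fin (m + 1) → (Fin (m + 1) → ℤ) → ℂ),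
      (∀ k, ‖G k‖ ≤ 1) ∧ (∀ x i k, ‖b x i k‖ ≤ 1) ∧ (∀ x, Ind (b x)) ∧
      ∀ B : ℕ, δ ^ 2 * (H : ℝ) ^ (2 * (m + 1) + 2) ≤
        ‖∑ x ∈ Icc (-((M + B : ℕ) : ℤ)) ((M + B : ℕ) : ℤ), ∑ k ∈ bx (m + 1) R,
          (G k * Fin_V (m + 1) (F (x + ∑ i, k i))) * ∏ i, b x i k‖ := by
  classical
  obtain ⟨b, hb1, hb2, hb3⟩ := hS (m + 1) F hF.1
  choose c hc1 hc2 using fun k : Fin (m + 1) → ℤ =>
    Fin_uni (∑' x : ℤ, dls (m + 1) k F x * ee ((θ + ∑ i, ψ i k) * x))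
  refine ⟨fun k => if k ∈ K2 then c k else 0,
    fun x i k => b x i k * ee (ψ i k * x) * (if i = 0 then ee (θ * x) else 1), fun k => ?_,
    fun x i k => ?_, fun x i k k' h => ?_, fun B => ?_⟩
  · dsimp only
    split_ifs
    · exact hc1 k
    · simp
  · rw [norm_mul, norm_mul, ee_norm, mul_one]
    split_ifs
    · rw [ee_norm, mul_one]
      exact hb1 x i k
    · rw [norm_one, mul_one]
      exact hb1 x i k
  · simp only
    rw [hb2 x i k k' h, hψ i k k' h]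
  · have hprod : ∀ (x : ℤ) (k : Fin (m + 1) → ℤ),
        Fin_V (m + 1) (F (x + ∑ i, k i)) * ∏ i, (b x i k * ee (ψ i k * x) *
          (if i = 0 then ee (θ * x) else 1)) =
          dls (m + 1) k F x * ee ((θ + ∑ i, ψ i k) * x) := by
      intro x k
      rw [prod_mul_distrib, prod_mul_distrib, prod_ite_eq' univ 0 (fun _ => ee (θ * x)),
        if_pos (mem_univ _), hb3 x k, ← Fin_ee_sum, add_mul, ee_add, sum_mul]
      unfold Fin_V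
      ring
    have hsum : ∑ x ∈ Icc (-((M + B : ℕ) : ℤ)) ((M + B : ℕ) : ℤ), ∑ k ∈ bx (m + 1) R,
          ((if k ∈ K2 then c k else 0) * Fin_V (m + 1) (F (x + ∑ i, k i))) *
            ∏ i, (b x i k * ee (ψ i k * x) * (if i = 0 then ee (θ * x) else 1)) =
        ((∑ k ∈ K2, ‖∑' x : ℤ, dls (m + 1) k F x * ee ((θ + ∑ i, ψ i k) * x)‖ : ℝ) : ℂ) := by
      rw [sum_comm]
      have e1 : ∀ k ∈ bx (m + 1) R, ∑ x ∈ Icc (-((M + B : ℕ) : ℤ)) ((M + B : ℕ) : ℤ),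
          ((if k ∈ K2 then c k else 0) * Fin_V (m + 1) (F (x + ∑ i, k i))) *
            ∏ i, (b x i k * ee (ψ i k * x) * (if i = 0 then ee (θ * x) else 1)) =
          if k ∈ K2 then
            ((‖∑' x : ℤ, dls (m + 1) k F x * ee ((θ + ∑ i, ψ i k) * x)‖ : ℝ) : ℂ) else 0 := by
        intro k _
        split_ifs with h
        · have e2 : ∀ x ∈ Icc (-((M + B : ℕ) : ℤ)) ((M + B : ℕ) : ℤ),
              (c k * Fin_V (m + 1) (F (x + ∑ i, k i))) *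
                ∏ i, (b x i k * ee (ψ i k * x) * (if i = 0 then ee (θ * x) else 1)) =
              c k * (dls (m + 1) k F (x + 0) * ee ((θ + ∑ i, ψ i k) * x)) := by
            intro x _
            rw [mul_assoc, hprod, add_zero]
          rw [sum_congr rfl e2, ← mul_sum,
            Fin_bd_sum ((hD.2.2.2.1 (m + 1) M k F hF).1) _ 0 (by simp)]
          simp only [add_zero]
          exact hc2 k
        · simp
      rw [sum_congr rfl e1, ← sum_filter, filter_mem_eq_inter, inter_eq_right.2 hK2]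
      push_cast
      rfl
    rw [hsum, Complex.norm_real, Real.norm_of_nonneg (sum_nonneg fun _ _ => norm_nonneg _)]
    have h1 : ∑ k ∈ K2, δ * (H : ℝ) ^ 2 ≤
        ∑ k ∈ K2, ‖∑' x : ℤ, dls (m + 1) k F x * ee ((θ + ∑ i, ψ i k) * x)‖ :=
      sum_le_sum hk
    rw [sum_const, nsmul_eq_mul] at h1
    refine le_trans ?_ h1
    calc δ ^ 2 * (H : ℝ) ^ (2 * (m + 1) + 2) = δ * (H : ℝ) ^ (2 * (m + 1)) * (δ * (H : ℝ) ^ 2) := by
          ring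
      _ ≤ K2.card * (δ * (H : ℝ) ^ 2) := mul_le_mul_of_nonneg_right hc (by positivity)

/-- the computation with the exponents -/
theorem Fin_exp {m n : ℕ} (hn : 2 ≤ n) {δ h E w B S U : ℝ} (hδ : 0 < δ) (_hδ2 : δ ≤ 1 / 2)
    (hh : 1 ≤ h) (hw : 0 ≤ w) (hB : 0 ≤ B) (_hS : 0 ≤ S) (hU : 0 ≤ U) (hE : 0 ≤ E)
    (hwE : w ≤ E * h ^ 2) (hBE : B ≤ (E * h ^ 2) ^ m) (hSU : S ^ 2 ≤ B * U)
    (hX : (δ ^ 2 * h ^ (2 * m + 2)) ^ n ≤ w ^ (n - 1) * B ^ (n - 2) * (B * S)) :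
    δ ^ (4 * n) * h ^ (2 * m + 4) ≤ E ^ ((2 * n - 2) + m * (2 * n - 1)) * U := by
  have hEh : 0 ≤ E * h ^ 2 := by positivity
  have h1 : ((δ ^ 2 * h ^ (2 * m + 2)) ^ n) ^ 2 ≤ (w ^ (n - 1) * B ^ (n - 2) * (B * S)) ^ 2 :=
    pow_le_pow_left₀ (by positivity) hX 2
  have h2 : (w ^ (n - 1) * B ^ (n - 2) * (B * S)) ^ 2 ≤ w ^ (2 * n - 2) * B ^ (2 * n - 1) * U := by
    have e1 : (w ^ (n - 1) * B ^ (n - 2) * (B * S)) ^ 2 =
        w ^ (2 * n - 2) * B ^ (2 * n - 2) * S ^ 2 := by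
      have e2 : 2 * n - 2 = (n - 1) * 2 := by omega
      have e3 : B ^ (2 * n - 2) = (B ^ (n - 2) * B) ^ 2 := by
        rw [← pow_succ, ← pow_mul]
        congr 1
        omega
      rw [e3, e2, pow_mul]
      ring
    rw [e1]
    calc w ^ (2 * n - 2) * B ^ (2 * n - 2) * S ^ 2 ≤ w ^ (2 * n - 2) * B ^ (2 * n - 2) * (B * U) :=
          mul_le_mul_of_nonneg_left hSU (by positivity)
      _ = w ^ (2 * n - 2) * B ^ (2 * n - 1) * U := by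
          have e4 : 2 * n - 1 = (2 * n - 2) + 1 := by omega
          rw [e4, pow_succ]
          ring
  have h3 : w ^ (2 * n - 2) * B ^ (2 * n - 1) * U ≤
      (E * h ^ 2) ^ ((2 * n - 2) + m * (2 * n - 1)) * U := by
    apply mul_le_mul_of_nonneg_right _ hU
    rw [pow_add, pow_mul]
    exact mul_le_mul (pow_le_pow_left₀ hw hwE _) (pow_le_pow_left₀ hB hBE _) (by positivity)
      (by positivity)
  have h4 := le_trans h1 (le_trans h2 h3)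
  obtain ⟨e, he⟩ : ∃ e, e = (2 * n - 2) + m * (2 * n - 1) := ⟨_, rfl⟩
  rw [← he] at h4 ⊢
  have e5 : ((δ ^ 2 * h ^ (2 * m + 2)) ^ n) ^ 2 = (δ ^ (4 * n) * h ^ (2 * m + 4)) * h ^ (2 * e) := by
    have e6 : (2 * m + 2) * (n * 2) = (2 * m + 4) + 2 * e := by
      rw [he]
      obtain ⟨n', rfl⟩ : ∃ n', n = n' + 1 := ⟨n - 1, by omega⟩
      have e7 : 2 * (n' + 1) - 2 = 2 * n' := by omega
      have e8 : 2 * (n' + 1) - 1 = 2 * n' + 1 := by omega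
      rw [e7, e8]
      ring
    rw [mul_pow, mul_pow, ← pow_mul, ← pow_mul, ← pow_mul, ← pow_mul, e6, pow_add]
    have e9 : 2 * (n * 2) = 4 * n := by ring
    rw [e9]
    ring
  rw [e5, mul_pow, ← pow_mul] at h4
  have h5 : 0 < h ^ (2 * e) := by positivity
  have h6 : (δ ^ (4 * n) * h ^ (2 * m + 4)) * h ^ (2 * e) ≤ (E ^ e * U) * h ^ (2 * e) := by
    calc _ ≤ E ^ e * h ^ (2 * e) * U := h4
      _ = _ := by ring
  exact le_of_mul_le_mul_right h6 h5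

theorem thm_Fin (hB : St_Bcs) (hA : St_Alg) (hD : St_Dls) (hS : St_Split) : St_Fin := by
  intro K m hm
  obtain ⟨m, rfl⟩ : ∃ m', m = m' + 1 := ⟨m - 1, by omega⟩
  obtain ⟨n, hn⟩ : ∃ n, n = 2 ^ (m + 1) := ⟨_, rfl⟩
  obtain ⟨E, hE⟩ : ∃ E, E = (4 * (m + 1) + 2) * K + 1 := ⟨_, rfl⟩
  obtain ⟨e, he⟩ : ∃ e, e = (2 * n - 2) + (m + 1) * (2 * n - 1) := ⟨_, rfl⟩
  refine ⟨4 * n + E * e, fun H δ hRg F hF K2 θ ψ hψ hK2 hc hk => ?_⟩
  obtain ⟨hδ0, hδ2, -, hH⟩ := hRg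
  have hH1 : 1 ≤ H := by
    by_contra h
    have h0 : H = 0 := by omega
    rw [h0] at hH
    simp at hH
    linarith
  have hh : (1 : ℝ) ≤ H := by exact_mod_cast hH1
  have hn2 : 2 ≤ n := by
    rw [hn, pow_succ]
    have : 1 ≤ 2 ^ m := Nat.one_le_two_pow
    omega
  obtain ⟨M, hM⟩ : ∃ M, M = K * H ^ 2 := ⟨_, rfl⟩
  have hR : 2 * K * H ^ 2 = 2 * M := by
    rw [hM]
    ring
  rw [hR] at hK2 ⊢
  rw [← hM] at hF
  obtain ⟨G, b, hG, hb1, hb2, hlow⟩ := Fin_low hD hS hF hψ hK2 hc hδ0.le hk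
  obtain ⟨Bb, hBb⟩ : ∃ Bb, Bb = (m + 1) * (2 * M) := ⟨_, rfl⟩
  obtain ⟨Ω, hΩ⟩ : ∃ Ω, Ω = Icc (-((M + Bb : ℕ) : ℤ)) ((M + Bb : ℕ) : ℤ) := ⟨_, rfl⟩
  have h1 := hlow Bb
  rw [← hΩ] at h1
  have h2 := hB ℤ Ω (m + 1) (2 * M) hm
    (fun x k => G k * Fin_V (m + 1) (F (x + ∑ i, k i))) b hb1 hb2
  have h3 : ‖∑ k0 ∈ bx (m + 1) (2 * M), ∑ k1 ∈ bx (m + 1) (2 * M), ∑ x ∈ Ω,
      cb (m + 1) ((fun x k => G k * Fin_V (m + 1) (F (x + ∑ i, k i))) x) k0 k1‖ ≤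
      (bx (m + 1) (2 * M)).card *
        ∑ κ ∈ bx (m + 1) (2 * M), ‖∑' x : ℤ, dls (m + 1) κ F x‖ := by
    refine le_trans (norm_sum_le _ _) ?_
    rw [← nsmul_eq_mul, ← sum_const]
    refine sum_le_sum fun k0 hk0 => ?_
    refine le_trans (norm_sum_le _ _) ?_
    refine le_trans (sum_le_sum fun k1 hk1 => ?_) (Fin_one hD hF k0)
    refine le_trans (Fin_bd hA (m + 1) F G hG Ω k0 k1) ?_
    rw [hΩ, Fin_shift ((hD.2.2.2.1 (m + 1) M (k1 - k0) F hF).1) (∑ i, k0 i) (by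
      rw [hBb]
      exact Fin_sum_le hk0)]
  have h4 : (∑ κ ∈ bx (m + 1) (2 * M), ‖∑' x : ℤ, dls (m + 1) κ F x‖) ^ 2 ≤
      (bx (m + 1) (2 * M)).card * UU (m + 1) (2 * M) F := by
    rw [hD.2.2.2.2.1]
    exact sq_sum_le_card_mul_sum_sq
  have hΩc : (Ω.card : ℝ) ≤ (E : ℝ) * (H : ℝ) ^ 2 := by
    rw [hΩ, Int.card_Icc]
    have e1 : (((M + Bb : ℕ) : ℤ) + 1 - -((M + Bb : ℕ) : ℤ)).toNat = 2 * (M + Bb) + 1 := by omega
    rw [e1]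
    have e2 : 2 * (M + Bb) + 1 ≤ E * H ^ 2 := by
      rw [hBb, hE, hM]
      have : 1 ≤ H ^ 2 := Nat.one_le_pow _ _ hH1
      nlinarith [Nat.zero_le (K * H ^ 2), Nat.zero_le (m * (K * H ^ 2))]
    exact_mod_cast e2
  have hBc : ((bx (m + 1) (2 * M)).card : ℝ) ≤ ((E : ℝ) * (H : ℝ) ^ 2) ^ (m + 1) := by
    rw [Fin_card]
    apply pow_le_pow_left₀ (Nat.cast_nonneg _)
    have e2 : 2 * (2 * M) + 1 ≤ E * H ^ 2 := by
      rw [hE, hM]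
      have : 1 ≤ H ^ 2 := Nat.one_le_pow _ _ hH1
      nlinarith [Nat.zero_le (K * H ^ 2), Nat.zero_le (m * (K * H ^ 2))]
    exact_mod_cast e2
  have hU0 : 0 ≤ UU (m + 1) (2 * M) F := by
    rw [hD.2.2.2.2.1]
    exact sum_nonneg fun _ _ => sq_nonneg _
  have hS0 : 0 ≤ ∑ κ ∈ bx (m + 1) (2 * M), ‖∑' x : ℤ, dls (m + 1) κ F x‖ :=
    sum_nonneg fun _ _ => norm_nonneg _
  have h5 : (δ ^ 2 * (H : ℝ) ^ (2 * (m + 1) + 2)) ^ n ≤
      (Ω.card : ℝ) ^ (n - 1) * ((bx (m + 1) (2 * M)).card : ℝ) ^ (n - 2) *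
        ((bx (m + 1) (2 * M)).card *
          ∑ κ ∈ bx (m + 1) (2 * M), ‖∑' x : ℤ, dls (m + 1) κ F x‖) := by
    refine le_trans (pow_le_pow_left₀ (by positivity) h1 n) ?_
    rw [← hn, ← Fin_card] at h2
    refine le_trans h2 ?_
    exact mul_le_mul_of_nonneg_left h3 (by positivity)
  have h6 := Fin_exp hn2 hδ0 hδ2 hh (Nat.cast_nonneg _) (Nat.cast_nonneg _) hS0 hU0
    (Nat.cast_nonneg E) hΩc hBc h4 h5
  rw [← he] at h6
  have h7 : δ ^ (E * e) * (E : ℝ) ^ e ≤ 1 := by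
    rw [pow_mul, ← mul_pow]
    apply pow_le_one₀ (by positivity)
    have h8 : δ ^ E ≤ (1 / 2) ^ E := pow_le_pow_left₀ hδ0.le hδ2 E
    have h9 : (E : ℝ) ≤ 2 ^ E := by
      exact_mod_cast (Nat.lt_two_pow_self (n := E)).le
    calc δ ^ E * (E : ℝ) ≤ (1 / 2) ^ E * 2 ^ E := mul_le_mul h8 h9 (by positivity) (by positivity)
      _ = 1 := by
        rw [← mul_pow]
        norm_num
  calc δ ^ (4 * n + E * e) * (H : ℝ) ^ (2 * (m + 1) + 4)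
      = δ ^ (E * e) * (δ ^ (4 * n) * (H : ℝ) ^ (2 * (m + 1) + 4)) := by
        rw [pow_add]
        ring
    _ ≤ δ ^ (E * e) * ((E : ℝ) ^ e * UU (m + 1) (2 * M) F) :=
        mul_le_mul_of_nonneg_left h6 (by positivity)
    _ = (δ ^ (E * e) * (E : ℝ) ^ e) * UU (m + 1) (2 * M) F := by ring
    _ ≤ 1 * UU (m + 1) (2 * M) F := mul_le_mul_of_nonneg_right h7 hU0
    _ = UU (m + 1) (2 * M) F := one_mul _

end Pool.Agent.NRP
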