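import Pool.Agent.NRP.StI
import Pool.Agent.GBQ.L2

/-!
# NRP [W2]: two functions, Fourier analysis and Weyl (helper24)
-/

set_option autoImplicit false

namespace Pool.Agent.NRP

open Finset
open Pool.Agent.GBQ (ee nd ee_norm ee_add ee_neg ee_int ee_zero)
open scoped ComplexConjugate

theorem w2_tsum {B : ℕ} {f : ℤ → ℂ} (hf : ∀ n : ℤ, (B : ℤ) < |n| → f n = 0) :
    ∑' n : ℤ, f n = ∑ n ∈ Icc (-(B : ℤ)) B, f n := by
  refine tsum_eq_sum fun n hn => hf n ?_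
  rw [mem_Icc] at hn
  by_contra h
  exact hn (abs_le.1 (not_lt.1 h))

theorem w2_summable {B : ℕ} {f : ℤ → ℂ} (hf : ∀ n : ℤ, (B : ℤ) < |n| → f n = 0) :
    Summable f := by
  refine summable_of_ne_finset_zero (s := Icc (-(B : ℤ)) B) fun n hn => hf n ?_
  rw [mem_Icc] at hn
  by_contra h
  exact hn (abs_le.1 (not_lt.1 h))

/-- the Fourier transform of the sum of translates -/
theorem w2_conv {B M : ℕ} {f : ℤ → ℂ} (hf : ∀ n : ℤ, (M : ℤ) < |n| → f n = 0) (P : ℤ → ℤ)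
    (S : Finset ℤ) (hB : ∀ z ∈ S, |P z| + M ≤ B) (α : ℝ) :
    ∑' n : ℤ, (∑ z ∈ S, f (n + P z)) * ee (α * n) =
      (∑ z ∈ S, ee (-(α * P z))) * ∑' n : ℤ, f n * ee (α * n) := by
  have hsup : ∀ z ∈ S, ∀ n : ℤ, (B : ℤ) < |n| → f (n + P z) * ee (α * n) = 0 := by
    intro z hz n hn
    rw [hf, zero_mul]
    have h1 := hB z hz
    have h2 : |n| ≤ |n + P z| + |P z| := by
      have := abs_sub (n + P z) (P z)
      rwa [add_sub_cancel_right] at this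
    linarith
  have h1 : ∀ n : ℤ, (∑ z ∈ S, f (n + P z)) * ee (α * n) =
      ∑ z ∈ S, f (n + P z) * ee (α * n) := fun n => sum_mul _ _ _
  rw [tsum_congr h1, Summable.tsum_finsetSum (fun z hz => w2_summable (hsup z hz)), sum_mul]
  refine sum_congr rfl fun z _ => ?_
  have h2 : ∀ n : ℤ, f (n + P z) * ee (α * n) =
      (fun m : ℤ => ee (-(α * P z)) * (f m * ee (α * m))) ((Equiv.addRight (P z)) n) := by
    intro n
    simp only [Equiv.coe_addRight]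
    have h3 : α * (n : ℝ) = -(α * P z) + α * ((n + P z : ℤ) : ℝ) := by
      push_cast
      ring
    conv_lhs => rw [h3, ee_add]
    ring
  rw [tsum_congr h2, Equiv.tsum_eq (Equiv.addRight (P z))
    (fun m : ℤ => ee (-(α * P z)) * (f m * ee (α * m))), tsum_mul_left]

/-- Parseval modulo `2B+1` -/
theorem w2_parseval {B : ℕ} {f : ℤ → ℂ} (hf : ∀ n : ℤ, (B : ℤ) < |n| → f n = 0) :
    ∑ ξ ∈ range (2 * B + 1), ‖∑' n : ℤ, f n * ee ((ξ : ℝ) / ((2 * B + 1 : ℕ) : ℝ) * n)‖ ^ 2 =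
      ((2 * B + 1 : ℕ) : ℝ) * ∑ n ∈ Icc (-(B : ℤ)) B, ‖f n‖ ^ 2 := by
  have h := Pool.Agent.GBQ.l2_parseval (P := 2 * B + 1) (Nat.succ_pos _) (Icc (-(B : ℤ)) B)
    (fun n => (n + B).toNat) (by
      intro i hi
      rw [mem_Icc] at hi
      omega) (by
      intro i hi j hj hij
      rw [mem_Icc] at hi hj
      omega) f
  rw [← h]
  refine sum_congr rfl fun ξ _ => ?_
  congr 1
  rw [w2_tsum (B := B) (fun n hn => by rw [hf n hn, zero_mul])]
  have h1 : ∀ n ∈ Icc (-(B : ℤ)) B,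
      f n * ee ((ξ : ℝ) / ((2 * B + 1 : ℕ) : ℝ) * (((n + B).toNat : ℕ) : ℝ)) =
      (f n * ee ((ξ : ℝ) / ((2 * B + 1 : ℕ) : ℝ) * n)) *
        ee ((ξ : ℝ) / ((2 * B + 1 : ℕ) : ℝ) * B) := by
    intro n hn
    rw [mem_Icc] at hn
    have h2 : (((n + B).toNat : ℕ) : ℝ) = (n : ℝ) + B := by
      have h3 : (((n + B).toNat : ℕ) : ℤ) = n + B := Int.toNat_of_nonneg (by omega)
      exact_mod_cast h3
    rw [h2, mul_add, ee_add]
    ring
  rw [sum_congr rfl h1, ← sum_mul, norm_mul, ee_norm, mul_one]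

theorem w2_nd_le (x : ℝ) (k : ℤ) : nd x ≤ |x - k| := round_le x k

theorem w2_nd_neg (x : ℝ) : nd (-x) = nd x := by
  have key : ∀ y : ℝ, nd (-y) ≤ nd y := by
    intro y
    refine (w2_nd_le (-y) (-round y)).trans (le_of_eq ?_)
    unfold nd
    rw [← abs_neg]
    congr 1
    push_cast
    ring
  refine le_antisymm (key x) ?_
  have := key (-x)
  rwa [neg_neg] at this

theorem w2_pow (t : ℝ) (j : ℕ) : ee (t * j) = ee t ^ j := by
  induction j with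
  | zero => simp [ee_zero]
  | succ j ih =>
    rw [pow_succ, ← ih, ← ee_add]
    congr 1
    push_cast
    ring

theorem w2_sub_one (t : ℝ) : 4 * nd t ≤ ‖ee t - 1‖ := by
  have h1 : ee t = ee (t - round t) := by
    have h2 : t = (t - round t) + (round t : ℤ) := by ring
    conv_lhs => rw [h2]
    rw [ee_add, ee_int, mul_one]
  rw [h1]
  unfold nd
  have h3 : |t - round t| ≤ 1 / 2 := abs_sub_round t
  set x := t - round t
  have h4 : ee x = Complex.exp (Complex.I * ((2 * Real.pi * x : ℝ) : ℂ)) := by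
    unfold ee
    rw [mul_comm]
  rw [h4, Complex.norm_exp_I_mul_ofReal_sub_one]
  have h5 : 2 * Real.pi * x / 2 = Real.pi * x := by ring
  rw [h5, norm_mul, Real.norm_eq_abs, Real.norm_eq_abs, abs_two]
  have h6 : |Real.pi * x| ≤ Real.pi / 2 := by
    rw [abs_mul, abs_of_pos Real.pi_pos]
    have := mul_le_mul_of_nonneg_left h3 Real.pi_pos.le
    linarith
  have h7 := Real.mul_abs_le_abs_sin h6
  rw [abs_mul, abs_of_pos Real.pi_pos] at h7
  have h8 : 2 / Real.pi * (Real.pi * |x|) = 2 * |x| := by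
    field_simp
  rw [h8] at h7
  linarith

/-- van der Corput's identity -/
theorem w2_vdc (f : ℕ → ℂ) (L : ℕ) :
    Complex.normSq (∑ i ∈ range L, f i) = ∑ i ∈ range L, Complex.normSq (f i) +
      2 * (∑ k ∈ range L, ∑ j ∈ range (L - 1 - k), f (j + k + 1) * (starRingEnd ℂ) (f j)).re := by
  induction L with
  | zero => simp
  | succ L ih =>
    have h1 : ∑ k ∈ range (L + 1), ∑ j ∈ range (L + 1 - 1 - k),
        f (j + k + 1) * (starRingEnd ℂ) (f j) =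
        (∑ k ∈ range L, ∑ j ∈ range (L - 1 - k), f (j + k + 1) * (starRingEnd ℂ) (f j)) +
          f L * (starRingEnd ℂ) (∑ i ∈ range L, f i) := by
      rw [Finset.sum_range_succ]
      have h2 : L + 1 - 1 - L = 0 := by omega
      rw [h2, Finset.range_zero, Finset.sum_empty, add_zero, map_sum, Finset.mul_sum,
        ← Finset.sum_range_reflect (fun i => f L * (starRingEnd ℂ) (f i)), ← Finset.sum_add_distrib]
      refine Finset.sum_congr rfl fun k hk => ?_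
      have hk' := Finset.mem_range.mp hk
      have h3 : L + 1 - 1 - k = (L - 1 - k) + 1 := by omega
      rw [h3, Finset.sum_range_succ]
      congr 2
      congr 1
      omega
    rw [Finset.sum_range_succ, Complex.normSq_add, ih, Finset.sum_range_succ, h1, Complex.add_re]
    have h4 : ((∑ i ∈ range L, f i) * (starRingEnd ℂ) (f L)).re =
        (f L * (starRingEnd ℂ) (∑ i ∈ range L, f i)).re := by
      simp only [Complex.mul_re, Complex.conj_re, Complex.conj_im]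
      ring
    rw [h4]
    ring

theorem w2_geom (t : ℝ) (M : ℕ) : ‖∑ j ∈ range M, ee (t * j)‖ * (2 * nd t) ≤ 1 := by
  have h1 : (∑ j ∈ range M, ee (t * j)) * (ee t - 1) = ee t ^ M - 1 := by
    simp only [w2_pow]
    exact geom_sum_mul (ee t) M
  have h2 : ‖∑ j ∈ range M, ee (t * j)‖ * ‖ee t - 1‖ ≤ 2 := by
    rw [← norm_mul, h1]
    calc ‖ee t ^ M - 1‖ ≤ ‖ee t ^ M‖ + ‖(1 : ℂ)‖ := norm_sub_le _ _
      _ = 2 := by rw [norm_pow, ee_norm, one_pow, norm_one]; norm_num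
  have h3 := mul_le_mul_of_nonneg_left (w2_sub_one t)
    (norm_nonneg (∑ j ∈ range M, ee (t * j)))
  linarith

theorem w2_geom' (t : ℝ) (M : ℕ) : ‖∑ j ∈ range M, ee (t * j)‖ ≤ M := by
  refine (norm_sum_le _ _).trans ?_
  simp only [ee_norm, Finset.sum_const, Finset.card_range, nsmul_eq_mul, mul_one]
  exact le_refl _

theorem w2_corr (A B C : ℝ) (k M : ℕ) :
    ‖∑ j ∈ range M, ee (A * ((j + k + 1 : ℕ) : ℝ) ^ 2 + B * ((j + k + 1 : ℕ) : ℝ) + C) *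
      (starRingEnd ℂ) (ee (A * (j : ℝ) ^ 2 + B * j + C))‖ =
    ‖∑ j ∈ range M, ee ((((k + 1 : ℕ) : ℝ) * (2 * A)) * j)‖ := by
  have h1 : ∀ j ∈ range M, ee (A * ((j + k + 1 : ℕ) : ℝ) ^ 2 + B * ((j + k + 1 : ℕ) : ℝ) + C) *
      (starRingEnd ℂ) (ee (A * (j : ℝ) ^ 2 + B * j + C)) =
      ee (A * (k + 1) ^ 2 + B * (k + 1)) * ee ((((k + 1 : ℕ) : ℝ) * (2 * A)) * j) := by
    intro j _
    rw [← ee_neg, ← ee_add, ← ee_add]
    congr 1
    push_cast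
    ring
  rw [Finset.sum_congr rfl h1, ← Finset.mul_sum, norm_mul, ee_norm, one_mul]

/-- Weyl differencing of a quadratic phase -/
theorem w2_weyl (A B C : ℝ) (Z : ℕ) (η : ℝ) (hη : 0 < η) :
    ‖∑ i ∈ range Z, ee (A * (i : ℝ) ^ 2 + B * i + C)‖ ^ 2 ≤ Z + 2 *
      ((((range Z).filter (fun k : ℕ => nd (((k + 1 : ℕ) : ℝ) * (2 * A)) ≤ η)).card : ℝ) * Z +
        Z * (1 / (2 * η))) := by
  rw [← Complex.normSq_eq_norm_sq, w2_vdc (fun i : ℕ => ee (A * (i : ℝ) ^ 2 + B * i + C)) Z]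
  have h1 : ∑ i ∈ range Z, Complex.normSq (ee (A * (i : ℝ) ^ 2 + B * i + C)) = Z := by
    simp only [Complex.normSq_eq_norm_sq, ee_norm, one_pow, Finset.sum_const,
      Finset.card_range, nsmul_eq_mul, mul_one]
  rw [h1]
  have h2 : (∑ k ∈ range Z, ∑ j ∈ range (Z - 1 - k),
      ee (A * ((j + k + 1 : ℕ) : ℝ) ^ 2 + B * ((j + k + 1 : ℕ) : ℝ) + C) *
        (starRingEnd ℂ) (ee (A * (j : ℝ) ^ 2 + B * j + C))).re ≤
      ∑ k ∈ range Z, ((if nd (((k + 1 : ℕ) : ℝ) * (2 * A)) ≤ η then (Z : ℝ) else 0) +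
        1 / (2 * η)) := by
    refine (Complex.re_le_norm _).trans ((norm_sum_le _ _).trans (Finset.sum_le_sum ?_))
    intro k hk
    have hk' := Finset.mem_range.mp hk
    rw [w2_corr]
    by_cases hd : nd (((k + 1 : ℕ) : ℝ) * (2 * A)) ≤ η
    · rw [if_pos hd]
      have h3 := w2_geom' (((k + 1 : ℕ) : ℝ) * (2 * A)) (Z - 1 - k)
      have h4 : ((Z - 1 - k : ℕ) : ℝ) ≤ Z := by
        exact_mod_cast (by omega : Z - 1 - k ≤ Z)
      have h5 : 0 < 1 / (2 * η) := by positivity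
      linarith
    · rw [if_neg hd, zero_add]
      push Not at hd
      have h3 := w2_geom (((k + 1 : ℕ) : ℝ) * (2 * A)) (Z - 1 - k)
      rw [le_div_iff₀ (by positivity)]
      refine le_trans ?_ h3
      exact mul_le_mul_of_nonneg_left (by linarith) (norm_nonneg _)
  rw [Finset.sum_add_distrib, Finset.sum_const, Finset.card_range, nsmul_eq_mul,
    ← Finset.sum_filter, Finset.sum_const, nsmul_eq_mul] at h2
  linarith

/-- integers with `|qξ/N - m| ≤ η` -/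
theorem w2_count1 (N q : ℕ) (hN : 0 < N) (hq : 1 ≤ q) (m : ℝ) (η : ℝ) (hη : 0 ≤ η) :
    (((range N).filter (fun ξ : ℕ => |(q : ℝ) * ((ξ : ℝ) / N) - m| ≤ η)).card : ℝ) ≤
      2 * η * N + 1 := by
  classical
  have hN0 : (0 : ℝ) < N := by exact_mod_cast hN
  have hq1 : (1 : ℝ) ≤ q := by exact_mod_cast hq
  set S := (range N).filter (fun ξ : ℕ => |(q : ℝ) * ((ξ : ℝ) / N) - m| ≤ η) with hS
  rcases S.eq_empty_or_nonempty with h0 | h0
  · rw [h0, card_empty]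
    push_cast
    positivity
  · have h1 : S ⊆ Icc (S.min' h0) (S.max' h0) := by
      intro x hx
      rw [mem_Icc]
      exact ⟨S.min'_le x hx, S.le_max' x hx⟩
    have h2 := card_le_card h1
    rw [Nat.card_Icc] at h2
    have h3 := (mem_filter.1 (S.min'_mem h0)).2
    have h4 := (mem_filter.1 (S.max'_mem h0)).2
    have h5 : S.min' h0 ≤ S.max' h0 := S.min'_le _ (S.max'_mem h0)
    set a := S.min' h0
    set b := S.max' h0
    have h6 : (S.card : ℝ) ≤ (b : ℝ) - a + 1 := by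
      have : S.card + a ≤ b + 1 := by omega
      have h7 : (S.card : ℝ) + a ≤ b + 1 := by exact_mod_cast this
      linarith
    have h7 : (q : ℝ) * ((b : ℝ) / N) - (q : ℝ) * ((a : ℝ) / N) ≤ 2 * η := by
      have := abs_le.1 h3
      have := abs_le.1 h4
      linarith
    have h8 : (b : ℝ) - a ≤ 2 * η * N := by
      have h9 : (q : ℝ) * ((b : ℝ) / N) - (q : ℝ) * ((a : ℝ) / N) = q * ((b - a) / N) := by ring
      rw [h9] at h7
      have h10 : 0 ≤ ((b : ℝ) - a) / N := by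
        apply div_nonneg _ hN0.le
        have : (a : ℝ) ≤ b := by exact_mod_cast h5
        linarith
      have h11 : ((b : ℝ) - a) / N ≤ 2 * η := by nlinarith
      rwa [div_le_iff₀ hN0] at h11
    linarith

/-- number of the major frequencies -/
theorem w2_count (N : ℕ) (hN : 0 < N) (Q : ℝ) (hQ : 1 ≤ Q) (η : ℝ) (hη : 0 ≤ η)
    (J : Finset ℕ) (hJ : ∀ ξ ∈ J, ξ < N ∧ ∃ q : ℕ, 1 ≤ q ∧ (q : ℝ) ≤ Q ∧
      nd (q * ((ξ : ℝ) / N)) ≤ η) :
    (J.card : ℝ) ≤ Q * (Q + 1) * (2 * η * N + 1) := by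
  classical
  have hN0 : (0 : ℝ) < N := by exact_mod_cast hN
  set q0 := ⌊Q⌋₊ with hq0
  have hq0Q : (q0 : ℝ) ≤ Q := Nat.floor_le (by linarith)
  have h1 : J ⊆ (Icc 1 q0).biUnion (fun q => (range (q + 1)).biUnion (fun m =>
      (range N).filter (fun ξ : ℕ => |(q : ℝ) * ((ξ : ℝ) / N) - (m : ℝ)| ≤ η))) := by
    intro ξ hξ
    obtain ⟨h2, q, h3, h4, h5⟩ := hJ ξ hξ
    rw [mem_biUnion]
    refine ⟨q, mem_Icc.2 ⟨h3, Nat.le_floor h4⟩, ?_⟩
    rw [mem_biUnion]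
    have h6 : (0 : ℝ) ≤ q * ((ξ : ℝ) / N) := by positivity
    have h7 : (q : ℝ) * ((ξ : ℝ) / N) ≤ q := by
      have h8 : (ξ : ℝ) / N ≤ 1 := by
        rw [div_le_one hN0]
        exact_mod_cast h2.le
      calc (q : ℝ) * ((ξ : ℝ) / N) ≤ q * 1 := mul_le_mul_of_nonneg_left h8 (by positivity)
        _ = q := mul_one _
    have h8 : 0 ≤ round ((q : ℝ) * ((ξ : ℝ) / N)) := by
      rw [round_eq]
      apply Int.floor_nonneg.2
      linarith
    have h9 : round ((q : ℝ) * ((ξ : ℝ) / N)) ≤ q := by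
      rw [round_eq]
      have : ⌊(q : ℝ) * ((ξ : ℝ) / N) + 1 / 2⌋ < (q : ℤ) + 1 := by
        rw [Int.floor_lt]
        push_cast
        linarith
      omega
    refine ⟨(round ((q : ℝ) * ((ξ : ℝ) / N))).toNat, mem_range.2 (by omega), ?_⟩
    rw [mem_filter]
    refine ⟨mem_range.2 h2, ?_⟩
    have h10 : (((round ((q : ℝ) * ((ξ : ℝ) / N))).toNat : ℕ) : ℝ) =
        (round ((q : ℝ) * ((ξ : ℝ) / N)) : ℤ) := by
      have h3 : (((round ((q : ℝ) * ((ξ : ℝ) / N))).toNat : ℕ) : ℤ) =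
          round ((q : ℝ) * ((ξ : ℝ) / N)) := Int.toNat_of_nonneg h8
      exact_mod_cast h3
    rw [h10]
    exact h5
  have h2 : (J.card : ℝ) ≤ ∑ q ∈ Icc 1 q0, ∑ m ∈ range (q + 1),
      (((range N).filter (fun ξ : ℕ => |(q : ℝ) * ((ξ : ℝ) / N) - (m : ℝ)| ≤ η)).card : ℝ) := by
    have h3 := (card_le_card h1).trans card_biUnion_le
    have h4 : ∑ q ∈ Icc 1 q0, ((range (q + 1)).biUnion (fun m =>
        (range N).filter (fun ξ : ℕ => |(q : ℝ) * ((ξ : ℝ) / N) - (m : ℝ)| ≤ η))).card ≤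
        ∑ q ∈ Icc 1 q0, ∑ m ∈ range (q + 1),
          ((range N).filter (fun ξ : ℕ => |(q : ℝ) * ((ξ : ℝ) / N) - (m : ℝ)| ≤ η)).card :=
      sum_le_sum fun q _ => card_biUnion_le
    exact_mod_cast h3.trans h4
  refine h2.trans ?_
  have h3 : ∀ q ∈ Icc 1 q0, ∑ m ∈ range (q + 1),
      (((range N).filter (fun ξ : ℕ => |(q : ℝ) * ((ξ : ℝ) / N) - (m : ℝ)| ≤ η)).card : ℝ) ≤
      (Q + 1) * (2 * η * N + 1) := by
    intro q hq
    rw [mem_Icc] at hq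
    refine (sum_le_sum fun (m : ℕ) _ => w2_count1 N q hN hq.1 (m : ℝ) η hη).trans ?_
    rw [sum_const, card_range, nsmul_eq_mul]
    have h4 : (q : ℝ) ≤ q0 := by exact_mod_cast hq.2
    have h5 : (0 : ℝ) ≤ 2 * η * N + 1 := by positivity
    push_cast
    exact mul_le_mul_of_nonneg_right (by linarith) h5
  refine (sum_le_sum h3).trans ?_
  rw [sum_const, Nat.card_Icc, nsmul_eq_mul, Nat.add_sub_cancel]
  have h5 : (0 : ℝ) ≤ (Q + 1) * (2 * η * N + 1) := by positivity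
  calc (q0 : ℝ) * ((Q + 1) * (2 * η * N + 1)) ≤ Q * ((Q + 1) * (2 * η * N + 1)) :=
        mul_le_mul_of_nonneg_right hq0Q h5
    _ = _ := by ring

theorem w2_Icc (Z : ℕ) (f : ℤ → ℂ) :
    ∑ z ∈ Icc (1 : ℤ) Z, f z = ∑ i ∈ range Z, f ((i : ℤ) + 1) := by
  symm
  refine sum_bij (fun i _ => (i : ℤ) + 1) ?_ ?_ ?_ ?_
  · intro i hi
    rw [mem_range] at hi
    rw [mem_Icc]
    omega
  · intro i _ j _ h
    have h' : (i : ℤ) + 1 = (j : ℤ) + 1 := h
    omega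
  · intro z hz
    rw [mem_Icc] at hz
    refine ⟨(z - 1).toNat, ?_, ?_⟩
    · rw [mem_range]
      omega
    · omega
  · intro i _
    rfl

theorem w2_Rg {C C' H : ℕ} {δ : ℝ} (h : C' ≤ C) (hR : Rg C H δ) : Rg C' H δ := by
  obtain ⟨h1, h2, h3, h4⟩ := hR
  refine ⟨h1, h2, h3, h4.trans ?_⟩
  exact mul_le_mul_of_nonneg_right (pow_le_pow_of_le_one h1.le (by linarith) h) (Nat.cast_nonneg _)

theorem w2_Mj {C C' H : ℕ} {δ θ : ℝ} (hδ : 0 < δ) (hδ1 : δ ≤ 1 / 2) (h : C' ≤ C)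
    (hM : Mj C' H δ θ) : Mj C H δ θ := by
  obtain ⟨q, h1, h2, h3⟩ := hM
  have h4 : (1 : ℝ) ≤ 1 / δ := by
    rw [le_div_iff₀ hδ]
    linarith
  have h5 : (1 / δ) ^ C' ≤ (1 / δ) ^ C := pow_le_pow_right₀ h4 h
  exact ⟨q, h1, h2.trans h5, h3.trans (div_le_div_of_nonneg_right h5 (by positivity))⟩

/-- the inverse theorem for the exponential sum over the quadratic polynomial -/
theorem w2_maj (hV : St_Vl) (C0 E : ℕ) : ∃ C2 : ℕ, ∀ (H : ℕ) (δ : ℝ), Rg C2 H δ →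
    ∀ (c h0 : ℤ) (q Z : ℕ), 1 ≤ q → (q : ℝ) ≤ (1 / δ) ^ C0 → q * Z ≤ H → δ ^ C0 * H ≤ Z →
    ∀ α : ℝ, δ ^ E * Z ≤ ‖∑ z ∈ Icc (1 : ℤ) Z, ee (-(α * (pp c (h0 + q * z) : ℤ)))‖ →
    Mj C2 H δ α := by
  classical
  set C0' : ℕ := 2 * E + C0 + 2 with hC0'
  obtain ⟨C1, hC1⟩ := hV C0'
  refine ⟨C1 + 2 * C0 + C0' + 1, ?_⟩
  intro H δ hR c h0 q Z hq hqD hqZ hZ α hS
  have hR1 : Rg C1 H δ := w2_Rg (by omega) hR
  obtain ⟨hδ0, hδ1, -, hH⟩ := hR
  set D : ℝ := 1 / δ with hD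
  have hDδ : D * δ = 1 := by
    rw [hD]
    field_simp
  have hD2 : 2 ≤ D := by
    rw [hD, le_div_iff₀ hδ0]
    linarith
  have hDpow : ∀ k : ℕ, D ^ k * δ ^ k = 1 := fun k => by rw [← mul_pow, hDδ, one_pow]
  have hδle : ∀ k : ℕ, δ ^ k ≤ 1 := fun k => pow_le_one₀ hδ0.le (by linarith)
  have hH0 : (0 : ℝ) ≤ H := Nat.cast_nonneg _
  have hHpos : (0 : ℝ) < H := by
    rcases hH0.lt_or_eq with h | h
    · exact h
    · rw [← h, mul_zero] at hH
      linarith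
  have hZpos : (0 : ℝ) < Z := lt_of_lt_of_le (by positivity) hZ
  have hZH : Z ≤ H := by nlinarith
  -- Z is large
  have hZ2 : 4 ≤ δ ^ (2 * E) * Z := by
    have h1 : δ ^ (C1 + 2 * C0 + C0' + 1) * H ≤ δ ^ C0' * H := by
      apply mul_le_mul_of_nonneg_right _ hH0
      exact pow_le_pow_of_le_one hδ0.le (by linarith) (by omega)
    have h2 : δ ^ C0' = δ ^ (2 * E) * δ ^ C0 * δ ^ 2 := by
      rw [hC0', pow_add, pow_add]
    have h3 : 1 ≤ δ ^ (2 * E) * (δ ^ C0 * H) * δ ^ 2 := by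
      calc (1 : ℝ) ≤ δ ^ C0' * H := hH.trans h1
        _ = _ := by rw [h2]; ring
    have h4 : δ ^ 2 ≤ 1 / 4 := by nlinarith
    have h5 : δ ^ (2 * E) * (δ ^ C0 * H) ≤ δ ^ (2 * E) * Z :=
      mul_le_mul_of_nonneg_left hZ (by positivity)
    have h6 : δ ^ (2 * E) * (δ ^ C0 * H) * δ ^ 2 ≤ δ ^ (2 * E) * Z * (1 / 4) :=
      mul_le_mul h5 h4 (by positivity) (by positivity)
    linarith
  set A : ℝ := -(α * (q : ℝ) ^ 2) with hA
  set B : ℝ := -(α * (2 * ((h0 : ℝ) + q) * q + c * q)) with hB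
  set G : ℝ := -(α * (((h0 : ℝ) + q) ^ 2 + c * ((h0 : ℝ) + q))) with hG
  have hsum : ∑ z ∈ Icc (1 : ℤ) Z, ee (-(α * (pp c (h0 + q * z) : ℤ))) =
      ∑ i ∈ range Z, ee (A * (i : ℝ) ^ 2 + B * i + G) := by
    rw [w2_Icc]
    refine sum_congr rfl fun i _ => ?_
    congr 1
    unfold pp
    rw [hA, hB, hG]
    push_cast
    ring
  rw [hsum] at hS
  set η : ℝ := 4 / (δ ^ (2 * E) * Z) with hη
  have hη0 : 0 < η := by positivity
  have hW := w2_weyl A B G Z η hη0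
  set cd := (range Z).filter (fun k : ℕ => nd (((k + 1 : ℕ) : ℝ) * (2 * A)) ≤ η) with hcd
  have hsq : (δ ^ E * Z) ^ 2 ≤ ‖∑ i ∈ range Z, ee (A * (i : ℝ) ^ 2 + B * i + G)‖ ^ 2 :=
    pow_le_pow_left₀ (by positivity) hS 2
  have hcard : δ ^ (2 * E) * Z / 4 ≤ (cd.card : ℝ) := by
    have h1 : (Z : ℝ) * (1 / (2 * η)) = δ ^ (2 * E) * Z * Z / 8 := by
      rw [hη]
      field_simp
      ring
    have h2 : (δ ^ E * (Z : ℝ)) ^ 2 = δ ^ (2 * E) * Z * Z := by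
      rw [mul_pow, ← pow_mul, mul_comm E 2]
      ring
    rw [h2] at hsq
    rw [h1] at hW
    have h3 : 4 * (Z : ℝ) ≤ δ ^ (2 * E) * Z * Z :=
      mul_le_mul_of_nonneg_right hZ2 hZpos.le
    have h4 : δ ^ (2 * E) * Z / 4 * Z ≤ (cd.card : ℝ) * Z := by linarith
    exact le_of_mul_le_mul_right h4 hZpos
  have hηle : η ≤ D ^ C0' / H := by
    rw [hη, div_le_div_iff₀ (by positivity) hHpos]
    have h1 : D ^ C0' * δ ^ C0' = 1 := hDpow C0'
    have h2 : δ ^ C0' = δ ^ (2 * E) * δ ^ C0 * δ ^ 2 := by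
      rw [hC0', pow_add, pow_add]
    have h4 : δ ^ 2 ≤ 1 / 4 := by nlinarith
    have hDp : 0 < D ^ C0' := by positivity
    calc 4 * (H : ℝ) = 4 * (D ^ C0' * δ ^ C0') * H := by rw [h1]; ring
      _ = (D ^ C0' * (δ ^ (2 * E) * (δ ^ C0 * H))) * (4 * δ ^ 2) := by rw [h2]; ring
      _ ≤ (D ^ C0' * (δ ^ (2 * E) * (δ ^ C0 * H))) * 1 :=
          mul_le_mul_of_nonneg_left (by linarith) (by positivity)
      _ ≤ D ^ C0' * (δ ^ (2 * E) * Z) := by
          rw [mul_one]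
          exact mul_le_mul_of_nonneg_left (mul_le_mul_of_nonneg_left hZ (by positivity)) hDp.le
  have hmj : Mj C1 H δ (2 * A) := by
    refine hC1 H δ hR1 (2 * A) ?_
    have h1 : cd.card ≤ ((Icc (-(H : ℤ)) H).filter
        (fun a : ℤ => nd (a * (2 * A)) ≤ (1 / δ) ^ C0' / H)).card := by
      refine card_le_card_of_injOn (fun k : ℕ => ((k : ℤ) + 1)) ?_ ?_
      · intro k hk
        rw [mem_coe, hcd, mem_filter, mem_range] at hk
        rw [mem_coe, mem_filter, mem_Icc]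
        beta_reduce
        refine ⟨⟨by omega, by omega⟩, ?_⟩
        have h3 := hk.2.trans hηle
        push_cast at h3 ⊢
        exact h3
      · intro k _ k' _ h
        have h' : (k : ℤ) + 1 = (k' : ℤ) + 1 := h
        omega
    have h2 : (cd.card : ℝ) ≤ (((Icc (-(H : ℤ)) H).filter
        (fun a : ℤ => nd (a * (2 * A)) ≤ (1 / δ) ^ C0' / H)).card : ℝ) := by exact_mod_cast h1
    refine le_trans ?_ h2
    refine le_trans ?_ hcard
    have h3 : δ ^ C0' = δ ^ (2 * E) * δ ^ C0 * δ ^ 2 := by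
      rw [hC0', pow_add, pow_add]
    have h4 : δ ^ 2 ≤ 1 / 4 := by nlinarith
    calc δ ^ C0' * (H : ℝ) = (δ ^ (2 * E) * (δ ^ C0 * H)) * δ ^ 2 := by rw [h3]; ring
      _ ≤ (δ ^ (2 * E) * Z) * (1 / 4) := by
          apply mul_le_mul _ h4 (by positivity) (by positivity)
          exact mul_le_mul_of_nonneg_left hZ (by positivity)
      _ = δ ^ (2 * E) * Z / 4 := by ring
  obtain ⟨q1, h1, h2, h3⟩ := hmj
  refine ⟨2 * q ^ 2 * q1, ?_, ?_, ?_⟩
  · have : 0 < 2 * q ^ 2 * q1 := by positivity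
    omega
  · push_cast
    have h4 : (q : ℝ) ^ 2 ≤ (D ^ C0) ^ 2 := pow_le_pow_left₀ (by positivity) hqD 2
    have h5 : (2 : ℝ) * (q : ℝ) ^ 2 * q1 ≤ D * (D ^ C0) ^ 2 * D ^ C1 := by
      apply mul_le_mul _ h2 (by positivity) (by positivity)
      exact mul_le_mul hD2 h4 (by positivity) (by positivity)
    refine h5.trans ?_
    have h6 : D * (D ^ C0) ^ 2 * D ^ C1 = D ^ (C1 + 2 * C0 + 1) := by
      rw [← pow_mul, ← pow_succ', ← pow_add]
      congr 1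
      ring
    rw [h6]
    exact pow_le_pow_right₀ (by linarith) (by omega)
  · have h4 : ((2 * q ^ 2 * q1 : ℕ) : ℝ) * α = -((q1 : ℝ) * (2 * A)) := by
      rw [hA]
      push_cast
      ring
    rw [h4, w2_nd_neg]
    refine h3.trans ?_
    apply div_le_div_of_nonneg_right _ (by positivity)
    exact pow_le_pow_right₀ (by linarith) (by omega)

/-- the values of the polynomial -/
theorem w2_pp {c h0 : ℤ} (hc : c = 0 ∨ c = 1) {H q Z : ℕ} (hh : |h0| ≤ H) (hqZ : q * Z ≤ H)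
    {z : ℤ} (hz : z ∈ Icc (1 : ℤ) Z) : |pp c (h0 + q * z)| ≤ 6 * (H : ℤ) ^ 2 := by
  rw [mem_Icc] at hz
  have h1 : (q : ℤ) * z ≤ H := by
    have : (q : ℤ) * z ≤ q * Z := mul_le_mul_of_nonneg_left hz.2 (by positivity)
    have h2 : (q : ℤ) * Z ≤ H := by exact_mod_cast hqZ
    linarith
  have h0' : (0 : ℤ) ≤ q * z := by
    have : (0 : ℤ) ≤ z := by linarith
    positivity
  have h2 := abs_le.1 hh
  set h := h0 + q * z with hhd
  have h3 : |h| ≤ 2 * H := by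
    rw [abs_le]
    constructor <;> linarith
  have h4 : h ^ 2 ≤ 4 * (H : ℤ) ^ 2 := by
    rw [← sq_abs h]
    nlinarith [abs_nonneg h]
  have h5 : |h| ≤ 2 * (H : ℤ) ^ 2 := by
    rcases Nat.eq_zero_or_pos H with h6 | h6
    · rw [h6] at h3 ⊢
      simpa using h3
    · have h7 : (1 : ℤ) ≤ H := by exact_mod_cast h6
      nlinarith
  unfold pp
  have h6 := abs_le.1 h5
  rcases hc with h7 | h7
  · rw [h7, abs_le]
    constructor <;> nlinarith [sq_nonneg h]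
  · rw [h7, abs_le]
    constructor <;> nlinarith [sq_nonneg h]

theorem thm_W2 (hV : St_Vl) : St_W2 := by
  classical
  intro K C0
  set b0 : ℕ := 2 * K + 13 with hb0
  set E : ℕ := C0 + b0 with hE
  obtain ⟨C2, hC2⟩ := w2_maj hV C0 E
  set C : ℕ := 3 * C2 + 2 * b0 + C0 + 8 with hC
  refine ⟨C, ?_⟩
  intro H δ hR c hc f2 hf2 q Z h0 hq hqD hh hqZ hZ hS
  have hR2 : Rg C2 H δ := w2_Rg (by omega) hR
  obtain ⟨hδ0, hδ1, -, hH⟩ := hR
  obtain ⟨hfb, hfs⟩ := hf2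
  set D : ℝ := 1 / δ with hD
  have hDδ : D * δ = 1 := by
    rw [hD]
    field_simp
  have hD2 : 2 ≤ D := by
    rw [hD, le_div_iff₀ hδ0]
    linarith
  have hH0 : (0 : ℝ) ≤ H := Nat.cast_nonneg _
  have hHpos : (0 : ℝ) < H := by
    rcases hH0.lt_or_eq with h | h
    · exact h
    · rw [← h, mul_zero] at hH
      linarith
  have hH1n : 1 ≤ H := by exact_mod_cast hHpos
  have hH1 : (1 : ℝ) ≤ H := by exact_mod_cast hH1n
  have hZpos : (0 : ℝ) < Z := lt_of_lt_of_le (by positivity) hZ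
  set B : ℕ := (K + 6) * H ^ 2 with hB
  set N : ℕ := 2 * B + 1 with hN
  have hNpos : 0 < N := by omega
  have hN0 : (0 : ℝ) < N := by exact_mod_cast hNpos
  have hNle : (N : ℝ) ≤ b0 * (H : ℝ) ^ 2 := by
    rw [hN, hB, hb0]
    push_cast
    have : (1 : ℝ) ≤ (H : ℝ) ^ 2 := one_le_pow₀ hH1
    nlinarith
  set g : ℤ → ℂ := fun n => ∑ z ∈ Icc (1 : ℤ) Z, f2 (n + pp c (h0 + q * z)) with hg
  have hPB : ∀ z ∈ Icc (1 : ℤ) Z, |pp c (h0 + q * z)| + ((K * H ^ 2 : ℕ) : ℤ) ≤ (B : ℤ) := by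
    intro z hz
    have := w2_pp hc hh hqZ hz
    rw [hB]
    push_cast
    linarith
  have hgs : ∀ n : ℤ, (B : ℤ) < |n| → g n = 0 := by
    intro n hn
    rw [hg]
    refine sum_eq_zero fun z hz => hfs _ ?_
    have h1 := hPB z hz
    have h2 : |n| ≤ |n + pp c (h0 + q * z)| + |pp c (h0 + q * z)| := by
      have := abs_sub (n + pp c (h0 + q * z)) (pp c (h0 + q * z))
      rwa [add_sub_cancel_right] at this
    linarith
  have hf2s : ∀ n : ℤ, (B : ℤ) < |n| → f2 n = 0 := by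
    intro n hn
    refine hfs n (lt_of_le_of_lt ?_ hn)
    rw [hB]
    push_cast
    nlinarith [sq_nonneg (H : ℤ)]
  -- Cauchy and Schwarz
  have hcardI : ((Icc (-(B : ℤ)) B).card : ℝ) = N := by
    rw [Int.card_Icc, hN]
    have : ((B : ℤ) + 1 - -(B : ℤ)).toNat = 2 * B + 1 := by omega
    rw [this]
  have hgn : ∑' n : ℤ, ‖g n‖ = ∑ n ∈ Icc (-(B : ℤ)) B, ‖g n‖ := by
    refine tsum_eq_sum fun n hn => ?_
    rw [hgs, norm_zero]
    rw [mem_Icc] at hn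
    by_contra h
    exact hn (abs_le.1 (not_lt.1 h))
  have hCS : (δ ^ C0 * (H : ℝ) ^ 2 * Z) ^ 2 ≤ N * ∑ n ∈ Icc (-(B : ℤ)) B, ‖g n‖ ^ 2 := by
    have h1 : (δ ^ C0 * (H : ℝ) ^ 2 * Z) ^ 2 ≤ (∑ n ∈ Icc (-(B : ℤ)) B, ‖g n‖) ^ 2 := by
      apply pow_le_pow_left₀ (by positivity)
      rw [← hgn]
      exact hS
    refine h1.trans ?_
    have h2 := sq_sum_le_card_mul_sum_sq (s := Icc (-(B : ℤ)) B) (f := fun n => ‖g n‖)
    rw [hcardI] at h2
    exact h2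
  set F : ℝ → ℂ := fun α => ∑' n : ℤ, f2 n * ee (α * n) with hF
  set W : ℝ → ℂ := fun α => ∑ z ∈ Icc (1 : ℤ) Z, ee (-(α * (pp c (h0 + q * z) : ℤ))) with hW
  have hconv : ∀ α : ℝ, ∑' n : ℤ, g n * ee (α * n) = W α * F α := fun α =>
    w2_conv (B := B) (M := K * H ^ 2) hfs (fun z => pp c (h0 + q * z)) (Icc (1 : ℤ) Z) hPB α
  have hPg := w2_parseval (B := B) hgs
  have hPf := w2_parseval (B := B) hf2s
  have hPg' : ∑ ξ ∈ range N, (‖W ((ξ : ℝ) / N)‖ ^ 2 * ‖F ((ξ : ℝ) / N)‖ ^ 2) =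
      N * ∑ n ∈ Icc (-(B : ℤ)) B, ‖g n‖ ^ 2 := by
    rw [← hPg]
    refine sum_congr rfl fun ξ _ => ?_
    rw [hconv, norm_mul, mul_pow]
  have hPf' : ∑ ξ ∈ range N, ‖F ((ξ : ℝ) / N)‖ ^ 2 ≤ (N : ℝ) ^ 2 := by
    have h1 : ∑ ξ ∈ range N, ‖F ((ξ : ℝ) / N)‖ ^ 2 =
        N * ∑ n ∈ Icc (-(B : ℤ)) B, ‖f2 n‖ ^ 2 := hPf
    rw [h1, sq]
    apply mul_le_mul_of_nonneg_left _ hN0.le
    have h2 : ∑ n ∈ Icc (-(B : ℤ)) B, ‖f2 n‖ ^ 2 ≤ ∑ _n ∈ Icc (-(B : ℤ)) B, (1 : ℝ) :=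
      sum_le_sum fun n _ => pow_le_one₀ (norm_nonneg _) (hfb n)
    rw [sum_const, nsmul_one, hcardI] at h2
    exact h2
  have hWZ : ∀ α : ℝ, ‖W α‖ ≤ Z := by
    intro α
    refine (norm_sum_le _ _).trans ?_
    simp only [ee_norm, sum_const, nsmul_eq_mul, mul_one, Int.card_Icc]
    have : ((Z : ℤ) + 1 - 1).toNat = Z := by omega
    rw [this]
  -- the large values of `W`
  set J := (range N).filter (fun ξ : ℕ => δ ^ E * Z ≤ ‖W ((ξ : ℝ) / N)‖) with hJ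
  have hJMj : ∀ ξ ∈ J, Mj C2 H δ ((ξ : ℝ) / N) := by
    intro ξ hξ
    rw [hJ, mem_filter] at hξ
    exact hC2 H δ hR2 c h0 q Z hq hqD hqZ hZ _ hξ.2
  have hDC2 : (1 : ℝ) ≤ D ^ C2 := one_le_pow₀ (by linarith)
  have hJcard : (J.card : ℝ) ≤ D ^ C2 * (D ^ C2 + 1) * (2 * (D ^ C2 / (H : ℝ) ^ 2) * N + 1) := by
    refine w2_count N hNpos (D ^ C2) hDC2 (D ^ C2 / (H : ℝ) ^ 2) (by positivity) J ?_
    intro ξ hξ
    have h1 := hJMj ξ hξ
    rw [hJ, mem_filter, mem_range] at hξ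
    exact ⟨hξ.1, h1⟩
  by_contra hcon
  push Not at hcon
  have hFs : ∀ ξ ∈ J, ‖F ((ξ : ℝ) / N)‖ ≤ δ ^ C * (H : ℝ) ^ 2 := by
    intro ξ hξ
    exact (hcon _ (w2_Mj hδ0 hδ1 (by omega) (hJMj ξ hξ))).le
  -- splitting
  have hsplit : ∑ ξ ∈ range N, (‖W ((ξ : ℝ) / N)‖ ^ 2 * ‖F ((ξ : ℝ) / N)‖ ^ 2) ≤
      (δ ^ E * Z) ^ 2 * (N : ℝ) ^ 2 + J.card * ((Z : ℝ) ^ 2 * (δ ^ C * (H : ℝ) ^ 2) ^ 2) := by
    rw [← sum_filter_add_sum_filter_not (range N)
      (fun ξ : ℕ => δ ^ E * Z ≤ ‖W ((ξ : ℝ) / N)‖), add_comm]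
    apply add_le_add
    · calc ∑ ξ ∈ (range N).filter (fun ξ : ℕ => ¬ δ ^ E * Z ≤ ‖W ((ξ : ℝ) / N)‖),
            (‖W ((ξ : ℝ) / N)‖ ^ 2 * ‖F ((ξ : ℝ) / N)‖ ^ 2)
          ≤ ∑ ξ ∈ (range N).filter (fun ξ : ℕ => ¬ δ ^ E * Z ≤ ‖W ((ξ : ℝ) / N)‖),
            ((δ ^ E * Z) ^ 2 * ‖F ((ξ : ℝ) / N)‖ ^ 2) := by
            refine sum_le_sum fun ξ hξ => ?_
            rw [mem_filter] at hξ
            apply mul_le_mul_of_nonneg_right _ (by positivity)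
            exact pow_le_pow_left₀ (norm_nonneg _) (not_le.1 hξ.2).le 2
        _ ≤ ∑ ξ ∈ range N, ((δ ^ E * Z) ^ 2 * ‖F ((ξ : ℝ) / N)‖ ^ 2) :=
            sum_le_sum_of_subset_of_nonneg (filter_subset _ _) fun _ _ _ => by positivity
        _ ≤ _ := by
            rw [← mul_sum]
            exact mul_le_mul_of_nonneg_left hPf' (by positivity)
    · rw [← nsmul_eq_mul, ← sum_const]
      refine sum_le_sum fun ξ hξ => ?_
      apply mul_le_mul (pow_le_pow_left₀ (norm_nonneg _) (hWZ _) 2)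
        (pow_le_pow_left₀ (norm_nonneg _) (hFs ξ hξ) 2) (by positivity) (by positivity)
  rw [hPg'] at hsplit
  have hmain := hCS.trans hsplit
  -- the contradiction
  have hδpow : ∀ k : ℕ, (2 : ℝ) ^ k * δ ^ k ≤ 1 := by
    intro k
    rw [← mul_pow]
    exact pow_le_one₀ (by positivity) (by linarith)
  have hbb : (b0 : ℝ) * δ ^ b0 ≤ 1 / 2 := by
    have h1 : 2 * b0 ≤ 2 ^ b0 := by
      have h2 : ∀ k : ℕ, 2 * (k + 1) ≤ 2 ^ (k + 1) := by
        intro k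
        have := Nat.lt_two_pow_self (n := k)
        rw [pow_succ]
        omega
      have h3 := h2 (b0 - 1)
      have h4 : b0 - 1 + 1 = b0 := by omega
      rwa [h4] at h3
    have h2 : (2 : ℝ) * b0 ≤ 2 ^ b0 := by exact_mod_cast h1
    have h3 := hδpow b0
    have h4 : (2 : ℝ) * b0 * δ ^ b0 ≤ 2 ^ b0 * δ ^ b0 :=
      mul_le_mul_of_nonneg_right h2 (by positivity)
    linarith
  have hT1 : (δ ^ E * Z) ^ 2 * (N : ℝ) ^ 2 ≤ (1 / 4) * (δ ^ C0 * (H : ℝ) ^ 2 * Z) ^ 2 := by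
    have h1 : δ ^ E * Z * N ≤ (1 / 2) * (δ ^ C0 * (H : ℝ) ^ 2 * Z) := by
      calc δ ^ E * Z * N ≤ δ ^ E * Z * (b0 * (H : ℝ) ^ 2) :=
            mul_le_mul_of_nonneg_left hNle (by positivity)
        _ = (b0 * δ ^ b0) * (δ ^ C0 * (H : ℝ) ^ 2 * Z) := by
            rw [hE, pow_add]
            ring
        _ ≤ _ := mul_le_mul_of_nonneg_right hbb (by positivity)
    have h2 := pow_le_pow_left₀ (by positivity) h1 2
    calc (δ ^ E * Z) ^ 2 * (N : ℝ) ^ 2 = (δ ^ E * Z * N) ^ 2 := by ring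
      _ ≤ _ := h2
      _ = _ := by ring
  have hT2 : (J.card : ℝ) * δ ^ (2 * C) ≤ (1 / 4) * δ ^ (2 * C0) := by
    have h1 : 2 * (D ^ C2 / (H : ℝ) ^ 2) * N + 1 ≤ 3 * b0 * D ^ C2 := by
      have h2 : 2 * (D ^ C2 / (H : ℝ) ^ 2) * N ≤ 2 * (D ^ C2 / (H : ℝ) ^ 2) * (b0 * (H : ℝ) ^ 2) :=
        mul_le_mul_of_nonneg_left hNle (by positivity)
      have h3 : 2 * (D ^ C2 / (H : ℝ) ^ 2) * (b0 * (H : ℝ) ^ 2) = 2 * b0 * D ^ C2 := by
        field_simp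
      have h4 : (1 : ℝ) ≤ b0 := by
        rw [hb0]
        push_cast
        have : (0 : ℝ) ≤ K := Nat.cast_nonneg _
        linarith
      nlinarith
    have h2 : (J.card : ℝ) ≤ 6 * b0 * D ^ (3 * C2) := by
      refine hJcard.trans ?_
      calc D ^ C2 * (D ^ C2 + 1) * (2 * (D ^ C2 / (H : ℝ) ^ 2) * N + 1)
          ≤ D ^ C2 * (D ^ C2 + D ^ C2) * (3 * b0 * D ^ C2) := by
            apply mul_le_mul _ h1 (by positivity) (by positivity)
            exact mul_le_mul_of_nonneg_left (by linarith) (by positivity)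
        _ = 6 * b0 * D ^ (3 * C2) := by
            rw [pow_mul' D 3 C2]
            ring
    have h3 : δ ^ (2 * C) = δ ^ (3 * C2) * δ ^ b0 * δ ^ 8 * δ ^ (2 * C0) *
        δ ^ (3 * C2 + 3 * b0 + 8) := by
      rw [← pow_add, ← pow_add, ← pow_add, ← pow_add]
      congr 1
      omega
    have h4 : D ^ (3 * C2) * δ ^ (3 * C2) = 1 := by
      rw [← mul_pow, hDδ, one_pow]
    have h5 : δ ^ 8 ≤ 1 / 256 := by
      have := hδpow 8
      norm_num at this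
      linarith
    have h6 : δ ^ (3 * C2 + 3 * b0 + 8) ≤ 1 := pow_le_one₀ hδ0.le (by linarith)
    calc (J.card : ℝ) * δ ^ (2 * C) ≤ 6 * b0 * D ^ (3 * C2) * δ ^ (2 * C) :=
          mul_le_mul_of_nonneg_right h2 (by positivity)
      _ = 6 * (b0 * δ ^ b0) * (D ^ (3 * C2) * δ ^ (3 * C2)) * δ ^ 8 * δ ^ (2 * C0) *
          δ ^ (3 * C2 + 3 * b0 + 8) := by
          rw [h3]
          ring
      _ = 6 * (b0 * δ ^ b0) * δ ^ 8 * δ ^ (2 * C0) * δ ^ (3 * C2 + 3 * b0 + 8) := by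
          rw [h4, mul_one]
      _ ≤ 6 * (1 / 2) * (1 / 256) * δ ^ (2 * C0) * 1 := by
          apply mul_le_mul _ h6 (by positivity) (by positivity)
          apply mul_le_mul_of_nonneg_right _ (by positivity)
          exact mul_le_mul (by linarith) h5 (by positivity) (by norm_num)
      _ ≤ _ := by
          have : 0 ≤ δ ^ (2 * C0) := by positivity
          linarith
  have hT3 : (J.card : ℝ) * ((Z : ℝ) ^ 2 * (δ ^ C * (H : ℝ) ^ 2) ^ 2) ≤
      (1 / 4) * (δ ^ C0 * (H : ℝ) ^ 2 * Z) ^ 2 := by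
    calc (J.card : ℝ) * ((Z : ℝ) ^ 2 * (δ ^ C * (H : ℝ) ^ 2) ^ 2)
        = ((J.card : ℝ) * δ ^ (2 * C)) * ((Z : ℝ) ^ 2 * ((H : ℝ) ^ 2) ^ 2) := by
          rw [mul_comm 2 C, pow_mul]
          ring
      _ ≤ ((1 / 4) * δ ^ (2 * C0)) * ((Z : ℝ) ^ 2 * ((H : ℝ) ^ 2) ^ 2) :=
          mul_le_mul_of_nonneg_right hT2 (by positivity)
      _ = _ := by
          rw [mul_comm 2 C0, pow_mul]
          ring
  have hpos : 0 < (δ ^ C0 * (H : ℝ) ^ 2 * Z) ^ 2 := by positivity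
  linarith

end Pool.Agent.NRP
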