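import Pool.Agent.NRP.StJ
import Pool.Agent.NRP.W2

set_option autoImplicit false

/-!
# NRP, module Fmx: maximum over the frequency
-/

namespace Pool.Agent.NRP

open Finset
open Pool.Agent.GBQ (ee nd ee_norm ee_add ee_neg ee_int ee_zero)
open scoped ComplexConjugate

private theorem Fmx_abs {M q L : ℕ} {n y : ℤ} (hn : ((M + q * L : ℕ) : ℤ) < |n|)
    (hy : y ∈ Icc (1 : ℤ) L) : (M : ℤ) < |n + q * y| := by
  rw [mem_Icc] at hy
  have h1 : |((q : ℤ) * y)| ≤ (q : ℤ) * L := by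
    rw [abs_of_nonneg (mul_nonneg (by omega) (by omega))]
    exact mul_le_mul_of_nonneg_left hy.2 (by omega)
  have h2 : |n| ≤ |n + q * y| + |(q : ℤ) * y| := by
    have := abs_sub (n + (q : ℤ) * y) ((q : ℤ) * y)
    rwa [add_sub_cancel_right] at this
  push_cast at hn
  linarith

/-- the Fourier transform of a sum of translates with coefficients -/
private theorem Fmx_conv {M q L : ℕ} {f : ℤ → ℂ} (hf : Bd M f) (a : ℤ → ℂ) (t : ℝ) :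
    ∑' m : ℤ, (∑ y ∈ Icc (1 : ℤ) L, a y * conj (f (m + q * y))) * ee (t * m) =
      (∑ y ∈ Icc (1 : ℤ) L, a y * ee (-t * (q * y))) * ∑' m : ℤ, conj (f m) * ee (t * m) := by
  have hsup : ∀ y ∈ Icc (1 : ℤ) L, ∀ m : ℤ, ((M + q * L : ℕ) : ℤ) < |m| →
      a y * conj (f (m + q * y)) * ee (t * m) = 0 := by
    intro y hy m hm
    rw [hf.2 _ (Fmx_abs hm hy), map_zero, mul_zero, zero_mul]
  have h1 : ∀ m : ℤ, (∑ y ∈ Icc (1 : ℤ) L, a y * conj (f (m + q * y))) * ee (t * m) =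
      ∑ y ∈ Icc (1 : ℤ) L, a y * conj (f (m + q * y)) * ee (t * m) := fun m => sum_mul _ _ _
  rw [tsum_congr h1, Summable.tsum_finsetSum (fun y hy => w2_summable (hsup y hy)), sum_mul]
  refine sum_congr rfl fun y _ => ?_
  have h2 : ∀ m : ℤ, a y * conj (f (m + q * y)) * ee (t * m) =
      (fun m : ℤ => a y * ee (-t * (q * y)) * (conj (f m) * ee (t * m)))
        ((Equiv.addRight ((q : ℤ) * y)) m) := by
    intro m
    simp only [Equiv.coe_addRight]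
    have h3 : t * (m : ℝ) = -t * (q * y) + t * ((m + (q : ℤ) * y : ℤ) : ℝ) := by
      push_cast
      ring
    conv_lhs => rw [h3, ee_add]
    ring
  rw [tsum_congr h2, Equiv.tsum_eq (Equiv.addRight ((q : ℤ) * y))
    (fun m : ℤ => a y * ee (-t * (q * y)) * (conj (f m) * ee (t * m))), tsum_mul_left]

private theorem Fmx_shift (φ : ℤ → ℝ) (hφ : ∀ m, 0 ≤ φ m) (B : ℕ)
    (hz : ∀ m : ℤ, (B : ℤ) < |m| → φ m = 0) (S : Finset ℤ) (n : ℤ) :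
    ∑ k ∈ S, φ (n + k) ≤ ∑ m ∈ Icc (-(B : ℤ)) B, φ m := by
  have h1 : ∑ k ∈ S, φ (n + k) = ∑ m ∈ S.map (addLeftEmbedding n), φ m := by
    rw [sum_map]
    rfl
  rw [h1, ← sum_filter_add_sum_filter_not _ (fun m => m ∈ Icc (-(B : ℤ)) B)]
  have h2 : ∑ m ∈ (S.map (addLeftEmbedding n)).filter (fun m => ¬ m ∈ Icc (-(B : ℤ)) B), φ m = 0 := by
    refine sum_eq_zero fun m hm => hz m ?_
    have h3 := (mem_filter.1 hm).2
    rw [mem_Icc] at h3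
    by_contra h4
    exact h3 (abs_le.1 (not_lt.1 h4))
  rw [h2, add_zero]
  exact sum_le_sum_of_subset_of_nonneg (fun m hm => (mem_filter.1 hm).2) fun m _ _ => hφ m

theorem thm_Fmx : St_Fmx := by
  intro M q L R f hf _
  obtain ⟨B, hB⟩ : ∃ B, B = M + q * L := ⟨_, rfl⟩
  have hP : (0 : ℝ) < ((2 * B + 1 : ℕ) : ℝ) := by positivity
  -- the sums
  obtain ⟨g, hg⟩ : ∃ g : ℤ → ℤ → ℂ, g = fun n m =>
      ∑ y ∈ Icc (1 : ℤ) L, f (n + q * y) * conj (f (m + q * y)) := ⟨_, rfl⟩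
  obtain ⟨E, hE⟩ : ∃ E : ℝ → ℝ, E = fun t =>
      ∑ n ∈ Icc (-(B : ℤ)) B, ‖∑ y ∈ Icc (1 : ℤ) L, f (n + q * y) * ee (t * (q * y))‖ ^ 2 := ⟨_, rfl⟩
  have hfz : ∀ n : ℤ, (B : ℤ) < |n| → ∀ y ∈ Icc (1 : ℤ) L, f (n + q * y) = 0 := by
    intro n hn y hy
    rw [hB] at hn
    exact hf.2 _ (Fmx_abs hn hy)
  have hout : ∀ n : ℤ, n ∉ Icc (-(B : ℤ)) B → (B : ℤ) < |n| := by
    intro n hn
    by_contra h4
    exact hn (mem_Icc.2 (abs_le.1 (not_lt.1 h4)))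
  have hEt : ∀ t : ℝ, ∑' n : ℤ, ‖∑ y ∈ Icc (1 : ℤ) L, f (n + q * y) * ee (t * (q * y))‖ ^ 2 = E t := by
    intro t
    rw [hE]
    refine tsum_eq_sum fun n hn => ?_
    rw [sum_eq_zero fun y hy => by rw [hfz n (hout n hn) y hy, zero_mul], norm_zero]
    norm_num
  have hgz : ∀ n m : ℤ, (B : ℤ) < |m| → g n m = 0 := by
    intro n m hm
    rw [hg]
    exact sum_eq_zero fun y hy => by rw [hfz m hm y hy, map_zero, mul_zero]
  -- the left hand side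
  have h1 : ∑ k ∈ Icc (-(R : ℤ)) R, ∑' n : ℤ, ‖∑ y ∈ Icc (1 : ℤ) L, dl k f (n + q * y)‖ ^ 2 =
      ∑ n ∈ Icc (-(B : ℤ)) B, ∑ k ∈ Icc (-(R : ℤ)) R, ‖g n (n + k)‖ ^ 2 := by
    rw [sum_comm]
    refine sum_congr rfl fun k _ => ?_
    have h2 : ∀ n : ℤ, ∑ y ∈ Icc (1 : ℤ) L, dl k f (n + q * y) = g n (n + k) := by
      intro n
      rw [hg]
      refine sum_congr rfl fun y _ => ?_
      unfold dl
      rw [show n + (q : ℤ) * y + k = n + k + q * y by ring]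
    rw [tsum_congr fun n => by rw [h2 n]]
    refine tsum_eq_sum fun n hn => ?_
    rw [← h2 n, sum_eq_zero fun y hy => by
      unfold dl
      rw [hfz n (hout n hn) y hy, zero_mul], norm_zero]
    norm_num
  have h3 : ∀ n : ℤ, ∑ k ∈ Icc (-(R : ℤ)) R, ‖g n (n + k)‖ ^ 2 ≤
      ∑ m ∈ Icc (-(B : ℤ)) B, ‖g n m‖ ^ 2 := fun n =>
    Fmx_shift (fun m => ‖g n m‖ ^ 2) (fun m => by positivity) B
      (fun m hm => by rw [hgz n m hm, norm_zero]; norm_num) _ n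
  -- Fourier
  obtain ⟨Q, hQ⟩ : ∃ Q : ℕ → ℝ, Q = fun j : ℕ =>
      ‖∑' m : ℤ, conj (f m) * ee ((j : ℝ) / ((2 * B + 1 : ℕ) : ℝ) * m)‖ ^ 2 := ⟨_, rfl⟩
  have hQ0 : ∀ j, 0 ≤ Q j := fun j => by rw [hQ]; positivity
  have h4 : ∀ n : ℤ, ((2 * B + 1 : ℕ) : ℝ) * ∑ m ∈ Icc (-(B : ℤ)) B, ‖g n m‖ ^ 2 =
      ∑ j ∈ range (2 * B + 1), Q j *
        ‖∑ y ∈ Icc (1 : ℤ) L, f (n + q * y) * ee (-((j : ℝ) / ((2 * B + 1 : ℕ) : ℝ)) * (q * y))‖ ^ 2 := by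
    intro n
    rw [← w2_parseval (hgz n)]
    refine sum_congr rfl fun j _ => ?_
    rw [hg, hQ]
    simp only
    rw [Fmx_conv hf (fun y => f (n + q * y)), norm_mul, mul_pow, mul_comm]
  have h5 : ∑ j ∈ range (2 * B + 1), Q j ≤ ((2 * B + 1 : ℕ) : ℝ) * (2 * M + 1) := by
    have h6 := w2_parseval (B := B) (f := fun m => conj (f m)) (fun m hm => by
      rw [hf.2 m (by rw [hB] at hm; push_cast at hm ⊢; nlinarith [Nat.zero_le (q * L)]), map_zero])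
    rw [hQ]
    simp only
    rw [h6]
    refine mul_le_mul_of_nonneg_left ?_ hP.le
    have h7 : ∑ m ∈ Icc (-(B : ℤ)) B, ‖conj (f m)‖ ^ 2 ≤ ∑ m ∈ Icc (-(M : ℤ)) M, ‖conj (f m)‖ ^ 2 := by
      have h8 := Fmx_shift (fun m => ‖conj (f m)‖ ^ 2) (fun m => by positivity) M
        (fun m hm => by
          show ‖conj (f m)‖ ^ 2 = 0
          rw [hf.2 m hm, map_zero, norm_zero]; norm_num) (Icc (-(B : ℤ)) B) 0
      simpa only [zero_add] using h8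
    refine h7.trans ?_
    calc ∑ m ∈ Icc (-(M : ℤ)) M, ‖conj (f m)‖ ^ 2 ≤ ∑ m ∈ Icc (-(M : ℤ)) M, (1 : ℝ) := by
          refine sum_le_sum fun m _ => ?_
          rw [RCLike.norm_conj]
          exact pow_le_one₀ (norm_nonneg _) (hf.1 m)
      _ = 2 * M + 1 := by
          rw [sum_const, Int.card_Icc, nsmul_eq_mul, mul_one]
          have : ((M : ℤ) + 1 - -(M : ℤ)).toNat = 2 * M + 1 := by omega
          rw [this]
          push_cast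
          ring
  -- the maximum
  obtain ⟨j0, hj0, hmax⟩ := exists_max_image (range (2 * B + 1))
    (fun j : ℕ => E (-((j : ℝ) / ((2 * B + 1 : ℕ) : ℝ)))) ⟨0, by rw [mem_range]; omega⟩
  refine ⟨-((j0 : ℝ) / ((2 * B + 1 : ℕ) : ℝ)), ?_⟩
  rw [hEt, h1]
  have hE0 : 0 ≤ E (-((j0 : ℝ) / ((2 * B + 1 : ℕ) : ℝ))) := by
    rw [hE]
    positivity
  refine le_of_mul_le_mul_left ?_ hP
  calc ((2 * B + 1 : ℕ) : ℝ) * ∑ n ∈ Icc (-(B : ℤ)) B, ∑ k ∈ Icc (-(R : ℤ)) R, ‖g n (n + k)‖ ^ 2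
      ≤ ((2 * B + 1 : ℕ) : ℝ) * ∑ n ∈ Icc (-(B : ℤ)) B, ∑ m ∈ Icc (-(B : ℤ)) B, ‖g n m‖ ^ 2 :=
        mul_le_mul_of_nonneg_left (sum_le_sum fun n _ => h3 n) hP.le
    _ = ∑ j ∈ range (2 * B + 1), Q j * E (-((j : ℝ) / ((2 * B + 1 : ℕ) : ℝ))) := by
        rw [mul_sum, sum_congr rfl fun n _ => h4 n, sum_comm]
        refine sum_congr rfl fun j _ => ?_
        rw [hE, mul_sum]
    _ ≤ ∑ j ∈ range (2 * B + 1), Q j * E (-((j0 : ℝ) / ((2 * B + 1 : ℕ) : ℝ))) :=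
        sum_le_sum fun j hj => mul_le_mul_of_nonneg_left (hmax j hj) (hQ0 j)
    _ = (∑ j ∈ range (2 * B + 1), Q j) * E (-((j0 : ℝ) / ((2 * B + 1 : ℕ) : ℝ))) := by
        rw [sum_mul]
    _ ≤ (((2 * B + 1 : ℕ) : ℝ) * (2 * M + 1)) * E (-((j0 : ℝ) / ((2 * B + 1 : ℕ) : ℝ))) :=
        mul_le_mul_of_nonneg_right h5 hE0
    _ = ((2 * B + 1 : ℕ) : ℝ) * ((2 * M + 1) * E (-((j0 : ℝ) / ((2 * B + 1 : ℕ) : ℝ)))) := by
        ring

end Pool.Agent.NRP
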