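import Mathlib
import Pool.Agent.NRP.StI

set_option autoImplicit false

/-!
# NRP: module `Ic`, exchange of derivative and dual function
-/

namespace Pool.Agent.NRP

open Finset
open Pool.Agent.GBQ (ee nd ee_norm ee_add ee_neg)
open scoped ComplexConjugate

namespace Icx

theorem tsum_Icc {f : ℤ → ℂ} {M : ℕ} (h : ∀ n : ℤ, (M : ℤ) < |n| → f n = 0) :
    ∑' n : ℤ, f n = ∑ n ∈ Icc (-(M : ℤ)) M, f n := by
  refine tsum_eq_sum fun n hn => h n ?_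
  rw [mem_Icc, not_and_or, not_le, not_le] at hn
  rcases hn with hn | hn
  · rw [lt_abs]
    right
    linarith
  · rw [lt_abs]
    left
    exact hn

theorem tsum_shift (f : ℤ → ℂ) (a : ℤ) : ∑' n : ℤ, f (n + a) = ∑' n : ℤ, f n :=
  (Equiv.addRight a).tsum_eq f

theorem norm_Fh {c : ℤ} {f0 f1 : ℤ → ℂ} (h0 : ∀ n, ‖f0 n‖ ≤ 1) (h1 : ∀ n, ‖f1 n‖ ≤ 1) (h x : ℤ) :
    ‖Fh c f0 f1 h x‖ ≤ 1 := by
  unfold Fh
  rw [RCLike.norm_conj, norm_mul]
  exact mul_le_one₀ (h0 _) (norm_nonneg _) (h1 _)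

theorem pp_bd {c h : ℤ} {H : ℕ} (hc : c = 0 ∨ c = 1) (h1 : 1 ≤ h) (h2 : h ≤ H) :
    0 ≤ pp c h ∧ pp c h ≤ 2 * (H : ℤ) ^ 2 := by
  unfold pp
  rcases hc with rfl | rfl
  · constructor <;> nlinarith
  · constructor <;> nlinarith

theorem Fh_supp {K H : ℕ} {c : ℤ} (hc : c = 0 ∨ c = 1) {f0 : ℤ → ℂ} (f1 : ℤ → ℂ)
    (h0 : Bd (K * H ^ 2) f0) {h : ℤ} (h1 : 1 ≤ h) (h2 : h ≤ H) {x : ℤ}
    (hx : (((K + 2) * H ^ 2 : ℕ) : ℤ) < |x|) : Fh c f0 f1 h x = 0 := by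
  have h3 := pp_bd hc h1 h2
  have h4 : ((K * H ^ 2 : ℕ) : ℤ) < |x - pp c h| := by
    have h5 : |x| ≤ |x - pp c h| + |pp c h| := by
      have h6 := abs_add_le (x - pp c h) (pp c h)
      rwa [sub_add_cancel] at h6
    rw [abs_of_nonneg h3.1] at h5
    push_cast at hx ⊢
    nlinarith
  unfold Fh
  rw [h0.2 _ h4, zero_mul, map_zero]

theorem bd_dualF {K H : ℕ} (hH : 1 ≤ H) {c : ℤ} (hc : c = 0 ∨ c = 1) {f0 f1 : ℤ → ℂ}
    (h0 : Bd (K * H ^ 2) f0) (h1 : Bd (K * H ^ 2) f1) :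
    Bd ((K + 2) * H ^ 2) (dualF c H f0 f1) := by
  have hH' : (0 : ℝ) < H := by exact_mod_cast hH
  constructor
  · intro x
    unfold dualF
    have h2 : ‖∑ h ∈ Icc (1 : ℤ) H, Fh c f0 f1 h x‖ ≤ H := by
      refine (norm_sum_le_of_le _ fun h _ => norm_Fh h0.1 h1.1 h x).trans ?_
      rw [sum_const, nsmul_eq_mul, mul_one, Int.card_Icc]
      simp
    rw [norm_mul, norm_div, norm_one, Complex.norm_natCast, one_div, inv_mul_le_iff₀ hH', mul_one]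
    exact h2
  · intro x hx
    unfold dualF
    rw [sum_eq_zero, mul_zero]
    intro h hh
    rw [mem_Icc] at hh
    exact Fh_supp hc f1 h0 hh.1 hh.2 hx

/-- the term of the dual function, conjugated for odd `m` -/
noncomputable def FF (m : ℕ) (c : ℤ) (f0 f1 : ℤ → ℂ) (h : ℤ) : ℤ → ℂ :=
  fun n => if Even m then Fh c f0 f1 h n else conj (Fh c f0 f1 h n)

theorem sum_FF (m H : ℕ) (hH : 1 ≤ H) (c : ℤ) (f0 f1 : ℤ → ℂ) (n : ℤ) :
    ∑ h ∈ Icc (1 : ℤ) H, FF m c f0 f1 h n =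
      H * (if Even m then dualF c H f0 f1 n else conj (dualF c H f0 f1 n)) := by
  have hH' : (H : ℂ) ≠ 0 := by
    have : H ≠ 0 := by omega
    exact_mod_cast this
  unfold FF dualF
  split_ifs
  · rw [← mul_assoc, mul_one_div_cancel hH', one_mul]
  · rw [map_mul, map_div₀, map_one, Complex.conj_natCast, ← mul_assoc, mul_one_div_cancel hH',
      one_mul, map_sum]

/-- the box -/
noncomputable def Om (M H : ℕ) : Finset (ℤ × ℤ) := Icc (-(M : ℤ)) M ×ˢ Icc (1 : ℤ) H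

/-- the functions for the box -/
noncomputable def gg (m : ℕ) (c : ℤ) (f0 f1 : ℤ → ℂ) (A : (Fin m → ℤ) → ℂ)
    (φ : (Fin m → ℤ) → ℝ) (z : ℤ × ℤ) (k : Fin m → ℤ) : ℂ :=
  A k * ee (φ k * z.1) * FF m c f0 f1 z.2 (z.1 + ∑ i, k i)

open Classical in
theorem lhs_id (m M H : ℕ) (hH : 1 ≤ H) (c : ℤ) (f0 f1 : ℤ → ℂ) (K1 B : Finset (Fin m → ℤ))
    (hK : K1 ⊆ B) (φ : (Fin m → ℤ) → ℝ) (cc : (Fin m → ℤ) → ℂ)
    (b : ℤ → Fin m → (Fin m → ℤ) → ℂ)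
    (hS : ∀ (x : ℤ) (k : Fin m → ℤ), dls m k (dualF c H f0 f1) x =
      (if Even m then dualF c H f0 f1 (x + ∑ i, k i) else
        conj (dualF c H f0 f1 (x + ∑ i, k i))) * ∏ i, b x i k)
    (hsupp : ∀ (k : Fin m → ℤ) (x : ℤ), (M : ℤ) < |x| → dls m k (dualF c H f0 f1) x = 0) :
    ∑ z ∈ Om M H, ∑ k ∈ B, gg m c f0 f1 (fun k => if k ∈ K1 then cc k else 0) φ z k *
        ∏ i, b z.1 i k =
      H * ∑ k ∈ K1, cc k * ∑' x : ℤ, dls m k (dualF c H f0 f1) x * ee (φ k * x) := by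
  have h1 : ∀ x : ℤ, ∀ k : Fin m → ℤ,
      ∑ h ∈ Icc (1 : ℤ) H, gg m c f0 f1 (fun k => if k ∈ K1 then cc k else 0) φ (x, h) k *
        ∏ i, b x i k = (if k ∈ K1 then cc k else 0) *
          (H * (dls m k (dualF c H f0 f1) x * ee (φ k * x))) := by
    intro x k
    have h2 := sum_FF m H hH c f0 f1 (x + ∑ i, k i)
    calc ∑ h ∈ Icc (1 : ℤ) H, gg m c f0 f1 (fun k => if k ∈ K1 then cc k else 0) φ (x, h) k *
          ∏ i, b x i k
        = (if k ∈ K1 then cc k else 0) * ee (φ k * x) * (∏ i, b x i k) *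
          ∑ h ∈ Icc (1 : ℤ) H, FF m c f0 f1 h (x + ∑ i, k i) := by
          rw [mul_sum]
          refine sum_congr rfl fun h _ => ?_
          unfold gg
          ring
      _ = _ := by
          rw [h2, hS]
          ring
  have h3 : ∑ z ∈ Om M H, ∑ k ∈ B, gg m c f0 f1 (fun k => if k ∈ K1 then cc k else 0) φ z k *
      ∏ i, b z.1 i k = ∑ k ∈ B, ∑ x ∈ Icc (-(M : ℤ)) M, (if k ∈ K1 then cc k else 0) *
          (H * (dls m k (dualF c H f0 f1) x * ee (φ k * x))) := by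
    unfold Om
    rw [sum_comm]
    refine sum_congr rfl fun k _ => ?_
    rw [sum_product]
    exact sum_congr rfl fun x _ => h1 x k
  rw [h3, mul_sum, ← sum_subset hK]
  · refine sum_congr rfl fun k hk => ?_
    rw [tsum_Icc (M := M) (fun n hn => by rw [hsupp k n hn, zero_mul])]
    simp only [if_pos hk]
    rw [← mul_sum, ← mul_sum]
    ring
  · intro k _ hk
    refine sum_eq_zero fun x _ => ?_
    rw [if_neg hk, zero_mul]

theorem conj_tsum' (f : ℤ → ℂ) : ∑' n : ℤ, conj (f n) = conj (∑' n : ℤ, f n) :=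
  (Complex.conj_tsum f).symm

/-- the derivative of a term of the dual function -/
theorem dls_FF (hD : St_Dls) (m : ℕ) (c : ℤ) (f0 f1 : ℤ → ℂ) (h : ℤ) (κ : Fin m → ℤ) (x : ℤ) :
    dls m κ (FF m c f0 f1 h) x = if Even m then
      conj (dls m κ f0 (x - pp c h) * dls m κ f1 (x - pp c h + h)) else
      dls m κ f0 (x - pp c h) * dls m κ f1 (x - pp c h + h) := by
  obtain ⟨d1, d2, d3, -⟩ := hD
  have h1 : dls m κ (fun x => f0 (x + -pp c h) * f1 (x + (-pp c h + h))) x =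
      dls m κ f0 (x - pp c h) * dls m κ f1 (x - pp c h + h) := by
    rw [d1, d3, d3, sub_eq_add_neg, add_assoc]
  have h2 : FF m c f0 f1 h = if Even m then
      (fun x => conj (f0 (x + -pp c h) * f1 (x + (-pp c h + h)))) else
      fun x => f0 (x + -pp c h) * f1 (x + (-pp c h + h)) := by
    funext n
    unfold FF Fh
    split_ifs
    · rw [sub_eq_add_neg, add_assoc]
    · rw [Complex.conj_conj, sub_eq_add_neg, add_assoc]
  rw [h2]
  split_ifs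
  · rw [d2, h1]
  · exact h1

/-- the sum for one `h` -/
theorem one_h (hD : St_Dls) (m : ℕ) (c : ℤ) (f0 f1 : ℤ → ℂ) (h : ℤ) (κ : Fin m → ℤ) (D : ℝ) :
    ∑' x : ℤ, ee (D * x) * dls m κ (FF m c f0 f1 h) x = if Even m then
      conj (∑' n : ℤ, dls m κ f0 n * dls m κ f1 (n + h) *
        ee (-((-1) ^ m * D) * ((n + pp c h : ℤ) : ℝ))) else
      ∑' n : ℤ, dls m κ f0 n * dls m κ f1 (n + h) *
        ee (-((-1) ^ m * D) * ((n + pp c h : ℤ) : ℝ)) := by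
  rw [← tsum_shift _ (pp c h)]
  split_ifs with hm
  · rw [← conj_tsum']
    refine tsum_congr fun n => ?_
    rw [dls_FF hD, if_pos hm, hm.neg_one_pow, one_mul, map_mul (starRingEnd ℂ) (_ * _) (ee _),
      add_sub_cancel_right, neg_mul, ee_neg, Complex.conj_conj, mul_comm]
  · refine tsum_congr fun n => ?_
    rw [dls_FF hD, if_neg hm, (Nat.not_even_iff_odd.1 hm).neg_one_pow, add_sub_cancel_right,
      neg_one_mul, neg_neg, mul_comm]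

theorem ee_sub_mul (D : ℝ) (x s : ℤ) :
    ee (D * ((x : ℤ) : ℝ)) = ee (-(D * s)) * ee (D * ((x + s : ℤ) : ℝ)) := by
  rw [← ee_add]
  congr 1
  push_cast
  ring

/-- the sum over the box of the products over a cube -/
theorem cb_le (hA : St_Alg) (hD : St_Dls) (m K H : ℕ) (c : ℤ) (hc : c = 0 ∨ c = 1)
    (f0 f1 : ℤ → ℂ) (h0 : Bd (K * H ^ 2) f0) (h1 : Bd (K * H ^ 2) f1) (A : (Fin m → ℤ) → ℂ)
    (hA1 : ∀ k, ‖A k‖ ≤ 1) (φ : (Fin m → ℤ) → ℝ) (k0 k1 : Fin m → ℤ)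
    (hk : ∀ i, |k0 i| ≤ ((2 * (K + 2) * H ^ 2 : ℕ) : ℤ)) :
    ‖∑ z ∈ Om ((2 * m + 1) * ((K + 2) * H ^ 2)) H, cb m (gg m c f0 f1 A φ z) k0 k1‖ ≤
      ‖TT c H (dls m (k1 - k0) f0) (dls m (k1 - k0) f1)
        (fun n => ee (-((-1) ^ m * dph m φ k0 k1) * n))‖ := by
  obtain ⟨a1, a2, a3, a4, a5, a6⟩ := hA
  have hD' := hD
  obtain ⟨d1, d2, d3, d4, -⟩ := hD
  set D := dph m φ k0 k1 with hDd
  set s : ℤ := ∑ i, k0 i with hs
  set M := (K + 2) * H ^ 2 with hM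
  have hsb : |s| ≤ 2 * m * (M : ℤ) := by
    rw [hs]
    refine (abs_sum_le_sum_abs _ _).trans ((sum_le_sum fun i _ => hk i).trans ?_)
    rw [sum_const, card_univ, Fintype.card_fin, nsmul_eq_mul, hM]
    push_cast
    nlinarith
  have e1 : ∀ z : ℤ × ℤ, cb m (gg m c f0 f1 A φ z) k0 k1 = cb m A k0 k1 *
      (ee (D * z.1) * dls m (k1 - k0) (FF m c f0 f1 z.2) (z.1 + s)) := by
    intro z
    have e2 : gg m c f0 f1 A φ z = fun k => A k * (ee (φ k * z.1) *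
        FF m c f0 f1 z.2 (z.1 + ∑ i, k i)) := by
      funext k
      unfold gg
      ring
    rw [e2, a1, a1, a3, a4]
  have e3 : ∀ h ∈ Icc (1 : ℤ) H, ∑ x ∈ Icc (-(((2 * m + 1) * M : ℕ) : ℤ)) ((2 * m + 1) * M : ℕ),
      ee (D * x) * dls m (k1 - k0) (FF m c f0 f1 h) (x + s) =
      ee (-(D * s)) * ∑' x : ℤ, ee (D * x) * dls m (k1 - k0) (FF m c f0 f1 h) x := by
    intro h hh
    rw [mem_Icc] at hh
    have hF : Bd M (FF m c f0 f1 h) := by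
      constructor
      · intro n
        unfold FF
        split_ifs
        · exact norm_Fh h0.1 h1.1 h n
        · rw [RCLike.norm_conj]
          exact norm_Fh h0.1 h1.1 h n
      · intro n hn
        unfold FF
        rw [Fh_supp hc f1 h0 hh.1 hh.2 hn, map_zero, ite_self]
    have hF2 := (d4 m M (k1 - k0) _ hF).1.2
    rw [← tsum_Icc (f := fun x : ℤ => ee (D * x) * dls m (k1 - k0) (FF m c f0 f1 h) (x + s)),
      ← tsum_shift (fun x : ℤ => ee (D * x) * dls m (k1 - k0) (FF m c f0 f1 h) x) s,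
      ← tsum_mul_left]
    · refine tsum_congr fun x => ?_
      rw [ee_sub_mul D x s, mul_assoc]
    · intro n hn
      rw [hF2, mul_zero]
      have h5 : |n| ≤ |n + s| + |s| := by
        have h6 := abs_sub (n + s) s
        rwa [add_sub_cancel_right] at h6
      push_cast at hn
      nlinarith
  have e4 : ∑ z ∈ Om ((2 * m + 1) * M) H, cb m (gg m c f0 f1 A φ z) k0 k1 =
      cb m A k0 k1 * (ee (-(D * s)) * ∑ h ∈ Icc (1 : ℤ) H,
        ∑' x : ℤ, ee (D * x) * dls m (k1 - k0) (FF m c f0 f1 h) x) := by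
    unfold Om
    rw [sum_product_right, mul_sum, mul_sum]
    refine sum_congr rfl fun h hh => ?_
    rw [← e3 h hh, mul_sum]
    exact sum_congr rfl fun x _ => e1 (x, h)
  have e5 : ‖∑ h ∈ Icc (1 : ℤ) H, ∑' x : ℤ, ee (D * x) *
      dls m (k1 - k0) (FF m c f0 f1 h) x‖ =
      ‖TT c H (dls m (k1 - k0) f0) (dls m (k1 - k0) f1)
        (fun n => ee (-((-1) ^ m * D) * n))‖ := by
    unfold TT
    simp_rw [one_h hD' m c f0 f1 _ (k1 - k0) D]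
    split_ifs
    · rw [← map_sum, RCLike.norm_conj]
    · rfl
  rw [e4, norm_mul, norm_mul, ee_norm, one_mul, e5]
  exact mul_le_of_le_one_left (norm_nonneg _) (a5 m A k0 k1 hA1)

end Icx

open Icx

open Classical in
theorem thm_Ic (hB : St_Bcs) (hA : St_Alg) (hD : St_Dls) (hS : St_Split) : St_Ic := by
  intro K m hm
  -- the constants
  obtain ⟨C1, hC1⟩ : ∃ C1 : ℕ, C1 = 2 * ((2 * m + 1) * (K + 2)) + 1 := ⟨_, rfl⟩
  obtain ⟨C2, hC2⟩ : ∃ C2 : ℕ, C2 = 4 * (K + 2) + 1 := ⟨_, rfl⟩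
  obtain ⟨Q, hQ⟩ : ∃ Q : ℕ, Q = C1 ^ (2 ^ m - 1) * (C2 ^ m) ^ (2 ^ m - 2) := ⟨_, rfl⟩
  refine ⟨2 ^ (m + 1) + Q, ?_⟩
  intro H δ hR c hc f0 f1 h0 h1 K1 φ hK1 hcard hlow
  obtain ⟨hδ0, hδ1, -, hδH⟩ := hR
  have hH : 1 ≤ H := by
    rcases Nat.eq_zero_or_pos H with h | h
    · subst h
      norm_num at hδH
    · exact h
  have hHr : (1 : ℝ) ≤ H := by exact_mod_cast hH
  set M := (K + 2) * H ^ 2 with hM
  set Y := ∑ k0 ∈ K1, ∑ k1 ∈ K1, ‖TT c H (dls m (k1 - k0) f0) (dls m (k1 - k0) f1)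
      (fun n => ee (-((-1) ^ m * dph m φ k0 k1) * n))‖ with hY
  have hF := bd_dualF hH hc h0 h1
  obtain ⟨b, hb1, hb2, hb3⟩ := hS m (dualF c H f0 f1) hF.1
  -- the phases
  choose cc hcc1 hcc2 using fun k : Fin m → ℤ => RCLike.exists_norm_eq_mul_self
    (∑' x : ℤ, dls m k (dualF c H f0 f1) x * ee (φ k * x))
  set A : (Fin m → ℤ) → ℂ := fun k => if k ∈ K1 then cc k else 0 with hAd
  have hA1 : ∀ k, ‖A k‖ ≤ 1 := by
    intro k
    rw [hAd]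
    dsimp only
    split_ifs
    · exact (hcc1 k).le
    · rw [norm_zero]
      exact zero_le_one
  have hbox := hB (ℤ × ℤ) (Om ((2 * m + 1) * M) H) m (2 * (K + 2) * H ^ 2) hm
    (gg m c f0 f1 A φ) (fun z i k => b z.1 i k) (fun z i k => hb1 z.1 i k) (fun z => hb2 z.1)
  -- the left side
  have hsupp : ∀ (k : Fin m → ℤ) (x : ℤ), (((2 * m + 1) * M : ℕ) : ℤ) < |x| →
      dls m k (dualF c H f0 f1) x = 0 := by
    intro k x hx
    refine (hD.2.2.2.1 m M k _ hF).1.2 x (lt_of_le_of_lt ?_ hx)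
    push_cast
    have : (0 : ℤ) ≤ M := Int.natCast_nonneg _
    have h2 : (0 : ℤ) ≤ m := Int.natCast_nonneg _
    nlinarith
  have hlhs := lhs_id m ((2 * m + 1) * M) H hH c f0 f1 K1 (bx m (2 * (K + 2) * H ^ 2)) hK1 φ cc b
    hb3 hsupp
  have hl2 : (δ ^ 2 * (H : ℝ) ^ (2 * m + 3)) ≤ ‖∑ z ∈ Om ((2 * m + 1) * M) H,
      ∑ k ∈ bx m (2 * (K + 2) * H ^ 2), gg m c f0 f1 A φ z k * ∏ i, b z.1 i k‖ := by
    rw [hAd, hlhs, norm_mul, Complex.norm_natCast]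
    have h2 : ∑ k ∈ K1, cc k * ∑' x : ℤ, dls m k (dualF c H f0 f1) x * ee (φ k * x) =
        ((∑ k ∈ K1, ‖∑' x : ℤ, dls m k (dualF c H f0 f1) x * ee (φ k * x)‖ : ℝ) : ℂ) := by
      push_cast
      exact sum_congr rfl fun k _ => (hcc2 k).symm
    rw [h2, Complex.norm_real, Real.norm_of_nonneg (sum_nonneg fun _ _ => norm_nonneg _)]
    have h3 : (K1.card : ℝ) * (δ * (H : ℝ) ^ 2) ≤
        ∑ k ∈ K1, ‖∑' x : ℤ, dls m k (dualF c H f0 f1) x * ee (φ k * x)‖ := by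
      rw [← nsmul_eq_mul]
      exact card_nsmul_le_sum _ _ _ hlow
    have h4 : δ * (H : ℝ) ^ (2 * m) * (δ * (H : ℝ) ^ 2) ≤ (K1.card : ℝ) * (δ * (H : ℝ) ^ 2) :=
      mul_le_mul_of_nonneg_right hcard (by positivity)
    calc δ ^ 2 * (H : ℝ) ^ (2 * m + 3) = H * (δ * (H : ℝ) ^ (2 * m) * (δ * (H : ℝ) ^ 2)) := by ring
      _ ≤ _ := mul_le_mul_of_nonneg_left (h4.trans h3) (by positivity)
  -- the right side
  have hr : ‖∑ k0 ∈ bx m (2 * (K + 2) * H ^ 2), ∑ k1 ∈ bx m (2 * (K + 2) * H ^ 2),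
      ∑ z ∈ Om ((2 * m + 1) * M) H, cb m (gg m c f0 f1 A φ z) k0 k1‖ ≤ Y := by
    have hz : ∀ k0 k1 : Fin m → ℤ, (k0 ∉ K1 ∨ k1 ∉ K1) → ∀ z : ℤ × ℤ,
        cb m (gg m c f0 f1 A φ z) k0 k1 = 0 := by
      intro k0 k1 hk z
      refine hA.2.2.2.2.2 m _ k0 k1 (hk.imp (fun h => ?_) fun h => ?_)
      · unfold gg
        rw [hAd]
        dsimp only
        rw [if_neg h, zero_mul, zero_mul]
      · unfold gg
        rw [hAd]
        dsimp only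
        rw [if_neg h, zero_mul, zero_mul]
    rw [← sum_subset hK1 (fun k0 _ hk0 => sum_eq_zero fun k1 _ => sum_eq_zero fun z _ =>
      hz k0 k1 (Or.inl hk0) z)]
    refine norm_sum_le_of_le _ fun k0 hk0 => ?_
    rw [← sum_subset hK1 (fun k1 _ hk1 => sum_eq_zero fun z _ => hz k0 k1 (Or.inr hk1) z)]
    refine norm_sum_le_of_le _ fun k1 _ => ?_
    refine cb_le hA hD m K H c hc f0 f1 h0 h1 A hA1 φ k0 k1 fun i => ?_
    have h2 := hK1 hk0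
    unfold bx at h2
    rw [Fintype.mem_piFinset] at h2
    have h3 := h2 i
    rw [mem_Icc] at h3
    exact abs_le.2 h3
  -- the cardinalities
  have hOm : ((Om ((2 * m + 1) * M) H).card : ℝ) ≤ C1 * (H : ℝ) ^ 3 := by
    have h2 : (Om ((2 * m + 1) * M) H).card = (2 * ((2 * m + 1) * M) + 1) * H := by
      unfold Om
      rw [card_product, Int.card_Icc, Int.card_Icc]
      congr 1
      · omega
      · omega
    have h3 : (Om ((2 * m + 1) * M) H).card ≤ C1 * H ^ 3 := by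
      rw [h2, hC1, hM]
      have h4 : 1 ≤ H ^ 2 := Nat.one_le_pow _ _ hH
      calc (2 * ((2 * m + 1) * ((K + 2) * H ^ 2)) + 1) * H
          ≤ (2 * ((2 * m + 1) * ((K + 2) * H ^ 2)) + H ^ 2) * H := by gcongr
        _ = (2 * ((2 * m + 1) * (K + 2)) + 1) * H ^ 3 := by ring
    exact_mod_cast h3
  have hRm : (((2 * (2 * (K + 2) * H ^ 2) + 1 : ℕ) : ℝ) ^ m) ≤ (C2 : ℝ) ^ m * (H : ℝ) ^ (2 * m) := by
    have h3 : 2 * (2 * (K + 2) * H ^ 2) + 1 ≤ C2 * H ^ 2 := by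
      rw [hC2]
      have h4 : 1 ≤ H ^ 2 := Nat.one_le_pow _ _ hH
      calc 2 * (2 * (K + 2) * H ^ 2) + 1 ≤ 2 * (2 * (K + 2) * H ^ 2) + H ^ 2 := by gcongr
        _ = (4 * (K + 2) + 1) * H ^ 2 := by ring
    rw [pow_mul, ← mul_pow]
    refine pow_le_pow_left₀ (by positivity) ?_ m
    exact_mod_cast h3
  -- together
  have hY0 : 0 ≤ Y := sum_nonneg fun _ _ => sum_nonneg fun _ _ => norm_nonneg _
  obtain ⟨N, hN⟩ : ∃ N : ℕ, 2 ^ m = N + 2 := by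
    have h2 : 2 ^ 1 ≤ 2 ^ m := Nat.pow_le_pow_right (by norm_num) hm
    exact ⟨2 ^ m - 2, by omega⟩
  have hN1 : 2 ^ m - 1 = N + 1 := by omega
  have hN2 : 2 ^ m - 2 = N := by omega
  have hmain : (δ ^ 2 * (H : ℝ) ^ (2 * m + 3)) ^ (N + 2) ≤
      (C1 * (H : ℝ) ^ 3) ^ (N + 1) * ((C2 : ℝ) ^ m * (H : ℝ) ^ (2 * m)) ^ N * Y := by
    rw [hN1, hN2, hN] at hbox
    have h2 := pow_le_pow_left₀ (by positivity) hl2 (N + 2)
    refine h2.trans (hbox.trans ?_)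
    have p1 : (0 : ℝ) ≤ (Om ((2 * m + 1) * M) H).card := Nat.cast_nonneg _
    have p2 : (0 : ℝ) ≤ ((2 * (2 * (K + 2) * H ^ 2) + 1 : ℕ) : ℝ) ^ m :=
      pow_nonneg (Nat.cast_nonneg _) _
    have p3 : (0 : ℝ) ≤ C1 * (H : ℝ) ^ 3 := mul_nonneg (Nat.cast_nonneg _) (by positivity)
    have p4 : (0 : ℝ) ≤ (C2 : ℝ) ^ m * (H : ℝ) ^ (2 * m) :=
      mul_nonneg (pow_nonneg (Nat.cast_nonneg _) _) (by positivity)
    exact mul_le_mul (mul_le_mul (pow_le_pow_left₀ p1 hOm _) (pow_le_pow_left₀ p2 hRm _)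
      (pow_nonneg p2 _) (pow_nonneg p3 _)) hr (norm_nonneg _)
      (mul_nonneg (pow_nonneg p3 _) (pow_nonneg p4 _))
  have hH0 : (0 : ℝ) < (H : ℝ) ^ (3 * (N + 1) + 2 * m * N) := by positivity
  have hfin : δ ^ 2 ^ (m + 1) * (H : ℝ) ^ (4 * m + 3) ≤ Q * Y := by
    have h2 : (δ ^ 2 * (H : ℝ) ^ (2 * m + 3)) ^ (N + 2) =
        (H : ℝ) ^ (3 * (N + 1) + 2 * m * N) * (δ ^ 2 ^ (m + 1) * (H : ℝ) ^ (4 * m + 3)) := by
      rw [mul_pow, ← pow_mul, ← pow_mul, pow_succ 2 m, hN, mul_comm 2 (N + 2), mul_left_comm,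
        ← pow_add]
      congr 2
      ring
    have h3 : (C1 * (H : ℝ) ^ 3) ^ (N + 1) * ((C2 : ℝ) ^ m * (H : ℝ) ^ (2 * m)) ^ N * Y =
        (H : ℝ) ^ (3 * (N + 1) + 2 * m * N) * (Q * Y) := by
      rw [hQ, hN1, hN2, pow_add]
      push_cast
      rw [mul_pow, mul_pow, ← pow_mul, ← pow_mul]
      ring
    rw [h2, h3] at hmain
    exact le_of_mul_le_mul_left hmain hH0
  have hQ1 : δ ^ Q * (Q : ℝ) ≤ 1 := by
    have h2 : δ ^ Q ≤ (1 / 2 : ℝ) ^ Q := pow_le_pow_left₀ hδ0.le hδ1 Q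
    have h3 : (Q : ℝ) ≤ 2 ^ Q := by exact_mod_cast (Nat.lt_two_pow_self).le
    calc δ ^ Q * (Q : ℝ) ≤ (1 / 2 : ℝ) ^ Q * 2 ^ Q :=
          mul_le_mul h2 h3 (by positivity) (by positivity)
      _ = 1 := by rw [← mul_pow]; norm_num
  calc δ ^ (2 ^ (m + 1) + Q) * (H : ℝ) ^ (4 * m + 3)
      = δ ^ Q * (δ ^ 2 ^ (m + 1) * (H : ℝ) ^ (4 * m + 3)) := by
        rw [pow_add]
        ring
    _ ≤ δ ^ Q * (Q * Y) := mul_le_mul_of_nonneg_left hfin (by positivity)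
    _ = δ ^ Q * Q * Y := by ring
    _ ≤ 1 * Y := mul_le_mul_of_nonneg_right hQ1 hY0
    _ = Y := one_mul Y

end Pool.Agent.NRP
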