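import Mathlib
import Pool.Agent.NRP.StI

set_option autoImplicit false

/-!
# NRP: the first inverse theorem (`St_Inv1` from `St_Dual`, `St_U9`, `St_Low`, `St_Ap`)
-/

namespace Pool.Agent.NRP

open Finset
open Pool.Agent.GBQ (ee nd)
open scoped ComplexConjugate

namespace Inv1M

theorem bd_mono {M M' : ℕ} {f : ℤ → ℂ} (hf : Bd M f) (h : M ≤ M') : Bd M' f :=
  ⟨hf.1, fun n hn => hf.2 n (lt_of_le_of_lt (by exact_mod_cast h) hn)⟩

theorem one_le_H {C H : ℕ} {δ : ℝ} (h : Rg C H δ) : 1 ≤ H := by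
  rcases Nat.eq_zero_or_pos H with h0 | h0
  · obtain ⟨_, _, _, h4⟩ := h
    rw [h0] at h4
    norm_num at h4
  · exact h0

theorem rg_pow {C C' H a : ℕ} {δ : ℝ} (h : Rg C H δ) (ha : 1 ≤ a) (hC : a * C' ≤ C) :
    Rg C' H (δ ^ a) := by
  have hH := one_le_H h
  obtain ⟨h1, h2, h3, h4⟩ := h
  have hd1 : δ ≤ 1 := by linarith
  have hle : δ ^ a ≤ δ := by
    calc δ ^ a ≤ δ ^ 1 := pow_le_pow_of_le_one h1.le hd1 ha
      _ = δ := pow_one δ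
  have hlog : 0 ≤ 1 + Real.log H := by
    have : 0 ≤ Real.log H := Real.log_nonneg (by exact_mod_cast hH)
    linarith
  refine ⟨pow_pos h1 a, hle.trans h2, ?_, ?_⟩
  · exact (mul_le_mul_of_nonneg_right hle hlog).trans h3
  · refine h4.trans (mul_le_mul_of_nonneg_right ?_ (Nat.cast_nonneg _))
    rw [← pow_mul]
    exact pow_le_pow_of_le_one h1.le hd1 hC

theorem rg_mono {C C' H : ℕ} {δ : ℝ} (h : Rg C H δ) (hC : C' ≤ C) : Rg C' H δ := by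
  have := rg_pow (a := 1) h le_rfl (by simpa using hC)
  simpa using this

end Inv1M

open Inv1M in
theorem thm_Inv1 (hDu : St_Dual) (hU : St_U9) (hL : St_Low) (hA : St_Ap) : St_Inv1 := by
  intro K
  obtain ⟨C9, h9⟩ := hU (K + 2)
  obtain ⟨CL, hLow⟩ := hL K
  set c1 : ℕ := 2 * K + 3 with hc1
  set c2 : ℕ := c1 * C9 + 1 with hc2
  obtain ⟨CA, hAp⟩ := hA K (c2 * CL)
  refine ⟨c1 * C9 + c2 * CL + CA, ?_⟩
  intro H δ hR c hc f0 f1 f2 hf0 hf1 hf2 hT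
  have hH : 1 ≤ H := one_le_H hR
  have hHr : (1 : ℝ) ≤ H := by exact_mod_cast hH
  have hδ0 : 0 < δ := hR.1
  have hδ2 : δ ≤ 1 / 2 := hR.2.1
  have hδ1 : δ ≤ 1 := by linarith
  have hinv : 1 ≤ 1 / δ := by
    rw [le_div_iff₀ hδ0]; linarith
  obtain ⟨⟨hF, hTF⟩, -⟩ := hDu K H c hH hc f0 f1 f2 hf0 hf1 hf2
  -- the dual function
  have hK : δ ^ (2 * K + 1) * (2 * K + 1 : ℝ) ≤ 1 := by
    have e1 : δ ^ (2 * K + 1) ≤ (1 / 2 : ℝ) ^ (2 * K + 1) := pow_le_pow_left₀ hδ0.le hδ2 _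
    have e2 : ((2 * K + 1 : ℕ) : ℝ) ≤ 2 ^ (2 * K + 1) := by
      exact_mod_cast (Nat.lt_two_pow_self (n := 2 * K + 1)).le
    have e3 : (2 * K + 1 : ℝ) ≤ 2 ^ (2 * K + 1) := by
      refine le_trans (le_of_eq ?_) e2
      push_cast; ring
    calc δ ^ (2 * K + 1) * (2 * K + 1 : ℝ) ≤ (1 / 2 : ℝ) ^ (2 * K + 1) * 2 ^ (2 * K + 1) :=
          mul_le_mul e1 e3 (by positivity) (by positivity)
      _ = 1 := by rw [← mul_pow]; norm_num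
  have hTT : δ ^ c1 * (H : ℝ) ^ 3 ≤ ‖TT c H f0 f1 (dualF c H f0 f1)‖ := by
    set T := ‖TT c H f0 f1 (dualF c H f0 f1)‖ with hTdef
    have hT0 : 0 ≤ T := norm_nonneg _
    have hH3 : (0 : ℝ) < (H : ℝ) ^ 3 := by positivity
    have q1 : (δ * (H : ℝ) ^ 3) ^ 2 ≤ (2 * K + 1) * (H : ℝ) ^ 3 * T :=
      (pow_le_pow_left₀ (by positivity) hT 2).trans hTF
    have q2 : δ ^ 2 * (H : ℝ) ^ 3 ≤ (2 * K + 1) * T := by
      have : (H : ℝ) ^ 3 * (δ ^ 2 * (H : ℝ) ^ 3) ≤ (H : ℝ) ^ 3 * ((2 * K + 1) * T) := by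
        calc (H : ℝ) ^ 3 * (δ ^ 2 * (H : ℝ) ^ 3) = (δ * (H : ℝ) ^ 3) ^ 2 := by ring
          _ ≤ _ := q1
          _ = _ := by ring
      exact le_of_mul_le_mul_left this hH3
    calc δ ^ c1 * (H : ℝ) ^ 3 = δ ^ (2 * K + 1) * (δ ^ 2 * (H : ℝ) ^ 3) := by
          rw [hc1, show 2 * K + 3 = (2 * K + 1) + 2 by ring, pow_add]; ring
      _ ≤ δ ^ (2 * K + 1) * ((2 * K + 1) * T) := mul_le_mul_of_nonneg_left q2 (by positivity)
      _ = (δ ^ (2 * K + 1) * (2 * K + 1)) * T := by ring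
      _ ≤ 1 * T := mul_le_mul_of_nonneg_right hK hT0
      _ = T := one_mul T
  have hR1 : Rg C9 H (δ ^ c1) := rg_pow hR (by omega) (by omega)
  have hle2 : K * H ^ 2 ≤ (K + 2) * H ^ 2 := Nat.mul_le_mul_right _ (by omega)
  have hU8 := h9 H (δ ^ c1) hR1 c hc f0 f1 (dualF c H f0 f1) (bd_mono hf0 hle2)
    (bd_mono hf1 hle2) hF hTT
  have hR2 : Rg CL H (δ ^ c2) := rg_pow hR (by omega) (by omega)
  have hlow0 : δ ^ c2 * (H : ℝ) ^ 20 ≤ UU 8 (2 * (K + 2) * H ^ 2) (dualF c H f0 f1) := by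
    refine le_trans (mul_le_mul_of_nonneg_right ?_ (by positivity)) hU8
    rw [← pow_mul]
    exact pow_le_pow_of_le_one hδ0.le hδ1 (by omega)
  obtain ⟨α, ⟨q, hq1, hq2, hq3⟩, hα⟩ := hLow H (δ ^ c2) hR2 c hc f0 f1 hf0 hf1 hlow0
  have epow : (1 / δ ^ c2) ^ CL = (1 / δ) ^ (c2 * CL) := by
    rw [one_div_pow, one_div_pow, pow_mul]
  rw [epow] at hq2 hq3
  rw [← pow_mul] at hα
  have hR3 : Rg CA H δ := rg_mono hR (by omega)
  have hfin := hAp H δ hR3 c hc f0 f1 hf0 hf1 α q hq1 hq2 hq3 hα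
  refine ⟨q, hq1, hq2.trans (pow_le_pow_right₀ hinv (by omega)), ?_⟩
  intro L hL1 hL2
  have hp : δ ^ (c1 * C9 + c2 * CL + CA) ≤ δ ^ CA :=
    pow_le_pow_of_le_one hδ0.le hδ1 (by omega)
  have hL3 : (L : ℝ) ≤ δ ^ CA * H :=
    hL2.trans (mul_le_mul_of_nonneg_right hp (Nat.cast_nonneg _))
  refine le_trans ?_ (hfin L hL1 hL3)
  exact mul_le_mul_of_nonneg_right (mul_le_mul_of_nonneg_right hp (by positivity))
    (Nat.cast_nonneg _)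

end Pool.Agent.NRP
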