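import Mathlib
import Pool.Agent.NRP.StI

set_option autoImplicit false

/-!
# NRP: statements of the modules, block J (first inverse theorem with weights)
-/

namespace Pool.Agent.NRP

open Finset
open Pool.Agent.GBQ (ee nd)
open scoped ComplexConjugate

/-- Fourier analysis.  With `a_n(y) = f(n + q y)`, `m = n + k`: for fixed `n`,
`∑_m |∑_y a_n(y) conj f(m + q y)|² = (1/N') ∑_j |f̂(j/N')|² |∑_y a_n(y) ee(-q y j/N')|²` (finite Fourier analysis modulo a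
large number, no wrapping); the sum over `n`, the maximum over `j` of
`∑_n |∑_y f(n + q y) ee(-q y j/N')|²`, and `(1/N') ∑_j |f̂(j/N')|² = ∑ |f|² ≤ 2M + 1`.  Extending the sum over
`k` to all integers is harmless (nonnegative terms). -/
def St_Fmx : Prop := ∀ (M q L R : ℕ) (f : ℤ → ℂ), Bd M f → 1 ≤ q → ∃ β : ℝ,
  ∑ k ∈ Icc (-(R : ℤ)) R, ∑' n : ℤ, ‖∑ y ∈ Icc (1 : ℤ) L, dl k f (n + q * y)‖ ^ 2 ≤
    (2 * M + 1) * ∑' n : ℤ, ‖∑ y ∈ Icc (1 : ℤ) L, f (n + q * y) * ee (β * (q * y))‖ ^ 2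

/-- The first inverse theorem with weights.  Cauchy and Schwarz in `h`:
`|TW|² ≤ H ∑_{|k| ≤ 2KH²} ‖TT c H (dl k f0) (dl k f1) (dl k f2)‖`; each term is `≤ (2K+1) H³`, so for at least
`δ^C H²` of the `k` it is `≥ δ^C H³`; `St_Inv1` for these `k` (`dl k f` is again `Bd`), with `q_k ≤ δ^{-C}`; pigeonhole:
one `q` for `δ^C' H²` of the `k`.  So for every `L ≤ δ^C H`
`∑_k ∑_n ‖∑_y dl k f1 (n + q y)‖ ≥ δ^C'' H⁴ L`; the number of `(k, n)` with a nonzero term is `≤ C H⁴` (`q L ≤ H²`);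
Cauchy and Schwarz, `St_Fmx`. -/
def St_Inv1w : Prop := ∀ K : ℕ, ∃ C : ℕ, ∀ (H : ℕ) (δ : ℝ), Rg C H δ → ∀ c : ℤ, (c = 0 ∨ c = 1) →
  ∀ w f0 f1 f2 : ℤ → ℂ, (∀ h, ‖w h‖ ≤ 1) → Bd (K * H ^ 2) f0 → Bd (K * H ^ 2) f1 →
  Bd (K * H ^ 2) f2 → δ * (H : ℝ) ^ 3 ≤ ‖TW c H w f0 f1 f2‖ →
  ∃ q : ℕ, 1 ≤ q ∧ (q : ℝ) ≤ (1 / δ) ^ C ∧ ∀ L : ℕ, 1 ≤ L → (L : ℝ) ≤ δ ^ C * H → ∃ β : ℝ,
  δ ^ C * (H : ℝ) ^ 2 * (L : ℝ) ^ 2 ≤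
    ∑' n : ℤ, ‖∑ y ∈ Icc (1 : ℤ) L, f1 (n + q * y) * ee (β * (q * y))‖ ^ 2

end Pool.Agent.NRP
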