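import Mathlib
import Pool.Agent.NRP.StI

set_option autoImplicit false

/-!
# NRP: control by the Gowers norm of order nine
-/

namespace Pool.Agent.NRP

open Finset
open Pool.Agent.GBQ (ee nd)
open scoped ComplexConjugate

namespace U9X

lemma bd_dl {A : ℕ} {f : ℤ → ℂ} (hf : Bd A f) (D : ℤ) : Bd A (dl D f) := by
  refine ⟨fun n => ?_, fun n hn => by rw [dl, hf.2 n hn, zero_mul]⟩
  rw [dl, norm_mul, RCLike.norm_conj]
  exact mul_le_one₀ (hf.1 _) (norm_nonneg _) (hf.1 _)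

lemma cardI (H : ℕ) : ((Icc (-(H : ℤ)) H).card : ℝ) = 2 * H + 1 := by
  rw [Int.card_Icc]
  have : ((H : ℤ) + 1 - -(H : ℤ)).toNat = 2 * H + 1 := by omega
  rw [this]
  push_cast
  ring

lemma tsum_le {A : ℕ} {f : ℤ → ℂ} (hf : Bd A f) : ‖∑' n : ℤ, f n‖ ≤ 2 * A + 1 := by
  have h1 : ∑' n : ℤ, f n = ∑ n ∈ Icc (-(A : ℤ)) A, f n := by
    refine tsum_eq_sum fun b hb => hf.2 b ?_
    rw [mem_Icc, not_and_or, not_le, not_le] at hb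
    rcases hb with h | h
    · exact lt_of_lt_of_le (by linarith) (neg_le_abs b)
    · exact lt_of_lt_of_le h (le_abs_self b)
  rw [h1, ← cardI A]
  refine (norm_sum_le _ _).trans ?_
  calc ∑ n ∈ Icc (-(A : ℤ)) A, ‖f n‖ ≤ ∑ _n ∈ Icc (-(A : ℤ)) A, (1 : ℝ) :=
        sum_le_sum fun n _ => hf.1 n
    _ = _ := by rw [sum_const, nsmul_eq_mul, mul_one]

lemma sum_le {s : Finset ℤ} {f : ℤ → ℝ} {B : ℝ} (h : ∀ x ∈ s, f x ≤ B) :
    ∑ x ∈ s, f x ≤ s.card * B :=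
  (Finset.sum_le_card_nsmul s f B h).trans_eq (nsmul_eq_mul _ _)

lemma SS_le {H A : ℕ} {f : ℤ → ℂ} (hf : Bd A f) (h1 h2 h3 : ℤ) :
    ‖SS H f h1 h2 h3‖ ≤ (2 * H + 1) * ((2 * H + 1) * (2 * A + 1)) := by
  unfold SS
  refine (norm_sum_le _ _).trans ?_
  rw [← cardI H]
  refine sum_le fun a _ => ?_
  refine (norm_sum_le _ _).trans ?_
  exact sum_le fun b _ => tsum_le (bd_dl (bd_dl (bd_dl hf _) _) _)

lemma VV_nonneg (H : ℕ) (f : ℤ → ℂ) : 0 ≤ VV H f :=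
  sum_nonneg fun _ _ => sum_nonneg fun _ _ => sum_nonneg fun _ _ => norm_nonneg _

lemma VV_le {K H : ℕ} (hH : 1 ≤ H) {f : ℤ → ℂ} (hf : Bd (K * H ^ 2) f) :
    VV H f ≤ 243 * (2 * K + 1) * (H : ℝ) ^ 7 := by
  have h1 : VV H f ≤ (2 * H + 1) * ((2 * H + 1) * ((2 * H + 1) * ((2 * H + 1) * ((2 * H + 1) *
      (2 * ((K * H ^ 2 : ℕ) : ℝ) + 1))))) := by
    have e := cardI H
    unfold VV
    refine (sum_le (B := (2 * H + 1) * ((2 * H + 1) * ((2 * H + 1) * ((2 * H + 1) *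
      (2 * ((K * H ^ 2 : ℕ) : ℝ) + 1))))) fun a _ => ?_).trans_eq (by rw [e])
    refine (sum_le (B := (2 * H + 1) * ((2 * H + 1) * ((2 * H + 1) *
      (2 * ((K * H ^ 2 : ℕ) : ℝ) + 1)))) fun a _ => ?_).trans_eq (by rw [e])
    refine (sum_le (B := (2 * H + 1) * ((2 * H + 1) *
      (2 * ((K * H ^ 2 : ℕ) : ℝ) + 1))) fun a _ => ?_).trans_eq (by rw [e])
    exact SS_le hf _ _ _
  have hHr : (1 : ℝ) ≤ H := by exact_mod_cast hH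
  have h2 : (2 * (H : ℝ) + 1) ≤ 3 * H := by linarith
  have h3 : (2 * ((K * H ^ 2 : ℕ) : ℝ) + 1) ≤ (2 * K + 1) * (H : ℝ) ^ 2 := by
    push_cast
    nlinarith
  have hp : (0 : ℝ) ≤ 2 * H + 1 := by positivity
  have hq : (0 : ℝ) ≤ 2 * ((K * H ^ 2 : ℕ) : ℝ) + 1 := by positivity
  calc VV H f ≤ (2 * H + 1) ^ 5 * (2 * ((K * H ^ 2 : ℕ) : ℝ) + 1) := h1.trans_eq (by ring)
    _ ≤ (3 * (H : ℝ)) ^ 5 * ((2 * K + 1) * (H : ℝ) ^ 2) :=
        mul_le_mul (pow_le_pow_left₀ hp h2 5) h3 hq (by positivity)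
    _ = _ := by ring

lemma UU_nonneg : ∀ (m R : ℕ) (f : ℤ → ℂ), 0 ≤ UU m R f
  | 0, _, f => by unfold UU; positivity
  | m + 1, R, f => by
    rw [UU]
    exact sum_nonneg fun D _ => UU_nonneg m R _

lemma pow_small {δ : ℝ} (h0 : 0 < δ) (h1 : δ ≤ 1 / 2) (a : ℕ) : δ ^ a * a ≤ 1 := by
  have e1 : δ ^ a ≤ (1 / 2) ^ a := pow_le_pow_left₀ h0.le h1 a
  have e2 : (a : ℝ) ≤ 2 ^ a := by
    have : a < 2 ^ a := Nat.lt_two_pow_self
    exact_mod_cast this.le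
  calc δ ^ a * a ≤ (1 / 2) ^ a * 2 ^ a := mul_le_mul e1 e2 (by positivity) (by positivity)
    _ = 1 := by rw [← mul_pow]; norm_num

end U9X

open U9X in
/-- **U9**. -/
theorem thm_U9 (hV : St_V2) (hC : St_Cub) : St_U9 := by
  intro K
  obtain ⟨C1, hV⟩ := hV K
  obtain ⟨C2, hC⟩ := hC K
  obtain ⟨b, hb⟩ : ∃ b : ℕ, b = 2 * (4 * K + 1) := ⟨_, rfl⟩
  obtain ⟨a, ha⟩ : ∃ a : ℕ, a = 486 * (2 * K + 1) := ⟨_, rfl⟩
  refine ⟨C1 + a + (C1 + b) * C2, ?_⟩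
  rintro H δ ⟨d0, d1, d2, d3⟩ c hc f0 f1 f2 h0 h1 h2 hT
  have dle1 : δ ≤ 1 := by linarith
  have hH : 1 ≤ H := by
    rcases Nat.eq_zero_or_pos H with h | h
    · subst h
      simp at d3
      linarith
    · exact h
  have hHr : (1 : ℝ) ≤ H := by exact_mod_cast hH
  have hmono : ∀ n m : ℕ, n ≤ m → δ ^ m ≤ δ ^ n := fun n m h => pow_le_pow_of_le_one d0.le dle1 h
  have e := hV H δ ⟨d0, d1, d2, d3.trans (mul_le_mul_of_nonneg_right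
    (hmono _ _ (by omega)) (by positivity))⟩ c hc f0 f1 f2 h0 h1 h2 hT
  set I : Finset ℤ := Icc (-((2 * K * H ^ 2 : ℕ) : ℤ)) ((2 * K * H ^ 2 : ℕ) : ℤ) with hI
  set δ1 : ℝ := δ ^ (C1 + b) with hδ1
  have hδ1p : 0 < δ1 := by positivity
  have hδ1le : δ1 ≤ δ := by
    calc δ1 ≤ δ ^ 1 := hmono _ _ (by omega)
      _ = δ := pow_one δ
  set G : Finset ℤ := I.filter (fun k => δ1 * (H : ℝ) ^ 7 ≤ VV H (dl k f2)) with hG
  have hcI : (I.card : ℝ) ≤ (4 * K + 1) * (H : ℝ) ^ 2 := by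
    rw [hI, cardI]
    push_cast
    nlinarith
  have s1 : ∑ k ∈ I.filter (fun k => ¬ δ1 * (H : ℝ) ^ 7 ≤ VV H (dl k f2)), VV H (dl k f2) ≤
      1 / 2 * δ ^ C1 * (H : ℝ) ^ 9 := by
    have q1 : ∑ k ∈ I.filter (fun k => ¬ δ1 * (H : ℝ) ^ 7 ≤ VV H (dl k f2)), VV H (dl k f2) ≤
        ((I.filter (fun k => ¬ δ1 * (H : ℝ) ^ 7 ≤ VV H (dl k f2))).card : ℝ) * (δ1 * (H : ℝ) ^ 7) := by
      refine sum_le fun k hk => ?_
      rw [mem_filter, not_le] at hk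
      exact hk.2.le
    have q2 : ((I.filter (fun k => ¬ δ1 * (H : ℝ) ^ 7 ≤ VV H (dl k f2))).card : ℝ) ≤ I.card := by
      exact_mod_cast card_filter_le _ _
    have q3 := pow_small d0 d1 b
    have q4 : δ ^ b * (4 * K + 1) ≤ 1 / 2 := by
      have : (b : ℝ) = 2 * (4 * K + 1) := by rw [hb]; push_cast; ring
      rw [this] at q3
      linarith
    calc _ ≤ _ := q1
      _ ≤ ((4 * K + 1) * (H : ℝ) ^ 2) * (δ1 * (H : ℝ) ^ 7) :=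
          mul_le_mul_of_nonneg_right (q2.trans hcI) (by positivity)
      _ = (δ ^ b * (4 * K + 1)) * (δ ^ C1 * (H : ℝ) ^ 9) := by rw [hδ1, pow_add]; ring
      _ ≤ 1 / 2 * (δ ^ C1 * (H : ℝ) ^ 9) := mul_le_mul_of_nonneg_right q4 (by positivity)
      _ = _ := by ring
  have s2 : ∑ k ∈ G, VV H (dl k f2) ≤ G.card * (243 * (2 * K + 1) * (H : ℝ) ^ 7) :=
    sum_le fun k _ => VV_le hH (bd_dl h2 k)
  have s3 : ∑ k ∈ I, VV H (dl k f2) = ∑ k ∈ G, VV H (dl k f2) +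
      ∑ k ∈ I.filter (fun k => ¬ δ1 * (H : ℝ) ^ 7 ≤ VV H (dl k f2)), VV H (dl k f2) :=
    (sum_filter_add_sum_filter_not _ _ _).symm
  have s4 : δ ^ C1 * (H : ℝ) ^ 2 ≤ G.card * a := by
    have hH7 : (0 : ℝ) < (H : ℝ) ^ 7 := by positivity
    have haR : (a : ℝ) = 486 * (2 * K + 1) := by rw [ha]; push_cast; ring
    have : (δ ^ C1 * (H : ℝ) ^ 2) * (H : ℝ) ^ 7 ≤ (G.card * a) * (H : ℝ) ^ 7 := by
      rw [haR]
      nlinarith [s1, s2, s3, e]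
    exact le_of_mul_le_mul_right this hH7
  have s5 : δ ^ (C1 + a) * (H : ℝ) ^ 2 ≤ G.card := by
    have q := pow_small d0 d1 a
    calc δ ^ (C1 + a) * (H : ℝ) ^ 2 = δ ^ a * (δ ^ C1 * (H : ℝ) ^ 2) := by rw [pow_add]; ring
      _ ≤ δ ^ a * (G.card * a) := mul_le_mul_of_nonneg_left s4 (by positivity)
      _ = G.card * (δ ^ a * a) := by ring
      _ ≤ G.card * 1 := mul_le_mul_of_nonneg_left q (by positivity)
      _ = G.card := mul_one _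
  have hlog : 0 ≤ 1 + Real.log H := by
    have := Real.log_nonneg hHr
    linarith
  have hR1 : Rg C2 H δ1 := by
    refine ⟨hδ1p, hδ1le.trans d1, (mul_le_mul_of_nonneg_right hδ1le hlog).trans d2, ?_⟩
    refine d3.trans (mul_le_mul_of_nonneg_right ?_ (by positivity))
    rw [hδ1, ← pow_mul]
    exact hmono _ _ (by omega)
  have s6 : ∀ k ∈ G, δ1 ^ C2 * (H : ℝ) ^ 18 ≤ UU 7 (2 * K * H ^ 2) (dl k f2) := by
    intro k hk
    rw [hG, mem_filter] at hk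
    exact hC H δ1 hR1 (dl k f2) (bd_dl h2 k) hk.2
  have s7 : UU 8 (2 * K * H ^ 2) f2 = ∑ D ∈ I, UU 7 (2 * K * H ^ 2) (dl D f2) := by
    rw [UU]
  rw [s7]
  calc δ ^ (C1 + a + (C1 + b) * C2) * (H : ℝ) ^ 20
      = (δ ^ (C1 + a) * (H : ℝ) ^ 2) * (δ1 ^ C2 * (H : ℝ) ^ 18) := by
        rw [hδ1, ← pow_mul, pow_add]
        ring
    _ ≤ G.card * (δ1 ^ C2 * (H : ℝ) ^ 18) := mul_le_mul_of_nonneg_right s5 (by positivity)
    _ = ∑ _k ∈ G, (δ1 ^ C2 * (H : ℝ) ^ 18) := by rw [sum_const, nsmul_eq_mul]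
    _ ≤ ∑ k ∈ G, UU 7 (2 * K * H ^ 2) (dl k f2) := sum_le_sum s6
    _ ≤ ∑ D ∈ I, UU 7 (2 * K * H ^ 2) (dl D f2) :=
        sum_le_sum_of_subset_of_nonneg (filter_subset _ _) fun _ _ _ => UU_nonneg _ _ _

end Pool.Agent.NRP
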