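import Mathlib
import Pool.Agent.NRP.StJ
import Pool.Agent.NRP.Inv1
import Pool.Agent.NRP.U9

set_option autoImplicit false

/-!
# NRP: the first inverse theorem with weights
-/

namespace Pool.Agent.NRP

open Finset
open Pool.Agent.GBQ (ee nd)
open scoped ComplexConjugate

private theorem Iw_Bd_dl {M : ℕ} {f : ℤ → ℂ} (hf : Bd M f) (D : ℤ) : Bd M (dl D f) := by
  refine ⟨fun n => ?_, fun n hn => ?_⟩
  · simp only [dl, norm_mul, RCLike.norm_conj]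
    have h1 := hf.1 n
    have h2 := hf.1 (n + D)
    nlinarith [norm_nonneg (f n), norm_nonneg (f (n + D))]
  · simp [dl, hf.2 n hn]

private theorem Iw_tsum {M : ℕ} {g : ℤ → ℂ} (hg : Bd M g) :
    ∑' n : ℤ, g n = ∑ n ∈ Icc (-(M : ℤ)) M, g n := by
  refine tsum_eq_sum fun n hn => hg.2 n ?_
  rw [Finset.mem_Icc, not_and_or, not_le, not_le] at hn
  rw [lt_abs]
  omega

private theorem Iw_tsum_shift {M : ℕ} {g : ℤ → ℂ} (hg : Bd M g) {n : ℤ}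
    (hn : n ∈ Icc (-(M : ℤ)) M) :
    ∑ k ∈ Icc (-((2 * M : ℕ) : ℤ)) ((2 * M : ℕ) : ℤ), conj (g (n + k)) =
      conj (∑' m : ℤ, g m) := by
  have h1 : ∑' k : ℤ, g (n + k) = ∑ k ∈ Icc (-((2 * M : ℕ) : ℤ)) ((2 * M : ℕ) : ℤ), g (n + k) := by
    refine tsum_eq_sum fun k hk => hg.2 _ ?_
    rw [Finset.mem_Icc, not_and_or, not_le, not_le] at hk
    rw [Finset.mem_Icc] at hn
    rw [lt_abs]
    push_cast at hk
    omega
  have h2 : ∑' k : ℤ, g (n + k) = ∑' m : ℤ, g m := (Equiv.addLeft n).tsum_eq g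
  rw [← h2, h1, map_sum]

private theorem Iw_sq {M : ℕ} {g : ℤ → ℂ} (hg : Bd M g) :
    ((‖∑' n : ℤ, g n‖ ^ 2 : ℝ) : ℂ) =
      ∑ k ∈ Icc (-((2 * M : ℕ) : ℤ)) ((2 * M : ℕ) : ℤ), ∑' n : ℤ, dl k g n := by
  have h1 : ∀ k : ℤ, ∑' n : ℤ, dl k g n = ∑ n ∈ Icc (-(M : ℤ)) M, g n * conj (g (n + k)) :=
    fun k => Iw_tsum (Iw_Bd_dl hg k)
  rw [Finset.sum_congr rfl fun k _ => h1 k, Finset.sum_comm]
  have h2 : ∀ n ∈ Icc (-(M : ℤ)) M,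
      ∑ k ∈ Icc (-((2 * M : ℕ) : ℤ)) ((2 * M : ℕ) : ℤ), g n * conj (g (n + k)) =
        g n * conj (∑' m : ℤ, g m) := by
    intro n hn
    rw [← Finset.mul_sum, Iw_tsum_shift hg hn]
  rw [Finset.sum_congr rfl h2, ← Finset.sum_mul, ← Iw_tsum hg, Complex.mul_conj,
    Complex.normSq_eq_norm_sq]

private theorem Iw_ts {M : ℕ} {f : ℤ → ℂ} (h : Bd M f) : ‖∑' n : ℤ, f n‖ ≤ 2 * M + 1 := by
  rw [Iw_tsum h]
  refine (norm_sum_le_of_le _ (f := f) (n := fun _ => (1 : ℝ)) fun n _ => h.1 n).trans ?_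
  rw [sum_const, Int.card_Icc, nsmul_eq_mul, mul_one]
  have : ((M : ℤ) + 1 - -(M : ℤ)).toNat = 2 * M + 1 := by omega
  rw [this]
  push_cast
  exact le_refl _

private theorem Iw_prod {M : ℕ} {f0 : ℤ → ℂ} (h0 : Bd M f0) {f1 f2 : ℤ → ℂ} (h1 : ∀ n, ‖f1 n‖ ≤ 1)
    (h2 : ∀ n, ‖f2 n‖ ≤ 1) (a b : ℤ) : Bd M (fun n => f0 n * f1 (n + a) * f2 (n + b)) := by
  constructor
  · intro n
    rw [norm_mul, norm_mul]
    exact mul_le_one₀ (mul_le_one₀ (h0.1 n) (norm_nonneg _) (h1 _)) (norm_nonneg _) (h2 _)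
  · intro n hn
    simp only [h0.2 n hn, zero_mul]

/-- Cauchy and Schwarz in `h` -/
private theorem Iw_cs {M H : ℕ} {c : ℤ} {w f0 f1 f2 : ℤ → ℂ} (hw : ∀ h, ‖w h‖ ≤ 1) (h0 : Bd M f0)
    (h1 : Bd M f1) (h2 : Bd M f2) :
    ‖TW c H w f0 f1 f2‖ ^ 2 ≤ H * ∑ k ∈ Icc (-((2 * M : ℕ) : ℤ)) ((2 * M : ℕ) : ℤ),
      ‖TT c H (dl k f0) (dl k f1) (dl k f2)‖ := by
  have e1 : ‖TW c H w f0 f1 f2‖ ≤ ∑ h ∈ Icc (1 : ℤ) H, ‖∑' n : ℤ, f0 n * f1 (n + h) * f2 (n + pp c h)‖ := by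
    refine norm_sum_le_of_le _ fun h _ => ?_
    rw [norm_mul]
    exact mul_le_of_le_one_left (norm_nonneg _) (hw h)
  have e2 : (∑ h ∈ Icc (1 : ℤ) H, ‖∑' n : ℤ, f0 n * f1 (n + h) * f2 (n + pp c h)‖) ^ 2 ≤
      H * ∑ h ∈ Icc (1 : ℤ) H, ‖∑' n : ℤ, f0 n * f1 (n + h) * f2 (n + pp c h)‖ ^ 2 := by
    refine sq_sum_le_card_mul_sum_sq.trans (le_of_eq ?_)
    rw [Int.card_Icc]
    simp
  have e3 : ((∑ h ∈ Icc (1 : ℤ) H, ‖∑' n : ℤ, f0 n * f1 (n + h) * f2 (n + pp c h)‖ ^ 2 : ℝ) : ℂ) =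
      ∑ k ∈ Icc (-((2 * M : ℕ) : ℤ)) ((2 * M : ℕ) : ℤ), TT c H (dl k f0) (dl k f1) (dl k f2) := by
    rw [Complex.ofReal_sum]
    unfold TT
    rw [sum_comm]
    refine sum_congr rfl fun h _ => ?_
    rw [Iw_sq (Iw_prod h0 h1.1 h2.1 h (pp c h))]
    refine sum_congr rfl fun k _ => ?_
    refine tsum_congr fun n => ?_
    have r1 : n + k + h = n + h + k := by ring
    have r2 : n + k + pp c h = n + pp c h + k := by ring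
    simp only [dl, map_mul, r1, r2]
    ring
  have e4 : ∑ h ∈ Icc (1 : ℤ) H, ‖∑' n : ℤ, f0 n * f1 (n + h) * f2 (n + pp c h)‖ ^ 2 ≤
      ∑ k ∈ Icc (-((2 * M : ℕ) : ℤ)) ((2 * M : ℕ) : ℤ), ‖TT c H (dl k f0) (dl k f1) (dl k f2)‖ := by
    have r0 : 0 ≤ ∑ h ∈ Icc (1 : ℤ) H, ‖∑' n : ℤ, f0 n * f1 (n + h) * f2 (n + pp c h)‖ ^ 2 :=
      sum_nonneg fun _ _ => sq_nonneg _
    have r1 := congrArg norm e3
    rw [Complex.norm_of_nonneg r0] at r1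
    rw [r1]
    exact norm_sum_le _ _
  calc ‖TW c H w f0 f1 f2‖ ^ 2 ≤
      (∑ h ∈ Icc (1 : ℤ) H, ‖∑' n : ℤ, f0 n * f1 (n + h) * f2 (n + pp c h)‖) ^ 2 :=
        pow_le_pow_left₀ (norm_nonneg _) e1 2
    _ ≤ _ := e2
    _ ≤ _ := mul_le_mul_of_nonneg_left e4 (Nat.cast_nonneg _)

private theorem Iw_TT {K H : ℕ} (hH : 1 ≤ H) {c : ℤ} {f0 f1 f2 : ℤ → ℂ} (h0 : Bd (K * H ^ 2) f0)
    (h1 : Bd (K * H ^ 2) f1) (h2 : Bd (K * H ^ 2) f2) :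
    ‖TT c H f0 f1 f2‖ ≤ (2 * K + 1) * (H : ℝ) ^ 3 := by
  have hH1 : (1 : ℝ) ≤ H := by exact_mod_cast hH
  unfold TT
  refine (norm_sum_le_of_le _ (n := fun _ => (2 * (K : ℝ) + 1) * (H : ℝ) ^ 2) fun h _ => ?_).trans ?_
  · refine (Iw_ts (Iw_prod h0 h1.1 h2.1 h (pp c h))).trans ?_
    push_cast
    nlinarith
  · rw [sum_const, Int.card_Icc, nsmul_eq_mul]
    simp only [add_sub_cancel_right, Int.toNat_natCast]
    exact le_of_eq (by ring)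

/-- the numbers `k` with a large trilinear sum -/
private theorem Iw_card {K H a : ℕ} {δ : ℝ} (hH : 1 ≤ H) (hδ : 0 < δ)
    (ha : δ ^ a * (8 * K + 2) ≤ δ ^ 2) (F : ℤ → ℝ)
    (hF : ∀ k, F k ≤ (2 * K + 1) * (H : ℝ) ^ 3)
    (h : δ ^ 2 * (H : ℝ) ^ 5 ≤ ∑ k ∈ Icc (-((2 * (K * H ^ 2) : ℕ) : ℤ)) ((2 * (K * H ^ 2) : ℕ) : ℤ), F k) :
    δ ^ a * (H : ℝ) ^ 2 ≤ (((Icc (-((2 * (K * H ^ 2) : ℕ) : ℤ)) ((2 * (K * H ^ 2) : ℕ) : ℤ)).filter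
      (fun k => δ ^ a * (H : ℝ) ^ 3 ≤ F k)).card : ℝ) := by
  have hH1 : (1 : ℝ) ≤ H := by exact_mod_cast hH
  set I := Icc (-((2 * (K * H ^ 2) : ℕ) : ℤ)) ((2 * (K * H ^ 2) : ℕ) : ℤ) with hI
  have hIcard : (I.card : ℝ) ≤ (4 * K + 1) * (H : ℝ) ^ 2 := by
    rw [hI, Int.card_Icc]
    have h1 : ∀ M : ℕ, (((2 * M : ℕ) : ℤ) + 1 - -((2 * M : ℕ) : ℤ)).toNat = 4 * M + 1 := by
      intro M
      push_cast
      omega
    rw [h1]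
    push_cast
    nlinarith
  rw [← sum_filter_add_sum_filter_not I (fun k => δ ^ a * (H : ℝ) ^ 3 ≤ F k)] at h
  have h1 : ∑ k ∈ I.filter (fun k => δ ^ a * (H : ℝ) ^ 3 ≤ F k), F k ≤
      ((I.filter (fun k => δ ^ a * (H : ℝ) ^ 3 ≤ F k)).card : ℝ) * ((2 * K + 1) * (H : ℝ) ^ 3) := by
    refine (sum_le_card_nsmul _ _ _ fun k _ => hF k).trans (le_of_eq ?_)
    rw [nsmul_eq_mul]
  have h2 : ∑ k ∈ I.filter (fun k => ¬ δ ^ a * (H : ℝ) ^ 3 ≤ F k), F k ≤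
      ((4 * K + 1) * (H : ℝ) ^ 2) * (δ ^ a * (H : ℝ) ^ 3) := by
    refine (sum_le_card_nsmul _ _ (δ ^ a * (H : ℝ) ^ 3) fun k hk => ?_).trans ?_
    · rw [mem_filter, not_le] at hk
      exact hk.2.le
    · rw [nsmul_eq_mul]
      refine mul_le_mul_of_nonneg_right ?_ (by positivity)
      refine le_trans ?_ hIcard
      exact_mod_cast card_le_card (filter_subset _ _)
  set n : ℝ := ((I.filter (fun k => δ ^ a * (H : ℝ) ^ 3 ≤ F k)).card : ℝ) with hn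
  have h3 : ((4 * K + 1) * (H : ℝ) ^ 2) * (δ ^ a * (H : ℝ) ^ 3) ≤ δ ^ 2 / 2 * (H : ℝ) ^ 5 := by
    have : (4 * (K : ℝ) + 1) * δ ^ a ≤ δ ^ 2 / 2 := by linarith
    calc ((4 * K + 1) * (H : ℝ) ^ 2) * (δ ^ a * (H : ℝ) ^ 3) = ((4 * (K : ℝ) + 1) * δ ^ a) * (H : ℝ) ^ 5 := by
          ring
      _ ≤ _ := mul_le_mul_of_nonneg_right this (by positivity)
  have h4 : (δ ^ 2 / 2 * (H : ℝ) ^ 2) * (H : ℝ) ^ 3 ≤ (n * (2 * K + 1)) * (H : ℝ) ^ 3 := by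
    have e1 : (δ ^ 2 / 2 * (H : ℝ) ^ 2) * (H : ℝ) ^ 3 = δ ^ 2 * (H : ℝ) ^ 5 - δ ^ 2 / 2 * (H : ℝ) ^ 5 := by
      ring
    rw [e1]
    have e2 : (n * (2 * K + 1)) * (H : ℝ) ^ 3 = n * ((2 * K + 1) * (H : ℝ) ^ 3) := by ring
    rw [e2]
    linarith
  have h5 : δ ^ 2 / 2 * (H : ℝ) ^ 2 ≤ n * (2 * K + 1) := le_of_mul_le_mul_right h4 (by positivity)
  have h6 : (δ ^ a * (H : ℝ) ^ 2) * (2 * K + 1) ≤ n * (2 * K + 1) := by
    refine le_trans ?_ h5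
    have e1 : δ ^ a * (2 * (K : ℝ) + 1) ≤ δ ^ 2 / 2 := by
      have : 0 ≤ δ ^ a * (K : ℝ) := by positivity
      nlinarith
    calc (δ ^ a * (H : ℝ) ^ 2) * (2 * K + 1) = (δ ^ a * (2 * (K : ℝ) + 1)) * (H : ℝ) ^ 2 := by ring
      _ ≤ _ := mul_le_mul_of_nonneg_right e1 (by positivity)
  exact le_of_mul_le_mul_right h6 (by positivity)

/-- support of the sums over progressions -/
private theorem Iw_supp {K H q L : ℕ} {f : ℤ → ℂ} (hf : Bd (K * H ^ 2) f)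
    (hqL : (q : ℝ) * L ≤ H) {n : ℤ}
    (hn : n ∉ Icc (-(((K + 1) * H ^ 2 : ℕ) : ℤ)) (((K + 1) * H ^ 2 : ℕ) : ℤ)) :
    ∑ y ∈ Icc (1 : ℤ) L, f (n + q * y) = 0 := by
  have h1 : q * L ≤ H := by exact_mod_cast hqL
  have h2 : H ≤ H ^ 2 := Nat.le_self_pow (by norm_num) H
  refine sum_eq_zero fun y hy => hf.2 _ ?_
  rw [mem_Icc] at hy
  rw [mem_Icc, ← abs_le, not_le] at hn
  have h3 : (q : ℤ) * y ≤ H := by
    have : (q : ℤ) * y ≤ q * L := mul_le_mul_of_nonneg_left hy.2 (Int.natCast_nonneg q)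
    have h4 : ((q * L : ℕ) : ℤ) ≤ H := by exact_mod_cast h1
    push_cast at h4
    linarith
  have h4 : 0 ≤ (q : ℤ) * y := mul_nonneg (Int.natCast_nonneg q) (by linarith)
  have h5 : |n| ≤ |n + q * y| + |(q : ℤ) * y| := by
    have := abs_sub (n + q * y) (q * y)
    rwa [add_sub_cancel_right] at this
  rw [abs_of_nonneg h4] at h5
  have h6 : (((K + 1) * H ^ 2 : ℕ) : ℤ) = ((K * H ^ 2 : ℕ) : ℤ) + ((H ^ 2 : ℕ) : ℤ) := by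
    push_cast
    ring
  rw [h6] at hn
  have h7 : (H : ℤ) ≤ ((H ^ 2 : ℕ) : ℤ) := by exact_mod_cast h2
  linarith

theorem thm_Inv1w (hI : St_Inv1) (hF : St_Fmx) : St_Inv1w := by
  classical
  intro K
  obtain ⟨C1, hC1⟩ := hI K
  set a : ℕ := 2 + (8 * K + 2) with ha
  set g : ℕ := a * C1 with hg
  set B : ℕ := (4 * K + 1) * (2 * K + 3) * (2 * K + 1) with hB
  refine ⟨4 * g + 2 * a + B, ?_⟩
  intro H δ hRg c hc w f0 f1 f2 hw hf0 hf1 hf2 hT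
  have hH := Inv1M.one_le_H hRg
  have hRg' : Rg C1 H (δ ^ a) := Inv1M.rg_pow hRg (by omega) (by omega)
  obtain ⟨hδ, hδ2, hlog, hHδ⟩ := hRg
  have hδ1 : δ ≤ 1 := by linarith
  have hH1 : (1 : ℝ) ≤ H := by exact_mod_cast hH
  have ha2 : δ ^ a * (8 * K + 2) ≤ δ ^ 2 := by
    have h1 := U9X.pow_small hδ hδ2 (8 * K + 2)
    push_cast at h1
    rw [ha, pow_add]
    calc δ ^ 2 * δ ^ (8 * K + 2) * (8 * K + 2) = δ ^ 2 * (δ ^ (8 * K + 2) * (8 * K + 2)) := by ring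
      _ ≤ δ ^ 2 * 1 := mul_le_mul_of_nonneg_left h1 (by positivity)
      _ = δ ^ 2 := mul_one _
  have hsum : δ ^ 2 * (H : ℝ) ^ 5 ≤
      ∑ k ∈ Icc (-((2 * (K * H ^ 2) : ℕ) : ℤ)) ((2 * (K * H ^ 2) : ℕ) : ℤ),
        ‖TT c H (dl k f0) (dl k f1) (dl k f2)‖ := by
    have h1 := Iw_cs (c := c) (H := H) hw hf0 hf1 hf2
    have h2 : (δ * (H : ℝ) ^ 3) ^ 2 ≤ ‖TW c H w f0 f1 f2‖ ^ 2 :=
      pow_le_pow_left₀ (by positivity) hT 2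
    have h3 := h2.trans h1
    have h4 : (δ * (H : ℝ) ^ 3) ^ 2 = H * (δ ^ 2 * (H : ℝ) ^ 5) := by ring
    rw [h4] at h3
    exact le_of_mul_le_mul_left h3 (by positivity)
  have hcard := Iw_card hH hδ ha2 _ (fun k => Iw_TT (c := c) hH (Iw_Bd_dl hf0 k) (Iw_Bd_dl hf1 k)
    (Iw_Bd_dl hf2 k)) hsum
  set I := Icc (-((2 * (K * H ^ 2) : ℕ) : ℤ)) ((2 * (K * H ^ 2) : ℕ) : ℤ) with hIdef
  set S := I.filter (fun k => δ ^ a * (H : ℝ) ^ 3 ≤ ‖TT c H (dl k f0) (dl k f1) (dl k f2)‖) with hS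
  have hkk : ∀ k, ∃ q : ℕ, k ∈ S → (1 ≤ q ∧ (q : ℝ) ≤ (1 / δ) ^ g ∧
      ∀ L : ℕ, 1 ≤ L → (L : ℝ) ≤ δ ^ g * H →
      δ ^ g * (H : ℝ) ^ 2 * L ≤ ∑' n : ℤ, ‖∑ y ∈ Icc (1 : ℤ) L, dl k f1 (n + q * y)‖) := by
    intro k
    by_cases hk : k ∈ S
    · have hk2 := hk
      rw [hS, mem_filter] at hk2
      obtain ⟨q, h1, h2, h3⟩ := hC1 H (δ ^ a) hRg' c hc _ _ _ (Iw_Bd_dl hf0 k) (Iw_Bd_dl hf1 k)
        (Iw_Bd_dl hf2 k) hk2.2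
      have e1 : (1 / δ ^ a) ^ C1 = (1 / δ) ^ g := by
        rw [hg, pow_mul (1 / δ), ← one_div_pow]
      have e2 : (δ ^ a) ^ C1 = δ ^ g := by rw [hg, pow_mul]
      rw [e1] at h2
      rw [e2] at h3
      exact ⟨q, fun _ => ⟨h1, h2, h3⟩⟩
    · exact ⟨0, fun h => absurd h hk⟩
  choose qf hqf using hkk
  set Q : ℕ := ⌊(1 / δ) ^ g⌋₊ with hQ
  have hδg : 0 < δ ^ g := by positivity
  have hQle : (Q : ℝ) ≤ (1 / δ) ^ g := Nat.floor_le (by positivity)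
  have hmaps : ∀ k ∈ S, qf k ∈ Icc 1 Q := by
    intro k hk
    obtain ⟨h1, h2, _⟩ := hqf k hk
    exact mem_Icc.2 ⟨h1, Nat.le_floor h2⟩
  have hScard : (0 : ℝ) < S.card := lt_of_lt_of_le (by positivity) hcard
  have hSne : S.Nonempty := by
    rw [← card_pos]
    exact_mod_cast hScard
  obtain ⟨k0, hk0⟩ := hSne
  have hQ1 : 1 ≤ Q := by
    have := hmaps k0 hk0
    rw [mem_Icc] at this
    omega
  have hQ1' : (1 : ℝ) ≤ Q := by exact_mod_cast hQ1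
  obtain ⟨q, hq, hqS⟩ := exists_le_card_fiber_of_nsmul_le_card_of_maps_to (M := ℝ) hmaps
    ⟨qf k0, hmaps k0 hk0⟩ (b := (S.card : ℝ) / Q) (by
      rw [nsmul_eq_mul, Nat.card_Icc]
      have : Q + 1 - 1 = Q := by omega
      rw [this]
      exact le_of_eq (mul_div_cancel₀ _ (by positivity)))
  set Sq := S.filter (fun k => qf k = q) with hSq
  have hSqcard : δ ^ (a + g) * (H : ℝ) ^ 2 ≤ Sq.card := by
    refine le_trans ?_ hqS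
    rw [le_div_iff₀ (by positivity)]
    refine le_trans ?_ hcard
    have h1 : δ ^ g * (Q : ℝ) ≤ 1 := by
      calc δ ^ g * (Q : ℝ) ≤ δ ^ g * (1 / δ) ^ g := mul_le_mul_of_nonneg_left hQle hδg.le
        _ = 1 := by
          rw [← mul_pow, mul_one_div_cancel hδ.ne', one_pow]
    calc δ ^ (a + g) * (H : ℝ) ^ 2 * Q = (δ ^ a * (H : ℝ) ^ 2) * (δ ^ g * Q) := by rw [pow_add]; ring
      _ ≤ (δ ^ a * (H : ℝ) ^ 2) * 1 := mul_le_mul_of_nonneg_left h1 (by positivity)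
      _ = _ := mul_one _
  rw [mem_Icc] at hq
  have hqle : (q : ℝ) ≤ (1 / δ) ^ g := le_trans (by exact_mod_cast hq.2) hQle
  have hδinv : 1 ≤ 1 / δ := by
    rw [le_div_iff₀ hδ]
    linarith
  refine ⟨q, hq.1, hqle.trans (pow_le_pow_right₀ hδinv (by omega)), ?_⟩
  intro L hL1 hL
  have hL' : (L : ℝ) ≤ δ ^ g * H := by
    refine hL.trans (mul_le_mul_of_nonneg_right ?_ (by positivity))
    exact pow_le_pow_of_le_one hδ.le hδ1 (by omega)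
  have hqL : (q : ℝ) * L ≤ H := by
    calc (q : ℝ) * L ≤ (1 / δ) ^ g * (δ ^ g * H) := mul_le_mul hqle hL' (by positivity) (by positivity)
      _ = ((1 / δ) * δ) ^ g * H := by rw [mul_pow]; ring
      _ = H := by rw [one_div_mul_cancel hδ.ne', one_pow, one_mul]
  obtain ⟨β, hβ⟩ := hF (K * H ^ 2) q L (2 * (K * H ^ 2)) f1 hf1 hq.1
  refine ⟨β, ?_⟩
  rw [← hIdef] at hβ
  set R : ℝ := ∑' n : ℤ, ‖∑ y ∈ Icc (1 : ℤ) L, f1 (n + q * y) * ee (β * (q * y))‖ ^ 2 with hR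
  have hR0 : 0 ≤ R := tsum_nonneg fun n => sq_nonneg _
  set J := Icc (-(((K + 1) * H ^ 2 : ℕ) : ℤ)) (((K + 1) * H ^ 2 : ℕ) : ℤ) with hJ
  have hJcard : (J.card : ℝ) ≤ (2 * K + 3) * (H : ℝ) ^ 2 := by
    rw [hJ, Int.card_Icc]
    have h1 : ∀ M : ℕ, ((M : ℤ) + 1 - -(M : ℤ)).toNat = 2 * M + 1 := by
      intro M
      omega
    rw [h1]
    push_cast
    nlinarith
  have hIcard : (I.card : ℝ) ≤ (4 * K + 1) * (H : ℝ) ^ 2 := by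
    rw [hIdef, Int.card_Icc]
    have h1 : ∀ M : ℕ, (((2 * M : ℕ) : ℤ) + 1 - -((2 * M : ℕ) : ℤ)).toNat = 4 * M + 1 := by
      intro M
      push_cast
      omega
    rw [h1]
    push_cast
    nlinarith
  set F : ℤ → ℤ → ℝ := fun k n => ‖∑ y ∈ Icc (1 : ℤ) L, dl k f1 (n + q * y)‖ with hFdef
  have hF1 : ∀ k, ∑' n : ℤ, F k n = ∑ n ∈ J, F k n := by
    intro k
    refine tsum_eq_sum fun n hn => ?_
    simp only [hFdef]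
    rw [Iw_supp (Iw_Bd_dl hf1 k) hqL hn, norm_zero]
  have hF2 : ∀ k, ∑' n : ℤ, F k n ^ 2 = ∑ n ∈ J, F k n ^ 2 := by
    intro k
    refine tsum_eq_sum fun n hn => ?_
    simp only [hFdef]
    rw [Iw_supp (Iw_Bd_dl hf1 k) hqL hn, norm_zero]
    norm_num
  have hFnn : ∀ k n, 0 ≤ F k n := fun k n => norm_nonneg _
  have hlow : (δ ^ (a + g) * (H : ℝ) ^ 2) * (δ ^ g * (H : ℝ) ^ 2 * L) ≤ ∑ x ∈ I ×ˢ J, F x.1 x.2 := by
    calc (δ ^ (a + g) * (H : ℝ) ^ 2) * (δ ^ g * (H : ℝ) ^ 2 * L) ≤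
        (Sq.card : ℝ) * (δ ^ g * (H : ℝ) ^ 2 * L) := mul_le_mul_of_nonneg_right hSqcard (by positivity)
      _ = Sq.card • (δ ^ g * (H : ℝ) ^ 2 * L) := by rw [nsmul_eq_mul]
      _ ≤ ∑ k ∈ Sq, ∑ n ∈ J, F k n := by
          refine card_nsmul_le_sum _ _ _ fun k hk => ?_
          rw [hSq, mem_filter] at hk
          have h1 := (hqf k hk.1).2.2 L hL1 hL'
          rw [hk.2] at h1
          rw [← hF1]
          exact h1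
      _ ≤ ∑ k ∈ I, ∑ n ∈ J, F k n := by
          refine sum_le_sum_of_subset_of_nonneg ?_ fun k _ _ => sum_nonneg fun n _ => hFnn k n
          exact (filter_subset _ _).trans (filter_subset _ _)
      _ = _ := by rw [sum_product]
  have hcs : (∑ x ∈ I ×ˢ J, F x.1 x.2) ^ 2 ≤
      (((4 * K + 1) * (H : ℝ) ^ 2) * ((2 * K + 3) * (H : ℝ) ^ 2)) * ∑ x ∈ I ×ˢ J, F x.1 x.2 ^ 2 := by
    refine sq_sum_le_card_mul_sum_sq.trans (mul_le_mul_of_nonneg_right ?_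
      (sum_nonneg fun _ _ => sq_nonneg _))
    rw [card_product]
    push_cast
    exact mul_le_mul hIcard hJcard (by positivity) (by positivity)
  have hup : ∑ x ∈ I ×ˢ J, F x.1 x.2 ^ 2 ≤ ((2 * K + 1) * (H : ℝ) ^ 2) * R := by
    rw [sum_product]
    have h1 : ∑ k ∈ I, ∑ n ∈ J, F k n ^ 2 = ∑ k ∈ I, ∑' n : ℤ, F k n ^ 2 :=
      sum_congr rfl fun k _ => (hF2 k).symm
    rw [h1]
    refine hβ.trans (mul_le_mul_of_nonneg_right ?_ hR0)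
    push_cast
    nlinarith
  have hfin : (δ ^ (4 * g + 2 * a) * (H : ℝ) ^ 2 * (L : ℝ) ^ 2) * (H : ℝ) ^ 6 ≤
      ((B : ℝ) * R) * (H : ℝ) ^ 6 := by
    have h1 : ((δ ^ (a + g) * (H : ℝ) ^ 2) * (δ ^ g * (H : ℝ) ^ 2 * L)) ^ 2 ≤
        (∑ x ∈ I ×ˢ J, F x.1 x.2) ^ 2 := pow_le_pow_left₀ (by positivity) hlow 2
    have hBc : (B : ℝ) = (4 * K + 1) * (2 * K + 3) * (2 * K + 1) := by
      rw [hB]
      push_cast
      ring
    calc (δ ^ (4 * g + 2 * a) * (H : ℝ) ^ 2 * (L : ℝ) ^ 2) * (H : ℝ) ^ 6 =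
        ((δ ^ (a + g) * (H : ℝ) ^ 2) * (δ ^ g * (H : ℝ) ^ 2 * L)) ^ 2 := by ring
      _ ≤ (((4 * K + 1) * (H : ℝ) ^ 2) * ((2 * K + 3) * (H : ℝ) ^ 2)) *
          (((2 * K + 1) * (H : ℝ) ^ 2) * R) :=
          (h1.trans hcs).trans (mul_le_mul_of_nonneg_left hup (by positivity))
      _ = _ := by rw [hBc]; ring
  have hfin2 : δ ^ (4 * g + 2 * a) * (H : ℝ) ^ 2 * (L : ℝ) ^ 2 ≤ (B : ℝ) * R :=
    le_of_mul_le_mul_right hfin (by positivity)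
  have hBs := U9X.pow_small hδ hδ2 B
  calc δ ^ (4 * g + 2 * a + B) * (H : ℝ) ^ 2 * (L : ℝ) ^ 2 =
      δ ^ B * (δ ^ (4 * g + 2 * a) * (H : ℝ) ^ 2 * (L : ℝ) ^ 2) := by rw [pow_add]; ring
    _ ≤ δ ^ B * ((B : ℝ) * R) := mul_le_mul_of_nonneg_left hfin2 (by positivity)
    _ = (δ ^ B * B) * R := by ring
    _ ≤ 1 * R := mul_le_mul_of_nonneg_right hBs hR0
    _ = R := one_mul _

end Pool.Agent.NRP
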