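import Pool.Agent.NRP.StI

set_option autoImplicit false

/-!
# NRP: the second inverse theorem (module Inv2)
-/

namespace Pool.Agent.NRP

open Finset
open Pool.Agent.GBQ (ee nd)
open scoped ComplexConjugate

namespace Inv2x

theorem rg_mono {C C' H : ℕ} {δ : ℝ} (h : C' ≤ C) (hR : Rg C H δ) : Rg C' H δ := by
  obtain ⟨h0, h1, h2, h3⟩ := hR
  refine ⟨h0, h1, h2, h3.trans ?_⟩
  exact mul_le_mul_of_nonneg_right (pow_le_pow_of_le_one h0.le (by linarith) h) (by positivity)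

theorem mj_mono {C C' H : ℕ} {δ θ : ℝ} (h : C' ≤ C) (h0 : 0 < δ) (h1 : δ ≤ 1) (hM : Mj C' H δ θ) :
    Mj C H δ θ := by
  obtain ⟨q, hq, hq', hn⟩ := hM
  have h2 : (1 : ℝ) ≤ 1 / δ := by
    rw [le_div_iff₀ h0]
    linarith
  have h3 : (1 / δ) ^ C' ≤ (1 / δ) ^ C := pow_le_pow_right₀ h2 h
  exact ⟨q, hq, hq'.trans h3, hn.trans (div_le_div_of_nonneg_right h3 (by positivity))⟩

end Inv2x

open Inv2x

theorem thm_Inv2 (hS : St_Sm) (hW : St_W2) : St_Inv2 := by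
  intro K
  obtain ⟨C1, h1⟩ := hS K
  obtain ⟨C2, h2⟩ := hW K C1
  refine ⟨max C1 C2, ?_⟩
  intro H δ hR c hc f0 f1 f2 hf0 hf1 hf2 hT
  obtain ⟨q, Z, h0, hq, hq', hh0, hqZ, hZ, hsum⟩ :=
    h1 H δ (rg_mono (le_max_left _ _) hR) c hc f0 f1 f2 hf0 hf1 hf2 hT
  obtain ⟨α, hα, hα'⟩ := h2 H δ (rg_mono (le_max_right _ _) hR) c hc f2 hf2 q Z h0 hq hq' hh0 hqZ hZ hsum
  have hδ0 := hR.1
  have hδ1 : δ ≤ 1 := by linarith [hR.2.1]
  refine ⟨α, mj_mono (le_max_right _ _) hδ0 hδ1 hα, le_trans ?_ hα'⟩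
  exact mul_le_mul_of_nonneg_right (pow_le_pow_of_le_one hδ0.le hδ1 (le_max_right _ _)) (by positivity)

end Pool.Agent.NRP
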