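import Pool.Agent.NRP.DL
import Pool.Agent.NRP.W2

/-!
# NRP [Inv2w]: the second inverse theorem with weights (helper14)
-/

set_option autoImplicit false

namespace Pool.Agent.NRP

open Finset
open Pool.Agent.GBQ (ee nd ee_norm ee_add ee_neg ee_int ee_zero)
open scoped ComplexConjugate

namespace Inv2wx

/-- the Fourier transform of a correlation -/
theorem conv {M : ℕ} {G1 G2 : ℤ → ℂ} (h1 : Bd M G1) (h2 : Bd M G2) (α : ℝ) :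
    ∑' D : ℤ, (∑' n : ℤ, G1 n * conj (G2 (n - D))) * ee (α * D) =
      (∑' n : ℤ, G1 n * ee (α * n)) * conj (∑' n : ℤ, G2 n * ee (α * n)) := by
  have e1 : ∀ D : ℤ, (∑' n : ℤ, G1 n * conj (G2 (n - D))) * ee (α * D) =
      ∑ n ∈ Icc (-(M : ℤ)) M, G1 n * conj (G2 (n - D)) * ee (α * D) := by
    intro D
    rw [w2_tsum (B := M) (fun n hn => by rw [h1.2 n hn, zero_mul]), sum_mul]
  rw [tsum_congr e1, Summable.tsum_finsetSum, w2_tsum (B := M) (f := fun n => G1 n * ee (α * n))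
    (fun n hn => by rw [h1.2 n hn, zero_mul]), sum_mul]
  · refine sum_congr rfl fun n _ => ?_
    have e2 : ∀ D : ℤ, G1 n * conj (G2 (n - D)) * ee (α * D) =
        (fun m : ℤ => G1 n * ee (α * n) * conj (G2 m * ee (α * m))) ((Equiv.subLeft n) D) := by
      intro D
      simp only [Equiv.subLeft_apply]
      rw [map_mul, ← ee_neg]
      have e3 : α * (D : ℝ) = α * n + -(α * ((n - D : ℤ) : ℝ)) := by
        push_cast
        ring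
      conv_lhs => rw [e3, ee_add]
      ring
    rw [tsum_congr e2, Equiv.tsum_eq (Equiv.subLeft n)
      (fun m : ℤ => G1 n * ee (α * n) * conj (G2 m * ee (α * m))), tsum_mul_left,
      Complex.conj_tsum]
  · intro n hn
    refine w2_summable (B := 2 * M) fun D hD => ?_
    have h3 : (M : ℤ) < |n - D| := by
      rw [mem_Icc] at hn
      rw [lt_abs] at hD ⊢
      push_cast at hD
      omega
    rw [h2.2 _ h3, map_zero, mul_zero, zero_mul]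

/-- a large mean square of the correlations gives a large Fourier coefficient -/
theorem cross {M : ℕ} {G1 G2 : ℤ → ℂ} (h1 : Bd M G1) (h2 : Bd M G2) : ∃ β : ℝ,
    ∑ D ∈ Icc (-((2 * M : ℕ) : ℤ)) ((2 * M : ℕ) : ℤ), ‖∑' n : ℤ, G1 n * conj (G2 (n + D))‖ ^ 2 ≤
      (2 * M + 1) * ‖∑' n : ℤ, G2 n * ee (β * n)‖ ^ 2 := by
  set q : ℕ := 2 * (2 * M) + 1 with hq
  have hq0 : (0 : ℝ) < (q : ℝ) := by
    rw [hq]
    positivity
  obtain ⟨j0, _, hj0⟩ := exists_max_image (range q)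
    (fun j : ℕ => ‖∑' n : ℤ, G2 n * ee ((j : ℝ) / (q : ℝ) * n)‖) ⟨0, by rw [mem_range, hq]; omega⟩
  refine ⟨(j0 : ℝ) / (q : ℝ), ?_⟩
  set c : ℤ → ℂ := fun D => ∑' n : ℤ, G1 n * conj (G2 (n - D)) with hc
  have hcs : ∀ D : ℤ, ((2 * M : ℕ) : ℤ) < |D| → c D = 0 := by
    intro D hD
    have : ∀ n : ℤ, G1 n * conj (G2 (n - D)) = 0 := by
      intro n
      by_cases hn : (M : ℤ) < |n|
      · rw [h1.2 n hn, zero_mul]
      · have h3 : (M : ℤ) < |n - D| := by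
          rw [not_lt, abs_le] at hn
          rw [lt_abs] at hD ⊢
          push_cast at hD
          omega
        rw [h2.2 _ h3, map_zero, mul_zero]
    rw [hc]
    simp only
    rw [tsum_congr this, tsum_zero]
  have p1 := w2_parseval (B := 2 * M) hcs
  have p2 := w2_parseval (B := 2 * M) (f := G1) (fun n hn => h1.2 n (lt_of_le_of_lt (by
    push_cast
    omega) hn))
  rw [← hq] at p1 p2
  have e1 : ∀ j ∈ range q, ‖∑' D : ℤ, c D * ee ((j : ℝ) / (q : ℝ) * D)‖ ^ 2 ≤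
      ‖∑' n : ℤ, G1 n * ee ((j : ℝ) / (q : ℝ) * n)‖ ^ 2 *
        ‖∑' n : ℤ, G2 n * ee ((j0 : ℝ) / (q : ℝ) * n)‖ ^ 2 := by
    intro j hj
    rw [hc, conv h1 h2, norm_mul, mul_pow, RCLike.norm_conj]
    gcongr
    exact hj0 j hj
  have e2 : (q : ℝ) * ∑ D ∈ Icc (-((2 * M : ℕ) : ℤ)) ((2 * M : ℕ) : ℤ), ‖c D‖ ^ 2 ≤
      (q : ℝ) * ((2 * M + 1) * ‖∑' n : ℤ, G2 n * ee ((j0 : ℝ) / (q : ℝ) * n)‖ ^ 2) := by
    rw [← p1]
    refine (sum_le_sum e1).trans ?_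
    rw [← sum_mul, p2, mul_assoc]
    refine mul_le_mul_of_nonneg_left ?_ hq0.le
    refine mul_le_mul_of_nonneg_right ?_ (by positivity)
    have e3 : ∑ n ∈ Icc (-((2 * M : ℕ) : ℤ)) ((2 * M : ℕ) : ℤ), ‖G1 n‖ ^ 2 =
        ∑ n ∈ Icc (-(M : ℤ)) M, ‖G1 n‖ ^ 2 := by
      symm
      refine sum_subset (fun n hn => ?_) (fun n _ hn => ?_)
      · rw [mem_Icc] at hn ⊢
        push_cast
        omega
      · have : (M : ℤ) < |n| := by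
          rw [mem_Icc, not_and_or] at hn
          rw [lt_abs]
          omega
        rw [h1.2 n this]
        simp
    rw [e3]
    calc ∑ n ∈ Icc (-(M : ℤ)) M, ‖G1 n‖ ^ 2 ≤ ∑ _n ∈ Icc (-(M : ℤ)) M, (1 : ℝ) :=
          sum_le_sum fun n _ => pow_le_one₀ (norm_nonneg _) (h1.1 n)
      _ = 2 * M + 1 := by rw [sum_const, nsmul_eq_mul, DL_card, mul_one]
  have e4 := le_of_mul_le_mul_left e2 hq0
  refine le_trans (le_of_eq ?_) e4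
  refine sum_bij (fun D _ => -D) (fun D hD => ?_) (fun a _ b _ h => neg_injective h)
    (fun D hD => ⟨-D, ?_, neg_neg D⟩) (fun D _ => ?_)
  · rw [mem_Icc] at hD ⊢
    omega
  · rw [mem_Icc] at hD ⊢
    omega
  · rw [hc]
    simp only [sub_neg_eq_add]

/-- the square of a sum -/
theorem sq {M : ℕ} {E : ℤ → ℂ} (h : Bd M E) :
    ((‖∑' n : ℤ, E n‖ ^ 2 : ℝ) : ℂ) =
      ∑ k ∈ Icc (-((2 * M : ℕ) : ℤ)) ((2 * M : ℕ) : ℤ), ∑' n : ℤ, E n * conj (E (n + k)) := by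
  have hs : ∀ k : ℤ, ∀ n : ℤ, (M : ℤ) < |n| → E n * conj (E (n + k)) = 0 := by
    intro k n hn
    rw [h.2 n hn, zero_mul]
  rw [Complex.ofReal_pow, ← Complex.mul_conj', w2_tsum h.2, sum_mul]
  rw [sum_congr rfl fun k _ => w2_tsum (hs k), sum_comm]
  refine sum_congr rfl fun n hn => ?_
  rw [← mul_sum]
  congr 1
  have e1 : ∑ k ∈ Icc (-((2 * M : ℕ) : ℤ)) ((2 * M : ℕ) : ℤ), conj (E (n + k)) =
      ∑' k : ℤ, conj (E (n + k)) := by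
    symm
    refine w2_tsum fun k hk => ?_
    have h3 : (M : ℤ) < |n + k| := by
      rw [mem_Icc] at hn
      rw [lt_abs] at hk ⊢
      push_cast at hk
      omega
    rw [h.2 _ h3, map_zero]
  rw [e1, ← w2_tsum h.2, Complex.conj_tsum, ← Equiv.tsum_eq (Equiv.addLeft n)]
  rfl

/-- Cauchy and Schwarz in `h` -/
theorem cs {M H : ℕ} (c : ℤ) {w f0 f1 f2 : ℤ → ℂ} (hw : ∀ h, ‖w h‖ ≤ 1) (h0 : Bd M f0)
    (h1 : Bd M f1) (h2 : Bd M f2) :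
    ‖TW c H w f0 f1 f2‖ ^ 2 ≤ H * ∑ k ∈ Icc (-((2 * M : ℕ) : ℤ)) ((2 * M : ℕ) : ℤ),
      ‖TT c H (dl k f0) (dl k f1) (dl k f2)‖ := by
  set S : ℤ → ℂ := fun h => ∑' n : ℤ, f0 n * f1 (n + h) * f2 (n + pp c h) with hS
  have hE : ∀ h : ℤ, Bd M (fun n => f0 n * f1 (n + h) * f2 (n + pp c h)) := by
    intro h
    refine ⟨fun n => ?_, fun n hn => by simp only [h0.2 n hn, zero_mul]⟩
    rw [norm_mul, norm_mul]
    have e0 := h0.1 n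
    have e1 := h1.1 (n + h)
    have e2 := h2.1 (n + pp c h)
    calc ‖f0 n‖ * ‖f1 (n + h)‖ * ‖f2 (n + pp c h)‖ ≤ 1 * 1 * 1 := by gcongr
      _ = 1 := by norm_num
  have e1 : ‖TW c H w f0 f1 f2‖ ≤ ∑ h ∈ Icc (1 : ℤ) H, ‖S h‖ := by
    unfold TW
    refine (norm_sum_le _ _).trans (sum_le_sum fun h _ => ?_)
    rw [norm_mul]
    calc ‖w h‖ * ‖S h‖ ≤ 1 * ‖S h‖ := mul_le_mul_of_nonneg_right (hw h) (norm_nonneg _)
      _ = ‖S h‖ := one_mul _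
  have e2 : (∑ h ∈ Icc (1 : ℤ) H, ‖S h‖) ^ 2 ≤ (H : ℝ) * ∑ h ∈ Icc (1 : ℤ) H, ‖S h‖ ^ 2 := by
    have h3 := sq_sum_le_card_mul_sum_sq (s := Icc (1 : ℤ) H) (f := fun h => ‖S h‖)
    have h4 : ((Icc (1 : ℤ) H).card : ℝ) = H := by
      rw [Int.card_Icc]
      have : ((H : ℤ) + 1 - 1).toNat = H := by omega
      rw [this]
    rwa [h4] at h3
  have e3 : ((∑ h ∈ Icc (1 : ℤ) H, ‖S h‖ ^ 2 : ℝ) : ℂ) =
      ∑ k ∈ Icc (-((2 * M : ℕ) : ℤ)) ((2 * M : ℕ) : ℤ), TT c H (dl k f0) (dl k f1) (dl k f2) := by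
    rw [Complex.ofReal_sum, sum_congr rfl fun h _ => sq (hE h)]
    unfold TT
    rw [sum_comm]
    refine sum_congr rfl fun k _ => sum_congr rfl fun h _ => tsum_congr fun n => ?_
    unfold dl
    rw [map_mul, map_mul]
    have i1 : n + k + h = n + h + k := by ring
    have i2 : n + k + pp c h = n + pp c h + k := by ring
    rw [i1, i2]
    ring
  have e4 : ∑ h ∈ Icc (1 : ℤ) H, ‖S h‖ ^ 2 ≤
      ∑ k ∈ Icc (-((2 * M : ℕ) : ℤ)) ((2 * M : ℕ) : ℤ),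
        ‖TT c H (dl k f0) (dl k f1) (dl k f2)‖ := by
    have h5 : 0 ≤ ∑ h ∈ Icc (1 : ℤ) H, ‖S h‖ ^ 2 := sum_nonneg fun h _ => by positivity
    calc ∑ h ∈ Icc (1 : ℤ) H, ‖S h‖ ^ 2 = ‖((∑ h ∈ Icc (1 : ℤ) H, ‖S h‖ ^ 2 : ℝ) : ℂ)‖ := by
          rw [Complex.norm_real, Real.norm_of_nonneg h5]
      _ ≤ _ := by
          rw [e3]
          exact norm_sum_le _ _
  calc ‖TW c H w f0 f1 f2‖ ^ 2 ≤ (∑ h ∈ Icc (1 : ℤ) H, ‖S h‖) ^ 2 :=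
        pow_le_pow_left₀ (norm_nonneg _) e1 2
    _ ≤ _ := e2
    _ ≤ _ := mul_le_mul_of_nonneg_left e4 (Nat.cast_nonneg H)

theorem dl_bd {M : ℕ} {f : ℤ → ℂ} (h : Bd M f) (k : ℤ) : Bd M (dl k f) := by
  refine ⟨fun n => ?_, fun n hn => ?_⟩
  · unfold dl
    rw [norm_mul, RCLike.norm_conj]
    exact mul_le_one₀ (h.1 n) (norm_nonneg _) (h.1 _)
  · unfold dl
    rw [h.2 n hn, zero_mul]

/-- the cardinality of an interval -/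
theorem two_mul_le {K H : ℕ} (hH : 1 ≤ H) (j : ℕ) :
    (j : ℝ) * ((K * H ^ 2 : ℕ) : ℝ) + 1 ≤ (j * K + 1) * (H : ℝ) ^ 2 := by
  have hH' : (1 : ℝ) ≤ H := by exact_mod_cast hH
  have : (1 : ℝ) ≤ (H : ℝ) ^ 2 := one_le_pow₀ hH'
  push_cast
  nlinarith

/-- the numbers -/
theorem num {K H : ℕ} {δ d F : ℝ} {a C1 C2 N3 C n1 n2 : ℕ} (hδ : 0 < δ) (hδ1 : δ ≤ 1 / 2)
    (hH : 1 ≤ H) (hd : d = δ ^ a) (hN3 : (8 * (2 * K + 1) ^ 2 : ℝ) * δ ^ N3 ≤ 1)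
    (hC : a * (C2 + 2 * C1) + 2 + N3 ≤ C) (hF : 0 ≤ F)
    (h1 : δ ^ 2 * (H : ℝ) ^ 5 / 2 ≤ n1 * ((2 * K + 1) * (H : ℝ) ^ 3))
    (h2 : d ^ C2 * n1 ≤ n2)
    (h3 : (n2 : ℝ) * (d ^ C1 * (H : ℝ) ^ 2 / 2) ^ 2 ≤ (2 * K + 1) * (H : ℝ) ^ 2 * F ^ 2) :
    δ ^ C * (H : ℝ) ^ 2 ≤ F := by
  have hH' : (1 : ℝ) ≤ H := by exact_mod_cast hH
  have hH0 : (0 : ℝ) < H := by linarith
  have hK : (0 : ℝ) < 2 * K + 1 := by positivity
  have hd0 : 0 < d := by rw [hd]; positivity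
  have h4 : δ ^ 2 * (H : ℝ) ^ 2 ≤ 2 * (2 * K + 1) * n1 := by
    have h5 : (δ ^ 2 * (H : ℝ) ^ 2) * (H : ℝ) ^ 3 ≤ (2 * (2 * K + 1) * n1) * (H : ℝ) ^ 3 := by
      nlinarith
    exact le_of_mul_le_mul_right h5 (by positivity)
  have h6 : (d ^ C2 * d ^ (2 * C1) * δ ^ 2) * (H : ℝ) ^ 4 ≤ 8 * (2 * K + 1) ^ 2 * F ^ 2 := by
    have h7 : d ^ C2 * n1 * (d ^ C1 * (H : ℝ) ^ 2 / 2) ^ 2 ≤ (2 * K + 1) * (H : ℝ) ^ 2 * F ^ 2 :=
      (mul_le_mul_of_nonneg_right h2 (by positivity)).trans h3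
    have h8 : d ^ C2 * (δ ^ 2 * (H : ℝ) ^ 2) * (d ^ C1 * (H : ℝ) ^ 2 / 2) ^ 2 ≤
        2 * (2 * K + 1) * ((2 * K + 1) * (H : ℝ) ^ 2 * F ^ 2) := by
      calc d ^ C2 * (δ ^ 2 * (H : ℝ) ^ 2) * (d ^ C1 * (H : ℝ) ^ 2 / 2) ^ 2
          ≤ d ^ C2 * (2 * (2 * K + 1) * n1) * (d ^ C1 * (H : ℝ) ^ 2 / 2) ^ 2 := by gcongr
        _ = 2 * (2 * K + 1) * (d ^ C2 * n1 * (d ^ C1 * (H : ℝ) ^ 2 / 2) ^ 2) := by ring
        _ ≤ _ := by gcongr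
    have h9 : ((d ^ C2 * d ^ (2 * C1) * δ ^ 2) * (H : ℝ) ^ 4) * (H : ℝ) ^ 2 ≤
        (8 * (2 * K + 1) ^ 2 * F ^ 2) * (H : ℝ) ^ 2 := by
      have e1 : d ^ C2 * (δ ^ 2 * (H : ℝ) ^ 2) * (d ^ C1 * (H : ℝ) ^ 2 / 2) ^ 2 =
          ((d ^ C2 * d ^ (2 * C1) * δ ^ 2) * (H : ℝ) ^ 4) * (H : ℝ) ^ 2 / 4 := by
        rw [mul_comm 2 C1, pow_mul]
        ring
      have e2 : 2 * (2 * (K : ℝ) + 1) * ((2 * K + 1) * (H : ℝ) ^ 2 * F ^ 2) =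
          (8 * (2 * K + 1) ^ 2 * F ^ 2) * (H : ℝ) ^ 2 / 4 := by ring
      rw [e1, e2] at h8
      linarith
    exact le_of_mul_le_mul_right h9 (by positivity)
  have h10 : (δ ^ C * (H : ℝ) ^ 2) ^ 2 ≤ F ^ 2 := by
    have e3 : δ ^ (C * 2) ≤ δ ^ (a * (C2 + 2 * C1) + 2 + N3) :=
      pow_le_pow_of_le_one hδ.le (by linarith) (by omega)
    have e4 : δ ^ (a * (C2 + 2 * C1) + 2 + N3) = d ^ C2 * d ^ (2 * C1) * δ ^ 2 * δ ^ N3 := by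
      rw [hd, ← pow_mul, ← pow_mul, ← pow_add, ← pow_add, ← pow_add]
      congr 1
      ring
    calc (δ ^ C * (H : ℝ) ^ 2) ^ 2 = δ ^ (C * 2) * (H : ℝ) ^ 4 := by
          rw [mul_pow, ← pow_mul, ← pow_mul]
      _ ≤ d ^ C2 * d ^ (2 * C1) * δ ^ 2 * δ ^ N3 * (H : ℝ) ^ 4 := by
          rw [← e4]
          gcongr
      _ = (d ^ C2 * d ^ (2 * C1) * δ ^ 2) * (H : ℝ) ^ 4 * δ ^ N3 := by ring
      _ ≤ (8 * (2 * K + 1) ^ 2 * F ^ 2) * δ ^ N3 := by gcongr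
      _ = (8 * (2 * K + 1) ^ 2 * δ ^ N3) * F ^ 2 := by ring
      _ ≤ 1 * F ^ 2 := by gcongr
      _ = F ^ 2 := one_mul _
  exact (pow_le_pow_iff_left₀ (by positivity) hF two_ne_zero).1 h10

end Inv2wx

open Inv2wx in
theorem thm_Inv2w (hI : St_Inv2) (hC : St_Cell) : St_Inv2w := by
  intro K
  obtain ⟨C1, hC1⟩ := hI K
  obtain ⟨N1, hN1⟩ := DL_exists_pow (2 * (4 * K + 1))
  obtain ⟨N2, hN2⟩ := DL_exists_pow (2 * ((2 * K + 1) * (2 * Real.pi * K)))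
  obtain ⟨N3, hN3⟩ := DL_exists_pow (8 * (2 * K + 1) ^ 2)
  obtain ⟨C2, hC2⟩ := hC C1 (C1 + N2)
  set a : ℕ := N1 + 2 with ha
  refine ⟨a * C1 + (a * (C2 + 2 * C1) + 2 + N3), fun H δ hR c hc w f0 f1 f2 hw h0 h1 h2 hT => ?_⟩
  have hH : 1 ≤ H := DL_H hR
  have hH' : (1 : ℝ) ≤ H := by exact_mod_cast hH
  obtain ⟨hδ, hδ1, -, -⟩ := id hR
  set d : ℝ := δ ^ a with hd
  have hRd : Rg C1 H d := DL_rg hR (by omega) (Nat.le_add_right _ _)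
  obtain ⟨hd0, hd1, -, -⟩ := id hRd
  set M : ℕ := K * H ^ 2 with hM
  set S : Finset ℤ := Icc (-((2 * M : ℕ) : ℤ)) ((2 * M : ℕ) : ℤ) with hS
  classical
  set P : ℤ → Prop := fun k => d * (H : ℝ) ^ 3 ≤ ‖TT c H (dl k f0) (dl k f1) (dl k f2)‖ with hP
  -- the good `k`
  have g1 : δ ^ 2 * (H : ℝ) ^ 5 ≤ ∑ k ∈ S, ‖TT c H (dl k f0) (dl k f1) (dl k f2)‖ := by
    have i1 := cs (H := H) c hw h0 h1 h2
    have i2 : (δ * (H : ℝ) ^ 3) ^ 2 ≤ ‖TW c H w f0 f1 f2‖ ^ 2 :=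
      pow_le_pow_left₀ (by positivity) hT 2
    have i3 : (H : ℝ) * (δ ^ 2 * (H : ℝ) ^ 5) ≤
        H * ∑ k ∈ S, ‖TT c H (dl k f0) (dl k f1) (dl k f2)‖ := by
      calc (H : ℝ) * (δ ^ 2 * (H : ℝ) ^ 5) = (δ * (H : ℝ) ^ 3) ^ 2 := by ring
        _ ≤ _ := i2.trans i1
    exact le_of_mul_le_mul_left i3 (by linarith)
  have g2 := DL_many S (fun k => ‖TT c H (dl k f0) (dl k f1) (dl k f2)‖) P
    ((2 * K + 1) * (H : ℝ) ^ 3) (d * (H : ℝ) ^ 3)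
    (fun k _ => DL_TT K H c _ _ _ hH (dl_bd h0 k) (dl_bd h1 k).1 (dl_bd h2 k).1)
    (fun k _ hk => (not_le.1 hk).le) (by positivity)
  have g3 : (S.card : ℝ) * (d * (H : ℝ) ^ 3) ≤ δ ^ 2 * (H : ℝ) ^ 5 / 2 := by
    have i1 : (S.card : ℝ) ≤ (4 * K + 1) * (H : ℝ) ^ 2 := by
      rw [hS, DL_card]
      have := two_mul_le (K := K) hH 4
      rw [← hM] at this
      push_cast at this ⊢
      linarith
    have i2 := hN1 δ hδ hδ1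
    have i3 : d = δ ^ N1 * δ ^ 2 := by rw [hd, ha, pow_add]
    calc (S.card : ℝ) * (d * (H : ℝ) ^ 3) ≤ ((4 * K + 1) * (H : ℝ) ^ 2) * (d * (H : ℝ) ^ 3) := by
          gcongr
      _ = (2 * (4 * K + 1) * δ ^ N1) * (δ ^ 2 * (H : ℝ) ^ 5 / 2) := by
          rw [i3]
          ring
      _ ≤ 1 * (δ ^ 2 * (H : ℝ) ^ 5 / 2) := mul_le_mul_of_nonneg_right i2 (by positivity)
      _ = _ := one_mul _
  have g4 : δ ^ 2 * (H : ℝ) ^ 5 / 2 ≤ ((S.filter P).card : ℝ) * ((2 * K + 1) * (H : ℝ) ^ 3) := by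
    linarith
  -- the frequencies
  have g5 : ∀ k ∈ S.filter P, ∃ α : ℝ, Mj C1 H d α ∧
      d ^ C1 * (H : ℝ) ^ 2 ≤ ‖∑' n : ℤ, dl k f2 n * ee (α * n)‖ := fun k hk =>
    hC1 H d hRd c hc _ _ _ (dl_bd h0 k) (dl_bd h1 k) (dl_bd h2 k) (mem_filter.1 hk).2
  choose! α hα using g5
  obtain ⟨θ, hθ⟩ := hC2 H d hH hd0 hd1 ℤ (S.filter P) α (fun k hk => (hα k hk).1)
  set T : Finset ℤ := (S.filter P).filter
    (fun i => nd (α i - θ) ≤ d ^ (C1 + N2) / (H : ℝ) ^ 2) with hT'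
  have g6 : ∀ k ∈ T, d ^ C1 * (H : ℝ) ^ 2 / 2 ≤ ‖∑' n : ℤ, dl k f2 n * ee (θ * n)‖ := by
    intro k hk
    rw [hT', mem_filter] at hk
    have i1 := (hα k hk.1).2
    have i2 := DL_diff M (dl k f2) (dl_bd h2 k) θ (α k) (α k - θ - round (α k - θ))
      (round (α k - θ)) (by ring)
    have i3 : |α k - θ - round (α k - θ)| ≤ d ^ (C1 + N2) / (H : ℝ) ^ 2 := hk.2
    have i4 : (2 * (M : ℝ) + 1) * (2 * Real.pi * |α k - θ - round (α k - θ)| * M) ≤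
        d ^ C1 * (H : ℝ) ^ 2 / 2 := by
      have i5 : 2 * (M : ℝ) + 1 ≤ (2 * K + 1) * (H : ℝ) ^ 2 := by
        have := two_mul_le (K := K) hH 2
        rw [← hM] at this
        push_cast at this ⊢
        linarith
      have i6 : (M : ℝ) = K * (H : ℝ) ^ 2 := by
        rw [hM]
        push_cast
        ring
      have i7 := hN2 d hd0 hd1
      have hpi := Real.pi_pos
      have hH2 : (0 : ℝ) < (H : ℝ) ^ 2 := by positivity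
      calc (2 * (M : ℝ) + 1) * (2 * Real.pi * |α k - θ - round (α k - θ)| * M)
          ≤ ((2 * K + 1) * (H : ℝ) ^ 2) *
            (2 * Real.pi * (d ^ (C1 + N2) / (H : ℝ) ^ 2) * (K * (H : ℝ) ^ 2)) := by
            rw [← i6]
            gcongr
        _ = (2 * ((2 * K + 1) * (2 * Real.pi * K)) * d ^ N2) * (d ^ C1 * (H : ℝ) ^ 2 / 2) := by
            rw [pow_add]
            field_simp
        _ ≤ 1 * (d ^ C1 * (H : ℝ) ^ 2 / 2) := mul_le_mul_of_nonneg_right i7 (by positivity)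
        _ = _ := one_mul _
    linarith
  -- the correlations
  have hG : Bd M (fun n => f2 n * ee (θ * n)) := by
    refine ⟨fun n => ?_, fun n hn => by simp only [h2.2 n hn, zero_mul]⟩
    rw [norm_mul, ee_norm, mul_one]
    exact h2.1 n
  obtain ⟨β, hβ⟩ := cross hG h2
  refine ⟨β, ?_⟩
  refine num (K := K) (H := H) (δ := δ) (d := d) (a := a) (C1 := C1) (C2 := C2) (N3 := N3)
    (n1 := (S.filter P).card) (n2 := T.card) hδ hδ1 hH hd (hN3 δ hδ hδ1) (Nat.le_add_left _ _)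
    (norm_nonneg _) g4 hθ ?_
  calc (T.card : ℝ) * (d ^ C1 * (H : ℝ) ^ 2 / 2) ^ 2
      = ∑ _k ∈ T, (d ^ C1 * (H : ℝ) ^ 2 / 2) ^ 2 := by rw [sum_const, nsmul_eq_mul]
    _ ≤ ∑ k ∈ T, ‖∑' n : ℤ, dl k f2 n * ee (θ * n)‖ ^ 2 :=
        sum_le_sum fun k hk => pow_le_pow_left₀ (by positivity) (g6 k hk) 2
    _ ≤ ∑ k ∈ S, ‖∑' n : ℤ, dl k f2 n * ee (θ * n)‖ ^ 2 := by
        refine sum_le_sum_of_subset_of_nonneg ?_ fun k _ _ => by positivity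
        exact (filter_subset _ _).trans (filter_subset _ _)
    _ = ∑ k ∈ S, ‖∑' n : ℤ, f2 n * ee (θ * n) * conj (f2 (n + k))‖ ^ 2 := by
        refine sum_congr rfl fun k _ => ?_
        congr 2
        refine tsum_congr fun n => ?_
        unfold dl
        ring
    _ ≤ (2 * M + 1) * ‖∑' n : ℤ, f2 n * ee (β * n)‖ ^ 2 := hβ
    _ ≤ (2 * K + 1) * (H : ℝ) ^ 2 * ‖∑' n : ℤ, f2 n * ee (β * n)‖ ^ 2 := by
        have i5 : 2 * (M : ℝ) + 1 ≤ (2 * K + 1) * (H : ℝ) ^ 2 := by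
          have := two_mul_le (K := K) hH 2
          rw [← hM] at this
          push_cast at this ⊢
          linarith
        gcongr

end Pool.Agent.NRP
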