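import Pool.Agent.NRP.StI

set_option autoImplicit false

/-!
# NRP: linear forms (module Lf)
-/

namespace Pool.Agent.NRP

open Finset
open scoped ComplexConjugate

namespace Lfx

theorem bd_dl {A : ℕ} {f : ℤ → ℂ} (hf : Bd A f) (D : ℤ) : Bd A (dl D f) := by
  refine ⟨fun n => ?_, fun n hn => ?_⟩
  · rw [dl, norm_mul, RCLike.norm_conj]
    exact mul_le_one₀ (hf.1 _) (norm_nonneg _) (hf.1 _)
  · rw [dl, hf.2 n hn, zero_mul]

theorem supp_bd {A : ℕ} {f : ℤ → ℂ} (hf : Bd A f) : f.support ⊆ ((Icc (-(A : ℤ)) A : Finset ℤ) : Set ℤ) := by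
  intro n hn
  by_contra h
  apply hn
  apply hf.2
  simp only [coe_Icc, Set.mem_Icc, not_and_or, not_le] at h
  rcases h with h | h
  · rw [abs_of_neg (by omega)]
    omega
  · exact lt_of_lt_of_le h (le_abs_self n)

theorem summable_of {f : ℤ → ℂ} (h : f.support.Finite) : Summable f :=
  summable_of_finite_support h

theorem fin_bd {A : ℕ} {f : ℤ → ℂ} (hf : Bd A f) : f.support.Finite :=
  (Icc (-(A : ℤ)) A : Finset ℤ).finite_toSet.subset (supp_bd hf)

theorem fin_shift {f : ℤ → ℂ} (h : f.support.Finite) (a : ℤ) :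
    (fun x => f (x - a)).support.Finite := by
  refine (h.image (fun x => x + a)).subset ?_
  intro x hx
  exact ⟨x - a, hx, by ring⟩

theorem fin_mul_left {f g : ℤ → ℂ} (h : f.support.Finite) : (fun x => f x * g x).support.Finite := by
  refine h.subset ?_
  intro x hx h0
  apply hx
  show f x * g x = 0
  rw [h0, zero_mul]

theorem fin_sum {ι : Type} (B : Finset ι) (F : ι → ℤ → ℂ) (h : ∀ w ∈ B, (F w).support.Finite) :
    (fun x => ∑ w ∈ B, F w x).support.Finite := by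
  refine (Set.Finite.biUnion B.finite_toSet (t := fun w => (F w).support) (fun w hw => h w hw)).subset ?_
  intro x hx
  by_contra hne
  apply hx
  apply Finset.sum_eq_zero
  intro w hw
  by_contra h0
  apply hne
  simp only [Set.mem_iUnion]
  exact ⟨w, hw, h0⟩

theorem tsum_shift (f : ℤ → ℂ) (a : ℤ) : ∑' x, f (x - a) = ∑' x, f x :=
  (Equiv.subRight a).tsum_eq f

/-- Cauchy and Schwarz with a bounded function of bounded support -/
theorem cs {A : ℕ} {g : ℤ → ℂ} (hg : Bd A g) (G : ℤ → ℂ) (hG : G.support.Finite) :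
    ‖∑' x, g x * G x‖ ^ 2 ≤ (2 * (A : ℝ) + 1) * ∑' x, ‖G x‖ ^ 2 := by
  have h1 : ∑' x, g x * G x = ∑ x ∈ Icc (-(A : ℤ)) A, g x * G x := by
    apply tsum_eq_sum
    intro x hx
    have : g x = 0 := by
      by_contra h0
      exact hx (supp_bd hg h0)
    rw [this, zero_mul]
  have h2 : ‖∑' x, g x * G x‖ ≤ ∑ x ∈ Icc (-(A : ℤ)) A, ‖G x‖ := by
    rw [h1]
    refine (norm_sum_le _ _).trans (Finset.sum_le_sum fun x _ => ?_)
    rw [norm_mul]
    calc ‖g x‖ * ‖G x‖ ≤ 1 * ‖G x‖ := mul_le_mul_of_nonneg_right (hg.1 x) (norm_nonneg _)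
      _ = ‖G x‖ := one_mul _
  have hcard : ((Icc (-(A : ℤ)) A).card : ℝ) = 2 * A + 1 := by
    rw [Int.card_Icc]
    have : ((A : ℤ) + 1 - -(A : ℤ)).toNat = 2 * A + 1 := by omega
    rw [this]
    push_cast
    ring
  have hsum : Summable fun x => ‖G x‖ ^ 2 := by
    apply summable_of_finite_support
    refine hG.subset ?_
    intro x hx h0
    apply hx
    show ‖G x‖ ^ 2 = 0
    rw [h0, norm_zero]
    norm_num
  calc ‖∑' x, g x * G x‖ ^ 2 ≤ (∑ x ∈ Icc (-(A : ℤ)) A, ‖G x‖) ^ 2 :=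
        pow_le_pow_left₀ (norm_nonneg _) h2 2
    _ ≤ ((Icc (-(A : ℤ)) A).card : ℝ) * ∑ x ∈ Icc (-(A : ℤ)) A, ‖G x‖ ^ 2 := sq_sum_le_card_mul_sum_sq
    _ ≤ (2 * (A : ℝ) + 1) * ∑' x, ‖G x‖ ^ 2 := by
        rw [hcard]
        refine mul_le_mul_of_nonneg_left ?_ (by positivity)
        exact hsum.sum_le_tsum _ fun x _ => by positivity

/-- The square of a sum over `B`, by differences. -/
theorem sum_diff {V : Type} [AddCommGroup V] [DecidableEq V] (Δ B : Finset V)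
    (hB : ∀ v ∈ B, ∀ w ∈ B, w - v ∈ Δ) (h : V → V → ℂ) :
    ∑ w ∈ B, ∑ w' ∈ B, h w w' = ∑ v ∈ Δ, ∑ w ∈ B.filter (fun w => w + v ∈ B), h w (w + v) := by
  have h1 : ∀ w ∈ B, ∑ w' ∈ B, h w w' = ∑ v ∈ Δ, if w + v ∈ B then h w (w + v) else 0 := by
    intro w hw
    rw [← Finset.sum_filter]
    symm
    refine Finset.sum_bij (fun v _ => w + v) ?_ ?_ ?_ ?_
    · intro v hv
      exact (Finset.mem_filter.1 hv).2
    · intro v _ v' _ he
      exact add_left_cancel he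
    · intro w' hw'
      refine ⟨w' - w, ?_, by abel⟩
      rw [Finset.mem_filter]
      refine ⟨hB w hw w' hw', ?_⟩
      have : w + (w' - w) = w' := by abel
      rw [this]
      exact hw'
    · intro v _
      rfl
  rw [Finset.sum_congr rfl h1, Finset.sum_comm]
  refine Finset.sum_congr rfl fun v _ => ?_
  rw [Finset.sum_filter]

theorem pow_mean {ι : Type} (s : Finset ι) (a : ι → ℝ) (ha : ∀ i ∈ s, 0 ≤ a i) (k : ℕ) :
    (∑ i ∈ s, a i) ^ (k + 1) ≤ (s.card : ℝ) ^ k * ∑ i ∈ s, a i ^ (k + 1) := by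
  rcases s.eq_empty_or_nonempty with rfl | hs
  · simp
  · have h1 := pow_sum_div_card_le_sum_pow (s := s) (f := a) (n := k) ha
    have h2 : (0 : ℝ) < (s.card : ℝ) ^ k := by
      have : 0 < s.card := Finset.card_pos.2 hs
      positivity
    rwa [div_le_iff₀ h2, mul_comm] at h1

theorem card_le {V : Type} [AddCommGroup V] [DecidableEq V] (Δ B : Finset V)
    (hB : ∀ v ∈ B, ∀ w ∈ B, w - v ∈ Δ) : B.card ≤ Δ.card := by
  rcases B.eq_empty_or_nonempty with rfl | ⟨b, hb⟩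
  · simp
  · refine Finset.card_le_card_of_injOn (fun w => w - b) (fun w hw => hB b hb w hw) ?_
    intro w _ w' _ he
    exact sub_left_injective he

theorem dsm_nonneg {V : Type} [AddCommGroup V] (Δ : Finset V) (l : List (V →+ ℤ)) (f : ℤ → ℂ) :
    0 ≤ dsm Δ l f := by
  induction l generalizing f with
  | nil => exact norm_nonneg _
  | cons M l ih => exact Finset.sum_nonneg fun v _ => ih _

/-- the expansion of the square -/
theorem expand {V : Type} [AddCommGroup V] [DecidableEq V] (Δ B : Finset V) (A : ℕ) (f : ℤ → ℂ)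
    (M : V →+ ℤ) (l : List ((V →+ ℤ) × (ℤ → ℂ))) (hB : ∀ v ∈ B, ∀ w ∈ B, w - v ∈ Δ) (hf : Bd A f) :
    ∑' x, ‖∑ w ∈ B, f (x - M w) * (l.map (fun g => g.2 (x - M w + g.1 w))).prod‖ ^ 2 ≤
      ∑ v ∈ Δ, ‖∑ w ∈ B.filter (fun w => w + v ∈ B), ∑' n : ℤ, dl (-(M v)) f n *
        ((l.map (fun g => (g.1, dl ((g.1 - M) v) g.2))).map (fun g => g.2 (n + g.1 w))).prod‖ := by
  set F : V → ℤ → ℂ := fun w x => f (x - M w) * (l.map (fun g => g.2 (x - M w + g.1 w))).prod with hF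
  have hFfin : ∀ w, (F w).support.Finite := fun w =>
    fin_mul_left (fin_shift (fin_bd hf) (M w))
  have hFF : ∀ w w', (fun x => F w x * conj (F w' x)).support.Finite := fun w w' =>
    fin_mul_left (hFfin w)
  have h1 : ((∑' x, ‖∑ w ∈ B, F w x‖ ^ 2 : ℝ) : ℂ) =
      ∑ v ∈ Δ, ∑ w ∈ B.filter (fun w => w + v ∈ B), ∑' x, F w x * conj (F (w + v) x) := by
    rw [← sum_diff Δ B hB (fun w w' => ∑' x, F w x * conj (F w' x)), Complex.ofReal_tsum]
    have h2 : ∀ x, ((‖∑ w ∈ B, F w x‖ ^ 2 : ℝ) : ℂ) = ∑ w ∈ B, ∑ w' ∈ B, F w x * conj (F w' x) := by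
      intro x
      rw [← Complex.normSq_eq_norm_sq, ← Complex.mul_conj, map_sum, Finset.sum_mul_sum]
    rw [tsum_congr h2]
    rw [Summable.tsum_finsetSum]
    · refine Finset.sum_congr rfl fun w _ => ?_
      rw [Summable.tsum_finsetSum]
      intro w' _
      exact summable_of (hFF w w')
    · intro w _
      exact summable_of (fin_sum B (fun w' x => F w x * conj (F w' x)) fun w' _ => hFF w w')
  have h3 : ∀ v w, ∑' x, F w x * conj (F (w + v) x) = ∑' n : ℤ, dl (-(M v)) f n *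
        ((l.map (fun g => (g.1, dl ((g.1 - M) v) g.2))).map (fun g => g.2 (n + g.1 w))).prod := by
    intro v w
    rw [← tsum_shift (fun n : ℤ => dl (-(M v)) f n *
        ((l.map (fun g => (g.1, dl ((g.1 - M) v) g.2))).map (fun g => g.2 (n + g.1 w))).prod) (M w)]
    refine tsum_congr fun x => ?_
    simp only [hF]
    rw [List.map_map, map_mul, map_list_prod, List.map_map, dl]
    have e1 : x - M (w + v) = x - M w + -(M v) := by
      rw [map_add]
      ring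
    rw [e1]
    have e2 : (l.map ((fun g : (V →+ ℤ) × (ℤ → ℂ) => g.2 (x - M w + g.1 w)) ∘
        fun g => (g.1, dl ((g.1 - M) v) g.2))).prod =
        (l.map (fun g => g.2 (x - M w + g.1 w))).prod *
          (l.map (⇑(starRingEnd ℂ) ∘ fun g : (V →+ ℤ) × (ℤ → ℂ) =>
            g.2 (x - M w + -(M v) + g.1 (w + v)))).prod := by
      rw [← List.prod_map_mul]
      congr 1
      refine List.map_congr_left fun g _ => ?_
      simp only [Function.comp_apply, dl]
      congr 3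
      rw [map_add, AddMonoidHom.sub_apply]
      ring
    rw [e2]
    ring
  have h4 : ((∑' x, ‖∑ w ∈ B, F w x‖ ^ 2 : ℝ) : ℂ) =
      ∑ v ∈ Δ, ∑ w ∈ B.filter (fun w => w + v ∈ B), ∑' n : ℤ, dl (-(M v)) f n *
        ((l.map (fun g => (g.1, dl ((g.1 - M) v) g.2))).map (fun g => g.2 (n + g.1 w))).prod := by
    rw [h1]
    exact Finset.sum_congr rfl fun v _ => Finset.sum_congr rfl fun w _ => h3 v w
  have h5 : 0 ≤ ∑' x, ‖∑ w ∈ B, F w x‖ ^ 2 := tsum_nonneg fun x => by positivity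
  calc ∑' x, ‖∑ w ∈ B, F w x‖ ^ 2 = ‖((∑' x, ‖∑ w ∈ B, F w x‖ ^ 2 : ℝ) : ℂ)‖ := by
        rw [Complex.norm_real, Real.norm_eq_abs, abs_of_nonneg h5]
    _ ≤ _ := by
        rw [h4]
        exact norm_sum_le _ _

end Lfx

open Lfx

theorem Lfx.main (V : Type) [AddCommGroup V] [DecidableEq V] (Δ : Finset V) (A : ℕ)
    (hΔ : ∀ v ∈ Δ, -v ∈ Δ) : ∀ (m : ℕ) (l : List ((V →+ ℤ) × (ℤ → ℂ))), l.length = m →
    ∀ (B : Finset V) (f : ℤ → ℂ), (∀ v ∈ B, ∀ w ∈ B, w - v ∈ Δ) → Bd A f → (∀ g ∈ l, Bd A g.2) →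
    ‖∑ w ∈ B, ∑' n : ℤ, f n * (l.map (fun g => g.2 (n + g.1 w))).prod‖ ^ (2 ^ m) ≤
    (2 * (A : ℝ) + 1) ^ (2 ^ m - 1) * (Δ.card : ℝ) ^ (2 ^ m - m) * dsm Δ (l.map Prod.fst) f := by
  intro m
  induction m with
  | zero =>
    intro l hm B f hB hf hl
    obtain rfl := List.length_eq_zero_iff.1 hm
    simp only [pow_zero, pow_one, List.map_nil, List.prod_nil, mul_one, Nat.sub_self,
      Nat.sub_zero, one_mul, dsm, Finset.sum_const, nsmul_eq_mul, norm_mul, Complex.norm_natCast]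
    exact mul_le_mul_of_nonneg_right (by exact_mod_cast card_le Δ B hB) (norm_nonneg _)
  | succ m ih =>
    intro l0 hm0 B f hB hf hl0
    obtain ⟨⟨M, g⟩, l, rfl⟩ : ∃ p l, l0 = p :: l := by
      cases l0 with
      | nil => simp at hm0
      | cons p l => exact ⟨p, l, rfl⟩
    have hm : l.length = m := by simpa using hm0
    have hg : Bd A g := hl0 (M, g) (by simp)
    have hl' : ∀ q ∈ l, Bd A q.2 := fun q hq => hl0 q (List.mem_cons_of_mem _ hq)
    set G : ℤ → ℂ := fun x => ∑ w ∈ B, f (x - M w) * (l.map (fun g => g.2 (x - M w + g.1 w))).prod with hG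
    have hGfin : G.support.Finite :=
      fin_sum B (fun w x => f (x - M w) * (l.map (fun g => g.2 (x - M w + g.1 w))).prod)
        fun w _ => fin_mul_left (fin_shift (fin_bd hf) (M w))
    -- the change of variables
    have h1 : ∑ w ∈ B, ∑' n : ℤ, f n * (((M, g) :: l).map (fun g => g.2 (n + g.1 w))).prod =
        ∑' x, g x * G x := by
      have h2 : ∀ w, ∑' n : ℤ, f n * (((M, g) :: l).map (fun g => g.2 (n + g.1 w))).prod =
          ∑' x, g x * (f (x - M w) * (l.map (fun g => g.2 (x - M w + g.1 w))).prod) := by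
        intro w
        rw [← tsum_shift (fun n : ℤ => f n * (((M, g) :: l).map (fun g => g.2 (n + g.1 w))).prod) (M w)]
        refine tsum_congr fun x => ?_
        rw [List.map_cons, List.prod_cons]
        simp only [sub_add_cancel]
        ring
      rw [Finset.sum_congr rfl fun w _ => h2 w, ← Summable.tsum_finsetSum]
      · refine tsum_congr fun x => ?_
        rw [hG, Finset.mul_sum]
      · intro w _
        exact summable_of (fin_mul_left (fin_bd hg))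
    -- the bound for each `v`
    set T : V → ℂ := fun v => ∑ w ∈ B.filter (fun w => w + v ∈ B), ∑' n : ℤ, dl (-(M v)) f n *
        ((l.map (fun g => (g.1, dl ((g.1 - M) v) g.2))).map (fun g => g.2 (n + g.1 w))).prod with hT
    have h3 : ∀ v, ‖T v‖ ^ (2 ^ m) ≤ (2 * (A : ℝ) + 1) ^ (2 ^ m - 1) * (Δ.card : ℝ) ^ (2 ^ m - m) *
        dsm Δ (l.map Prod.fst) (dl (-(M v)) f) := by
      intro v
      have h4 := ih (l.map (fun g => (g.1, dl ((g.1 - M) v) g.2))) (by rw [List.length_map, hm])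
        (B.filter (fun w => w + v ∈ B)) (dl (-(M v)) f)
        (fun a ha b hb => hB a (Finset.mem_filter.1 ha).1 b (Finset.mem_filter.1 hb).1)
        (bd_dl hf _) (fun q hq => by
          obtain ⟨q', hq', rfl⟩ := List.mem_map.1 hq
          exact bd_dl (hl' q' hq') _)
      rw [List.map_map] at h4
      exact h4
    have h5 : ‖∑ w ∈ B, ∑' n : ℤ, f n * (((M, g) :: l).map (fun g => g.2 (n + g.1 w))).prod‖ ^ 2 ≤
        (2 * (A : ℝ) + 1) * ∑ v ∈ Δ, ‖T v‖ := by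
      rw [h1]
      refine (cs hg G hGfin).trans ?_
      exact mul_le_mul_of_nonneg_left (expand Δ B A f M l hB hf) (by positivity)
    have h6 : ∑ v ∈ Δ, dsm Δ (l.map Prod.fst) (dl (-(M v)) f) =
        ∑ v ∈ Δ, dsm Δ (l.map Prod.fst) (dl (M v) f) := by
      refine Finset.sum_bij (fun v _ => -v) (fun v hv => hΔ v hv) (fun v _ v' _ he => neg_injective he)
        (fun v hv => ⟨-v, hΔ v hv, neg_neg v⟩) (fun v _ => ?_)
      rw [map_neg]
    have hpos : 1 ≤ 2 ^ m := Nat.one_le_two_pow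
    have hmlt : m < 2 ^ m := Nat.lt_two_pow_self
    obtain ⟨k, hk⟩ : ∃ k, 2 ^ m = k + 1 := ⟨2 ^ m - 1, by omega⟩
    have h7 : (∑ v ∈ Δ, ‖T v‖) ^ (2 ^ m) ≤ (Δ.card : ℝ) ^ (2 ^ m - 1) * ∑ v ∈ Δ, ‖T v‖ ^ (2 ^ m) := by
      rw [hk]
      exact pow_mean Δ (fun v => ‖T v‖) (fun v _ => norm_nonneg _) k
    have e1 : 2 ^ (m + 1) - 1 = 2 ^ m + (2 ^ m - 1) := by
      rw [pow_succ]
      omega
    have e2 : 2 ^ (m + 1) - (m + 1) = (2 ^ m - 1) + (2 ^ m - m) := by
      rw [pow_succ]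
      omega
    calc ‖∑ w ∈ B, ∑' n : ℤ, f n * (((M, g) :: l).map (fun g => g.2 (n + g.1 w))).prod‖ ^ (2 ^ (m + 1))
        = (‖∑ w ∈ B, ∑' n : ℤ, f n * (((M, g) :: l).map (fun g => g.2 (n + g.1 w))).prod‖ ^ 2) ^ (2 ^ m) := by
          rw [← pow_mul, pow_succ, mul_comm]
      _ ≤ ((2 * (A : ℝ) + 1) * ∑ v ∈ Δ, ‖T v‖) ^ (2 ^ m) := pow_le_pow_left₀ (by positivity) h5 _
      _ = (2 * (A : ℝ) + 1) ^ (2 ^ m) * (∑ v ∈ Δ, ‖T v‖) ^ (2 ^ m) := mul_pow _ _ _
      _ ≤ (2 * (A : ℝ) + 1) ^ (2 ^ m) * ((Δ.card : ℝ) ^ (2 ^ m - 1) * ∑ v ∈ Δ, ‖T v‖ ^ (2 ^ m)) :=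
          mul_le_mul_of_nonneg_left h7 (by positivity)
      _ ≤ (2 * (A : ℝ) + 1) ^ (2 ^ m) * ((Δ.card : ℝ) ^ (2 ^ m - 1) *
            ∑ v ∈ Δ, (2 * (A : ℝ) + 1) ^ (2 ^ m - 1) * (Δ.card : ℝ) ^ (2 ^ m - m) *
              dsm Δ (l.map Prod.fst) (dl (-(M v)) f)) := by
          refine mul_le_mul_of_nonneg_left ?_ (by positivity)
          exact mul_le_mul_of_nonneg_left (Finset.sum_le_sum fun v _ => h3 v) (by positivity)
      _ = _ := by
          rw [← Finset.mul_sum, h6, e1, e2, pow_add, pow_add]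
          simp only [List.map_cons, dsm]
          ring

theorem thm_Lf : St_Lf := by
  intro V _ _ Δ B A f l hΔ hB hf hl
  exact Lfx.main V Δ A hΔ l.length l rfl B f hB hf hl

end Pool.Agent.NRP
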