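import Mathlib
import Pool.Agent.NRP.StI

set_option autoImplicit false

/-! # NRP, module Low: the dual function has a large Fourier coefficient -/

namespace Pool.Agent.NRP

open Finset
open Pool.Agent.GBQ (ee nd)
open scoped ComplexConjugate

theorem low_Rg_mono {N N' H : ℕ} {δ : ℝ} (h : N' ≤ N) (hR : Rg N H δ) : Rg N' H δ := by
  obtain ⟨h1, h2, h3, h4⟩ := hR
  refine ⟨h1, h2, h3, h4.trans ?_⟩
  have h5 : δ ^ N ≤ δ ^ N' := pow_le_pow_of_le_one h1.le (by linarith) h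
  exact mul_le_mul_of_nonneg_right h5 (Nat.cast_nonneg H)

theorem low_Rg_pow {E C H : ℕ} {δ : ℝ} (hE : 1 ≤ E) (hR : Rg (E * C) H δ) : Rg C H (δ ^ E) := by
  obtain ⟨h1, h2, h3, h4⟩ := hR
  have h5 : δ ^ E ≤ δ := by
    calc δ ^ E ≤ δ ^ 1 := pow_le_pow_of_le_one h1.le (by linarith) hE
      _ = δ := pow_one δ
  have hlog : 0 ≤ 1 + Real.log (H : ℝ) := by
    have := Real.log_natCast_nonneg H
    linarith
  refine ⟨pow_pos h1 E, h5.trans h2, (mul_le_mul_of_nonneg_right h5 hlog).trans h3, ?_⟩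
  rw [← pow_mul]
  exact h4

theorem low_Mj_mono {N N' H : ℕ} {δ θ : ℝ} (h0 : 0 < δ) (h1 : δ ≤ 1) (h : N ≤ N')
    (hM : Mj N H δ θ) : Mj N' H δ θ := by
  obtain ⟨q, hq, hq1, hq2⟩ := hM
  have h2 : (1 : ℝ) ≤ 1 / δ := by
    rw [le_div_iff₀ h0]
    linarith
  have h3 : (1 / δ) ^ N ≤ (1 / δ) ^ N' := pow_le_pow_right₀ h2 h
  refine ⟨q, hq, hq1.trans h3, hq2.trans ?_⟩
  exact div_le_div_of_nonneg_right h3 (by positivity)

/-- `δ * H^20 ≤ UU 8` implies a lower bound for `UU m` -/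
def LowP (K m : ℕ) : Prop := ∃ E N : ℕ, 1 ≤ E ∧ ∀ (H : ℕ) (δ : ℝ), Rg N H δ → ∀ c : ℤ,
  (c = 0 ∨ c = 1) → ∀ f0 f1 : ℤ → ℂ, Bd (K * H ^ 2) f0 → Bd (K * H ^ 2) f1 →
  δ * (H : ℝ) ^ 20 ≤ UU 8 (2 * (K + 2) * H ^ 2) (dualF c H f0 f1) →
  δ ^ E * (H : ℝ) ^ (2 * m + 4) ≤ UU m (2 * (K + 2) * H ^ 2) (dualF c H f0 f1)

theorem low_eight (K : ℕ) : LowP K 8 := by
  refine ⟨1, 0, le_refl 1, ?_⟩
  intro H δ _ c _ f0 f1 _ _ h
  rw [pow_one]
  exact h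

theorem low_step (hD : St_DL) (K m : ℕ) (hm : 1 ≤ m) (hP : LowP K (m + 1)) : LowP K m := by
  obtain ⟨E, N, hE, hP⟩ := hP
  obtain ⟨C, hC⟩ := hD K m hm
  refine ⟨E * C + 1, N + E * C, by omega, ?_⟩
  intro H δ hR c hc f0 f1 hf0 hf1 h
  have h1 := hP H δ (low_Rg_mono (by omega) hR) c hc f0 f1 hf0 hf1 h
  have h2 : Rg C H (δ ^ E) := low_Rg_pow hE (low_Rg_mono (by omega) hR)
  have h3 := hC H (δ ^ E) h2 c hc f0 f1 hf0 hf1 (by
    have e : 2 * (m + 1) + 4 = 2 * m + 6 := by ring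
    rw [e] at h1
    exact h1)
  refine le_trans ?_ h3
  rw [← pow_mul]
  have h4 : δ ^ (E * C + 1) ≤ δ ^ (E * C) :=
    pow_le_pow_of_le_one hR.1.le (by linarith [hR.2.1]) (by omega)
  exact mul_le_mul_of_nonneg_right h4 (by positivity)

theorem low_one (hD : St_DL) (K : ℕ) : LowP K 1 :=
  low_step hD K 1 (by norm_num) (low_step hD K 2 (by norm_num) (low_step hD K 3 (by norm_num)
    (low_step hD K 4 (by norm_num) (low_step hD K 5 (by norm_num) (low_step hD K 6 (by norm_num)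
      (low_step hD K 7 (by norm_num) (low_eight K)))))))

theorem low_summable {M : ℕ} {f : ℤ → ℂ} (hf : ∀ n : ℤ, (M : ℤ) < |n| → f n = 0) (t : ℤ)
    (g : ℤ → ℂ) : Summable (fun n : ℤ => f (n - t) * g n) := by
  apply summable_of_ne_finset_zero (s := Icc (-(M : ℤ) + t) (M + t))
  intro n hn
  have h : (M : ℤ) < |n - t| := by
    by_contra hc
    rw [not_lt, abs_le] at hc
    apply hn
    rw [mem_Icc]
    constructor <;> linarith [hc.1, hc.2]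
  rw [hf _ h, zero_mul]

/-- the trilinear sum with an additive character in the third place is a Fourier coefficient of the
dual function -/
theorem low_TT (c : ℤ) (H M : ℕ) (f0 f1 : ℤ → ℂ) (hH : 1 ≤ H) (hf0 : Bd M f0) (α : ℝ) :
    conj (TT c H f0 f1 (fun n => ee (-α * n))) = H * ∑' n : ℤ, dualF c H f0 f1 n * ee (α * n) := by
  have hH0 : (H : ℂ) ≠ 0 := by
    have : H ≠ 0 := by omega
    exact_mod_cast this
  have h1 : ∀ h : ℤ, conj (∑' n : ℤ, f0 n * f1 (n + h) * ee (-α * ((n + pp c h : ℤ) : ℝ))) =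
      ∑' x : ℤ, Fh c f0 f1 h x * ee (α * x) := by
    intro h
    rw [Complex.conj_tsum]
    rw [← Equiv.tsum_eq (Equiv.addRight (pp c h)) (fun x : ℤ => Fh c f0 f1 h x * ee (α * x))]
    apply tsum_congr
    intro n
    simp only [Equiv.coe_addRight, Fh, add_sub_cancel_right]
    rw [map_mul, neg_mul, Pool.Agent.GBQ.ee_neg, Complex.conj_conj]
  have h2 : conj (TT c H f0 f1 (fun n => ee (-α * n))) =
      ∑ h ∈ Icc (1 : ℤ) H, ∑' x : ℤ, Fh c f0 f1 h x * ee (α * x) := by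
    unfold TT
    rw [map_sum]
    exact sum_congr rfl fun h _ => h1 h
  have hs : ∀ h ∈ Icc (1 : ℤ) H, Summable (fun x : ℤ => Fh c f0 f1 h x * ee (α * x)) := by
    intro h _
    have h3 := low_summable (M := M) (f := fun n => conj (f0 n))
      (fun n hn => by rw [hf0.2 n hn, map_zero]) (pp c h)
      (fun x => conj (f1 (x - pp c h + h)) * ee (α * x))
    refine h3.congr fun x => ?_
    simp only [Fh, map_mul]
    ring
  rw [h2, ← Summable.tsum_finsetSum hs, ← tsum_mul_left]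
  apply tsum_congr
  intro x
  unfold dualF
  rw [← sum_mul]
  field_simp

theorem low_ineq {E A K H : ℕ} {δ s : ℝ} (hδ : 0 < δ) (hδ2 : δ ≤ 1 / 2) (hH : 1 ≤ H) (hs : 0 ≤ s)
    (hA : 2 * K + 5 ≤ 2 ^ A)
    (h : δ ^ E * (H : ℝ) ^ 6 ≤ (2 * (((K + 2) * H ^ 2 : ℕ) : ℝ) + 1) * s ^ 2) :
    δ ^ (E + A) * (H : ℝ) ^ 2 ≤ s := by
  have hH1 : (1 : ℝ) ≤ H := by exact_mod_cast hH
  have hH2 : (1 : ℝ) ≤ (H : ℝ) ^ 2 := one_le_pow₀ hH1
  have hHp : (0 : ℝ) < (H : ℝ) ^ 2 := by positivity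
  have hAr : (2 * (K : ℝ) + 5) ≤ 2 ^ A := by exact_mod_cast hA
  have h1 : (2 * (((K + 2) * H ^ 2 : ℕ) : ℝ) + 1) ≤ 2 ^ A * (H : ℝ) ^ 2 := by
    push_cast
    nlinarith
  have h2 : δ ^ A * 2 ^ A ≤ 1 := by
    rw [← mul_pow]
    exact pow_le_one₀ (by positivity) (by linarith)
  have h3 : δ ^ E * (H : ℝ) ^ 6 ≤ 2 ^ A * (H : ℝ) ^ 2 * s ^ 2 :=
    h.trans (mul_le_mul_of_nonneg_right h1 (by positivity))
  have h4 : δ ^ (E + A) * (H : ℝ) ^ 6 ≤ (H : ℝ) ^ 2 * s ^ 2 := by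
    calc δ ^ (E + A) * (H : ℝ) ^ 6 = δ ^ A * (δ ^ E * (H : ℝ) ^ 6) := by rw [pow_add]; ring
      _ ≤ δ ^ A * (2 ^ A * (H : ℝ) ^ 2 * s ^ 2) := mul_le_mul_of_nonneg_left h3 (by positivity)
      _ = (δ ^ A * 2 ^ A) * ((H : ℝ) ^ 2 * s ^ 2) := by ring
      _ ≤ 1 * ((H : ℝ) ^ 2 * s ^ 2) := mul_le_mul_of_nonneg_right h2 (by positivity)
      _ = (H : ℝ) ^ 2 * s ^ 2 := one_mul _
  have h5 : δ ^ (E + A) * (H : ℝ) ^ 4 ≤ s ^ 2 := by
    have h6 : (H : ℝ) ^ 2 * (δ ^ (E + A) * (H : ℝ) ^ 4) ≤ (H : ℝ) ^ 2 * s ^ 2 := by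
      calc (H : ℝ) ^ 2 * (δ ^ (E + A) * (H : ℝ) ^ 4) = δ ^ (E + A) * (H : ℝ) ^ 6 := by ring
        _ ≤ _ := h4
    exact le_of_mul_le_mul_left h6 hHp
  have h7 : (δ ^ (E + A) * (H : ℝ) ^ 2) ^ 2 ≤ s ^ 2 := by
    refine le_trans ?_ h5
    have h8 : δ ^ (E + A) * δ ^ (E + A) ≤ δ ^ (E + A) * 1 :=
      mul_le_mul_of_nonneg_left (pow_le_one₀ hδ.le (by linarith)) (by positivity)
    calc (δ ^ (E + A) * (H : ℝ) ^ 2) ^ 2 = (δ ^ (E + A) * δ ^ (E + A)) * (H : ℝ) ^ 4 := by ring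
      _ ≤ (δ ^ (E + A) * 1) * (H : ℝ) ^ 4 := mul_le_mul_of_nonneg_right h8 (by positivity)
      _ = δ ^ (E + A) * (H : ℝ) ^ 4 := by rw [mul_one]
  exact le_of_sq_le_sq h7 hs

theorem thm_Low (hD : St_DL) (hU : St_U2I) (hW : St_Weyl) (hDu : St_Dual) : St_Low := by
  intro K
  obtain ⟨E, N, hE, hP⟩ := low_one hD K
  have hA : 2 * K + 5 ≤ 2 ^ (2 * K + 5) := Nat.lt_two_pow_self.le
  obtain ⟨CW, hCW⟩ := hW K (E + (2 * K + 5))
  refine ⟨N + (E + (2 * K + 5)) + CW, ?_⟩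
  intro H δ hR c hc f0 f1 hf0 hf1 h
  have hδ : 0 < δ := hR.1
  have hδ2 : δ ≤ 1 / 2 := hR.2.1
  have hH : 1 ≤ H := by
    rcases Nat.eq_zero_or_pos H with h0 | h0
    · have h4 := hR.2.2.2
      rw [h0, Nat.cast_zero, mul_zero] at h4
      linarith
    · exact h0
  have h1 := hP H δ (low_Rg_mono (by omega) hR) c hc f0 f1 hf0 hf1 h
  have hB : Bd ((K + 2) * H ^ 2) (dualF c H f0 f1) := (hDu K H c hH hc f0 f1 f0 hf0 hf1 hf0).1.1
  obtain ⟨α, hα⟩ := hU ((K + 2) * H ^ 2) (2 * (K + 2) * H ^ 2) (dualF c H f0 f1) hB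
  have h2 : δ ^ (E + (2 * K + 5)) * (H : ℝ) ^ 2 ≤
      ‖∑' n : ℤ, dualF c H f0 f1 n * ee (α * n)‖ :=
    low_ineq hδ hδ2 hH (norm_nonneg _) hA (h1.trans hα)
  have h3 : ‖TT c H f0 f1 (fun n => ee (-α * n))‖ =
      H * ‖∑' n : ℤ, dualF c H f0 f1 n * ee (α * n)‖ := by
    rw [← RCLike.norm_conj, low_TT c H (K * H ^ 2) f0 f1 hH hf0 α, norm_mul,
      Complex.norm_natCast]
  have h4 : δ ^ (E + (2 * K + 5)) * (H : ℝ) ^ 3 ≤ ‖TT c H f0 f1 (fun n => ee (-α * n))‖ := by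
    rw [h3]
    calc δ ^ (E + (2 * K + 5)) * (H : ℝ) ^ 3 =
        H * (δ ^ (E + (2 * K + 5)) * (H : ℝ) ^ 2) := by ring
      _ ≤ _ := mul_le_mul_of_nonneg_left h2 (Nat.cast_nonneg H)
  refine ⟨-α, ?_, ?_⟩
  · exact low_Mj_mono hδ (by linarith) (by omega)
      (hCW H δ (low_Rg_mono (by omega) hR) c hc f0 f1 hf0 hf1 (-α) h4)
  · refine le_trans ?_ h4
    have h5 : δ ^ (N + (E + (2 * K + 5)) + CW) ≤ δ ^ (E + (2 * K + 5)) :=
      pow_le_pow_of_le_one hδ.le (by linarith) (by omega)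
    exact mul_le_mul_of_nonneg_right h5 (by positivity)

end Pool.Agent.NRP
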