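import Pool.Agent.NRP.StI

set_option autoImplicit false

/-!
# NRP, module Pet: two steps of Cauchy and Schwarz
-/

namespace Pool.Agent.NRP

open Finset
open scoped ComplexConjugate

/-- finite support -/
private def PetFS (f : ℤ → ℂ) : Prop := (Function.support f).Finite

private theorem PetFS.smb {f : ℤ → ℂ} (h : PetFS f) : Summable f := summable_of_hasFiniteSupport h

private theorem PetFS.sub {f g : ℤ → ℂ} (h : PetFS f) (hg : ∀ n, f n = 0 → g n = 0) : PetFS g :=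
  h.subset fun n hn hf => hn (hg n hf)

private theorem PetFS.of_Bd {M : ℕ} {f : ℤ → ℂ} (h : Bd M f) : PetFS f := by
  refine (Set.finite_Icc (-(M : ℤ)) M).subset fun n hn => ?_
  by_contra h1
  apply hn
  apply h.2 n
  rw [Set.mem_Icc, not_and_or, not_le, not_le] at h1
  rcases h1 with h1 | h1
  · exact lt_abs.2 (Or.inr (by omega))
  · exact lt_abs.2 (Or.inl h1)

private theorem PetFS.shift {f : ℤ → ℂ} (h : PetFS f) (t : ℤ) : PetFS (fun n => f (n + t)) := by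
  refine (h.preimage ((add_left_injective t).injOn (s := _))).subset fun n hn => ?_
  exact hn

private theorem PetFS.mul {f : ℤ → ℂ} (h : PetFS f) (g : ℤ → ℂ) : PetFS (fun n => f n * g n) :=
  h.sub fun n hn => by rw [hn, zero_mul]

private theorem PetFS.sum {S : Finset ℤ} {g : ℤ → ℤ → ℂ} (h : ∀ i ∈ S, PetFS (g i)) :
    PetFS (fun n => ∑ i ∈ S, g i n) := by
  refine (Set.Finite.biUnion S.finite_toSet (t := fun i => Function.support (g i))
    (fun i hi => h i hi)).subset fun n hn => ?_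
  obtain ⟨i, hi, h1⟩ := Finset.exists_ne_zero_of_sum_ne_zero hn
  exact Set.mem_biUnion hi h1

private theorem PetFS.nsq {f : ℤ → ℂ} (h : PetFS f) : Summable (fun n => ‖f n‖ ^ 2) :=
  summable_of_hasFiniteSupport (h.subset fun n hn hf => hn (by
    change ‖f n‖ ^ 2 = 0
    rw [hf, norm_zero]; norm_num))

/-- Cauchy and Schwarz with a bounded function -/
private theorem Pet_cs {M : ℕ} {u G : ℤ → ℂ} (hu : Bd M u) (hG : PetFS G) :
    ‖∑' n : ℤ, u n * G n‖ ^ 2 ≤ (2 * (M : ℝ) + 1) * ∑' n : ℤ, ‖G n‖ ^ 2 := by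
  have h1 : ∑' n : ℤ, u n * G n = ∑ n ∈ Icc (-(M : ℤ)) M, u n * G n := by
    refine tsum_eq_sum fun n hn => ?_
    have : u n = 0 := by
      apply hu.2 n
      rw [Finset.mem_Icc, not_and_or, not_le, not_le] at hn
      rcases hn with hn | hn
      · exact lt_abs.2 (Or.inr (by omega))
      · exact lt_abs.2 (Or.inl hn)
    rw [this, zero_mul]
  have h2 : ‖∑ n ∈ Icc (-(M : ℤ)) M, u n * G n‖ ≤ ∑ n ∈ Icc (-(M : ℤ)) M, ‖G n‖ := by
    refine (norm_sum_le _ _).trans (Finset.sum_le_sum fun n _ => ?_)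
    rw [norm_mul]
    calc ‖u n‖ * ‖G n‖ ≤ 1 * ‖G n‖ := mul_le_mul_of_nonneg_right (hu.1 n) (norm_nonneg _)
      _ = ‖G n‖ := one_mul _
  have h3 : (((Icc (-(M : ℤ)) M).card : ℕ) : ℝ) = 2 * (M : ℝ) + 1 := by
    rw [Int.card_Icc]
    have : ((M : ℤ) + 1 - -(M : ℤ)).toNat = 2 * M + 1 := by omega
    rw [this]; push_cast; ring
  have h4 : ∑ n ∈ Icc (-(M : ℤ)) M, ‖G n‖ ^ 2 ≤ ∑' n : ℤ, ‖G n‖ ^ 2 :=
    hG.nsq.sum_le_tsum _ fun n _ => by positivity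
  calc ‖∑' n : ℤ, u n * G n‖ ^ 2 ≤ (∑ n ∈ Icc (-(M : ℤ)) M, ‖G n‖) ^ 2 := by
        rw [h1]; exact pow_le_pow_left₀ (norm_nonneg _) h2 2
    _ ≤ ((Icc (-(M : ℤ)) M).card : ℝ) * ∑ n ∈ Icc (-(M : ℤ)) M, ‖G n‖ ^ 2 :=
        sq_sum_le_card_mul_sum_sq
    _ ≤ (2 * (M : ℝ) + 1) * ∑' n : ℤ, ‖G n‖ ^ 2 := by
        rw [h3]; exact mul_le_mul_of_nonneg_left h4 (by positivity)

/-- pairs by their difference -/
private theorem Pet_diff {S A : Finset ℤ} (hA : ∀ x ∈ S, ∀ y ∈ S, y - x ∈ A) (F : ℤ → ℤ → ℂ) :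
    ∑ h ∈ S, ∑ k ∈ S, F h (k - h) = ∑ a ∈ A, ∑ h ∈ S.filter (fun h => h + a ∈ S), F h a := by
  have h1 : ∀ h ∈ S, ∑ k ∈ S, F h (k - h) = ∑ a ∈ A.filter (fun a => h + a ∈ S), F h a := by
    intro h hh
    refine Finset.sum_nbij' (fun k => k - h) (fun a => h + a) ?_ ?_ ?_ ?_ ?_
    · intro k hk
      rw [Finset.mem_filter]
      exact ⟨hA h hh k hk, by rw [add_sub_cancel]; exact hk⟩
    · intro a ha
      exact (Finset.mem_filter.1 ha).2
    · intro k _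
      exact add_sub_cancel _ _
    · intro a _
      exact add_sub_cancel_left _ _
    · intro k _
      rfl
  rw [Finset.sum_congr rfl h1]
  refine Finset.sum_comm' fun x y => ?_
  rw [Finset.mem_filter, Finset.mem_filter]
  tauto

/-- expansion of the mean square -/
private theorem Pet_sq {S A : Finset ℤ} (hA : ∀ x ∈ S, ∀ y ∈ S, y - x ∈ A) (g : ℤ → ℤ → ℂ)
    (hg : ∀ h ∈ S, PetFS (g h)) :
    ((∑' n : ℤ, ‖∑ h ∈ S, g h n‖ ^ 2 : ℝ) : ℂ) =
      ∑ a ∈ A, ∑ h ∈ S.filter (fun h => h + a ∈ S), ∑' n : ℤ, g h n * conj (g (h + a) n) := by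
  have h1 : ∀ n : ℤ, ((‖∑ h ∈ S, g h n‖ ^ 2 : ℝ) : ℂ) =
      ∑ h ∈ S, ∑ k ∈ S, g h n * conj (g k n) := by
    intro n
    rw [← Complex.normSq_eq_norm_sq, Complex.normSq_eq_conj_mul_self, mul_comm, map_sum,
      Finset.sum_mul_sum]
  have h2 : ((∑' n : ℤ, ‖∑ h ∈ S, g h n‖ ^ 2 : ℝ) : ℂ) =
      ∑ h ∈ S, ∑ k ∈ S, ∑' n : ℤ, g h n * conj (g k n) := by
    rw [Complex.ofReal_tsum]
    calc ∑' n : ℤ, ((‖∑ h ∈ S, g h n‖ ^ 2 : ℝ) : ℂ) =
        ∑' n : ℤ, ∑ h ∈ S, ∑ k ∈ S, g h n * conj (g k n) := tsum_congr h1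
      _ = ∑ h ∈ S, ∑' n : ℤ, ∑ k ∈ S, g h n * conj (g k n) := by
          refine Summable.tsum_finsetSum fun h hh => ?_
          exact (PetFS.sum fun k _ => (hg h hh).mul _).smb
      _ = ∑ h ∈ S, ∑ k ∈ S, ∑' n : ℤ, g h n * conj (g k n) := by
          refine Finset.sum_congr rfl fun h hh => ?_
          exact Summable.tsum_finsetSum fun k _ => ((hg h hh).mul _).smb
  rw [h2, ← Pet_diff hA (fun h a => ∑' n : ℤ, g h n * conj (g (h + a) n))]
  refine Finset.sum_congr rfl fun h _ => Finset.sum_congr rfl fun k _ => ?_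
  rw [add_sub_cancel]

private theorem Pet_shift (f : ℤ → ℂ) (t : ℤ) : ∑' n : ℤ, f (n + t) = ∑' n : ℤ, f n :=
  (Equiv.addRight t).tsum_eq f

theorem thm_Pet : St_Pet := by
  intro K H c hH _ f0 f1 f2 h0 h1 h2
  set S : Finset ℤ := Icc (1 : ℤ) H with hS
  set A : Finset ℤ := Icc (-((H : ℤ) - 1)) ((H : ℤ) - 1) with hAd
  have hA : ∀ x ∈ S, ∀ y ∈ S, y - x ∈ A := by
    intro x hx y hy
    rw [hS, Finset.mem_Icc] at hx hy
    rw [hAd, Finset.mem_Icc]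
    constructor <;> omega
  have hAc : (A.card : ℝ) ≤ 2 * (H : ℝ) := by
    rw [hAd, Int.card_Icc]
    have : ((H : ℤ) - 1 + 1 - -((H : ℤ) - 1)).toNat ≤ 2 * H := by omega
    calc (((((H : ℤ) - 1 + 1 - -((H : ℤ) - 1)).toNat : ℕ)) : ℝ) ≤ ((2 * H : ℕ) : ℝ) :=
          Nat.cast_le.2 this
      _ = 2 * (H : ℝ) := by push_cast; ring
  -- first step
  have hg1 : ∀ h ∈ S, PetFS (fun n => f1 (n + h) * f2 (n + pp c h)) := fun h _ =>
    ((PetFS.of_Bd h1).shift h).mul _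
  have hTT : TT c H f0 f1 f2 = ∑' n : ℤ, f0 n * ∑ h ∈ S, f1 (n + h) * f2 (n + pp c h) := by
    unfold TT
    rw [← Summable.tsum_finsetSum (fun h _ =>
      (((PetFS.of_Bd h0).mul (fun n => f1 (n + h))).mul (fun n => f2 (n + pp c h))).smb)]
    refine tsum_congr fun n => ?_
    rw [Finset.mul_sum]
    exact Finset.sum_congr rfl fun h _ => mul_assoc _ _ _
  set Q : ℝ := ∑' n : ℤ, ‖∑ h ∈ S, f1 (n + h) * f2 (n + pp c h)‖ ^ 2 with hQ
  have s1 : ‖TT c H f0 f1 f2‖ ^ 2 ≤ (2 * ((K * H ^ 2 : ℕ) : ℝ) + 1) * Q := by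
    rw [hTT]
    exact Pet_cs h0 (PetFS.sum hg1)
  -- second step
  set Y : ℤ → ℤ → ℤ → ℂ := fun a h n => f2 (n + (pp c h - h)) * conj (f2 (n + (pp c (h + a) - h)))
    with hY
  have hYs : ∀ a h, PetFS (Y a h) := fun a h => ((PetFS.of_Bd h2).shift _).mul _
  have hQ1 : (Q : ℂ) = ∑ a ∈ A, ∑' n : ℤ, (f1 n * conj (f1 (n + a))) *
      ∑ h ∈ S.filter (fun h => h + a ∈ S), Y a h n := by
    rw [hQ, Pet_sq hA _ hg1]
    refine Finset.sum_congr rfl fun a _ => ?_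
    rw [show (∑' n : ℤ, (f1 n * conj (f1 (n + a))) * ∑ h ∈ S.filter (fun h => h + a ∈ S), Y a h n) =
      ∑' n : ℤ, ∑ h ∈ S.filter (fun h => h + a ∈ S), (f1 n * conj (f1 (n + a))) * Y a h n from
      tsum_congr fun n => Finset.mul_sum _ _ _]
    rw [Summable.tsum_finsetSum (fun h _ =>
      (((PetFS.of_Bd h1).mul (fun n => conj (f1 (n + a)))).mul (Y a h)).smb)]
    refine Finset.sum_congr rfl fun h _ => ?_
    rw [← Pet_shift (fun n => f1 n * conj (f1 (n + a)) * Y a h n) h]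
    refine tsum_congr fun n => ?_
    rw [hY]
    simp only
    rw [show n + h + (pp c h - h) = n + pp c h by ring,
      show n + h + (pp c (h + a) - h) = n + pp c (h + a) by ring,
      show n + h + a = n + (h + a) by ring, map_mul]
    ring
  have hu : ∀ a : ℤ, Bd (K * H ^ 2) (fun n => f1 n * conj (f1 (n + a))) := by
    intro a
    refine ⟨fun n => ?_, fun n hn => ?_⟩
    · rw [norm_mul, RCLike.norm_conj]
      exact mul_le_one₀ (h1.1 n) (norm_nonneg _) (h1.1 _)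
    · simp only
      rw [h1.2 n hn, zero_mul]
  set T : ℤ → ℤ → ℂ := fun a b =>
    ∑ h ∈ (Icc (1 : ℤ) H).filter (fun h => h + a ∈ Icc (1 : ℤ) H ∧ h + b ∈ Icc (1 : ℤ) H ∧
          h + a + b ∈ Icc (1 : ℤ) H),
        ∑' n : ℤ, f2 n * conj (f2 (n + (2 * a * h + (a ^ 2 + c * a)))) *
          conj (f2 (n + (2 * b * h + (b ^ 2 + (c - 1) * b)))) *
          f2 (n + (2 * (a + b) * h + ((a + b) ^ 2 + c * (a + b) - b))) with hT
  have s3 : ∀ a ∈ A, ∑' n : ℤ, ‖∑ h ∈ S.filter (fun h => h + a ∈ S), Y a h n‖ ^ 2 ≤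
      ∑ b ∈ A, ‖T a b‖ := by
    intro a _
    have hA' : ∀ x ∈ S.filter (fun h => h + a ∈ S), ∀ y ∈ S.filter (fun h => h + a ∈ S),
        y - x ∈ A := fun x hx y hy => hA x (Finset.mem_filter.1 hx).1 y (Finset.mem_filter.1 hy).1
    have e1 := Pet_sq hA' (Y a) (fun h _ => hYs a h)
    have e2 : ((∑' n : ℤ, ‖∑ h ∈ S.filter (fun h => h + a ∈ S), Y a h n‖ ^ 2 : ℝ) : ℂ) =
        ∑ b ∈ A, T a b := by
      rw [e1]
      refine Finset.sum_congr rfl fun b _ => ?_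
      have hf : (S.filter (fun h => h + a ∈ S)).filter
          (fun h => h + b ∈ S.filter (fun h => h + a ∈ S)) =
          (Icc (1 : ℤ) H).filter (fun h => h + a ∈ Icc (1 : ℤ) H ∧ h + b ∈ Icc (1 : ℤ) H ∧
          h + a + b ∈ Icc (1 : ℤ) H) := by
        ext h
        simp only [Finset.mem_filter, ← hS]
        rw [show h + b + a = h + a + b by ring]
        tauto
      rw [hf, hT]
      refine Finset.sum_congr rfl fun h _ => ?_
      rw [← Pet_shift (fun n => f2 n * conj (f2 (n + (2 * a * h + (a ^ 2 + c * a)))) *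
          conj (f2 (n + (2 * b * h + (b ^ 2 + (c - 1) * b)))) *
          f2 (n + (2 * (a + b) * h + ((a + b) ^ 2 + c * (a + b) - b)))) (pp c h - h)]
      refine tsum_congr fun n => ?_
      rw [hY]
      simp only [map_mul, Complex.conj_conj]
      rw [show n + (pp c h - h) + (2 * a * h + (a ^ 2 + c * a)) = n + (pp c (h + a) - h) by
          unfold pp; ring,
        show n + (pp c h - h) + (2 * b * h + (b ^ 2 + (c - 1) * b)) =
          n + (pp c (h + b) - (h + b)) by unfold pp; ring,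
        show n + (pp c h - h) + (2 * (a + b) * h + ((a + b) ^ 2 + c * (a + b) - b)) =
          n + (pp c (h + b + a) - (h + b)) by unfold pp; ring]
      ring
    have e3 : ∑' n : ℤ, ‖∑ h ∈ S.filter (fun h => h + a ∈ S), Y a h n‖ ^ 2 =
        ‖((∑' n : ℤ, ‖∑ h ∈ S.filter (fun h => h + a ∈ S), Y a h n‖ ^ 2 : ℝ) : ℂ)‖ := by
      rw [Complex.norm_real, Real.norm_of_nonneg (tsum_nonneg fun n => by positivity)]
    rw [e3, e2]
    exact norm_sum_le _ _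
  have hQ0 : 0 ≤ Q := tsum_nonneg fun n => by positivity
  set M : ℝ := 2 * ((K * H ^ 2 : ℕ) : ℝ) + 1 with hM
  have hM0 : 0 ≤ M := by rw [hM]; positivity
  have s4 : Q ^ 2 ≤ (A.card : ℝ) * (M * ∑ a ∈ A, ∑ b ∈ A, ‖T a b‖) := by
    have e1 : Q = ‖(Q : ℂ)‖ := by rw [Complex.norm_real, Real.norm_of_nonneg hQ0]
    have e2 : Q ≤ ∑ a ∈ A, ‖∑' n : ℤ, (f1 n * conj (f1 (n + a))) *
        ∑ h ∈ S.filter (fun h => h + a ∈ S), Y a h n‖ := by
      rw [e1, hQ1]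
      exact norm_sum_le _ _
    calc Q ^ 2 ≤ (∑ a ∈ A, ‖∑' n : ℤ, (f1 n * conj (f1 (n + a))) *
        ∑ h ∈ S.filter (fun h => h + a ∈ S), Y a h n‖) ^ 2 := pow_le_pow_left₀ hQ0 e2 2
      _ ≤ (A.card : ℝ) * ∑ a ∈ A, ‖∑' n : ℤ, (f1 n * conj (f1 (n + a))) *
        ∑ h ∈ S.filter (fun h => h + a ∈ S), Y a h n‖ ^ 2 := sq_sum_le_card_mul_sum_sq
      _ ≤ (A.card : ℝ) * ∑ a ∈ A, M * ∑ b ∈ A, ‖T a b‖ := by
          refine mul_le_mul_of_nonneg_left (Finset.sum_le_sum fun a ha => ?_) (Nat.cast_nonneg _)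
          refine (Pet_cs (hu a) (PetFS.sum fun h _ => hYs a h)).trans ?_
          exact mul_le_mul_of_nonneg_left (s3 a ha) hM0
      _ = (A.card : ℝ) * (M * ∑ a ∈ A, ∑ b ∈ A, ‖T a b‖) := by rw [← Finset.mul_sum]
  have s5 : ∑ a ∈ A, ∑ b ∈ A, ‖T a b‖ ≤
      ∑ a ∈ Icc (-(H : ℤ)) H, ∑ b ∈ Icc (-(H : ℤ)) H, ‖T a b‖ := by
    have hAI : A ⊆ Icc (-(H : ℤ)) H := by
      intro x hx
      rw [hAd, Finset.mem_Icc] at hx
      rw [Finset.mem_Icc]
      constructor <;> omega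
    calc ∑ a ∈ A, ∑ b ∈ A, ‖T a b‖ ≤ ∑ a ∈ A, ∑ b ∈ Icc (-(H : ℤ)) H, ‖T a b‖ :=
          Finset.sum_le_sum fun a _ => Finset.sum_le_sum_of_subset_of_nonneg hAI
            fun b _ _ => norm_nonneg _
      _ ≤ _ := Finset.sum_le_sum_of_subset_of_nonneg hAI
            fun a _ _ => Finset.sum_nonneg fun b _ => norm_nonneg _
  set R : ℝ := ∑ a ∈ Icc (-(H : ℤ)) H, ∑ b ∈ Icc (-(H : ℤ)) H, ‖T a b‖ with hR
  have hR0 : 0 ≤ R := Finset.sum_nonneg fun a _ => Finset.sum_nonneg fun b _ => norm_nonneg _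
  have hH1 : (1 : ℝ) ≤ (H : ℝ) := by exact_mod_cast hH
  have hMle : M ≤ (2 * (K : ℝ) + 1) * (H : ℝ) ^ 2 := by
    rw [hM]
    push_cast
    nlinarith [pow_le_pow_left₀ zero_le_one hH1 2]
  have hK0 : (0 : ℝ) ≤ (K : ℝ) := Nat.cast_nonneg _
  calc ‖TT c H f0 f1 f2‖ ^ 4 = (‖TT c H f0 f1 f2‖ ^ 2) ^ 2 := by ring
    _ ≤ (M * Q) ^ 2 := pow_le_pow_left₀ (by positivity) s1 2
    _ = M ^ 2 * Q ^ 2 := by ring
    _ ≤ M ^ 2 * ((A.card : ℝ) * (M * R)) := by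
        refine mul_le_mul_of_nonneg_left (s4.trans ?_) (by positivity)
        exact mul_le_mul_of_nonneg_left (mul_le_mul_of_nonneg_left s5 hM0) (Nat.cast_nonneg _)
    _ = M ^ 3 * ((A.card : ℝ) * R) := by ring
    _ ≤ ((2 * (K : ℝ) + 1) * (H : ℝ) ^ 2) ^ 3 * ((2 * (H : ℝ)) * R) :=
        mul_le_mul (pow_le_pow_left₀ hM0 hMle 3) (mul_le_mul_of_nonneg_right hAc hR0)
          (by positivity) (by positivity)
    _ = 2 * (2 * (K : ℝ) + 1) ^ 3 * (H : ℝ) ^ 7 * R := by ring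

end Pool.Agent.NRP
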