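import Pool.Agent.NRP.StI

set_option autoImplicit false

/-!
# NRP, module Rep: solutions of `u s + v t = 0` in a box
-/

namespace Pool.Agent.NRP

open Finset

theorem Rep_fiber (H : ℕ) (u v : ℤ) (huv : u ≠ 0 ∨ v ≠ 0) (y : ℤ × ℤ) (hy : y ∈ sqr (2 * H)) :
    ((sqr (2 * H)).filter (fun x => mp u v x = mp u v y)).card * max u.natAbs v.natAbs ≤
      8 * H * Int.gcd u v + max u.natAbs v.natAbs := by
  obtain ⟨g, hg⟩ : ∃ g : ℕ, g = Int.gcd u v := ⟨_, rfl⟩
  obtain ⟨M, hM⟩ : ∃ M : ℕ, M = max u.natAbs v.natAbs := ⟨_, rfl⟩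
  have hg0 : 0 < g := by
    rw [hg]
    exact Int.gcd_pos_iff.2 huv
  have hM0 : 0 < M := by
    rw [hM]
    rcases huv with h | h
    · exact lt_of_lt_of_le (Int.natAbs_pos.2 h) (le_max_left _ _)
    · exact lt_of_lt_of_le (Int.natAbs_pos.2 h) (le_max_right _ _)
  obtain ⟨u', hu⟩ : (g : ℤ) ∣ u := by
    rw [hg]
    exact Int.gcd_dvd_left _ _
  obtain ⟨v', hv⟩ : (g : ℤ) ∣ v := by
    rw [hg]
    exact Int.gcd_dvd_right _ _
  have hgZ : (g : ℤ) ≠ 0 := by exact_mod_cast hg0.ne'
  obtain ⟨A, B, hAB⟩ : ∃ A B : ℤ, u' * A + v' * B = 1 := by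
    refine ⟨Int.gcdA u v, Int.gcdB u v, ?_⟩
    have h1 := Int.gcd_eq_gcd_ab u v
    rw [← hg] at h1
    have h2 : (g : ℤ) * (u' * Int.gcdA u v + v' * Int.gcdB u v) = g * 1 := by
      rw [mul_one]
      conv_rhs => rw [h1]
      conv_rhs => rw [hu, hv]
      rw [← hu, ← hv]
      linear_combination (-Int.gcdA u v) * hu + (-Int.gcdB u v) * hv
    exact mul_left_cancel₀ hgZ h2
  rw [← hg, ← hM]
  have hy' := hy
  unfold sqr at hy'
  rw [mem_product, mem_Icc, mem_Icc] at hy'
  push_cast at hy'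
  -- the map
  have key : ∀ x ∈ (sqr (2 * H)).filter (fun x => mp u v x = mp u v y),
      x.1 - y.1 = (B * (x.1 - y.1) - A * (x.2 - y.2)) * v' ∧
      x.2 - y.2 = -((B * (x.1 - y.1) - A * (x.2 - y.2)) * u') := by
    intro x hx
    rw [mem_filter] at hx
    have h1 : u * x.1 + v * x.2 = u * y.1 + v * y.2 := hx.2
    have h2 : u' * (x.1 - y.1) + v' * (x.2 - y.2) = 0 := by
      have : (g : ℤ) * (u' * (x.1 - y.1) + v' * (x.2 - y.2)) = 0 := by
        rw [hu, hv] at h1
        linear_combination h1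
      exact (mul_eq_zero.1 this).resolve_left hgZ
    constructor
    · linear_combination (-(x.1 - y.1)) * hAB + A * h2
    · linear_combination (-(x.2 - y.2)) * hAB + B * h2
  have hcard : ((sqr (2 * H)).filter (fun x => mp u v x = mp u v y)).card ≤
      (Icc (-((4 * H * g / M : ℕ) : ℤ)) ((4 * H * g / M : ℕ) : ℤ)).card := by
    refine card_le_card_of_injOn (fun x => B * (x.1 - y.1) - A * (x.2 - y.2)) ?_ ?_
    · intro x hx
      have hx0 : x ∈ (sqr (2 * H)).filter (fun x => mp u v x = mp u v y) := by simpa using hx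
      obtain ⟨h1, h2⟩ := key x hx0
      have hx1 := (mem_filter.1 hx0).1
      unfold sqr at hx1
      rw [mem_product, mem_Icc, mem_Icc] at hx1
      push_cast at hx1
      obtain ⟨k, hk⟩ : ∃ k : ℤ, k = B * (x.1 - y.1) - A * (x.2 - y.2) := ⟨_, rfl⟩
      rw [← hk] at h1 h2
      have h3 : |k| * |v'| ≤ 4 * H := by
        rw [← abs_mul, ← h1, abs_le]
        constructor <;> omega
      have h4 : |k| * |u'| ≤ 4 * H := by
        rw [← abs_mul, ← abs_neg, ← h2, abs_le]
        constructor <;> omega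
      have h5 : k.natAbs * M ≤ 4 * H * g := by
        rw [hM]
        have e1 : k.natAbs * v.natAbs ≤ 4 * H * g := by
          have : (k.natAbs : ℤ) * v.natAbs ≤ 4 * H * g := by
            rw [Int.natCast_natAbs, Int.natCast_natAbs, hv, abs_mul, Nat.abs_cast]
            calc |k| * (g * |v'|) = |k| * |v'| * g := by ring
              _ ≤ 4 * H * g := mul_le_mul_of_nonneg_right h3 (by positivity)
          exact_mod_cast this
        have e2 : k.natAbs * u.natAbs ≤ 4 * H * g := by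
          have : (k.natAbs : ℤ) * u.natAbs ≤ 4 * H * g := by
            rw [Int.natCast_natAbs, Int.natCast_natAbs, hu, abs_mul, Nat.abs_cast]
            calc |k| * (g * |u'|) = |k| * |u'| * g := by ring
              _ ≤ 4 * H * g := mul_le_mul_of_nonneg_right h4 (by positivity)
          exact_mod_cast this
        rcases max_choice u.natAbs v.natAbs with h | h <;> rw [h]
        · exact e2
        · exact e1
      have h6 : k.natAbs ≤ 4 * H * g / M := (Nat.le_div_iff_mul_le hM0).2 h5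
      have h7 : (k.natAbs : ℤ) ≤ ((4 * H * g / M : ℕ) : ℤ) := by exact_mod_cast h6
      rw [Int.natCast_natAbs] at h7
      show B * (x.1 - y.1) - A * (x.2 - y.2) ∈ (↑(Icc (-((4 * H * g / M : ℕ) : ℤ))
        ((4 * H * g / M : ℕ) : ℤ)) : Set ℤ)
      rw [mem_coe, mem_Icc, ← hk]
      exact abs_le.1 h7
    · intro x hx x' hx' hxx
      have hx0 : x ∈ (sqr (2 * H)).filter (fun x => mp u v x = mp u v y) := by simpa using hx
      have hx0' : x' ∈ (sqr (2 * H)).filter (fun x => mp u v x = mp u v y) := by simpa using hx'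
      obtain ⟨h1, h2⟩ := key x hx0
      obtain ⟨h1', h2'⟩ := key x' hx0'
      have hxx' : B * (x.1 - y.1) - A * (x.2 - y.2) = B * (x'.1 - y.1) - A * (x'.2 - y.2) := hxx
      rw [hxx'] at h1 h2
      apply Prod.ext <;> omega
  rw [Int.card_Icc] at hcard
  have h1 : ((4 * H * g / M : ℕ) : ℤ) + 1 - -((4 * H * g / M : ℕ) : ℤ) =
      ((2 * (4 * H * g / M) + 1 : ℕ) : ℤ) := by
    push_cast
    ring
  rw [h1, Int.toNat_natCast] at hcard
  have h2 : 4 * H * g / M * M ≤ 4 * H * g := Nat.div_mul_le_self _ _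
  calc _ ≤ (2 * (4 * H * g / M) + 1) * M := Nat.mul_le_mul_right _ hcard
    _ = 2 * (4 * H * g / M * M) + M := by ring
    _ ≤ 2 * (4 * H * g) + M := by omega
    _ = 8 * H * g + M := by ring

theorem thm_Rep : St_Rep := by
  intro H u v hH huv
  have hM : ((max u.natAbs v.natAbs : ℕ) : ℝ) = max |(u : ℝ)| |(v : ℝ)| := by
    rw [Nat.cast_max, Nat.cast_natAbs, Nat.cast_natAbs, Int.cast_abs, Int.cast_abs]
  rw [← hM]
  have h1 : ((sqr (2 * H) ×ˢ sqr (2 * H)).filter (fun x => mp u v x.1 = mp u v x.2)).card =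
      ∑ y ∈ sqr (2 * H), ((sqr (2 * H)).filter (fun x => mp u v x = mp u v y)).card := by
    rw [card_filter, sum_product_right]
    exact sum_congr rfl fun y _ => (card_filter _ _).symm
  have h2 : (sqr (2 * H)).card ≤ 25 * H ^ 2 := by
    unfold sqr
    rw [card_product, Int.card_Icc]
    have e : ((2 * H : ℕ) : ℤ) + 1 - -((2 * H : ℕ) : ℤ) = ((4 * H + 1 : ℕ) : ℤ) := by
      push_cast
      ring
    rw [e, Int.toNat_natCast]
    nlinarith
  have h3 : ((sqr (2 * H) ×ˢ sqr (2 * H)).filter (fun x => mp u v x.1 = mp u v x.2)).card *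
      max u.natAbs v.natAbs ≤ 25 * H ^ 2 * (8 * H * Int.gcd u v + max u.natAbs v.natAbs) := by
    rw [h1, sum_mul]
    calc _ ≤ ∑ y ∈ sqr (2 * H), (8 * H * Int.gcd u v + max u.natAbs v.natAbs) :=
          sum_le_sum fun y hy => Rep_fiber H u v huv y hy
      _ = (sqr (2 * H)).card * (8 * H * Int.gcd u v + max u.natAbs v.natAbs) := by
          rw [sum_const, smul_eq_mul]
      _ ≤ _ := Nat.mul_le_mul_right _ h2
  exact_mod_cast h3

end Pool.Agent.NRP
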