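import Pool.Agent.NRP.StI

set_option autoImplicit false

/-!
# NRP, module Sm: smoothing of the second function
-/

namespace Pool.Agent.NRP

open Finset
open Pool.Agent.GBQ (ee nd)
open scoped ComplexConjugate

private theorem Sm_out {R : ℕ} {n : ℤ} (hn : n ∉ Icc (-(R : ℤ)) R) : (R : ℤ) < |n| := by
  by_contra h
  push Not at h
  exact hn (mem_Icc.2 (abs_le.1 h))

private theorem Sm_summ {R : ℕ} {F : ℤ → ℂ} (hF : ∀ n : ℤ, (R : ℤ) < |n| → F n = 0) :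
    Summable F :=
  summable_of_ne_finset_zero (s := Icc (-(R : ℤ)) R) fun n hn => hF n (Sm_out hn)

private theorem Sm_summr {R : ℕ} {F : ℤ → ℝ} (hF : ∀ n : ℤ, (R : ℤ) < |n| → F n = 0) :
    Summable F :=
  summable_of_ne_finset_zero (s := Icc (-(R : ℤ)) R) fun n hn => hF n (Sm_out hn)

private theorem Sm_tsum {R : ℕ} {F : ℤ → ℂ} (hF : ∀ n : ℤ, (R : ℤ) < |n| → F n = 0) :
    ∑' n, F n = ∑ n ∈ Icc (-(R : ℤ)) R, F n :=
  tsum_eq_sum fun n hn => hF n (Sm_out hn)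

private theorem Sm_shift (F : ℤ → ℂ) (a : ℤ) : ∑' n, F (n + a) = ∑' n, F n :=
  (Equiv.addRight a).tsum_eq F

private theorem Sm_card (R : ℕ) : ((Icc (-(R : ℤ)) R).card : ℝ) = 2 * R + 1 := by
  rw [Int.card_Icc]
  have h1 : ((R : ℤ) + 1 - -(R : ℤ)).toNat = 2 * R + 1 := by omega
  rw [h1]
  push_cast
  ring

/-- telescoping -/
private theorem Sm_tel (φ : ℤ → ℂ) (L : ℕ) :
    ∑ y ∈ Icc (1 : ℤ) L, φ (y - 1) - ∑ y ∈ Icc (1 : ℤ) L, φ y = φ 0 - φ L := by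
  induction L with
  | zero => simp
  | succ L ih =>
    have h1 : Icc (1 : ℤ) ((L + 1 : ℕ) : ℤ) = insert ((L : ℤ) + 1) (Icc (1 : ℤ) L) := by
      ext y
      rw [mem_insert, mem_Icc, mem_Icc]
      push_cast
      omega
    have h2 : ((L : ℤ) + 1) ∉ Icc (1 : ℤ) L := by
      rw [mem_Icc]
      omega
    rw [h1, sum_insert h2, sum_insert h2, add_sub_cancel_right]
    have h3 : ((L + 1 : ℕ) : ℤ) = (L : ℤ) + 1 := by push_cast; ring
    rw [h3]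
    linear_combination ih

private theorem Sm_step {σ : ℤ → ℂ} (hσ : ∀ n, ‖σ n‖ ≤ 1) (q : ℤ) (L : ℕ) (x : ℤ) :
    ‖∑ y ∈ Icc (1 : ℤ) L, σ (x + q - q * y) - ∑ y ∈ Icc (1 : ℤ) L, σ (x - q * y)‖ ≤ 2 := by
  have h1 : ∀ y : ℤ, σ (x + q - q * y) = (fun y => σ (x - q * y)) (y - 1) := by
    intro y
    show σ (x + q - q * y) = σ (x - q * (y - 1))
    congr 1
    ring
  simp only [h1]
  rw [Sm_tel (fun y => σ (x - q * y)) L]
  calc ‖σ (x - q * 0) - σ (x - q * (L : ℤ))‖ ≤ ‖σ (x - q * 0)‖ + ‖σ (x - q * (L : ℤ))‖ :=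
        norm_sub_le _ _
    _ ≤ 2 := by linarith [hσ (x - q * 0), hσ (x - q * (L : ℤ))]

private theorem Sm_steps {σ : ℤ → ℂ} (hσ : ∀ n, ‖σ n‖ ≤ 1) (q : ℤ) (L : ℕ) (x : ℤ) (z : ℕ) :
    ‖∑ y ∈ Icc (1 : ℤ) L, σ (x + q * z - q * y) - ∑ y ∈ Icc (1 : ℤ) L, σ (x - q * y)‖ ≤
      2 * z := by
  induction z with
  | zero => simp
  | succ z ih =>
    have h1 := Sm_step hσ q L (x + q * z)
    have h2 : x + q * ((z + 1 : ℕ) : ℤ) = x + q * z + q := by push_cast; ring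
    rw [h2]
    have h3 : (∑ y ∈ Icc (1 : ℤ) L, σ (x + q * z + q - q * y)) -
        ∑ y ∈ Icc (1 : ℤ) L, σ (x - q * y) =
        ((∑ y ∈ Icc (1 : ℤ) L, σ (x + q * z + q - q * y)) -
          ∑ y ∈ Icc (1 : ℤ) L, σ (x + q * z - q * y)) +
        ((∑ y ∈ Icc (1 : ℤ) L, σ (x + q * z - q * y)) -
          ∑ y ∈ Icc (1 : ℤ) L, σ (x - q * y)) := by ring
    rw [h3]
    refine (norm_add_le _ _).trans ?_
    push_cast
    linarith

/-- The sum over an interval compared with the sum over a subinterval. -/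
private theorem Sm_int {b : ℤ → ℂ} {E : ℝ} (hb : ∀ h, ‖b h‖ ≤ E) (H q Z : ℕ) (hq : 1 ≤ q)
    (hqZ : q * Z ≤ H) (z : ℤ) (hz : z ∈ Icc (1 : ℤ) Z) :
    ‖∑ h ∈ Icc (1 : ℤ) H, b h - ∑ h ∈ Icc (0 : ℤ) ((H : ℤ) - q * Z), b (h + q * z)‖ ≤
      q * Z * E := by
  have hE : 0 ≤ E := (norm_nonneg _).trans (hb 0)
  rw [mem_Icc] at hz
  have hqz : (1 : ℤ) ≤ q * z := by nlinarith
  have hqz' : (q : ℤ) * z ≤ q * Z := by
    apply mul_le_mul_of_nonneg_left hz.2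
    positivity
  have hqZ' : (q : ℤ) * Z ≤ H := by exact_mod_cast hqZ
  have h1 : ∑ h ∈ Icc (0 : ℤ) ((H : ℤ) - q * Z), b (h + q * z) =
      ∑ h ∈ Icc ((q : ℤ) * z) ((H : ℤ) - q * Z + q * z), b h := by
    apply sum_bij' (fun h _ => h + q * z) (fun h _ => h - q * z)
    · intro h hh
      rw [mem_Icc] at hh ⊢
      omega
    · intro h hh
      rw [mem_Icc] at hh ⊢
      omega
    · intro h _
      ring
    · intro h _
      ring
    · intro h _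
      rfl
  have h2 : Icc ((q : ℤ) * z) ((H : ℤ) - q * Z + q * z) ⊆ Icc (1 : ℤ) H := by
    intro h hh
    rw [mem_Icc] at hh ⊢
    omega
  rw [h1, ← sum_sdiff h2, add_sub_cancel_right]
  refine (norm_sum_le _ _).trans ?_
  refine (sum_le_card_nsmul _ _ E fun h _ => hb h).trans ?_
  rw [nsmul_eq_mul]
  apply mul_le_mul_of_nonneg_right _ hE
  have h3 : (Icc (1 : ℤ) H \ Icc ((q : ℤ) * z) ((H : ℤ) - q * Z + q * z)).card ≤ q * Z := by
    rw [card_sdiff_of_subset h2, Int.card_Icc, Int.card_Icc]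
    have h4 : ((q * Z : ℕ) : ℤ) = q * Z := by push_cast; ring
    omega
  exact_mod_cast h3

/-- the sums `b(h)` -/
private noncomputable def Sm_b (c : ℤ) (W f0 f2 : ℤ → ℂ) (h : ℤ) : ℂ :=
  ∑' n : ℤ, conj (f0 n) * (W (n + h) * conj (f2 (n + pp c h)))

private theorem Sm_b_sum {R : ℕ} {f0 : ℤ → ℂ} (h0 : Bd R f0) (c : ℤ) (W f2 : ℤ → ℂ) (h : ℤ) :
    Sm_b c W f0 f2 h =
      ∑ n ∈ Icc (-(R : ℤ)) R, conj (f0 n) * (W (n + h) * conj (f2 (n + pp c h))) := by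
  unfold Sm_b
  apply Sm_tsum
  intro n hn
  rw [h0.2 n hn, map_zero, zero_mul]

private theorem Sm_b_le {R : ℕ} {f0 f2 : ℤ → ℂ} (h0 : Bd R f0) (h2 : Bd R f2) (c : ℤ)
    {W : ℤ → ℂ} {L : ℕ} (hW : ∀ x, ‖W x‖ ≤ L) (h : ℤ) :
    ‖Sm_b c W f0 f2 h‖ ≤ (2 * R + 1) * L := by
  rw [Sm_b_sum h0, ← Sm_card R, ← nsmul_eq_mul]
  refine (norm_sum_le _ _).trans (sum_le_card_nsmul _ _ _ fun n _ => ?_)
  rw [norm_mul, norm_mul, RCLike.norm_conj, RCLike.norm_conj]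
  calc ‖f0 n‖ * (‖W (n + h)‖ * ‖f2 (n + pp c h)‖) ≤ 1 * ((L : ℝ) * 1) := by
        apply mul_le_mul (h0.1 n) _ (by positivity) zero_le_one
        exact mul_le_mul (hW _) (h2.1 _) (norm_nonneg _) (by positivity)
    _ = L := by ring

private theorem Sm_main {R : ℕ} {f0 f2 : ℤ → ℂ} (h0 : Bd R f0) (h2 : Bd R f2) (c : ℤ)
    {W : ℤ → ℂ} {L : ℕ} (hW : ∀ x, ‖W x‖ ≤ L) (q Z : ℕ)
    (hst : ∀ (x : ℤ) (z : ℕ), ‖W (x + q * z) - W x‖ ≤ 2 * z) (k : ℤ) :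
    ‖∑ z ∈ Icc (1 : ℤ) Z, Sm_b c W f0 f2 (k + q * z)‖ ≤
      L * (∑' n : ℤ, ‖∑ z ∈ Icc (1 : ℤ) Z, f2 (n + pp c (k + q * z))‖) +
        (2 * R + 1) * (Z * (2 * Z)) := by
  have hcard : ((Icc (1 : ℤ) Z).card : ℝ) = Z := by
    rw [Int.card_Icc]
    simp
  have e1 : ∑ z ∈ Icc (1 : ℤ) Z, Sm_b c W f0 f2 (k + q * z) =
      ∑ n ∈ Icc (-(R : ℤ)) R, conj (f0 n) * (W (n + k) *
        conj (∑ z ∈ Icc (1 : ℤ) Z, f2 (n + pp c (k + q * z))) +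
        ∑ z ∈ Icc (1 : ℤ) Z, (W (n + k + q * z) - W (n + k)) *
          conj (f2 (n + pp c (k + q * z)))) := by
    simp only [Sm_b_sum h0]
    rw [sum_comm]
    refine sum_congr rfl fun n _ => ?_
    rw [← mul_sum, map_sum, mul_sum (Icc (1 : ℤ) Z) _ (W (n + k)), ← sum_add_distrib]
    congr 1
    refine sum_congr rfl fun z _ => ?_
    rw [add_assoc n k]
    ring
  rw [e1]
  have hS : Summable fun n : ℤ => ‖∑ z ∈ Icc (1 : ℤ) Z, f2 (n + pp c (k + q * z))‖ :=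
    (summable_sum fun z _ =>
      (Equiv.addRight (pp c (k + q * z))).summable_iff.2 (Sm_summ h2.2)).norm
  have e2 : ∀ n ∈ Icc (-(R : ℤ)) R, ‖conj (f0 n) * (W (n + k) *
        conj (∑ z ∈ Icc (1 : ℤ) Z, f2 (n + pp c (k + q * z))) +
        ∑ z ∈ Icc (1 : ℤ) Z, (W (n + k + q * z) - W (n + k)) *
          conj (f2 (n + pp c (k + q * z))))‖ ≤
      L * ‖∑ z ∈ Icc (1 : ℤ) Z, f2 (n + pp c (k + q * z))‖ + Z * (2 * Z) := by
    intro n _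
    rw [norm_mul, RCLike.norm_conj]
    refine (mul_le_mul (h0.1 n) (norm_add_le _ _) (norm_nonneg _) zero_le_one).trans ?_
    rw [one_mul]
    apply add_le_add
    · rw [norm_mul, RCLike.norm_conj]
      exact mul_le_mul_of_nonneg_right (hW _) (norm_nonneg _)
    · rw [← hcard, ← nsmul_eq_mul]
      refine (norm_sum_le _ _).trans (sum_le_card_nsmul _ _ _ fun z hz => ?_)
      rw [mem_Icc] at hz
      rw [norm_mul, RCLike.norm_conj, hcard]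
      have h5 : ‖W (n + k + q * z) - W (n + k)‖ ≤ 2 * Z := by
        have h6 := hst (n + k) z.toNat
        have h7 : ((z.toNat : ℕ) : ℤ) = z := Int.toNat_of_nonneg (by omega)
        rw [h7] at h6
        refine h6.trans ?_
        have h8 : z.toNat ≤ Z := by omega
        have h9 : (z.toNat : ℝ) ≤ Z := by exact_mod_cast h8
        linarith
      calc _ ≤ (2 * (Z : ℝ)) * 1 := mul_le_mul h5 (h2.1 _) (norm_nonneg _) (by positivity)
        _ = 2 * Z := by ring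
  refine (norm_sum_le _ _).trans ((sum_le_sum e2).trans ?_)
  rw [sum_add_distrib, ← mul_sum, sum_const, nsmul_eq_mul, Sm_card]
  have e3 : ∑ n ∈ Icc (-(R : ℤ)) R, ‖∑ z ∈ Icc (1 : ℤ) Z, f2 (n + pp c (k + q * z))‖ ≤
      ∑' n : ℤ, ‖∑ z ∈ Icc (1 : ℤ) Z, f2 (n + pp c (k + q * z))‖ :=
    hS.sum_le_tsum _ fun n _ => norm_nonneg _
  have := mul_le_mul_of_nonneg_left e3 (Nat.cast_nonneg (α := ℝ) L)
  linarith

/-- Duality: the sum of the norms along progressions as a sum of the `b(h)`. -/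
private theorem Sm_dual {R R' : ℕ} {f0 f2 : ℤ → ℂ} (h0 : Bd R f0) (c : ℤ) (H : ℕ) (hH : 1 ≤ H)
    (hG : Bd R' (dualG c H f0 f2)) (q : ℤ) (L : ℕ) :
    ∃ σ : ℤ → ℂ, (∀ n, ‖σ n‖ ≤ 1) ∧
      (H : ℝ) * ∑' n : ℤ, ‖∑ y ∈ Icc (1 : ℤ) L, dualG c H f0 f2 (n + q * y)‖ =
      ‖∑ h ∈ Icc (1 : ℤ) H, Sm_b c (fun x => ∑ y ∈ Icc (1 : ℤ) L, σ (x - q * y)) f0 f2 h‖ := by
  set G := dualG c H f0 f2 with hGdef
  have hex : ∀ w : ℂ, ∃ u : ℂ, ‖u‖ ≤ 1 ∧ u * w = ((‖w‖ : ℝ) : ℂ) := by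
    intro w
    by_cases hw : w = 0
    · exact ⟨1, by simp, by simp [hw]⟩
    · refine ⟨conj w / (‖w‖ : ℂ), ?_, ?_⟩
      · rw [norm_div, RCLike.norm_conj, Complex.norm_real, norm_norm]
        exact div_self_le_one _
      · have h1 : (‖w‖ : ℂ) ≠ 0 := by exact_mod_cast norm_ne_zero_iff.2 hw
        rw [div_mul_eq_mul_div, div_eq_iff h1, mul_comm (conj w) w, Complex.mul_conj,
          Complex.normSq_eq_norm_sq]
        push_cast
        ring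
  choose u hu1 hu2 using hex
  refine ⟨fun n => u (∑ y ∈ Icc (1 : ℤ) L, G (n + q * y)), fun n => hu1 _, ?_⟩
  set σ : ℤ → ℂ := fun n => u (∑ y ∈ Icc (1 : ℤ) L, G (n + q * y)) with hσ
  have hσ1 : ∀ n, ‖σ n‖ ≤ 1 := fun n => hu1 _
  have hsG : ∀ (τ : ℤ → ℂ), Summable fun x => τ x * G x := by
    intro τ
    apply Sm_summ (R := R')
    intro n hn
    rw [hG.2 n hn, mul_zero]
  -- the sum of the norms
  have e1 : ((∑' n : ℤ, ‖∑ y ∈ Icc (1 : ℤ) L, G (n + q * y)‖ : ℝ) : ℂ) =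
      ∑' x : ℤ, (∑ y ∈ Icc (1 : ℤ) L, σ (x - q * y)) * G x := by
    rw [Complex.ofReal_tsum]
    have e2 : ∀ n : ℤ, ((‖∑ y ∈ Icc (1 : ℤ) L, G (n + q * y)‖ : ℝ) : ℂ) =
        ∑ y ∈ Icc (1 : ℤ) L, σ n * G (n + q * y) := by
      intro n
      rw [← mul_sum, hσ]
      exact (hu2 _).symm
    simp only [e2]
    have e3 : ∀ y : ℤ, (fun n : ℤ => σ n * G (n + q * y)) =
        (fun x => σ (x - q * y) * G x) ∘ (Equiv.addRight (q * y)) := by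
      intro y
      funext n
      show _ = σ (n + q * y - q * y) * G (n + q * y)
      rw [add_sub_cancel_right]
    rw [Summable.tsum_finsetSum fun y _ => by
      rw [e3 y]
      exact (Equiv.addRight (q * y)).summable_iff.2 (hsG fun x => σ (x - q * y))]
    have e4 : ∀ y : ℤ, ∑' n : ℤ, σ n * G (n + q * y) = ∑' x : ℤ, σ (x - q * y) * G x := by
      intro y
      have := (Equiv.addRight (q * y)).tsum_eq (fun x => σ (x - q * y) * G x)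
      rw [← this]
      refine tsum_congr fun n => ?_
      show _ = σ (n + q * y - q * y) * G (n + q * y)
      rw [add_sub_cancel_right]
    simp only [e4]
    rw [← Summable.tsum_finsetSum fun y _ => hsG fun x => σ (x - q * y)]
    refine tsum_congr fun x => ?_
    rw [sum_mul]
  have hH0 : (H : ℂ) ≠ 0 := by
    have : (H : ℕ) ≠ 0 := by omega
    exact_mod_cast this
  set W : ℤ → ℂ := fun x => ∑ y ∈ Icc (1 : ℤ) L, σ (x - q * y) with hWdef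
  have e5 : (H : ℂ) * ∑' x : ℤ, W x * G x = ∑ h ∈ Icc (1 : ℤ) H, Sm_b c W f0 f2 h := by
    rw [← tsum_mul_left]
    have e6 : ∀ x : ℤ, (H : ℂ) * (W x * G x) =
        ∑ h ∈ Icc (1 : ℤ) H, W x * conj (f0 (x - h) * f2 (x - h + pp c h)) := by
      intro x
      rw [← mul_sum]
      have : G x = (1 / (H : ℂ)) * ∑ h ∈ Icc (1 : ℤ) H, conj (f0 (x - h) * f2 (x - h + pp c h)) :=
        rfl
      rw [this]
      field_simp
    simp only [e6]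
    have hs0 : ∀ (h : ℤ), Summable fun n => conj (f0 n) * (W (n + h) * conj (f2 (n + pp c h))) := by
      intro h
      apply Sm_summ (R := R)
      intro n hn
      rw [h0.2 n hn, map_zero, zero_mul]
    have e7 : ∀ h : ℤ, (fun n : ℤ => conj (f0 n) * (W (n + h) * conj (f2 (n + pp c h)))) =
        (fun x => W x * conj (f0 (x - h) * f2 (x - h + pp c h))) ∘ (Equiv.addRight h) := by
      intro h
      funext n
      show _ = W (n + h) * conj (f0 (n + h - h) * f2 (n + h - h + pp c h))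
      rw [add_sub_cancel_right, map_mul]
      ring
    have hs1 : ∀ h : ℤ, Summable fun x => W x * conj (f0 (x - h) * f2 (x - h + pp c h)) := by
      intro h
      have := hs0 h
      rw [e7 h] at this
      exact (Equiv.addRight h).summable_iff.1 this
    rw [Summable.tsum_finsetSum fun h _ => hs1 h]
    refine sum_congr rfl fun h _ => ?_
    unfold Sm_b
    rw [e7 h]
    exact ((Equiv.addRight h).tsum_eq _).symm
  have e8 : ((H : ℝ) * ∑' n : ℤ, ‖∑ y ∈ Icc (1 : ℤ) L, G (n + q * y)‖ : ℝ) =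
      ‖(H : ℂ) * ((∑' n : ℤ, ‖∑ y ∈ Icc (1 : ℤ) L, G (n + q * y)‖ : ℝ) : ℂ)‖ := by
    rw [norm_mul, Complex.norm_natCast, Complex.norm_real, Real.norm_of_nonneg]
    exact tsum_nonneg fun n => norm_nonneg _
  rw [e8, e1, e5]

private theorem Sm_comb {R R' : ℕ} {f0 f2 : ℤ → ℂ} (h0 : Bd R f0) (h2 : Bd R f2) (c : ℤ) (H : ℕ)
    (hH : 1 ≤ H) (hG : Bd R' (dualG c H f0 f2)) (q L Z : ℕ) (hq : 1 ≤ q) (hZ : 1 ≤ Z)
    (hqZ : q * Z ≤ H) (s : ℝ)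
    (hs : ∀ k ∈ Icc (0 : ℤ) ((H : ℤ) - q * Z),
      ∑' n : ℤ, ‖∑ z ∈ Icc (1 : ℤ) Z, f2 (n + pp c (k + q * z))‖ ≤ s) :
    (Z : ℝ) * (H * ∑' n : ℤ, ‖∑ y ∈ Icc (1 : ℤ) L, dualG c H f0 f2 (n + q * y)‖) ≤
      H * (L * s + (2 * R + 1) * (Z * (2 * Z))) + Z * (q * Z * ((2 * R + 1) * L)) := by
  obtain ⟨σ, hσ, hS⟩ := Sm_dual h0 c H hH hG q L
  rw [hS]
  set W : ℤ → ℂ := fun x => ∑ y ∈ Icc (1 : ℤ) L, σ (x - q * y) with hWdef
  have hW : ∀ x, ‖W x‖ ≤ L := by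
    intro x
    refine (norm_sum_le _ _).trans ((sum_le_card_nsmul _ _ 1 fun y _ => hσ _).trans ?_)
    rw [Int.card_Icc]
    simp
  have hst : ∀ (x : ℤ) (z : ℕ), ‖W (x + q * z) - W x‖ ≤ 2 * z := fun x z => Sm_steps hσ q L x z
  have hcardZ : ((Icc (1 : ℤ) Z).card : ℝ) = Z := by
    rw [Int.card_Icc]
    simp
  have hb := fun h => Sm_b_le h0 h2 c hW h
  -- compare the full sum with the shifted sums
  have e1 : (Z : ℝ) * ‖∑ h ∈ Icc (1 : ℤ) H, Sm_b c W f0 f2 h‖ ≤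
      ‖∑ z ∈ Icc (1 : ℤ) Z, ∑ k ∈ Icc (0 : ℤ) ((H : ℤ) - q * Z), Sm_b c W f0 f2 (k + q * z)‖ +
        Z * (q * Z * ((2 * R + 1) * L)) := by
    have e2 : (Z : ℂ) * ∑ h ∈ Icc (1 : ℤ) H, Sm_b c W f0 f2 h =
        ∑ z ∈ Icc (1 : ℤ) Z, ∑ k ∈ Icc (0 : ℤ) ((H : ℤ) - q * Z), Sm_b c W f0 f2 (k + q * z) +
        ∑ z ∈ Icc (1 : ℤ) Z, (∑ h ∈ Icc (1 : ℤ) H, Sm_b c W f0 f2 h -
          ∑ k ∈ Icc (0 : ℤ) ((H : ℤ) - q * Z), Sm_b c W f0 f2 (k + q * z)) := by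
      rw [← sum_add_distrib]
      simp only [add_sub_cancel]
      rw [sum_const, nsmul_eq_mul, Int.card_Icc]
      simp
    have e3 : (Z : ℝ) * ‖∑ h ∈ Icc (1 : ℤ) H, Sm_b c W f0 f2 h‖ =
        ‖(Z : ℂ) * ∑ h ∈ Icc (1 : ℤ) H, Sm_b c W f0 f2 h‖ := by
      rw [norm_mul, Complex.norm_natCast]
    rw [e3, e2]
    refine (norm_add_le _ _).trans (add_le_add le_rfl ?_)
    refine (norm_sum_le _ _).trans ?_
    refine (sum_le_card_nsmul _ _ _ fun z hz => Sm_int hb H q Z hq hqZ z hz).trans ?_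
    rw [nsmul_eq_mul, hcardZ]
  refine e1.trans (add_le_add ?_ le_rfl)
  rw [sum_comm]
  refine (norm_sum_le _ _).trans ?_
  have hs0 : 0 ≤ s := by
    have hqZ' : (q : ℤ) * Z ≤ H := by exact_mod_cast hqZ
    refine le_trans (tsum_nonneg fun n => norm_nonneg _) (hs 0 ?_)
    rw [mem_Icc]
    omega
  have e4 : ∀ k ∈ Icc (0 : ℤ) ((H : ℤ) - q * Z),
      ‖∑ z ∈ Icc (1 : ℤ) Z, Sm_b c W f0 f2 (k + q * z)‖ ≤
        L * s + (2 * R + 1) * (Z * (2 * Z)) := by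
    intro k hk
    refine (Sm_main h0 h2 c hW q Z hst k).trans (add_le_add ?_ le_rfl)
    exact mul_le_mul_of_nonneg_left (hs k hk) (Nat.cast_nonneg _)
  refine (sum_le_card_nsmul _ _ _ e4).trans ?_
  rw [nsmul_eq_mul]
  apply mul_le_mul_of_nonneg_right _ (by positivity)
  have h5 : (Icc (0 : ℤ) ((H : ℤ) - q * Z)).card ≤ H := by
    rw [Int.card_Icc]
    have h6 : (1 : ℤ) ≤ q * Z := by exact_mod_cast Nat.mul_pos hq hZ
    omega
  exact_mod_cast h5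

private theorem Sm_floor {x : ℝ} (hx : 1 ≤ x) : x / 2 ≤ (⌊x⌋₊ : ℝ) ∧ (⌊x⌋₊ : ℝ) ≤ x ∧ 1 ≤ ⌊x⌋₊ := by
  have h1 : 1 ≤ ⌊x⌋₊ := Nat.le_floor (by simpa using hx)
  have h2 := Nat.lt_floor_add_one x
  have h3 : (1 : ℝ) ≤ ⌊x⌋₊ := by exact_mod_cast h1
  exact ⟨by linarith, Nat.floor_le (by linarith), h1⟩

private theorem Sm_num1 {M q Z H a d : ℝ} (hM : 0 ≤ M) (hq : 0 ≤ q) (hH : 0 ≤ H) (ha : 0 ≤ a)
    (hZ : Z ≤ d * H) (hkey : 16 * M * d ≤ a * a) (hqa : q * a ≤ 1) : 4 * M * (q * Z) ≤ a * H := by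
  calc 4 * M * (q * Z) ≤ 4 * M * (q * (d * H)) := by
        apply mul_le_mul_of_nonneg_left _ (by positivity)
        exact mul_le_mul_of_nonneg_left hZ hq
    _ = (16 * M * d) * (q * H / 4) := by ring
    _ ≤ (a * a) * (q * H / 4) := mul_le_mul_of_nonneg_right hkey (by positivity)
    _ = (q * a) * (a * H / 4) := by ring
    _ ≤ 1 * (a * H / 4) := mul_le_mul_of_nonneg_right hqa (by positivity)
    _ ≤ a * H := by
        have : 0 ≤ a * H := by positivity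
        linarith

private theorem Sm_num3 {M Z H a d L : ℝ} (_hM : 0 ≤ M) (hH : 0 ≤ H) (ha : 0 ≤ a)
    (hZ : Z ≤ d * H) (hL : a * H / 2 ≤ L) (hkey : 16 * M * d ≤ a * a) : 8 * M * Z ≤ a * L := by
  calc 8 * M * Z ≤ 8 * M * (d * H) := mul_le_mul_of_nonneg_left hZ (by positivity)
    _ = (16 * M * d) * (H / 2) := by ring
    _ ≤ (a * a) * (H / 2) := mul_le_mul_of_nonneg_right hkey (by positivity)
    _ = a * (a * H / 2) := by ring
    _ ≤ a * L := mul_le_mul_of_nonneg_left hL ha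

private theorem Sm_num2 {Z H a d L M q S1 R1 : ℝ} (hZ : 0 < Z) (hH : 0 < H) (ha : 0 < a)
    (hL : 0 < L) (hq : 0 ≤ q) (hM : 0 ≤ M)
    (h3 : Z * (H * S1) ≤ H * (L * (d * H ^ 2 * Z) + R1 * (Z * (2 * Z))) + Z * (q * Z * (R1 * L)))
    (h4 : a * H ^ 2 * L ≤ S1) (h5 : R1 ≤ M * H ^ 2) (hC : d ≤ a / 4)
    (hk1 : 8 * M * Z ≤ a * L) (hk2 : 4 * M * (q * Z) ≤ a * H) : False := by
  have h6 : Z * (H * (a * H ^ 2 * L)) ≤ Z * (H * S1) := by
    apply mul_le_mul_of_nonneg_left _ hZ.le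
    exact mul_le_mul_of_nonneg_left h4 hH.le
  have h7 : H * (L * (d * H ^ 2 * Z)) ≤ H * (L * (a / 4 * H ^ 2 * Z)) := by
    apply mul_le_mul_of_nonneg_left _ hH.le
    apply mul_le_mul_of_nonneg_left _ hL.le
    apply mul_le_mul_of_nonneg_right _ hZ.le
    exact mul_le_mul_of_nonneg_right hC (by positivity)
  have h8 : H * (R1 * (Z * (2 * Z))) ≤ (a * L) * (Z * H ^ 3 / 4) := by
    calc H * (R1 * (Z * (2 * Z))) ≤ H * ((M * H ^ 2) * (Z * (2 * Z))) := by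
          apply mul_le_mul_of_nonneg_left _ hH.le
          exact mul_le_mul_of_nonneg_right h5 (by positivity)
      _ = (8 * M * Z) * (Z * H ^ 3 / 4) := by ring
      _ ≤ _ := mul_le_mul_of_nonneg_right hk1 (by positivity)
  have h9 : Z * (q * Z * (R1 * L)) ≤ (a * H) * (Z * H ^ 2 * L / 4) := by
    calc Z * (q * Z * (R1 * L)) ≤ Z * (q * Z * ((M * H ^ 2) * L)) := by
          apply mul_le_mul_of_nonneg_left _ hZ.le
          apply mul_le_mul_of_nonneg_left _ (by positivity)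
          exact mul_le_mul_of_nonneg_right h5 hL.le
      _ = (4 * M * (q * Z)) * (Z * H ^ 2 * L / 4) := by ring
      _ ≤ _ := mul_le_mul_of_nonneg_right hk2 (by positivity)
  have h10 : 0 < a * (Z * H ^ 3 * L) := by positivity
  have h11 : Z * (H * (a * H ^ 2 * L)) = a * (Z * H ^ 3 * L) := by ring
  have h12 : H * (L * (a / 4 * H ^ 2 * Z)) = a * (Z * H ^ 3 * L) / 4 := by ring
  have h13 : (a * L) * (Z * H ^ 3 / 4) = a * (Z * H ^ 3 * L) / 4 := by ring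
  have h14 : (a * H) * (Z * H ^ 2 * L / 4) = a * (Z * H ^ 3 * L) / 4 := by ring
  rw [h11] at h6
  rw [h12] at h7
  rw [h13] at h8
  rw [h14] at h9
  have h15 : H * (L * (d * H ^ 2 * Z) + R1 * (Z * (2 * Z))) =
      H * (L * (d * H ^ 2 * Z)) + H * (R1 * (Z * (2 * Z))) := by ring
  rw [h15] at h3
  linarith

theorem thm_Sm (hDu : St_Dual) (hI : St_Inv1) : St_Sm := by
  intro K
  obtain ⟨C1, hC1⟩ := hI (K + 2)
  obtain ⟨E, hE⟩ : ∃ E : ℕ, E = 2 * K + 3 := ⟨_, rfl⟩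
  obtain ⟨A, hA⟩ : ∃ A : ℕ, A = E * C1 := ⟨_, rfl⟩
  obtain ⟨M, hM⟩ : ∃ M : ℕ, M = 2 * K + 1 := ⟨_, rfl⟩
  obtain ⟨D, hD⟩ : ∃ D : ℕ, D = 2 * A + (4 + M) := ⟨_, rfl⟩
  refine ⟨D + 1, ?_⟩
  intro H δ hR c hc f0 f1 f2 h0 h1 h2 hT
  obtain ⟨hδ0, hδ1, hδl, hδH⟩ := hR
  have hH1 : 1 ≤ H := by
    by_contra h
    have h3 : H = 0 := by omega
    rw [h3] at hδH
    norm_num at hδH
  have hHr : (1 : ℝ) ≤ H := by exact_mod_cast hH1
  have hH0 : (0 : ℝ) < H := by linarith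
  have hδle : δ ≤ 1 := by linarith
  have hpow : ∀ {a b : ℕ}, a ≤ b → δ ^ b ≤ δ ^ a := fun h =>
    pow_le_pow_of_le_one hδ0.le hδle h
  have hMr : (M : ℝ) = 2 * K + 1 := by rw [hM]; push_cast; ring
  have hMpos : (0 : ℝ) < M := by rw [hMr]; positivity
  have hMδ : (M : ℝ) * δ ^ M ≤ 1 := by
    have h3 : (M : ℝ) ≤ 2 ^ M := by exact_mod_cast Nat.lt_two_pow_self.le
    have h4 : δ ^ M ≤ (1 / 2) ^ M := pow_le_pow_left₀ hδ0.le hδ1 M
    calc (M : ℝ) * δ ^ M ≤ 2 ^ M * (1 / 2) ^ M := mul_le_mul h3 h4 (by positivity) (by positivity)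
      _ = 1 := by rw [← mul_pow]; norm_num
  obtain ⟨-, hG, hTT⟩ := hDu K H c hH1 hc f0 f1 f2 h0 h1 h2
  have hbig : δ ^ E * (H : ℝ) ^ 3 ≤ ‖TT c H f0 (dualG c H f0 f2) f2‖ := by
    have h3 : (δ * (H : ℝ) ^ 3) ^ 2 ≤ ‖TT c H f0 f1 f2‖ ^ 2 :=
      pow_le_pow_left₀ (by positivity) hT 2
    have h4 := h3.trans hTT
    rw [← hMr] at h4
    have h5 : (H : ℝ) ^ 3 * (δ ^ 2 * (H : ℝ) ^ 3) ≤
        (H : ℝ) ^ 3 * (M * ‖TT c H f0 (dualG c H f0 f2) f2‖) := by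
      calc (H : ℝ) ^ 3 * (δ ^ 2 * (H : ℝ) ^ 3) = (δ * (H : ℝ) ^ 3) ^ 2 := by ring
        _ ≤ _ := h4
        _ = _ := by ring
    have h6 := le_of_mul_le_mul_left h5 (by positivity)
    have h7 : E = M + 2 := by omega
    calc δ ^ E * (H : ℝ) ^ 3 = δ ^ M * (δ ^ 2 * (H : ℝ) ^ 3) := by rw [h7, pow_add]; ring
      _ ≤ δ ^ M * (M * ‖TT c H f0 (dualG c H f0 f2) f2‖) :=
          mul_le_mul_of_nonneg_left h6 (by positivity)
      _ = (M * δ ^ M) * ‖TT c H f0 (dualG c H f0 f2) f2‖ := by ring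
      _ ≤ 1 * ‖TT c H f0 (dualG c H f0 f2) f2‖ := mul_le_mul_of_nonneg_right hMδ (norm_nonneg _)
      _ = _ := one_mul _
  have hmono : ∀ f : ℤ → ℂ, Bd (K * H ^ 2) f → Bd ((K + 2) * H ^ 2) f := by
    intro f hf
    refine ⟨hf.1, fun n hn => hf.2 n (lt_of_le_of_lt ?_ hn)⟩
    have h3 : K * H ^ 2 ≤ (K + 2) * H ^ 2 := Nat.mul_le_mul_right _ (by omega)
    exact_mod_cast h3
  have hδE : δ ^ E ≤ δ := by
    have := hpow (a := 1) (b := E) (by omega)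
    simpa using this
  have hlog : 0 ≤ 1 + Real.log H := by
    have := Real.log_nonneg hHr
    linarith
  have haH : 1 ≤ δ ^ A * H := by
    refine hδH.trans (mul_le_mul_of_nonneg_right (hpow ?_) hH0.le)
    omega
  have hRg : Rg C1 H (δ ^ E) := by
    refine ⟨by positivity, hδE.trans hδ1, ?_, ?_⟩
    · exact (mul_le_mul_of_nonneg_right hδE hlog).trans hδl
    · rw [← pow_mul, ← hA]
      exact haH
  obtain ⟨q, hq1, hq2, hq3⟩ := hC1 H (δ ^ E) hRg c hc f0 (dualG c H f0 f2) f2 (hmono f0 h0) hG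
    (hmono f2 h2) hbig
  have hq2' : (q : ℝ) ≤ (1 / δ) ^ A := by
    rw [hA, pow_mul, one_div_pow δ E]
    exact hq2
  have hq3' : ∀ L : ℕ, 1 ≤ L → (L : ℝ) ≤ δ ^ A * H → δ ^ A * (H : ℝ) ^ 2 * L ≤
      ∑' n : ℤ, ‖∑ y ∈ Icc (1 : ℤ) L, dualG c H f0 f2 (n + q * y)‖ := by
    intro L hL1 hL2
    rw [hA, pow_mul] at hL2 ⊢
    exact hq3 L hL1 hL2
  have hDH : 1 ≤ δ ^ D * H := by
    refine hδH.trans (mul_le_mul_of_nonneg_right (hpow ?_) hH0.le)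
    omega
  obtain ⟨hL1, hL2, hL3⟩ := Sm_floor haH
  obtain ⟨hZ1, hZ2, hZ3⟩ := Sm_floor hDH
  set L : ℕ := ⌊δ ^ A * H⌋₊ with hLdef
  set Z : ℕ := ⌊δ ^ D * H⌋₊ with hZdef
  have hLr : (1 : ℝ) ≤ L := by exact_mod_cast hL3
  have hZr : (1 : ℝ) ≤ Z := by exact_mod_cast hZ3
  have ha0 : 0 < δ ^ A := by positivity
  -- `16 M δ^D ≤ δ^(2A)`
  have hkey : 16 * (M : ℝ) * δ ^ D ≤ δ ^ A * δ ^ A := by
    have h3 : δ ^ 4 ≤ (1 / 2) ^ 4 := pow_le_pow_left₀ hδ0.le hδ1 4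
    have h4 : δ ^ D = δ ^ A * δ ^ A * (δ ^ 4 * δ ^ M) := by
      rw [hD, pow_add, pow_add, two_mul, pow_add]
    have h5 : 16 * (M : ℝ) * (δ ^ 4 * δ ^ M) ≤ 1 := by
      calc 16 * (M : ℝ) * (δ ^ 4 * δ ^ M) = 16 * δ ^ 4 * (M * δ ^ M) := by ring
        _ ≤ 16 * (1 / 2) ^ 4 * 1 := by
            apply mul_le_mul _ hMδ (by positivity) (by positivity)
            linarith
        _ = 1 := by norm_num
    calc 16 * (M : ℝ) * δ ^ D = δ ^ A * δ ^ A * (16 * (M : ℝ) * (δ ^ 4 * δ ^ M)) := by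
          rw [h4]; ring
      _ ≤ δ ^ A * δ ^ A * 1 := mul_le_mul_of_nonneg_left h5 (by positivity)
      _ = _ := mul_one _
  have hqa : (q : ℝ) * δ ^ A ≤ 1 := by
    calc (q : ℝ) * δ ^ A ≤ (1 / δ) ^ A * δ ^ A := mul_le_mul_of_nonneg_right hq2' ha0.le
      _ = 1 := by rw [← mul_pow, one_div_mul_cancel hδ0.ne', one_pow]
  -- `8 M Z ≤ δ^A L`
  have hk1 : 8 * (M : ℝ) * Z ≤ δ ^ A * L := Sm_num3 hMpos.le hH0.le ha0.le hZ2 hL1 hkey
  -- `4 M q Z ≤ δ^A H`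
  have hk2 : 4 * (M : ℝ) * (q * Z) ≤ δ ^ A * H :=
    Sm_num1 hMpos.le (Nat.cast_nonneg _) hH0.le ha0.le hZ2 hkey hqa
  have hqZ : q * Z ≤ H := by
    have h3 : (q : ℝ) * Z ≤ H := by
      have h4 : (1 : ℝ) ≤ M := by rw [hMr]; linarith [(Nat.cast_nonneg K : (0 : ℝ) ≤ K)]
      have h5 : (q : ℝ) * Z ≤ 4 * (M : ℝ) * (q * Z) := by
        have : 0 ≤ (q : ℝ) * Z := by positivity
        nlinarith
      have h6 : δ ^ A * (H : ℝ) ≤ 1 * H := by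
        apply mul_le_mul_of_nonneg_right _ hH0.le
        exact pow_le_one₀ hδ0.le hδle
      linarith
    exact_mod_cast h3
  have hC : δ ^ (D + 1) ≤ δ ^ A / 4 := by
    have h3 : δ ^ (D + 1) ≤ δ ^ (A + 2) := hpow (by omega)
    have h4 : δ ^ 2 ≤ (1 / 2) ^ 2 := pow_le_pow_left₀ hδ0.le hδ1 2
    rw [pow_add δ A 2] at h3
    have h5 := mul_le_mul_of_nonneg_left h4 ha0.le
    linarith
  by_cases hex : ∃ k ∈ Icc (0 : ℤ) ((H : ℤ) - q * Z), δ ^ (D + 1) * (H : ℝ) ^ 2 * Z ≤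
      ∑' n : ℤ, ‖∑ z ∈ Icc (1 : ℤ) Z, f2 (n + pp c (k + q * z))‖
  · obtain ⟨k, hk1', hk2'⟩ := hex
    refine ⟨q, Z, k, hq1, ?_, ?_, hqZ, ?_, hk2'⟩
    · refine hq2'.trans (pow_le_pow_right₀ ?_ (by omega))
      rw [le_div_iff₀ hδ0]
      linarith
    · rw [mem_Icc] at hk1'
      have h3 : (0 : ℤ) ≤ q * Z := by positivity
      rw [abs_of_nonneg hk1'.1]
      omega
    · rw [pow_succ]
      have h3 : δ ^ D * δ * H ≤ δ ^ D * H / 2 := by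
        have : 0 < δ ^ D * H := by positivity
        nlinarith
      exact h3.trans hZ1
  · exfalso
    push Not at hex
    have h3 := Sm_comb h0 h2 c H hH1 hG q L Z hq1 hZ3 hqZ (δ ^ (D + 1) * (H : ℝ) ^ 2 * Z)
      fun k hk => (hex k hk).le
    have h4 := hq3' L hL3 hL2
    have h5 : (2 * ((K * H ^ 2 : ℕ) : ℝ) + 1) ≤ M * (H : ℝ) ^ 2 := by
      rw [hMr]
      push_cast
      nlinarith
    exact Sm_num2 (by linarith) hH0 ha0 (by linarith) (Nat.cast_nonneg q) hMpos.le h3 h4 h5 hC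
      hk1 hk2

end Pool.Agent.NRP
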