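import Mathlib
import Pool.Agent.NRP.StI

set_option autoImplicit false

/-!
# NRP: splitting of iterated derivatives (`St_Split`)
-/

namespace Pool.Agent.NRP

open Finset
open scoped ComplexConjugate

namespace SplitM

theorem dls_mul : ∀ (m : ℕ) (k : Fin m → ℤ) (f g : ℤ → ℂ) (x : ℤ),
    dls m k (fun n => f n * g n) x = dls m k f x * dls m k g x
  | 0, _, _, _, _ => rfl
  | m + 1, k, f, g, x => by
    have e : dl (k 0) (fun n => f n * g n) = fun n => dl (k 0) f n * dl (k 0) g n := by
      funext n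
      simp only [dl, map_mul]
      ring
    show dls m (Fin.tail k) (dl (k 0) (fun n => f n * g n)) x = _
    rw [e, dls_mul m (Fin.tail k) (dl (k 0) f) (dl (k 0) g) x]
    rfl

theorem dls_conj : ∀ (m : ℕ) (k : Fin m → ℤ) (f : ℤ → ℂ) (x : ℤ),
    dls m k (fun n => conj (f n)) x = conj (dls m k f x)
  | 0, _, _, _ => rfl
  | m + 1, k, f, x => by
    have e : dl (k 0) (fun n => conj (f n)) = fun n => conj (dl (k 0) f n) := by
      funext n
      simp only [dl, map_mul]
    show dls m (Fin.tail k) (dl (k 0) (fun n => conj (f n))) x = _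
    rw [e, dls_conj m (Fin.tail k) (dl (k 0) f) x]
    rfl

theorem dls_shift : ∀ (m : ℕ) (k : Fin m → ℤ) (f : ℤ → ℂ) (a x : ℤ),
    dls m k (fun n => f (n + a)) x = dls m k f (x + a)
  | 0, _, _, _, _ => rfl
  | m + 1, k, f, a, x => by
    have e : dl (k 0) (fun n => f (n + a)) = fun n => dl (k 0) f (n + a) := by
      funext n
      simp only [dl]
      rw [show n + k 0 + a = n + a + k 0 by ring]
    show dls m (Fin.tail k) (dl (k 0) (fun n => f (n + a))) x = _
    rw [e, dls_shift m (Fin.tail k) (dl (k 0) f) a x]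
    rfl

theorem dl_bd {F : ℤ → ℂ} (hF : ∀ n, ‖F n‖ ≤ 1) (D : ℤ) : ∀ n, ‖dl D F n‖ ≤ 1 := by
  intro n
  rw [dl, norm_mul, RCLike.norm_conj]
  exact mul_le_one₀ (hF n) (norm_nonneg _) (hF _)

theorem dls_bd : ∀ (m : ℕ) (k : Fin m → ℤ) (F : ℤ → ℂ), (∀ n, ‖F n‖ ≤ 1) →
    ∀ x, ‖dls m k F x‖ ≤ 1
  | 0, _, _, h, x => h x
  | m + 1, k, F, h, x => dls_bd m (Fin.tail k) (dl (k 0) F) (dl_bd h (k 0)) x

theorem dls_succ (m : ℕ) (k : Fin (m + 1) → ℤ) (F : ℤ → ℂ) (x : ℤ) :
    dls (m + 1) k F x = dls m (Fin.tail k) F x * conj (dls m (Fin.tail k) F (x + k 0)) := by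
  have e : dl (k 0) F = fun n => F n * (fun n => conj ((fun n => F (n + k 0)) n)) n := rfl
  show dls m (Fin.tail k) (dl (k 0) F) x = _
  rw [e, dls_mul, dls_conj, dls_shift]

end SplitM

open SplitM in
theorem thm_Split : St_Split := by
  intro m
  induction m with
  | zero =>
    intro F hF
    refine ⟨fun _ i => i.elim0, fun x i => i.elim0, fun x i => i.elim0, fun x k => ?_⟩
    simp [dls]
  | succ m ih =>
    intro F hF
    obtain ⟨b, hb1, hb2, hb3⟩ := ih F hF
    refine ⟨fun x => Fin.cons (α := fun _ => (Fin (m + 1) → ℤ) → ℂ)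
      (fun k => dls m (Fin.tail k) F x) (fun i k => conj (b (x + k 0) i (Fin.tail k))), ?_, ?_, ?_⟩
    · intro x i k
      refine Fin.cases ?_ (fun j => ?_) i
      · simp only [Fin.cons_zero]
        exact dls_bd m _ F hF x
      · simp only [Fin.cons_succ, RCLike.norm_conj]
        exact hb1 _ _ _
    · intro x i k k' h
      revert h
      refine Fin.cases ?_ (fun j => ?_) i
      · intro h
        simp only [Fin.cons_zero]
        have : Fin.tail k = Fin.tail k' := by
          funext j
          exact h j.succ (Fin.succ_ne_zero j)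
        rw [this]
      · intro h
        simp only [Fin.cons_succ]
        have h0 : k 0 = k' 0 := h 0 (Fin.succ_ne_zero j).symm
        rw [h0]
        refine congrArg _ (hb2 (x + k' 0) j _ _ fun l hl => ?_)
        exact h l.succ (fun e => hl (Fin.succ_injective _ e))
    · intro x k
      rw [dls_succ, hb3 (x + k 0) (Fin.tail k), Fin.prod_univ_succ, Fin.sum_univ_succ]
      simp only [Fin.cons_zero, Fin.cons_succ, map_mul, map_prod]
      have es : x + k 0 + ∑ i, Fin.tail k i = x + (k 0 + ∑ i : Fin m, k i.succ) := by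
        simp only [Fin.tail]
        ring
      rw [es]
      by_cases hm : Even m
      · have hm' : ¬ Even (m + 1) := by rw [Nat.even_add_one]; exact not_not.mpr hm
        rw [if_pos hm, if_neg hm']
        ring
      · have hm' : Even (m + 1) := by rw [Nat.even_add_one]; exact hm
        rw [if_neg hm, if_pos hm', Complex.conj_conj]
        ring

end Pool.Agent.NRP
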