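import Pool.Agent.NRP.StI

set_option autoImplicit false

/-!
# U2I : the inverse theorem for the U² norm
-/

namespace Pool.Agent.NRP

open Finset
open Pool.Agent.GBQ (ee nd ee_norm ee_zero ee_add ee_neg ee_int)
open scoped ComplexConjugate

theorem U2I_ee_eq_one {x : ℝ} (h : ee x = 1) : ∃ n : ℤ, x = n := by
  unfold ee at h
  rw [Complex.exp_eq_one_iff] at h
  obtain ⟨n, hn⟩ := h
  refine ⟨n, ?_⟩
  have h1 : ((2 * Real.pi * x : ℝ) : ℂ) = ((2 * Real.pi * n : ℝ) : ℂ) := by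
    have h2 : ((2 * Real.pi * x : ℝ) : ℂ) * Complex.I = ((2 * Real.pi * n : ℝ) : ℂ) * Complex.I := by
      rw [hn]
      push_cast
      ring
    exact mul_right_cancel₀ Complex.I_ne_zero h2
  have h3 : 2 * Real.pi * x = 2 * Real.pi * n := Complex.ofReal_injective h1
  exact mul_left_cancel₀ (by positivity) h3

theorem U2I_ee_pow (x : ℝ) (j : ℕ) : ee (j * x) = ee x ^ j := by
  induction j with
  | zero => simp [ee_zero]
  | succ j ih =>
    rw [pow_succ, ← ih, ← ee_add]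
    congr 1
    push_cast
    ring

/-- Orthogonality. -/
theorem U2I_orth (q : ℕ) (hq : 0 < q) (m : ℤ) :
    ∑ j ∈ range q, ee (j * (m / q)) = if (q : ℤ) ∣ m then (q : ℂ) else 0 := by
  have hq' : (q : ℝ) ≠ 0 := by positivity
  split_ifs with h
  · obtain ⟨k, rfl⟩ := h
    have : ∀ j ∈ range q, ee (j * (((q : ℤ) * k : ℤ) / q)) = 1 := by
      intro j _
      have e : (j : ℝ) * (((q : ℤ) * k : ℤ) / q) = ((j * k : ℤ) : ℝ) := by
        push_cast
        field_simp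
      rw [e, ee_int]
    rw [sum_congr rfl this]
    simp
  · have h1 : ee ((m : ℝ) / q) ≠ 1 := by
      intro h2
      obtain ⟨n, hn⟩ := U2I_ee_eq_one h2
      apply h
      refine ⟨n, ?_⟩
      rw [div_eq_iff hq'] at hn
      have : (m : ℝ) = ((q * n : ℤ) : ℝ) := by
        push_cast
        rw [hn]
        ring
      exact_mod_cast this
    have h2 : ee ((m : ℝ) / q) ^ q = 1 := by
      rw [← U2I_ee_pow]
      have e : (q : ℝ) * (m / q) = ((m : ℤ) : ℝ) := by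
        field_simp
      rw [e, ee_int]
    rw [sum_congr rfl fun j _ => U2I_ee_pow _ j, geom_sum_eq h1, h2]
    simp

/-- Orthogonality over a complete residue system. -/
theorem U2I_orth' (M : ℕ) (m : ℤ) :
    ∑ D ∈ Icc (-(2 * M : ℤ)) (2 * M), ee (D * (m / ((4 * M + 1 : ℕ) : ℝ))) =
      if ((4 * M + 1 : ℕ) : ℤ) ∣ m then ((4 * M + 1 : ℕ) : ℂ) else 0 := by
  have h1 : ∑ D ∈ Icc (-(2 * M : ℤ)) (2 * M), ee (D * (m / ((4 * M + 1 : ℕ) : ℝ))) =
      ∑ j ∈ range (4 * M + 1), ee ((((j : ℤ) - 2 * M : ℤ) : ℝ) * (m / ((4 * M + 1 : ℕ) : ℝ))) := by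
    symm
    apply sum_bij (fun (j : ℕ) _ => (j : ℤ) - 2 * M)
    · intro j hj
      rw [mem_range] at hj
      rw [mem_Icc]
      omega
    · intro a _ b _ h
      omega
    · intro D hD
      rw [mem_Icc] at hD
      refine ⟨(D + 2 * M).toNat, ?_, ?_⟩
      · rw [mem_range]
        omega
      · omega
    · intro j _
      rfl
  rw [h1]
  have h2 : ∀ j ∈ range (4 * M + 1), ee ((((j : ℤ) - 2 * M : ℤ) : ℝ) * (m / ((4 * M + 1 : ℕ) : ℝ))) =
      ee (-(2 * M) * (m / ((4 * M + 1 : ℕ) : ℝ))) * ee (j * (m / ((4 * M + 1 : ℕ) : ℝ))) := by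
    intro j _
    rw [← ee_add]
    congr 1
    push_cast
    ring
  rw [sum_congr rfl h2, ← mul_sum, U2I_orth _ (by omega)]
  split_ifs with h
  · obtain ⟨k, rfl⟩ := h
    have e : -(2 * (M : ℝ)) * ((((4 * M + 1 : ℕ) : ℤ) * k : ℤ) / ((4 * M + 1 : ℕ) : ℝ)) =
        ((-(2 * M) * k : ℤ) : ℝ) := by
      push_cast
      field_simp
    rw [e, ee_int, one_mul]
  · rw [mul_zero]

theorem U2I_tsum {M : ℕ} {G : ℤ → ℂ} (hG : Bd M G) (u : ℤ → ℂ) :
    ∑' n : ℤ, G n * u n = ∑ n ∈ Icc (-(M : ℤ)) M, G n * u n := by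
  apply tsum_eq_sum
  intro n hn
  have : (M : ℤ) < |n| := by
    rw [mem_Icc, not_and_or] at hn
    rw [lt_abs]
    omega
  rw [hG.2 n this, zero_mul]

/-- The squares of the absolute values of the Fourier coefficients. -/
noncomputable def U2I_a (M : ℕ) (G : ℤ → ℂ) (j : ℕ) : ℝ :=
  ‖∑' n : ℤ, G n * ee (((j : ℝ) / ((4 * M + 1 : ℕ) : ℝ)) * n)‖ ^ 2

theorem U2I_a_eq {M : ℕ} {G : ℤ → ℂ} (hG : Bd M G) (j : ℕ) :
    (U2I_a M G j : ℂ) = ∑ n ∈ Icc (-(M : ℤ)) M, ∑ m ∈ Icc (-(M : ℤ)) M,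
      G n * conj (G m) * ee (j * (((n - m : ℤ) : ℝ) / ((4 * M + 1 : ℕ) : ℝ))) := by
  unfold U2I_a
  rw [U2I_tsum hG]
  push_cast
  rw [← Complex.conj_mul', map_sum, sum_mul_sum, sum_comm]
  apply sum_congr rfl
  intro n _
  apply sum_congr rfl
  intro m _
  rw [map_mul, ← ee_neg]
  have e : ee ((j : ℝ) * (((n - m : ℤ) : ℝ) / ((4 * M + 1 : ℕ) : ℝ))) =
      ee (((j : ℝ) / ((4 * M + 1 : ℕ) : ℝ)) * n) * ee (-(((j : ℝ) / ((4 * M + 1 : ℕ) : ℝ)) * m)) := by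
    rw [← ee_add]
    congr 1
    push_cast
    ring
  push_cast at e ⊢
  rw [e]
  ring

/-- The correlations. -/
theorem U2I_corr {M : ℕ} {G : ℤ → ℂ} (hG : Bd M G) {D : ℤ} (hD : D ∈ Icc (-(2 * M : ℤ)) (2 * M)) :
    ∑ j ∈ range (4 * M + 1), (U2I_a M G j : ℂ) * ee (j * ((D : ℝ) / ((4 * M + 1 : ℕ) : ℝ))) =
      ((4 * M + 1 : ℕ) : ℂ) * ∑' n : ℤ, dl D G n := by
  have h1 : ∑' n : ℤ, dl D G n = ∑ n ∈ Icc (-(M : ℤ)) M, G n * conj (G (n + D)) :=
    U2I_tsum hG fun n => conj (G (n + D))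
  rw [h1]
  rw [sum_congr rfl fun j _ => by rw [U2I_a_eq hG j]]
  simp_rw [sum_mul]
  rw [sum_comm, mul_sum]
  apply sum_congr rfl
  intro n hn
  rw [sum_comm]
  have h2 : ∀ m ∈ Icc (-(M : ℤ)) M, ∑ j ∈ range (4 * M + 1),
      G n * conj (G m) * ee (j * (((n - m : ℤ) : ℝ) / ((4 * M + 1 : ℕ) : ℝ))) *
        ee (j * ((D : ℝ) / ((4 * M + 1 : ℕ) : ℝ))) =
      if m = n + D then ((4 * M + 1 : ℕ) : ℂ) * (G n * conj (G m)) else 0 := by
    intro m hm
    have h3 : ∀ j ∈ range (4 * M + 1),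
        G n * conj (G m) * ee (j * (((n - m : ℤ) : ℝ) / ((4 * M + 1 : ℕ) : ℝ))) *
          ee (j * ((D : ℝ) / ((4 * M + 1 : ℕ) : ℝ))) =
        G n * conj (G m) * ee (j * (((n - m + D : ℤ) : ℝ) / ((4 * M + 1 : ℕ) : ℝ))) := by
      intro j _
      rw [mul_assoc, ← ee_add]
      congr 2
      push_cast
      ring
    rw [sum_congr rfl h3, ← mul_sum, U2I_orth _ (by omega)]
    rw [mem_Icc] at hn hm hD
    by_cases h4 : m = n + D
    · rw [if_pos h4, if_pos]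
      · ring
      · rw [h4]
        have : n - (n + D) + D = 0 := by ring
        rw [this]
        exact dvd_zero _
    · rw [if_neg h4, if_neg, mul_zero]
      intro h5
      apply h4
      have h6 : n - m + D = 0 := by
        apply Int.eq_zero_of_abs_lt_dvd h5
        rw [abs_lt]
        push_cast
        omega
      omega
  rw [sum_congr rfl h2, sum_ite_eq']
  split_ifs with h3
  · rfl
  · have : (M : ℤ) < |n + D| := by
      rw [mem_Icc, not_and_or] at h3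
      rw [lt_abs]
      omega
    rw [hG.2 _ this]
    simp

theorem U2I_corr_zero {M : ℕ} {G : ℤ → ℂ} (hG : Bd M G) {D : ℤ}
    (hD : D ∉ Icc (-(2 * M : ℤ)) (2 * M)) : ∑' n : ℤ, dl D G n = 0 := by
  have h1 : ∑' n : ℤ, dl D G n = ∑ n ∈ Icc (-(M : ℤ)) M, G n * conj (G (n + D)) :=
    U2I_tsum hG fun n => conj (G (n + D))
  rw [h1]
  apply sum_eq_zero
  intro n hn
  have : (M : ℤ) < |n + D| := by
    rw [mem_Icc] at hn hD
    rw [lt_abs]
    omega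
  rw [hG.2 _ this]
  simp

/-- Parseval. -/
theorem U2I_parseval (M : ℕ) (a : ℕ → ℝ) :
    ∑ D ∈ Icc (-(2 * M : ℤ)) (2 * M),
      ‖∑ j ∈ range (4 * M + 1), (a j : ℂ) * ee (j * ((D : ℝ) / ((4 * M + 1 : ℕ) : ℝ)))‖ ^ 2 =
      ((4 * M + 1 : ℕ) : ℝ) * ∑ j ∈ range (4 * M + 1), a j ^ 2 := by
  apply Complex.ofReal_injective
  push_cast
  have h1 : ∀ D ∈ Icc (-(2 * M : ℤ)) (2 * M),
      ((‖∑ j ∈ range (4 * M + 1), (a j : ℂ) * ee (j * ((D : ℝ) / (4 * M + 1)))‖ : ℝ) : ℂ) ^ 2 =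
      ∑ j ∈ range (4 * M + 1), ∑ k ∈ range (4 * M + 1), (a j : ℂ) * (a k : ℂ) *
        ee (D * (((j - k : ℤ) : ℝ) / ((4 * M + 1 : ℕ) : ℝ))) := by
    intro D _
    rw [← Complex.conj_mul', map_sum, sum_mul_sum, sum_comm]
    apply sum_congr rfl
    intro j _
    apply sum_congr rfl
    intro k _
    rw [map_mul, ← ee_neg, Complex.conj_ofReal]
    have e : ee (D * (((j - k : ℤ) : ℝ) / ((4 * M + 1 : ℕ) : ℝ))) =
        ee (j * ((D : ℝ) / (4 * M + 1))) * ee (-(k * ((D : ℝ) / (4 * M + 1)))) := by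
      rw [← ee_add]
      congr 1
      push_cast
      ring
    rw [e]
    ring
  rw [sum_congr rfl h1, sum_comm, mul_sum]
  apply sum_congr rfl
  intro j hj
  rw [sum_comm]
  have h2 : ∀ k ∈ range (4 * M + 1), ∑ D ∈ Icc (-(2 * M : ℤ)) (2 * M), (a j : ℂ) * (a k : ℂ) *
        ee (D * (((j - k : ℤ) : ℝ) / ((4 * M + 1 : ℕ) : ℝ))) =
      if k = j then (4 * (M : ℂ) + 1) * ((a j : ℂ) * (a k : ℂ)) else 0 := by
    intro k hk
    rw [← mul_sum, U2I_orth']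
    rw [mem_range] at hj hk
    by_cases h4 : k = j
    · rw [if_pos h4, if_pos]
      · push_cast
        ring
      · rw [h4, sub_self]
        exact dvd_zero _
    · rw [if_neg h4, if_neg, mul_zero]
      intro h5
      apply h4
      have h6 : (j : ℤ) - k = 0 := by
        apply Int.eq_zero_of_abs_lt_dvd h5
        rw [abs_lt]
        push_cast
        omega
      omega
  rw [sum_congr rfl h2, sum_ite_eq', if_pos hj]
  ring

/-- The mean of the squares. -/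
theorem U2I_mean {M : ℕ} {G : ℤ → ℂ} (hG : Bd M G) :
    ∑ j ∈ range (4 * M + 1), U2I_a M G j ≤ ((4 * M + 1 : ℕ) : ℝ) * (2 * M + 1) := by
  have h1 := U2I_corr hG (D := 0) (by rw [mem_Icc]; omega)
  have h2 : ∑ j ∈ range (4 * M + 1), (U2I_a M G j : ℂ) *
      ee (j * (((0 : ℤ) : ℝ) / ((4 * M + 1 : ℕ) : ℝ))) =
      ((∑ j ∈ range (4 * M + 1), U2I_a M G j : ℝ) : ℂ) := by
    push_cast
    apply sum_congr rfl
    intro j _
    have e : (j : ℝ) * (((0 : ℤ) : ℝ) / ((4 * M + 1 : ℕ) : ℝ)) = 0 := by simp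
    push_cast at e ⊢
    rw [e, ee_zero, mul_one]
  rw [h2] at h1
  have h3 : ‖∑' n : ℤ, dl 0 G n‖ ≤ 2 * M + 1 := by
    have h4 : ∑' n : ℤ, dl 0 G n = ∑ n ∈ Icc (-(M : ℤ)) M, G n * conj (G (n + 0)) :=
      U2I_tsum hG fun n => conj (G (n + 0))
    rw [h4]
    calc ‖∑ n ∈ Icc (-(M : ℤ)) M, G n * conj (G (n + 0))‖
        ≤ ∑ n ∈ Icc (-(M : ℤ)) M, ‖G n * conj (G (n + 0))‖ := norm_sum_le _ _
      _ ≤ ∑ n ∈ Icc (-(M : ℤ)) M, (1 : ℝ) := by
          apply sum_le_sum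
          intro n _
          rw [norm_mul, RCLike.norm_conj]
          exact mul_le_one₀ (hG.1 _) (norm_nonneg _) (hG.1 _)
      _ = 2 * M + 1 := by
          rw [sum_const, Int.card_Icc, nsmul_eq_mul, mul_one]
          have : ((M : ℤ) + 1 - -(M : ℤ)).toNat = 2 * M + 1 := by omega
          rw [this]
          push_cast
          ring
  have h5 : ∑ j ∈ range (4 * M + 1), U2I_a M G j = ‖((4 * M + 1 : ℕ) : ℂ) * ∑' n : ℤ, dl 0 G n‖ := by
    rw [← h1, Complex.norm_real, Real.norm_of_nonneg]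
    exact sum_nonneg fun j _ => sq_nonneg _
  rw [h5, norm_mul, Complex.norm_natCast]
  exact mul_le_mul_of_nonneg_left h3 (by positivity)

theorem thm_U2I : St_U2I := by
  intro M R G hG
  set q : ℕ := 4 * M + 1 with hq
  have hq0 : (0 : ℝ) < (q : ℝ) := by
    rw [hq]
    positivity
  -- the largest coefficient
  obtain ⟨j0, hj0, hmax⟩ := exists_max_image (range q) (U2I_a M G) ⟨0, by
    rw [mem_range, hq]
    omega⟩
  refine ⟨(j0 : ℝ) / q, ?_⟩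
  have h1 : UU 1 R G = ∑ D ∈ Icc (-(R : ℤ)) R, ‖∑' n : ℤ, dl D G n‖ ^ 2 := rfl
  have h2 : UU 1 R G ≤ ∑ D ∈ Icc (-(2 * M : ℤ)) (2 * M), ‖∑' n : ℤ, dl D G n‖ ^ 2 := by
    rw [h1]
    rw [← sum_filter_add_sum_filter_not (Icc (-(R : ℤ)) R) (fun D => D ∈ Icc (-(2 * M : ℤ)) (2 * M))]
    have h3 : ∑ D ∈ (Icc (-(R : ℤ)) R).filter (fun D => ¬ D ∈ Icc (-(2 * M : ℤ)) (2 * M)),
        ‖∑' n : ℤ, dl D G n‖ ^ 2 = 0 := by
      apply sum_eq_zero
      intro D hD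
      rw [mem_filter] at hD
      rw [U2I_corr_zero hG hD.2]
      simp
    rw [h3, add_zero]
    apply sum_le_sum_of_subset_of_nonneg
    · intro D hD
      rw [mem_filter] at hD
      exact hD.2
    · intro D _ _
      positivity
  have h4 : (q : ℝ) ^ 2 * ∑ D ∈ Icc (-(2 * M : ℤ)) (2 * M), ‖∑' n : ℤ, dl D G n‖ ^ 2 =
      (q : ℝ) * ∑ j ∈ range q, U2I_a M G j ^ 2 := by
    rw [← U2I_parseval M (U2I_a M G), mul_sum]
    apply sum_congr rfl
    intro D hD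
    rw [U2I_corr hG hD, norm_mul, Complex.norm_natCast, mul_pow]
  have h5 : ∑ j ∈ range q, U2I_a M G j ^ 2 ≤ U2I_a M G j0 * ∑ j ∈ range q, U2I_a M G j := by
    rw [mul_sum]
    apply sum_le_sum
    intro j hj
    rw [sq]
    exact mul_le_mul_of_nonneg_right (hmax j hj) (sq_nonneg _)
  have h6 : U2I_a M G j0 * ∑ j ∈ range q, U2I_a M G j ≤ U2I_a M G j0 * ((q : ℝ) * (2 * M + 1)) :=
    mul_le_mul_of_nonneg_left (U2I_mean hG) (sq_nonneg _)
  have h7 : (q : ℝ) ^ 2 * ∑ D ∈ Icc (-(2 * M : ℤ)) (2 * M), ‖∑' n : ℤ, dl D G n‖ ^ 2 ≤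
      (q : ℝ) ^ 2 * ((2 * M + 1) * U2I_a M G j0) := by
    rw [h4]
    calc (q : ℝ) * ∑ j ∈ range q, U2I_a M G j ^ 2
        ≤ (q : ℝ) * (U2I_a M G j0 * ((q : ℝ) * (2 * M + 1))) :=
          mul_le_mul_of_nonneg_left (h5.trans h6) hq0.le
      _ = (q : ℝ) ^ 2 * ((2 * M + 1) * U2I_a M G j0) := by ring
  exact h2.trans (le_of_mul_le_mul_left h7 (by positivity))

end Pool.Agent.NRP
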