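import Mathlib
import Pool.Agent.NRP.StI

set_option autoImplicit false

/-!
# NRP: module V2, from the trilinear sum to the sums `SS`
-/

namespace Pool.Agent.NRP

open Finset
open scoped ComplexConjugate

private theorem V2_dl_comm (a b : ℤ) (f : ℤ → ℂ) : dl a (dl b f) = dl b (dl a f) := by
  funext n
  simp only [dl, map_mul, Complex.conj_conj]
  have h : n + a + b = n + b + a := by ring
  rw [h]
  ring

private theorem V2_Bd_dl {M : ℕ} {f : ℤ → ℂ} (hf : Bd M f) (D : ℤ) : Bd M (dl D f) := by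
  refine ⟨fun n => ?_, fun n hn => ?_⟩
  · simp only [dl, norm_mul, RCLike.norm_conj]
    have h1 := hf.1 n
    have h2 := hf.1 (n + D)
    nlinarith [norm_nonneg (f n), norm_nonneg (f (n + D))]
  · simp [dl, hf.2 n hn]

private theorem V2_tsum {M : ℕ} {g : ℤ → ℂ} (hg : Bd M g) :
    ∑' n : ℤ, g n = ∑ n ∈ Icc (-(M : ℤ)) M, g n := by
  refine tsum_eq_sum fun n hn => hg.2 n ?_
  rw [Finset.mem_Icc, not_and_or, not_le, not_le] at hn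
  rw [lt_abs]
  omega

private theorem V2_tsum_shift {M : ℕ} {g : ℤ → ℂ} (hg : Bd M g) {n : ℤ}
    (hn : n ∈ Icc (-(M : ℤ)) M) :
    ∑ k ∈ Icc (-((2 * M : ℕ) : ℤ)) ((2 * M : ℕ) : ℤ), conj (g (n + k)) =
      conj (∑' m : ℤ, g m) := by
  have h1 : ∑' k : ℤ, g (n + k) = ∑ k ∈ Icc (-((2 * M : ℕ) : ℤ)) ((2 * M : ℕ) : ℤ), g (n + k) := by
    refine tsum_eq_sum fun k hk => hg.2 _ ?_
    rw [Finset.mem_Icc, not_and_or, not_le, not_le] at hk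
    rw [Finset.mem_Icc] at hn
    rw [lt_abs]
    push_cast at hk
    omega
  have h2 : ∑' k : ℤ, g (n + k) = ∑' m : ℤ, g m := (Equiv.addLeft n).tsum_eq g
  rw [← h2, h1, map_sum]

private theorem V2_sq {M : ℕ} {g : ℤ → ℂ} (hg : Bd M g) :
    ((‖∑' n : ℤ, g n‖ ^ 2 : ℝ) : ℂ) =
      ∑ k ∈ Icc (-((2 * M : ℕ) : ℤ)) ((2 * M : ℕ) : ℤ), ∑' n : ℤ, dl k g n := by
  have h1 : ∀ k : ℤ, ∑' n : ℤ, dl k g n = ∑ n ∈ Icc (-(M : ℤ)) M, g n * conj (g (n + k)) :=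
    fun k => V2_tsum (V2_Bd_dl hg k)
  rw [Finset.sum_congr rfl fun k _ => h1 k, Finset.sum_comm]
  have h2 : ∀ n ∈ Icc (-(M : ℤ)) M,
      ∑ k ∈ Icc (-((2 * M : ℕ) : ℤ)) ((2 * M : ℕ) : ℤ), g n * conj (g (n + k)) =
        g n * conj (∑' m : ℤ, g m) := by
    intro n hn
    rw [← Finset.mul_sum, V2_tsum_shift hg hn]
  rw [Finset.sum_congr rfl h2, ← Finset.sum_mul, ← V2_tsum hg, Complex.mul_conj,
    Complex.normSq_eq_norm_sq]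

private theorem V2_swap2 {β : Type} [AddCommMonoid β] (s t u : Finset ℤ) (F : ℤ → ℤ → ℤ → β) :
    ∑ a ∈ s, ∑ b ∈ t, ∑ k ∈ u, F a b k = ∑ k ∈ u, ∑ a ∈ s, ∑ b ∈ t, F a b k := by
  rw [Finset.sum_congr rfl fun a _ => Finset.sum_comm, Finset.sum_comm]

private theorem V2_swap3 {β : Type} [AddCommMonoid β] (s t u w : Finset ℤ)
    (F : ℤ → ℤ → ℤ → ℤ → β) :
    ∑ a ∈ s, ∑ b ∈ t, ∑ d ∈ u, ∑ k ∈ w, F a b d k =
      ∑ k ∈ w, ∑ a ∈ s, ∑ b ∈ t, ∑ d ∈ u, F a b d k := by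
  rw [Finset.sum_congr rfl fun a _ => V2_swap2 t u w (F a), Finset.sum_comm]

/-- the expression of the last step -/
private noncomputable def V2_T (f : ℤ → ℂ) (a b h1 h2 h3 : ℤ) : ℝ :=
  ‖∑' n : ℤ, dl (2 * a * h1) (dl (2 * b * h2) (dl (2 * (a + b) * h3) f)) n‖

private theorem V2_T_nonneg (f : ℤ → ℂ) (a b h1 h2 h3 : ℤ) : 0 ≤ V2_T f a b h1 h2 h3 :=
  norm_nonneg _

private theorem V2_dsm (Δ : Finset ℤ) (f : ℤ → ℂ) (a b : ℤ) :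
    dsm Δ [AddMonoidHom.mulLeft (2 * a), AddMonoidHom.mulLeft (2 * b),
      AddMonoidHom.mulLeft (2 * (a + b))] f =
      ∑ h1 ∈ Δ, ∑ h2 ∈ Δ, ∑ h3 ∈ Δ, V2_T f a b h1 h2 h3 := by
  simp only [dsm, AddMonoidHom.coe_mulLeft, V2_T]
  refine Finset.sum_congr rfl fun h1 _ => Finset.sum_congr rfl fun h2 _ =>
    Finset.sum_congr rfl fun h3 _ => ?_
  rw [V2_dl_comm (2 * (a + b) * h3) (2 * b * h2), V2_dl_comm (2 * (a + b) * h3) (2 * a * h1),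
    V2_dl_comm (2 * b * h2) (2 * a * h1)]

/-- the second application of Cauchy and Schwarz, for fixed `h1, h2, h3` -/
private theorem V2_fix (K H : ℕ) (f : ℤ → ℂ) (hf : Bd (K * H ^ 2) f) (h1 h2 h3 : ℤ) :
    ∑ a ∈ Icc (-(H : ℤ)) H, ∑ b ∈ Icc (-(H : ℤ)) H, V2_T f a b h1 h2 h3 ^ 2 ≤
      ∑ k ∈ Icc (-((2 * K * H ^ 2 : ℕ) : ℤ)) ((2 * K * H ^ 2 : ℕ) : ℤ),
        ‖SS H (dl k f) h1 h2 h3‖ := by
  have e1 : ((∑ a ∈ Icc (-(H : ℤ)) H, ∑ b ∈ Icc (-(H : ℤ)) H, V2_T f a b h1 h2 h3 ^ 2 : ℝ) : ℂ) =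
      ∑ k ∈ Icc (-((2 * K * H ^ 2 : ℕ) : ℤ)) ((2 * K * H ^ 2 : ℕ) : ℤ),
        SS H (dl k f) h1 h2 h3 := by
    unfold SS
    rw [← V2_swap2 _ _ _ fun a b k =>
      ∑' n : ℤ, dl (2 * a * h1) (dl (2 * b * h2) (dl (2 * (a + b) * h3) (dl k f))) n]
    rw [Complex.ofReal_sum]
    refine Finset.sum_congr rfl fun a _ => ?_
    rw [Complex.ofReal_sum]
    refine Finset.sum_congr rfl fun b _ => ?_
    have hg : Bd (K * H ^ 2) (dl (2 * a * h1) (dl (2 * b * h2) (dl (2 * (a + b) * h3) f))) :=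
      V2_Bd_dl (V2_Bd_dl (V2_Bd_dl hf _) _) _
    have e2 := V2_sq hg
    unfold V2_T
    rw [e2]
    have e3 : (2 * (K * H ^ 2) : ℕ) = 2 * K * H ^ 2 := by ring
    rw [e3]
    refine Finset.sum_congr rfl fun k _ => ?_
    rw [V2_dl_comm k, V2_dl_comm k, V2_dl_comm k]
  have e4 : 0 ≤ ∑ a ∈ Icc (-(H : ℤ)) H, ∑ b ∈ Icc (-(H : ℤ)) H, V2_T f a b h1 h2 h3 ^ 2 :=
    Finset.sum_nonneg fun a _ => Finset.sum_nonneg fun b _ => sq_nonneg _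
  have e5 : ∑ a ∈ Icc (-(H : ℤ)) H, ∑ b ∈ Icc (-(H : ℤ)) H, V2_T f a b h1 h2 h3 ^ 2 =
      ‖((∑ a ∈ Icc (-(H : ℤ)) H, ∑ b ∈ Icc (-(H : ℤ)) H, V2_T f a b h1 h2 h3 ^ 2 : ℝ) : ℂ)‖ := by
    rw [Complex.norm_real, Real.norm_of_nonneg e4]
  rw [e5, e1]
  exact norm_sum_le _ _

/-- sum over `h1, h2, h3` -/
private theorem V2_all (K H : ℕ) (f : ℤ → ℂ) (hf : Bd (K * H ^ 2) f) :
    ∑ h1 ∈ Icc (-(H : ℤ)) H, ∑ h2 ∈ Icc (-(H : ℤ)) H, ∑ h3 ∈ Icc (-(H : ℤ)) H,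
      ∑ a ∈ Icc (-(H : ℤ)) H, ∑ b ∈ Icc (-(H : ℤ)) H, V2_T f a b h1 h2 h3 ^ 2 ≤
      ∑ k ∈ Icc (-((2 * K * H ^ 2 : ℕ) : ℤ)) ((2 * K * H ^ 2 : ℕ) : ℤ), VV H (dl k f) := by
  unfold VV
  rw [← V2_swap3 _ _ _ _ fun h1 h2 h3 k => ‖SS H (dl k f) h1 h2 h3‖]
  exact Finset.sum_le_sum fun h1 _ => Finset.sum_le_sum fun h2 _ => Finset.sum_le_sum fun h3 _ =>
    V2_fix K H f hf h1 h2 h3

private theorem V2_card (H : ℕ) : ((Icc (-(H : ℤ)) H).card : ℝ) = 2 * H + 1 := by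
  rw [Int.card_Icc]
  have h : ((H : ℤ) + 1 - -(H : ℤ)).toNat = 2 * H + 1 := by omega
  rw [h]
  push_cast
  ring

private theorem V2_reorder (s : Finset ℤ) (F : ℤ → ℤ → ℤ → ℤ → ℤ → ℝ) :
    ∑ a ∈ s, ∑ b ∈ s, ∑ h1 ∈ s, ∑ h2 ∈ s, ∑ h3 ∈ s, F a b h1 h2 h3 =
      ∑ h1 ∈ s, ∑ h2 ∈ s, ∑ h3 ∈ s, ∑ a ∈ s, ∑ b ∈ s, F a b h1 h2 h3 := by
  rw [V2_swap3 s s s s fun h1 h2 h3 a => ∑ b ∈ s, F a b h1 h2 h3]
  refine Finset.sum_congr rfl fun a _ => ?_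
  rw [V2_swap3 s s s s fun h1 h2 h3 b => F a b h1 h2 h3]

/-- Cauchy and Schwarz for the sum over all five variables -/
private theorem V2_cs5 (K H : ℕ) (f : ℤ → ℂ) (hf : Bd (K * H ^ 2) f) :
    (∑ a ∈ Icc (-(H : ℤ)) H, ∑ b ∈ Icc (-(H : ℤ)) H, ∑ h1 ∈ Icc (-(H : ℤ)) H,
      ∑ h2 ∈ Icc (-(H : ℤ)) H, ∑ h3 ∈ Icc (-(H : ℤ)) H, V2_T f a b h1 h2 h3) ^ 2 ≤
      (2 * (H : ℝ) + 1) ^ 5 *
      ∑ k ∈ Icc (-((2 * K * H ^ 2 : ℕ) : ℤ)) ((2 * K * H ^ 2 : ℕ) : ℤ), VV H (dl k f) := by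
  set s := Icc (-(H : ℤ)) H with hs
  have h0 := sq_sum_le_card_mul_sum_sq (s := s ×ˢ s ×ˢ s ×ˢ s ×ˢ s)
    (f := fun x : ℤ × ℤ × ℤ × ℤ × ℤ => V2_T f x.1 x.2.1 x.2.2.1 x.2.2.2.1 x.2.2.2.2)
  have hc : ((s ×ˢ s ×ˢ s ×ˢ s ×ˢ s).card : ℝ) = (2 * (H : ℝ) + 1) ^ 5 := by
    simp only [Finset.card_product, Nat.cast_mul, hs, V2_card]
    ring
  rw [hc] at h0
  simp only [Finset.sum_product] at h0
  refine h0.trans ?_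
  refine mul_le_mul_of_nonneg_left ?_ (by positivity)
  rw [V2_reorder s fun a b h1 h2 h3 => V2_T f a b h1 h2 h3 ^ 2]
  exact V2_all K H f hf

/-- Hölder for the sum over `a, b` -/
private theorem V2_holder (H : ℕ) (S : ℤ → ℤ → ℝ) (hS : ∀ a b, 0 ≤ S a b) :
    (∑ a ∈ Icc (-(H : ℤ)) H, ∑ b ∈ Icc (-(H : ℤ)) H, S a b) ^ 8 ≤
      (2 * (H : ℝ) + 1) ^ 14 *
        ∑ a ∈ Icc (-(H : ℤ)) H, ∑ b ∈ Icc (-(H : ℤ)) H, S a b ^ 8 := by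
  set s := Icc (-(H : ℤ)) H with hs
  have h1 := pow_sum_div_card_le_sum_pow (s := s ×ˢ s) (f := fun x : ℤ × ℤ => S x.1 x.2)
    (fun x _ => hS x.1 x.2) 7
  have hc : ((s ×ˢ s).card : ℝ) ^ 7 = (2 * (H : ℝ) + 1) ^ 14 := by
    simp only [Finset.card_product, Nat.cast_mul, hs, V2_card]
    ring
  rw [hc] at h1
  simp only [Finset.sum_product] at h1
  rw [div_le_iff₀ (by positivity)] at h1
  norm_num at h1
  rw [mul_comm]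
  exact h1

private theorem V2_Bd_shift {K K' H : ℕ} {f : ℤ → ℂ} (hf : Bd (K * H ^ 2) f) (r : ℤ)
    (hr : |r| ≤ ((K' * H ^ 2 : ℕ) : ℤ)) : Bd ((K + K') * H ^ 2) (fun n => f (n + r)) := by
  refine ⟨fun n => hf.1 _, fun n hn => hf.2 _ ?_⟩
  have h1 : |n| ≤ |n + r| + |r| := by
    have := abs_sub (n + r) r
    simpa using this
  push_cast at hn hr ⊢
  nlinarith

private theorem V2_Bd_conj {M : ℕ} {f : ℤ → ℂ} (hf : Bd M f) : Bd M (fun n => conj (f n)) :=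
  ⟨fun n => by rw [RCLike.norm_conj]; exact hf.1 n, fun n hn => by
    show conj (f n) = 0
    rw [hf.2 n hn, map_zero]⟩

private theorem V2_Bd_mono {K K' H : ℕ} {f : ℤ → ℂ} (hf : Bd (K * H ^ 2) f) (h : K ≤ K') :
    Bd (K' * H ^ 2) f := by
  refine ⟨hf.1, fun n hn => hf.2 n (lt_of_le_of_lt ?_ hn)⟩
  exact_mod_cast Nat.mul_le_mul_right _ h

/-- the sum over `h` for fixed `a, b` -/
private noncomputable def V2_S (c : ℤ) (H : ℕ) (f2 : ℤ → ℂ) (a b : ℤ) : ℝ :=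
  ‖∑ h ∈ (Icc (1 : ℤ) H).filter (fun h => h + a ∈ Icc (1 : ℤ) H ∧ h + b ∈ Icc (1 : ℤ) H ∧
      h + a + b ∈ Icc (1 : ℤ) H),
    ∑' n : ℤ, f2 n * conj (f2 (n + (2 * a * h + (a ^ 2 + c * a)))) *
      conj (f2 (n + (2 * b * h + (b ^ 2 + (c - 1) * b)))) *
      f2 (n + (2 * (a + b) * h + ((a + b) ^ 2 + c * (a + b) - b)))‖

private theorem V2_lin (hL : St_Lf) (K H : ℕ) (c : ℤ) (hc : c = 0 ∨ c = 1)
    (f : ℤ → ℂ) (hf : Bd (K * H ^ 2) f) (a b : ℤ) (ha : a ∈ Icc (-(H : ℤ)) H)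
    (hb : b ∈ Icc (-(H : ℤ)) H) :
    V2_S c H f a b ^ 8 ≤ (2 * (((K + 7) * H ^ 2 : ℕ) : ℝ) + 1) ^ 7 * (2 * (H : ℝ) + 1) ^ 5 *
      ∑ h1 ∈ Icc (-(H : ℤ)) H, ∑ h2 ∈ Icc (-(H : ℤ)) H, ∑ h3 ∈ Icc (-(H : ℤ)) H,
        V2_T f a b h1 h2 h3 := by
  rw [Finset.mem_Icc] at ha hb
  have hH : (0 : ℤ) ≤ H := by positivity
  have hHsq : (H : ℤ) ≤ (H : ℤ) ^ 2 := by nlinarith [Int.le_self_sq (H : ℤ)]
  have ha2 : a ^ 2 ≤ (H : ℤ) ^ 2 := by nlinarith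
  have hb2 : b ^ 2 ≤ (H : ℤ) ^ 2 := by nlinarith
  have hab2 : (a + b) ^ 2 ≤ 4 * (H : ℤ) ^ 2 := by nlinarith
  have r1 : |a ^ 2 + c * a| ≤ ((7 * H ^ 2 : ℕ) : ℤ) := by
    rw [abs_le]
    push_cast
    rcases hc with rfl | rfl <;> constructor <;> nlinarith [sq_nonneg a]
  have r2 : |b ^ 2 + (c - 1) * b| ≤ ((7 * H ^ 2 : ℕ) : ℤ) := by
    rw [abs_le]
    push_cast
    rcases hc with rfl | rfl <;> constructor <;> nlinarith [sq_nonneg b]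
  have r3 : |(a + b) ^ 2 + c * (a + b) - b| ≤ ((7 * H ^ 2 : ℕ) : ℤ) := by
    rw [abs_le]
    push_cast
    rcases hc with rfl | rfl <;> constructor <;> nlinarith [sq_nonneg (a + b)]
  have h := hL ℤ (Icc (-(H : ℤ)) H)
    ((Icc (1 : ℤ) H).filter (fun h => h + a ∈ Icc (1 : ℤ) H ∧ h + b ∈ Icc (1 : ℤ) H ∧
      h + a + b ∈ Icc (1 : ℤ) H)) ((K + 7) * H ^ 2) f
    [(AddMonoidHom.mulLeft (2 * a), fun n => conj (f (n + (a ^ 2 + c * a)))),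
      (AddMonoidHom.mulLeft (2 * b), fun n => conj (f (n + (b ^ 2 + (c - 1) * b)))),
      (AddMonoidHom.mulLeft (2 * (a + b)), fun n => f (n + ((a + b) ^ 2 + c * (a + b) - b)))]
    (by
      intro v hv
      rw [Finset.mem_Icc] at hv ⊢
      omega)
    (by
      intro v hv w hw
      rw [Finset.mem_filter, Finset.mem_Icc] at hv hw
      rw [Finset.mem_Icc]
      omega)
    (V2_Bd_mono hf (by omega))
    (by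
      intro g hg
      simp only [List.mem_cons, List.not_mem_nil, or_false] at hg
      rcases hg with rfl | rfl | rfl
      · exact V2_Bd_conj (V2_Bd_shift hf _ r1)
      · exact V2_Bd_conj (V2_Bd_shift hf _ r2)
      · exact V2_Bd_shift hf _ r3)
  simp only [List.map_cons, List.map_nil, List.length_cons, List.length_nil] at h
  rw [V2_dsm] at h
  norm_num only at h
  rw [V2_card] at h
  have e : V2_S c H f a b = ‖∑ w ∈ (Icc (1 : ℤ) H).filter (fun h => h + a ∈ Icc (1 : ℤ) H ∧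
      h + b ∈ Icc (1 : ℤ) H ∧ h + a + b ∈ Icc (1 : ℤ) H), ∑' n : ℤ, f n *
      [conj (f (n + (AddMonoidHom.mulLeft (2 * a)) w + (a ^ 2 + c * a))),
        conj (f (n + (AddMonoidHom.mulLeft (2 * b)) w + (b ^ 2 + (c - 1) * b))),
        f (n + (AddMonoidHom.mulLeft (2 * (a + b))) w +
          ((a + b) ^ 2 + c * (a + b) - b))].prod‖ := by
    unfold V2_S
    congr 1
    refine Finset.sum_congr rfl fun w _ => tsum_congr fun n => ?_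
    simp only [List.prod_cons, List.prod_nil, mul_one, AddMonoidHom.coe_mulLeft, ← add_assoc,
      mul_assoc]
  rw [e]
  exact h

private theorem V2_arith (δ h T Z Y X c1 c2 c3 : ℝ) (hδ : 0 ≤ δ) (hh : 0 < h) (hc1 : 0 ≤ c1)
    (h0 : δ * h ^ 3 ≤ T)
    (s1 : T ^ 4 ≤ c1 * h ^ 7 * Z) (s2 : Z ^ 8 ≤ c2 * h ^ 33 * Y) (s3 : Y ^ 2 ≤ c3 * h ^ 5 * X) :
    δ ^ 64 * h ^ 9 ≤ (c1 ^ 8 * c2) ^ 2 * c3 * X := by
  have u1 : δ ^ 4 * h ^ 5 ≤ c1 * Z := by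
    refine le_of_mul_le_mul_left ?_ (pow_pos hh 7)
    calc h ^ 7 * (δ ^ 4 * h ^ 5) = (δ * h ^ 3) ^ 4 := by ring
      _ ≤ T ^ 4 := pow_le_pow_left₀ (mul_nonneg hδ (pow_nonneg hh.le 3)) h0 4
      _ ≤ c1 * h ^ 7 * Z := s1
      _ = h ^ 7 * (c1 * Z) := by ring
  have u2 : δ ^ 32 * h ^ 7 ≤ c1 ^ 8 * c2 * Y := by
    refine le_of_mul_le_mul_left ?_ (pow_pos hh 33)
    calc h ^ 33 * (δ ^ 32 * h ^ 7) = (δ ^ 4 * h ^ 5) ^ 8 := by ring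
      _ ≤ (c1 * Z) ^ 8 :=
          pow_le_pow_left₀ (mul_nonneg (pow_nonneg hδ 4) (pow_nonneg hh.le 5)) u1 8
      _ = c1 ^ 8 * Z ^ 8 := by ring
      _ ≤ c1 ^ 8 * (c2 * h ^ 33 * Y) := mul_le_mul_of_nonneg_left s2 (pow_nonneg hc1 8)
      _ = h ^ 33 * (c1 ^ 8 * c2 * Y) := by ring
  refine le_of_mul_le_mul_left ?_ (pow_pos hh 5)
  calc h ^ 5 * (δ ^ 64 * h ^ 9) = (δ ^ 32 * h ^ 7) ^ 2 := by ring
    _ ≤ (c1 ^ 8 * c2 * Y) ^ 2 :=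
        pow_le_pow_left₀ (mul_nonneg (pow_nonneg hδ 32) (pow_nonneg hh.le 7)) u2 2
    _ = (c1 ^ 8 * c2) ^ 2 * Y ^ 2 := by ring
    _ ≤ (c1 ^ 8 * c2) ^ 2 * (c3 * h ^ 5 * X) := mul_le_mul_of_nonneg_left s3 (sq_nonneg _)
    _ = h ^ 5 * ((c1 ^ 8 * c2) ^ 2 * c3 * X) := by ring

private theorem V2_main (hP : St_Pet) (hL : St_Lf) (K : ℕ) : ∃ E : ℝ, ∀ (H : ℕ), 1 ≤ H →
    ∀ δ : ℝ, 0 ≤ δ → ∀ c : ℤ, (c = 0 ∨ c = 1) → ∀ f0 f1 f2 : ℤ → ℂ,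
    Bd (K * H ^ 2) f0 → Bd (K * H ^ 2) f1 → Bd (K * H ^ 2) f2 →
    δ * (H : ℝ) ^ 3 ≤ ‖TT c H f0 f1 f2‖ →
    δ ^ 64 * (H : ℝ) ^ 9 ≤
      E * ∑ k ∈ Icc (-((2 * K * H ^ 2 : ℕ) : ℤ)) ((2 * K * H ^ 2 : ℕ) : ℤ), VV H (dl k f2) := by
  refine ⟨((2 * (2 * (K : ℝ) + 1) ^ 3) ^ 8 * (3 ^ 19 * (2 * K + 15) ^ 7)) ^ 2 * 3 ^ 5, ?_⟩
  intro H hH δ hδ c hc f0 f1 f2 hf0 hf1 hf2 hT
  have h1 : (1 : ℝ) ≤ H := by exact_mod_cast hH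
  have h0 : (0 : ℝ) < H := by linarith
  set X := ∑ k ∈ Icc (-((2 * K * H ^ 2 : ℕ) : ℤ)) ((2 * K * H ^ 2 : ℕ) : ℤ), VV H (dl k f2)
    with hX
  have hX0 : 0 ≤ X := Finset.sum_nonneg fun k _ => Finset.sum_nonneg fun _ _ =>
    Finset.sum_nonneg fun _ _ => Finset.sum_nonneg fun _ _ => norm_nonneg _
  set Y := ∑ a ∈ Icc (-(H : ℤ)) H, ∑ b ∈ Icc (-(H : ℤ)) H, ∑ h1 ∈ Icc (-(H : ℤ)) H,
      ∑ h2 ∈ Icc (-(H : ℤ)) H, ∑ h3 ∈ Icc (-(H : ℤ)) H, V2_T f2 a b h1 h2 h3 with hY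
  have hY0 : 0 ≤ Y := Finset.sum_nonneg fun _ _ => Finset.sum_nonneg fun _ _ =>
    Finset.sum_nonneg fun _ _ => Finset.sum_nonneg fun _ _ => Finset.sum_nonneg fun _ _ =>
      V2_T_nonneg _ _ _ _ _ _
  set Z := ∑ a ∈ Icc (-(H : ℤ)) H, ∑ b ∈ Icc (-(H : ℤ)) H, V2_S c H f2 a b with hZ
  have s1 : ‖TT c H f0 f1 f2‖ ^ 4 ≤ 2 * (2 * K + 1) ^ 3 * (H : ℝ) ^ 7 * Z :=
    hP K H c hH hc f0 f1 f2 hf0 hf1 hf2
  have s2 : Z ^ 8 ≤ (2 * (H : ℝ) + 1) ^ 14 *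
      ((2 * (((K + 7) * H ^ 2 : ℕ) : ℝ) + 1) ^ 7 * (2 * (H : ℝ) + 1) ^ 5 * Y) := by
    refine (V2_holder H (V2_S c H f2) fun _ _ => norm_nonneg _).trans ?_
    refine mul_le_mul_of_nonneg_left ?_ (by positivity)
    rw [hY, Finset.mul_sum]
    refine Finset.sum_le_sum fun a ha => ?_
    rw [Finset.mul_sum]
    exact Finset.sum_le_sum fun b hb => V2_lin hL K H c hc f2 hf2 a b ha hb
  have s3 : Y ^ 2 ≤ (2 * (H : ℝ) + 1) ^ 5 * X := V2_cs5 K H f2 hf2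
  have b0 : 0 ≤ 2 * (H : ℝ) + 1 := by linarith
  have b1 : 2 * (H : ℝ) + 1 ≤ 3 * H := by linarith
  have b2 : 2 * (((K + 7) * H ^ 2 : ℕ) : ℝ) + 1 ≤ (2 * K + 15) * (H : ℝ) ^ 2 := by
    push_cast
    nlinarith [one_le_pow₀ h1 (n := 2)]
  have b3 : 0 ≤ 2 * (((K + 7) * H ^ 2 : ℕ) : ℝ) + 1 := by positivity
  have c14 := pow_le_pow_left₀ b0 b1 14
  have c5 := pow_le_pow_left₀ b0 b1 5
  have c7 := pow_le_pow_left₀ b3 b2 7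
  have t2 : Z ^ 8 ≤ (3 ^ 19 * (2 * K + 15) ^ 7) * (H : ℝ) ^ 33 * Y := by
    refine s2.trans ?_
    have e1 : (2 * (((K + 7) * H ^ 2 : ℕ) : ℝ) + 1) ^ 7 * (2 * (H : ℝ) + 1) ^ 5 ≤
        ((2 * K + 15) * (H : ℝ) ^ 2) ^ 7 * (3 * (H : ℝ)) ^ 5 :=
      mul_le_mul c7 c5 (pow_nonneg b0 5) (by positivity)
    have e2 := mul_le_mul_of_nonneg_right e1 hY0
    have e3 := mul_le_mul c14 e2 (mul_nonneg (mul_nonneg (pow_nonneg b3 7) (pow_nonneg b0 5)) hY0)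
      (pow_nonneg (by linarith : (0 : ℝ) ≤ 3 * H) 14)
    refine e3.trans (le_of_eq ?_)
    ring
  have t3 : Y ^ 2 ≤ 3 ^ 5 * (H : ℝ) ^ 5 * X := by
    refine s3.trans ?_
    refine (mul_le_mul_of_nonneg_right c5 hX0).trans (le_of_eq ?_)
    ring
  exact V2_arith δ H _ Z Y X (2 * (2 * K + 1) ^ 3) (3 ^ 19 * (2 * K + 15) ^ 7) (3 ^ 5) hδ h0
    (by positivity) hT s1 t2 t3

theorem thm_V2 (hP : St_Pet) (hL : St_Lf) : St_V2 := by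
  intro K
  obtain ⟨E, hE⟩ := V2_main hP hL K
  obtain ⟨m, hm⟩ := pow_unbounded_of_one_lt E one_lt_two
  refine ⟨64 + m, ?_⟩
  intro H δ hR c hc f0 f1 f2 hf0 hf1 hf2 hT
  obtain ⟨hδ, hδ2, -, hH⟩ := hR
  have hH1 : 1 ≤ H := by
    rcases Nat.eq_zero_or_pos H with h | h
    · rw [h] at hH
      norm_num at hH
    · exact h
  have hM := hE H hH1 δ hδ.le c hc f0 f1 f2 hf0 hf1 hf2 hT
  set X := ∑ k ∈ Icc (-((2 * K * H ^ 2 : ℕ) : ℤ)) ((2 * K * H ^ 2 : ℕ) : ℤ), VV H (dl k f2)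
    with hX
  have hX0 : 0 ≤ X := Finset.sum_nonneg fun k _ => Finset.sum_nonneg fun _ _ =>
    Finset.sum_nonneg fun _ _ => Finset.sum_nonneg fun _ _ => norm_nonneg _
  have a3 : δ ^ 64 * (H : ℝ) ^ 9 ≤ 2 ^ m * X :=
    hM.trans (mul_le_mul_of_nonneg_right hm.le hX0)
  have a4 : δ ^ m * 2 ^ m ≤ 1 := by
    rw [← mul_pow]
    exact pow_le_one₀ (by positivity) (by linarith)
  rw [pow_add]
  calc δ ^ 64 * δ ^ m * (H : ℝ) ^ 9 = δ ^ m * (δ ^ 64 * (H : ℝ) ^ 9) := by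
        rw [mul_comm (δ ^ 64), mul_assoc]
    _ ≤ δ ^ m * (2 ^ m * X) := mul_le_mul_of_nonneg_left a3 (pow_nonneg hδ.le m)
    _ = (δ ^ m * 2 ^ m) * X := by rw [mul_assoc]
    _ ≤ 1 * X := mul_le_mul_of_nonneg_right a4 hX0
    _ = X := one_mul X

end Pool.Agent.NRP
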