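import Pool.Agent.NRP.StI

set_option autoImplicit false

/-!
# NRP, module Weyl: the Weyl step for `TT` with a character in the third place
-/

namespace Pool.Agent.NRP

open Finset
open Pool.Agent.GBQ (ee nd)
open scoped ComplexConjugate

namespace WeylX

lemma out_Icc {A : ℕ} {n : ℤ} (h : n ∉ Icc (-(A : ℤ)) A) : (A : ℤ) < |n| := by
  rw [mem_Icc, not_and_or, not_le, not_le] at h
  rcases h with h | h
  · exact lt_of_lt_of_le (by linarith) (neg_le_abs n)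
  · exact lt_of_lt_of_le h (le_abs_self n)

lemma card_J (A : ℕ) : (Icc (-(A : ℤ)) A).card = 2 * A + 1 := by
  rw [Int.card_Icc]
  have e : (A : ℤ) + 1 - -(A : ℤ) = ((2 * A + 1 : ℕ) : ℤ) := by
    push_cast
    ring
  rw [e, Int.toNat_natCast]

lemma nd_le_ee (β : ℝ) : 4 * nd β ≤ ‖ee β - 1‖ := by
  have h1 : ee β = ee (β - round β) := by
    have := Pool.Agent.GBQ.ee_add_int (β - round β) (round β)
    rw [← this]
    congr 1
    ring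
  rw [h1]
  unfold ee nd
  have h2 : (((2 * Real.pi * (β - round β) : ℝ) : ℂ) * Complex.I) =
      Complex.I * ((2 * Real.pi * (β - round β) : ℝ) : ℂ) := mul_comm _ _
  rw [h2, Complex.norm_exp_I_mul_ofReal_sub_one]
  have h3 : |β - round β| ≤ 1 / 2 := abs_sub_round β
  have hpi := Real.pi_pos
  have h4 : |2 * Real.pi * (β - round β) / 2| ≤ Real.pi / 2 := by
    have : 2 * Real.pi * (β - round β) / 2 = Real.pi * (β - round β) := by ring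
    rw [this, abs_mul, abs_of_pos hpi]
    nlinarith
  have h5 := Real.mul_abs_le_abs_sin h4
  have h6 : 2 / Real.pi * |2 * Real.pi * (β - round β) / 2| = 2 * |β - round β| := by
    have : 2 * Real.pi * (β - round β) / 2 = Real.pi * (β - round β) := by ring
    rw [this, abs_mul, abs_of_pos hpi]
    field_simp
  rw [h6] at h5
  rw [norm_mul, Real.norm_eq_abs, Real.norm_eq_abs, abs_two]
  linarith

lemma geo (β : ℝ) (a b : ℤ) (hab : a ≤ b + 1) :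
    ‖∑ h ∈ Icc a b, ee (β * h)‖ * (2 * nd β) ≤ 1 := by
  have h1 : (ee β - 1) * ∑ h ∈ Icc a b, ee (β * h) = ee (β * ((b + 1 : ℤ) : ℝ)) - ee (β * a) := by
    obtain ⟨n, hn⟩ : ∃ n : ℕ, b + 1 = a + n := ⟨(b + 1 - a).toNat, by omega⟩
    have hI : Icc a b = Ico a (a + n) := by
      ext x
      rw [mem_Icc, mem_Ico]
      omega
    rw [hI, hn]
    clear hab hn hI
    induction n with
    | zero => simp
    | succ n ih =>
      have h2 : Ico a (a + ((n + 1 : ℕ) : ℤ)) = insert (a + (n : ℤ)) (Ico a (a + n)) := by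
        ext x
        rw [mem_insert, mem_Ico, mem_Ico]
        push_cast
        omega
      rw [h2, sum_insert (by rw [mem_Ico]; omega), mul_add, ih]
      have h3 : ee (β * ((a + ((n + 1 : ℕ) : ℤ) : ℤ) : ℝ)) = ee β * ee (β * ((a + (n : ℤ) : ℤ) : ℝ)) := by
        rw [← Pool.Agent.GBQ.ee_add]
        congr 1
        push_cast
        ring
      rw [h3]
      ring
  have h2 : ‖ee β - 1‖ * ‖∑ h ∈ Icc a b, ee (β * h)‖ ≤ 2 := by
    rw [← norm_mul, h1]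
    refine (norm_sub_le _ _).trans ?_
    rw [Pool.Agent.GBQ.ee_norm, Pool.Agent.GBQ.ee_norm]
    norm_num
  have h3 := nd_le_ee β
  have h4 := norm_nonneg (∑ h ∈ Icc a b, ee (β * h))
  nlinarith

/-- the inner sum -/
noncomputable def inn (H : ℕ) (ψ : ℝ) (a : ℤ) : ℂ :=
  ∑ h ∈ (Icc (1 : ℤ) H).filter (fun h => h + a ∈ Icc (1 : ℤ) H), ee (a * (2 * ψ) * h)

lemma inn_le (H : ℕ) (ψ : ℝ) (a : ℤ) : ‖inn H ψ a‖ ≤ H := by
  unfold inn
  refine (norm_sum_le _ _).trans ?_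
  have h1 : ∀ h ∈ (Icc (1 : ℤ) H).filter (fun h => h + a ∈ Icc (1 : ℤ) H),
      ‖ee (a * (2 * ψ) * h)‖ = 1 := fun h _ => Pool.Agent.GBQ.ee_norm _
  rw [sum_congr rfl h1, sum_const, nsmul_eq_mul, mul_one]
  have h2 := card_filter_le (Icc (1 : ℤ) H) (fun h => h + a ∈ Icc (1 : ℤ) H)
  rw [Int.card_Icc] at h2
  have e : (H : ℤ) + 1 - 1 = (H : ℤ) := by ring
  rw [e, Int.toNat_natCast] at h2
  exact_mod_cast h2

lemma inn_nd (H : ℕ) (ψ : ℝ) (a : ℤ) : ‖inn H ψ a‖ * (2 * nd (a * (2 * ψ))) ≤ 1 := by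
  unfold inn
  by_cases h : max 1 (1 - a) ≤ min (H : ℤ) (H - a) + 1
  · have e : (Icc (1 : ℤ) H).filter (fun h => h + a ∈ Icc (1 : ℤ) H) =
        Icc (max 1 (1 - a)) (min (H : ℤ) (H - a)) := by
      ext x
      rw [mem_filter, mem_Icc, mem_Icc, mem_Icc, max_le_iff, le_min_iff]
      omega
    rw [e]
    exact geo _ _ _ h
  · have e : (Icc (1 : ℤ) H).filter (fun h => h + a ∈ Icc (1 : ℤ) H) = ∅ := by
      apply filter_eq_empty_iff.2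
      intro x hx
      rw [mem_Icc] at hx ⊢
      intro hx2
      apply h
      rw [max_le_iff]
      rcases min_choice (H : ℤ) (H - a) with h3 | h3 <;> rw [h3] <;> omega
    rw [e, sum_empty, norm_zero, zero_mul]
    norm_num

/-- the correlation of `g` -/
noncomputable def cc (g : ℤ → ℂ) (a : ℤ) : ℂ := ∑' m : ℤ, g (m + a) * conj (g m)

lemma cc_eq {A : ℕ} {g : ℤ → ℂ} (hg : Bd A g) (a : ℤ) :
    cc g a = ∑ m ∈ Icc (-(A : ℤ)) A, g (m + a) * conj (g m) := by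
  unfold cc
  refine tsum_eq_sum fun m hm => ?_
  rw [hg.2 m (out_Icc hm), map_zero, mul_zero]

lemma cc_le {A : ℕ} {g : ℤ → ℂ} (hg : Bd A g) (a : ℤ) : ‖cc g a‖ ≤ 2 * A + 1 := by
  rw [cc_eq hg]
  refine (norm_sum_le _ _).trans ?_
  have h1 : ∀ m ∈ Icc (-(A : ℤ)) A, ‖g (m + a) * conj (g m)‖ ≤ 1 := by
    intro m _
    rw [norm_mul, RCLike.norm_conj]
    exact mul_le_one₀ (hg.1 _) (norm_nonneg _) (hg.1 _)
  refine (sum_le_sum h1).trans ?_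
  rw [sum_const, card_J, nsmul_eq_mul, mul_one]
  push_cast
  exact le_refl _

lemma cc_shift {g : ℤ → ℂ} (h h' : ℤ) :
    ∑' n : ℤ, g (n + h) * conj (g (n + h')) = cc g (h - h') := by
  unfold cc
  rw [← (Equiv.addRight h').tsum_eq (fun m => g (m + (h - h')) * conj (g m))]
  refine tsum_congr fun n => ?_
  simp only [Equiv.coe_addRight]
  congr 2
  ring

/-- the sum over `h` -/
noncomputable def Sn (c : ℤ) (H : ℕ) (ψ : ℝ) (g : ℤ → ℂ) (n : ℤ) : ℂ :=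
  ∑ h ∈ Icc (1 : ℤ) H, ee (ψ * ((pp c h : ℤ) : ℝ)) * g (n + h)

lemma TT_le {A : ℕ} {g0 g1 : ℤ → ℂ} (h0 : Bd A g0) (c : ℤ) (H : ℕ) (ψ : ℝ) :
    ‖TT c H g0 g1 (fun n => ee (ψ * n))‖ ^ 2 ≤
      (2 * A + 1) * ∑ n ∈ Icc (-(A : ℤ)) A, ‖Sn c H ψ g1 n‖ ^ 2 := by
  have h1 : TT c H g0 g1 (fun n => ee (ψ * n)) =
      ∑ n ∈ Icc (-(A : ℤ)) A, g0 n * ee (ψ * n) * Sn c H ψ g1 n := by
    unfold TT Sn
    have h2 : ∀ h ∈ Icc (1 : ℤ) H, ∑' n : ℤ, g0 n * g1 (n + h) * ee (ψ * ((n + pp c h : ℤ) : ℝ)) =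
        ∑ n ∈ Icc (-(A : ℤ)) A, g0 n * g1 (n + h) * ee (ψ * ((n + pp c h : ℤ) : ℝ)) := by
      intro h _
      refine tsum_eq_sum fun n hn => ?_
      rw [h0.2 n (out_Icc hn), zero_mul, zero_mul]
    rw [sum_congr rfl h2, sum_comm]
    refine sum_congr rfl fun n _ => ?_
    rw [mul_sum]
    refine sum_congr rfl fun h _ => ?_
    have h3 : ee (ψ * ((n + pp c h : ℤ) : ℝ)) = ee (ψ * n) * ee (ψ * ((pp c h : ℤ) : ℝ)) := by
      rw [← Pool.Agent.GBQ.ee_add]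
      congr 1
      push_cast
      ring
    rw [h3]
    ring
  have h2 : ‖TT c H g0 g1 (fun n => ee (ψ * n))‖ ≤
      ∑ n ∈ Icc (-(A : ℤ)) A, ‖Sn c H ψ g1 n‖ := by
    rw [h1]
    refine (norm_sum_le _ _).trans (sum_le_sum fun n _ => ?_)
    rw [norm_mul, norm_mul, Pool.Agent.GBQ.ee_norm, mul_one]
    exact mul_le_of_le_one_left (norm_nonneg _) (h0.1 n)
  calc ‖TT c H g0 g1 (fun n => ee (ψ * n))‖ ^ 2
      ≤ (∑ n ∈ Icc (-(A : ℤ)) A, ‖Sn c H ψ g1 n‖) ^ 2 :=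
        pow_le_pow_left₀ (norm_nonneg _) h2 2
    _ ≤ ((Icc (-(A : ℤ)) A).card : ℝ) * ∑ n ∈ Icc (-(A : ℤ)) A, ‖Sn c H ψ g1 n‖ ^ 2 :=
        sq_sum_le_card_mul_sum_sq
    _ = _ := by
        rw [card_J]
        push_cast
        ring

lemma Sn_zero {A : ℕ} {g : ℤ → ℂ} (hg : Bd A g) (c : ℤ) (H : ℕ) (ψ : ℝ) (n : ℤ)
    (hn : ((A + H : ℕ) : ℤ) < |n|) : Sn c H ψ g n = 0 := by
  unfold Sn
  refine sum_eq_zero fun h hh => ?_
  rw [mem_Icc] at hh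
  rw [hg.2, mul_zero]
  push_cast at hn
  rcases lt_abs.1 hn with h1 | h1
  · exact lt_abs.2 (Or.inl (by omega))
  · exact lt_abs.2 (Or.inr (by omega))

lemma sum_Sn {A : ℕ} {g : ℤ → ℂ} (hg : Bd A g) (c : ℤ) (H : ℕ) (ψ : ℝ) :
    ∑ n ∈ Icc (-(A : ℤ)) A, ‖Sn c H ψ g n‖ ^ 2 ≤
      (2 * A + 1) * ∑ a ∈ Icc (-(H : ℤ)) H, ‖inn H ψ a‖ := by
  have hsub : Icc (-(A : ℤ)) A ⊆ Icc (-((A + H : ℕ) : ℤ)) ((A + H : ℕ) : ℤ) := by
    apply Icc_subset_Icc <;> push_cast <;> omega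
  have h1 : ∑ n ∈ Icc (-(A : ℤ)) A, ‖Sn c H ψ g n‖ ^ 2 ≤
      ∑ n ∈ Icc (-((A + H : ℕ) : ℤ)) ((A + H : ℕ) : ℤ), ‖Sn c H ψ g n‖ ^ 2 :=
    sum_le_sum_of_subset_of_nonneg hsub fun _ _ _ => by positivity
  have h2 : ((∑ n ∈ Icc (-((A + H : ℕ) : ℤ)) ((A + H : ℕ) : ℤ), ‖Sn c H ψ g n‖ ^ 2 : ℝ) : ℂ) =
      ∑ h' ∈ Icc (1 : ℤ) H, ∑ h ∈ Icc (1 : ℤ) H,
        ee (ψ * ((pp c h : ℤ) : ℝ)) * conj (ee (ψ * ((pp c h' : ℤ) : ℝ))) * cc g (h - h') := by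
    push_cast
    have h3 : ∀ n ∈ Icc (-((A + H : ℕ) : ℤ)) ((A + H : ℕ) : ℤ), ((‖Sn c H ψ g n‖ : ℂ)) ^ 2 =
        ∑ h' ∈ Icc (1 : ℤ) H, ∑ h ∈ Icc (1 : ℤ) H,
          ee (ψ * ((pp c h : ℤ) : ℝ)) * conj (ee (ψ * ((pp c h' : ℤ) : ℝ))) *
            (g (n + h) * conj (g (n + h'))) := by
      intro n _
      rw [← Complex.mul_conj']
      unfold Sn
      rw [map_sum, mul_sum]
      refine sum_congr rfl fun h' _ => ?_
      rw [sum_mul]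
      refine sum_congr rfl fun h _ => ?_
      rw [map_mul]
      ring
    push_cast at h3
    rw [sum_congr rfl h3, sum_comm]
    refine sum_congr rfl fun h' hh' => ?_
    rw [sum_comm]
    refine sum_congr rfl fun h hh => ?_
    rw [← mul_sum]
    congr 1
    rw [← cc_shift h h']
    symm
    refine tsum_eq_sum fun n hn => ?_
    have hn' : ((A + H : ℕ) : ℤ) < |n| := by
      apply out_Icc
      push_cast
      exact hn
    rw [mem_Icc] at hh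
    rw [hg.2 (n + h), zero_mul]
    push_cast at hn'
    rcases lt_abs.1 hn' with h1 | h1
    · exact lt_abs.2 (Or.inl (by omega))
    · exact lt_abs.2 (Or.inr (by omega))
  have h3 : ∀ h' ∈ Icc (1 : ℤ) H, ∑ h ∈ Icc (1 : ℤ) H,
        ee (ψ * ((pp c h : ℤ) : ℝ)) * conj (ee (ψ * ((pp c h' : ℤ) : ℝ))) * cc g (h - h') =
      ∑ a ∈ Icc (-(H : ℤ)) H, if h' + a ∈ Icc (1 : ℤ) H then
        ee (ψ * (((pp c a : ℤ)) : ℝ)) * cc g a * ee (a * (2 * ψ) * h') else 0 := by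
    intro h' hh'
    rw [mem_Icc] at hh'
    rw [← sum_filter]
    refine sum_nbij' (fun h => h - h') (fun a => h' + a) ?_ ?_ ?_ ?_ ?_
    · intro h hh
      rw [mem_Icc] at hh
      rw [mem_filter, mem_Icc, mem_Icc]
      omega
    · intro a ha
      rw [mem_filter] at ha
      exact ha.2
    · intro h _
      show h' + (h - h') = h
      ring
    · intro a _
      show h' + a - h' = a
      ring
    · intro h _
      show ee (ψ * ((pp c h : ℤ) : ℝ)) * conj (ee (ψ * ((pp c h' : ℤ) : ℝ))) * cc g (h - h') =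
        ee (ψ * ((pp c (h - h') : ℤ) : ℝ)) * cc g (h - h') *
          ee (((h - h' : ℤ) : ℝ) * (2 * ψ) * h')
      rw [← Pool.Agent.GBQ.ee_neg, ← Pool.Agent.GBQ.ee_add]
      have h4 : ee (ψ * ((pp c (h - h') : ℤ) : ℝ)) * cc g (h - h') *
          ee (((h - h' : ℤ) : ℝ) * (2 * ψ) * h') = ee (ψ * ((pp c (h - h') : ℤ) : ℝ) +
          ((h - h' : ℤ) : ℝ) * (2 * ψ) * h') * cc g (h - h') := by
        rw [Pool.Agent.GBQ.ee_add]
        ring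
      rw [h4]
      congr 2
      unfold pp
      push_cast
      ring
  have h4 : ∑ h' ∈ Icc (1 : ℤ) H, ∑ h ∈ Icc (1 : ℤ) H,
        ee (ψ * ((pp c h : ℤ) : ℝ)) * conj (ee (ψ * ((pp c h' : ℤ) : ℝ))) * cc g (h - h') =
      ∑ a ∈ Icc (-(H : ℤ)) H, ee (ψ * ((pp c a : ℤ) : ℝ)) * cc g a * inn H ψ a := by
    rw [sum_congr rfl h3, sum_comm]
    refine sum_congr rfl fun a _ => ?_
    unfold inn
    rw [mul_sum, sum_filter]
  have h5 : ∑ n ∈ Icc (-((A + H : ℕ) : ℤ)) ((A + H : ℕ) : ℤ), ‖Sn c H ψ g n‖ ^ 2 ≤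
      ∑ a ∈ Icc (-(H : ℤ)) H, (2 * (A : ℝ) + 1) * ‖inn H ψ a‖ := by
    have h6 : ∑ n ∈ Icc (-((A + H : ℕ) : ℤ)) ((A + H : ℕ) : ℤ), ‖Sn c H ψ g n‖ ^ 2 =
        ‖((∑ n ∈ Icc (-((A + H : ℕ) : ℤ)) ((A + H : ℕ) : ℤ), ‖Sn c H ψ g n‖ ^ 2 : ℝ) : ℂ)‖ := by
      rw [Complex.norm_real, Real.norm_of_nonneg]
      exact sum_nonneg fun _ _ => by positivity
    rw [h6, h2, h4]
    refine (norm_sum_le _ _).trans (sum_le_sum fun a _ => ?_)
    rw [norm_mul, norm_mul, Pool.Agent.GBQ.ee_norm, one_mul]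
    exact mul_le_mul_of_nonneg_right (cc_le hg a) (norm_nonneg _)
  rw [← mul_sum] at h5
  exact h1.trans h5

end WeylX

open WeylX

theorem thm_Weyl (hV : St_Vl) : St_Weyl := by
  intro K C0
  obtain ⟨b, hb⟩ : ∃ b : ℕ, 6 * (2 * (K : ℝ) + 1) ^ 2 ≤ 2 ^ b :=
    (pow_unbounded_of_one_lt (6 * (2 * (K : ℝ) + 1) ^ 2) one_lt_two).imp fun _ h => h.le
  obtain ⟨C2, hC2⟩ := hV (2 * C0 + b)
  refine ⟨C2 + 1, fun H δ hR c hc g0 g1 hg0 hg1 ψ hT => ?_⟩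
  obtain ⟨hδ0, hδ2, hlog, hδH⟩ := hR
  have hδ1 : δ ≤ 1 := by linarith
  have hH0 : (0 : ℝ) < H := by
    by_contra h
    have : (H : ℝ) = 0 := le_antisymm (not_lt.1 h) (Nat.cast_nonneg _)
    rw [this, mul_zero] at hδH
    linarith
  have hH1 : (1 : ℝ) ≤ H := by
    have : 0 < H := by exact_mod_cast hH0
    exact_mod_cast this
  have hR2 : Rg C2 H δ := by
    refine ⟨hδ0, hδ2, hlog, hδH.trans ?_⟩
    exact mul_le_mul_of_nonneg_right (pow_le_pow_of_le_one hδ0.le hδ1 (Nat.le_succ _)) hH0.le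
  -- the main inequality
  have h1 := TT_le (g1 := g1) hg0 c H ψ
  have h2 := sum_Sn hg1 c H ψ
  have hA : 2 * ((K * H ^ 2 : ℕ) : ℝ) + 1 ≤ (2 * K + 1) * (H : ℝ) ^ 2 := by
    push_cast
    nlinarith
  have hA0 : (0 : ℝ) ≤ 2 * ((K * H ^ 2 : ℕ) : ℝ) + 1 := by positivity
  obtain ⟨Y, hY⟩ : ∃ Y : ℝ, Y = ∑ a ∈ Icc (-(H : ℤ)) H, ‖inn H ψ a‖ := ⟨_, rfl⟩
  have hY0 : 0 ≤ Y := by
    rw [hY]
    exact sum_nonneg fun _ _ => norm_nonneg _
  rw [← hY] at h2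
  have h3 : ‖TT c H g0 g1 (fun n => ee (ψ * n))‖ ^ 2 ≤ ((2 * K + 1) * (H : ℝ) ^ 2) ^ 2 * Y := by
    calc _ ≤ (2 * ((K * H ^ 2 : ℕ) : ℝ) + 1) * ((2 * ((K * H ^ 2 : ℕ) : ℝ) + 1) * Y) :=
          h1.trans (mul_le_mul_of_nonneg_left h2 hA0)
      _ = (2 * ((K * H ^ 2 : ℕ) : ℝ) + 1) ^ 2 * Y := by ring
      _ ≤ _ := mul_le_mul_of_nonneg_right (pow_le_pow_left₀ hA0 hA 2) hY0
  have h4 : (δ ^ C0 * (H : ℝ) ^ 3) ^ 2 ≤ ‖TT c H g0 g1 (fun n => ee (ψ * n))‖ ^ 2 :=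
    pow_le_pow_left₀ (by positivity) hT 2
  have h5 : δ ^ (2 * C0) * (H : ℝ) ^ 2 ≤ (2 * K + 1) ^ 2 * Y := by
    have h6 : (H : ℝ) ^ 4 * (δ ^ (2 * C0) * (H : ℝ) ^ 2) ≤ (H : ℝ) ^ 4 * ((2 * K + 1) ^ 2 * Y) := by
      calc (H : ℝ) ^ 4 * (δ ^ (2 * C0) * (H : ℝ) ^ 2) = (δ ^ C0 * (H : ℝ) ^ 3) ^ 2 := by
            rw [mul_comm 2 C0, pow_mul]
            ring
        _ ≤ ((2 * K + 1) * (H : ℝ) ^ 2) ^ 2 * Y := h4.trans h3
        _ = (H : ℝ) ^ 4 * ((2 * K + 1) ^ 2 * Y) := by ring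
    exact le_of_mul_le_mul_left h6 (by positivity)
  -- splitting
  obtain ⟨A0, hA0'⟩ : ∃ A0 : Finset ℤ, A0 = (Icc (-(H : ℤ)) H).filter
      (fun a : ℤ => nd (a * (2 * ψ)) ≤ (1 / δ) ^ (2 * C0 + b) / H) := ⟨_, rfl⟩
  have h6 : Y ≤ A0.card * H + 3 * (H : ℝ) ^ 2 * δ ^ (2 * C0 + b) := by
    rw [hY, ← sum_filter_add_sum_filter_not (Icc (-(H : ℤ)) H)
      (fun a : ℤ => nd (a * (2 * ψ)) ≤ (1 / δ) ^ (2 * C0 + b) / H), ← hA0']
    refine add_le_add ?_ ?_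
    · refine (sum_le_sum fun a _ => inn_le H ψ a).trans ?_
      rw [sum_const, nsmul_eq_mul]
    · have h7 : ∀ a ∈ (Icc (-(H : ℤ)) H).filter
          (fun a : ℤ => ¬ nd (a * (2 * ψ)) ≤ (1 / δ) ^ (2 * C0 + b) / H),
          ‖inn H ψ a‖ ≤ H * δ ^ (2 * C0 + b) := by
        intro a ha
        have h8 := (mem_filter.1 ha).2
        rw [not_le] at h8
        have h9 := inn_nd H ψ a
        have hp : 0 < δ ^ (2 * C0 + b) := by positivity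
        have h10 : 1 / (H * δ ^ (2 * C0 + b)) < nd (a * (2 * ψ)) := by
          have e : (1 / δ) ^ (2 * C0 + b) / H = 1 / (H * δ ^ (2 * C0 + b)) := by
            rw [one_div, inv_pow]
            field_simp
          rwa [e] at h8
        have hHp : 0 < H * δ ^ (2 * C0 + b) := by positivity
        have h11 : 0 ≤ ‖inn H ψ a‖ := norm_nonneg _
        rw [div_lt_iff₀ hHp] at h10
        nlinarith
      refine (sum_le_sum h7).trans ?_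
      rw [sum_const, nsmul_eq_mul]
      have h8 : (((Icc (-(H : ℤ)) H).filter
          (fun a : ℤ => ¬ nd (a * (2 * ψ)) ≤ (1 / δ) ^ (2 * C0 + b) / H)).card : ℝ) ≤ 3 * H := by
        have h9 := card_filter_le (Icc (-(H : ℤ)) H)
          (fun a : ℤ => ¬ nd (a * (2 * ψ)) ≤ (1 / δ) ^ (2 * C0 + b) / H)
        rw [card_J] at h9
        have h10 : (((Icc (-(H : ℤ)) H).filter
          (fun a : ℤ => ¬ nd (a * (2 * ψ)) ≤ (1 / δ) ^ (2 * C0 + b) / H)).card : ℝ) ≤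
            2 * H + 1 := by exact_mod_cast h9
        linarith
      calc _ ≤ 3 * (H : ℝ) * (H * δ ^ (2 * C0 + b)) :=
            mul_le_mul_of_nonneg_right h8 (by positivity)
        _ = _ := by ring
  have hb' : δ ^ b * (6 * (2 * (K : ℝ) + 1) ^ 2) ≤ 1 := by
    calc δ ^ b * (6 * (2 * (K : ℝ) + 1) ^ 2) ≤ (1 / 2) ^ b * 2 ^ b := by
          apply mul_le_mul (pow_le_pow_left₀ hδ0.le hδ2 b) hb (by positivity) (by positivity)
      _ = 1 := by rw [← mul_pow]; norm_num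
  have h7 : δ ^ (2 * C0 + b) * H ≤ A0.card := by
    have hX : 0 < δ ^ (2 * C0) := by positivity
    have h8 : δ ^ (2 * C0) * (H : ℝ) ^ 2 ≤
        (2 * K + 1) ^ 2 * (A0.card * H + 3 * (H : ℝ) ^ 2 * δ ^ (2 * C0 + b)) :=
      h5.trans (mul_le_mul_of_nonneg_left h6 (by positivity))
    have h9 : (2 * K + 1) ^ 2 * (3 * (H : ℝ) ^ 2 * δ ^ (2 * C0 + b)) ≤
        δ ^ (2 * C0) * (H : ℝ) ^ 2 / 2 := by
      rw [pow_add]
      calc (2 * K + 1) ^ 2 * (3 * (H : ℝ) ^ 2 * (δ ^ (2 * C0) * δ ^ b)) =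
            δ ^ (2 * C0) * (H : ℝ) ^ 2 / 2 * (δ ^ b * (6 * (2 * (K : ℝ) + 1) ^ 2)) := by ring
        _ ≤ δ ^ (2 * C0) * (H : ℝ) ^ 2 / 2 * 1 := mul_le_mul_of_nonneg_left hb' (by positivity)
        _ = _ := mul_one _
    have h10 : δ ^ (2 * C0) * (H : ℝ) ^ 2 / 2 ≤ (2 * K + 1) ^ 2 * (A0.card * H) := by
      have e : (2 * (K : ℝ) + 1) ^ 2 * (A0.card * H + 3 * (H : ℝ) ^ 2 * δ ^ (2 * C0 + b)) =
        (2 * K + 1) ^ 2 * (A0.card * H) + (2 * K + 1) ^ 2 * (3 * (H : ℝ) ^ 2 * δ ^ (2 * C0 + b)) := by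
        ring
      rw [e] at h8
      linarith
    have h11 : δ ^ (2 * C0) * H / 2 ≤ (2 * K + 1) ^ 2 * A0.card := by
      have : (H : ℝ) * (δ ^ (2 * C0) * H / 2) ≤ H * ((2 * K + 1) ^ 2 * A0.card) := by
        calc (H : ℝ) * (δ ^ (2 * C0) * H / 2) = δ ^ (2 * C0) * (H : ℝ) ^ 2 / 2 := by ring
          _ ≤ _ := h10
          _ = _ := by ring
      exact le_of_mul_le_mul_left this hH0
    have h12 : δ ^ b * (δ ^ (2 * C0) * H / 2) ≤ δ ^ b * ((2 * K + 1) ^ 2 * A0.card) :=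
      mul_le_mul_of_nonneg_left h11 (by positivity)
    have h13 : δ ^ b * ((2 * (K : ℝ) + 1) ^ 2 * (A0.card : ℝ)) ≤ (A0.card : ℝ) / 6 := by
      calc δ ^ b * ((2 * (K : ℝ) + 1) ^ 2 * (A0.card : ℝ)) =
            δ ^ b * (6 * (2 * (K : ℝ) + 1) ^ 2) * ((A0.card : ℝ) / 6) := by ring
        _ ≤ 1 * ((A0.card : ℝ) / 6) := mul_le_mul_of_nonneg_right hb' (by positivity)
        _ = _ := one_mul _
    have h14 : (0 : ℝ) ≤ A0.card := Nat.cast_nonneg _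
    rw [pow_add]
    have e : δ ^ (2 * C0) * δ ^ b * H = 2 * (δ ^ b * (δ ^ (2 * C0) * H / 2)) := by ring
    rw [e]
    linarith
  rw [hA0'] at h7
  obtain ⟨q, hq1, hq2, hq3⟩ := hC2 H δ hR2 (2 * ψ) h7
  have hi : 2 ≤ 1 / δ := by
    rw [le_div_iff₀ hδ0]
    linarith
  have hi0 : 0 < (1 / δ) ^ C2 := by positivity
  refine ⟨2 * q, by omega, ?_, ?_⟩
  · push_cast
    rw [pow_succ]
    nlinarith
  · have e : ((2 * q : ℕ) : ℝ) * ψ = q * (2 * ψ) := by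
      push_cast
      ring
    rw [e]
    refine hq3.trans (div_le_div_of_nonneg_right ?_ (by positivity))
    exact pow_le_pow_right₀ (by linarith) (Nat.le_succ _)

end Pool.Agent.NRP
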