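import Mathlib
import Pool.Agent.NRP.Cub
import Pool.Agent.NRP.U9
import Pool.Agent.NRP.Lf
import Pool.Agent.NRP.Pet
import Pool.Agent.NRP.V2
import Pool.Agent.NRP.Cl
import Pool.Agent.NRP.Rep
import Pool.Agent.NRP.Bad
import Pool.Agent.NRP.Div
import Pool.Agent.NRP.Dual
import Pool.Agent.NRP.U2I
import Pool.Agent.NRP.Bcs
import Pool.Agent.NRP.Alg
import Pool.Agent.NRP.Dls
import Pool.Agent.NRP.Split
import Pool.Agent.NRP.Dec
import Pool.Agent.NRP.Ic
import Pool.Agent.NRP.Vl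
import Pool.Agent.NRP.Weyl
import Pool.Agent.NRP.Cell
import Pool.Agent.NRP.Fin
import Pool.Agent.NRP.DL
import Pool.Agent.NRP.Low
import Pool.Agent.NRP.Ap
import Pool.Agent.NRP.Inv1
import Pool.Agent.NRP.Sm
import Pool.Agent.NRP.W2
import Pool.Agent.NRP.Inv2
import Pool.Agent.NRP.Inv2w
import Pool.Agent.NRP.Fmx
import Pool.Agent.NRP.Inv1w

set_option autoImplicit false

/-!
# NRP: the inverse theorems, unconditionally
-/

namespace Pool.Agent.NRP

theorem asm_u9 : St_U9 := thm_U9 (thm_V2 thm_Pet thm_Lf) (thm_Cub (thm_Cl thm_Lf) thm_Rep thm_Bad thm_Div)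

theorem asm_weyl : St_Weyl := thm_Weyl thm_Vl

theorem asm_dl : St_DL := thm_DL thm_U2I (thm_Ic thm_Bcs thm_Alg thm_Dls thm_Split) asm_weyl thm_Cell
  thm_Dec (thm_Fin thm_Bcs thm_Alg thm_Dls thm_Split) thm_Dls thm_Dual

theorem asm_low : St_Low := thm_Low asm_dl thm_U2I asm_weyl thm_Dual

theorem asm_inv1 : St_Inv1 := thm_Inv1 thm_Dual asm_u9 asm_low thm_Ap

theorem asm_inv2 : St_Inv2 := thm_Inv2 (thm_Sm thm_Dual asm_inv1) (thm_W2 thm_Vl)

theorem asm_inv2w : St_Inv2w := thm_Inv2w asm_inv2 thm_Cell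

theorem asm_inv1w : St_Inv1w := thm_Inv1w asm_inv1 thm_Fmx

end Pool.Agent.NRP
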