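import Mathlib
import Pool.Agent.NRP.StN
import Pool.Agent.GBQ.Main
import Pool.Agent.GBQ.Bonf
import Pool.Agent.GBQ.Esym
import Pool.Agent.GBQ.Trunc
import Pool.Agent.GBQ.Div
import Pool.Agent.GBQ.RhoLow
import Pool.Agent.GBQ.Crt

set_option autoImplicit false

/-!
# NRP BVM: one prime and two models
-/

namespace Pool.Agent.NRP

open Finset Filter
open Pool.Agent.GBQ (ee nd gm lam LamS zz rho pr Rough main_chi main_Cl main_a main_mem_Cl main_cop
  main_card_Cl main_totient main_chi_nonneg main_a_nonneg main_a_le main_sum_inv main_tail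
  main_prod_pos mem_pr lam_nonneg lam_le_log lam_zero)

/-- the sum over the classes -/
private noncomputable def bvm_W (Om : ℕ → Finset ℕ) (u v : ℕ) (U : Finset ℕ) : ℝ :=
  ∑ n ∈ Ioc u v, lam n * main_chi Om U n

private theorem bvm_split (f : ℕ → ℝ) {u v : ℕ} (h : u ≤ v) (P : ℕ → Prop) [DecidablePred P] :
    ∑ n ∈ (Ioc u v).filter P, f n =
      ∑ n ∈ (range (v + 1)).filter P, f n - ∑ n ∈ (range (u + 1)).filter P, f n := by
  have e : Ioc u v = Ico (u + 1) (v + 1) := by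
    ext n
    rw [mem_Ioc, mem_Ico]
    omega
  rw [e, sum_filter, sum_filter, sum_filter, Finset.sum_Ico_eq_sub _ (by omega)]

private theorem bvm_W_eq (Om : ℕ → Finset ℕ) (u v : ℕ) {U : Finset ℕ} (hU : ∀ p ∈ U, p.Prime) :
    bvm_W Om u v U = ∑ b ∈ main_Cl Om U,
      ∑ n ∈ (Ioc u v).filter (fun n => n % (∏ p ∈ U, p) = b % (∏ p ∈ U, p)), lam n := by
  unfold bvm_W
  have h1 : ∀ k : ℕ, lam k * main_chi Om U k =
      ∑ b ∈ main_Cl Om U, if k % (∏ p ∈ U, p) = b then lam k else 0 := by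
    intro k
    rw [Finset.sum_ite_eq]
    unfold main_chi
    by_cases h : ∀ p ∈ U, k % p ∈ Om p
    · rw [if_pos h, if_pos ((main_mem_Cl hU k).2 h), mul_one]
    · rw [if_neg h, if_neg (fun h' => h ((main_mem_Cl hU k).1 h')), mul_zero]
  rw [sum_congr rfl (fun k _ => h1 k), sum_comm]
  apply sum_congr rfl
  intro b hb
  rw [← sum_filter]
  have hb' : b % (∏ p ∈ U, p) = b := Nat.mod_eq_of_lt (mem_range.1 (mem_filter.1 hb).1)
  rw [hb']

private theorem bvm_approx {Om : ℕ → Finset ℕ}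
    (hOm : ∀ p, Om p ⊆ range p ∧ 0 ∉ Om p ∧ (Om p).card ≤ 3) {U : Finset ℕ}
    (hU : ∀ p ∈ U, p.Prime) {u v : ℕ} (huv : u ≤ v) {E : ℝ} (hE0 : 0 ≤ E)
    (hE : ∀ b w : ℕ, b.Coprime (∏ p ∈ U, p) → w ≤ v →
      |∑ n ∈ (range (w + 1)).filter (fun n => n % (∏ p ∈ U, p) = b % (∏ p ∈ U, p)), lam n -
        (w : ℝ) / ((∏ p ∈ U, p).totient : ℝ)| ≤ E) :
    |bvm_W Om u v U - ((v : ℝ) - u) * ∏ p ∈ U, main_a Om p| ≤ 3 ^ U.card * (2 * E) := by
  have hcard := main_card_Cl Pool.Agent.GBQ.thm_Crt hOm hU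
  have h1 : ((v : ℝ) - u) * ∏ p ∈ U, main_a Om p =
      ∑ b ∈ main_Cl Om U, ((v : ℝ) - u) / ((∏ p ∈ U, p).totient : ℝ) := by
    rw [sum_const, nsmul_eq_mul, hcard, main_totient hU]
    unfold main_a
    rw [prod_div_distrib]
    ring
  rw [bvm_W_eq Om u v hU, h1, ← sum_sub_distrib]
  have h2 : ∀ b ∈ main_Cl Om U,
      |∑ n ∈ (Ioc u v).filter (fun n => n % (∏ p ∈ U, p) = b % (∏ p ∈ U, p)), lam n -
        ((v : ℝ) - u) / ((∏ p ∈ U, p).totient : ℝ)| ≤ 2 * E := by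
    intro b hb
    have hc := main_cop hOm hU hb
    have h3 := hE b v hc le_rfl
    have h4 := hE b u hc huv
    rw [bvm_split _ huv, sub_div]
    have e : ∀ x y z w : ℝ, x - y - (z - w) = (x - z) - (y - w) := fun x y z w => by ring
    rw [e]
    refine (abs_sub _ _).trans ?_
    linarith
  calc _ ≤ ∑ b ∈ main_Cl Om U,
        |∑ n ∈ (Ioc u v).filter (fun n => n % (∏ p ∈ U, p) = b % (∏ p ∈ U, p)), lam n -
          ((v : ℝ) - u) / ((∏ p ∈ U, p).totient : ℝ)| := abs_sum_le_sum_abs _ _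
    _ ≤ ∑ b ∈ main_Cl Om U, 2 * E := sum_le_sum h2
    _ = (main_Cl Om U).card * (2 * E) := by rw [sum_const, nsmul_eq_mul]
    _ ≤ 3 ^ U.card * (2 * E) := by
      apply mul_le_mul_of_nonneg_right _ (by positivity)
      rw [hcard]
      calc ∏ p ∈ U, ((Om p).card : ℝ) ≤ ∏ p ∈ U, (3 : ℝ) :=
            Finset.prod_le_prod (fun _ _ => by positivity) fun p _ => by exact_mod_cast (hOm p).2.2
        _ = 3 ^ U.card := by rw [prod_const]

private theorem bvm_bonf (u v z t : ℕ) (Om : ℕ → Finset ℕ) :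
    |∑ n ∈ Ioc u v, (if ∀ p ∈ pr z, n % p ∉ Om p then lam n else 0) -
      ∑ T ∈ (pr z).powerset.filter (fun T => T.card ≤ t), (-1 : ℝ) ^ T.card * bvm_W Om u v T| ≤
    ∑ T ∈ (pr z).powersetCard (t + 1), bvm_W Om u v T := by
  have e1 : ∀ k : ℕ, (if ∀ p ∈ pr z, k % p ∉ Om p then lam k else 0) =
      lam k * (if ∀ p ∈ pr z, ¬ (k % p ∈ Om p) then (1 : ℝ) else 0) := by
    intro k
    split_ifs <;> ring
  have e2 : ∑ T ∈ (pr z).powerset.filter (fun T => T.card ≤ t),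
        (-1 : ℝ) ^ T.card * bvm_W Om u v T =
      ∑ k ∈ Ioc u v, lam k *
        (∑ T ∈ (pr z).powerset.filter (fun T => T.card ≤ t), (-1 : ℝ) ^ T.card *
          main_chi Om T k) := by
    unfold bvm_W
    simp only [mul_sum]
    rw [sum_comm]
    apply sum_congr rfl
    intro k _
    apply sum_congr rfl
    intro T _
    ring
  have e4 : ∑ T ∈ (pr z).powersetCard (t + 1), bvm_W Om u v T =
      ∑ k ∈ Ioc u v, lam k * (∑ T ∈ (pr z).powersetCard (t + 1), main_chi Om T k) := by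
    unfold bvm_W
    simp only [mul_sum]
    rw [sum_comm]
  rw [sum_congr rfl (fun k _ => e1 k), e2, e4, ← sum_sub_distrib]
  refine (abs_sum_le_sum_abs _ _).trans ?_
  apply sum_le_sum
  intro k _
  have hw : 0 ≤ lam k := lam_nonneg k
  have hB := Pool.Agent.GBQ.thm_Bonf (pr z) (fun p => k % p ∈ Om p) t
  have b1 : ∑ T ∈ (pr z).powerset.filter (fun T => T.card ≤ t ∧ ∀ p ∈ T, k % p ∈ Om p),
      (-1 : ℝ) ^ T.card = ∑ T ∈ (pr z).powerset.filter (fun T => T.card ≤ t),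
      (-1 : ℝ) ^ T.card * main_chi Om T k := by
    rw [← filter_filter, sum_filter (p := fun T : Finset ℕ => ∀ p ∈ T, k % p ∈ Om p)]
    apply sum_congr rfl
    intro T _
    unfold main_chi
    split_ifs <;> simp
  have b2 : ((((pr z).powersetCard (t + 1)).filter (fun T => ∀ p ∈ T, k % p ∈ Om p)).card : ℝ) =
      ∑ T ∈ (pr z).powersetCard (t + 1), main_chi Om T k := by
    rw [card_eq_sum_ones, Nat.cast_sum, sum_filter]
    apply sum_congr rfl
    intro T _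
    unfold main_chi
    split_ifs <;> simp
  rw [b1, b2] at hB
  rw [← mul_sub, abs_mul, abs_of_nonneg hw]
  exact mul_le_mul_of_nonneg_left hB hw

/-- the sum of the errors -/
private theorem bvm_err {z t Y : ℕ} (hY : 1 ≤ Y)
    (hz : (z : ℝ) ^ (t + 1) ≤ (Y : ℝ) ^ (1 / 100 : ℝ)) {E : ℕ → ℝ} (hE0 : ∀ q, 0 ≤ E q) :
    ∑ T ∈ (pr z).powerset.filter (fun T => T.card ≤ t + 1), (3 : ℝ) ^ T.card * E (∏ p ∈ T, p) ≤
      ∑ q ∈ (Icc 1 Y).filter (fun q : ℕ => (q : ℝ) ≤ (Y : ℝ) ^ (1 / 100 : ℝ)),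
        ((3 : ℕ) : ℝ) ^ q.primeFactors.card * E q := by
  classical
  have hY' : (1 : ℝ) ≤ Y := by exact_mod_cast hY
  have hpr : ∀ T ∈ (pr z).powerset.filter (fun T => T.card ≤ t + 1), ∀ p ∈ T, p.Prime := by
    intro T hT p hp
    exact (mem_pr.1 ((mem_powerset.1 (mem_filter.1 hT).1) hp)).2
  have hinj : Set.InjOn (fun T : Finset ℕ => ∏ p ∈ T, p)
      ((pr z).powerset.filter (fun T => T.card ≤ t + 1) : Set (Finset ℕ)) := by
    intro T hT T' hT' h
    rw [mem_coe] at hT hT'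
    have h1 := Nat.primeFactors_prod (hpr T hT)
    have h2 := Nat.primeFactors_prod (hpr T' hT')
    rw [← h1, ← h2]
    exact congrArg Nat.primeFactors h
  have e1 : ∑ T ∈ (pr z).powerset.filter (fun T => T.card ≤ t + 1),
      (3 : ℝ) ^ T.card * E (∏ p ∈ T, p) =
      ∑ T ∈ (pr z).powerset.filter (fun T => T.card ≤ t + 1),
        ((3 : ℕ) : ℝ) ^ (∏ p ∈ T, p).primeFactors.card * E (∏ p ∈ T, p) := by
    apply sum_congr rfl
    intro T hT
    rw [Nat.primeFactors_prod (hpr T hT)]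
    norm_num
  rw [e1, ← sum_image (f := fun q : ℕ => ((3 : ℕ) : ℝ) ^ q.primeFactors.card * E q) hinj]
  apply sum_le_sum_of_subset_of_nonneg
  · intro q hq
    rw [mem_image] at hq
    obtain ⟨T, hT, rfl⟩ := hq
    have hsz : ((∏ p ∈ T, p : ℕ) : ℝ) ≤ (Y : ℝ) ^ (1 / 100 : ℝ) := by
      rcases T.eq_empty_or_nonempty with rfl | ⟨p, hp⟩
      · rw [prod_empty, Nat.cast_one]
        exact Real.one_le_rpow hY' (by norm_num)
      · have hTs := mem_powerset.1 (mem_filter.1 hT).1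
        have hz1 : 1 ≤ z := by
          have h2 := mem_pr.1 (hTs hp)
          have h3 := h2.2.two_le
          omega
        have h2 : ∏ p ∈ T, p ≤ z ^ T.card := by
          calc ∏ p ∈ T, p ≤ ∏ p ∈ T, z := Finset.prod_le_prod' fun p hp => (mem_pr.1 (hTs hp)).1
            _ = z ^ T.card := by rw [prod_const]
        have h3 : ∏ p ∈ T, p ≤ z ^ (t + 1) :=
          h2.trans (Nat.pow_le_pow_right hz1 (mem_filter.1 hT).2)
        refine le_trans ?_ hz
        exact_mod_cast h3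
    rw [mem_filter, mem_Icc]
    refine ⟨⟨main_prod_pos (hpr T hT), ?_⟩, hsz⟩
    have h4 : ((∏ p ∈ T, p : ℕ) : ℝ) ≤ (Y : ℝ) ^ (1 : ℝ) :=
      hsz.trans (Real.rpow_le_rpow_of_exponent_le hY' (by norm_num))
    rw [Real.rpow_one] at h4
    exact_mod_cast h4
  · intro q _ _
    exact mul_nonneg (by positivity) (hE0 _)

/-- the sum over the classes, all steps -/
private theorem bvm_total {u v z t Y : ℕ} (hY : 1 ≤ Y) (huv : u ≤ v) (hvY : v ≤ Y)
    {Om : ℕ → Finset ℕ} (hOm : ∀ p, Om p ⊆ range p ∧ 0 ∉ Om p ∧ (Om p).card ≤ 3) {τ : ℝ}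
    (hz : (z : ℝ) ^ (t + 1) ≤ (Y : ℝ) ^ (1 / 100 : ℝ))
    (hτ : ∀ s : ℝ, 0 ≤ s → s ≤ 6 * (1 + Real.log (1 + z)) →
      s ^ (t + 1) / ((t + 1).factorial : ℝ) * Real.exp s ≤ τ)
    {E : ℕ → ℝ} (hE0 : ∀ q, 0 ≤ E q)
    (hE : ∀ q b w : ℕ, 1 ≤ q → (q : ℝ) ≤ (Y : ℝ) ^ (1 / 100 : ℝ) → b.Coprime q → w ≤ Y →
      |∑ n ∈ (range (w + 1)).filter (fun n => n % q = b % q), lam n - (w : ℝ) / (q.totient : ℝ)| ≤
        E q) :
    |∑ n ∈ Ioc u v, (if ∀ p ∈ pr z, n % p ∉ Om p then lam n else 0) -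
      ((v : ℝ) - u) * ∏ p ∈ pr z, (1 - main_a Om p)| ≤
    2 * (∑ q ∈ (Icc 1 Y).filter (fun q : ℕ => (q : ℝ) ≤ (Y : ℝ) ^ (1 / 100 : ℝ)),
        ((3 : ℕ) : ℝ) ^ q.primeFactors.card * E q) + 2 * (Y * τ) := by
  have hY' : (1 : ℝ) ≤ Y := by exact_mod_cast hY
  have huv' : (u : ℝ) ≤ v := by exact_mod_cast huv
  have hvY' : (v : ℝ) ≤ Y := by exact_mod_cast hvY
  have hu0 : (0 : ℝ) ≤ u := Nat.cast_nonneg u
  have hap : ∀ T ∈ (pr z).powerset.filter (fun T => T.card ≤ t + 1),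
      |bvm_W Om u v T - ((v : ℝ) - u) * ∏ p ∈ T, main_a Om p| ≤
        3 ^ T.card * (2 * E (∏ p ∈ T, p)) := by
    intro T hT
    have hTs := mem_powerset.1 (mem_filter.1 hT).1
    have hTp : ∀ p ∈ T, p.Prime := fun p hp => (mem_pr.1 (hTs hp)).2
    have hsz : ((∏ p ∈ T, p : ℕ) : ℝ) ≤ (Y : ℝ) ^ (1 / 100 : ℝ) := by
      rcases T.eq_empty_or_nonempty with rfl | ⟨p, hp⟩
      · rw [prod_empty, Nat.cast_one]
        exact Real.one_le_rpow hY' (by norm_num)
      · have hz1 : 1 ≤ z := by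
          have h2 := mem_pr.1 (hTs hp)
          have h3 := h2.2.two_le
          omega
        have h2 : ∏ p ∈ T, p ≤ z ^ T.card := by
          calc ∏ p ∈ T, p ≤ ∏ p ∈ T, z := Finset.prod_le_prod' fun p hp => (mem_pr.1 (hTs hp)).1
            _ = z ^ T.card := by rw [prod_const]
        have h3 : ∏ p ∈ T, p ≤ z ^ (t + 1) :=
          h2.trans (Nat.pow_le_pow_right hz1 (mem_filter.1 hT).2)
        refine le_trans ?_ hz
        exact_mod_cast h3
    exact bvm_approx hOm hTp huv (hE0 _) fun b w hb hw =>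
      hE _ b w (main_prod_pos hTp) hsz hb (hw.trans hvY)
  have hpos : ∀ p ∈ pr z, 0 ≤ main_a Om p := fun p hp => main_a_nonneg (mem_pr.1 hp).2
  have b1 := bvm_bonf u v z t Om
  have b4 := main_tail Pool.Agent.GBQ.thm_Esym Pool.Agent.GBQ.thm_Div z t hOm hτ
  have b5 := bvm_err (E := E) hY hz hE0
  -- the two error sums
  have hsplit : ∀ f : Finset ℕ → ℝ, ∑ T ∈ (pr z).powerset.filter (fun T => T.card ≤ t + 1), f T =
      ∑ T ∈ (pr z).powerset.filter (fun T => T.card ≤ t), f T +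
        ∑ T ∈ (pr z).powersetCard (t + 1), f T := by
    intro f
    rw [← sum_filter_add_sum_filter_not ((pr z).powerset.filter (fun T => T.card ≤ t + 1))
      (fun T => T.card ≤ t)]
    congr 1
    · apply sum_congr _ (fun _ _ => rfl)
      rw [filter_filter]
      apply filter_congr
      intro T _
      constructor
      · exact fun h => h.2
      · exact fun h => ⟨by omega, h⟩
    · apply sum_congr _ (fun _ _ => rfl)
      ext T
      rw [mem_filter, mem_filter, mem_powerset, mem_powersetCard]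
      constructor
      · rintro ⟨⟨h1, h2⟩, h3⟩
        exact ⟨h1, by omega⟩
      · rintro ⟨h1, h2⟩
        exact ⟨⟨h1, by omega⟩, by omega⟩
  have hsum := hsplit (fun T => (3 : ℝ) ^ T.card * (2 * E (∏ p ∈ T, p)))
  have hsum2 : ∑ T ∈ (pr z).powerset.filter (fun T => T.card ≤ t + 1),
      (3 : ℝ) ^ T.card * (2 * E (∏ p ∈ T, p)) ≤
      2 * (∑ q ∈ (Icc 1 Y).filter (fun q : ℕ => (q : ℝ) ≤ (Y : ℝ) ^ (1 / 100 : ℝ)),
        ((3 : ℕ) : ℝ) ^ q.primeFactors.card * E q) := by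
    have e : ∑ T ∈ (pr z).powerset.filter (fun T => T.card ≤ t + 1),
        (3 : ℝ) ^ T.card * (2 * E (∏ p ∈ T, p)) =
        2 * ∑ T ∈ (pr z).powerset.filter (fun T => T.card ≤ t + 1),
          (3 : ℝ) ^ T.card * E (∏ p ∈ T, p) := by
      rw [mul_sum]
      apply sum_congr rfl
      intro T _
      ring
    rw [e]
    linarith
  -- Bonferroni error
  have c1 : ∑ T ∈ (pr z).powersetCard (t + 1), bvm_W Om u v T ≤ Y * τ +
      ∑ T ∈ (pr z).powersetCard (t + 1), (3 : ℝ) ^ T.card * (2 * E (∏ p ∈ T, p)) := by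
    have d1 : ∀ T ∈ (pr z).powersetCard (t + 1), bvm_W Om u v T ≤
        ((v : ℝ) - u) * ∏ p ∈ T, main_a Om p + (3 : ℝ) ^ T.card * (2 * E (∏ p ∈ T, p)) := by
      intro T hT
      rw [mem_powersetCard] at hT
      have d2 := hap T (mem_filter.2 ⟨mem_powerset.2 hT.1, hT.2.le⟩)
      have d3 := (abs_le.1 d2).2
      linarith
    refine (sum_le_sum d1).trans ?_
    rw [sum_add_distrib, ← mul_sum]
    apply add_le_add_left
    have d4 := (Pool.Agent.GBQ.thm_Esym (pr z) (main_a Om) hpos (t + 1)).1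
    have hs0 : 0 ≤ ∑ p ∈ pr z, main_a Om p := sum_nonneg hpos
    have d5 := hτ _ hs0 ((sum_le_sum fun p hp => main_a_le hOm (mem_pr.1 hp).2).trans
      (main_sum_inv Pool.Agent.GBQ.thm_Div z))
    have d6 : (1 : ℝ) ≤ Real.exp (∑ p ∈ pr z, main_a Om p) := Real.one_le_exp hs0
    have d7 : 0 ≤ (∑ p ∈ pr z, main_a Om p) ^ (t + 1) / ((t + 1).factorial : ℝ) := by
      positivity
    have d8 : ∑ T ∈ (pr z).powersetCard (t + 1), ∏ p ∈ T, main_a Om p ≤ τ :=
      d4.trans (le_trans (by nlinarith) d5)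
    have d9 : 0 ≤ ∑ T ∈ (pr z).powersetCard (t + 1), ∏ p ∈ T, main_a Om p :=
      sum_nonneg fun T hT => prod_nonneg fun p hp => hpos p ((mem_powersetCard.1 hT).1 hp)
    exact mul_le_mul (by linarith) d8 d9 (by linarith)
  -- main term
  have c2 : |∑ T ∈ (pr z).powerset.filter (fun T => T.card ≤ t), (-1 : ℝ) ^ T.card *
      bvm_W Om u v T - ((v : ℝ) - u) * ∑ T ∈ (pr z).powerset.filter (fun T => T.card ≤ t),
        (-1 : ℝ) ^ T.card * ∏ p ∈ T, main_a Om p| ≤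
      ∑ T ∈ (pr z).powerset.filter (fun T => T.card ≤ t),
        (3 : ℝ) ^ T.card * (2 * E (∏ p ∈ T, p)) := by
    rw [mul_sum, ← sum_sub_distrib]
    refine (abs_sum_le_sum_abs _ _).trans (sum_le_sum fun T hT => ?_)
    have d2 := hap T (mem_filter.2 ⟨(mem_filter.1 hT).1, (mem_filter.1 hT).2.trans (Nat.le_succ t)⟩)
    have e : (-1 : ℝ) ^ T.card * bvm_W Om u v T -
        ((v : ℝ) - u) * ((-1 : ℝ) ^ T.card * ∏ p ∈ T, main_a Om p) =
        (-1 : ℝ) ^ T.card * (bvm_W Om u v T - ((v : ℝ) - u) * ∏ p ∈ T, main_a Om p) := by ring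
    rw [e, abs_mul, abs_pow, abs_neg, abs_one, one_pow, one_mul]
    exact d2
  have c3 : |((v : ℝ) - u) * ∑ T ∈ (pr z).powerset.filter (fun T => T.card ≤ t),
        (-1 : ℝ) ^ T.card * ∏ p ∈ T, main_a Om p -
      ((v : ℝ) - u) * ∏ p ∈ pr z, (1 - main_a Om p)| ≤ Y * τ := by
    rw [← mul_sub, abs_mul, abs_of_nonneg (sub_nonneg.2 huv')]
    exact mul_le_mul (by linarith) b4 (abs_nonneg _) (by linarith)
  have f1 := abs_le.1 b1
  have f2 := abs_le.1 c2
  have f3 := abs_le.1 c3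
  rw [abs_le]
  constructor <;> linarith [f1.1, f1.2, f2.1, f2.2, f3.1, f3.2]

/-- the classes -/
private def bvm_Om (a b : ℤ) (p : ℕ) : Finset ℕ :=
  (range p).filter (fun x => x ≠ 0 ∧ ((p : ℤ) ∣ (x : ℤ) + a ∨ (p : ℤ) ∣ (x : ℤ) + b))

private theorem bvm_one (a : ℤ) (p : ℕ) :
    ((range p).filter (fun x : ℕ => (p : ℤ) ∣ (x : ℤ) + a)).card ≤ 1 := by
  rw [card_le_one]
  intro x hx y hy
  rw [mem_filter, mem_range] at hx hy
  have h1 : (p : ℤ) ∣ (x : ℤ) - y := by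
    have h := dvd_sub hx.2 hy.2
    have e : (x : ℤ) + a - (y + a) = x - y := by ring
    rwa [e] at h
  have h2 : (x : ℤ) - y = 0 := by
    apply Int.eq_zero_of_abs_lt_dvd h1
    rw [abs_lt]
    have := hx.1
    have := hy.1
    constructor <;> omega
  omega

private theorem bvm_Om_spec (a b : ℤ) (p : ℕ) :
    bvm_Om a b p ⊆ range p ∧ 0 ∉ bvm_Om a b p ∧ (bvm_Om a b p).card ≤ 3 := by
  refine ⟨filter_subset _ _, ?_, ?_⟩
  · intro h
    exact (mem_filter.1 h).2.1 rfl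
  · have h1 : bvm_Om a b p ⊆ (range p).filter (fun x : ℕ => (p : ℤ) ∣ (x : ℤ) + a) ∪
        (range p).filter (fun x : ℕ => (p : ℤ) ∣ (x : ℤ) + b) := by
      intro x hx
      rw [bvm_Om, mem_filter] at hx
      rw [mem_union, mem_filter, mem_filter]
      rcases hx.2.2 with h | h
      · exact Or.inl ⟨hx.1, h⟩
      · exact Or.inr ⟨hx.1, h⟩
    have h2 := (card_le_card h1).trans (card_union_le _ _)
    have h3 := bvm_one a p
    have h4 := bvm_one b p
    omega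

private theorem bvm_mod {p x s : ℤ} : s % p = (-x) % p ↔ p ∣ x + s := by
  have h : s ≡ -x [ZMOD p] ↔ p ∣ -x - s := Int.modEq_iff_dvd
  have e : -x - s = -(x + s) := by ring
  rw [e, dvd_neg] at h
  exact h

private theorem bvm_card (a b : ℤ) {p : ℕ} (hp : p.Prime) :
    (({0, a, b} : Finset ℤ).image (fun x => x % (p : ℤ))).card = (bvm_Om a b p).card + 1 := by
  have hp0 : (0 : ℤ) < p := by exact_mod_cast hp.pos
  have h0 : (0 : ℤ) ∈ (({0, a, b} : Finset ℤ).image (fun x => x % (p : ℤ))) := by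
    rw [mem_image]
    exact ⟨0, by simp, by simp⟩
  rw [← card_erase_add_one h0]
  congr 1
  symm
  refine card_bij (fun x _ => (-(x : ℤ)) % (p : ℤ)) ?_ ?_ ?_
  · intro x hx
    rw [bvm_Om, mem_filter, mem_range] at hx
    rw [mem_erase, mem_image]
    refine ⟨?_, ?_⟩
    · intro h
      have h1 : (p : ℤ) ∣ -(x : ℤ) := Int.dvd_of_emod_eq_zero h
      rw [dvd_neg] at h1
      have h2 : p ∣ x := by exact_mod_cast h1
      have h3 := Nat.le_of_dvd (Nat.pos_of_ne_zero hx.2.1) h2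
      omega
    · rcases hx.2.2 with h | h
      · exact ⟨a, by simp, bvm_mod.2 h⟩
      · exact ⟨b, by simp, bvm_mod.2 h⟩
  · intro x hx y hy h
    rw [bvm_Om, mem_filter, mem_range] at hx hy
    have h1 : (p : ℤ) ∣ (y : ℤ) + -(x : ℤ) := bvm_mod.1 h
    have h2 : (y : ℤ) + -(x : ℤ) = 0 := by
      apply Int.eq_zero_of_abs_lt_dvd h1
      rw [abs_lt]
      have := hx.1
      have := hy.1
      constructor <;> omega
    omega
  · intro y hy
    rw [mem_erase, mem_image] at hy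
    obtain ⟨hy0, s, hs, hsy⟩ := hy
    have hy1 : 0 ≤ y := by rw [← hsy]; exact Int.emod_nonneg _ hp0.ne'
    have hy2 : y < p := by rw [← hsy]; exact Int.emod_lt_of_pos _ hp0
    have hx1 : 0 ≤ (-y) % (p : ℤ) := Int.emod_nonneg _ hp0.ne'
    have hx2 : (-y) % (p : ℤ) < p := Int.emod_lt_of_pos _ hp0
    have hxe : ((((-y) % (p : ℤ)).toNat : ℕ) : ℤ) = (-y) % (p : ℤ) := Int.toNat_of_nonneg hx1
    have hmod : ((-y) % (p : ℤ)) % (p : ℤ) = (-y) % (p : ℤ) := Int.emod_emod _ _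
    have hd : (p : ℤ) ∣ y + (-y) % (p : ℤ) := bvm_mod.1 hmod
    have hys : (p : ℤ) ∣ s - y := by
      rw [← hsy]
      exact Int.dvd_self_sub_emod
    have hds : (p : ℤ) ∣ (-y) % (p : ℤ) + s := by
      have h := dvd_add hd hys
      have e : y + (-y) % (p : ℤ) + (s - y) = (-y) % (p : ℤ) + s := by ring
      rwa [e] at h
    refine ⟨((-y) % (p : ℤ)).toNat, ?_, ?_⟩
    · rw [bvm_Om, mem_filter, mem_range, hxe]
      refine ⟨?_, ?_, ?_⟩
      · have : ((((-y) % (p : ℤ)).toNat : ℕ) : ℤ) < p := by rw [hxe]; exact hx2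
        exact_mod_cast this
      · intro h
        have h1 : (-y) % (p : ℤ) = 0 := by
          rw [← hxe, h]
          rfl
        rw [h1, add_zero] at hd
        exact hy0 (Int.eq_zero_of_abs_lt_dvd hd (by rw [abs_lt]; constructor <;> omega))
      · rw [mem_insert, mem_insert, mem_singleton] at hs
        rcases hs with rfl | rfl | rfl
        · exact absurd (by rw [← hsy]; exact Int.zero_emod _) hy0
        · exact Or.inl hds
        · exact Or.inr hds
    · rw [hxe]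
      have h1 : (p : ℤ) ∣ (-y) % (p : ℤ) + y := by rwa [add_comm] at hd
      rw [← bvm_mod.2 h1]
      exact Int.emod_eq_of_lt hy1 hy2

private theorem bvm_locf (a b : ℤ) {p : ℕ} (hp : p.Prime) :
    locf {0, a, b} 3 p = (1 - main_a (bvm_Om a b) p) * (1 - 1 / (p : ℝ))⁻¹ ^ 2 := by
  have h1 : (1 : ℝ) < p := by exact_mod_cast hp.one_lt
  have h2 : (p : ℝ) ≠ 0 := by positivity
  have h3 : (p : ℝ) - 1 ≠ 0 := by
    intro h
    linarith
  unfold locf main_a
  rw [bvm_card a b hp]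
  push_cast
  have h4 : 1 - 1 / (p : ℝ) ≠ 0 := by
    rw [sub_ne_zero]
    intro h
    rw [eq_comm, div_eq_one_iff_eq h2] at h
    linarith
  field_simp
  ring

private theorem bvm_GS (a b : ℤ) (z : ℕ) :
    GS z {0, a, b} = (rho z)⁻¹ ^ 2 * ∏ p ∈ pr z, (1 - main_a (bvm_Om a b) p) := by
  unfold GS rho
  rw [prod_congr rfl (fun p hp => bvm_locf a b (mem_pr.1 hp).2), prod_mul_distrib, prod_pow,
    prod_inv_distrib]
  ring

/-- prime powers -/
private theorem bvm_pp {p Y : ℕ} (hp : p.Prime) (hY : 1 ≤ Y) :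
    ∑ n ∈ (Icc 1 Y).filter (fun n => p ∣ n), lam n ≤ (Nat.log 2 Y + 1) * Real.log Y := by
  have hY' : (1 : ℝ) ≤ Y := by exact_mod_cast hY
  have hl : 0 ≤ Real.log Y := Real.log_nonneg hY'
  have h1 : ∑ n ∈ (Icc 1 Y).filter (fun n => p ∣ n), lam n ≤
      ∑ n ∈ (range (Nat.log 2 Y + 1)).image (fun k => p ^ k), Real.log Y := by
    calc ∑ n ∈ (Icc 1 Y).filter (fun n => p ∣ n), lam n
        = ∑ n ∈ ((Icc 1 Y).filter (fun n => p ∣ n)).filter (fun n => lam n ≠ 0), lam n := by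
          rw [sum_filter_ne_zero]
      _ ≤ ∑ n ∈ ((Icc 1 Y).filter (fun n => p ∣ n)).filter (fun n => lam n ≠ 0), Real.log Y := by
          apply sum_le_sum
          intro n hn
          rw [mem_filter, mem_filter, mem_Icc] at hn
          refine (lam_le_log n).trans (Real.log_le_log ?_ ?_)
          · exact_mod_cast hn.1.1.1
          · exact_mod_cast hn.1.1.2
      _ ≤ ∑ n ∈ (range (Nat.log 2 Y + 1)).image (fun k => p ^ k), Real.log Y := by
          apply sum_le_sum_of_subset_of_nonneg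
          · intro n hn
            rw [mem_filter, mem_filter, mem_Icc] at hn
            obtain ⟨⟨⟨hn1, hn2⟩, hn3⟩, hn4⟩ := hn
            have hpp : IsPrimePow n := by
              by_contra h
              exact hn4 (ArithmeticFunction.vonMangoldt_eq_zero_iff.2 h)
            rw [isPrimePow_nat_iff] at hpp
            obtain ⟨q, k, hq, hk, rfl⟩ := hpp
            have hpq : p = q := (Nat.prime_dvd_prime_iff_eq hp hq).1 (hp.dvd_of_dvd_pow hn3)
            subst hpq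
            rw [mem_image]
            refine ⟨k, ?_, rfl⟩
            rw [mem_range]
            have : k ≤ Nat.log 2 Y := by
              apply Nat.le_log_of_pow_le (by norm_num)
              exact (Nat.pow_le_pow_left hp.two_le k).trans hn2
            omega
          · intro n _ _
            exact hl
  refine h1.trans ?_
  rw [sum_const, nsmul_eq_mul]
  apply mul_le_mul_of_nonneg_right _ hl
  have h2 : ((range (Nat.log 2 Y + 1)).image (fun k => p ^ k)).card ≤ Nat.log 2 Y + 1 :=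
    card_image_le.trans (by rw [card_range])
  exact_mod_cast h2

private theorem bvm_dvd (a : ℤ) (n p : ℕ) :
    ((p : ℤ) ∣ ((n % p : ℕ) : ℤ) + a) ↔ (p : ℤ) ∣ (n : ℤ) + a := by
  have e : (n : ℤ) + a = ((n % p : ℕ) : ℤ) + a + p * ((n / p : ℕ) : ℤ) := by
    have h := Nat.mod_add_div n p
    have h' : ((n % p : ℕ) : ℤ) + p * ((n / p : ℕ) : ℤ) = n := by exact_mod_cast h
    linarith
  rw [e]
  exact (dvd_add_left (dvd_mul_right _ _)).symm

private theorem bvm_LamZ {z : ℕ} {m : ℤ} (hm : 0 < m) :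
    LamZ z m = if ∀ p ∈ pr z, ¬ (p : ℤ) ∣ m then (rho z)⁻¹ else 0 := by
  unfold LamZ LamS
  rw [if_pos hm]
  have h : (Rough z m.toNat) ↔ ∀ p ∈ pr z, ¬ (p : ℤ) ∣ m := by
    unfold Rough
    apply forall₂_congr
    intro p _
    rw [not_iff_not]
    have e : ((m.toNat : ℕ) : ℤ) = m := Int.toNat_of_nonneg hm.le
    constructor
    · intro h1
      rw [← e]
      exact_mod_cast h1
    · intro h1
      rw [← e] at h1
      exact_mod_cast h1
  by_cases h1 : ∀ p ∈ pr z, ¬ (p : ℤ) ∣ m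
  · rw [if_pos h1, if_pos (h.2 h1)]
  · rw [if_neg h1, if_neg (fun h2 => h1 (h.1 h2))]

private theorem bvm_term {z n : ℕ} {a b : ℤ} (ha : 0 < (n : ℤ) + a) (hb : 0 < (n : ℤ) + b) :
    |lam n * LamZ z (n + a) * LamZ z (n + b) -
      (rho z)⁻¹ ^ 2 * (if ∀ p ∈ pr z, n % p ∉ bvm_Om a b p then lam n else 0)| ≤
    (rho z)⁻¹ ^ 2 * ∑ p ∈ pr z, (if p ∣ n then lam n else 0) := by
  have hr : 0 < (rho z)⁻¹ := inv_pos.2 (Pool.Agent.GBQ.rho_pos z)
  have hl := lam_nonneg n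
  rw [bvm_LamZ ha, bvm_LamZ hb]
  have hnn : ∀ p ∈ pr z, (0 : ℝ) ≤ (if p ∣ n then lam n else 0) := by
    intro p _
    split_ifs
    · exact hl
    · exact le_rfl
  by_cases hd : ∃ p ∈ pr z, p ∣ n
  · obtain ⟨p, hp, hpn⟩ := hd
    have h1 : lam n ≤ ∑ p ∈ pr z, (if p ∣ n then lam n else 0) := by
      have h := single_le_sum hnn hp
      rwa [if_pos hpn] at h
    have h2 : (rho z)⁻¹ ^ 2 * lam n ≤ (rho z)⁻¹ ^ 2 * ∑ p ∈ pr z, (if p ∣ n then lam n else 0) :=
      mul_le_mul_of_nonneg_left h1 (by positivity)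
    refine le_trans ?_ h2
    have h3 : 0 ≤ (rho z)⁻¹ ^ 2 * lam n := by positivity
    rw [abs_le]
    split_ifs <;> constructor <;> nlinarith
  · push Not at hd
    have h1 : (∀ p ∈ pr z, n % p ∉ bvm_Om a b p) ↔
        (∀ p ∈ pr z, ¬ (p : ℤ) ∣ (n : ℤ) + a) ∧ ∀ p ∈ pr z, ¬ (p : ℤ) ∣ (n : ℤ) + b := by
      have h2 : ∀ p ∈ pr z, (n % p ∉ bvm_Om a b p ↔ ¬ (p : ℤ) ∣ (n : ℤ) + a ∧
          ¬ (p : ℤ) ∣ (n : ℤ) + b) := by
        intro p hp
        have hpp := (mem_pr.1 hp).2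
        rw [bvm_Om, mem_filter, mem_range, bvm_dvd, bvm_dvd]
        have h3 : n % p ≠ 0 := fun h => hd p hp (Nat.dvd_of_mod_eq_zero h)
        have h4 : n % p < p := Nat.mod_lt _ hpp.pos
        tauto
      constructor
      · intro h
        exact ⟨fun p hp => ((h2 p hp).1 (h p hp)).1, fun p hp => ((h2 p hp).1 (h p hp)).2⟩
      · intro h p hp
        exact (h2 p hp).2 ⟨h.1 p hp, h.2 p hp⟩
    have h5 : lam n * (if ∀ p ∈ pr z, ¬ (p : ℤ) ∣ (n : ℤ) + a then (rho z)⁻¹ else 0) *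
        (if ∀ p ∈ pr z, ¬ (p : ℤ) ∣ (n : ℤ) + b then (rho z)⁻¹ else 0) =
        (rho z)⁻¹ ^ 2 * (if ∀ p ∈ pr z, n % p ∉ bvm_Om a b p then lam n else 0) := by
      by_cases h6 : ∀ p ∈ pr z, ¬ (p : ℤ) ∣ (n : ℤ) + a
      · by_cases h7 : ∀ p ∈ pr z, ¬ (p : ℤ) ∣ (n : ℤ) + b
        · rw [if_pos h6, if_pos h7, if_pos (h1.2 ⟨h6, h7⟩)]
          ring
        · rw [if_neg h7, if_neg (fun h => h7 (h1.1 h).2)]
          ring
      · rw [if_neg h6, if_neg (fun h => h6 (h1.1 h).1)]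
        ring
    rw [h5, sub_self, abs_zero]
    exact mul_nonneg (by positivity) (sum_nonneg hnn)

private theorem bvm_cmp {z u v Y : ℕ} {a b : ℤ} (hY : 1 ≤ Y) (hvY : v ≤ Y) (ha : 0 ≤ (u : ℤ) + a)
    (hb : 0 ≤ (u : ℤ) + b) :
    |∑ n ∈ Ioc u v, lam n * LamZ z (n + a) * LamZ z (n + b) -
      (rho z)⁻¹ ^ 2 * ∑ n ∈ Ioc u v, (if ∀ p ∈ pr z, n % p ∉ bvm_Om a b p then lam n else 0)| ≤
    (rho z)⁻¹ ^ 2 * (z * ((Nat.log 2 Y + 1) * Real.log Y)) := by
  rw [mul_sum, ← sum_sub_distrib]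
  refine (abs_sum_le_sum_abs _ _).trans ?_
  have h1 : ∀ n ∈ Ioc u v, |lam n * LamZ z (n + a) * LamZ z (n + b) -
      (rho z)⁻¹ ^ 2 * (if ∀ p ∈ pr z, n % p ∉ bvm_Om a b p then lam n else 0)| ≤
      (rho z)⁻¹ ^ 2 * ∑ p ∈ pr z, (if p ∣ n then lam n else 0) := by
    intro n hn
    rw [mem_Ioc] at hn
    exact bvm_term (by omega) (by omega)
  refine (sum_le_sum h1).trans ?_
  rw [← mul_sum]
  apply mul_le_mul_of_nonneg_left _ (by positivity)
  rw [sum_comm]
  have hY' : (1 : ℝ) ≤ Y := by exact_mod_cast hY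
  have hl : 0 ≤ Real.log Y := Real.log_nonneg hY'
  have h2 : ∀ p ∈ pr z, ∑ n ∈ Ioc u v, (if p ∣ n then lam n else 0) ≤
      (Nat.log 2 Y + 1) * Real.log Y := by
    intro p hp
    refine le_trans ?_ (bvm_pp (mem_pr.1 hp).2 hY)
    rw [← sum_filter]
    apply sum_le_sum_of_subset_of_nonneg
    · intro n hn
      rw [mem_filter, mem_Ioc] at hn
      rw [mem_filter, mem_Icc]
      exact ⟨⟨by omega, by omega⟩, hn.2⟩
    · intro n _ _
      exact lam_nonneg n
  refine (sum_le_sum h2).trans ?_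
  rw [sum_const, nsmul_eq_mul]
  apply mul_le_mul_of_nonneg_right _ (by positivity)
  have h3 : (pr z).card ≤ z := by
    have h4 : pr z ⊆ Icc 1 z := by
      intro p hp
      rw [mem_pr] at hp
      rw [mem_Icc]
      exact ⟨hp.2.one_le, hp.1⟩
    have h5 := card_le_card h4
    rwa [Nat.card_Icc, Nat.add_sub_cancel] at h5
  exact_mod_cast h3

private theorem bvm_pow (C : ℝ) (k : ℕ) : ∀ᶠ X : ℕ in atTop, C * Real.log X ^ k ≤ X := by
  have h1 : (fun x : ℝ => Real.log x ^ k) =o[atTop] (fun x : ℝ => x) :=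
    Real.isLittleO_pow_log_id_atTop
  have h2 : (fun x : ℝ => C * Real.log x ^ k) =o[atTop] (fun x : ℝ => x) := h1.const_mul_left C
  have h3 := (h2.bound (c := 1) one_pos)
  have h4 : ∀ᶠ X : ℕ in atTop, ‖C * Real.log (X : ℝ) ^ k‖ ≤ 1 * ‖(X : ℝ)‖ :=
    tendsto_natCast_atTop_atTop.eventually h3
  filter_upwards [h4] with X hX
  rw [one_mul, Real.norm_of_nonneg (Nat.cast_nonneg X)] at hX
  exact (le_abs_self _).trans hX

/-- **BVM**. -/
theorem thm_BVM (hB : St_BVS) : St_BVM := by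
  intro A B
  obtain ⟨c, hc, hrho⟩ := Pool.Agent.GBQ.thm_RhoLow
  have h3 : Tendsto (fun X : ℕ => 3 * X) atTop atTop :=
    tendsto_atTop_mono (fun X => by simp only [id]; omega) tendsto_id
  have hlog : Tendsto (fun X : ℕ => Real.log X) atTop atTop :=
    Real.tendsto_log_atTop.comp tendsto_natCast_atTop_atTop
  filter_upwards [h3.eventually (hB (A + 3) 3),
    h3.eventually (Pool.Agent.GBQ.thm_Trunc (A + 3) B 6 (1 / 100) (by norm_num) (by norm_num)),
    hlog.eventually_ge_atTop (1 : ℝ), hlog.eventually_ge_atTop (24 / c ^ 2),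
    bvm_pow 1 B, bvm_pow (24 / c ^ 2) (A + B + 4), eventually_ge_atTop 3]
    with X hBV hTr hl1 hl2 hp1 hp2 hX3
  intro z hz2 hz a b u v huv hv ha hb hua hub
  obtain ⟨E, hE0, hE1, hE2⟩ := hBV
  obtain ⟨t, ht⟩ := hTr
  have hX' : (3 : ℝ) ≤ X := by exact_mod_cast hX3
  set l := Real.log X with hl
  set L := Real.log ((3 * X : ℕ) : ℝ) with hL
  have hlL : l ≤ L := by
    rw [hl, hL]
    apply Real.log_le_log (by linarith)
    push_cast
    linarith
  have hL2 : L ≤ 2 * l := by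
    rw [hL, hl]
    push_cast
    rw [Real.log_mul (by norm_num) (by linarith)]
    have := Real.log_le_log (by norm_num : (0 : ℝ) < 3) hX'
    linarith
  have hl0 : 0 < l := by linarith
  have hL0 : 0 < L := by linarith
  have hzL : (z : ℝ) ≤ L ^ B := hz.trans (pow_le_pow_left₀ hl0.le hlL B)
  obtain ⟨ht1, ht2⟩ := ht z hzL
  have hY1 : 1 ≤ 3 * X := by omega
  have key := bvm_total hY1 huv hv (bvm_Om_spec a b) ht1 ht2 hE0
    (fun q b w h1 h2 h3 h4 => hE1 q b w h1 h2 h3 h4)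
  have cmp := bvm_cmp (z := z) hY1 hv hua hub
  rw [bvm_GS]
  set r := (rho z)⁻¹ with hr
  have hr0 : 0 < r := inv_pos.2 (Pool.Agent.GBQ.rho_pos z)
  have hz0 : (0 : ℝ) < z := by
    have : 0 < z := by omega
    exact_mod_cast this
  have hz1 : (2 : ℝ) ≤ z := by exact_mod_cast hz2
  have hlz : Real.log z ≤ l := by
    rw [hl]
    apply Real.log_le_log hz0
    rw [one_mul] at hp1
    exact hz.trans hp1
  have hlz0 : 0 < Real.log z := Real.log_pos (by linarith)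
  have hrl : r ≤ l / c := by
    have h1 := hrho z hz2
    have h2 : r ≤ (c / Real.log z)⁻¹ := by
      rw [hr]
      exact inv_anti₀ (by positivity) h1
    rw [inv_div] at h2
    exact h2.trans (div_le_div_of_nonneg_right hlz hc.le)
  have hr2 : r ^ 2 ≤ l ^ 2 / c ^ 2 := by
    rw [← div_pow]
    exact pow_le_pow_left₀ hr0.le hrl 2
  -- the errors
  set S := ∑ q ∈ (Icc 1 (3 * X)).filter
    (fun q : ℕ => (q : ℝ) ≤ ((3 * X : ℕ) : ℝ) ^ (1 / 100 : ℝ)),
    ((3 : ℕ) : ℝ) ^ q.primeFactors.card * E q with hS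
  have hS' : S ≤ ((3 * X : ℕ) : ℝ) / L ^ (A + 3) := hE2
  have hYL : ((3 * X : ℕ) : ℝ) / L ^ (A + 3) ≤ 3 * X / l ^ (A + 3) := by
    push_cast
    apply div_le_div_of_nonneg_left (by positivity) (by positivity)
    exact pow_le_pow_left₀ hl0.le hlL _
  have hlog2 : (Nat.log 2 (3 * X) : ℝ) ≤ 2 * L := by
    have h1 : 2 ^ Nat.log 2 (3 * X) ≤ 3 * X := Nat.pow_log_le_self 2 (by omega)
    have h2 : ((2 : ℝ) ^ Nat.log 2 (3 * X)) ≤ ((3 * X : ℕ) : ℝ) := by exact_mod_cast h1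
    have h3 := Real.log_le_log (by positivity) h2
    rw [Real.log_pow, ← hL] at h3
    have h4 := Real.log_two_gt_d9
    have h5 : (0 : ℝ) ≤ (Nat.log 2 (3 * X) : ℝ) := Nat.cast_nonneg _
    nlinarith
  have e1 : r ^ 2 * (4 * (3 * X / l ^ (A + 3))) ≤ X / (2 * l ^ A) := by
    calc r ^ 2 * (4 * (3 * X / l ^ (A + 3)))
        ≤ (l ^ 2 / c ^ 2) * (4 * (3 * X / l ^ (A + 3))) :=
          mul_le_mul_of_nonneg_right hr2 (by positivity)
      _ = (12 / c ^ 2) * (X / (l ^ A * l)) := by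
          field_simp
          ring
      _ = (24 / c ^ 2) * (X / (2 * (l ^ A * l))) := by
          field_simp
          ring
      _ ≤ l * (X / (2 * (l ^ A * l))) := mul_le_mul_of_nonneg_right hl2 (by positivity)
      _ = X / (2 * l ^ A) := by
          field_simp
  have e2 : r ^ 2 * (z * ((Nat.log 2 (3 * X) + 1) * L)) ≤ X / (2 * l ^ A) := by
    have h1 : ((Nat.log 2 (3 * X) : ℝ) + 1) * L ≤ 12 * l ^ 2 := by
      have : (Nat.log 2 (3 * X) : ℝ) + 1 ≤ 6 * l := by linarith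
      calc ((Nat.log 2 (3 * X) : ℝ) + 1) * L ≤ (6 * l) * (2 * l) :=
            mul_le_mul (by linarith) hL2 hL0.le (by positivity)
        _ = 12 * l ^ 2 := by ring
    calc r ^ 2 * (z * ((Nat.log 2 (3 * X) + 1) * L))
        ≤ (l ^ 2 / c ^ 2) * (l ^ B * (12 * l ^ 2)) := by
          apply mul_le_mul hr2 _ (by positivity) (by positivity)
          exact mul_le_mul hz h1 (by positivity) (by positivity)
      _ = (24 / c ^ 2 * l ^ (A + B + 4)) / (2 * l ^ A) := by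
          field_simp
          ring
      _ ≤ X / (2 * l ^ A) := div_le_div_of_nonneg_right hp2 (by positivity)
  have e3 : X / (2 * l ^ A) + X / (2 * l ^ A) = X / l ^ A := by
    field_simp
    ring
  set G := ∑ n ∈ Ioc u v, (if ∀ p ∈ pr z, n % p ∉ bvm_Om a b p then lam n else 0) with hG
  set P := ∏ p ∈ pr z, (1 - main_a (bvm_Om a b) p) with hP
  set M := ∑ n ∈ Ioc u v, lam n * LamZ z (n + a) * LamZ z (n + b) with hM
  have f1 : |r ^ 2 * G - ((v : ℝ) - u) * (r ^ 2 * P)| ≤ r ^ 2 * (4 * (3 * X / l ^ (A + 3))) := by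
    have e : r ^ 2 * G - ((v : ℝ) - u) * (r ^ 2 * P) = r ^ 2 * (G - ((v : ℝ) - u) * P) := by ring
    rw [e, abs_mul, abs_of_nonneg (by positivity : 0 ≤ r ^ 2)]
    apply mul_le_mul_of_nonneg_left _ (by positivity)
    refine key.trans ?_
    have g1 : ((3 * X : ℕ) : ℝ) * (1 / L ^ (A + 3)) = ((3 * X : ℕ) : ℝ) / L ^ (A + 3) := by ring
    rw [g1]
    linarith
  calc |M - ((v : ℝ) - u) * (r ^ 2 * P)| = |(M - r ^ 2 * G) +
        (r ^ 2 * G - ((v : ℝ) - u) * (r ^ 2 * P))| := by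
        congr 1
        ring
    _ ≤ |M - r ^ 2 * G| + |r ^ 2 * G - ((v : ℝ) - u) * (r ^ 2 * P)| := abs_add_le _ _
    _ ≤ X / (2 * l ^ A) + X / (2 * l ^ A) := add_le_add (cmp.trans e2) (f1.trans e1)
    _ = X / l ^ A := e3

end Pool.Agent.NRP
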