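import Pool.Agent.NRP.BS2
import Pool.Agent.MT.Reduce
import Pool.Agent.BVX.A8

set_option autoImplicit false

/-!
# NRP, block BVS, part 3: Bombieri-Vinogradov with a sharp cutoff (helper24)

Copies of `MT/Reduce.lean` and `GV/BV.lean` for the weight `bs1 = 1`.
-/

namespace Pool.Agent.NRP

open Finset Filter Pool.Agent.MT

theorem bs_psiChi (N : ℕ) {q : ℕ} (χ : DirichletCharacter ℂ q) :
    psiChi bs1 N χ =
      ∑ n ∈ range (N + 1), ((ArithmeticFunction.vonMangoldt n : ℝ) : ℂ) * χ (n : ZMod q) := by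
  unfold psiChi bs1
  refine sum_congr rfl fun n _ => ?_
  rw [Complex.ofReal_one, mul_one]

/-- two twists which agree at the integers coprime to `q` and one of which vanishes elsewhere -/
theorem bs_twist (η : ℝ → ℝ) (hη : ∀ x : ℝ, ‖((η x : ℝ) : ℂ)‖ ≤ 1) (N q : ℕ) (hN : 2 ≤ N) (hq : 1 ≤ q) (hqN : q ≤ N)
    (f g : ℕ → ℂ) (h1 : ∀ n : ℕ, n.Coprime q → f n = g n) (h2 : ∀ n : ℕ, ¬ n.Coprime q → f n = 0)
    (h3 : ∀ n, ‖g n‖ ≤ 1) :
    ‖∑ n ∈ range (N + 1), (((ArithmeticFunction.vonMangoldt n : ℝ) : ℂ) * f n) *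
        ((η ((n : ℝ) / N) : ℝ) : ℂ) -
      ∑ n ∈ range (N + 1), (((ArithmeticFunction.vonMangoldt n : ℝ) : ℂ) * g n) *
        ((η ((n : ℝ) / N) : ℝ) : ℂ)‖ ≤ 2 * Real.log N ^ 2 := by
  refine le_trans ?_ (noncoprime_part N q hN hq hqN)
  rw [← sum_sub_distrib, sum_filter]
  refine (norm_sum_le _ _).trans (sum_le_sum fun n _ => ?_)
  by_cases hn : n.Coprime q
  · rw [h1 n hn, sub_self, norm_zero, if_neg (by simpa using hn)]
  · rw [if_pos hn, h2 n hn, mul_zero, zero_mul, zero_sub, norm_neg, norm_mul, norm_mul,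
      Complex.norm_real, Real.norm_of_nonneg ArithmeticFunction.vonMangoldt_nonneg]
    have e1 := h3 n
    have e2 := hη ((n : ℝ) / N)
    have e3 : (0 : ℝ) ≤ ArithmeticFunction.vonMangoldt n := ArithmeticFunction.vonMangoldt_nonneg
    calc ArithmeticFunction.vonMangoldt n * ‖g n‖ * ‖((η ((n : ℝ) / N) : ℝ) : ℂ)‖
        ≤ ArithmeticFunction.vonMangoldt n * 1 * 1 := by gcongr
      _ = _ := by ring

theorem bs_reduce (η : ℝ → ℝ) (hη : ∀ x : ℝ, ‖((η x : ℝ) : ℂ)‖ ≤ 1) (N q b : ℕ) (hN : 2 ≤ N) (hq : 1 ≤ q) (hqN : q ≤ N)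
    (hb : b.Coprime q) :
    |psiAP η N q b - psi0 η N / (q.totient : ℝ)| ≤ 4 * Real.log N ^ 2 +
      (1 / (q.totient : ℝ)) * ∑ r ∈ q.divisors.erase 1, ∑ χ ∈ prim r, ‖psiChi η N χ‖ := by
  classical
  have : NeZero q := ⟨by omega⟩
  have hφ : 0 < (q.totient : ℝ) := by
    exact_mod_cast Nat.totient_pos.mpr (by omega)
  have hu : IsUnit (b : ZMod q) := (ZMod.isUnit_iff_coprime b q).mpr hb
  set L : ℝ := Real.log N ^ 2 with hL
  have hL0 : 0 ≤ L := sq_nonneg _
  -- the comparison function: primitive characters, and `1` for the principal one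
  have hpr : ∀ χ : DirichletCharacter ℂ q,
      ‖psiChi η N χ - psiChi η N χ.primitiveCharacter‖ ≤ 2 * L := by
    intro χ
    refine bs_twist η hη N q hN hq hqN (fun n => χ (n : ZMod q))
      (fun n => χ.primitiveCharacter (n : ZMod χ.conductor)) ?_ ?_ ?_
    · intro n hn
      have := χ.primitiveCharacter_apply_of_isCoprime (a := (n : ℤ))
        (by exact_mod_cast Nat.isCoprime_iff_coprime.mpr hn)
      simpa using this.symm
    · intro n hn
      exact MulChar.map_nonunit χ fun h => hn ((ZMod.isUnit_iff_coprime n q).mp h)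
    · intro n
      exact χ.primitiveCharacter.norm_le_one _
  have hone : ‖psiChi η N (1 : DirichletCharacter ℂ q) - ((psi0 η N : ℝ) : ℂ)‖ ≤ 2 * L := by
    have h := bs_twist η hη N q hN hq hqN (fun n => (1 : DirichletCharacter ℂ q) (n : ZMod q))
      (fun _ => 1) ?_ ?_ ?_
    · have e : ((psi0 η N : ℝ) : ℂ) = ∑ n ∈ range (N + 1),
          (((ArithmeticFunction.vonMangoldt n : ℝ) : ℂ) * 1) * ((η ((n : ℝ) / N) : ℝ) : ℂ) := by
        rw [psi0, Complex.ofReal_sum]
        refine sum_congr rfl fun n _ => ?_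
        push_cast
        ring
      rw [e]
      exact h
    · intro n hn
      exact MulChar.one_apply ((ZMod.isUnit_iff_coprime n q).mpr hn)
    · intro n hn
      exact MulChar.map_nonunit _ fun h => hn ((ZMod.isUnit_iff_coprime n q).mp h)
    · intro n
      simp
  have horth := Reduce.orth η N q b hq hb
  have hsplit : (q.totient : ℂ) * ((psiAP η N q b - psi0 η N / (q.totient : ℝ) : ℝ) : ℂ) =
      (psiChi η N (1 : DirichletCharacter ℂ q) - ((psi0 η N : ℝ) : ℂ)) +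
        ∑ χ ∈ (univ : Finset (DirichletCharacter ℂ q)).erase 1,
          χ ((b : ZMod q)⁻¹) * psiChi η N χ := by
    have hφc : (q.totient : ℂ) ≠ 0 := by
      exact_mod_cast hφ.ne'
    have h1 : (1 : DirichletCharacter ℂ q) ((b : ZMod q)⁻¹) = 1 := by
      refine MulChar.one_apply ?_
      exact IsUnit.of_mul_eq_one _ (ZMod.inv_mul_of_unit _ hu)
    have h2 : ∑ χ : DirichletCharacter ℂ q, χ ((b : ZMod q)⁻¹) * psiChi η N χ =
        psiChi η N (1 : DirichletCharacter ℂ q) +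
          ∑ χ ∈ (univ : Finset (DirichletCharacter ℂ q)).erase 1,
            χ ((b : ZMod q)⁻¹) * psiChi η N χ := by
      rw [← add_sum_erase univ _ (mem_univ (1 : DirichletCharacter ℂ q)), h1, one_mul]
    rw [Complex.ofReal_sub, mul_sub, horth, h2]
    push_cast
    field_simp
    ring
  have hnorm : (q.totient : ℝ) * |psiAP η N q b - psi0 η N / (q.totient : ℝ)| ≤
      2 * L * q.totient + ∑ r ∈ q.divisors.erase 1, ∑ χ ∈ prim r, ‖psiChi η N χ‖ := by
    have e1 : (q.totient : ℝ) * |psiAP η N q b - psi0 η N / (q.totient : ℝ)| =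
        ‖(q.totient : ℂ) * ((psiAP η N q b - psi0 η N / (q.totient : ℝ) : ℝ) : ℂ)‖ := by
      rw [norm_mul, Complex.norm_real, Real.norm_eq_abs, Complex.norm_natCast]
    have e2 : ∀ χ : DirichletCharacter ℂ q, ‖χ ((b : ZMod q)⁻¹) * psiChi η N χ‖ ≤
        2 * L + ‖psiChi η N χ.primitiveCharacter‖ := by
      intro χ
      rw [norm_mul]
      have h3 := χ.norm_le_one ((b : ZMod q)⁻¹)
      have h4 := hpr χ
      have h5 := norm_sub_norm_le (psiChi η N χ) (psiChi η N χ.primitiveCharacter)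
      calc ‖χ ((b : ZMod q)⁻¹)‖ * ‖psiChi η N χ‖ ≤ 1 * ‖psiChi η N χ‖ := by gcongr
        _ ≤ _ := by linarith
    have hc : ((univ : Finset (DirichletCharacter ℂ q)).erase 1).card + 1 = q.totient := by
      rw [card_erase_of_mem (mem_univ _), card_univ, ← Nat.card_eq_fintype_card,
        DirichletCharacter.card_eq_totient_of_hasEnoughRootsOfUnity ℂ q]
      have : 0 < q.totient := Nat.totient_pos.mpr (by omega)
      omega
    have hc' : (((univ : Finset (DirichletCharacter ℂ q)).erase 1).card : ℝ) + 1 = q.totient := by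
      exact_mod_cast hc
    calc (q.totient : ℝ) * |psiAP η N q b - psi0 η N / (q.totient : ℝ)|
        = _ := e1
      _ = ‖(psiChi η N (1 : DirichletCharacter ℂ q) - ((psi0 η N : ℝ) : ℂ)) +
        ∑ χ ∈ (univ : Finset (DirichletCharacter ℂ q)).erase 1,
          χ ((b : ZMod q)⁻¹) * psiChi η N χ‖ := by rw [hsplit]
      _ ≤ 2 * L + ∑ χ ∈ (univ : Finset (DirichletCharacter ℂ q)).erase 1,
          (2 * L + ‖psiChi η N χ.primitiveCharacter‖) :=
        (norm_add_le _ _).trans (add_le_add hone ((norm_sum_le _ _).trans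
          (sum_le_sum fun χ _ => e2 χ)))
      _ = 2 * L * q.totient + ∑ χ ∈ (univ : Finset (DirichletCharacter ℂ q)).erase 1,
          ‖psiChi η N χ.primitiveCharacter‖ := by
        rw [sum_add_distrib, sum_const, nsmul_eq_mul, ← hc']
        ring
      _ ≤ _ := by
        have := Reduce.prim_sum η N q hq
        linarith
  have hfin : |psiAP η N q b - psi0 η N / (q.totient : ℝ)| ≤
      2 * L + (1 / (q.totient : ℝ)) *
        ∑ r ∈ q.divisors.erase 1, ∑ χ ∈ prim r, ‖psiChi η N χ‖ := by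
    rw [← mul_le_mul_iff_right₀ hφ]
    refine hnorm.trans (le_of_eq ?_)
    field_simp
  linarith

theorem bs_gvbv_prod (S : Finset ℕ) (hS : ∀ a ∈ S, 2 ≤ a) :
    ∏ a ∈ S, ((a : ℝ) / ((a : ℝ) - 1)) ≤ (S.card : ℝ) + 1 := by
  classical
  induction S using Finset.induction_on_max with
  | empty => simp
  | insert a s hmax ih =>
    have ha : a ∉ s := fun h => lt_irrefl a (hmax a h)
    have ha2 : 2 ≤ a := hS a (mem_insert_self a s)
    have ih' := ih (fun b hb => hS b (mem_insert_of_mem hb))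
    have hcard : s.card + 1 ≤ a - 1 := by
      have h1 : insert a s ⊆ Icc 2 a := by
        intro b hb
        rw [mem_Icc]
        refine ⟨hS b hb, ?_⟩
        rcases mem_insert.mp hb with h | h
        · exact h.le
        · exact (hmax b h).le
      have h2 := card_le_card h1
      rw [card_insert_of_notMem ha, Nat.card_Icc] at h2
      omega
    have hc : ((s.card : ℝ) + 1) ≤ (a : ℝ) - 1 := by
      have h1 : ((s.card + 1 : ℕ) : ℝ) ≤ ((a - 1 : ℕ) : ℝ) := by exact_mod_cast hcard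
      rw [Nat.cast_sub (by omega)] at h1
      push_cast at h1
      exact h1
    have hs0 : (0 : ℝ) ≤ s.card := Nat.cast_nonneg _
    rw [prod_insert ha, card_insert_of_notMem ha]
    have h3 : (a : ℝ) / ((a : ℝ) - 1) ≤ ((s.card : ℝ) + 2) / ((s.card : ℝ) + 1) := by
      rw [div_le_div_iff₀ (by linarith) (by linarith)]
      nlinarith
    have h4 : 0 ≤ ∏ a ∈ s, ((a : ℝ) / ((a : ℝ) - 1)) := by
      apply prod_nonneg
      intro b hb
      have : (2 : ℝ) ≤ b := by exact_mod_cast hS b (mem_insert_of_mem hb)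
      apply div_nonneg <;> linarith
    calc (a : ℝ) / ((a : ℝ) - 1) * ∏ a ∈ s, ((a : ℝ) / ((a : ℝ) - 1))
        ≤ ((s.card : ℝ) + 2) / ((s.card : ℝ) + 1) * ((s.card : ℝ) + 1) := by
          apply mul_le_mul h3 ih' h4 (by positivity)
      _ = (s.card : ℝ) + 2 := by field_simp
      _ = _ := by push_cast; ring

theorem bs_gvbv_omega (m : ℕ) (hm : 1 ≤ m) :
    (m.primeFactors.card : ℝ) ≤ Real.log m / Real.log 2 := by
  have h1 : 2 ^ m.primeFactors.card ≤ m := by
    calc 2 ^ m.primeFactors.card ≤ ∏ p ∈ m.primeFactors, p := by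
          apply pow_card_le_prod
          intro p hp
          exact (Nat.prime_of_mem_primeFactors hp).two_le
      _ ≤ m := Nat.le_of_dvd hm (Nat.prod_primeFactors_dvd m)
  have h2 : ((2 : ℝ)) ^ m.primeFactors.card ≤ m := by exact_mod_cast h1
  have h3 := Real.log_le_log (by positivity) h2
  rw [Real.log_pow] at h3
  rw [le_div_iff₀ (Real.log_pos (by norm_num))]
  exact h3

theorem bs_gvbv_totient (m : ℕ) (hm : 1 ≤ m) :
    1 / (m.totient : ℝ) ≤ (1 + Real.log m / Real.log 2) / m := by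
  have hm0 : (0 : ℝ) < m := by exact_mod_cast hm
  have hφ : (0 : ℝ) < m.totient := by exact_mod_cast Nat.totient_pos.mpr hm
  have h1 : ((m.totient * ∏ p ∈ m.primeFactors, p : ℕ) : ℝ) =
      ((m * ∏ p ∈ m.primeFactors, (p - 1) : ℕ) : ℝ) := by
    rw [Nat.totient_mul_prod_primeFactors]
  push_cast at h1
  have hp2 : ∀ p ∈ m.primeFactors, 2 ≤ p := fun p hp => (Nat.prime_of_mem_primeFactors hp).two_le
  have h2 : ∏ p ∈ m.primeFactors, ((p - 1 : ℕ) : ℝ) = ∏ p ∈ m.primeFactors, ((p : ℝ) - 1) := by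
    refine prod_congr rfl fun p hp => ?_
    have := hp2 p hp
    rw [Nat.cast_sub (by omega)]; simp
  have hpos : 0 < ∏ p ∈ m.primeFactors, ((p : ℝ) - 1) := by
    apply prod_pos
    intro p hp
    have : (2 : ℝ) ≤ p := by exact_mod_cast hp2 p hp
    linarith
  have h3 : (m : ℝ) / m.totient = ∏ p ∈ m.primeFactors, ((p : ℝ) / ((p : ℝ) - 1)) := by
    rw [prod_div_distrib, div_eq_div_iff hφ.ne' hpos.ne', ← h2, ← h1]
    ring
  have h4 : (m : ℝ) / m.totient ≤ 1 + Real.log m / Real.log 2 := by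
    rw [h3]
    have := bs_gvbv_prod m.primeFactors hp2
    have h5 := bs_gvbv_omega m hm
    linarith
  rw [le_div_iff₀ hm0]
  calc 1 / (m.totient : ℝ) * m = (m : ℝ) / m.totient := by ring
    _ ≤ _ := h4

theorem bs_gvbv_totient' (m N : ℕ) (hm : 1 ≤ m) (hmN : m ≤ N) (hL : 1 ≤ Real.log N) :
    1 / (m.totient : ℝ) ≤ 3 * Real.log N / m := by
  refine (bs_gvbv_totient m hm).trans ?_
  have hm0 : (0 : ℝ) < m := by exact_mod_cast hm
  apply div_le_div_of_nonneg_right _ hm0.le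
  have h1 : Real.log m ≤ Real.log N := Real.log_le_log hm0 (by exact_mod_cast hmN)
  have h2 : (0.69 : ℝ) < Real.log 2 := by
    have := Real.log_two_gt_d9; linarith
  have h3 : Real.log m / Real.log 2 ≤ 2 * Real.log N := by
    rw [div_le_iff₀ (by linarith)]
    nlinarith
  linarith

theorem bs_gvbv_sum_inv (N : ℕ) (hL : 1 ≤ Real.log N) :
    ∑ m ∈ Icc 1 N, 1 / (m.totient : ℝ) ≤ 6 * Real.log N ^ 2 := by
  have h1 : ∑ m ∈ Icc 1 N, 1 / (m.totient : ℝ) ≤ ∑ m ∈ Icc 1 N, 3 * Real.log N * (1 / (m : ℝ)) := by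
    refine sum_le_sum fun m hm => ?_
    rw [mem_Icc] at hm
    refine (bs_gvbv_totient' m N hm.1 hm.2 hL).trans (le_of_eq (by ring))
  have h2 : ∑ m ∈ Icc 1 N, 1 / (m : ℝ) ≤ 1 + Real.log N := by
    have h3 := harmonic_le_one_add_log N
    rw [harmonic_eq_sum_Icc] at h3
    push_cast at h3
    simpa [one_div] using h3
  calc _ ≤ _ := h1
    _ = 3 * Real.log N * ∑ m ∈ Icc 1 N, 1 / (m : ℝ) := by rw [mul_sum]
    _ ≤ 3 * Real.log N * (1 + Real.log N) :=
        mul_le_mul_of_nonneg_left h2 (by linarith)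
    _ ≤ _ := by nlinarith

theorem bs_gvbv_inner (N r : ℕ) (hr : 1 ≤ r) (hL : 1 ≤ Real.log N) (X : Finset ℕ)
    (hX : X ⊆ Icc 1 N) :
    ∑ q ∈ X.filter (fun q => r ∣ q), 1 / (q.totient : ℝ) ≤
      1 / (r.totient : ℝ) * (6 * Real.log N ^ 2) := by
  classical
  have hsub : X.filter (fun q => r ∣ q) ⊆ (Icc 1 N).image (fun m => r * m) := by
    intro q hq
    rw [mem_filter] at hq
    obtain ⟨hq1, m, rfl⟩ := hq
    have h1 := mem_Icc.mp (hX hq1)
    rw [mem_image]
    refine ⟨m, ?_, rfl⟩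
    rw [mem_Icc]
    constructor
    · rcases Nat.eq_zero_or_pos m with h | h
      · subst h; simp at h1
      · exact h
    · exact (Nat.le_mul_of_pos_left m hr).trans h1.2
  have h1 : ∑ q ∈ X.filter (fun q => r ∣ q), 1 / (q.totient : ℝ) ≤
      ∑ q ∈ (Icc 1 N).image (fun m => r * m), 1 / (q.totient : ℝ) :=
    sum_le_sum_of_subset_of_nonneg hsub (fun _ _ _ => by positivity)
  have hinj : Set.InjOn (fun m => r * m) (↑(Icc 1 N) : Set ℕ) := by
    intro a _ b _ h
    exact Nat.eq_of_mul_eq_mul_left hr h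
  rw [sum_image hinj] at h1
  refine h1.trans ?_
  have h2 : ∑ m ∈ Icc 1 N, 1 / ((r * m).totient : ℝ) ≤
      ∑ m ∈ Icc 1 N, 1 / (r.totient : ℝ) * (1 / (m.totient : ℝ)) := by
    refine sum_le_sum fun m hm => ?_
    rw [mem_Icc] at hm
    have hφr : (0 : ℝ) < r.totient := by exact_mod_cast Nat.totient_pos.mpr hr
    have hφm : (0 : ℝ) < m.totient := by exact_mod_cast Nat.totient_pos.mpr hm.1
    have h3 : (r.totient : ℝ) * m.totient ≤ ((r * m).totient : ℝ) := by
      exact_mod_cast Nat.totient_super_multiplicative r m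
    rw [one_div_mul_one_div]
    exact one_div_le_one_div_of_le (by positivity) h3
  refine h2.trans ?_
  rw [← mul_sum]
  exact mul_le_mul_of_nonneg_left (bs_gvbv_sum_inv N hL) (by positivity)

theorem bs_gvbv_card_prim (r : ℕ) (hr : 1 ≤ r) : ((prim r).card : ℝ) ≤ r.totient := by
  classical
  have : NeZero r := ⟨by omega⟩
  have h1 : (prim r).card ≤ Fintype.card (DirichletCharacter ℂ r) := card_le_univ _
  have h2 := DirichletCharacter.card_eq_totient_of_hasEnoughRootsOfUnity ℂ r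
  rw [Nat.card_eq_fintype_card] at h2
  rw [h2] at h1
  exact_mod_cast h1

/-- the sum over the conductors -/
theorem bs_gvbv_cond (η : ℝ → ℝ) (N C B A' : ℕ) (θ δ : ℝ) (hL : 1 ≤ Real.log N)
    (hN : 3 ≤ N)
    (hlc : ∀ R : ℕ, 1 ≤ R → (R : ℝ) ≤ (N : ℝ) ^ θ →
      ∑ q ∈ Ioc R (2 * R), ∑ χ ∈ prim q, ‖psiChi η N χ‖ ≤
        C * ((N : ℝ) + R * (N : ℝ) ^ (1 - δ)) * Real.log N ^ C)
    (hsw : ∀ q : ℕ, 1 ≤ q → (q : ℝ) ≤ Real.log N ^ B →
      ∀ χ ∈ prim q, ‖psiChi η N χ‖ ≤ N / Real.log N ^ A') :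
    ∑ r ∈ (Icc 2 N).filter (fun r : ℕ => (r : ℝ) ≤ (N : ℝ) ^ θ),
      1 / (r.totient : ℝ) * ∑ χ ∈ prim r, ‖psiChi η N χ‖ ≤
      Real.log N ^ B * (N / Real.log N ^ A') +
        (18 * C * N * Real.log N ^ (C + 2) / Real.log N ^ B +
          9 * C * (N : ℝ) ^ (1 - δ) * Real.log N ^ (C + 2)) := by
  classical
  set L := Real.log N with hLdef
  have hL0 : 0 < L := by linarith
  set P : ℝ := (N : ℝ) ^ (1 - δ) with hP
  have hP0 : 0 ≤ P := Real.rpow_nonneg (Nat.cast_nonneg _) _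
  set X := (Icc 2 N).filter (fun r : ℕ => (r : ℝ) ≤ (N : ℝ) ^ θ) with hX
  set f : ℕ → ℝ := fun r => 1 / (r.totient : ℝ) * ∑ χ ∈ prim r, ‖psiChi η N χ‖ with hf
  have hf0 : ∀ r, 0 ≤ f r := fun r => by positivity
  rw [← sum_filter_add_sum_filter_not X (fun r : ℕ => (r : ℝ) ≤ L ^ B)]
  apply add_le_add
  · -- small conductors
    have h1 : ∀ r ∈ X.filter (fun r : ℕ => (r : ℝ) ≤ L ^ B), f r ≤ N / L ^ A' := by
      intro r hr
      rw [mem_filter, hX, mem_filter, mem_Icc] at hr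
      obtain ⟨⟨⟨hr2, hrN⟩, hr12⟩, hrL⟩ := hr
      have hr1 : 1 ≤ r := by omega
      have hφ : (0 : ℝ) < r.totient := by exact_mod_cast Nat.totient_pos.mpr hr1
      have h2 : ∑ χ ∈ prim r, ‖psiChi η N χ‖ ≤ ∑ _χ ∈ prim r, (N / L ^ A' : ℝ) :=
        sum_le_sum (hsw r hr1 hrL)
      rw [sum_const, nsmul_eq_mul] at h2
      have h3 : ((prim r).card : ℝ) * (N / L ^ A') ≤ r.totient * (N / L ^ A') :=
        mul_le_mul_of_nonneg_right (bs_gvbv_card_prim r hr1) (by positivity)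
      calc f r ≤ 1 / (r.totient : ℝ) * (r.totient * (N / L ^ A')) :=
            mul_le_mul_of_nonneg_left (h2.trans h3) (by positivity)
        _ = N / L ^ A' := by field_simp
    refine (sum_le_sum h1).trans ?_
    rw [sum_const, nsmul_eq_mul]
    apply mul_le_mul_of_nonneg_right _ (by positivity)
    have h2 : X.filter (fun r : ℕ => (r : ℝ) ≤ L ^ B) ⊆ Icc 1 ⌊L ^ B⌋₊ := by
      intro r hr
      rw [mem_filter, hX, mem_filter, mem_Icc] at hr
      rw [mem_Icc]
      exact ⟨by omega, Nat.le_floor hr.2⟩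
    have h3 := card_le_card h2
    rw [Nat.card_Icc, Nat.add_sub_cancel] at h3
    calc ((X.filter (fun r : ℕ => (r : ℝ) ≤ L ^ B)).card : ℝ) ≤ (⌊L ^ B⌋₊ : ℝ) := by
          exact_mod_cast h3
      _ ≤ L ^ B := Nat.floor_le (by positivity)
  · -- large conductors
    set Y := X.filter (fun r : ℕ => ¬ (r : ℝ) ≤ L ^ B) with hY
    set I := range (Nat.log 2 N + 1) with hI
    have hmaps : ∀ r ∈ Y, Nat.log 2 (r - 1) ∈ I := by
      intro r hr
      rw [hY, mem_filter, hX, mem_filter, mem_Icc] at hr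
      rw [hI, mem_range]
      have : Nat.log 2 (r - 1) ≤ Nat.log 2 N := Nat.log_mono_right (by omega)
      omega
    have hfib := sum_fiberwise_of_maps_to hmaps f
    show ∑ r ∈ Y, f r ≤ _
    rw [← hfib]
    have hblock : ∀ i ∈ I, ∑ r ∈ Y.filter (fun r => Nat.log 2 (r - 1) = i), f r ≤
        6 * C * N * L ^ (C + 1) / L ^ B + 3 * C * P * L ^ (C + 1) := by
      intro i _
      set Z := Y.filter (fun r => Nat.log 2 (r - 1) = i) with hZ
      rcases Z.eq_empty_or_nonempty with he | ⟨r0, hr0⟩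
      · rw [he, sum_empty]; positivity
      have hmem : ∀ r ∈ Z, 2 ≤ r ∧ r ≤ N ∧ (r : ℝ) ≤ (N : ℝ) ^ θ ∧ L ^ B < r ∧ 2 ^ i < r ∧
          r ≤ 2 * 2 ^ i := by
        intro r hr
        rw [hZ, mem_filter, hY, mem_filter, hX, mem_filter, mem_Icc] at hr
        obtain ⟨⟨⟨⟨h2, hN'⟩, h12⟩, hlt⟩, hlog⟩ := hr
        rw [Nat.log_eq_iff (Or.inr ⟨by norm_num, by omega⟩)] at hlog
        obtain ⟨hl1, hl2⟩ := hlog
        refine ⟨h2, hN', h12, not_le.mp hlt, by omega, ?_⟩
        rw [pow_succ] at hl2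
        omega
      set R := 2 ^ i with hR
      have hR1 : 1 ≤ R := Nat.one_le_two_pow
      obtain ⟨_, _, h012, h0L, h0R, h0R2⟩ := hmem r0 hr0
      have hR12 : (R : ℝ) ≤ (N : ℝ) ^ θ := by
        have : (R : ℝ) ≤ r0 := by exact_mod_cast h0R.le
        exact this.trans h012
      have hRpos : (0 : ℝ) < R := by exact_mod_cast hR1
      have hLR : L ^ B < 2 * R := by
        have : (r0 : ℝ) ≤ 2 * R := by exact_mod_cast h0R2
        linarith
      have h1 : ∀ r ∈ Z, f r ≤ 3 * L / R * ∑ χ ∈ prim r, ‖psiChi η N χ‖ := by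
        intro r hr
        obtain ⟨h2, hN', _, _, hRr, _⟩ := hmem r hr
        apply mul_le_mul_of_nonneg_right _ (by positivity)
        refine (bs_gvbv_totient' r N (by omega) hN' hL).trans ?_
        have hrR : (R : ℝ) ≤ r := by exact_mod_cast hRr.le
        rw [← hLdef]
        exact div_le_div_of_nonneg_left (by positivity) hRpos hrR
      refine (sum_le_sum h1).trans ?_
      rw [← mul_sum]
      have hsub : Z ⊆ Ioc R (2 * R) := by
        intro r hr
        obtain ⟨_, _, _, _, h5, h6⟩ := hmem r hr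
        rw [mem_Ioc]; exact ⟨h5, h6⟩
      have h2 : ∑ r ∈ Z, ∑ χ ∈ prim r, ‖psiChi η N χ‖ ≤ C * ((N : ℝ) + R * P) * L ^ C :=
        (sum_le_sum_of_subset_of_nonneg hsub (fun _ _ _ => by positivity)).trans
          (hlc R hR1 hR12)
      refine (mul_le_mul_of_nonneg_left h2 (by positivity)).trans ?_
      have h3 : 3 * L / R * (C * ((N : ℝ) + R * P) * L ^ C) =
          3 * C * N * L ^ (C + 1) * (1 / R) + 3 * C * P * L ^ (C + 1) := by
        field_simp
        ring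
      rw [h3]
      have h4 : (1 : ℝ) / R ≤ 2 / L ^ B := by
        rw [div_le_div_iff₀ hRpos (by positivity)]
        linarith
      have h5 : 3 * C * N * L ^ (C + 1) * (1 / R) ≤ 3 * C * N * L ^ (C + 1) * (2 / L ^ B) :=
        mul_le_mul_of_nonneg_left h4 (by positivity)
      have h6 : 3 * C * N * L ^ (C + 1) * (2 / L ^ B) = 6 * C * N * L ^ (C + 1) / L ^ B := by
        ring
      linarith
    refine (sum_le_sum hblock).trans ?_
    rw [sum_const, nsmul_eq_mul, hI, card_range]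
    have hlog : ((Nat.log 2 N + 1 : ℕ) : ℝ) ≤ 3 * L := by
      have h1 : (2 : ℝ) ^ (Nat.log 2 N) ≤ N := by
        exact_mod_cast Nat.pow_log_le_self 2 (by omega)
      have h2 := Real.log_le_log (by positivity) h1
      rw [Real.log_pow] at h2
      have h3 : (0.69 : ℝ) < Real.log 2 := by
        have := Real.log_two_gt_d9; linarith
      have h4 : (Nat.log 2 N : ℝ) ≤ 2 * L := by
        have h5 : (Nat.log 2 N : ℝ) * 0.69 ≤ (Nat.log 2 N : ℝ) * Real.log 2 :=
          mul_le_mul_of_nonneg_left h3.le (Nat.cast_nonneg _)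
        linarith
      push_cast
      linarith
    calc ((Nat.log 2 N + 1 : ℕ) : ℝ) *
          (6 * C * N * L ^ (C + 1) / L ^ B + 3 * C * P * L ^ (C + 1))
        ≤ 3 * L * (6 * C * N * L ^ (C + 1) / L ^ B + 3 * C * P * L ^ (C + 1)) :=
          mul_le_mul_of_nonneg_right hlog (by positivity)
      _ = 18 * C * N * L ^ (C + 2) / L ^ B + 9 * C * P * L ^ (C + 2) := by ring

theorem bs_gvbv_logpow (k : ℕ) (c s : ℝ) (hc : 0 < c) (hs : 0 < s) :
    ∀ᶠ N : ℕ in atTop, c * Real.log (N : ℝ) ^ k ≤ (N : ℝ) ^ s := by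
  have h1 : (fun x : ℝ => Real.log x ^ k) =o[atTop] fun x => x ^ s := by
    have h0 := isLittleO_log_rpow_rpow_atTop (s := s) (k : ℝ) hs
    simpa only [Real.rpow_natCast] using h0
  have h2 := h1.def (c := 1 / c) (by positivity)
  have h3 := tendsto_natCast_atTop_atTop (R := ℝ) |>.eventually h2
  filter_upwards [h3, eventually_ge_atTop 1] with N hN hN1
  have hN1' : (1 : ℝ) ≤ N := by exact_mod_cast hN1
  have hlog : 0 ≤ Real.log (N : ℝ) := Real.log_nonneg hN1'
  rw [Real.norm_eq_abs, Real.norm_eq_abs, abs_of_nonneg (by positivity),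
    abs_of_nonneg (by positivity)] at hN
  calc c * Real.log (N : ℝ) ^ k ≤ c * (1 / c * (N : ℝ) ^ s) :=
        mul_le_mul_of_nonneg_left hN hc.le
    _ = (N : ℝ) ^ s := by field_simp

/-- Bombieri-Vinogradov with a sharp cutoff, small level -/
theorem bs_BV (θ : ℝ) (hθ0 : 0 < θ) (hθ : θ ≤ 1 / 12) (A : ℕ) :
    ∀ᶠ N : ℕ in atTop, ∃ E : ℕ → ℝ, (∀ q, 0 ≤ E q) ∧
    (∀ q b : ℕ, 1 ≤ q → (q : ℝ) ≤ (N : ℝ) ^ θ → b.Coprime q →
      |psiAP bs1 N q b - psi0 bs1 N / (q.totient : ℝ)| ≤ E q) ∧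
    ∑ q ∈ (Icc 1 N).filter (fun q : ℕ => (q : ℝ) ≤ (N : ℝ) ^ θ), E q ≤ N / Real.log N ^ A := by
  classical
  obtain ⟨C, hC0⟩ := bs_large
  set δ : ℝ := 1 / 2 with hδdef
  have hδ : 0 < δ := by norm_num
  set B : ℕ := A + C + 5 with hB
  set A' : ℕ := A + B + 3 with hA'
  have hlogtend : Tendsto (fun N : ℕ => Real.log (N : ℝ)) atTop atTop :=
    Real.tendsto_log_atTop.comp tendsto_natCast_atTop_atTop
  have hev1 : ∀ᶠ N : ℕ in atTop, 1 ≤ Real.log (N : ℝ) := hlogtend.eventually_ge_atTop 1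
  have hev2 : ∀ᶠ N : ℕ in atTop, 4 * (6 + 108 * (C : ℝ)) ≤ Real.log (N : ℝ) :=
    hlogtend.eventually_ge_atTop _
  have hev3 := bs_gvbv_logpow (A + 2) 8 (1 - θ) (by norm_num) (by linarith)
  have hev4 := bs_gvbv_logpow (A + C + 4) (216 * (C + 1)) δ (by positivity) hδ
  filter_upwards [Pool.Agent.BVX.sw_chi A' B, hev1, hev2, hev3, hev4, eventually_ge_atTop 3]
    with N hsw0 hL hL2 hL3 hL4 hN3
  have hN0 : (0 : ℝ) < N := by positivity
  have hN1 : (1 : ℝ) ≤ N := by exact_mod_cast (by omega : 1 ≤ N)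
  have hsw : ∀ q : ℕ, 1 ≤ q → (q : ℝ) ≤ Real.log N ^ B →
      ∀ χ ∈ prim q, ‖psiChi bs1 N χ‖ ≤ N / Real.log N ^ A' := by
    intro q hq hqL χ hχ
    have : NeZero q := ⟨by omega⟩
    have h1 := hsw0 q hqL χ ((mem_prim χ).1 hχ).2 N le_rfl
    rwa [bs_psiChi]
  have hC : ∀ R : ℕ, 1 ≤ R → (R : ℝ) ≤ (N : ℝ) ^ θ →
      ∑ q ∈ Ioc R (2 * R), ∑ χ ∈ prim q, ‖psiChi bs1 N χ‖ ≤
        C * ((N : ℝ) + R * (N : ℝ) ^ (1 - δ)) * Real.log N ^ C := by
    intro R hR1 hRθ
    have hR12 : R ^ 12 ≤ N := by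
      have h1 : (R : ℝ) ^ 12 ≤ ((N : ℝ) ^ θ) ^ 12 := pow_le_pow_left₀ (by positivity) hRθ 12
      have h0 : ((N : ℝ) ^ θ) ^ 12 = (N : ℝ) ^ (θ * 12) := by
        rw [Real.rpow_mul hN0.le, ← Real.rpow_natCast]
        norm_num
      rw [h0] at h1
      have h2 : (N : ℝ) ^ (θ * 12) ≤ (N : ℝ) ^ (1 : ℝ) := by
        apply Real.rpow_le_rpow_of_exponent_le hN1
        linarith
      rw [Real.rpow_one] at h2
      exact_mod_cast h1.trans h2
    refine (hC0 N R hN3 hR1 hR12).trans ?_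
    have h1 : (0 : ℝ) ≤ R * (N : ℝ) ^ (1 - δ) := by positivity
    apply mul_le_mul_of_nonneg_right _ (by positivity)
    exact mul_le_mul_of_nonneg_left (by linarith) (Nat.cast_nonneg _)
  have hqle : ∀ q : ℕ, (q : ℝ) ≤ (N : ℝ) ^ θ → q ≤ N := by
    intro q hq
    have h1 : (N : ℝ) ^ θ ≤ (N : ℝ) ^ (1 : ℝ) :=
      Real.rpow_le_rpow_of_exponent_le hN1 (by linarith)
    rw [Real.rpow_one] at h1
    exact_mod_cast hq.trans h1
  refine ⟨fun q => 4 * Real.log N ^ 2 + (1 / (q.totient : ℝ)) *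
    ∑ r ∈ q.divisors.erase 1, ∑ χ ∈ prim r, ‖psiChi bs1 N χ‖, ?_, ?_, ?_⟩
  · intro q; positivity
  · intro q b hq hq12 hb
    exact bs_reduce bs1 bs1_norm N q b (by omega) hq (hqle q hq12) hb
  · set L := Real.log (N : ℝ) with hLdef
    have hL0 : 0 < L := by linarith
    set X := (Icc 1 N).filter (fun q : ℕ => (q : ℝ) ≤ (N : ℝ) ^ θ) with hX
    set X' := (Icc 2 N).filter (fun r : ℕ => (r : ℝ) ≤ (N : ℝ) ^ θ) with hX'
    set S : ℕ → ℝ := fun r => ∑ χ ∈ prim r, ‖psiChi bs1 N χ‖ with hS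
    have hS0 : ∀ r, 0 ≤ S r := fun r => by positivity
    rw [sum_add_distrib, sum_const, nsmul_eq_mul]
    have hθnn : 0 ≤ (N : ℝ) ^ θ := Real.rpow_nonneg hN0.le _
    -- first term
    have hcard : (X.card : ℝ) ≤ (N : ℝ) ^ θ := by
      have h1 : X ⊆ Icc 1 ⌊(N : ℝ) ^ θ⌋₊ := by
        intro q hq
        rw [hX, mem_filter, mem_Icc] at hq
        rw [mem_Icc]
        exact ⟨hq.1.1, Nat.le_floor hq.2⟩
      have h2 := card_le_card h1
      rw [Nat.card_Icc, Nat.add_sub_cancel] at h2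
      exact le_trans (by exact_mod_cast h2) (Nat.floor_le hθnn)
    have hfirst : (X.card : ℝ) * (4 * L ^ 2) ≤ N / L ^ A / 2 := by
      have h1 : (X.card : ℝ) * (4 * L ^ 2) ≤ (N : ℝ) ^ θ * (4 * L ^ 2) :=
        mul_le_mul_of_nonneg_right hcard (by positivity)
      refine h1.trans ?_
      rw [div_div, le_div_iff₀ (by positivity)]
      have h2 : (N : ℝ) ^ θ * (4 * L ^ 2) * (L ^ A * 2) = (N : ℝ) ^ θ * (8 * L ^ (A + 2)) := by
        ring
      rw [h2]
      calc (N : ℝ) ^ θ * (8 * L ^ (A + 2)) ≤ (N : ℝ) ^ θ * (N : ℝ) ^ (1 - θ) :=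
            mul_le_mul_of_nonneg_left hL3 hθnn
        _ = N := by
          rw [← Real.rpow_add hN0]
          simp
    -- second term
    have hsecond : ∑ q ∈ X, 1 / (q.totient : ℝ) * ∑ r ∈ q.divisors.erase 1, S r ≤
        6 * L ^ 2 * ∑ r ∈ X', 1 / (r.totient : ℝ) * S r := by
      have h1 : ∀ q ∈ X, 1 / (q.totient : ℝ) * ∑ r ∈ q.divisors.erase 1, S r ≤
          ∑ r ∈ X', if r ∣ q then 1 / (q.totient : ℝ) * S r else 0 := by
        intro q hq
        rw [hX, mem_filter, mem_Icc] at hq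
        rw [mul_sum, ← sum_filter]
        apply sum_le_sum_of_subset_of_nonneg
        · intro r hr
          rw [mem_erase, Nat.mem_divisors] at hr
          obtain ⟨hr1, hrq, _⟩ := hr
          have hrle : r ≤ q := Nat.le_of_dvd (by omega) hrq
          have hr0 : r ≠ 0 := by rintro rfl; simp at hrq; omega
          rw [mem_filter, hX', mem_filter, mem_Icc]
          have hrle' : (r : ℝ) ≤ q := by exact_mod_cast hrle
          exact ⟨⟨⟨by omega, hrle.trans hq.1.2⟩, hrle'.trans hq.2⟩, hrq⟩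
        · intro r _ _
          exact mul_nonneg (by positivity) (hS0 r)
      refine (sum_le_sum h1).trans ?_
      rw [sum_comm, mul_sum]
      refine sum_le_sum fun r hr => ?_
      rw [hX', mem_filter, mem_Icc] at hr
      rw [← sum_filter, ← sum_mul]
      have h2 := bs_gvbv_inner N r (by omega) hL X (filter_subset _ _)
      calc (∑ q ∈ X.filter (fun q => r ∣ q), 1 / (q.totient : ℝ)) * S r
          ≤ (1 / (r.totient : ℝ) * (6 * L ^ 2)) * S r :=
            mul_le_mul_of_nonneg_right h2 (hS0 r)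
        _ = 6 * L ^ 2 * (1 / (r.totient : ℝ) * S r) := by ring
    have hcond := bs_gvbv_cond bs1 N C B A' θ δ hL hN3 hC hsw
    have hsecond2 : ∑ q ∈ X, 1 / (q.totient : ℝ) * ∑ r ∈ q.divisors.erase 1, S r ≤
        N / L ^ A / 2 := by
      refine hsecond.trans ((mul_le_mul_of_nonneg_left hcond (by positivity)).trans ?_)
      have e1 : 6 * L ^ 2 * (L ^ B * (N / L ^ A')) = N / L ^ A * (6 / L) := by
        have : L ^ A' = L ^ A * L ^ B * L ^ 3 := by rw [hA', pow_add, pow_add]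
        rw [this]
        field_simp
      have e2 : 6 * L ^ 2 * (18 * C * N * L ^ (C + 2) / L ^ B) = N / L ^ A * (108 * C / L) := by
        have : L ^ B = L ^ A * L ^ (C + 2) * L ^ 3 := by
          rw [hB, ← pow_add, ← pow_add]
          congr 1
        rw [this]
        field_simp
        ring
      have e4 : 6 * L ^ 2 * (9 * C * (N : ℝ) ^ (1 - δ) * L ^ (C + 2)) ≤ N / L ^ A * (1 / 4) := by
        have hPn : 0 ≤ (N : ℝ) ^ (1 - δ) := Real.rpow_nonneg hN0.le _
        have e5 : N / L ^ A * (1 / 4) = N / (L ^ A * 4) := by ring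
        rw [e5, le_div_iff₀ (by positivity)]
        have e6 : 6 * L ^ 2 * (9 * C * (N : ℝ) ^ (1 - δ) * L ^ (C + 2)) * (L ^ A * 4) =
            (N : ℝ) ^ (1 - δ) * (216 * C * L ^ (A + C + 4)) := by ring
        rw [e6]
        have e7 : 216 * C * L ^ (A + C + 4) ≤ (N : ℝ) ^ δ := by
          refine le_trans ?_ hL4
          apply mul_le_mul_of_nonneg_right _ (by positivity)
          linarith
        calc (N : ℝ) ^ (1 - δ) * (216 * C * L ^ (A + C + 4))
            ≤ (N : ℝ) ^ (1 - δ) * (N : ℝ) ^ δ := mul_le_mul_of_nonneg_left e7 hPn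
          _ = N := by
            rw [← Real.rpow_add hN0]
            simp
      rw [mul_add, mul_add, ← hLdef, e1, e2]
      have e3 : 6 / L + 108 * C / L ≤ 1 / 4 := by
        rw [← add_div, div_le_iff₀ hL0]; linarith
      have e8 : N / L ^ A * (6 / L + 108 * C / L) ≤ N / L ^ A * (1 / 4) :=
            mul_le_mul_of_nonneg_left e3 (by positivity)
      have e9 : N / L ^ A * (6 / L + 108 * C / L) =
          N / L ^ A * (6 / L) + N / L ^ A * (108 * C / L) := by ring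
      have e10 : N / L ^ A / 2 = N / L ^ A * (1 / 4) + N / L ^ A * (1 / 4) := by ring
      rw [e10]
      linarith
    have := add_le_add hfirst hsecond2
    calc _ ≤ N / L ^ A / 2 + N / L ^ A / 2 := this
      _ = N / L ^ A := by ring

end Pool.Agent.NRP
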