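import Pool.Agent.NRP.StN
import Pool.Agent.NRP.BS3
import Pool.Agent.GV.BVW

set_option autoImplicit false

/-!
# NRP, block BVS: Bombieri-Vinogradov with sharp cutoffs, all cutoffs at once (helper24)
-/

namespace Pool.Agent.NRP

open Finset Filter Pool.Agent.MT
open Pool.Agent.GV (bvw_count bvw_totient bvw_omega_sum)
open Pool.Agent.GBQ (lam)

theorem bs_term (N n : ℕ) (hn : n ∈ range (N + 1)) :
    0 ≤ ArithmeticFunction.vonMangoldt n * bs1 ((n : ℝ) / N) ∧
      ArithmeticFunction.vonMangoldt n * bs1 ((n : ℝ) / N) ≤ Real.log N := by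
  have h0 : (0 : ℝ) ≤ ArithmeticFunction.vonMangoldt n := ArithmeticFunction.vonMangoldt_nonneg
  have h3 : (ArithmeticFunction.vonMangoldt n : ℝ) ≤ Real.log n :=
    ArithmeticFunction.vonMangoldt_le_log
  have h4 : Real.log n ≤ Real.log N := by
    rcases Nat.eq_zero_or_pos n with h | h
    · subst h; simp [Real.log_natCast_nonneg]
    · have hn' : n ≤ N := by have := Finset.mem_range.1 hn; omega
      exact Real.log_le_log (by exact_mod_cast h) (by exact_mod_cast hn')
  unfold bs1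
  rw [mul_one]
  exact ⟨h0, h3.trans h4⟩

theorem bs_trivial (N q b : ℕ) (hq : 1 ≤ q) (hqN : q ≤ N) :
    |psiAP bs1 N q b - psi0 bs1 N / (q.totient : ℝ)| ≤ 2 * N * Real.log N / q.totient := by
  have hφ : 0 < q.totient := Nat.totient_pos.2 hq
  have hφ' : (0 : ℝ) < q.totient := by exact_mod_cast hφ
  have hq0 : (0 : ℝ) < q := by exact_mod_cast hq
  have hN : 1 ≤ N := hq.trans hqN
  have hN0 : (1 : ℝ) ≤ N := by exact_mod_cast hN
  have hL : 0 ≤ Real.log N := Real.log_natCast_nonneg N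
  have hle : (q.totient : ℝ) ≤ q := by exact_mod_cast Nat.totient_le q
  have a0 : 0 ≤ psiAP bs1 N q b := by
    unfold psiAP
    exact Finset.sum_nonneg fun n hn => (bs_term N n (Finset.mem_filter.1 hn).1).1
  have b0 : 0 ≤ psi0 bs1 N := by
    unfold psi0
    exact Finset.sum_nonneg fun n hn => (bs_term N n hn).1
  have a1 : psiAP bs1 N q b ≤ 2 * N * Real.log N / q.totient := by
    unfold psiAP
    calc _ ≤ ∑ n ∈ (range (N + 1)).filter (fun n => n % q = b % q), Real.log N :=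
          Finset.sum_le_sum fun n hn => (bs_term N n (Finset.mem_filter.1 hn).1).2
      _ = (((range (N + 1)).filter (fun n => n % q = b % q)).card : ℝ) * Real.log N := by
          rw [Finset.sum_const, nsmul_eq_mul]
      _ ≤ (2 * N / q) * Real.log N :=
          mul_le_mul_of_nonneg_right (bvw_count N q b hq hqN) hL
      _ ≤ (2 * N / q.totient) * Real.log N := by
          refine mul_le_mul_of_nonneg_right ?_ hL
          exact div_le_div_of_nonneg_left (by positivity) hφ' hle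
      _ = _ := by ring
  have b1 : psi0 bs1 N / q.totient ≤ 2 * N * Real.log N / q.totient := by
    refine div_le_div_of_nonneg_right ?_ hφ'.le
    unfold psi0
    calc _ ≤ ∑ n ∈ range (N + 1), Real.log N :=
          Finset.sum_le_sum fun n hn => (bs_term N n hn).2
      _ = ((N : ℝ) + 1) * Real.log N := by
          rw [Finset.sum_const, nsmul_eq_mul, Finset.card_range]; push_cast; ring
      _ ≤ (2 * N) * Real.log N := mul_le_mul_of_nonneg_right (by linarith) hL
      _ = _ := by ring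
  have b2 : 0 ≤ psi0 bs1 N / q.totient := by positivity
  rw [abs_le]; constructor <;> linarith

/-- Bombieri-Vinogradov with a sharp cutoff and divisor weights -/
theorem bs_BVW (θ : ℝ) (h0 : 0 < θ) (h12 : θ ≤ 1 / 12) (A K : ℕ) :
    ∀ᶠ N : ℕ in atTop, ∃ E : ℕ → ℝ, (∀ q, 0 ≤ E q) ∧
    (∀ q b : ℕ, 1 ≤ q → (q : ℝ) ≤ (N : ℝ) ^ θ → b.Coprime q →
      |psiAP bs1 N q b - psi0 bs1 N / (q.totient : ℝ)| ≤ E q) ∧
    ∑ q ∈ (Icc 1 N).filter (fun q : ℕ => (q : ℝ) ≤ (N : ℝ) ^ θ),
      (K : ℝ) ^ q.primeFactors.card * E q ≤ N / Real.log N ^ A := by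
  have h1 : θ < 1 / 2 := by linarith
  set k : ℕ := 2 * K ^ 2 with hk
  have hev := bs_BV θ h0 h12 (2 * A + (2 * k + 2))
  have hL2 : ∀ᶠ N : ℕ in atTop, (2 : ℝ) ≤ Real.log N :=
    (Real.tendsto_log_atTop.comp tendsto_natCast_atTop_atTop).eventually_ge_atTop 2
  filter_upwards [hev, hL2, Filter.eventually_ge_atTop 1] with N hN hL hN1
  obtain ⟨E, hE0, hE1, hE2⟩ := hN
  have hNr : (1 : ℝ) ≤ N := by exact_mod_cast hN1
  set L : ℝ := Real.log N with hLdef
  have hL0 : 0 < L := by linarith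
  set T : ℕ → ℝ := fun q => 2 * N * L / q.totient with hT
  have hT0 : ∀ q, 0 ≤ T q := fun q => by
    simp only [hT]; positivity
  set Qs := (Icc 1 N).filter (fun q : ℕ => (q : ℝ) ≤ (N : ℝ) ^ θ) with hQs
  refine ⟨fun q => min (E q) (T q), fun q => le_min (hE0 q) (hT0 q), ?_, ?_⟩
  · intro q b hq hqN hb
    refine le_min (hE1 q b hq hqN hb) ?_
    have hqN' : q ≤ N := by
      have h3 : (N : ℝ) ^ θ ≤ (N : ℝ) ^ (1 : ℝ) :=
        Real.rpow_le_rpow_of_exponent_le hNr (by linarith)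
      rw [Real.rpow_one] at h3
      exact_mod_cast hqN.trans h3
    exact bs_trivial N q b hq hqN'
  · -- Cauchy-Schwarz
    have s1 : ∀ q ∈ Qs, (K : ℝ) ^ q.primeFactors.card * min (E q) (T q) ≤
        Real.sqrt (((K : ℝ) ^ q.primeFactors.card) ^ 2 * T q) * Real.sqrt (E q) := by
      intro q _
      have hm0 : 0 ≤ min (E q) (T q) := le_min (hE0 q) (hT0 q)
      have hm : min (E q) (T q) ≤ Real.sqrt (T q) * Real.sqrt (E q) := by
        rw [← Real.sqrt_mul (hT0 q)]
        refine Real.le_sqrt_of_sq_le ?_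
        rw [sq]
        exact mul_le_mul (min_le_right _ _) (min_le_left _ _) hm0 (hT0 q)
      rw [Real.sqrt_mul (by positivity), Real.sqrt_sq (by positivity), mul_assoc]
      exact mul_le_mul_of_nonneg_left hm (by positivity)
    have s2 : ∑ q ∈ Qs, (K : ℝ) ^ q.primeFactors.card * min (E q) (T q) ≤
        Real.sqrt (∑ q ∈ Qs, ((K : ℝ) ^ q.primeFactors.card) ^ 2 * T q) *
          Real.sqrt (∑ q ∈ Qs, E q) := by
      refine (Finset.sum_le_sum s1).trans ?_
      have := Real.sum_sqrt_mul_sqrt_le Qs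
        (f := fun q => ((K : ℝ) ^ q.primeFactors.card) ^ 2 * T q) (g := E)
        (fun q => mul_nonneg (by positivity) (hT0 q)) hE0
      exact this
    have s3 : ∑ q ∈ Qs, ((K : ℝ) ^ q.primeFactors.card) ^ 2 * T q ≤
        2 * N * L * (1 + L) ^ k := by
      have h3 : ∀ q ∈ Icc 1 N, ((K : ℝ) ^ q.primeFactors.card) ^ 2 * T q ≤
          2 * N * L * ((k : ℝ) ^ q.primeFactors.card / q) := by
        intro q hq
        have hq1 := (Finset.mem_Icc.1 hq).1
        have h4 := bvw_totient q hq1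
        have h5 : (k : ℝ) ^ q.primeFactors.card =
            2 ^ q.primeFactors.card * ((K : ℝ) ^ q.primeFactors.card) ^ 2 := by
          rw [← pow_mul, mul_comm q.primeFactors.card 2, pow_mul, ← mul_pow, hk]
          push_cast; rfl
        have h6 : ((K : ℝ) ^ q.primeFactors.card) ^ 2 * T q =
            2 * N * L * (((K : ℝ) ^ q.primeFactors.card) ^ 2 * (1 / q.totient)) := by
          simp only [hT]; ring
        rw [h6, h5]
        have h7 : ((K : ℝ) ^ q.primeFactors.card) ^ 2 * (1 / (q.totient : ℝ)) ≤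
            ((K : ℝ) ^ q.primeFactors.card) ^ 2 * (2 ^ q.primeFactors.card / q) :=
          mul_le_mul_of_nonneg_left h4 (by positivity)
        have h8 : 2 ^ q.primeFactors.card * ((K : ℝ) ^ q.primeFactors.card) ^ 2 / q =
            ((K : ℝ) ^ q.primeFactors.card) ^ 2 * (2 ^ q.primeFactors.card / q) := by ring
        rw [h8]
        exact mul_le_mul_of_nonneg_left h7 (by positivity)
      calc _ ≤ ∑ q ∈ Icc 1 N, ((K : ℝ) ^ q.primeFactors.card) ^ 2 * T q := by
            refine Finset.sum_le_sum_of_subset_of_nonneg (Finset.filter_subset _ _) ?_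
            intro q _ _
            exact mul_nonneg (by positivity) (hT0 q)
        _ ≤ ∑ q ∈ Icc 1 N, 2 * N * L * ((k : ℝ) ^ q.primeFactors.card / q) :=
            Finset.sum_le_sum h3
        _ = 2 * N * L * ∑ q ∈ Icc 1 N, (k : ℝ) ^ q.primeFactors.card / q := by
            rw [Finset.mul_sum]
        _ ≤ _ := mul_le_mul_of_nonneg_left (bvw_omega_sum N hN1 k) (by positivity)
    have s4 : (1 + L) ^ k ≤ L ^ (2 * k) := by
      rw [pow_mul L 2 k]
      have h3 : 1 + L ≤ L ^ 2 := by nlinarith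
      have h4 : 0 ≤ 1 + L := by linarith
      exact pow_le_pow_left₀ h4 h3 k
    have s5 : (2 * N * L * (1 + L) ^ k) * (N / L ^ (2 * A + (2 * k + 2))) ≤
        (N / L ^ A) ^ 2 := by
      have h3 : 2 * N * L * (1 + L) ^ k ≤ N * L ^ (2 * k + 2) := by
        have h4 : 2 * L ≤ L ^ 2 := by nlinarith
        calc 2 * N * L * (1 + L) ^ k = N * ((2 * L) * (1 + L) ^ k) := by ring
          _ ≤ N * (L ^ 2 * L ^ (2 * k)) := by
              refine mul_le_mul_of_nonneg_left ?_ (by positivity)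
              exact mul_le_mul h4 s4 (by positivity) (by positivity)
          _ = _ := by ring
      calc _ ≤ (N * L ^ (2 * k + 2)) * (N / L ^ (2 * A + (2 * k + 2))) :=
            mul_le_mul_of_nonneg_right h3 (by positivity)
        _ = _ := by
            rw [pow_add L (2 * A), div_pow, ← pow_mul, mul_comm A 2]
            have hLne : L ≠ 0 := hL0.ne'
            field_simp
    calc _ ≤ _ := s2
      _ ≤ Real.sqrt (2 * N * L * (1 + L) ^ k) *
            Real.sqrt (N / L ^ (2 * A + (2 * k + 2))) := by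
          refine mul_le_mul (Real.sqrt_le_sqrt s3) (Real.sqrt_le_sqrt hE2)
            (Real.sqrt_nonneg _) (Real.sqrt_nonneg _)
      _ = Real.sqrt ((2 * N * L * (1 + L) ^ k) * (N / L ^ (2 * A + (2 * k + 2)))) := by
          exact (Real.sqrt_mul (by positivity) _).symm
      _ ≤ Real.sqrt ((N / L ^ A) ^ 2) := Real.sqrt_le_sqrt s5
      _ = _ := Real.sqrt_sq (by positivity)


/-- `ψ(u; q, b)` -/
noncomputable def psiS (u q b : ℕ) : ℝ := ∑ n ∈ (range (u + 1)).filter (fun n => n % q = b % q), lam n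

theorem bs_psiS (N q b : ℕ) : psiAP bs1 N q b = psiS N q b := by
  unfold psiAP psiS bs1 lam
  refine sum_congr rfl fun n _ => ?_
  rw [mul_one]

theorem bs_psiS_mono {u v : ℕ} (h : u ≤ v) (q b : ℕ) : psiS u q b ≤ psiS v q b := by
  unfold psiS
  refine sum_le_sum_of_subset_of_nonneg ?_ fun n _ _ => ArithmeticFunction.vonMangoldt_nonneg
  exact filter_subset_filter _ (range_subset_range.2 (by omega))

theorem bs_psiS_nonneg (u q b : ℕ) : 0 ≤ psiS u q b :=
  sum_nonneg fun _ _ => ArithmeticFunction.vonMangoldt_nonneg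

theorem bs_phi_sum (N K : ℕ) (hN : 1 ≤ N) :
    ∑ q ∈ Icc 1 N, (K : ℝ) ^ q.primeFactors.card * (1 / (q.totient : ℝ)) ≤
      (1 + Real.log N) ^ (2 * K) := by
  refine le_trans (sum_le_sum fun q hq => ?_) (bvw_omega_sum N hN (2 * K))
  have hq1 := (mem_Icc.1 hq).1
  calc (K : ℝ) ^ q.primeFactors.card * (1 / (q.totient : ℝ)) ≤
        (K : ℝ) ^ q.primeFactors.card * (2 ^ q.primeFactors.card / q) :=
        mul_le_mul_of_nonneg_left (bvw_totient q hq1) (by positivity)
    _ = _ := by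
        push_cast
        rw [mul_pow]
        ring

/-- the main term is `N / φ(q)` -/
theorem bs_BVN (θ : ℝ) (h0 : 0 < θ) (h12 : θ ≤ 1 / 12) (A K : ℕ) :
    ∀ᶠ N : ℕ in atTop, ∃ E : ℕ → ℝ, (∀ q, 0 ≤ E q) ∧
    (∀ q b : ℕ, 1 ≤ q → (q : ℝ) ≤ (N : ℝ) ^ θ → b.Coprime q →
      |psiS N q b - (N : ℝ) / (q.totient : ℝ)| ≤ E q) ∧
    ∑ q ∈ (Icc 1 N).filter (fun q : ℕ => (q : ℝ) ≤ (N : ℝ) ^ θ),
      (K : ℝ) ^ q.primeFactors.card * E q ≤ N / Real.log N ^ A := by
  have hlogtend : Tendsto (fun N : ℕ => Real.log (N : ℝ)) atTop atTop :=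
    Real.tendsto_log_atTop.comp tendsto_natCast_atTop_atTop
  filter_upwards [bs_BVW θ h0 h12 (A + 1) K, Pool.Agent.BVX.sw_one (A + 4 * K + 2),
    hlogtend.eventually_ge_atTop 2, bs_gvbv_logpow (A + 4 * K + 2) 1 1 one_pos one_pos,
    eventually_ge_atTop 1] with N hN hpnt hL hLp hN1
  obtain ⟨E, hE0, hE1, hE2⟩ := hN
  set L := Real.log (N : ℝ) with hLdef
  have hL0 : 0 < L := by linarith
  have hN0 : (0 : ℝ) < N := by exact_mod_cast hN1
  set D : ℝ := N / L ^ (A + 4 * K + 2) with hD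
  have hD1 : 1 ≤ D := by
    rw [hD, le_div_iff₀ (by positivity)]
    rw [Real.rpow_one] at hLp
    exact hLp
  have hpsi : |psi0 bs1 N - N| ≤ 2 * D := by
    have h1 := hpnt N le_rfl
    have h2 : ∑ n ∈ range (N + 1), ((ArithmeticFunction.vonMangoldt n : ℝ) - 1) =
        psi0 bs1 N - N - 1 := by
      rw [sum_sub_distrib]
      unfold psi0 bs1
      simp
      ring
    rw [h2] at h1
    have h3 : |psi0 bs1 N - N| ≤ |psi0 bs1 N - N - 1| + 1 := by
      have h4 : psi0 bs1 N - N = (psi0 bs1 N - N - 1) + 1 := by ring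
      calc |psi0 bs1 N - N| = |(psi0 bs1 N - N - 1) + 1| := by rw [← h4]
        _ ≤ |psi0 bs1 N - N - 1| + |(1 : ℝ)| := abs_add_le _ _
        _ = _ := by rw [abs_one]
    linarith
  refine ⟨fun q => E q + 2 * D * (1 / (q.totient : ℝ)), fun q => ?_, ?_, ?_⟩
  · have := hE0 q
    positivity
  · intro q b hq hqN hb
    have h1 := hE1 q b hq hqN hb
    rw [bs_psiS] at h1
    have h2 : psiS N q b - (N : ℝ) / (q.totient : ℝ) =
        (psiS N q b - psi0 bs1 N / (q.totient : ℝ)) + (psi0 bs1 N - N) * (1 / (q.totient : ℝ)) := by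
      ring
    rw [h2]
    refine (abs_add_le _ _).trans (add_le_add h1 ?_)
    rw [abs_mul, abs_of_nonneg (by positivity : (0 : ℝ) ≤ 1 / (q.totient : ℝ))]
    exact mul_le_mul_of_nonneg_right hpsi (by positivity)
  · have h1 : ∑ q ∈ (Icc 1 N).filter (fun q : ℕ => (q : ℝ) ≤ (N : ℝ) ^ θ),
        (K : ℝ) ^ q.primeFactors.card * (E q + 2 * D * (1 / (q.totient : ℝ))) =
        ∑ q ∈ (Icc 1 N).filter (fun q : ℕ => (q : ℝ) ≤ (N : ℝ) ^ θ),
          (K : ℝ) ^ q.primeFactors.card * E q +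
        2 * D * ∑ q ∈ (Icc 1 N).filter (fun q : ℕ => (q : ℝ) ≤ (N : ℝ) ^ θ),
          (K : ℝ) ^ q.primeFactors.card * (1 / (q.totient : ℝ)) := by
      rw [mul_sum, ← sum_add_distrib]
      exact sum_congr rfl fun q _ => by ring
    rw [h1]
    have h2 : ∑ q ∈ (Icc 1 N).filter (fun q : ℕ => (q : ℝ) ≤ (N : ℝ) ^ θ),
        (K : ℝ) ^ q.primeFactors.card * (1 / (q.totient : ℝ)) ≤ L ^ (4 * K) := by
      refine (sum_le_sum_of_subset_of_nonneg (filter_subset _ _)
        fun q _ _ => by positivity).trans ((bs_phi_sum N K hN1).trans ?_)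
      have h3 : 1 + L ≤ L ^ 2 := by nlinarith
      have h4 : (4 : ℕ) * K = 2 * (2 * K) := by ring
      rw [h4, pow_mul L 2 (2 * K)]
      exact pow_le_pow_left₀ (by linarith) h3 _
    have h3 : 2 * D * ∑ q ∈ (Icc 1 N).filter (fun q : ℕ => (q : ℝ) ≤ (N : ℝ) ^ θ),
        (K : ℝ) ^ q.primeFactors.card * (1 / (q.totient : ℝ)) ≤ 2 * D * L ^ (4 * K) :=
      mul_le_mul_of_nonneg_left h2 (by positivity)
    have h4 : 2 * D * L ^ (4 * K) = N / L ^ A * (2 / L ^ 2) := by
      rw [hD, pow_add, pow_add]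
      field_simp
    have h5 : (N : ℝ) / L ^ (A + 1) = N / L ^ A * (1 / L) := by
      rw [pow_succ]
      field_simp
    have h6 : 1 / L ≤ 1 / 2 := one_div_le_one_div_of_le (by norm_num) hL
    have h7 : 2 / L ^ 2 ≤ 1 / 2 := by
      rw [div_le_div_iff₀ (by positivity) (by norm_num)]
      nlinarith
    have h8 : 0 ≤ N / L ^ A := by positivity
    have h9 : N / L ^ A * (1 / L) ≤ N / L ^ A * (1 / 2) := mul_le_mul_of_nonneg_left h6 h8
    have h10 : N / L ^ A * (2 / L ^ 2) ≤ N / L ^ A * (1 / 2) := mul_le_mul_of_nonneg_left h7 h8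
    linarith

theorem thm_BVS : St_BVS := by
  classical
  intro A C
  set a : ℕ := A + 4 * C + 1 with ha
  set A3 : ℕ := A + a + 1 with hA3
  obtain ⟨N0, hN0⟩ := eventually_atTop.1 (bs_BVN (1 / 50) (by norm_num) (by norm_num) A3 C)
  have hE : ∀ N : ℕ, ∃ E : ℕ → ℝ, N0 ≤ N → ((∀ q, 0 ≤ E q) ∧
      (∀ q b : ℕ, 1 ≤ q → (q : ℝ) ≤ (N : ℝ) ^ (1 / 50 : ℝ) → b.Coprime q →
        |psiS N q b - (N : ℝ) / (q.totient : ℝ)| ≤ E q) ∧
      ∑ q ∈ (Icc 1 N).filter (fun q : ℕ => (q : ℝ) ≤ (N : ℝ) ^ (1 / 50 : ℝ)),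
        (C : ℝ) ^ q.primeFactors.card * E q ≤ N / Real.log N ^ A3) := by
    intro N
    by_cases h : N0 ≤ N
    · obtain ⟨E, hE⟩ := hN0 N h
      exact ⟨E, fun _ => hE⟩
    · exact ⟨fun _ => 0, fun h' => absurd h' h⟩
  choose E hE using hE
  have hlogtend : Tendsto (fun N : ℕ => Real.log (N : ℝ)) atTop atTop :=
    Real.tendsto_log_atTop.comp tendsto_natCast_atTop_atTop
  filter_upwards [hlogtend.eventually_ge_atTop (6 * 2 ^ A3 + 2),
    bs_gvbv_logpow a 1 (1 / 2) one_pos (by norm_num), eventually_ge_atTop (N0 ^ 2),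
    eventually_ge_atTop 3] with X hL hLp hXN hX3
  set L := Real.log (X : ℝ) with hLdef
  have hpow1 : (1 : ℝ) ≤ 2 ^ A3 := one_le_pow₀ (by norm_num)
  have hL2 : 2 ≤ L := by linarith
  have hL0 : 0 < L := by linarith
  have hX0 : (0 : ℝ) < X := by positivity
  have hX1 : (1 : ℝ) ≤ X := by exact_mod_cast (by omega : 1 ≤ X)
  have hLa1 : (1 : ℝ) ≤ L ^ a := one_le_pow₀ (by linarith)
  have hsqrt : Real.sqrt X = (X : ℝ) ^ (1 / 2 : ℝ) := Real.sqrt_eq_rpow _
  have hLa : L ^ a ≤ Real.sqrt X := by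
    rw [hsqrt]
    linarith
  have hsx : Real.sqrt X * Real.sqrt X = X := Real.mul_self_sqrt hX0.le
  have hsx0 : 0 < Real.sqrt X := Real.sqrt_pos.2 hX0
  have hsx1 : 1 ≤ Real.sqrt X := Real.one_le_sqrt.2 hX1
  set s : ℕ := ⌊(X : ℝ) / L ^ a⌋₊ + 1 with hs
  have hs1 : (X : ℝ) / L ^ a ≤ s := by
    rw [hs]
    push_cast
    exact (Nat.lt_floor_add_one _).le
  have hs2 : (s : ℝ) ≤ (X : ℝ) / L ^ a + 1 := by
    rw [hs]
    push_cast
    have := Nat.floor_le (show 0 ≤ (X : ℝ) / L ^ a by positivity)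
    linarith
  have hXL : Real.sqrt X ≤ (X : ℝ) / L ^ a := by
    rw [le_div_iff₀ (by positivity)]
    calc Real.sqrt X * L ^ a ≤ Real.sqrt X * Real.sqrt X := mul_le_mul_of_nonneg_left hLa hsx0.le
      _ = X := hsx
  have hssq : Real.sqrt X ≤ s := hXL.trans hs1
  have hs3 : (s : ℝ) ≤ 2 * (X / L ^ a) := by linarith
  have hs4 : (X : ℝ) / L ^ a ≤ X := div_le_self hX0.le hLa1
  have hspos : 0 < s := Nat.succ_pos _
  have hs0 : (0 : ℝ) < s := by exact_mod_cast hspos
  have hsN0 : N0 ≤ s := by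
    have h1 : (N0 : ℝ) ≤ Real.sqrt X := by
      apply Real.le_sqrt_of_sq_le
      exact_mod_cast hXN
    exact_mod_cast h1.trans hssq
  set J : ℕ := X / s with hJ
  have hJs : (J : ℝ) * s ≤ X := by exact_mod_cast Nat.div_mul_le_self X s
  have hJL : (J : ℝ) ≤ L ^ a := by
    have h1 : (J : ℝ) * (X / L ^ a) ≤ X :=
      (mul_le_mul_of_nonneg_left hs1 (Nat.cast_nonneg _)).trans hJs
    have h2 : (J : ℝ) * (X / L ^ a) = X * (J / L ^ a) := by ring
    rw [h2] at h1
    have h3 : (J : ℝ) / L ^ a ≤ 1 := by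
      by_contra h
      push Not at h
      have := mul_lt_mul_of_pos_left h hX0
      linarith
    rwa [div_le_one (by positivity)] at h3
  -- all the grid points
  have hgrid : ∀ j : ℕ, 1 ≤ j → Real.sqrt X ≤ ((j * s : ℕ) : ℝ) ∧ N0 ≤ j * s := by
    intro j hj
    have h1 : s ≤ j * s := Nat.le_mul_of_pos_left s hj
    have h2 : (s : ℝ) ≤ ((j * s : ℕ) : ℝ) := by exact_mod_cast h1
    exact ⟨hssq.trans h2, hsN0.trans h1⟩
  have hrp : ∀ y : ℝ, Real.sqrt X ≤ y → (X : ℝ) ^ (1 / 100 : ℝ) ≤ y ^ (1 / 50 : ℝ) := by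
    intro y hy
    have h1 : (X : ℝ) ^ (1 / 100 : ℝ) = (Real.sqrt X) ^ (1 / 50 : ℝ) := by
      rw [hsqrt, ← Real.rpow_mul hX0.le]
      norm_num
    rw [h1]
    exact Real.rpow_le_rpow hsx0.le hy (by norm_num)
  have hEn : ∀ j : ℕ, 1 ≤ j → ∀ q, 0 ≤ E (j * s) q := fun j hj q =>
    (hE (j * s) (hgrid j hj).2).1 q
  refine ⟨fun q => (s : ℝ) * (1 / (q.totient : ℝ)) + ∑ j ∈ Icc 1 (J + 1), E (j * s) q, ?_, ?_, ?_⟩
  · intro q
    have h1 : 0 ≤ ∑ j ∈ Icc 1 (J + 1), E (j * s) q :=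
      sum_nonneg fun j hj => hEn j (mem_Icc.1 hj).1 q
    positivity
  · intro q b u hq hqX hb huX
    change |psiS u q b - (u : ℝ) / (q.totient : ℝ)| ≤ _
    have hφ : (0 : ℝ) < q.totient := by exact_mod_cast Nat.totient_pos.2 hq
    set j : ℕ := u / s with hj
    have hjJ : j ≤ J := Nat.div_le_div_right huX
    have h1 : j * s ≤ u := Nat.div_mul_le_self u s
    have h2 : u < (j + 1) * s := by
      have := Nat.lt_div_mul_add (a := u) hspos
      rw [add_mul, one_mul]
      exact this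
    have hS : ∀ i, 1 ≤ i → i ≤ J + 1 → E (i * s) q ≤ ∑ j ∈ Icc 1 (J + 1), E (j * s) q :=
      fun i hi1 hi2 => single_le_sum (f := fun j => E (j * s) q)
        (fun j hj => hEn j (mem_Icc.1 hj).1 q) (mem_Icc.2 ⟨hi1, hi2⟩)
    have hup := (hE ((j + 1) * s) (hgrid (j + 1) (Nat.succ_pos j)).2).2.1 q b hq
      (hqX.trans (hrp _ (hgrid (j + 1) (Nat.succ_pos j)).1)) hb
    have hup2 := (abs_le.1 hup).2
    have hm1 : psiS u q b ≤ psiS ((j + 1) * s) q b := bs_psiS_mono h2.le q b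
    have e1 : (((j + 1) * s : ℕ) : ℝ) / (q.totient : ℝ) ≤
        (u : ℝ) / (q.totient : ℝ) + (s : ℝ) * (1 / (q.totient : ℝ)) := by
      have h3 : (((j + 1) * s : ℕ) : ℝ) ≤ u + s := by
        have h4 : (j + 1) * s ≤ u + s := by
          rw [add_mul, one_mul]
          omega
        exact_mod_cast h4
      calc (((j + 1) * s : ℕ) : ℝ) / (q.totient : ℝ) ≤ (u + s) / (q.totient : ℝ) :=
            div_le_div_of_nonneg_right h3 hφ.le
        _ = _ := by ring
    have hS1 := hS (j + 1) (Nat.succ_pos j) (Nat.succ_le_succ hjJ)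
    rw [abs_le]
    constructor
    · rcases Nat.eq_zero_or_pos j with hj0 | hj0
      · have h3 : u < s := by
          rw [hj0] at h2
          omega
        have h4 : (u : ℝ) / (q.totient : ℝ) ≤ (s : ℝ) * (1 / (q.totient : ℝ)) := by
          rw [mul_one_div]
          exact div_le_div_of_nonneg_right (by exact_mod_cast h3.le) hφ.le
        have h5 := bs_psiS_nonneg u q b
        have h6 : 0 ≤ ∑ j ∈ Icc 1 (J + 1), E (j * s) q :=
          sum_nonneg fun j hj => hEn j (mem_Icc.1 hj).1 q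
        linarith
      · have hlo := (hE (j * s) (hgrid j hj0).2).2.1 q b hq
          (hqX.trans (hrp _ (hgrid j hj0).1)) hb
        have hlo2 := (abs_le.1 hlo).1
        have hm2 : psiS (j * s) q b ≤ psiS u q b := bs_psiS_mono h1 q b
        have e2 : (u : ℝ) / (q.totient : ℝ) ≤
            ((j * s : ℕ) : ℝ) / (q.totient : ℝ) + (s : ℝ) * (1 / (q.totient : ℝ)) := by
          have h3 : (u : ℝ) ≤ ((j * s : ℕ) : ℝ) + s := by
            have h4 : u ≤ j * s + s := by
              rw [add_mul, one_mul] at h2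
              exact h2.le
            exact_mod_cast h4
          calc (u : ℝ) / (q.totient : ℝ) ≤ (((j * s : ℕ) : ℝ) + s) / (q.totient : ℝ) :=
                div_le_div_of_nonneg_right h3 hφ.le
            _ = _ := by ring
        have hS2 := hS j hj0 (by omega)
        linarith
    · linarith
  · set Q := (Icc 1 X).filter (fun q : ℕ => (q : ℝ) ≤ (X : ℝ) ^ (1 / 100 : ℝ)) with hQ
    have h1 : ∑ q ∈ Q, (C : ℝ) ^ q.primeFactors.card *
        ((s : ℝ) * (1 / (q.totient : ℝ)) + ∑ j ∈ Icc 1 (J + 1), E (j * s) q) =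
        s * ∑ q ∈ Q, (C : ℝ) ^ q.primeFactors.card * (1 / (q.totient : ℝ)) +
        ∑ j ∈ Icc 1 (J + 1), ∑ q ∈ Q, (C : ℝ) ^ q.primeFactors.card * E (j * s) q := by
      rw [sum_comm (s := Icc 1 (J + 1)), mul_sum, ← sum_add_distrib]
      refine sum_congr rfl fun q _ => ?_
      rw [← mul_sum]
      ring
    rw [h1]
    have h2 : ∑ q ∈ Q, (C : ℝ) ^ q.primeFactors.card * (1 / (q.totient : ℝ)) ≤ L ^ (4 * C) := by
      refine (sum_le_sum_of_subset_of_nonneg (filter_subset _ _)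
        fun q _ _ => by positivity).trans ((bs_phi_sum X C (by omega)).trans ?_)
      have h3 : 1 + L ≤ L ^ 2 := by nlinarith
      have h4 : (4 : ℕ) * C = 2 * (2 * C) := by ring
      rw [h4, pow_mul L 2 (2 * C)]
      exact pow_le_pow_left₀ (by linarith) h3 _
    have h3 : (s : ℝ) * ∑ q ∈ Q, (C : ℝ) ^ q.primeFactors.card * (1 / (q.totient : ℝ)) ≤
        2 * (X / L ^ (A + 1)) := by
      calc (s : ℝ) * ∑ q ∈ Q, (C : ℝ) ^ q.primeFactors.card * (1 / (q.totient : ℝ)) ≤
            (2 * (X / L ^ a)) * L ^ (4 * C) := mul_le_mul hs3 h2 (by positivity) (by positivity)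
        _ = 2 * (X / L ^ (A + 1)) := by
            have : L ^ a = L ^ (A + 1) * L ^ (4 * C) := by
              rw [← pow_add, ha]
              congr 1
              ring
            rw [this]
            field_simp
    have h4 : ∀ j ∈ Icc 1 (J + 1), ∑ q ∈ Q, (C : ℝ) ^ q.primeFactors.card * E (j * s) q ≤
        3 * X * 2 ^ A3 / L ^ A3 := by
      intro j hj
      rw [mem_Icc] at hj
      obtain ⟨hj1, hj2⟩ := hgrid j hj.1
      set N : ℕ := j * s with hN
      have hNs : Real.sqrt X ≤ N := hj1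
      have hN1 : (1 : ℝ) ≤ N := hsx1.trans hNs
      have hsub : Q ⊆ (Icc 1 N).filter (fun q : ℕ => (q : ℝ) ≤ (N : ℝ) ^ (1 / 50 : ℝ)) := by
        intro q hq
        rw [hQ, mem_filter, mem_Icc] at hq
        have h5 := hq.2.trans (hrp _ hNs)
        have h6 : (N : ℝ) ^ (1 / 50 : ℝ) ≤ (N : ℝ) ^ (1 : ℝ) :=
          Real.rpow_le_rpow_of_exponent_le hN1 (by norm_num)
        rw [Real.rpow_one] at h6
        have h7 : q ≤ N := by exact_mod_cast h5.trans h6
        rw [mem_filter, mem_Icc]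
        exact ⟨⟨hq.1.1, h7⟩, h5⟩
      refine (sum_le_sum_of_subset_of_nonneg hsub fun q _ _ =>
        mul_nonneg (by positivity) (hEn j hj.1 q)).trans ?_
      refine ((hE N hj2).2.2).trans ?_
      have hN3 : (N : ℝ) ≤ 3 * X := by
        have h5 : (j : ℝ) ≤ J + 1 := by exact_mod_cast hj.2
        have h6 : (N : ℝ) = j * s := by
          rw [hN]
          push_cast
          ring
        rw [h6]
        calc (j : ℝ) * s ≤ (J + 1) * s := mul_le_mul_of_nonneg_right h5 hs0.le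
          _ = J * s + s := by ring
          _ ≤ X + 2 * X := add_le_add hJs (hs3.trans (by linarith))
          _ = 3 * X := by ring
      have hlogN : L / 2 ≤ Real.log N := by
        have h5 : Real.log (Real.sqrt X) ≤ Real.log N := Real.log_le_log hsx0 hNs
        rw [Real.log_sqrt hX0.le] at h5
        exact h5
      calc (N : ℝ) / Real.log N ^ A3 ≤ (3 * X) / (L / 2) ^ A3 := by
            apply div_le_div₀ (by positivity) hN3 (by positivity)
            exact pow_le_pow_left₀ (by positivity) hlogN _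
        _ = _ := by
            rw [div_pow]
            field_simp
    have h5 := sum_le_card_nsmul _ _ _ h4
    rw [Nat.card_Icc, Nat.add_sub_cancel, nsmul_eq_mul] at h5
    have h6 : ((J + 1 : ℕ) : ℝ) ≤ 2 * L ^ a := by
      push_cast
      linarith
    have h7 : ((J + 1 : ℕ) : ℝ) * (3 * X * 2 ^ A3 / L ^ A3) ≤
        6 * 2 ^ A3 * (X / L ^ (A + 1)) := by
      calc ((J + 1 : ℕ) : ℝ) * (3 * X * 2 ^ A3 / L ^ A3) ≤
            (2 * L ^ a) * (3 * X * 2 ^ A3 / L ^ A3) :=
            mul_le_mul_of_nonneg_right h6 (by positivity)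
        _ = _ := by
            have : L ^ A3 = L ^ (A + 1) * L ^ a := by
              rw [← pow_add, hA3]
              congr 1
              ring
            rw [this]
            field_simp
            ring
    have h8 : (6 * 2 ^ A3 + 2) * (X / L ^ (A + 1)) ≤ X / L ^ A := by
      have h9 : X / L ^ A = L * (X / L ^ (A + 1)) := by
        rw [pow_succ]
        field_simp
      rw [h9]
      exact mul_le_mul_of_nonneg_right hL (by positivity)
    linarith

end Pool.Agent.NRP
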