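import Mathlib
import Pool.Agent.NRP.StN
import Pool.Agent.GBQ.RhoLow

set_option autoImplicit false

/-!
# NRP / Ba: Theorem B for the pattern `n, n + h, n + h² + h` (telescoping)
-/

namespace Pool.Agent.NRP

open Finset Filter
open Pool.Agent.GBQ (ee nd gm lam LamS zz rho pr rho_pos mem_pr lam_nonneg lam_le_log)
open scoped ComplexConjugate

private theorem nrpba_tsum (X : ℕ) (F : ℤ → ℂ) (hF : ∀ n : ℤ, ¬ (1 ≤ n ∧ n ≤ X) → F n = 0) :
    ∑' n : ℤ, F n = ∑ n ∈ Icc 1 X, F (n : ℤ) := by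
  have h1 : ∑ n ∈ Icc 1 X, F (n : ℤ) = ∑ n ∈ (Icc 1 X).map Nat.castEmbedding, F n := by
    rw [sum_map]
    rfl
  rw [h1]
  refine tsum_eq_sum ?_
  intro n hn
  refine hF n ?_
  rintro ⟨h2, h3⟩
  apply hn
  rw [Finset.mem_map]
  refine ⟨n.toNat, ?_, ?_⟩
  · rw [mem_Icc]
    omega
  · show ((n.toNat : ℕ) : ℤ) = n
    omega

private theorem nrpba_int (H : ℕ) (F : ℤ → ℂ) :
    ∑ h ∈ Icc (1 : ℤ) H, F h = ∑ h ∈ Icc 1 H, F (h : ℤ) := by
  have h1 : ∑ n ∈ Icc 1 H, F (n : ℤ) = ∑ n ∈ (Icc 1 H).map Nat.castEmbedding, F n := by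
    rw [sum_map]
    rfl
  rw [h1]
  refine sum_congr ?_ (fun _ _ => rfl)
  ext n
  rw [mem_Icc, Finset.mem_map]
  constructor
  · rintro ⟨h2, h3⟩
    refine ⟨n.toNat, ?_, ?_⟩
    · rw [mem_Icc]
      omega
    · show ((n.toNat : ℕ) : ℤ) = n
      omega
  · rintro ⟨m, hm, rfl⟩
    rw [mem_Icc] at hm
    show (1 : ℤ) ≤ ((m : ℕ) : ℤ) ∧ ((m : ℕ) : ℤ) ≤ H
    omega

private theorem nrpba_TW (X H : ℕ) (w F0 F1 F2 : ℤ → ℂ)
    (hF : ∀ n : ℤ, ¬ (1 ≤ n ∧ n ≤ X) → F0 n = 0) :
    TW 1 H w F0 F1 F2 = ∑ h ∈ Icc 1 H, w (h : ℤ) *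
      ∑ n ∈ Icc 1 X, F0 (n : ℤ) * F1 ((n : ℤ) + h) * F2 ((n : ℤ) + ((h : ℤ) ^ 2 + h)) := by
  unfold TW
  rw [nrpba_int]
  refine sum_congr rfl (fun h _ => ?_)
  congr 1
  rw [nrpba_tsum X]
  · refine sum_congr rfl (fun n _ => ?_)
    unfold pp
    rw [one_mul]
  · intro n hn
    rw [hF n hn]
    ring

private theorem nrpba_zz_le (B X : ℕ) (hX : 1 ≤ X) : ((zz B X : ℕ) : ℝ) ≤ Real.log X ^ B := by
  unfold zz
  exact Nat.floor_le (pow_nonneg (Real.log_nonneg (by exact_mod_cast hX)) _)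

private theorem nrpba_rho (B : ℕ) :
    ∀ᶠ X : ℕ in atTop, (rho (zz B X))⁻¹ ≤ Real.log X := by
  obtain ⟨c, hc, h7⟩ := Pool.Agent.GBQ.thm_RhoLow
  have hlog : Tendsto (fun X : ℕ => Real.log X) atTop atTop :=
    Real.tendsto_log_atTop.comp tendsto_natCast_atTop_atTop
  have h8 : ∀ᶠ y : ℝ in atTop, Real.log y ≤ (c / (B + 1)) * y := by
    have h9 := Real.isLittleO_log_id_atTop.def (c := c / (B + 1)) (by positivity)
    filter_upwards [h9, eventually_ge_atTop (1 : ℝ)] with y hy hy1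
    rw [Real.norm_eq_abs, Real.norm_eq_abs, id, abs_of_nonneg (Real.log_nonneg hy1),
      abs_of_nonneg (by linarith)] at hy
    exact hy
  filter_upwards [hlog.eventually h8, hlog.eventually (eventually_ge_atTop (1 : ℝ)),
    eventually_ge_atTop 3] with X hX1 hX2 hX3
  set z := zz B X with hz
  rcases Nat.lt_or_ge z 2 with hz2 | hz2
  · have : pr z = ∅ := by
      rw [eq_empty_iff_forall_notMem]
      intro p hp
      rw [mem_pr] at hp
      have := hp.2.two_le
      omega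
    have : rho z = 1 := by
      unfold rho
      rw [this, prod_empty]
    rw [this, inv_one]
    exact hX2
  · have h9 := h7 z hz2
    have hz0 : (0 : ℝ) < z := by positivity
    have hz1 : 0 < Real.log z := Real.log_pos (by exact_mod_cast hz2)
    have h10 : Real.log z ≤ B * Real.log (Real.log X) := by
      rw [← Real.log_pow]
      exact Real.log_le_log hz0 (nrpba_zz_le B X (by omega))
    have h11 : Real.log z ≤ c * Real.log X := by
      have hB0 : (0 : ℝ) ≤ B := Nat.cast_nonneg B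
      have h12 : B * Real.log (Real.log X) ≤ B * ((c / (B + 1)) * Real.log X) :=
        mul_le_mul_of_nonneg_left hX1 hB0
      have h13 : B * ((c / (B + 1)) * Real.log X) ≤ c * Real.log X := by
        have h14 : (B : ℝ) / (B + 1) ≤ 1 := by
          rw [div_le_one (by positivity)]
          linarith
        calc (B : ℝ) * ((c / (B + 1)) * Real.log X) = (B / (B + 1)) * (c * Real.log X) := by ring
          _ ≤ 1 * (c * Real.log X) := mul_le_mul_of_nonneg_right h14 (by positivity)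
          _ = _ := one_mul _
      linarith
    rw [inv_le_iff_one_le_mul₀ (rho_pos z)]
    have h12 : Real.log X * (c / Real.log z) ≤ Real.log X * rho z :=
      mul_le_mul_of_nonneg_left h9 (by linarith)
    refine le_trans ?_ h12
    rw [← mul_div_assoc, one_le_div hz1]
    linarith

private theorem nrpba_LamS_le (z n : ℕ) : LamS z n ≤ (rho z)⁻¹ := by
  unfold LamS
  split_ifs
  · exact le_refl _
  · exact (inv_pos.2 (rho_pos z)).le

/-- the pointwise telescoping identity -/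
private theorem nrpba_tel (z X n h : ℕ) (hn : 1 ≤ n) (hnX : n ≤ X) (hh : h ≤ X)
    (hh2 : h ^ 2 ≤ X) :
    lam n * lam (n + h) * lam (n + h ^ 2 + h) =
      lam n * lam (n + h) * gI z 0 (3 * X) ((n : ℤ) + ((h : ℤ) ^ 2 + h)) +
      lam n * gI z 0 (3 * X) ((n : ℤ) + h) * LamZ z ((n : ℤ) + ((h : ℤ) ^ 2 + h)) +
      lam n * LamZ z ((n : ℤ) + h) * LamZ z ((n : ℤ) + ((h : ℤ) ^ 2 + h)) := by
  have h0 : ((n : ℤ) + ((h : ℤ) ^ 2 + h)) = ((n + h ^ 2 + h : ℕ) : ℤ) := by
    push_cast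
    ring
  have h1 : ((n : ℤ) + h) = ((n + h : ℕ) : ℤ) := by push_cast; ring
  rw [h0, h1]
  have h2 : gI z 0 (3 * X) ((n + h ^ 2 + h : ℕ) : ℤ) =
      lam (n + h ^ 2 + h) - LamZ z ((n + h ^ 2 + h : ℕ) : ℤ) := by
    unfold gI
    rw [if_pos]
    · unfold lamZ
      rw [Int.toNat_natCast]
    · generalize h ^ 2 = t at *
      push_cast
      omega
  have h3 : gI z 0 (3 * X) ((n + h : ℕ) : ℤ) = lam (n + h) - LamZ z ((n + h : ℕ) : ℤ) := by
    unfold gI
    rw [if_pos]
    · unfold lamZ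
      rw [Int.toNat_natCast]
    · push_cast
      omega
  rw [h2, h3]
  ring

theorem thm_Ba (h2 : St_TW2) (h1 : St_TW1) (hM : St_BVM) (hS : St_Sing) : St_Ba := by
  intro A
  obtain ⟨-, -, -, hS4, -, -⟩ := hS
  obtain ⟨B2, hB2⟩ := h2 (A + 1)
  obtain ⟨B1, hB1⟩ := h1 (A + 1)
  obtain ⟨BS, hBS⟩ := hS4 (A + 1)
  set B := B2 + B1 + BS + 1 with hB
  have e1 := hB2 B (by omega)
  have e2 := hB1 B (by omega)
  have e3 := hM (A + 1) B
  have e4 := hBS B (by omega)
  have hlog : Tendsto (fun X : ℕ => Real.log X) atTop atTop :=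
    Real.tendsto_log_atTop.comp tendsto_natCast_atTop_atTop
  filter_upwards [e1, e2, e3, e4, nrpba_rho B, hlog.eventually (eventually_ge_atTop (4 : ℝ)),
    eventually_ge_atTop 3] with X hX1 hX2 hX3 hX4 hX5 hX6 hX7
  set z := zz B X with hz
  set H := Nat.sqrt X with hH
  have hHX : H ≤ X := Nat.sqrt_le_self X
  have hH2 : ∀ h : ℕ, h ≤ H → h ^ 2 ≤ X := fun h hh => by
    have := Nat.sqrt_le' X
    calc h ^ 2 ≤ H ^ 2 := Nat.pow_le_pow_left hh 2
      _ ≤ X := this
  have hX0 : (0 : ℝ) < X := by positivity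
  have hL0 : (0 : ℝ) < Real.log X := by linarith
  have hLA : (0 : ℝ) < Real.log X ^ (A + 1) := by positivity
  -- `z ≥ 2`
  have hzlog : (z : ℝ) ≤ Real.log X ^ B := nrpba_zz_le B X (by omega)
  have hz2 : 2 ≤ z := by
    rw [hz]
    unfold zz
    rw [Nat.le_floor_iff (by positivity)]
    push_cast
    calc (2 : ℝ) ≤ 4 ^ 1 := by norm_num
      _ ≤ Real.log X ^ 1 := by
        rw [pow_one, pow_one]
        exact hX6
      _ ≤ Real.log X ^ B := pow_le_pow_right₀ (by linarith) (by omega)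
  have hlog2 : Real.log X ≤ Real.log X ^ 2 := by nlinarith
  -- the weights
  set ws : ℕ → ℝ := fun h => if 0 ≤ T3a X h - SG h * X then 1 else -1 with hws
  set w : ℤ → ℂ := fun h => ((ws h.toNat : ℝ) : ℂ) with hw
  have hws1 : ∀ h, |ws h| ≤ 1 := by
    intro h
    rw [hws]
    dsimp only
    split_ifs
    · simp
    · simp
  have hw1 : ∀ h, ‖w h‖ ≤ 1 := by
    intro h
    rw [hw]
    dsimp only
    rw [Complex.norm_real, Real.norm_eq_abs]
    exact hws1 _
  set F0 : ℤ → ℂ := fun n => if 1 ≤ n ∧ n ≤ X then ((lamZ n : ℝ) : ℂ) else 0 with hF0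
  set F1 : ℤ → ℂ := fun n => if 1 ≤ n ∧ n ≤ 2 * X then ((lamZ n : ℝ) : ℂ) else 0 with hF1
  set F2 : ℤ → ℂ := fun n => if 1 ≤ n ∧ n ≤ 3 * X then ((LamZ z n : ℝ) : ℂ) else 0 with hF2
  have hlamZ : ∀ n : ℤ, n ≤ 2 * X → 1 ≤ n → ‖((lamZ n : ℝ) : ℂ)‖ ≤ Real.log X ^ 2 := by
    intro n hn hn1
    rw [Complex.norm_real, Real.norm_eq_abs]
    unfold lamZ
    rw [abs_of_nonneg (lam_nonneg _)]
    refine le_trans (lam_le_log _) ?_
    have h3 : ((n.toNat : ℕ) : ℝ) ≤ 2 * X := by
      have : n.toNat ≤ 2 * X := by omega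
      exact_mod_cast this
    have h4 : (0 : ℝ) < ((n.toNat : ℕ) : ℝ) := by
      have : 0 < n.toNat := by omega
      exact_mod_cast this
    have h5 : Real.log ((n.toNat : ℕ) : ℝ) ≤ Real.log (2 * X) := Real.log_le_log h4 h3
    have h6 : Real.log (2 * X) = Real.log 2 + Real.log X := by
      rw [Real.log_mul (by norm_num) (by positivity)]
    have h7 : Real.log 2 ≤ 1 := by
      have := Real.log_two_lt_d9
      linarith
    nlinarith
  have hF0b : ∀ n, ‖F0 n‖ ≤ Real.log X ^ 2 := by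
    intro n
    rw [hF0]
    dsimp only
    split_ifs with hc
    · exact hlamZ n (by omega) hc.1
    · rw [norm_zero]
      positivity
  have hF1b : ∀ n, ‖F1 n‖ ≤ Real.log X ^ 2 := by
    intro n
    rw [hF1]
    dsimp only
    split_ifs with hc
    · exact hlamZ n hc.2 hc.1
    · rw [norm_zero]
      positivity
  have hF2b : ∀ n, ‖F2 n‖ ≤ Real.log X ^ 2 := by
    intro n
    rw [hF2]
    dsimp only
    split_ifs with hc
    · rw [Complex.norm_real, Real.norm_eq_abs]
      unfold LamZ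
      rw [if_pos (by omega), abs_of_nonneg (Pool.Agent.GBQ.LamS_nonneg _ _)]
      exact le_trans (nrpba_LamS_le _ _) (le_trans hX5 hlog2)
    · rw [norm_zero]
      positivity
  have hF0z : ∀ n : ℤ, ¬ (1 ≤ n ∧ n ≤ X) → F0 n = 0 := by
    intro n hn
    rw [hF0]
    dsimp only
    rw [if_neg hn]
  -- the two error terms
  set S1 : ℕ → ℝ := fun h => ∑ n ∈ Icc 1 X,
    lam n * lam (n + h) * gI z 0 (3 * X) ((n : ℤ) + ((h : ℤ) ^ 2 + h)) with hS1
  set S2 : ℕ → ℝ := fun h => ∑ n ∈ Icc 1 X,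
    lam n * gI z 0 (3 * X) ((n : ℤ) + h) * LamZ z ((n : ℤ) + ((h : ℤ) ^ 2 + h)) with hS2
  set S3 : ℕ → ℝ := fun h => ∑ n ∈ Icc 1 X,
    lam n * LamZ z ((n : ℤ) + h) * LamZ z ((n : ℤ) + ((h : ℤ) ^ 2 + h)) with hS3
  have hT : ∀ h ∈ Icc 1 H, T3a X h = S1 h + S2 h + S3 h := by
    intro h hh
    rw [mem_Icc] at hh
    unfold T3a
    rw [hS1, hS2, hS3]
    dsimp only
    rw [← sum_add_distrib, ← sum_add_distrib]
    refine sum_congr rfl (fun n hn => ?_)
    rw [mem_Icc] at hn
    exact nrpba_tel z X n h hn.1 hn.2 (by omega) (hH2 h hh.2)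
  have k1 : |∑ h ∈ Icc 1 H, ws h * S1 h| ≤ X * Real.sqrt X / Real.log X ^ (A + 1) := by
    have h3 := hX1 1 (Or.inr rfl) w F0 F1 0 (3 * X) 1 (le_refl _) (Or.inl rfl) hw1 hF0b hF1b ?_
    · rw [nrpba_TW X H w F0 F1 _ hF0z] at h3
      have h4 : ∑ h ∈ Icc 1 H, w (h : ℤ) * ∑ n ∈ Icc 1 X, F0 (n : ℤ) * F1 ((n : ℤ) + h) *
          ((gI z 0 (3 * X) (1 * ((n : ℤ) + ((h : ℤ) ^ 2 + h))) : ℝ) : ℂ) =
          ((∑ h ∈ Icc 1 H, ws h * S1 h : ℝ) : ℂ) := by
        rw [Complex.ofReal_sum]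
        refine sum_congr rfl (fun h hh => ?_)
        rw [mem_Icc] at hh
        rw [Complex.ofReal_mul]
        have h5 : w (h : ℤ) = ((ws h : ℝ) : ℂ) := by
          rw [hw]
          dsimp only
          rw [Int.toNat_natCast]
        rw [h5]
        congr 1
        rw [hS1]
        dsimp only
        rw [Complex.ofReal_sum]
        refine sum_congr rfl (fun n hn => ?_)
        rw [mem_Icc] at hn
        have h6 : F0 (n : ℤ) = ((lam n : ℝ) : ℂ) := by
          rw [hF0]
          dsimp only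
          rw [if_pos (by omega)]
          unfold lamZ
          rw [Int.toNat_natCast]
        have h7 : F1 ((n : ℤ) + h) = ((lam (n + h) : ℝ) : ℂ) := by
          rw [hF1]
          dsimp only
          rw [if_pos (by omega)]
          unfold lamZ
          have : ((n : ℤ) + h).toNat = n + h := by omega
          rw [this]
        rw [h6, h7, one_mul]
        push_cast
        ring
      rw [h4, Complex.norm_real, Real.norm_eq_abs] at h3
      exact h3
    · intro n hn
      constructor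
      · refine hF0z n ?_
        rintro ⟨h4, h5⟩
        have : |n| = n := abs_of_nonneg (by omega)
        omega
      · rw [hF1]
        dsimp only
        rw [if_neg]
        rintro ⟨h4, h5⟩
        have : |n| = n := abs_of_nonneg (by omega)
        omega
  have k2 : |∑ h ∈ Icc 1 H, ws h * S2 h| ≤ X * Real.sqrt X / Real.log X ^ (A + 1) := by
    have h3 := hX2 1 (Or.inr rfl) w F0 F2 0 (3 * X) 1 (le_refl _) (Or.inl rfl) hw1 hF0b hF2b ?_
    · rw [nrpba_TW X H w F0 _ F2 hF0z] at h3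
      have h4 : ∑ h ∈ Icc 1 H, w (h : ℤ) * ∑ n ∈ Icc 1 X, F0 (n : ℤ) *
          ((gI z 0 (3 * X) (1 * ((n : ℤ) + h)) : ℝ) : ℂ) * F2 ((n : ℤ) + ((h : ℤ) ^ 2 + h)) =
          ((∑ h ∈ Icc 1 H, ws h * S2 h : ℝ) : ℂ) := by
        rw [Complex.ofReal_sum]
        refine sum_congr rfl (fun h hh => ?_)
        rw [mem_Icc] at hh
        rw [Complex.ofReal_mul]
        have h5 : w (h : ℤ) = ((ws h : ℝ) : ℂ) := by
          rw [hw]
          dsimp only
          rw [Int.toNat_natCast]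
        rw [h5]
        congr 1
        rw [hS2]
        dsimp only
        rw [Complex.ofReal_sum]
        refine sum_congr rfl (fun n hn => ?_)
        rw [mem_Icc] at hn
        have h6 : F0 (n : ℤ) = ((lam n : ℝ) : ℂ) := by
          rw [hF0]
          dsimp only
          rw [if_pos (by omega)]
          unfold lamZ
          rw [Int.toNat_natCast]
        have h7 : F2 ((n : ℤ) + ((h : ℤ) ^ 2 + h)) =
            ((LamZ z ((n : ℤ) + ((h : ℤ) ^ 2 + h)) : ℝ) : ℂ) := by
          rw [hF2]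
          dsimp only
          rw [if_pos]
          have h8 := hH2 h hh.2
          have h9 : (h : ℤ) ^ 2 = ((h ^ 2 : ℕ) : ℤ) := by push_cast; ring
          rw [h9]
          generalize h ^ 2 = t at *
          omega
        rw [h6, h7, one_mul]
        push_cast
        ring
      rw [h4, Complex.norm_real, Real.norm_eq_abs] at h3
      exact h3
    · intro n hn
      constructor
      · refine hF0z n ?_
        rintro ⟨h4, h5⟩
        have : |n| = n := abs_of_nonneg (by omega)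
        omega
      · rw [hF2]
        dsimp only
        rw [if_neg]
        rintro ⟨h4, h5⟩
        have : |n| = n := abs_of_nonneg (by omega)
        omega
  -- the main term
  have k3 : ∀ h ∈ Icc 1 H, |S3 h - SG h * X| ≤ 2 * X / Real.log X ^ (A + 1) := by
    intro h hh
    rw [mem_Icc] at hh
    have h8 := hH2 h hh.2
    have h9 : (h : ℤ) ^ 2 = ((h ^ 2 : ℕ) : ℤ) := by push_cast; ring
    have h3 := hX3 z hz2 hzlog (h : ℤ) ((h : ℤ) ^ 2 + h) 0 X (Nat.zero_le _) (by omega)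
      (by rw [abs_of_nonneg (by omega)]; omega)
      (by
        rw [h9]
        generalize h ^ 2 = t at *
        rw [abs_of_nonneg (by omega)]
        omega)
      (by push_cast; omega)
      (by
        rw [h9]
        generalize h ^ 2 = t at *
        push_cast
        omega)
    have h4 := hX4 h hh.1 (by omega)
    have h5 : S3 h = ∑ n ∈ Ioc 0 X, lam n * LamZ z ((n : ℤ) + h) *
        LamZ z ((n : ℤ) + ((h : ℤ) ^ 2 + h)) := by
      rw [hS3]
      dsimp only
      refine sum_congr ?_ (fun _ _ => rfl)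
      ext n
      rw [mem_Icc, mem_Ioc]
      omega
    rw [← h5] at h3
    push_cast at h3
    rw [sub_zero] at h3
    have h6 : |(X : ℝ) * (GS z {0, (h : ℤ), (h : ℤ) ^ 2 + h} - SG h)| ≤
        X / Real.log X ^ (A + 1) := by
      rw [abs_mul, abs_of_pos hX0]
      calc (X : ℝ) * |GS z {0, (h : ℤ), (h : ℤ) ^ 2 + h} - SG h|
          ≤ X * (1 / Real.log X ^ (A + 1)) := mul_le_mul_of_nonneg_left h4 hX0.le
        _ = X / Real.log X ^ (A + 1) := by ring
    have h7 : S3 h - SG h * X = (S3 h - X * GS z {0, (h : ℤ), (h : ℤ) ^ 2 + h}) +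
        X * (GS z {0, (h : ℤ), (h : ℤ) ^ 2 + h} - SG h) := by ring
    rw [h7]
    refine le_trans (abs_add_le _ _) ?_
    calc _ ≤ X / Real.log X ^ (A + 1) + X / Real.log X ^ (A + 1) := add_le_add h3 h6
      _ = 2 * X / Real.log X ^ (A + 1) := by ring
  -- assembly
  have m1 : ∑ h ∈ Icc 1 H, |T3a X h - SG h * X| =
      ∑ h ∈ Icc 1 H, ws h * S1 h + ∑ h ∈ Icc 1 H, ws h * S2 h +
      ∑ h ∈ Icc 1 H, ws h * (S3 h - SG h * X) := by
    rw [← sum_add_distrib, ← sum_add_distrib]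
    refine sum_congr rfl (fun h hh => ?_)
    have h3 : |T3a X h - SG h * X| = ws h * (T3a X h - SG h * X) := by
      rw [hws]
      dsimp only
      split_ifs with hc
      · rw [abs_of_nonneg hc, one_mul]
      · rw [abs_of_neg (not_le.1 hc)]
        ring
    rw [h3, hT h hh]
    ring
  have m2 : ∑ h ∈ Icc 1 H, ws h * (S3 h - SG h * X) ≤
      2 * (X * Real.sqrt X) / Real.log X ^ (A + 1) := by
    calc ∑ h ∈ Icc 1 H, ws h * (S3 h - SG h * X)
        ≤ ∑ h ∈ Icc 1 H, 2 * X / Real.log X ^ (A + 1) := by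
          refine sum_le_sum (fun h hh => ?_)
          refine le_trans (le_abs_self _) ?_
          rw [abs_mul]
          calc |ws h| * |S3 h - SG h * X| ≤ 1 * |S3 h - SG h * X| :=
                mul_le_mul_of_nonneg_right (hws1 h) (abs_nonneg _)
            _ = |S3 h - SG h * X| := one_mul _
            _ ≤ _ := k3 h hh
      _ = H * (2 * X / Real.log X ^ (A + 1)) := by
          rw [sum_const, Nat.card_Icc, nsmul_eq_mul, Nat.add_sub_cancel]
      _ ≤ Real.sqrt X * (2 * X / Real.log X ^ (A + 1)) := by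
          refine mul_le_mul_of_nonneg_right ?_ (by positivity)
          rw [hH]
          exact Real.nat_sqrt_le_real_sqrt
      _ = _ := by ring
  rw [m1]
  have m3 := le_trans (le_abs_self _) k1
  have m4 := le_trans (le_abs_self _) k2
  have m5 : (X : ℝ) * Real.sqrt X / Real.log X ^ (A + 1) + X * Real.sqrt X / Real.log X ^ (A + 1) +
      2 * (X * Real.sqrt X) / Real.log X ^ (A + 1) ≤ X * Real.sqrt X / Real.log X ^ A := by
    have h3 : (X : ℝ) * Real.sqrt X / Real.log X ^ (A + 1) +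
        X * Real.sqrt X / Real.log X ^ (A + 1) + 2 * (X * Real.sqrt X) / Real.log X ^ (A + 1) =
        (X * Real.sqrt X / Real.log X ^ A) * (4 / Real.log X) := by
      rw [pow_succ]
      field_simp
      ring
    rw [h3]
    have h4 : 4 / Real.log X ≤ 1 := by
      rw [div_le_one hL0]
      exact hX6
    have h5 : 0 ≤ (X : ℝ) * Real.sqrt X / Real.log X ^ A := by positivity
    calc _ ≤ (X * Real.sqrt X / Real.log X ^ A) * 1 := mul_le_mul_of_nonneg_left h4 h5
      _ = _ := mul_one _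
  linarith

end Pool.Agent.NRP
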