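import Pool.Agent.NRP.StO

/-!
# NRP: Markov's inequality for Theorem B
-/

set_option autoImplicit false

namespace Pool.Agent.NRP

open Finset Filter
open Pool.Agent.GBQ (ee nd gm lam LamS zz rho pr)

theorem thm_Ca (ha : St_Ba) (hb : St_Bb) : St_Ca := by
  intro A
  have hlog : Tendsto (fun X : ℕ => Real.log X) atTop atTop :=
    Real.tendsto_log_atTop.comp tendsto_natCast_atTop_atTop
  filter_upwards [ha (2 * A + 1), hb (2 * A + 1), hlog.eventually_ge_atTop 2,
    eventually_ge_atTop 1] with X h1 h2 h3 h4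
  have hX : (0 : ℝ) < X := by exact_mod_cast h4
  have hl : 0 < Real.log X := by linarith
  have hs : 0 < Real.sqrt X := Real.sqrt_pos.2 hX
  set l : ℝ := Real.log X with hldef
  set S := (Icc 1 (Nat.sqrt X)).filter (fun h => X / l ^ A < |T3a X h - SG h * X| ∨
    X / l ^ A < |T3b X h - SG h * X|) with hS
  have h5 : (S.card : ℝ) * (X / l ^ A) ≤ 2 * (X * Real.sqrt X / l ^ (2 * A + 1)) := by
    have h6 : ∑ h ∈ S, (X / l ^ A) ≤
        ∑ h ∈ S, (|T3a X h - SG h * X| + |T3b X h - SG h * X|) := by
      refine sum_le_sum fun h hh => ?_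
      rw [hS, mem_filter] at hh
      have e1 := abs_nonneg (T3a X h - SG h * X)
      have e2 := abs_nonneg (T3b X h - SG h * X)
      rcases hh.2 with h7 | h7 <;> linarith
    rw [sum_const, nsmul_eq_mul] at h6
    refine h6.trans ?_
    have h8 : ∑ h ∈ S, (|T3a X h - SG h * X| + |T3b X h - SG h * X|) ≤
        ∑ h ∈ Icc 1 (Nat.sqrt X), (|T3a X h - SG h * X| + |T3b X h - SG h * X|) := by
      refine sum_le_sum_of_subset_of_nonneg (filter_subset _ _) fun h _ _ => ?_
      positivity
    refine h8.trans ?_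
    rw [sum_add_distrib]
    linarith
  have h9 : (S.card : ℝ) ≤ 2 * (Real.sqrt X / l ^ (A + 1)) := by
    have h10 : (0 : ℝ) < X / l ^ A := by positivity
    have h11 : 2 * (X * Real.sqrt X / l ^ (2 * A + 1)) =
        (2 * (Real.sqrt X / l ^ (A + 1))) * (X / l ^ A) := by
      have : l ^ (2 * A + 1) = l ^ (A + 1) * l ^ A := by
        rw [← pow_add]
        congr 1
        ring
      rw [this]
      field_simp
    rw [h11] at h5
    exact le_of_mul_le_mul_right h5 h10
  refine h9.trans ?_
  rw [pow_succ, ← mul_div_assoc, div_le_div_iff₀ (by positivity) (by positivity)]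
  have h12 : 0 ≤ Real.sqrt X * l ^ A := by positivity
  nlinarith

end Pool.Agent.NRP
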