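import Mathlib
import Pool.Agent.NRP.StN

set_option autoImplicit false

/-!
# NRP: final statements (from sums over `Λ` to numbers of primes)
-/

namespace Pool.Agent.NRP

open Finset Filter
open Pool.Agent.GBQ (ee nd gm lam LamS zz rho pr)

/-- number of the `n ≤ X` for which `n, n + h, n + h² + h` are prime -/
def Pa (X h : ℕ) : ℕ :=
  ((Icc 1 X).filter (fun n => n.Prime ∧ (n + h).Prime ∧ (n + h ^ 2 + h).Prime)).card

/-- number of the `n ≤ X` for which `n, n + h², n + h² + h` are prime -/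
def Pb (X h : ℕ) : ℕ :=
  ((Icc 1 X).filter (fun n => n.Prime ∧ (n + h ^ 2).Prime ∧ (n + h ^ 2 + h).Prime)).card

/-- number of the `k ≤ √n` for which `n + k, n + k²` are prime -/
def Pk (n : ℕ) : ℕ :=
  ((Icc 1 (Nat.sqrt n)).filter (fun k => (n + k).Prime ∧ (n + k ^ 2).Prime)).card

/-- From `Λ` to primes.  At most `C √X` of the `n ≤ X` are such that one of the three numbers (`≤ 3X`) is a
proper power of a prime; the `n ≤ X / log^5 X` are negligible; otherwise the three logarithms are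
`log X + O(log log X)`. -/
def St_Cnt : Prop := ∀ ε : ℝ, 0 < ε → ∀ᶠ X : ℕ in atTop, ∀ h : ℕ, 1 ≤ h → h ≤ Nat.sqrt X →
  |T3a X h - Real.log X ^ 3 * Pa X h| ≤ ε * (Real.log X ^ 3 * Pa X h + X) ∧
  |T3b X h - Real.log X ^ 3 * Pb X h| ≤ ε * (Real.log X ^ 3 * Pb X h + X)

/-- Theorem B, `Λ`-form: Markov's inequality for `St_Ba`, `St_Bb` (with `2A + 1`). -/
def St_Ca : Prop := ∀ A : ℕ, ∀ᶠ X : ℕ in atTop,
  (((Icc 1 (Nat.sqrt X)).filter (fun h => X / Real.log X ^ A < |T3a X h - SG h * X| ∨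
    X / Real.log X ^ A < |T3b X h - SG h * X|)).card : ℝ) ≤ Real.sqrt X / Real.log X ^ A

/-- Theorem B: the asymptotic formula of Hardy and Littlewood for both patterns, for almost all
admissible `h ≤ √X`.  `St_Ca`, `St_Cnt`, `SG h ≥ c` (`St_Sing`). -/
def St_Cb : Prop := ∀ (A : ℕ) (ε : ℝ), 0 < ε → ∀ᶠ X : ℕ in atTop,
  (((Icc 1 (Nat.sqrt X)).filter (fun h => h % 2 = 0 ∧ h % 3 ≠ 1 ∧
    (ε * (SG h * X / Real.log X ^ 3) < |Pa X h - SG h * X / Real.log X ^ 3| ∨
      ε * (SG h * X / Real.log X ^ 3) < |Pb X h - SG h * X / Real.log X ^ 3|))).card : ℝ) ≤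
    Real.sqrt X / Real.log X ^ A

/-- The constant of the problem is `SG 2`: `{0, 2, 6}` has one class modulo `2`, two modulo `3`, three modulo
`p > 3`; partial products of an absolutely convergent product (`St_Sing`, first part). -/
def St_Cd : Prop := Tendsto (fun N : ℕ => (9 / 2 : ℝ) *
  ∏ p ∈ (Ioo 3 N).filter Nat.Prime, ((p : ℝ) ^ 2 * (p - 3) / ((p : ℝ) - 1) ^ 3)) atTop
  (nhds (SG 2))

/-- Theorem A, `Λ`-form: Markov's inequality for `St_Ab`. -/
def St_Ea : Prop := ∀ A : ℕ, ∃ B₀ : ℕ, ∀ B : ℕ, B₀ ≤ B → ∀ᶠ X : ℕ in atTop,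
  (((Icc 1 X).filter (fun n => Real.sqrt X / Real.log X ^ A <
    |∑ k ∈ Icc 1 (Nat.sqrt n), lam (n + k) * lam (n + k ^ 2) -
      Real.sqrt n * GA (zz B X) n|)).card : ℝ) ≤ X / Real.log X ^ A

/-- Theorem A: for almost all `n` there are many `k ≤ √n` with `n + k`, `n + k²` prime.  The `n ≤ X / log^(A+1) X`
are negligible; for the others `St_Ea` (with a larger `A`) and `St_GAl`: the `Λ`-sum is
`≥ c √n / log log X` (`zz B X`, `B = B₀(A)`); the number of pairs `(n, k)`, `n ≤ X`, `k ≤ √X`, with `n + k` or `n + k²` a proper power of a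
prime is at most `C √X √X`, so by Markov's inequality it is `≤ log^(A+2) X` for all but `X / log^(A+1) X` of the `n`;
`Λ(n + k) Λ(n + k²) ≤ log² (2n)`. -/
def St_Eb : Prop := ∀ A : ℕ, ∃ c : ℝ, 0 < c ∧ ∀ᶠ X : ℕ in atTop,
  (((Icc 1 X).filter (fun n : ℕ =>
    (Pk n : ℝ) < c * Real.sqrt n / (Real.log n ^ 2 * Real.log (Real.log n)))).card : ℝ) ≤
    X / Real.log X ^ A

end Pool.Agent.NRP
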