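import Mathlib
import Pool.Agent.NRP.StO

set_option autoImplicit false

/-!
# NRP: Cb
-/

namespace Pool.Agent.NRP

open Finset Filter

private theorem Cb_key {c ε e L X S P T : ℝ} (hc : 0 < c) (hε : 0 < ε) (he : 0 < e)
    (he2 : e ≤ 1 / 2) (he3 : e ≤ ε * c / (4 * (c + 1))) (hL1 : 1 ≤ L)
    (hL2 : 4 / (c * ε) ≤ L) (hX : 0 ≤ X) (hS : c * X ≤ S)
    (h1 : |T - S| ≤ X / L) (h2 : |T - P| ≤ e * (P + X)) : |P - S| ≤ ε * S := by
  have hL0 : 0 < L := by linarith
  have hS0 : 0 ≤ S := le_trans (by positivity) hS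
  -- `X / L ≤ ε S / 4`
  have h3 : X / L ≤ ε * S / 4 := by
    rw [div_le_iff₀ hL0]
    rw [div_le_iff₀ (by positivity)] at hL2
    have h4 : 4 * X ≤ L * (c * ε) * X := mul_le_mul_of_nonneg_right hL2 hX
    have h5 : L * ε * (c * X) ≤ L * ε * S := mul_le_mul_of_nonneg_left hS (by positivity)
    nlinarith
  -- `e (S + X) ≤ ε S / 4`
  have h4 : e * (S + X) ≤ ε * S / 4 := by
    rw [le_div_iff₀ (by positivity)] at he3
    have h5 : c * (S + X) ≤ (c + 1) * S := by nlinarith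
    have h6 : c * (e * (S + X)) ≤ c * (ε * S / 4) := by
      have h7 : e * (c * (S + X)) ≤ e * ((c + 1) * S) := mul_le_mul_of_nonneg_left h5 he.le
      have h8 : e * (4 * (c + 1)) * S ≤ ε * c * S := mul_le_mul_of_nonneg_right he3 hS0
      nlinarith
    exact le_of_mul_le_mul_left h6 hc
  have h5 : |P - S| ≤ |T - P| + |T - S| := by
    have h6 : P - S = -(T - P) + (T - S) := by ring
    rw [h6]
    refine (abs_add_le _ _).trans ?_
    rw [abs_neg]
  have h6 : P ≤ |P - S| + S := by linarith [le_abs_self (P - S)]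
  have h7 : e * (P + X) ≤ e * |P - S| + e * (S + X) := by nlinarith
  have h8 : e * |P - S| ≤ 1 / 2 * |P - S| := mul_le_mul_of_nonneg_right he2 (abs_nonneg _)
  linarith

private theorem Cb_div {ε L S P : ℝ} {Q : ℕ} (hL : 0 < L) (hP : P = L ^ 3 * Q)
    (h : |P - S| ≤ ε * S) : ¬ ε * (S / L ^ 3) < |(Q : ℝ) - S / L ^ 3| := by
  rw [not_lt]
  have h1 : (Q : ℝ) - S / L ^ 3 = (P - S) / L ^ 3 := by
    rw [hP]
    field_simp
  rw [h1, abs_div, abs_of_pos (pow_pos hL 3), mul_div_assoc']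
  exact div_le_div_of_nonneg_right h (pow_pos hL 3).le

theorem thm_Cb (hc : St_Ca) (hn : St_Cnt) (hS : St_Sing) : St_Cb := by
  obtain ⟨-, -, -, -, -, c, hc0, hlow⟩ := hS
  intro A ε hε
  have e1 : 0 < min (1 / 2) (ε * c / (4 * (c + 1))) := lt_min (by norm_num) (by positivity)
  have hL : ∀ᶠ X : ℕ in atTop, max 1 (4 / (c * ε)) ≤ Real.log X :=
    (Real.tendsto_log_atTop.comp tendsto_natCast_atTop_atTop).eventually_ge_atTop _
  filter_upwards [hc (A + 1), hn _ e1, hL] with X h1 h2 h3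
  have hL1 : 1 ≤ Real.log X := (le_max_left _ _).trans h3
  have hL2 := (le_max_right _ _).trans h3
  have hL0 : 0 < Real.log X := by linarith
  have hX0 : (0 : ℝ) ≤ X := Nat.cast_nonneg X
  have hpow : (X : ℝ) / Real.log X ^ (A + 1) ≤ X / Real.log X := by
    refine div_le_div_of_nonneg_left hX0 hL0 ?_
    calc Real.log X = Real.log X ^ 1 := (pow_one _).symm
      _ ≤ Real.log X ^ (A + 1) := pow_le_pow_right₀ hL1 (by omega)
  have hsub : (Icc 1 (Nat.sqrt X)).filter (fun h => h % 2 = 0 ∧ h % 3 ≠ 1 ∧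
      (ε * (SG h * X / Real.log X ^ 3) < |Pa X h - SG h * X / Real.log X ^ 3| ∨
        ε * (SG h * X / Real.log X ^ 3) < |Pb X h - SG h * X / Real.log X ^ 3|)) ⊆
      (Icc 1 (Nat.sqrt X)).filter (fun h => X / Real.log X ^ (A + 1) < |T3a X h - SG h * X| ∨
        X / Real.log X ^ (A + 1) < |T3b X h - SG h * X|) := by
    intro h hh
    rw [mem_filter, mem_Icc] at hh ⊢
    obtain ⟨⟨ha, hb⟩, hh2, hh3, hh4⟩ := hh
    refine ⟨⟨ha, hb⟩, ?_⟩
    by_contra hcon
    rw [not_or, not_lt, not_lt] at hcon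
    obtain ⟨h5, h6⟩ := h2 h ha hb
    have h7 : c * X ≤ SG h * X := mul_le_mul_of_nonneg_right (hlow h ha hh2 hh3) hX0
    rcases hh4 with hh4 | hh4
    · refine Cb_div hL0 rfl (Cb_key hc0 hε e1 (min_le_left _ _) (min_le_right _ _) hL1 hL2 hX0 h7
        (hcon.1.trans hpow) h5) hh4
    · refine Cb_div hL0 rfl (Cb_key hc0 hε e1 (min_le_left _ _) (min_le_right _ _) hL1 hL2 hX0 h7
        (hcon.2.trans hpow) h6) hh4
  refine (Nat.cast_le.mpr (card_le_card hsub)).trans (h1.trans ?_)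
  exact div_le_div_of_nonneg_left (Real.sqrt_nonneg _) (pow_pos hL0 A)
    (pow_le_pow_right₀ hL1 (by omega))

end Pool.Agent.NRP
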