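import Mathlib
import Pool.Agent.NRP.StO

set_option autoImplicit false

/-!
# NRP: Cd
-/

namespace Pool.Agent.NRP

open Finset Filter

/-- the triple for `h = 2` -/
private noncomputable def Cd_g (p : ℕ) : ℝ := locf {0, ((2 : ℕ) : ℤ), ((2 : ℕ) : ℤ) ^ 2 + (2 : ℕ)} 3 p

private theorem Cd_two : Cd_g 2 = 4 := by
  unfold Cd_g locf
  have h : (({0, ((2 : ℕ) : ℤ), ((2 : ℕ) : ℤ) ^ 2 + (2 : ℕ)} : Finset ℤ).image
      (fun x => x % ((2 : ℕ) : ℤ))).card = 1 := by decide
  rw [h]
  norm_num

private theorem Cd_three : Cd_g 3 = 9 / 8 := by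
  unfold Cd_g locf
  have h : (({0, ((2 : ℕ) : ℤ), ((2 : ℕ) : ℤ) ^ 2 + (2 : ℕ)} : Finset ℤ).image
      (fun x => x % ((3 : ℕ) : ℤ))).card = 2 := by decide
  rw [h]
  norm_num

private theorem Cd_large {p : ℕ} (hp : p.Prime) (h3 : 3 < p) :
    Cd_g p = (p : ℝ) ^ 2 * (p - 3) / ((p : ℝ) - 1) ^ 3 := by
  have h5 : 5 ≤ p := by
    rcases Nat.lt_or_ge p 5 with h | h
    · have : p = 4 := by omega
      subst this
      exact absurd hp (by norm_num)
    · exact h
  have hcard : (({0, ((2 : ℕ) : ℤ), ((2 : ℕ) : ℤ) ^ 2 + (2 : ℕ)} : Finset ℤ).image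
      (fun x => x % (p : ℤ))).card = 3 := by
    rw [card_image_of_injOn]
    · decide
    · intro x hx y hy hxy
      have hd : (p : ℤ) ∣ x - y := Int.ModEq.dvd (Int.ModEq.symm hxy)
      simp only [coe_insert, coe_singleton, Set.mem_insert_iff, Set.mem_singleton_iff] at hx hy
      have key : ∀ m : ℕ, (p : ℤ) ∣ (m : ℤ) → m ∣ 12 → m = 0 := by
        intro m hm h12
        exfalso
        have h1 : p ∣ m := by exact_mod_cast hm
        have h2 : p ∣ 12 := h1.trans h12
        have h4 : p ∣ 2 ^ 2 * 3 := by norm_num; exact h2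
        rcases (Nat.Prime.dvd_mul hp).mp h4 with h | h
        · have := Nat.le_of_dvd (by norm_num) (hp.dvd_of_dvd_pow h)
          omega
        · have := Nat.le_of_dvd (by norm_num) h
          omega
      have k2 := key 2
      have k4 := key 4
      have k6 := key 6
      rcases hx with rfl | rfl | rfl <;> rcases hy with rfl | rfl | rfl <;> norm_num at hd ⊢
      all_goals first
        | exact absurd (k2 (by simpa using hd) (by norm_num)) (by norm_num)
        | exact absurd (k4 (by simpa using hd) (by norm_num)) (by norm_num)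
        | exact absurd (k6 (by simpa using hd) (by norm_num)) (by norm_num)
  unfold Cd_g locf
  rw [hcard]
  have hp0 : (p : ℝ) ≠ 0 := by positivity
  have hp1 : (p : ℝ) - 1 ≠ 0 := by
    have : (5 : ℝ) ≤ p := by exact_mod_cast h5
    intro h
    linarith
  have h6 : 1 - 1 / (p : ℝ) = ((p : ℝ) - 1) / p := by field_simp
  rw [h6]
  push_cast
  field_simp

private theorem Cd_range {N : ℕ} (hN : 4 ≤ N) :
    ∏ p ∈ (range N).filter Nat.Prime, Cd_g p = (9 / 2 : ℝ) *
      ∏ p ∈ (Ioo 3 N).filter Nat.Prime, ((p : ℝ) ^ 2 * (p - 3) / ((p : ℝ) - 1) ^ 3) := by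
  have h1 : (range N).filter Nat.Prime = {2, 3} ∪ (Ioo 3 N).filter Nat.Prime := by
    ext p
    simp only [mem_filter, mem_range, mem_union, mem_insert, mem_singleton, mem_Ioo]
    constructor
    · rintro ⟨h, hp⟩
      have := hp.two_le
      by_cases h2 : 3 < p
      · exact Or.inr ⟨⟨h2, h⟩, hp⟩
      · left
        omega
    · rintro ((rfl | rfl) | ⟨⟨h, h'⟩, hp⟩)
      · exact ⟨by omega, Nat.prime_two⟩
      · exact ⟨by omega, Nat.prime_three⟩
      · exact ⟨h', hp⟩
  have h2 : Disjoint ({2, 3} : Finset ℕ) ((Ioo 3 N).filter Nat.Prime) := by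
    rw [disjoint_left]
    intro p hp hp'
    simp only [mem_insert, mem_singleton, mem_filter, mem_Ioo] at hp hp'
    omega
  rw [h1, prod_union h2, prod_pair (by norm_num), Cd_two, Cd_three]
  congr 1
  · norm_num
  · refine prod_congr rfl fun p hp => ?_
    simp only [mem_filter, mem_Ioo] at hp
    exact Cd_large hp.2 hp.1.1

theorem thm_Cd (hS : St_Sing) : St_Cd := by
  have hm := hS.1 2 (by norm_num)
  have h1 : HasProd (fun p : Nat.Primes => Cd_g p) (SG 2) := hm.hasProd
  have h2 : HasProd (Set.mulIndicator {p : ℕ | p.Prime} Cd_g) (SG 2) := by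
    rw [← hasProd_subtype_iff_mulIndicator]
    exact h1
  have h3 := h2.tendsto_prod_nat
  unfold St_Cd
  refine h3.congr' ?_
  filter_upwards [eventually_ge_atTop 4] with N hN
  rw [← Cd_range hN, prod_filter]
  refine prod_congr rfl fun p _ => ?_
  rw [Set.mulIndicator_apply]
  rfl

end Pool.Agent.NRP
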