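import Pool.Agent.NRP.StO

set_option autoImplicit false

/-! NRP Cnt: from sums over the function of von Mangoldt to numbers of primes. -/

namespace Pool.Agent.NRP

open Finset Filter
open Pool.Agent.GBQ (lam)

/-- the part of a sum over `Λ` on prime powers which are not primes -/
theorem cnt_nonprime (X a : ℕ) (ha : a ≤ 2 * X) (hX : 1 ≤ X) :
    ∑ n ∈ Icc 1 X, (if (n + a).Prime then 0 else lam (n + a)) ≤
      2 * Real.sqrt (3 * X) * Real.log (3 * X) := by
  have h1 : Chebyshev.psi (3 * X : ℝ) - Chebyshev.theta (3 * X : ℝ) ≤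
      2 * Real.sqrt (3 * X) * Real.log (3 * X) := by
    apply Chebyshev.psi_sub_theta_le
    have : (1 : ℝ) ≤ X := by exact_mod_cast hX
    linarith
  refine le_trans ?_ h1
  rw [Chebyshev.psi_sub_theta_eq_sum_not_prime]
  have h2 : ⌊(3 * X : ℝ)⌋₊ = 3 * X := by
    have : (3 * X : ℝ) = ((3 * X : ℕ) : ℝ) := by push_cast; ring
    rw [this, Nat.floor_natCast]
  rw [h2]
  have h0 : ∑ n ∈ Icc 1 X, (if (n + a).Prime then 0 else lam (n + a)) =
      ∑ n ∈ (Icc 1 X).filter (fun n => ¬ (n + a).Prime), lam (n + a) := by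
    rw [sum_filter]
    refine sum_congr rfl fun n _ => ?_
    by_cases h : (n + a).Prime <;> simp [h]
  have h3 : ∑ n ∈ (Icc 1 X).filter (fun n => ¬ (n + a).Prime), lam (n + a) =
      ∑ m ∈ ((Icc 1 X).filter (fun n => ¬ (n + a).Prime)).image (fun n => n + a), lam m := by
    rw [sum_image]
    intro x _ y _ h
    simpa using h
  rw [h0, h3]
  apply sum_le_sum_of_subset_of_nonneg
  · intro m hm
    simp only [mem_image, mem_filter, mem_Icc] at hm
    obtain ⟨n, ⟨⟨h4, h5⟩, h6⟩, rfl⟩ := hm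
    simp only [mem_filter, mem_Ioc]
    refine ⟨⟨by omega, by omega⟩, h6⟩
  · intro m _ _
    exact ArithmeticFunction.vonMangoldt_nonneg

theorem cnt_lam_le (X m : ℕ) (h1 : m ≤ 3 * X) (hX : 1 ≤ X) : lam m ≤ Real.log (3 * X) := by
  have h3 : (1 : ℝ) ≤ X := by exact_mod_cast hX
  rcases Nat.eq_zero_or_pos m with rfl | hm
  · simp only [lam, ArithmeticFunction.map_zero]
    exact Real.log_nonneg (by linarith)
  · refine le_trans ArithmeticFunction.vonMangoldt_le_log ?_
    apply Real.log_le_log (by exact_mod_cast hm)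
    exact_mod_cast h1

theorem cnt_lam_nonneg (m : ℕ) : 0 ≤ lam m := ArithmeticFunction.vonMangoldt_nonneg

/-- one term -/
theorem cnt_term (X n a b : ℕ) (δ : ℝ) (hδ : 0 < δ) (hδ1 : δ ≤ 1) (hX : 1 ≤ X) (hn : 1 ≤ n)
    (hnX : n ≤ X) (ha : a ≤ 2 * X) (hb : b ≤ 2 * X)
    (hL : Real.log (3 * X) ≤ (1 + δ) * Real.log X)
    (h1 : n.Prime) (h2 : (n + a).Prime) (h3 : (n + b).Prime) :
    |lam n * lam (n + a) * lam (n + b) - Real.log X ^ 3| ≤
      ((1 + δ) ^ 3 - 1) * Real.log X ^ 3 +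
        (if (n : ℝ) < (X : ℝ) ^ (1 - δ) then ((1 + δ) * Real.log X) ^ 3 else 0) := by
  have hX' : (1 : ℝ) ≤ X := by exact_mod_cast hX
  have hL0 : 0 ≤ Real.log X := Real.log_nonneg hX'
  have e1 : lam n = Real.log n := ArithmeticFunction.vonMangoldt_apply_prime h1
  have e2 : lam (n + a) = Real.log ((n + a : ℕ) : ℝ) := ArithmeticFunction.vonMangoldt_apply_prime h2
  have e3 : lam (n + b) = Real.log ((n + b : ℕ) : ℝ) := ArithmeticFunction.vonMangoldt_apply_prime h3
  have u1 := (cnt_lam_le X n (by omega) hX).trans hL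
  have u2 := (cnt_lam_le X (n + a) (by omega) hX).trans hL
  have u3 := (cnt_lam_le X (n + b) (by omega) hX).trans hL
  have p1 := cnt_lam_nonneg n
  have p2 := cnt_lam_nonneg (n + a)
  have p3 := cnt_lam_nonneg (n + b)
  have hup : lam n * lam (n + a) * lam (n + b) ≤ ((1 + δ) * Real.log X) ^ 3 := by
    calc lam n * lam (n + a) * lam (n + b) ≤ ((1 + δ) * Real.log X) * ((1 + δ) * Real.log X) *
        ((1 + δ) * Real.log X) := by gcongr
      _ = _ := by ring
  have hlow0 : 0 ≤ lam n * lam (n + a) * lam (n + b) := by positivity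
  have hL3 : 0 ≤ Real.log X ^ 3 := by positivity
  have hc : 1 ≤ (1 + δ) ^ 3 := one_le_pow₀ (by linarith)
  have hc1 : Real.log X ^ 3 ≤ ((1 + δ) * Real.log X) ^ 3 := by
    rw [mul_pow]
    nlinarith
  split_ifs with hs
  · rw [abs_le]
    constructor
    · nlinarith
    · have : ((1 + δ) * Real.log X) ^ 3 = (1 + δ) ^ 3 * Real.log X ^ 3 := by ring
      nlinarith
  · have hs := not_lt.1 hs
    have hn0 : (0 : ℝ) < n := by exact_mod_cast hn
    have l1 : (1 - δ) * Real.log X ≤ Real.log n := by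
      rw [← Real.log_rpow (by linarith)]
      exact Real.log_le_log (by positivity) hs
    have l2 : (1 - δ) * Real.log X ≤ Real.log ((n + a : ℕ) : ℝ) := by
      refine l1.trans (Real.log_le_log hn0 ?_)
      push_cast
      have : (0 : ℝ) ≤ a := by positivity
      linarith
    have l3 : (1 - δ) * Real.log X ≤ Real.log ((n + b : ℕ) : ℝ) := by
      refine l1.trans (Real.log_le_log hn0 ?_)
      push_cast
      have : (0 : ℝ) ≤ b := by positivity
      linarith
    have hlow : ((1 - δ) * Real.log X) ^ 3 ≤ lam n * lam (n + a) * lam (n + b) := by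
      rw [e1, e2, e3]
      have h0 : 0 ≤ (1 - δ) * Real.log X := mul_nonneg (by linarith) hL0
      calc ((1 - δ) * Real.log X) ^ 3 = ((1 - δ) * Real.log X) * ((1 - δ) * Real.log X) *
          ((1 - δ) * Real.log X) := by ring
        _ ≤ _ := by
          apply mul_le_mul (mul_le_mul l1 l2 h0 (h0.trans l1)) l3 h0
          exact mul_nonneg (h0.trans l1) (h0.trans l2)
    rw [abs_le, add_zero]
    constructor
    · have e4 : ((1 - δ) * Real.log X) ^ 3 = (1 - δ) ^ 3 * Real.log X ^ 3 := by ring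
      have e5 : (1 - (1 - δ) ^ 3) ≤ (1 + δ) ^ 3 - 1 := by nlinarith [mul_pos hδ hδ]
      have := mul_le_mul_of_nonneg_right e5 hL3
      nlinarith
    · have : ((1 + δ) * Real.log X) ^ 3 = (1 + δ) ^ 3 * Real.log X ^ 3 := by ring
      nlinarith

/-- the general inequality -/
theorem cnt_main (X a b : ℕ) (δ : ℝ) (hδ : 0 < δ) (hδ1 : δ ≤ 1) (hX : 1 ≤ X)
    (ha : a ≤ 2 * X) (hb : b ≤ 2 * X) (hL : Real.log (3 * X) ≤ (1 + δ) * Real.log X) :
    |∑ n ∈ Icc 1 X, lam n * lam (n + a) * lam (n + b) - Real.log X ^ 3 *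
      (((Icc 1 X).filter (fun n => n.Prime ∧ (n + a).Prime ∧ (n + b).Prime)).card : ℝ)| ≤
    ((1 + δ) ^ 3 - 1) * (Real.log X ^ 3 *
      (((Icc 1 X).filter (fun n => n.Prime ∧ (n + a).Prime ∧ (n + b).Prime)).card : ℝ)) +
      ((X : ℝ) ^ (1 - δ) * ((1 + δ) * Real.log X) ^ 3 +
        6 * ((1 + δ) * Real.log X) ^ 3 * Real.sqrt (3 * X)) := by
  classical
  have hX' : (1 : ℝ) ≤ X := by exact_mod_cast hX
  have hL0 : 0 ≤ Real.log X := Real.log_nonneg hX'
  set G : ℕ → Prop := fun n => n.Prime ∧ (n + a).Prime ∧ (n + b).Prime with hG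
  set M : ℝ := (1 + δ) * Real.log X with hM
  have hM0 : 0 ≤ M := by positivity
  set F : ℕ → ℝ := fun n => lam n * lam (n + a) * lam (n + b) with hF
  have hF0 : ∀ n, 0 ≤ F n := fun n =>
    mul_nonneg (mul_nonneg (cnt_lam_nonneg _) (cnt_lam_nonneg _)) (cnt_lam_nonneg _)
  have hsplit : ∑ n ∈ Icc 1 X, F n = ∑ n ∈ (Icc 1 X).filter G, F n +
      ∑ n ∈ (Icc 1 X).filter (fun n => ¬ G n), F n := by
    rw [sum_filter_add_sum_filter_not]
  have hcard : Real.log X ^ 3 * (((Icc 1 X).filter G).card : ℝ) =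
      ∑ n ∈ (Icc 1 X).filter G, Real.log X ^ 3 := by
    rw [sum_const, nsmul_eq_mul]; ring
  -- the good part
  have hgood : |∑ n ∈ (Icc 1 X).filter G, F n - Real.log X ^ 3 * (((Icc 1 X).filter G).card : ℝ)| ≤
      ((1 + δ) ^ 3 - 1) * (Real.log X ^ 3 * (((Icc 1 X).filter G).card : ℝ)) +
        (X : ℝ) ^ (1 - δ) * M ^ 3 := by
    rw [hcard, ← sum_sub_distrib]
    refine le_trans (abs_sum_le_sum_abs _ _) ?_
    have h1 : ∑ n ∈ (Icc 1 X).filter G, |F n - Real.log X ^ 3| ≤
        ∑ n ∈ (Icc 1 X).filter G, (((1 + δ) ^ 3 - 1) * Real.log X ^ 3 +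
          (if (n : ℝ) < (X : ℝ) ^ (1 - δ) then M ^ 3 else 0)) := by
      refine sum_le_sum fun n hn => ?_
      rw [mem_filter, mem_Icc] at hn
      exact cnt_term X n a b δ hδ hδ1 hX hn.1.1 hn.1.2 ha hb hL hn.2.1 hn.2.2.1 hn.2.2.2
    refine h1.trans ?_
    rw [sum_add_distrib, ← mul_sum]
    refine add_le_add le_rfl ?_
    have h2 : ∑ n ∈ (Icc 1 X).filter G, (if (n : ℝ) < (X : ℝ) ^ (1 - δ) then M ^ 3 else 0) ≤
        ∑ n ∈ Icc 1 X, (if (n : ℝ) < (X : ℝ) ^ (1 - δ) then M ^ 3 else 0) := by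
      apply sum_le_sum_of_subset_of_nonneg (filter_subset _ _)
      intro n _ _
      split_ifs
      · positivity
      · exact le_rfl
    refine h2.trans ?_
    rw [← sum_filter, sum_const, nsmul_eq_mul]
    refine mul_le_mul_of_nonneg_right ?_ (by positivity)
    have h3 : ((Icc 1 X).filter (fun n : ℕ => (n : ℝ) < (X : ℝ) ^ (1 - δ))) ⊆
        Icc 1 ⌊(X : ℝ) ^ (1 - δ)⌋₊ := by
      intro n hn
      rw [mem_filter, mem_Icc] at hn
      rw [mem_Icc]
      exact ⟨hn.1.1, Nat.le_floor hn.2.le⟩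
    have h4 := card_le_card h3
    rw [Nat.card_Icc, Nat.add_sub_cancel] at h4
    calc (((Icc 1 X).filter (fun n : ℕ => (n : ℝ) < (X : ℝ) ^ (1 - δ))).card : ℝ) ≤
        (⌊(X : ℝ) ^ (1 - δ)⌋₊ : ℝ) := by exact_mod_cast h4
      _ ≤ _ := Nat.floor_le (by positivity)
  -- the bad part
  have hbad : ∑ n ∈ (Icc 1 X).filter (fun n => ¬ G n), F n ≤
      6 * M ^ 3 * Real.sqrt (3 * X) := by
    have h1 : ∀ n ∈ (Icc 1 X).filter (fun n => ¬ G n), F n ≤
        M ^ 2 * (if (n + 0).Prime then 0 else lam (n + 0)) +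
        M ^ 2 * (if (n + a).Prime then 0 else lam (n + a)) +
        M ^ 2 * (if (n + b).Prime then 0 else lam (n + b)) := by
      intro n hn
      rw [mem_filter, mem_Icc] at hn
      obtain ⟨⟨hn1, hn2⟩, hn3⟩ := hn
      have u1 := (cnt_lam_le X n (by omega) hX).trans hL
      have u2 := (cnt_lam_le X (n + a) (by omega) hX).trans hL
      have u3 := (cnt_lam_le X (n + b) (by omega) hX).trans hL
      have p1 := cnt_lam_nonneg n
      have p2 := cnt_lam_nonneg (n + a)
      have p3 := cnt_lam_nonneg (n + b)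
      have q1 : 0 ≤ M ^ 2 * (if (n + 0).Prime then 0 else lam (n + 0)) := by
        split_ifs
        · simp
        · exact mul_nonneg (by positivity) p1
      have q2 : 0 ≤ M ^ 2 * (if (n + a).Prime then 0 else lam (n + a)) := by
        split_ifs
        · simp
        · exact mul_nonneg (by positivity) p2
      have q3 : 0 ≤ M ^ 2 * (if (n + b).Prime then 0 else lam (n + b)) := by
        split_ifs
        · simp
        · exact mul_nonneg (by positivity) p3
      by_cases k1 : n.Prime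
      · by_cases k2 : (n + a).Prime
        · have k3 : ¬ (n + b).Prime := fun k3 => hn3 ⟨k1, k2, k3⟩
          have : F n ≤ M ^ 2 * lam (n + b) := by
            rw [hF, sq]
            exact mul_le_mul_of_nonneg_right (mul_le_mul u1 u2 p2 hM0) p3
          rw [if_neg k3]
          linarith
        · have : F n ≤ M ^ 2 * lam (n + a) := by
            calc F n = (lam n * lam (n + b)) * lam (n + a) := by rw [hF]; ring
              _ ≤ (M * M) * lam (n + a) :=
                mul_le_mul_of_nonneg_right (mul_le_mul u1 u3 p3 hM0) p2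
              _ = _ := by ring
          rw [if_neg k2]
          rw [if_neg k2] at q2
          linarith
      · have : F n ≤ M ^ 2 * lam (n + 0) := by
          calc F n = (lam (n + a) * lam (n + b)) * lam (n + 0) := by rw [hF, add_zero]; ring
            _ ≤ (M * M) * lam (n + 0) :=
              mul_le_mul_of_nonneg_right (mul_le_mul u2 u3 p3 hM0) (cnt_lam_nonneg _)
            _ = _ := by ring
        have k1' : ¬ (n + 0).Prime := k1
        rw [if_neg k1']
        rw [if_neg k1'] at q1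
        linarith
    refine (sum_le_sum h1).trans ?_
    have h2 : ∑ n ∈ (Icc 1 X).filter (fun n => ¬ G n),
        (M ^ 2 * (if (n + 0).Prime then 0 else lam (n + 0)) +
        M ^ 2 * (if (n + a).Prime then 0 else lam (n + a)) +
        M ^ 2 * (if (n + b).Prime then 0 else lam (n + b))) ≤
        ∑ n ∈ Icc 1 X, (M ^ 2 * (if (n + 0).Prime then 0 else lam (n + 0)) +
        M ^ 2 * (if (n + a).Prime then 0 else lam (n + a)) +
        M ^ 2 * (if (n + b).Prime then 0 else lam (n + b))) := by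
      apply sum_le_sum_of_subset_of_nonneg (filter_subset _ _)
      intro n _ _
      have q : ∀ c : ℕ, 0 ≤ M ^ 2 * (if (n + c).Prime then 0 else lam (n + c)) := by
        intro c
        split_ifs
        · simp
        · exact mul_nonneg (by positivity) (cnt_lam_nonneg _)
      exact add_nonneg (add_nonneg (q 0) (q a)) (q b)
    refine h2.trans ?_
    rw [sum_add_distrib, sum_add_distrib, ← mul_sum, ← mul_sum, ← mul_sum]
    have r1 := cnt_nonprime X 0 (by omega) hX
    have r2 := cnt_nonprime X a ha hX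
    have r3 := cnt_nonprime X b hb hX
    have r4 : 2 * Real.sqrt (3 * X) * Real.log (3 * X) ≤ 2 * Real.sqrt (3 * X) * M :=
      mul_le_mul_of_nonneg_left hL (by positivity)
    have hM2 : 0 ≤ M ^ 2 := by positivity
    have s1 := mul_le_mul_of_nonneg_left (r1.trans r4) hM2
    have s2 := mul_le_mul_of_nonneg_left (r2.trans r4) hM2
    have s3 := mul_le_mul_of_nonneg_left (r3.trans r4) hM2
    have : M ^ 2 * (2 * Real.sqrt (3 * X) * M) = 2 * M ^ 3 * Real.sqrt (3 * X) := by ring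
    linarith
  have hbad0 : 0 ≤ ∑ n ∈ (Icc 1 X).filter (fun n => ¬ G n), F n := sum_nonneg fun n _ => hF0 n
  rw [hsplit]
  rw [abs_le] at hgood ⊢
  have hp : 0 ≤ (X : ℝ) ^ (1 - δ) * M ^ 3 := by positivity
  have hq : 0 ≤ 6 * M ^ 3 * Real.sqrt (3 * X) := by positivity
  constructor
  · linarith [hgood.1]
  · linarith [hgood.2]

theorem cnt_ev (c s : ℝ) (hs : 0 < s) : ∀ᶠ X : ℕ in atTop, c * Real.log X ^ 3 ≤ (X : ℝ) ^ s := by
  have h := isLittleO_log_rpow_rpow_atTop 3 hs
  have hc0 : 0 < |c| + 1 := by positivity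
  have h1 := h.bound (c := 1 / (|c| + 1)) (by positivity)
  have h2 := tendsto_natCast_atTop_atTop (R := ℝ) |>.eventually h1
  filter_upwards [h2, eventually_ge_atTop 1] with X hX hX1
  have hX' : (1 : ℝ) ≤ X := by exact_mod_cast hX1
  have hL0 : 0 ≤ Real.log X := Real.log_nonneg hX'
  have g1 : (0 : ℝ) ≤ Real.log (X : ℝ) ^ (3 : ℝ) := Real.rpow_nonneg hL0 _
  have g2 : (0 : ℝ) ≤ (X : ℝ) ^ s := Real.rpow_nonneg (by linarith) _
  rw [Real.norm_of_nonneg g1, Real.norm_of_nonneg g2] at hX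
  have e : Real.log (X : ℝ) ^ (3 : ℝ) = Real.log X ^ 3 := by
    rw [← Real.rpow_natCast]; norm_num
  rw [e] at hX
  have hL3 : 0 ≤ Real.log X ^ 3 := by positivity
  have hc : c ≤ |c| + 1 := (le_abs_self c).trans (by linarith)
  calc c * Real.log X ^ 3 ≤ (|c| + 1) * Real.log X ^ 3 := mul_le_mul_of_nonneg_right hc hL3
    _ ≤ (|c| + 1) * (1 / (|c| + 1) * (X : ℝ) ^ s) := mul_le_mul_of_nonneg_left hX hc0.le
    _ = (X : ℝ) ^ s := by field_simp

theorem thm_Cnt : St_Cnt := by
  intro ε hε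
  set δ : ℝ := min ε 1 / 7 with hδd
  have hδ : 0 < δ := by
    have : 0 < min ε 1 := lt_min hε one_pos
    positivity
  have hδ1 : δ ≤ 1 := by
    have : min ε 1 ≤ 1 := min_le_right _ _
    linarith
  have hδε : (1 + δ) ^ 3 - 1 ≤ ε := by
    have h1 : 7 * δ ≤ ε := by
      have : min ε 1 ≤ ε := min_le_left _ _
      rw [hδd]; linarith
    have h2 : (1 + δ) ^ 3 - 1 ≤ 7 * δ := by nlinarith [mul_pos hδ hδ, mul_nonneg hδ.le hδ.le]
    linarith
  have hlog : ∀ᶠ X : ℕ in atTop, Real.log (3 * X) ≤ (1 + δ) * Real.log X := by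
    have h1 := (Real.tendsto_log_atTop.comp (tendsto_natCast_atTop_atTop (R := ℝ))).eventually_ge_atTop
      (Real.log 3 / δ)
    filter_upwards [h1, eventually_ge_atTop 1] with X hX hX1
    have hX' : (1 : ℝ) ≤ X := by exact_mod_cast hX1
    rw [Real.log_mul (by norm_num) (by linarith)]
    simp only [Function.comp_apply] at hX
    rw [div_le_iff₀ hδ] at hX
    linarith
  filter_upwards [hlog, eventually_ge_atTop 1, cnt_ev ((1 + δ) ^ 3 * (2 / ε)) δ hδ,
    cnt_ev (6 * (1 + δ) ^ 3 * Real.sqrt 3 * (2 / ε)) (1 / 2) (by norm_num)] with X hL hX h1 h2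
  have hX' : (1 : ℝ) ≤ X := by exact_mod_cast hX
  have hX0 : (0 : ℝ) < X := by linarith
  have hL0 : 0 ≤ Real.log X := Real.log_nonneg hX'
  have E1 : (X : ℝ) ^ (1 - δ) * ((1 + δ) * Real.log X) ^ 3 ≤ ε / 2 * X := by
    have h3 : ((1 + δ) * Real.log X) ^ 3 ≤ ε / 2 * (X : ℝ) ^ δ := by
      have e : ((1 + δ) * Real.log X) ^ 3 = ε / 2 * ((1 + δ) ^ 3 * (2 / ε) * Real.log X ^ 3) := by
        field_simp
      rw [e]
      exact mul_le_mul_of_nonneg_left h1 (by positivity)
    calc (X : ℝ) ^ (1 - δ) * ((1 + δ) * Real.log X) ^ 3 ≤ (X : ℝ) ^ (1 - δ) * (ε / 2 * (X : ℝ) ^ δ) :=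
        mul_le_mul_of_nonneg_left h3 (by positivity)
      _ = ε / 2 * ((X : ℝ) ^ (1 - δ) * (X : ℝ) ^ δ) := by ring
      _ = ε / 2 * X := by
        rw [← Real.rpow_add hX0]
        norm_num
  have E2 : 6 * ((1 + δ) * Real.log X) ^ 3 * Real.sqrt (3 * X) ≤ ε / 2 * X := by
    have e : 6 * ((1 + δ) * Real.log X) ^ 3 * Real.sqrt (3 * X) =
        ε / 2 * (6 * (1 + δ) ^ 3 * Real.sqrt 3 * (2 / ε) * Real.log X ^ 3) * Real.sqrt X := by
      rw [Real.sqrt_mul (by norm_num)]
      field_simp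
    rw [e]
    calc ε / 2 * (6 * (1 + δ) ^ 3 * Real.sqrt 3 * (2 / ε) * Real.log X ^ 3) * Real.sqrt X ≤
        ε / 2 * (X : ℝ) ^ (1 / 2 : ℝ) * Real.sqrt X := by
          apply mul_le_mul_of_nonneg_right _ (Real.sqrt_nonneg _)
          exact mul_le_mul_of_nonneg_left h2 (by positivity)
      _ = ε / 2 * (Real.sqrt X * Real.sqrt X) := by rw [← Real.sqrt_eq_rpow]; ring
      _ = ε / 2 * X := by rw [Real.mul_self_sqrt hX0.le]
  have key : ∀ a b : ℕ, a ≤ 2 * X → b ≤ 2 * X →
      |∑ n ∈ Icc 1 X, lam n * lam (n + a) * lam (n + b) - Real.log X ^ 3 *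
        (((Icc 1 X).filter (fun n => n.Prime ∧ (n + a).Prime ∧ (n + b).Prime)).card : ℝ)| ≤
      ε * (Real.log X ^ 3 *
        (((Icc 1 X).filter (fun n => n.Prime ∧ (n + a).Prime ∧ (n + b).Prime)).card : ℝ) + X) := by
    intro a b ha hb
    have h3 := cnt_main X a b δ hδ hδ1 hX ha hb hL
    have h4 : 0 ≤ Real.log X ^ 3 *
        (((Icc 1 X).filter (fun n => n.Prime ∧ (n + a).Prime ∧ (n + b).Prime)).card : ℝ) := by
      positivity
    have h5 := mul_le_mul_of_nonneg_right hδε h4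
    linarith
  intro h hh1 hh2
  have hs : h ^ 2 ≤ X := by
    calc h ^ 2 ≤ (Nat.sqrt X) ^ 2 := Nat.pow_le_pow_left hh2 2
      _ ≤ X := Nat.sqrt_le' X
  have hs2 : h ≤ X := hh2.trans (Nat.sqrt_le_self X)
  constructor
  · have := key h (h ^ 2 + h) (by omega) (by omega)
    simpa only [T3a, Pa, ← add_assoc] using this
  · have := key (h ^ 2) (h ^ 2 + h) (by omega) (by omega)
    simpa only [T3b, Pb, ← add_assoc] using this

end Pool.Agent.NRP
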