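import Pool.Agent.NRP.StO

set_option autoImplicit false

/-!
# NRP [Ea]: Markov's inequality for Theorem A
-/

namespace Pool.Agent.NRP

open Finset Filter
open Pool.Agent.GBQ (ee nd gm lam LamS zz rho pr)

/-- Markov's inequality -/
private theorem Ea_markov (S : Finset ℕ) (f : ℕ → ℝ) (hf : ∀ n, 0 ≤ f n) (a b : ℝ) (ha : 0 < a)
    (h : ∑ n ∈ S, f n ≤ a * b) : ((S.filter (fun n => a < f n)).card : ℝ) ≤ b := by
  have h1 : ((S.filter (fun n => a < f n)).card : ℝ) * a ≤ ∑ n ∈ S.filter (fun n => a < f n), f n := by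
    rw [← nsmul_eq_mul, ← Finset.sum_const]
    exact Finset.sum_le_sum fun n hn => (Finset.mem_filter.1 hn).2.le
  have h2 : ∑ n ∈ S.filter (fun n => a < f n), f n ≤ ∑ n ∈ S, f n :=
    Finset.sum_le_sum_of_subset_of_nonneg (Finset.filter_subset _ _) fun n _ _ => hf n
  have h3 : a * ((S.filter (fun n => a < f n)).card : ℝ) ≤ a * b := by
    rw [mul_comm a]
    exact (h1.trans h2).trans h
  exact le_of_mul_le_mul_left h3 ha

theorem thm_Ea (ha : St_Ab) : St_Ea := by
  intro A
  obtain ⟨B₀, h⟩ := ha (2 * A)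
  refine ⟨B₀, fun B hB => ?_⟩
  filter_upwards [h B hB, eventually_ge_atTop 3] with X hX hX3
  have hX0 : (1 : ℝ) < X := by exact_mod_cast (by omega : 1 < X)
  have hL : 0 < Real.log X := Real.log_pos hX0
  have hs : 0 < Real.sqrt X := Real.sqrt_pos.2 (by linarith)
  refine Ea_markov (Icc 1 X) _ (fun n => abs_nonneg _) _ _ (div_pos hs (pow_pos hL A))
    (hX.trans (le_of_eq ?_))
  rw [two_mul, pow_add]
  field_simp

end Pool.Agent.NRP
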