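import Mathlib
import Pool.Agent.NRP.StO

set_option autoImplicit false

/-!
# NRP, module Eb: many `k` for almost all `n`
-/

namespace Pool.Agent.NRP

open Finset Filter
open Pool.Agent.GBQ (ee nd gm lam LamS zz rho pr)

/-- proper prime powers -/
def Eb_PP (m : ℕ) : Prop := IsPrimePow m ∧ ¬ m.Prime

open Classical in
theorem Eb_count (Y : ℕ) : ((Icc 1 Y).filter Eb_PP).card ≤ Nat.sqrt Y * Nat.log 2 Y := by
  have h : (Icc 1 Y).filter Eb_PP ⊆
      ((Icc 1 (Nat.sqrt Y)) ×ˢ (Icc 1 (Nat.log 2 Y))).image (fun q => q.1 ^ q.2) := by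
    intro m hm
    rw [mem_filter, mem_Icc] at hm
    obtain ⟨⟨h1, h2⟩, h3, h4⟩ := hm
    obtain ⟨p, k, hp, hk, rfl⟩ := (isPrimePow_nat_iff m).1 h3
    have hk2 : 2 ≤ k := by
      by_contra h
      have h5 : k = 1 := by omega
      rw [h5, pow_one] at h4
      exact h4 hp
    rw [mem_image]
    refine ⟨(p, k), mem_product.2 ⟨mem_Icc.2 ⟨hp.one_le, ?_⟩, mem_Icc.2 ⟨by omega, ?_⟩⟩, rfl⟩
    · rw [Nat.le_sqrt']
      exact (Nat.pow_le_pow_right hp.pos hk2).trans h2
    · apply Nat.le_log_of_pow_le (by norm_num)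
      exact (Nat.pow_le_pow_left hp.two_le k).trans h2
  calc ((Icc 1 Y).filter Eb_PP).card ≤ _ := card_le_card h
    _ ≤ _ := card_image_le
    _ = Nat.sqrt Y * Nat.log 2 Y := by simp

open Classical in
/-- the number of the bad `k` -/
noncomputable def Eb_bad (n : ℕ) : ℕ :=
  ((Icc 1 (Nat.sqrt n)).filter (fun k => Eb_PP (n + k) ∨ Eb_PP (n + k ^ 2))).card

open Classical in
theorem Eb_shift (X k : ℕ) (hk : k ≤ X) : ((Icc 1 X).filter (fun n => Eb_PP (n + k))).card ≤
    ((Icc 1 (2 * X)).filter Eb_PP).card := by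
  apply card_le_card_of_injOn (fun n => n + k)
  · intro n hn
    have h1 := mem_filter.1 (mem_coe.1 hn)
    have h2 := mem_Icc.1 h1.1
    have h3 : 1 ≤ n + k := by omega
    have h4 : n + k ≤ 2 * X := by omega
    exact mem_coe.2 (mem_filter.2 ⟨mem_Icc.2 ⟨h3, h4⟩, h1.2⟩)
  · intro a _ b _ h
    exact Nat.add_right_cancel h

theorem Eb_sum (X : ℕ) : ∑ n ∈ Icc 1 X, Eb_bad n ≤
    2 * (Nat.sqrt X * (Nat.sqrt (2 * X) * Nat.log 2 (2 * X))) := by
  classical
  calc ∑ n ∈ Icc 1 X, Eb_bad n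
      ≤ ∑ n ∈ Icc 1 X, ∑ k ∈ Icc 1 (Nat.sqrt X),
        ((if Eb_PP (n + k) then 1 else 0) + (if Eb_PP (n + k ^ 2) then 1 else 0)) := by
        apply sum_le_sum
        intro n hn
        unfold Eb_bad
        rw [card_filter]
        calc _ ≤ ∑ k ∈ Icc 1 (Nat.sqrt n),
              ((if Eb_PP (n + k) then 1 else 0) + (if Eb_PP (n + k ^ 2) then 1 else 0)) := by
              apply sum_le_sum
              intro k _
              by_cases h1 : Eb_PP (n + k)
              · by_cases h2 : Eb_PP (n + k ^ 2)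
                · simp [h1, h2]
                · simp [h1, h2]
              · by_cases h2 : Eb_PP (n + k ^ 2)
                · simp [h1, h2]
                · simp [h1, h2]
          _ ≤ _ := sum_le_sum_of_subset
              (Icc_subset_Icc_right (Nat.sqrt_le_sqrt (mem_Icc.1 hn).2))
    _ = ∑ k ∈ Icc 1 (Nat.sqrt X), ∑ n ∈ Icc 1 X,
        ((if Eb_PP (n + k) then 1 else 0) + (if Eb_PP (n + k ^ 2) then 1 else 0)) := sum_comm
    _ ≤ ∑ k ∈ Icc 1 (Nat.sqrt X), 2 * (Nat.sqrt (2 * X) * Nat.log 2 (2 * X)) := by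
        apply sum_le_sum
        intro k hk
        have hk1 := (mem_Icc.1 hk).2
        have hk2 : k ^ 2 ≤ X := Nat.le_sqrt'.1 hk1
        have hk3 : k ≤ X := hk1.trans (Nat.sqrt_le_self X)
        rw [sum_add_distrib, ← card_filter, ← card_filter]
        have e1 := Eb_shift X k hk3
        have e2 := Eb_shift X (k ^ 2) hk2
        have e3 := Eb_count (2 * X)
        omega
    _ = _ := by
        rw [sum_const, Nat.card_Icc, smul_eq_mul, Nat.add_sub_cancel]
        ring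

theorem Eb_lam_le (m Y : ℕ) (h : m ≤ Y) (hm : 1 ≤ m) : lam m ≤ Real.log Y := by
  have h1 : lam m ≤ Real.log m := ArithmeticFunction.vonMangoldt_le_log
  exact h1.trans (Real.log_le_log (by exact_mod_cast hm) (by exact_mod_cast h))

theorem Eb_lam_nn (m : ℕ) : 0 ≤ lam m := ArithmeticFunction.vonMangoldt_nonneg

theorem Eb_S (n : ℕ) (hn : 1 ≤ n) :
    ∑ k ∈ Icc 1 (Nat.sqrt n), lam (n + k) * lam (n + k ^ 2) ≤
    Real.log (2 * n : ℕ) ^ 2 * ((Pk n : ℝ) + Eb_bad n) := by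
  classical
  have hP : (Pk n : ℝ) = ∑ k ∈ Icc 1 (Nat.sqrt n),
      if (n + k).Prime ∧ (n + k ^ 2).Prime then (1 : ℝ) else 0 := by
    unfold Pk
    rw [card_filter]
    push_cast
    rfl
  have hB : (Eb_bad n : ℝ) = ∑ k ∈ Icc 1 (Nat.sqrt n),
      if Eb_PP (n + k) ∨ Eb_PP (n + k ^ 2) then (1 : ℝ) else 0 := by
    unfold Eb_bad
    rw [card_filter]
    push_cast
    rfl
  rw [hP, hB, ← sum_add_distrib, mul_sum]
  apply sum_le_sum
  intro k hk
  have hk1 := (mem_Icc.1 hk).2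
  have hk2 : k ^ 2 ≤ n := Nat.le_sqrt'.1 hk1
  have hk3 : k ≤ n := hk1.trans (Nat.sqrt_le_self n)
  have l1 := Eb_lam_le (n + k) (2 * n) (by omega) (by omega)
  have l2 := Eb_lam_le (n + k ^ 2) (2 * n) (by omega) (by omega)
  have l3 := Eb_lam_nn (n + k)
  have l4 := Eb_lam_nn (n + k ^ 2)
  have l5 : lam (n + k) * lam (n + k ^ 2) ≤ Real.log (2 * n : ℕ) ^ 2 :=
    (mul_le_mul l1 l2 l4 (l3.trans l1)).trans_eq (sq _).symm
  have l6 : 0 ≤ Real.log (2 * n : ℕ) ^ 2 := sq_nonneg _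
  by_cases h1 : (n + k).Prime ∧ (n + k ^ 2).Prime
  · rw [if_pos h1]
    split_ifs
    · linarith
    · linarith
  · by_cases h2 : Eb_PP (n + k) ∨ Eb_PP (n + k ^ 2)
    · rw [if_neg h1, if_pos h2]
      linarith
    · rw [if_neg h1, if_neg h2, add_zero, mul_zero]
      have h3 : lam (n + k) * lam (n + k ^ 2) = 0 := by
        by_cases h4 : (n + k).Prime
        · have h5 : ¬ (n + k ^ 2).Prime := fun h => h1 ⟨h4, h⟩
          have h6 : ¬ IsPrimePow (n + k ^ 2) := fun h => h2 (Or.inr ⟨h, h5⟩)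
          have h7 : lam (n + k ^ 2) = 0 := ArithmeticFunction.vonMangoldt_eq_zero_iff.2 h6
          rw [h7, mul_zero]
        · have h6 : ¬ IsPrimePow (n + k) := fun h => h2 (Or.inl ⟨h, h4⟩)
          have h7 : lam (n + k) = 0 := ArithmeticFunction.vonMangoldt_eq_zero_iff.2 h6
          rw [h7, zero_mul]
      exact h3.le

/-- powers of the logarithm -/
theorem Eb_pow (M : ℕ) (ε : ℝ) (hε : 0 < ε) : ∀ᶠ X : ℕ in atTop,
    Real.log X ^ M ≤ ε * Real.sqrt X := by
  have h1 := (Real.isLittleO_pow_log_id_atTop (n := 2 * M)).bound (c := ε ^ 2) (by positivity)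
  have h2 := tendsto_natCast_atTop_atTop (R := ℝ) |>.eventually h1
  filter_upwards [h2, eventually_ge_atTop 1] with X hX hX1
  have hX0 : (1 : ℝ) ≤ X := by exact_mod_cast hX1
  have hl : 0 ≤ Real.log X := Real.log_nonneg hX0
  rw [Real.norm_of_nonneg (by positivity), id, Real.norm_of_nonneg (by positivity)] at hX
  have h3 : Real.log X ^ M = Real.sqrt (Real.log X ^ (2 * M)) := by
    rw [mul_comm 2 M, pow_mul, Real.sqrt_sq (by positivity)]
  rw [h3]
  calc Real.sqrt (Real.log X ^ (2 * M)) ≤ Real.sqrt (ε ^ 2 * X) := Real.sqrt_le_sqrt hX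
    _ = ε * Real.sqrt X := by
      rw [Real.sqrt_mul (by positivity), Real.sqrt_sq hε.le]

/-- the number of the `n` with many bad `k` -/
theorem Eb_markov (A X : ℕ) (hX : 2 ≤ X) (hL : 1 ≤ Real.log X) :
    (((Icc 1 X).filter (fun n => Real.log X ^ (A + 3) < (Eb_bad n : ℝ))).card : ℝ) ≤
      16 * X / Real.log X ^ (A + 2) := by
  classical
  obtain ⟨L, hLd⟩ : ∃ L, L = Real.log X := ⟨_, rfl⟩
  rw [← hLd] at hL ⊢
  have hL0 : 0 < L := by linarith
  have hX0 : (2 : ℝ) ≤ X := by exact_mod_cast hX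
  have h1 : (((Icc 1 X).filter (fun n => L ^ (A + 3) < (Eb_bad n : ℝ))).card : ℝ) * L ^ (A + 3) ≤
      ∑ n ∈ Icc 1 X, (Eb_bad n : ℝ) := by
    rw [← nsmul_eq_mul, ← sum_const]
    calc _ ≤ ∑ n ∈ (Icc 1 X).filter (fun n => L ^ (A + 3) < (Eb_bad n : ℝ)), (Eb_bad n : ℝ) :=
          sum_le_sum fun n hn => (mem_filter.1 hn).2.le
      _ ≤ _ := sum_le_sum_of_subset_of_nonneg (filter_subset _ _) fun n _ _ => by positivity
  have h2 : ∑ n ∈ Icc 1 X, (Eb_bad n : ℝ) ≤
      2 * (Nat.sqrt X * (Nat.sqrt (2 * X) * Nat.log 2 (2 * X))) := by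
    exact_mod_cast Eb_sum X
  have h3 : (Nat.sqrt X : ℝ) ≤ Real.sqrt X := Real.nat_sqrt_le_real_sqrt
  have h4 : (Nat.sqrt (2 * X) : ℝ) ≤ 2 * Real.sqrt X := by
    have h5 : (Nat.sqrt (2 * X) : ℝ) ≤ Real.sqrt (2 * X : ℕ) := Real.nat_sqrt_le_real_sqrt
    refine h5.trans ?_
    rw [Real.sqrt_le_left (by positivity), mul_pow, Real.sq_sqrt (by positivity)]
    push_cast
    linarith
  have h5 : (Nat.log 2 (2 * X) : ℝ) ≤ 4 * L := by
    have h6 : 2 ^ Nat.log 2 (2 * X) ≤ 2 * X := Nat.pow_log_le_self 2 (by omega)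
    have h7 : (Nat.log 2 (2 * X) : ℝ) * Real.log 2 ≤ Real.log (2 * X) := by
      rw [← Real.log_pow]
      apply Real.log_le_log (by positivity)
      exact_mod_cast h6
    rw [Real.log_mul (by norm_num) (by positivity), ← hLd] at h7
    have h8 : Real.log 2 ≤ L := by
      rw [hLd]
      exact Real.log_le_log (by norm_num) hX0
    have h9 : (1 : ℝ) / 2 ≤ Real.log 2 := by
      have := Real.log_two_gt_d9
      linarith
    have h10 : (0 : ℝ) ≤ Nat.log 2 (2 * X) := by positivity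
    nlinarith
  have h6 : (2 : ℝ) * (Nat.sqrt X * (Nat.sqrt (2 * X) * Nat.log 2 (2 * X))) ≤ 16 * X * L := by
    have h7 : (Nat.sqrt (2 * X) : ℝ) * Nat.log 2 (2 * X) ≤ 2 * Real.sqrt X * (4 * L) :=
      mul_le_mul h4 h5 (by positivity) (by positivity)
    have h8 : (Nat.sqrt X : ℝ) * (Nat.sqrt (2 * X) * Nat.log 2 (2 * X)) ≤
        Real.sqrt X * (2 * Real.sqrt X * (4 * L)) := mul_le_mul h3 h7 (by positivity) (by positivity)
    have h9 : Real.sqrt X * (2 * Real.sqrt X * (4 * L)) = 8 * X * L := by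
      have : Real.sqrt X * Real.sqrt X = X := Real.mul_self_sqrt (by positivity)
      linear_combination 8 * L * this
    linarith
  rw [le_div_iff₀ (by positivity)]
  have h7 := h1.trans (h2.trans h6)
  have h8 : (((Icc 1 X).filter (fun n => L ^ (A + 3) < (Eb_bad n : ℝ))).card : ℝ) * L ^ (A + 2) * L ≤
      16 * X * L := by
    calc _ = (((Icc 1 X).filter (fun n => L ^ (A + 3) < (Eb_bad n : ℝ))).card : ℝ) *
          L ^ (A + 3) := by ring
      _ ≤ _ := h7
  exact le_of_mul_le_mul_right h8 hL0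

/-- the small `n` -/
theorem Eb_small (X : ℕ) (T : ℝ) (hT : 0 ≤ T) :
    (((Icc 1 X).filter (fun n : ℕ => (n : ℝ) ≤ T)).card : ℝ) ≤ T := by
  have h1 : (Icc 1 X).filter (fun n : ℕ => (n : ℝ) ≤ T) ⊆ Icc 1 ⌊T⌋₊ := by
    intro n hn
    obtain ⟨h2, h3⟩ := mem_filter.1 hn
    exact mem_Icc.2 ⟨(mem_Icc.1 h2).1, Nat.le_floor h3⟩
  have h2 := card_le_card h1
  rw [Nat.card_Icc, Nat.add_sub_cancel] at h2
  calc _ ≤ ((⌊T⌋₊ : ℕ) : ℝ) := by exact_mod_cast h2
    _ ≤ T := Nat.floor_le hT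

/-- one `n` -/
theorem Eb_one {c₀ L B n sX S G Pkn bad z c : ℝ} {A : ℕ} (hc₀ : 0 < c₀) (hL : 18 ≤ L) (hB : 1 ≤ B)
    (hBL : 2 * B ≤ c₀ * L) (hn : 2 ≤ n) (hc : c = c₀ / (32 * B))
    (h1 : sX ≤ Real.sqrt n * L ^ (A + 1)) (h2 : |S - Real.sqrt n * G| ≤ sX / L ^ (A + 3))
    (hG : c₀ / Real.log z ≤ G) (hz : 2 ≤ z) (hzL : Real.log z ≤ B * Real.log L)
    (hS : S ≤ Real.log (2 * n) ^ 2 * (Pkn + bad)) (hbad : bad ≤ L ^ (A + 3)) (hbad0 : 0 ≤ bad)
    (hPk : 0 ≤ Pkn)
    (hlog : L / 2 ≤ Real.log n) (hlog2 : Real.log n ≤ L) (hX : L ^ (2 * A + 7) ≤ c * sX) :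
    c * Real.sqrt n / (Real.log n ^ 2 * Real.log (Real.log n)) ≤ Pkn := by
  have hL0 : 0 < L := by linarith
  have hB0 : 0 < B := by linarith
  have hc0 : 0 < c := by
    rw [hc]
    positivity
  have hs0 : 0 < Real.sqrt n := Real.sqrt_pos.2 (by linarith)
  have hlz : 0 < Real.log z := Real.log_pos (by linarith)
  have hlL : 0 < Real.log L := Real.log_pos (by linarith)
  have hlL2 : Real.log L ≤ L := (Real.log_le_sub_one_of_pos hL0).trans (by linarith)
  -- the main sum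
  have h3 : c₀ / (B * Real.log L) ≤ G := by
    refine le_trans ?_ hG
    exact div_le_div_of_nonneg_left hc₀.le hlz hzL
  have h4 : sX / L ^ (A + 3) ≤ Real.sqrt n / L ^ 2 := by
    rw [div_le_div_iff₀ (by positivity) (by positivity)]
    calc sX * L ^ 2 ≤ Real.sqrt n * L ^ (A + 1) * L ^ 2 :=
          mul_le_mul_of_nonneg_right h1 (by positivity)
      _ = Real.sqrt n * L ^ (A + 3) := by ring
  have h5 : 1 / L ^ 2 ≤ c₀ / (2 * B * Real.log L) := by
    rw [div_le_div_iff₀ (by positivity) (by positivity)]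
    calc 1 * (2 * B * Real.log L) ≤ 1 * ((c₀ * L) * L) := by
          apply mul_le_mul_of_nonneg_left _ zero_le_one
          exact mul_le_mul hBL hlL2 hlL.le (by positivity)
      _ = c₀ * L ^ 2 := by ring
  have h6 : Real.sqrt n * (c₀ / (2 * B * Real.log L)) ≤ S := by
    have e1 := (abs_le.1 h2).1
    have e2 : Real.sqrt n * (c₀ / (B * Real.log L)) ≤ Real.sqrt n * G :=
      mul_le_mul_of_nonneg_left h3 hs0.le
    have e3 : Real.sqrt n / L ^ 2 ≤ Real.sqrt n * (c₀ / (2 * B * Real.log L)) := by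
      rw [div_eq_mul_one_div]
      exact mul_le_mul_of_nonneg_left h5 hs0.le
    have e4 : Real.sqrt n * (c₀ / (B * Real.log L)) =
        2 * (Real.sqrt n * (c₀ / (2 * B * Real.log L))) := by
      field_simp
    linarith
  -- logarithms
  have hln : 0 < Real.log n := by linarith
  have h7 : Real.log (2 * n) ≤ 2 * Real.log n := by
    rw [Real.log_mul (by norm_num) (by linarith)]
    have : Real.log 2 ≤ Real.log n := Real.log_le_log (by norm_num) hn
    linarith
  have h7' : 0 ≤ Real.log (2 * n) := Real.log_nonneg (by linarith)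
  have h8 : Real.log (2 * n) ^ 2 ≤ 4 * Real.log n ^ 2 := by
    calc Real.log (2 * n) ^ 2 ≤ (2 * Real.log n) ^ 2 := pow_le_pow_left₀ h7' h7 2
      _ = _ := by ring
  have h9 : Real.log L ≤ 2 * Real.log (Real.log n) := by
    have e1 : Real.log (L / 2) ≤ Real.log (Real.log n) := Real.log_le_log (by positivity) hlog
    rw [Real.log_div (by positivity) (by norm_num)] at e1
    have e2 : 2 * Real.log 2 ≤ Real.log L := by
      have : Real.log 4 = 2 * Real.log 2 := by
        rw [show (4 : ℝ) = 2 ^ 2 by norm_num, Real.log_pow]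
        norm_num
      rw [← this]
      exact Real.log_le_log (by norm_num) (by linarith)
    linarith
  have hll : 0 < Real.log (Real.log n) := by linarith
  have hll2 : Real.log (Real.log n) ≤ L := by
    have e1 : Real.log (Real.log n) ≤ Real.log n - 1 := Real.log_le_sub_one_of_pos hln
    linarith
  have h10 : Real.sqrt n * (c₀ / (2 * B * Real.log L)) ≤ 4 * Real.log n ^ 2 * (Pkn + bad) :=
    h6.trans (hS.trans (mul_le_mul_of_nonneg_right h8 (by linarith)))
  have h11 : Real.sqrt n * (c₀ / (4 * B * Real.log (Real.log n))) ≤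
      4 * Real.log n ^ 2 * (Pkn + bad) := by
    refine le_trans ?_ h10
    apply mul_le_mul_of_nonneg_left _ hs0.le
    apply div_le_div_of_nonneg_left hc₀.le (by positivity)
    nlinarith
  have h12 : 2 * (c * Real.sqrt n / (Real.log n ^ 2 * Real.log (Real.log n))) ≤ Pkn + bad := by
    have e1 : 2 * (c * Real.sqrt n / (Real.log n ^ 2 * Real.log (Real.log n))) =
        Real.sqrt n * (c₀ / (4 * B * Real.log (Real.log n))) / (4 * Real.log n ^ 2) := by
      rw [hc]
      field_simp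
      ring
    rw [e1, div_le_iff₀ (by positivity)]
    linarith
  have h13 : L ^ (A + 3) ≤ c * Real.sqrt n / (Real.log n ^ 2 * Real.log (Real.log n)) := by
    rw [le_div_iff₀ (by positivity)]
    have e1 : Real.log n ^ 2 * Real.log (Real.log n) ≤ L ^ 2 * L :=
      mul_le_mul (pow_le_pow_left₀ hln.le hlog2 2) hll2 hll.le (by positivity)
    have e2 : L ^ (A + 3) * (Real.log n ^ 2 * Real.log (Real.log n)) ≤ L ^ (A + 3) * (L ^ 2 * L) :=
      mul_le_mul_of_nonneg_left e1 (by positivity)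
    have e3 : L ^ (A + 3) * (L ^ 2 * L) * L ^ (A + 1) ≤ (c * Real.sqrt n) * L ^ (A + 1) := by
      calc L ^ (A + 3) * (L ^ 2 * L) * L ^ (A + 1) = L ^ (2 * A + 7) := by ring
        _ ≤ c * sX := hX
        _ ≤ c * (Real.sqrt n * L ^ (A + 1)) := mul_le_mul_of_nonneg_left h1 hc0.le
        _ = _ := by ring
    exact e2.trans (le_of_mul_le_mul_right e3 (by positivity))
  linarith

theorem thm_Eb (ha : St_Ea) (hG : St_GAl) : St_Eb := by
  classical
  intro A
  obtain ⟨B₀, hB₀⟩ := ha (A + 3)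
  obtain ⟨c₀, C₀, hc₀, -, hGA⟩ := hG
  obtain ⟨B, hBd⟩ : ∃ B, B = max B₀ 1 := ⟨_, rfl⟩
  have hB1 : 1 ≤ B := by
    rw [hBd]
    exact le_max_right _ _
  have hBB : B₀ ≤ B := by
    rw [hBd]
    exact le_max_left _ _
  have hBr : (1 : ℝ) ≤ B := by exact_mod_cast hB1
  have hB0 : (0 : ℝ) < B := by linarith
  refine ⟨c₀ / (32 * B), by positivity, ?_⟩
  have hLt : Tendsto (fun X : ℕ => Real.log X) atTop atTop :=
    Real.tendsto_log_atTop.comp tendsto_natCast_atTop_atTop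
  filter_upwards [hB₀ B hBB, hLt.eventually_ge_atTop 18, hLt.eventually_ge_atTop (2 * B / c₀),
    Eb_pow (2 * A + 7) (c₀ / (32 * B)) (by positivity), Eb_pow (A + 1) 1 one_pos,
    eventually_ge_atTop 4] with X hE hL18 hLB hp1 hp2 hX4
  obtain ⟨L, hL⟩ : ∃ L, L = Real.log X := ⟨_, rfl⟩
  rw [← hL] at hE hL18 hLB hp1 hp2 ⊢
  have hL0 : 0 < L := by linarith
  have hXr : (4 : ℝ) ≤ X := by exact_mod_cast hX4
  have hBL : 2 * (B : ℝ) ≤ c₀ * L := by
    rw [div_le_iff₀ hc₀] at hLB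
    linarith
  -- the sets
  obtain ⟨E1, hE1⟩ : ∃ E1, E1 = (Icc 1 X).filter (fun n : ℕ => (n : ℝ) ≤ X / L ^ (A + 1)) :=
    ⟨_, rfl⟩
  obtain ⟨E2, hE2⟩ : ∃ E2, E2 = (Icc 1 X).filter (fun n => Real.sqrt X / L ^ (A + 3) <
    |∑ k ∈ Icc 1 (Nat.sqrt n), lam (n + k) * lam (n + k ^ 2) -
      Real.sqrt n * GA (zz B X) n|) := ⟨_, rfl⟩
  obtain ⟨E3, hE3⟩ : ∃ E3, E3 = (Icc 1 X).filter (fun n => L ^ (A + 3) < (Eb_bad n : ℝ)) :=
    ⟨_, rfl⟩
  have hc1 : (E1.card : ℝ) ≤ X / L ^ (A + 1) := by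
    rw [hE1]
    exact Eb_small X _ (by positivity)
  have hc2 : (E2.card : ℝ) ≤ X / L ^ (A + 3) := by
    rw [hE2]
    exact hE
  have hc3 : (E3.card : ℝ) ≤ 16 * X / L ^ (A + 2) := by
    rw [hE3]
    have h1 : 1 ≤ Real.log X := by
      rw [← hL]
      linarith
    have := Eb_markov A X (by omega) h1
    rw [← hL] at this
    exact this
  have hsub : (Icc 1 X).filter (fun n : ℕ => (Pk n : ℝ) < c₀ / (32 * B) * Real.sqrt n /
      (Real.log n ^ 2 * Real.log (Real.log n))) ⊆ E1 ∪ E2 ∪ E3 := by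
    intro n hn
    obtain ⟨hn1, hn2⟩ := mem_filter.1 hn
    by_contra hnot
    rw [mem_union, mem_union] at hnot
    push Not at hnot
    obtain ⟨⟨k1, k2⟩, k3⟩ := hnot
    rw [hE1, mem_filter, not_and, not_le] at k1
    rw [hE2, mem_filter, not_and, not_lt] at k2
    rw [hE3, mem_filter, not_and, not_lt] at k3
    have m1 := k1 hn1
    have m2 := k2 hn1
    have m3 := k3 hn1
    have hnX : (n : ℝ) ≤ X := by exact_mod_cast (mem_Icc.1 hn1).2
    have hsX : 0 < Real.sqrt X := Real.sqrt_pos.2 (by linarith)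
    have hLA : 0 < L ^ (A + 1) := by positivity
    -- `n` is large
    have m4 : Real.sqrt X ≤ n := by
      have e1 : Real.sqrt X ≤ X / L ^ (A + 1) := by
        rw [le_div_iff₀ hLA]
        calc Real.sqrt X * L ^ (A + 1) ≤ Real.sqrt X * (1 * Real.sqrt X) :=
              mul_le_mul_of_nonneg_left hp2 hsX.le
          _ = X := by
              rw [one_mul]
              exact Real.mul_self_sqrt (by linarith)
      linarith
    have m5 : 2 ≤ (n : ℝ) := by
      refine le_trans ?_ m4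
      rw [Real.le_sqrt (by norm_num) (by linarith)]
      linarith
    have m6 : L / 2 ≤ Real.log n := by
      have e1 : Real.log (Real.sqrt X) ≤ Real.log n := Real.log_le_log hsX m4
      rw [Real.log_sqrt (by linarith), ← hL] at e1
      exact e1
    have m7 : Real.log n ≤ L := by
      rw [hL]
      exact Real.log_le_log (by linarith) hnX
    have m8 : Real.sqrt X ≤ Real.sqrt n * L ^ (A + 1) := by
      rw [Real.sqrt_le_left (by positivity), mul_pow, Real.sq_sqrt (by linarith)]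
      have e1 : (X : ℝ) ≤ n * L ^ (A + 1) := by
        have := (div_lt_iff₀ hLA).1 m1
        linarith
      have e2 : (1 : ℝ) ≤ L ^ (A + 1) := one_le_pow₀ (by linarith)
      calc (X : ℝ) ≤ n * L ^ (A + 1) := e1
        _ ≤ n * (L ^ (A + 1)) ^ 2 := by
            apply mul_le_mul_of_nonneg_left _ (by linarith)
            nlinarith
    have hLB2 : (2 : ℝ) ≤ L ^ B := by
      calc (2 : ℝ) ≤ L := by linarith
        _ = L ^ 1 := (pow_one L).symm
        _ ≤ L ^ B := pow_le_pow_right₀ (by linarith) hB1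
    have hz2 : 2 ≤ zz B X := by
      unfold zz
      rw [← hL]
      exact Nat.le_floor (by exact_mod_cast hLB2)
    have hzr : (2 : ℝ) ≤ (zz B X : ℕ) := by exact_mod_cast hz2
    have hzL : Real.log (zz B X : ℕ) ≤ B * Real.log L := by
      rw [← Real.log_pow]
      apply Real.log_le_log (by linarith)
      unfold zz
      rw [← hL]
      exact Nat.floor_le (by positivity)
    have hS := Eb_S n (by exact_mod_cast (by linarith : (1 : ℝ) ≤ n))
    push_cast at hS
    have key := Eb_one (A := A) hc₀ hL18 hBr hBL m5 rfl m8 m2 (hGA (zz B X) n hz2).1 hzr hzL hS m3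
      (by positivity) (by positivity) m6 m7 hp1
    linarith
  have h1 := card_le_card hsub
  have h2 := card_union_le (E1 ∪ E2) E3
  have h3 := card_union_le E1 E2
  have h4 : (((Icc 1 X).filter (fun n : ℕ => (Pk n : ℝ) < c₀ / (32 * B) * Real.sqrt n /
      (Real.log n ^ 2 * Real.log (Real.log n)))).card : ℝ) ≤ E1.card + E2.card + E3.card := by
    exact_mod_cast (h1.trans (h2.trans (Nat.add_le_add_right h3 _)))
  refine h4.trans ?_
  have h5 : (E1.card : ℝ) + E2.card + E3.card ≤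
      X / L ^ (A + 1) + X / L ^ (A + 3) + 16 * X / L ^ (A + 2) := by linarith
  refine h5.trans ?_
  have h6 : X / L ^ (A + 1) + X / L ^ (A + 3) + 16 * X / L ^ (A + 2) =
      X / L ^ A * (1 / L + 1 / L ^ 3 + 16 / L ^ 2) := by
    field_simp
    ring
  rw [h6]
  have h7 : 1 / L + 1 / L ^ 3 + 16 / L ^ 2 ≤ 1 := by
    have e1 : 1 / L ≤ 1 / 18 := one_div_le_one_div_of_le (by norm_num) hL18
    have e2 : 1 / L ^ 3 ≤ 1 / 18 ^ 3 :=
      one_div_le_one_div_of_le (by norm_num) (pow_le_pow_left₀ (by norm_num) hL18 3)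
    have e3 : 16 / L ^ 2 ≤ 16 / 18 ^ 2 :=
      div_le_div_of_nonneg_left (by norm_num) (by norm_num) (pow_le_pow_left₀ (by norm_num) hL18 2)
    norm_num at e1 e2 e3 ⊢
    linarith
  calc X / L ^ A * (1 / L + 1 / L ^ 3 + 16 / L ^ 2) ≤ X / L ^ A * 1 :=
        mul_le_mul_of_nonneg_left h7 (by positivity)
    _ = _ := mul_one _

end Pool.Agent.NRP
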