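import Pool.Agent.NRP.StN
import Pool.Agent.GBQ.RhoLow

set_option autoImplicit false

/-!
# NRP / GAl: bounds for the truncated singular series `GA` (helper21)
-/

namespace Pool.Agent.NRP

open Finset Filter
open Pool.Agent.GBQ (ee nd gm lam LamS zz rho pr)

theorem gal_mem {z p : ℕ} : p ∈ pr z ↔ p ≤ z ∧ p.Prime := by
  rw [pr, Finset.mem_filter, Finset.mem_range, Nat.lt_succ_iff]

/-- there is a solution -/
theorem gal_om_pos {p : ℕ} (hp : p.Prime) (n : ℕ) : 1 ≤ om p n := by
  rw [om, Nat.one_le_iff_ne_zero, Ne, Finset.card_eq_zero]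
  intro h
  have hp0 := hp.pos
  have h1 : (p - n % p) % p ∈ (range p).filter (fun k => p ∣ (n + k) * (n + k ^ 2)) := by
    rw [Finset.mem_filter, Finset.mem_range]
    refine ⟨Nat.mod_lt _ hp0, Dvd.dvd.mul_right ?_ _⟩
    rw [Nat.dvd_iff_mod_eq_zero, Nat.add_mod, Nat.mod_mod, Nat.add_mod_mod]
    have h2 : n % p + (p - n % p) = p := by
      have := Nat.mod_lt n hp0
      omega
    rw [h2, Nat.mod_self]
  rw [h] at h1
  simp at h1

/-- not everything is a solution -/
theorem gal_om_lt {p : ℕ} (hp : p.Prime) (n : ℕ) : om p n + 1 ≤ p := by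
  have h0 : (range p).card = p := Finset.card_range p
  have key : ∃ k ∈ range p, ¬ p ∣ (n + k) * (n + k ^ 2) := by
    by_cases hn : p ∣ n
    · refine ⟨1, Finset.mem_range.2 hp.one_lt, ?_⟩
      intro h
      rw [one_pow] at h
      have h1 : p ∣ n + 1 := by
        rcases (Nat.Prime.dvd_mul hp).1 h with h | h <;> exact h
      have h2 := (Nat.dvd_add_right hn).1 h1
      exact hp.one_lt.ne' (Nat.dvd_one.1 h2)
    · refine ⟨0, Finset.mem_range.2 hp.pos, ?_⟩
      intro h
      have h1 : p ∣ n * n := by simpa using h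
      rcases (Nat.Prime.dvd_mul hp).1 h1 with h | h <;> exact hn h
  obtain ⟨k, hk, hkn⟩ := key
  have h1 : (range p).filter (fun k => p ∣ (n + k) * (n + k ^ 2)) ⊆ (range p).erase k := by
    intro x hx
    rw [Finset.mem_filter] at hx
    rw [Finset.mem_erase]
    refine ⟨?_, hx.1⟩
    rintro rfl
    exact hkn hx.2
  have h2 := Finset.card_le_card h1
  rw [Finset.card_erase_of_mem hk, h0] at h2
  have := hp.pos
  rw [om]
  omega

/-- at most three solutions -/
theorem gal_om_le {p : ℕ} (hp : p.Prime) (n : ℕ) : om p n ≤ 3 := by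
  have hp0 := hp.pos
  have hA : ((range p).filter (fun k => p ∣ n + k)).card ≤ 1 := by
    rw [Finset.card_le_one]
    intro a ha b hb
    rw [Finset.mem_filter, Finset.mem_range] at ha hb
    have h1 : (p : ℤ) ∣ (a : ℤ) - b := by
      have e : (a : ℤ) - b = ((n + a : ℕ) : ℤ) - ((n + b : ℕ) : ℤ) := by push_cast; ring
      rw [e]
      exact dvd_sub (Int.natCast_dvd_natCast.2 ha.2) (Int.natCast_dvd_natCast.2 hb.2)
    have h2 := Int.eq_zero_of_abs_lt_dvd h1 (by
      rw [abs_lt]
      have := ha.1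
      have := hb.1
      constructor <;> omega)
    omega
  have hB : ((range p).filter (fun k => p ∣ n + k ^ 2)).card ≤ 2 := by
    rcases Finset.eq_empty_or_nonempty ((range p).filter (fun k => p ∣ n + k ^ 2)) with h | ⟨k, hk⟩
    · rw [h]
      simp
    · have hsub : (range p).filter (fun k => p ∣ n + k ^ 2) ⊆ {k, p - k} := by
        intro a ha
        rw [Finset.mem_filter, Finset.mem_range] at ha hk
        rw [Finset.mem_insert, Finset.mem_singleton]
        have h1 : (p : ℤ) ∣ ((a : ℤ) - k) * ((a : ℤ) + k) := by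
          have e : ((a : ℤ) - k) * ((a : ℤ) + k) =
              ((n + a ^ 2 : ℕ) : ℤ) - ((n + k ^ 2 : ℕ) : ℤ) := by push_cast; ring
          rw [e]
          exact dvd_sub (Int.natCast_dvd_natCast.2 ha.2) (Int.natCast_dvd_natCast.2 hk.2)
        rcases (Nat.prime_iff_prime_int.1 hp).dvd_or_dvd h1 with h2 | h2
        · left
          have h3 := Int.eq_zero_of_abs_lt_dvd h2 (by
            rw [abs_lt]
            have := ha.1
            have := hk.1
            constructor <;> omega)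
          omega
        · have h3 : p ∣ a + k := by
            have : ((a + k : ℕ) : ℤ) = (a : ℤ) + k := by push_cast; rfl
            rw [← this] at h2
            exact Int.natCast_dvd_natCast.1 h2
          obtain ⟨c, hc⟩ := h3
          have h4 : c < 2 := by
            by_contra h5
            have h6 : p * 2 ≤ p * c := Nat.mul_le_mul_left p (not_lt.1 h5)
            have := ha.1
            have := hk.1
            omega
          rcases (by omega : c = 0 ∨ c = 1) with rfl | rfl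
          · left
            omega
          · right
            omega
      exact (Finset.card_le_card hsub).trans Finset.card_le_two
  have hsub : (range p).filter (fun k => p ∣ (n + k) * (n + k ^ 2)) ⊆
      (range p).filter (fun k => p ∣ n + k) ∪ (range p).filter (fun k => p ∣ n + k ^ 2) := by
    intro k hk
    rw [Finset.mem_filter] at hk
    rw [Finset.mem_union, Finset.mem_filter, Finset.mem_filter]
    rcases (Nat.Prime.dvd_mul hp).1 hk.2 with h | h
    · exact Or.inl ⟨hk.1, h⟩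
    · exact Or.inr ⟨hk.1, h⟩
  have h1 := (Finset.card_le_card hsub).trans (Finset.card_union_le _ _)
  rw [om]
  omega

theorem gal_pow7 {y : ℝ} (h0 : 0 ≤ y) (h1 : y ≤ 1) : (1 - y) ^ 7 * (1 + 7 * y) ≤ 1 := by
  have h2 : 1 + 7 * y ≤ (1 + y) ^ 7 := by
    have := one_add_mul_le_pow (show (-2 : ℝ) ≤ y by linarith) 7
    push_cast at this
    linarith
  have h3 : (0 : ℝ) ≤ (1 - y) ^ 7 := pow_nonneg (by linarith) 7
  calc (1 - y) ^ 7 * (1 + 7 * y) ≤ (1 - y) ^ 7 * (1 + y) ^ 7 := mul_le_mul_of_nonneg_left h2 h3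
    _ = (1 - y ^ 2) ^ 7 := by rw [← mul_pow]; ring
    _ ≤ 1 := by
      apply pow_le_one₀
      · nlinarith
      · nlinarith

/-- the local factor from below -/
theorem gal_low {p : ℕ} (hp : p.Prime) (n : ℕ) :
    (1 - 1 / (p : ℝ)) * (1 - 1 / (p : ℝ) ^ 2) ^ 7 ≤
      (1 - (om p n : ℝ) / p) / (1 - 1 / (p : ℝ)) ^ 2 := by
  have hp2 : (2 : ℝ) ≤ p := by exact_mod_cast hp.two_le
  have hp0 : (0 : ℝ) < p := by linarith
  set x : ℝ := 1 / (p : ℝ) with hx
  have hx0 : 0 < x := by positivity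
  have hx2 : x ≤ 1 / 2 := by
    rw [hx]
    exact one_div_le_one_div_of_le (by norm_num) hp2
  have e2 : 1 / (p : ℝ) ^ 2 = x ^ 2 := by rw [hx, one_div, one_div, inv_pow]
  have e1 : (om p n : ℝ) / p = om p n * x := by rw [hx]; ring
  rw [e2, e1, le_div_iff₀ (by nlinarith)]
  have hx2' : x ^ 2 ≤ 1 := by nlinarith
  have hq0 : (0 : ℝ) ≤ (1 - x ^ 2) ^ 7 := pow_nonneg (by linarith) 7
  have hq1 : (1 - x ^ 2) ^ 7 ≤ 1 := pow_le_one₀ (by linarith) (by nlinarith)
  rcases Nat.lt_or_ge p 5 with h5 | h5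
  · -- p = 2, 3
    have h1 := gal_om_lt hp n
    have h2 : (om p n : ℝ) + 1 ≤ p := by exact_mod_cast h1
    have h3 : x ≤ 1 - om p n * x := by
      have : (om p n + 1) * x ≤ p * x := mul_le_mul_of_nonneg_right h2 hx0.le
      have e : (p : ℝ) * x = 1 := by rw [hx]; field_simp
      linarith
    have h4 : (1 - x) * (1 - x ^ 2) ^ 7 * (1 - x) ^ 2 ≤ (1 - x) ^ 3 := by
      have : (0 : ℝ) ≤ (1 - x) ^ 3 := pow_nonneg (by linarith) 3
      calc (1 - x) * (1 - x ^ 2) ^ 7 * (1 - x) ^ 2 = (1 - x) ^ 3 * (1 - x ^ 2) ^ 7 := by ring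
        _ ≤ (1 - x) ^ 3 * 1 := mul_le_mul_of_nonneg_left hq1 this
        _ = (1 - x) ^ 3 := mul_one _
    have h5' : (1 - x) ^ 3 ≤ x := by
      have h6 : p = 2 ∨ p = 3 := by
        have := hp.two_le
        interval_cases p
        · left; rfl
        · right; rfl
        · exact absurd hp (by norm_num)
      rcases h6 with h | h
      · rw [h] at hx
        rw [hx]
        norm_num
      · rw [h] at hx
        rw [hx]
        norm_num
    linarith
  · have hp5 : (5 : ℝ) ≤ p := by exact_mod_cast h5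
    have hx5 : x ≤ 1 / 5 := by
      rw [hx]
      exact one_div_le_one_div_of_le (by norm_num) hp5
    have h1 : (om p n : ℝ) ≤ 3 := by exact_mod_cast gal_om_le hp n
    have h2 : 1 - 3 * x ≤ 1 - om p n * x := by nlinarith
    refine le_trans ?_ h2
    have h3 : (1 - x) ^ 3 ≤ (1 - 3 * x) * (1 + 7 * x ^ 2) := by
      nlinarith [mul_nonneg (sq_nonneg x) (show (0 : ℝ) ≤ 1 - 5 * x by linarith)]
    have h4 := gal_pow7 (sq_nonneg x) hx2'
    calc (1 - x) * (1 - x ^ 2) ^ 7 * (1 - x) ^ 2 = (1 - x) ^ 3 * (1 - x ^ 2) ^ 7 := by ring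
      _ ≤ (1 - 3 * x) * (1 + 7 * x ^ 2) * (1 - x ^ 2) ^ 7 := mul_le_mul_of_nonneg_right h3 hq0
      _ = (1 - 3 * x) * ((1 - x ^ 2) ^ 7 * (1 + 7 * x ^ 2)) := by ring
      _ ≤ (1 - 3 * x) * 1 := mul_le_mul_of_nonneg_left h4 (by linarith)
      _ = 1 - 3 * x := mul_one _

/-- the local factor from above -/
theorem gal_up {p : ℕ} (hp : p.Prime) (n : ℕ) :
    (1 - (om p n : ℝ) / p) / (1 - 1 / (p : ℝ)) ^ 2 ≤ (1 - 1 / (p : ℝ))⁻¹ := by
  have hp2 : (2 : ℝ) ≤ p := by exact_mod_cast hp.two_le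
  have hp0 : (0 : ℝ) < p := by linarith
  have h1 : (1 : ℝ) ≤ om p n := by exact_mod_cast gal_om_pos hp n
  have h2 : 1 / (p : ℝ) ≤ (om p n : ℝ) / p := div_le_div_of_nonneg_right h1 hp0.le
  have h3 : 1 / (p : ℝ) ≤ 1 / 2 := one_div_le_one_div_of_le (by norm_num) hp2
  have h4 : 0 < 1 - 1 / (p : ℝ) := by linarith
  rw [div_le_iff₀ (pow_pos h4 2), sq, ← mul_assoc, inv_mul_cancel₀ h4.ne', one_mul]
  linarith

theorem gal_prod (z : ℕ) (hz : 1 ≤ z) :
    ((z : ℝ) + 1) / (2 * z) ≤ ∏ p ∈ pr z, (1 - 1 / (p : ℝ) ^ 2) := by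
  induction z, hz using Nat.le_induction with
  | base =>
    have : pr 1 = ∅ := by
      ext p
      rw [gal_mem]
      constructor
      · rintro ⟨h1, h2⟩
        exact absurd h2.two_le (by omega)
      · intro h
        simp at h
    rw [this, Finset.prod_empty]
    norm_num
  | succ z hz ih =>
    have hz0 : (0 : ℝ) < z := by exact_mod_cast hz
    have key : ((z : ℝ) + 1) / (2 * z) * (1 - 1 / ((z : ℝ) + 1) ^ 2) =
        (((z + 1 : ℕ) : ℝ) + 1) / (2 * ((z + 1 : ℕ) : ℝ)) := by
      push_cast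
      field_simp
      ring
    have hf : 0 ≤ 1 - 1 / ((z : ℝ) + 1) ^ 2 := by
      rw [sub_nonneg, div_le_one (by positivity)]
      nlinarith
    have hf1 : 1 - 1 / ((z : ℝ) + 1) ^ 2 ≤ 1 := by
      have : 0 ≤ 1 / ((z : ℝ) + 1) ^ 2 := by positivity
      linarith
    have hP : 0 ≤ ∏ p ∈ pr z, (1 - 1 / (p : ℝ) ^ 2) := le_trans (by positivity) ih
    by_cases hp : (z + 1).Prime
    · have e : pr (z + 1) = insert (z + 1) (pr z) := by
        ext p
        rw [Finset.mem_insert, gal_mem, gal_mem]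
        constructor
        · rintro ⟨h1, h2⟩
          rcases Nat.lt_or_ge z p with h3 | h3
          · left
            omega
          · right
            exact ⟨h3, h2⟩
        · rintro (rfl | ⟨h1, h2⟩)
          · exact ⟨le_rfl, hp⟩
          · exact ⟨by omega, h2⟩
      rw [e, Finset.prod_insert (by rw [gal_mem]; omega), ← key, mul_comm]
      push_cast
      exact mul_le_mul_of_nonneg_left ih hf
    · have e : pr (z + 1) = pr z := by
        ext p
        rw [gal_mem, gal_mem]
        constructor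
        · rintro ⟨h1, h2⟩
          refine ⟨?_, h2⟩
          rcases Nat.lt_or_ge z p with h3 | h3
          · exfalso
            apply hp
            rwa [show z + 1 = p by omega]
          · exact h3
        · rintro ⟨h1, h2⟩
          exact ⟨by omega, h2⟩
      rw [e, ← key]
      calc ((z : ℝ) + 1) / (2 * z) * (1 - 1 / ((z : ℝ) + 1) ^ 2) ≤
          ((z : ℝ) + 1) / (2 * z) * 1 := mul_le_mul_of_nonneg_left hf1 (by positivity)
        _ = ((z : ℝ) + 1) / (2 * z) := mul_one _
        _ ≤ _ := ih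

theorem thm_GAl : St_GAl := by
  obtain ⟨c, hc, hrho⟩ := Pool.Agent.GBQ.thm_RhoLow
  have hl2 : 0 < Real.log 2 := Real.log_pos (by norm_num)
  refine ⟨c / 128, 1 / (c * Real.log 2), by positivity, by positivity, ?_⟩
  intro z n hz
  have hzr : (2 : ℝ) ≤ z := by exact_mod_cast hz
  have hlz : Real.log 2 ≤ Real.log z := Real.log_le_log (by norm_num) hzr
  have hlz0 : 0 < Real.log z := lt_of_lt_of_le hl2 hlz
  have hr := hrho z hz
  have hr0 : 0 < rho z := lt_of_lt_of_le (by positivity) hr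
  have hpos : ∀ p ∈ pr z, (0 : ℝ) < 1 - 1 / (p : ℝ) := by
    intro p hp
    have hp2 : (2 : ℝ) ≤ p := by exact_mod_cast (gal_mem.1 hp).2.two_le
    have h3 : 1 / (p : ℝ) ≤ 1 / 2 := one_div_le_one_div_of_le (by norm_num) hp2
    linarith
  have hpos2 : ∀ p ∈ pr z, (0 : ℝ) ≤ 1 - 1 / (p : ℝ) ^ 2 := by
    intro p hp
    have hp2 : (2 : ℝ) ≤ p := by exact_mod_cast (gal_mem.1 hp).2.two_le
    rw [sub_nonneg, div_le_one (by positivity)]
    nlinarith
  constructor
  · have h1 : rho z * (∏ p ∈ pr z, (1 - 1 / (p : ℝ) ^ 2)) ^ 7 ≤ GA z n := by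
      rw [GA, rho, ← Finset.prod_pow, ← Finset.prod_mul_distrib]
      apply Finset.prod_le_prod
      · intro p hp
        exact mul_nonneg (hpos p hp).le (pow_nonneg (hpos2 p hp) 7)
      · intro p hp
        exact gal_low (gal_mem.1 hp).2 n
    have h2 : (1 : ℝ) / 2 ≤ ∏ p ∈ pr z, (1 - 1 / (p : ℝ) ^ 2) := by
      refine le_trans ?_ (gal_prod z (by omega))
      rw [div_le_div_iff₀ (by norm_num) (by positivity)]
      linarith
    have h3 : (1 : ℝ) / 128 ≤ (∏ p ∈ pr z, (1 - 1 / (p : ℝ) ^ 2)) ^ 7 := by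
      have := pow_le_pow_left₀ (by norm_num) h2 7
      norm_num at this ⊢
      exact this
    calc c / 128 / Real.log z = c / Real.log z * (1 / 128) := by ring
      _ ≤ rho z * (∏ p ∈ pr z, (1 - 1 / (p : ℝ) ^ 2)) ^ 7 :=
          mul_le_mul hr h3 (by norm_num) hr0.le
      _ ≤ GA z n := h1
  · have h1 : GA z n ≤ (rho z)⁻¹ := by
      rw [GA, rho, ← Finset.prod_inv_distrib]
      apply Finset.prod_le_prod
      · intro p hp
        refine le_trans ?_ (gal_low (gal_mem.1 hp).2 n)
        exact mul_nonneg (hpos p hp).le (pow_nonneg (hpos2 p hp) 7)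
      · intro p hp
        exact gal_up (gal_mem.1 hp).2 n
    have h2 : (rho z)⁻¹ ≤ Real.log z / c := by
      rw [inv_le_comm₀ hr0 (by positivity), inv_div]
      exact hr
    refine h1.trans (h2.trans ?_)
    rw [div_le_iff₀ hc]
    have e : 1 / (c * Real.log 2) * Real.log z ^ 2 * c = Real.log z * (Real.log z / Real.log 2) := by
      field_simp
    rw [e]
    have h3 : 1 ≤ Real.log z / Real.log 2 := by
      rw [le_div_iff₀ hl2, one_mul]
      exact hlz
    nlinarith

end Pool.Agent.NRP
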