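import Mathlib
import Pool.Agent.NRP.StN

set_option autoImplicit false

/-!
# NRP: local Fourier uniformity in progressions to small moduli
-/

namespace Pool.Agent.NRP

open Finset Filter
open Pool.Agent.GBQ (ee nd gm lam LamS zz rho pr)

namespace LocAPX

theorem norm_ee (x : ℝ) : ‖ee x‖ = 1 := Complex.norm_exp_ofReal_mul_I _

theorem ee_add (x y : ℝ) : ee (x + y) = ee x * ee y := by
  unfold ee
  rw [← Complex.exp_add]
  congr 1
  push_cast
  ring

theorem ee_int (n : ℤ) : ee n = 1 := by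
  unfold ee
  have := Complex.exp_int_mul_two_pi_mul_I n
  rw [← this]
  congr 1
  push_cast
  ring

theorem ee_pow (x : ℝ) (j : ℕ) : ee (j * x) = ee x ^ j := by
  unfold ee
  rw [← Complex.exp_nat_mul]
  congr 1
  push_cast
  ring

/-- additive characters detect divisibility -/
theorem detect (q : ℕ) (hq : 1 ≤ q) (d : ℤ) :
    ∑ a ∈ range q, ee ((a : ℝ) / q * d) = if (q : ℤ) ∣ d then (q : ℂ) else 0 := by
  have hq0 : (q : ℝ) ≠ 0 := by
    have : (1 : ℝ) ≤ q := by exact_mod_cast hq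
    linarith
  split_ifs with h
  · obtain ⟨k, rfl⟩ := h
    have h1 : ∀ a ∈ range q, ee ((a : ℝ) / q * (((q : ℤ) * k : ℤ) : ℝ)) = 1 := by
      intro a _
      rw [← ee_int ((a : ℤ) * k)]
      congr 1
      push_cast
      field_simp
    rw [sum_congr rfl h1, sum_const, card_range, nsmul_eq_mul, mul_one]
  · have h1 : ∀ a ∈ range q, ee ((a : ℝ) / q * d) = ee ((d : ℝ) / q) ^ a := by
      intro a _
      rw [← ee_pow]
      congr 1
      ring
    rw [sum_congr rfl h1]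
    have h2 : ee ((d : ℝ) / q) ≠ 1 := by
      intro h3
      unfold ee at h3
      rw [Complex.exp_eq_one_iff] at h3
      obtain ⟨n, hn⟩ := h3
      have h4 : ((2 * Real.pi * ((d : ℝ) / q) : ℝ) : ℂ) = ((n * (2 * Real.pi) : ℝ) : ℂ) := by
        have h5 : ((2 * Real.pi * ((d : ℝ) / q) : ℝ) : ℂ) * Complex.I =
            ((n * (2 * Real.pi) : ℝ) : ℂ) * Complex.I := by
          rw [hn]
          push_cast
          ring
        exact mul_right_cancel₀ Complex.I_ne_zero h5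
      have h5 : 2 * Real.pi * ((d : ℝ) / q) = n * (2 * Real.pi) := by exact_mod_cast h4
      have hpi : (2 * Real.pi) ≠ 0 := by positivity
      have h6 : (d : ℝ) / q = n := by
        apply mul_left_cancel₀ hpi
        linarith
      rw [div_eq_iff hq0] at h6
      apply h
      refine ⟨n, ?_⟩
      have h7 : (d : ℝ) = (((q : ℤ) * n : ℤ) : ℝ) := by
        push_cast
        linarith
      exact_mod_cast h7
    rw [geom_sum_eq h2, ← ee_pow]
    have h3 : (q : ℝ) * ((d : ℝ) / q) = d := by field_simp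
    rw [h3, ee_int, sub_self, zero_div]

/-- the progression as a part of the window -/
theorem sum_prog (q L : ℕ) (hq : 1 ≤ q) (F : ℤ → ℂ) (n : ℤ) :
    ∑ y ∈ Icc (1 : ℤ) L, F (n + q * y) =
      ∑ m ∈ Ioc n (n + ((q * L : ℕ) : ℤ)), if (q : ℤ) ∣ m - n then F m else 0 := by
  have hq' : (0 : ℤ) < q := by exact_mod_cast hq
  rw [← sum_filter]
  refine sum_bij (fun y _ => n + q * y) ?_ ?_ ?_ ?_
  · intro y hy
    rw [mem_Icc] at hy
    rw [mem_filter, mem_Ioc]
    refine ⟨⟨?_, ?_⟩, ?_⟩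
    · nlinarith [hy.1]
    · push_cast
      nlinarith [hy.2]
    · exact ⟨y, by ring⟩
  · intro y _ z _ h
    have h1 : (q : ℤ) * y = q * z := by linarith
    exact mul_left_cancel₀ hq'.ne' h1
  · intro m hm
    rw [mem_filter, mem_Ioc] at hm
    obtain ⟨⟨h1, h2⟩, k, hk⟩ := hm
    refine ⟨k, ?_, ?_⟩
    · rw [mem_Icc]
      push_cast at h2
      constructor
      · by_contra h3
        push Not at h3
        have : k ≤ 0 := by omega
        nlinarith
      · by_contra h3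
        push Not at h3
        nlinarith
    · linarith
  · intro y _
    rfl

/-- detection of the progression by additive characters -/
theorem sq_le (q L : ℕ) (hq : 1 ≤ q) (g : ℤ → ℂ) (β : ℝ) (n : ℤ) :
    ‖∑ y ∈ Icc (1 : ℤ) L, g (n + q * y) * ee (β * (q * y))‖ ^ 2 ≤
      (1 / q : ℝ) * ∑ a ∈ range q,
        ‖∑ m ∈ Ioc n (n + ((q * L : ℕ) : ℤ)), g m * ee ((β + a / q) * m)‖ ^ 2 := by
  have hq1 : (1 : ℝ) ≤ q := by exact_mod_cast hq
  have hq0 : (0 : ℝ) < q := by linarith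
  set S : ℕ → ℂ := fun a => ∑ m ∈ Ioc n (n + ((q * L : ℕ) : ℤ)), g m * ee ((β + a / q) * m) with hS
  set T : ℂ := ∑ y ∈ Icc (1 : ℤ) L, g (n + q * y) * ee (β * (q * y)) with hT
  have h1 : (q : ℂ) * T = ∑ a ∈ range q, ee (-((β + a / q) * n)) * S a := by
    have h2 : T = ∑ y ∈ Icc (1 : ℤ) L, (fun m : ℤ => g m * ee (β * (m - n))) (n + q * y) := by
      refine sum_congr rfl fun y _ => ?_
      simp only
      congr 2
      push_cast
      ring
    rw [h2, sum_prog q L hq (fun m : ℤ => g m * ee (β * (m - n))) n, mul_sum]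
    simp only [hS, mul_sum]
    rw [sum_comm]
    refine sum_congr rfl fun m _ => ?_
    have h3 := detect q hq (m - n)
    have h4 : (q : ℂ) * (if (q : ℤ) ∣ m - n then g m * ee (β * (m - n)) else 0) =
        (if (q : ℤ) ∣ m - n then (q : ℂ) else 0) * (g m * ee (β * (m - n))) := by
      split_ifs
      · rfl
      · simp
    rw [h4, ← h3, sum_mul]
    refine sum_congr rfl fun a _ => ?_
    have h5 : ee ((a : ℝ) / q * ((m - n : ℤ) : ℝ)) * ee (β * (m - n)) =
        ee (-((β + a / q) * n)) * ee ((β + a / q) * m) := by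
      rw [← ee_add, ← ee_add]
      congr 1
      push_cast
      ring
    calc ee ((a : ℝ) / q * ((m - n : ℤ) : ℝ)) * (g m * ee (β * (m - n)))
        = g m * (ee ((a : ℝ) / q * ((m - n : ℤ) : ℝ)) * ee (β * (m - n))) := by ring
      _ = _ := by
          rw [h5]
          ring
  have h2 : (q : ℝ) * ‖T‖ ≤ ∑ a ∈ range q, ‖S a‖ := by
    have h3 : (q : ℝ) * ‖T‖ = ‖(q : ℂ) * T‖ := by
      rw [norm_mul, Complex.norm_natCast]
    rw [h3, h1]
    refine (norm_sum_le _ _).trans (sum_le_sum fun a _ => ?_)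
    rw [norm_mul, norm_ee, one_mul]
  have h3 : (∑ a ∈ range q, ‖S a‖) ^ 2 ≤ q * ∑ a ∈ range q, ‖S a‖ ^ 2 := by
    have := sq_sum_le_card_mul_sum_sq (s := range q) (f := fun a => ‖S a‖)
    rwa [card_range] at this
  have h4 : ((q : ℝ) * ‖T‖) ^ 2 ≤ q * ∑ a ∈ range q, ‖S a‖ ^ 2 :=
    (pow_le_pow_left₀ (by positivity) h2 2).trans h3
  rw [one_div, inv_mul_eq_div, le_div_iff₀ hq0]
  have h5 : (q : ℝ) * (‖T‖ ^ 2 * q) ≤ q * ∑ a ∈ range q, ‖S a‖ ^ 2 := by
    calc (q : ℝ) * (‖T‖ ^ 2 * q) = ((q : ℝ) * ‖T‖) ^ 2 := by ring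
      _ ≤ _ := h4
  exact le_of_mul_le_mul_left h5 hq0

/-- the window sums have finite support -/
theorem fin_supp (u v M : ℕ) (g : ℤ → ℂ) (hg : ∀ n : ℤ, ¬ ((u : ℤ) < n ∧ n ≤ v) → g n = 0)
    (θ : ℝ) : Summable (fun n : ℤ => ‖∑ m ∈ Ioc n (n + (M : ℤ)), g m * ee (θ * m)‖ ^ 2) := by
  apply summable_of_hasFiniteSupport
  refine (Set.finite_Icc ((u : ℤ) - M) (v : ℤ)).subset fun n hn => ?_
  rw [Set.mem_Icc]
  by_contra hcon
  apply hn
  have : ∑ m ∈ Ioc n (n + (M : ℤ)), g m * ee (θ * m) = 0 := by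
    refine sum_eq_zero fun m hm => ?_
    rw [mem_Ioc] at hm
    rw [hg m (by
      rintro ⟨h1, h2⟩
      apply hcon
      constructor <;> omega), zero_mul]
  simp only [this]
  simp

end LocAPX

open LocAPX in
theorem thm_LocAP (hL : St_Loc) : St_LocAP := by
  intro A C
  obtain ⟨B₀, h⟩ := hL (A + 2 * C) C
  refine ⟨B₀, fun B hB => ?_⟩
  have hlog : ∀ᶠ X : ℕ in atTop, 1 ≤ Real.log X :=
    (Real.tendsto_log_atTop.comp tendsto_natCast_atTop_atTop).eventually_ge_atTop 1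
  filter_upwards [h B hB, hlog] with X hX hlX u v hv q L hq hqC hL1 hL2 β
  set g : ℤ → ℂ := fun n => ((gI (zz B X) u v n : ℝ) : ℂ) with hg
  have hg0 : ∀ n : ℤ, ¬ ((u : ℤ) < n ∧ n ≤ v) → g n = 0 := by
    intro n hn
    simp only [hg, gI, if_neg hn, Complex.ofReal_zero]
  have hq1 : (1 : ℝ) ≤ q := by exact_mod_cast hq
  have hq0 : (0 : ℝ) < q := by linarith
  have hl0 : 0 < Real.log X := by linarith
  have hX' := hX u v hv (q * L) (by
    push_cast
    have : (0 : ℝ) ≤ L := by positivity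
    nlinarith) (by
    push_cast
    have h0 : (0 : ℝ) ≤ Real.sqrt X := Real.sqrt_nonneg _
    have h1 : (0 : ℝ) ≤ Real.log X ^ C := by positivity
    calc (q : ℝ) * L ≤ Real.log X ^ C * Real.sqrt X :=
          mul_le_mul hqC hL2 (by positivity) h1
      _ = _ := by ring)
  have hsum : ∀ a : ℕ, Summable (fun n : ℤ =>
      ‖∑ m ∈ Ioc n (n + ((q * L : ℕ) : ℤ)), g m * ee ((β + a / q) * m)‖ ^ 2) :=
    fun a => fin_supp u v (q * L) g hg0 _
  have hsum2 : Summable (fun n : ℤ => (1 / q : ℝ) * ∑ a ∈ range q,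
      ‖∑ m ∈ Ioc n (n + ((q * L : ℕ) : ℤ)), g m * ee ((β + a / q) * m)‖ ^ 2) :=
    (summable_sum fun a _ => hsum a).mul_left _
  have hsum1 : Summable (fun n : ℤ =>
      ‖∑ y ∈ Icc (1 : ℤ) L, g (n + q * y) * ee (β * (q * y))‖ ^ 2) :=
    Summable.of_nonneg_of_le (fun n => by positivity) (fun n => sq_le q L hq g β n) hsum2
  calc ∑' n : ℤ, ‖∑ y ∈ Icc (1 : ℤ) L, g (n + q * y) * ee (β * (q * y))‖ ^ 2
      ≤ ∑' n : ℤ, (1 / q : ℝ) * ∑ a ∈ range q,
        ‖∑ m ∈ Ioc n (n + ((q * L : ℕ) : ℤ)), g m * ee ((β + a / q) * m)‖ ^ 2 :=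
        hsum1.tsum_le_tsum (fun n => sq_le q L hq g β n) hsum2
    _ = (1 / q : ℝ) * ∑ a ∈ range q, ∑' n : ℤ,
        ‖∑ m ∈ Ioc n (n + ((q * L : ℕ) : ℤ)), g m * ee ((β + a / q) * m)‖ ^ 2 := by
        rw [tsum_mul_left, Summable.tsum_finsetSum fun a _ => hsum a]
    _ ≤ (1 / q : ℝ) * ∑ a ∈ range q, (X * ((q * L : ℕ) : ℝ) ^ 2 / Real.log X ^ (A + 2 * C)) := by
        refine mul_le_mul_of_nonneg_left (sum_le_sum fun a _ => ?_) (by positivity)
        exact hX' (β + a / q)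
    _ = X * ((q * L : ℕ) : ℝ) ^ 2 / Real.log X ^ (A + 2 * C) := by
        rw [sum_const, card_range, nsmul_eq_mul, ← mul_assoc, one_div, inv_mul_cancel₀ hq0.ne',
          one_mul]
    _ ≤ X * (L : ℝ) ^ 2 / Real.log X ^ A := by
        push_cast
        rw [div_le_div_iff₀ (by positivity) (by positivity)]
        have h1 : (q : ℝ) ^ 2 ≤ Real.log X ^ (2 * C) := by
          rw [mul_comm 2 C, pow_mul]
          exact pow_le_pow_left₀ hq0.le hqC 2
        have h2 : (0 : ℝ) ≤ X * (L : ℝ) ^ 2 * Real.log X ^ A := by positivity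
        calc (X : ℝ) * (q * L) ^ 2 * Real.log X ^ A =
            (X * (L : ℝ) ^ 2 * Real.log X ^ A) * (q : ℝ) ^ 2 := by ring
          _ ≤ (X * (L : ℝ) ^ 2 * Real.log X ^ A) * Real.log X ^ (2 * C) :=
              mul_le_mul_of_nonneg_left h1 h2
          _ = X * (L : ℝ) ^ 2 * Real.log X ^ (A + 2 * C) := by
              rw [pow_add]
              ring

end Pool.Agent.NRP
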