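import Mathlib
import Pool.Agent.NRP.StN
import Pool.Agent.GBQ.LSAP
import Pool.Agent.GBQ.Bonf
import Pool.Agent.GBQ.Esym
import Pool.Agent.GBQ.Trunc

set_option autoImplicit false

/-!
# NRP / ModS

The sieve model in short residue classes, sharp (Bonferroni), see `GBQ/LSAP.lean`.
-/

namespace Pool.Agent.NRP

open Finset Filter
open Pool.Agent.GBQ

theorem modS_count (u L d r : ℕ) (hd : 1 ≤ d) :
    |(((Ioc u (u + L)).filter (fun n => n % d = r % d)).card : ℝ) - (L : ℝ) / d| ≤ 1 := by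
  have h : ((((Ioc u (u + L)).filter (fun n => n % d = r % d)).card : ℕ) : ℤ) =
      max (⌊(((u + L : ℕ) : ℚ) - r) / (d : ℚ)⌋ - ⌊((u : ℚ) - r) / (d : ℚ)⌋) 0 :=
    Nat.Ioc_filter_modEq_card u (u + L) hd r
  have hd0 : (0 : ℚ) < d := by exact_mod_cast hd
  have e : (((u + L : ℕ) : ℚ) - r) / (d : ℚ) = ((u : ℚ) - r) / (d : ℚ) + (L : ℚ) / d := by
    push_cast
    ring
  rw [e] at h
  obtain ⟨y, hy⟩ : ∃ y : ℚ, y = ((u : ℚ) - r) / (d : ℚ) := ⟨_, rfl⟩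
  obtain ⟨w, hw⟩ : ∃ w : ℚ, w = (L : ℚ) / (d : ℚ) := ⟨_, rfl⟩
  have hw0 : 0 ≤ w := by
    rw [hw]
    positivity
  rw [← hy, ← hw] at h
  have h1 := Int.floor_le y
  have h2 := Int.lt_floor_add_one y
  have h3 := Int.floor_le (y + w)
  have h4 := Int.lt_floor_add_one (y + w)
  have h5 : (-1 : ℚ) < ((⌊y + w⌋ - ⌊y⌋ : ℤ) : ℚ) := by
    push_cast
    linarith
  have h6 : 0 ≤ ⌊y + w⌋ - ⌊y⌋ := by
    have h7 : (-1 : ℤ) < ⌊y + w⌋ - ⌊y⌋ := by exact_mod_cast h5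
    omega
  rw [max_eq_left h6] at h
  have h7 : |((((Ioc u (u + L)).filter (fun n => n % d = r % d)).card : ℕ) : ℚ) - w| ≤ 1 := by
    have h8 : ((((Ioc u (u + L)).filter (fun n => n % d = r % d)).card : ℕ) : ℚ) =
        ((⌊y + w⌋ - ⌊y⌋ : ℤ) : ℚ) := by exact_mod_cast h
    rw [h8, abs_le]
    push_cast
    constructor <;> linarith
  rw [hw] at h7
  have h9 : ((|((((Ioc u (u + L)).filter (fun n => n % d = r % d)).card : ℕ) : ℚ) -
      (L : ℚ) / d| : ℚ) : ℝ) ≤ ((1 : ℚ) : ℝ) := by exact_mod_cast h7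
  push_cast at h9
  exact h9

/-- Bonferroni in a class -/
theorem modS_core {S : Finset ℕ} (hS : ∀ p ∈ S, p.Prime) {q a u L : ℕ}
    (hq : 1 ≤ q) (hqS : ∀ p ∈ S, ¬ p ∣ q) (t : ℕ) :
    |∑ x ∈ (Ioc u (u + L)).filter (fun x => x % q = a % q),
        (if ∀ p ∈ S, ¬ p ∣ x then (1 : ℝ) else 0) -
      (1 / (q : ℝ)) * (∏ p ∈ S, (1 - 1 / (p : ℝ))) * L| ≤
      ((S.powerset.filter (fun T => T.card ≤ t)).card : ℝ) +
        ∑ T ∈ S.powersetCard (t + 1), ((L : ℝ) * ∏ p ∈ T, 1 / (p : ℝ) + 1) +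
        (L : ℝ) * ∑ T ∈ S.powerset.filter (fun T => t < T.card), ∏ p ∈ T, 1 / (p : ℝ) := by
  classical
  set F := (Ioc u (u + L)).filter (fun x => x % q = a % q) with hF
  set P := S.powerset.filter (fun T => T.card ≤ t) with hP
  set R := S.powerset.filter (fun T => t < T.card) with hR
  have hL0 : (0 : ℝ) ≤ L := Nat.cast_nonneg L
  -- step 1
  have e1 : |∑ x ∈ F, (if ∀ p ∈ S, ¬ p ∣ x then (1 : ℝ) else 0) -
      ∑ x ∈ F, ∑ T ∈ S.powerset.filter (fun T => T.card ≤ t ∧ ∀ p ∈ T, p ∣ x),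
        (-1 : ℝ) ^ T.card| ≤
      ∑ T ∈ S.powersetCard (t + 1), ((L : ℝ) * ∏ p ∈ T, 1 / (p : ℝ) + 1) := by
    rw [← sum_sub_distrib]
    refine (abs_sum_le_sum_abs _ _).trans ?_
    refine (sum_le_sum fun x _ => thm_Bonf S (fun p => p ∣ x) t).trans ?_
    have e5 : ∑ x ∈ F, (((S.powersetCard (t + 1)).filter (fun T => ∀ p ∈ T, p ∣ x)).card : ℝ) =
        ∑ T ∈ S.powersetCard (t + 1), ((F.filter (fun x => ∀ p ∈ T, p ∣ x)).card : ℝ) := by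
      simp only [card_filter, Nat.cast_sum]
      exact sum_comm
    rw [e5]
    refine sum_le_sum fun T hT => ?_
    have hTS : T ⊆ S := (mem_powersetCard.1 hT).1
    have hTp : ∀ p ∈ T, p.Prime := fun p hp => hS p (hTS hp)
    have hpos : 1 ≤ ∏ p ∈ T, p := prod_pos fun p hp => (hTp p hp).pos
    have e6 : F.filter (fun x => ∀ p ∈ T, p ∣ x) ⊆
        (Ioc u (u + L)).filter (fun x => x % (∏ p ∈ T, p) = 0 % (∏ p ∈ T, p)) := by
      intro x hx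
      obtain ⟨hx1, hx2⟩ := mem_filter.1 hx
      refine mem_filter.2 ⟨(mem_filter.1 hx1).1, ?_⟩
      rw [Nat.zero_mod]
      exact Nat.mod_eq_zero_of_dvd ((lsap_dvd hTp x).1 hx2)
    have e7 : ((F.filter (fun x => ∀ p ∈ T, p ∣ x)).card : ℝ) ≤
        (((Ioc u (u + L)).filter
          (fun x => x % (∏ p ∈ T, p) = 0 % (∏ p ∈ T, p))).card : ℝ) := by
      exact_mod_cast card_le_card e6
    have e8 := (abs_le.1 (modS_count u L (∏ p ∈ T, p) 0 hpos)).2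
    have e9 : (L : ℝ) / ((∏ p ∈ T, p : ℕ) : ℝ) = (L : ℝ) * ∏ p ∈ T, 1 / (p : ℝ) := by
      rw [prod_div_distrib, prod_const_one]
      push_cast
      ring
    rw [e9] at e8
    linarith
  -- step 2: exchange
  have e8 : ∑ x ∈ F, ∑ T ∈ S.powerset.filter (fun T => T.card ≤ t ∧ ∀ p ∈ T, p ∣ x),
        (-1 : ℝ) ^ T.card =
      ∑ T ∈ P, ((-1 : ℝ) ^ T.card) * ((F.filter (fun x => ∀ p ∈ T, p ∣ x)).card : ℝ) := by
    have e9 : ∀ x, ∑ T ∈ S.powerset.filter (fun T => T.card ≤ t ∧ ∀ p ∈ T, p ∣ x),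
        (-1 : ℝ) ^ T.card = ∑ T ∈ P, if ∀ p ∈ T, p ∣ x then ((-1 : ℝ) ^ T.card) else 0 := by
      intro x
      rw [← filter_filter, ← hP, ← sum_filter]
    simp only [e9]
    rw [sum_comm]
    refine sum_congr rfl fun T _ => ?_
    rw [← sum_filter, sum_const, nsmul_eq_mul, mul_comm]
  -- step 3: classes
  have e10 : ∀ T ∈ P, |((-1 : ℝ) ^ T.card) * ((F.filter (fun x => ∀ p ∈ T, p ∣ x)).card : ℝ) -
      ((-1 : ℝ) ^ T.card) * ((1 / (q : ℝ)) * (∏ p ∈ T, 1 / (p : ℝ)) * L)| ≤ 1 := by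
    intro T hT
    have hTS : T ⊆ S := mem_powerset.1 (mem_filter.1 hT).1
    have hTp : ∀ p ∈ T, p.Prime := fun p hp => hS p (hTS hp)
    have hco : q.Coprime (∏ p ∈ T, p) := by
      refine Nat.Coprime.prod_right fun p hp => ?_
      exact ((Nat.Prime.coprime_iff_not_dvd (hTp p hp)).2 (hqS p (hTS hp))).symm
    obtain ⟨r, hr⟩ := lsap_crt hco a
    have e11 : F.filter (fun x => ∀ p ∈ T, p ∣ x) =
        (Ioc u (u + L)).filter (fun x => x % (q * ∏ p ∈ T, p) = r % (q * ∏ p ∈ T, p)) := by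
      ext x
      rw [mem_filter, hF, mem_filter, mem_filter, lsap_dvd hTp, and_assoc, hr]
    have hpos : 1 ≤ q * ∏ p ∈ T, p :=
      Nat.mul_pos hq (prod_pos fun p hp => (hTp p hp).pos)
    rw [← mul_sub, abs_mul, abs_pow, abs_neg, abs_one, one_pow, one_mul, e11]
    have e12 : (1 / (q : ℝ)) * (∏ p ∈ T, 1 / (p : ℝ)) * L =
        (L : ℝ) / ((q * ∏ p ∈ T, p : ℕ) : ℝ) := by
      push_cast
      rw [prod_div_distrib, prod_const_one]
      ring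
    rw [e12]
    exact modS_count u L _ r hpos
  have e13 : |∑ T ∈ P, ((-1 : ℝ) ^ T.card) * ((F.filter (fun x => ∀ p ∈ T, p ∣ x)).card : ℝ) -
      ∑ T ∈ P, ((-1 : ℝ) ^ T.card) * ((1 / (q : ℝ)) * (∏ p ∈ T, 1 / (p : ℝ)) * L)| ≤
      (P.card : ℝ) := by
    rw [← sum_sub_distrib]
    refine (abs_sum_le_sum_abs _ _).trans ((sum_le_sum e10).trans (le_of_eq ?_))
    rw [sum_const, nsmul_eq_mul, mul_one]
  -- step 4: completion
  have e14 : (∏ p ∈ S, (1 - 1 / (p : ℝ))) =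
      ∑ T ∈ P, (-1 : ℝ) ^ T.card * ∏ p ∈ T, 1 / (p : ℝ) +
        ∑ T ∈ R, (-1 : ℝ) ^ T.card * ∏ p ∈ T, 1 / (p : ℝ) := by
    have e15 : (∏ p ∈ S, (1 - 1 / (p : ℝ))) =
        ∑ T ∈ S.powerset, (-1 : ℝ) ^ T.card * ∏ p ∈ T, 1 / (p : ℝ) := by
      have e17 : (∏ p ∈ S, (1 - 1 / (p : ℝ))) = ∏ p ∈ S, (- (1 / (p : ℝ)) + 1) :=
        prod_congr rfl fun p _ => by ring
      rw [e17, Finset.prod_add]
      refine sum_congr rfl fun T _ => ?_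
      rw [prod_const_one, mul_one, prod_neg]
    rw [e15, ← sum_filter_add_sum_filter_not S.powerset (fun T => T.card ≤ t)]
    simp only [not_le]
    rfl
  have e18 : |∑ T ∈ P, ((-1 : ℝ) ^ T.card) * ((1 / (q : ℝ)) * (∏ p ∈ T, 1 / (p : ℝ)) * L) -
      (1 / (q : ℝ)) * (∏ p ∈ S, (1 - 1 / (p : ℝ))) * L| ≤
      (L : ℝ) * ∑ T ∈ R, ∏ p ∈ T, 1 / (p : ℝ) := by
    have e19 : ∑ T ∈ P, ((-1 : ℝ) ^ T.card) * ((1 / (q : ℝ)) * (∏ p ∈ T, 1 / (p : ℝ)) * L) =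
        (1 / (q : ℝ)) * (∑ T ∈ P, (-1 : ℝ) ^ T.card * ∏ p ∈ T, 1 / (p : ℝ)) * L := by
      rw [mul_sum, sum_mul]
      exact sum_congr rfl fun T _ => by ring
    rw [e19, e14]
    have e20 : (1 / (q : ℝ)) * (∑ T ∈ P, (-1 : ℝ) ^ T.card * ∏ p ∈ T, 1 / (p : ℝ)) * L -
        1 / (q : ℝ) * (∑ T ∈ P, (-1 : ℝ) ^ T.card * ∏ p ∈ T, 1 / (p : ℝ) +
          ∑ T ∈ R, (-1 : ℝ) ^ T.card * ∏ p ∈ T, 1 / (p : ℝ)) * L =
        - ((1 / (q : ℝ)) * (∑ T ∈ R, (-1 : ℝ) ^ T.card * ∏ p ∈ T, 1 / (p : ℝ)) * L) := by ring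
    rw [e20, abs_neg, abs_mul, abs_mul, abs_of_nonneg hL0]
    have e21 : |(1 / (q : ℝ))| ≤ 1 := by
      have : (1 : ℝ) ≤ q := by exact_mod_cast hq
      rw [abs_of_nonneg (by positivity), div_le_one (by linarith)]
      exact this
    have e22 : |∑ T ∈ R, (-1 : ℝ) ^ T.card * ∏ p ∈ T, 1 / (p : ℝ)| ≤
        ∑ T ∈ R, ∏ p ∈ T, 1 / (p : ℝ) := by
      refine (abs_sum_le_sum_abs _ _).trans (le_of_eq (sum_congr rfl fun T _ => ?_))
      rw [abs_mul, abs_pow, abs_neg, abs_one, one_pow, one_mul, abs_of_nonneg]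
      exact prod_nonneg fun p _ => by positivity
    have e23 : 0 ≤ ∑ T ∈ R, ∏ p ∈ T, 1 / (p : ℝ) :=
      sum_nonneg fun T _ => prod_nonneg fun p _ => by positivity
    calc |1 / (q : ℝ)| * |∑ T ∈ R, (-1 : ℝ) ^ T.card * ∏ p ∈ T, 1 / (p : ℝ)| * L
        ≤ 1 * (∑ T ∈ R, ∏ p ∈ T, 1 / (p : ℝ)) * L := by gcongr
      _ = _ := by ring
  rw [e8] at e1
  have e24 := abs_add_le
    (∑ x ∈ F, (if ∀ p ∈ S, ¬ p ∣ x then (1 : ℝ) else 0) -
      ∑ T ∈ P, ((-1 : ℝ) ^ T.card) * ((F.filter (fun x => ∀ p ∈ T, p ∣ x)).card : ℝ))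
    (∑ T ∈ P, ((-1 : ℝ) ^ T.card) * ((F.filter (fun x => ∀ p ∈ T, p ∣ x)).card : ℝ) -
      ∑ T ∈ P, ((-1 : ℝ) ^ T.card) * ((1 / (q : ℝ)) * (∏ p ∈ T, 1 / (p : ℝ)) * L))
  have e25 := abs_add_le
    (∑ x ∈ F, (if ∀ p ∈ S, ¬ p ∣ x then (1 : ℝ) else 0) -
      ∑ T ∈ P, ((-1 : ℝ) ^ T.card) * ((1 / (q : ℝ)) * (∏ p ∈ T, 1 / (p : ℝ)) * L))
    (∑ T ∈ P, ((-1 : ℝ) ^ T.card) * ((1 / (q : ℝ)) * (∏ p ∈ T, 1 / (p : ℝ)) * L) -
      (1 / (q : ℝ)) * (∏ p ∈ S, (1 - 1 / (p : ℝ))) * L)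
  rw [sub_add_sub_cancel] at e24 e25
  linarith

/-- the final numerical estimate -/
theorem modS_num {M L Y z δ : ℝ} {A B : ℕ} (hM : 0 ≤ M) (hL : 8 ≤ L)
    (hz : z ≤ L ^ B) (hY0 : 0 < Y) (hY : 8 * L ^ (A + B) * Y ≤ M) (hδ0 : 0 ≤ δ)
    (hδ : δ ≤ 1 / L ^ (A + B + 1)) :
    (z + 1) * (Y + (M * δ + Y) + M * δ) ≤ M / L ^ A := by
  have hL1 : (1 : ℝ) ≤ L := by linarith
  have hL0 : (0 : ℝ) < L := by linarith
  have hLB : 1 ≤ L ^ B := one_le_pow₀ hL1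
  have hLA : 0 < L ^ A := by positivity
  have h1 : z + 1 ≤ 2 * L ^ B := by linarith
  have h2 : Y + (M * δ + Y) + M * δ ≤ 2 * Y + 2 * M / L ^ (A + B + 1) := by
    have h3 : M * δ ≤ M * (1 / L ^ (A + B + 1)) := mul_le_mul_of_nonneg_left hδ hM
    have h6 : 2 * M / L ^ (A + B + 1) = 2 * (M * (1 / L ^ (A + B + 1))) := by ring
    rw [h6]
    linarith
  have h3 : 0 ≤ Y + (M * δ + Y) + M * δ := by positivity
  calc (z + 1) * (Y + (M * δ + Y) + M * δ)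
      ≤ 2 * L ^ B * (2 * Y + 2 * M / L ^ (A + B + 1)) :=
        mul_le_mul h1 h2 h3 (by positivity)
    _ = 8 * L ^ (A + B) * Y / (2 * L ^ A) + 4 * M / (L ^ A * L) := by
        rw [pow_add, pow_add]
        field_simp
        ring
    _ ≤ M / (2 * L ^ A) + M / (2 * L ^ A) := by
        apply add_le_add
        · apply div_le_div_of_nonneg_right hY (by positivity)
        · rw [div_le_div_iff₀ (by positivity) (by positivity)]
          nlinarith [mul_nonneg hM hLA.le]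
    _ = M / L ^ A := by
        field_simp
        ring

theorem modS_rough0 {z q x b : ℕ} (hq : 1 ≤ q) (hqz : q ≤ z) (hb : ¬ b.Coprime q)
    (hx : x % q = b % q) : LamS z x = 0 := by
  unfold LamS
  rw [if_neg]
  intro h
  obtain ⟨p, hp, hpb⟩ := Nat.exists_prime_and_dvd (n := b.gcd q) hb
  have h1 : p ∣ q := hpb.trans (Nat.gcd_dvd_right _ _)
  have h2 : p ∣ b := hpb.trans (Nat.gcd_dvd_left _ _)
  have h3 : x ≡ b [MOD p] := (show x ≡ b [MOD q] from hx).of_dvd h1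
  have h4 : p ∣ x := Nat.modEq_zero_iff_dvd.1 (h3.trans (Nat.modEq_zero_iff_dvd.2 h2))
  exact h p (mem_pr.2 ⟨(Nat.le_of_dvd hq h1).trans hqz, hp⟩) h4

theorem thm_ModS : St_ModS := by
  intro A B ε hε
  filter_upwards [thm_Trunc (A + B + 1) B 1 (ε / 2) one_pos (by positivity), lsap_ev1 8,
    lsap_ev2 8 (A + B) (ε / 2) (by positivity), eventually_ge_atTop 1] with X hX1 hX2 hX3 hX4
  intro z hz2 hzL q b u L hq hqz hu hLX
  obtain ⟨t, ht⟩ := hX1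
  have hXr : (1 : ℝ) ≤ X := by exact_mod_cast hX4
  by_cases hco : b.Coprime q
  swap
  · rw [if_neg hco, sub_zero, sum_eq_zero, abs_zero]
    · have : (0 : ℝ) < Real.log X := by linarith
      positivity
    · intro x hx
      exact modS_rough0 hq hqz hco (mem_filter.1 hx).2
  rw [if_pos hco]
  set ℓ := Real.log X with hℓ
  have hL1 : (1 : ℝ) ≤ ℓ := by linarith
  have hz1 : 1 ≤ z := by omega
  obtain ⟨ht1, ht2⟩ := ht z hzL
  set S := (pr z).filter (fun p => ¬ p ∣ q) with hS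
  have hSp : ∀ p ∈ S, p.Prime := fun p hp => (mem_pr.1 (mem_filter.1 hp).1).2
  have hSz : ∀ p ∈ S, p ≤ z := fun p hp => (mem_pr.1 (mem_filter.1 hp).1).1
  have hSq : ∀ p ∈ S, ¬ p ∣ q := fun p hp => (mem_filter.1 hp).2
  have hS0 : ∀ p ∈ S, 0 ≤ 1 / (p : ℝ) := fun p _ => by positivity
  have hcore := modS_core hSp (a := b) (u := u) (L := L) hq hSq t
  set s := ∑ p ∈ S, 1 / (p : ℝ) with hs
  have hs0 : 0 ≤ s := sum_nonneg hS0
  have hs1 : s ≤ 1 * (1 + Real.log (1 + z)) := lsap_sum S z (filter_subset _ _)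
  have hδ := ht2 s hs0 hs1
  obtain ⟨hE1, _⟩ := thm_Esym S (fun p => 1 / (p : ℝ)) hS0 (t + 1)
  obtain ⟨_, hE2⟩ := thm_Esym S (fun p => 1 / (p : ℝ)) hS0 t
  rw [← hs] at hE1 hE2
  obtain ⟨δ, hδe⟩ : ∃ δ : ℝ, δ = s ^ (t + 1) / ((t + 1).factorial : ℝ) * Real.exp s := ⟨_, rfl⟩
  have hδ0 : 0 ≤ δ := by
    rw [hδe]
    positivity
  have hE3 : s ^ (t + 1) / ((t + 1).factorial : ℝ) ≤ δ := by
    rw [hδe]
    exact le_mul_of_one_le_right (by positivity) (Real.one_le_exp hs0)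
  rw [← hδe] at hδ hE2
  obtain ⟨Y, hY⟩ : ∃ Y : ℝ, Y = (X : ℝ) ^ (ε / 2) := ⟨_, rfl⟩
  have hY0 : 0 < Y := by
    rw [hY]
    positivity
  rw [← hY] at ht1 hX3
  have hzr : (1 : ℝ) ≤ z := by exact_mod_cast hz1
  have hcard1 : ((S.powerset.filter (fun T => T.card ≤ t)).card : ℝ) ≤ Y := by
    have h5 : (S.powerset.filter (fun T => T.card ≤ t)).card ≤ z ^ t :=
      lsap_card hSp hSz hz1 fun T hT => ⟨mem_powerset.1 (mem_filter.1 hT).1, (mem_filter.1 hT).2⟩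
    calc ((S.powerset.filter (fun T => T.card ≤ t)).card : ℝ) ≤ ((z ^ t : ℕ) : ℝ) := by
          exact_mod_cast h5
      _ = (z : ℝ) ^ t := by push_cast; ring
      _ ≤ (z : ℝ) ^ (t + 1) := pow_le_pow_right₀ hzr (Nat.le_succ t)
      _ ≤ Y := ht1
  have hcard2 : ((S.powersetCard (t + 1)).card : ℝ) ≤ Y := by
    have h5 : (S.powersetCard (t + 1)).card ≤ z ^ (t + 1) :=
      lsap_card hSp hSz hz1 fun T hT => ⟨(mem_powersetCard.1 hT).1, (mem_powersetCard.1 hT).2.le⟩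
    calc ((S.powersetCard (t + 1)).card : ℝ) ≤ ((z ^ (t + 1) : ℕ) : ℝ) := by
          exact_mod_cast h5
      _ = (z : ℝ) ^ (t + 1) := by push_cast; ring
      _ ≤ Y := ht1
  have hL0 : (0 : ℝ) ≤ L := Nat.cast_nonneg L
  have hB2 : ∑ T ∈ S.powersetCard (t + 1), ((L : ℝ) * ∏ p ∈ T, 1 / (p : ℝ) + 1) ≤
      L * δ + Y := by
    rw [sum_add_distrib, ← mul_sum, sum_const, nsmul_eq_mul, mul_one]
    exact add_le_add (mul_le_mul_of_nonneg_left (hE1.trans hE3) hL0) hcard2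
  have hbound := hcore.trans (add_le_add (add_le_add hcard1 hB2)
    (mul_le_mul_of_nonneg_left hE2 hL0))
  have htot := lsap_totient (z := z) hq hqz
  rw [← hS] at htot
  have hrho := rho_pos z
  have e1 : ∑ x ∈ (Ioc u (u + L)).filter (fun x => x % q = b % q), LamS z x =
      (rho z)⁻¹ * ∑ x ∈ (Ioc u (u + L)).filter (fun x => x % q = b % q),
        (if ∀ p ∈ S, ¬ p ∣ x then (1 : ℝ) else 0) := by
    rw [mul_sum]
    refine sum_congr rfl fun x hx => ?_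
    have h5 := lsap_rough (z := z) hco (mem_filter.1 hx).2
    rw [← hS] at h5
    unfold LamS
    by_cases h7 : Rough z x
    · rw [if_pos h7, if_pos (h5.1 h7), mul_one]
    · rw [if_neg h7, if_neg (fun h8 => h7 (h5.2 h8)), mul_zero]
  have e2 : (L : ℝ) / (q.totient : ℝ) = (rho z)⁻¹ *
      ((1 / (q : ℝ)) * (∏ p ∈ S, (1 - 1 / (p : ℝ))) * L) := by
    rw [← mul_assoc, ← mul_assoc, htot]
    ring
  rw [e1, e2, ← mul_sub, abs_mul, abs_of_pos (inv_pos.2 hrho)]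
  have hYX : 8 * ℓ ^ (A + B) * Y ≤ L := by
    calc 8 * ℓ ^ (A + B) * Y ≤ Y * Y :=
          mul_le_mul_of_nonneg_right hX3 hY0.le
      _ = (X : ℝ) ^ ε := by
          rw [hY, ← Real.rpow_add (by linarith), add_halves]
      _ ≤ L := hLX
  calc (rho z)⁻¹ * _ ≤ ((z : ℝ) + 1) * (Y + (L * δ + Y) + L * δ) :=
        mul_le_mul (rho_inv_le z) hbound (abs_nonneg _) (by positivity)
    _ ≤ L / ℓ ^ A := modS_num hL0 hX2 hzL hY0 hYX hδ0 hδ

end Pool.Agent.NRP
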