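import Pool.Agent.NRP.StN
import Pool.Agent.GBQ.RhoLow

set_option autoImplicit false

/-!
# NRP, module Sing: the singular series
-/

namespace Pool.Agent.NRP

open Finset Filter
open Pool.Agent.GBQ (ee nd gm lam LamS zz rho pr)

/-! ### Residue classes -/

theorem Sing_refl_le (S : Finset ℤ) (a p : ℤ) :
    ((S.image (fun x => a - x)).image (fun x => x % p)).card ≤
      (S.image (fun x => x % p)).card := by
  have : (S.image (fun x => a - x)).image (fun x => x % p) =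
      (S.image (fun x => x % p)).image (fun r => (a - r) % p) := by
    rw [image_image, image_image]
    refine image_congr fun x _ => ?_
    simp only [Function.comp_apply]
    rw [Int.sub_emod a x p, Int.sub_emod a (x % p) p, Int.emod_emod_of_dvd x dvd_rfl]
  rw [this]
  exact card_image_le

theorem Sing_refl (S : Finset ℤ) (a p : ℤ) :
    ((S.image (fun x => a - x)).image (fun x => x % p)).card =
      (S.image (fun x => x % p)).card := by
  refine le_antisymm (Sing_refl_le S a p) ?_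
  have h := Sing_refl_le (S.image (fun x => a - x)) a p
  have e : (S.image (fun x => a - x)).image (fun x => a - x) = S := by
    rw [image_image]
    conv_rhs => rw [← image_id (s := S)]
    refine image_congr fun x _ => ?_
    simp
  rwa [e] at h

theorem Sing_locf_refl (S : Finset ℤ) (a : ℤ) (k p : ℕ) :
    locf (S.image (fun x => a - x)) k p = locf S k p := by
  unfold locf
  rw [Sing_refl]

theorem Sing_GS_refl (S : Finset ℤ) (a : ℤ) (z : ℕ) :
    GS z (S.image (fun x => a - x)) = GS z S := by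
  unfold GS
  exact prod_congr rfl fun p _ => Sing_locf_refl S a 3 p

theorem Sing_card_le (a b c : ℤ) (p : ℤ) :
    (({a, b, c} : Finset ℤ).image (fun x => x % p)).card ≤ 3 :=
  card_image_le.trans card_le_three

theorem Sing_card_ge (a b c : ℤ) (p : ℤ) :
    1 ≤ (({a, b, c} : Finset ℤ).image (fun x => x % p)).card := by
  rw [Nat.one_le_iff_ne_zero, Finset.card_ne_zero]
  exact ⟨a % p, mem_image_of_mem _ (by simp)⟩

theorem Sing_dvd {a b p : ℤ} (e : a % p = b % p) : p ∣ b - a :=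
  Int.ModEq.dvd (n := p) e

theorem Sing_card_three {h p : ℕ} (hp : p.Prime) (hd : ¬ p ∣ h * (h + 1)) :
    (({0, (h : ℤ), (h : ℤ) ^ 2 + h} : Finset ℤ).image (fun x => x % (p : ℤ))).card = 3 := by
  have hp' : Prime (p : ℤ) := Nat.prime_iff_prime_int.1 hp
  have h1 : ¬ (p : ℤ) ∣ h := fun e => hd ((Int.natCast_dvd_natCast.1 e).mul_right _)
  rw [image_insert, image_insert, image_singleton, card_eq_three]
  refine ⟨_, _, _, ?_, ?_, ?_, rfl⟩
  · intro e
    apply h1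
    have := Sing_dvd e
    rwa [sub_zero] at this
  · intro e
    apply hd
    have := Sing_dvd e
    rw [sub_zero] at this
    have h2 : ((h * (h + 1) : ℕ) : ℤ) = (h : ℤ) ^ 2 + h := by push_cast; ring
    rw [← h2] at this
    exact Int.natCast_dvd_natCast.1 this
  · intro e
    apply h1
    have := Sing_dvd e
    rw [add_sub_cancel_right] at this
    exact hp'.dvd_of_dvd_pow this

/-! ### Local factors -/

/-- the local factor as a function of the number of classes -/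
noncomputable def Sing_f (c p : ℕ) : ℝ := (1 - (c : ℝ) / p) / (1 - 1 / (p : ℝ)) ^ 3

theorem Sing_u {p : ℕ} (hp : 2 ≤ p) : 0 < 1 / (p : ℝ) ∧ 1 / (p : ℝ) ≤ 1 / 2 := by
  have h2 : (2 : ℝ) ≤ p := by exact_mod_cast hp
  constructor
  · positivity
  · exact one_div_le_one_div_of_le (by norm_num) h2

theorem Sing_cube {u : ℝ} (_h0 : 0 < u) (h1 : u ≤ 1 / 2) : 1 / 8 ≤ (1 - u) ^ 3 := by
  have h : (1 / 2 : ℝ) ≤ 1 - u := by linarith
  calc (1 / 8 : ℝ) = (1 / 2) ^ 3 := by norm_num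
    _ ≤ (1 - u) ^ 3 := pow_le_pow_left₀ (by norm_num) h 3

theorem Sing_id1 (x y w : ℝ) (hw : w ≠ 0) : x / w - 1 - -y = (x - (1 - y) * w) / w := by
  field_simp
  ring

theorem Sing_id2 (x y w : ℝ) (hw : w ≠ 0) : y - (x / w - 1) = ((1 + y) * w - x) / w := by
  field_simp
  ring

/-- all factors -/
theorem Sing_err {c p : ℕ} (hp : 2 ≤ p) (h1 : 1 ≤ c) (h3 : c ≤ 3) :
    |Sing_f c p - 1| ≤ 16 / p := by
  obtain ⟨u0, u1⟩ := Sing_u hp
  unfold Sing_f
  have e1 : (c : ℝ) / p = c * (1 / p) := by ring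
  have e2 : (16 : ℝ) / p = 16 * (1 / p) := by ring
  rw [e1, e2]
  generalize 1 / (p : ℝ) = u at u0 u1 ⊢
  have hc1 : (1 : ℝ) ≤ c := by exact_mod_cast h1
  have hc3 : (c : ℝ) ≤ 3 := by exact_mod_cast h3
  generalize (c : ℝ) = c' at hc1 hc3 ⊢
  have h8 := Sing_cube u0 u1
  have h8' : 0 < (1 - u) ^ 3 := by linarith
  rw [abs_le]
  constructor
  · rw [← sub_nonneg]
    rw [Sing_id1 _ _ _ h8'.ne']
    refine div_nonneg ?_ h8'.le
    have : c' * u ≤ 3 * u := mul_le_mul_of_nonneg_right hc3 u0.le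
    have h9 : 16 * u * (1 / 8) ≤ 16 * u * (1 - u) ^ 3 :=
      mul_le_mul_of_nonneg_left h8 (by positivity)
    nlinarith [mul_pos u0 u0, mul_nonneg (mul_pos u0 u0).le (sub_nonneg.2 u1)]
  · rw [← sub_nonneg]
    rw [Sing_id2 _ _ _ h8'.ne']
    refine div_nonneg ?_ h8'.le
    have : 1 * u ≤ c' * u := mul_le_mul_of_nonneg_right hc1 u0.le
    have h9 : 16 * u * (1 / 8) ≤ 16 * u * (1 - u) ^ 3 :=
      mul_le_mul_of_nonneg_left h8 (by positivity)
    nlinarith [mul_pos u0 u0, mul_nonneg (mul_pos u0 u0).le (sub_nonneg.2 u1)]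

/-- generic factors -/
theorem Sing_err3 {p : ℕ} (hp : 2 ≤ p) : |Sing_f 3 p - 1| ≤ 24 / (p : ℝ) ^ 2 := by
  obtain ⟨u0, u1⟩ := Sing_u hp
  unfold Sing_f
  have e1 : ((3 : ℕ) : ℝ) / p = 3 * (1 / p) := by push_cast; ring
  have e2 : (24 : ℝ) / (p : ℝ) ^ 2 = 24 * (1 / p) ^ 2 := by ring
  rw [e1, e2]
  generalize 1 / (p : ℝ) = u at u0 u1 ⊢
  have h8 := Sing_cube u0 u1
  have h8' : 0 < (1 - u) ^ 3 := by linarith
  have h9 : 24 * u ^ 2 * (1 / 8) ≤ 24 * u ^ 2 * (1 - u) ^ 3 :=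
    mul_le_mul_of_nonneg_left h8 (by positivity)
  rw [abs_le]
  constructor
  · rw [← sub_nonneg]
    rw [Sing_id1 _ _ _ h8'.ne']
    refine div_nonneg ?_ h8'.le
    nlinarith [mul_pos u0 u0, mul_nonneg (mul_pos u0 u0).le (sub_nonneg.2 u1),
      mul_pos (mul_pos u0 u0) u0]
  · rw [← sub_nonneg]
    rw [Sing_id2 _ _ _ h8'.ne']
    refine div_nonneg ?_ h8'.le
    nlinarith [mul_pos u0 u0, mul_nonneg (mul_pos u0 u0).le (sub_nonneg.2 u1),
      mul_pos (mul_pos u0 u0) u0]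

theorem Sing_abs {c p : ℕ} (hp : 2 ≤ p) (h1 : 1 ≤ c) (h3 : c ≤ 3) :
    |Sing_f c p| ≤ ((1 - 1 / (p : ℝ)) ^ 2)⁻¹ := by
  obtain ⟨u0, u1⟩ := Sing_u hp
  unfold Sing_f
  have e1 : (c : ℝ) / p = c * (1 / p) := by ring
  rw [e1]
  generalize 1 / (p : ℝ) = u at u0 u1 ⊢
  have hc1 : (1 : ℝ) ≤ c := by exact_mod_cast h1
  have hc3 : (c : ℝ) ≤ 3 := by exact_mod_cast h3
  generalize (c : ℝ) = c' at hc1 hc3 ⊢
  have h8 : 0 < 1 - u := by linarith
  rw [abs_div, abs_of_pos (pow_pos h8 3), div_le_iff₀ (pow_pos h8 3)]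
  have e : ((1 - u) ^ 2)⁻¹ * (1 - u) ^ 3 = 1 - u := by
    field_simp
  rw [e, abs_le]
  have : c' * u ≤ 3 * u := mul_le_mul_of_nonneg_right hc3 u0.le
  have : 1 * u ≤ c' * u := mul_le_mul_of_nonneg_right hc1 u0.le
  constructor <;> linarith

/-- lower bound for the factors at `p ≥ 5` -/
theorem Sing_low {c p : ℕ} (hp : 5 ≤ p) (h3 : c ≤ 3) :
    Real.exp (-(12 / (p : ℝ) ^ 2)) ≤ Sing_f c p := by
  have h5 : (5 : ℝ) ≤ p := by exact_mod_cast hp
  have u0 : 0 < 1 / (p : ℝ) := by positivity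
  have u1 : 1 / (p : ℝ) ≤ 1 / 5 := one_div_le_one_div_of_le (by norm_num) h5
  unfold Sing_f
  have e1 : (c : ℝ) / p = c * (1 / p) := by ring
  have e2 : (12 : ℝ) / (p : ℝ) ^ 2 = 12 * (1 / p) ^ 2 := by ring
  rw [e1, e2]
  generalize 1 / (p : ℝ) = u at u0 u1 ⊢
  have hc3 : (c : ℝ) ≤ 3 := by exact_mod_cast h3
  generalize (c : ℝ) = c' at hc3 ⊢
  have hx : 6 * u ^ 2 ≤ 1 / 2 := by nlinarith
  have hx0 : 0 < 6 * u ^ 2 := by positivity
  have a1 : Real.exp (-(12 * u ^ 2)) ≤ 1 - 6 * u ^ 2 := by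
    rw [Real.exp_neg]
    have b1 : 12 * u ^ 2 + 1 ≤ Real.exp (12 * u ^ 2) := Real.add_one_le_exp _
    have b2 : (Real.exp (12 * u ^ 2))⁻¹ ≤ (12 * u ^ 2 + 1)⁻¹ := inv_anti₀ (by positivity) b1
    refine b2.trans ?_
    rw [inv_le_iff_one_le_mul₀ (by positivity)]
    nlinarith
  refine a1.trans ?_
  have h8 : 0 < 1 - u := by linarith
  rw [le_div_iff₀ (pow_pos h8 3)]
  have : c' * u ≤ 3 * u := mul_le_mul_of_nonneg_right hc3 u0.le
  have key : 0 ≤ u ^ 2 * (3 - 17 * u + 18 * u ^ 2 - 6 * u ^ 3) := by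
    refine mul_nonneg (by positivity) ?_
    nlinarith [mul_pos u0 u0, mul_nonneg (mul_pos u0 u0).le (sub_nonneg.2 u1)]
  nlinarith

/-! ### Sums over primes -/

/-- the triple -/
abbrev Sing_S (h : ℕ) : Finset ℤ := {0, (h : ℤ), (h : ℤ) ^ 2 + h}

theorem Sing_locf_eq (h p : ℕ) : locf (Sing_S h) 3 p =
    Sing_f (((Sing_S h).image (fun x => x % (p : ℤ))).card) p := rfl

theorem Sing_term {h p : ℕ} (hp : p.Prime) : |locf (Sing_S h) 3 p - 1| ≤
    24 * ((p : ℝ) ^ 2)⁻¹ + (if p ∣ h * (h + 1) then 16 / (p : ℝ) else 0) := by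
  rw [Sing_locf_eq]
  split_ifs with hd
  · refine (Sing_err hp.two_le (Sing_card_ge _ _ _ _) (Sing_card_le _ _ _ _)).trans ?_
    have : (0 : ℝ) ≤ 24 * ((p : ℝ) ^ 2)⁻¹ := by positivity
    linarith
  · rw [Sing_card_three hp hd, add_zero, ← div_eq_mul_inv]
    exact Sing_err3 hp.two_le

theorem Sing_sq {z : ℕ} (hz : 1 ≤ z) (T : Finset ℕ) (hT : ∀ p ∈ T, z < p) :
    ∑ p ∈ T, ((p : ℝ) ^ 2)⁻¹ ≤ 1 / z := by
  have h1 : T ⊆ Ioc z (max z (T.sup id)) := fun p hp =>
    mem_Ioc.2 ⟨hT p hp, le_max_of_le_right (Finset.le_sup (f := id) hp)⟩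
  have h2 : ∑ p ∈ T, ((p : ℝ) ^ 2)⁻¹ ≤ ∑ p ∈ Ioc z (max z (T.sup id)), ((p : ℝ) ^ 2)⁻¹ :=
    sum_le_sum_of_subset_of_nonneg h1 (fun _ _ _ => by positivity)
  have h3 := sum_Ioc_inv_sq_le_sub (α := ℝ) (k := z) (n := max z (T.sup id)) (by omega)
    (le_max_left _ _)
  have h4 : (0 : ℝ) ≤ ((max z (T.sup id) : ℕ) : ℝ)⁻¹ := by positivity
  rw [one_div]
  linarith

theorem Sing_sum {h z : ℕ} (hh : 1 ≤ h) (hz : 1 ≤ z) (T : Finset ℕ)
    (hT : ∀ p ∈ T, p.Prime ∧ z < p) :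
    ∑ p ∈ T, |locf (Sing_S h) 3 p - 1| ≤ (24 + 16 * (h * (h + 1)).primeFactors.card) / z := by
  have z0 : (0 : ℝ) < z := by exact_mod_cast hz
  have h1 : ∑ p ∈ T, |locf (Sing_S h) 3 p - 1| ≤
      ∑ p ∈ T, (24 * ((p : ℝ) ^ 2)⁻¹ + (if p ∣ h * (h + 1) then 16 / (p : ℝ) else 0)) :=
    sum_le_sum fun p hp => Sing_term (hT p hp).1
  rw [sum_add_distrib, ← mul_sum, ← sum_filter] at h1
  have h2 := Sing_sq hz T (fun p hp => (hT p hp).2)
  have h3 : ∑ p ∈ T.filter (fun p => p ∣ h * (h + 1)), 16 / (p : ℝ) ≤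
      (h * (h + 1)).primeFactors.card * (16 / z) := by
    calc ∑ p ∈ T.filter (fun p => p ∣ h * (h + 1)), 16 / (p : ℝ)
        ≤ ∑ p ∈ T.filter (fun p => p ∣ h * (h + 1)), 16 / (z : ℝ) := by
          refine sum_le_sum fun p hp => ?_
          have := (hT p (mem_filter.1 hp).1).2
          exact div_le_div_of_nonneg_left (by norm_num) z0 (by exact_mod_cast this.le)
      _ = (T.filter (fun p => p ∣ h * (h + 1))).card * (16 / z) := by
          rw [sum_const, nsmul_eq_mul]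
      _ ≤ _ := by
          refine mul_le_mul_of_nonneg_right ?_ (by positivity)
          have hsub : T.filter (fun p => p ∣ h * (h + 1)) ⊆ (h * (h + 1)).primeFactors := by
            intro p hp
            rw [mem_filter] at hp
            exact Nat.mem_primeFactors.2 ⟨(hT p hp.1).1, hp.2, by positivity⟩
          exact_mod_cast card_le_card hsub
  have h4 : (24 + 16 * ((h * (h + 1)).primeFactors.card : ℝ)) / z =
      24 * (1 / z) + (h * (h + 1)).primeFactors.card * (16 / z) := by ring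
  rw [h4]
  linarith

theorem Sing_GS_abs (h z : ℕ) : |GS z (Sing_S h)| ≤ ((rho z) ^ 2)⁻¹ := by
  unfold GS rho
  rw [abs_prod, ← prod_pow, ← prod_inv_distrib]
  refine prod_le_prod (fun _ _ => abs_nonneg _) fun p hp => ?_
  rw [Sing_locf_eq]
  exact Sing_abs (GBQ.mem_pr.1 hp).2.two_le (Sing_card_ge _ _ _ _) (Sing_card_le _ _ _ _)

theorem Sing_prod {h z : ℕ} (hh : 1 ≤ h) (hz : 1 ≤ z) (T : Finset ℕ) (hT : ∀ p ∈ T, p.Prime)
    (hsub : pr z ⊆ T) :
    |GS z (Sing_S h) - ∏ p ∈ T, locf (Sing_S h) 3 p| ≤ |GS z (Sing_S h)| *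
      (Real.exp ((24 + 16 * (h * (h + 1)).primeFactors.card) / z) - 1) := by
  have h1 := norm_prod_one_add_sub_one_le (T \ pr z) (fun p => locf (Sing_S h) 3 p - 1)
  simp only [add_sub_cancel, Real.norm_eq_abs] at h1
  have h2 := Sing_sum hh hz (T \ pr z) (fun p hp => by
    rw [Finset.mem_sdiff] at hp
    refine ⟨hT p hp.1, ?_⟩
    by_contra hcon
    exact hp.2 (GBQ.mem_pr.2 ⟨by omega, hT p hp.1⟩))
  have h3 : GS z (Sing_S h) - ∏ p ∈ T, locf (Sing_S h) 3 p =
      GS z (Sing_S h) * -(∏ p ∈ T \ pr z, locf (Sing_S h) 3 p - 1) := by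
    rw [← prod_sdiff hsub]
    unfold GS
    ring
  rw [h3, abs_mul, abs_neg]
  refine mul_le_mul_of_nonneg_left (h1.trans ?_) (abs_nonneg _)
  have := Real.exp_le_exp.2 h2
  linarith

theorem Sing_mult (h : ℕ) (hh : 1 ≤ h) :
    Multipliable (fun p : Nat.Primes => locf (Sing_S h) 3 p) := by
  have h1 : Summable (fun p : Nat.Primes => ‖locf (Sing_S h) 3 p - 1‖) := by
    refine summable_of_sum_le (c := (24 + 16 * (h * (h + 1)).primeFactors.card) / (1 : ℕ))
      (fun p => norm_nonneg _) fun s => ?_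
    have := Sing_sum hh le_rfl (s.map (Function.Embedding.subtype _)) (fun p hp => by
      rw [Finset.mem_map] at hp
      obtain ⟨q, -, rfl⟩ := hp
      exact ⟨q.2, q.2.one_lt⟩)
    rw [sum_map] at this
    exact this
  have h2 := multipliable_one_add_of_summable h1
  simpa using h2

theorem Sing_tail {h z : ℕ} (hh : 1 ≤ h) (hz : 1 ≤ z) :
    |GS z (Sing_S h) - SG h| ≤ |GS z (Sing_S h)| *
      (Real.exp ((24 + 16 * (h * (h + 1)).primeFactors.card) / z) - 1) := by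
  have h1 : Tendsto (fun s : Finset Nat.Primes => ∏ p ∈ s, locf (Sing_S h) 3 p) atTop
      (nhds (SG h)) := (Sing_mult h hh).hasProd
  have h2 : Tendsto (fun s : Finset Nat.Primes =>
      |GS z (Sing_S h) - ∏ p ∈ s, locf (Sing_S h) 3 p|) atTop
      (nhds |GS z (Sing_S h) - SG h|) := (tendsto_const_nhds.sub h1).abs
  refine le_of_tendsto h2 ?_
  filter_upwards [eventually_ge_atTop ((pr z).subtype Nat.Prime)] with s hs
  have h3 := Sing_prod hh hz (s.map (Function.Embedding.subtype _)) (fun p hp => by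
      rw [Finset.mem_map] at hp
      obtain ⟨q, -, rfl⟩ := hp
      exact q.2) (fun p hp => by
      rw [Finset.mem_map]
      exact ⟨⟨p, (GBQ.mem_pr.1 hp).2⟩, hs (mem_subtype.2 hp), rfl⟩)
  rw [prod_map] at h3
  exact h3

theorem Sing_card_pf {h X : ℕ} (hh : 1 ≤ h) (hX : h ≤ X) :
    ((h * (h + 1)).primeFactors.card : ℝ) ≤ 1 + 3 * Real.log X := by
  set k := (h * (h + 1)).primeFactors.card with hk
  have h1 : 2 ^ k ≤ h * (h + 1) := by
    calc 2 ^ k ≤ ∏ p ∈ (h * (h + 1)).primeFactors, p :=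
          Finset.pow_card_le_prod _ _ _ fun p hp => (Nat.prime_of_mem_primeFactors hp).two_le
      _ ≤ h * (h + 1) := Nat.le_of_dvd (by positivity) (Nat.prod_primeFactors_dvd _)
  have h2 : h * (h + 1) ≤ 2 * X ^ 2 := by nlinarith
  have h3 : (2 : ℝ) ^ k ≤ 2 * (X : ℝ) ^ 2 := by exact_mod_cast h1.trans h2
  have hX1 : (1 : ℝ) ≤ X := by exact_mod_cast hh.trans hX
  have h4 := Real.log_le_log (by positivity) h3
  rw [Real.log_pow, Real.log_mul (by norm_num) (by positivity), Real.log_pow] at h4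
  push_cast at h4
  have h5 : 0 ≤ Real.log X := Real.log_nonneg hX1
  have h6 := Real.log_two_gt_d9
  nlinarith

theorem Sing_calc (A B : ℕ) (hAB : A + 2 ≤ B) (c : ℝ) (hc : 0 < c)
    (hrho : ∀ z : ℕ, 2 ≤ z → c / Real.log z ≤ rho z) :
    ∀ᶠ X : ℕ in atTop, ∀ h : ℕ, 1 ≤ h → h ≤ X →
    |GS (zz B X) (Sing_S h) - SG h| ≤ 1 / Real.log X ^ A := by
  have hlog : Tendsto (fun X : ℕ => Real.log (X : ℝ)) atTop atTop :=
    Real.tendsto_log_atTop.comp tendsto_natCast_atTop_atTop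
  have hK : 0 < 352 * ((B : ℝ) / c) ^ 2 + 1 := by positivity
  have hev : ∀ᶠ t : ℝ in atTop, 352 * ((B : ℝ) / c) ^ 2 * Real.log t ^ 2 ≤ t := by
    have h1 := (Real.isLittleO_pow_log_id_atTop (n := 2)).def (c := 1 / (352 * ((B : ℝ) / c) ^ 2 + 1))
      (by positivity)
    filter_upwards [h1, eventually_ge_atTop 0] with t h2 h3
    rw [Real.norm_eq_abs, Real.norm_eq_abs, id, abs_of_nonneg h3, abs_of_nonneg (sq_nonneg _),
      one_div, ← div_eq_inv_mul, le_div_iff₀ hK] at h2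
    nlinarith [sq_nonneg (Real.log t)]
  filter_upwards [hlog.eventually hev, hlog.eventually (eventually_ge_atTop 176)] with X h1 h2 h hh hX
  set t := Real.log (X : ℝ) with ht
  have t1 : (1 : ℝ) ≤ t := by linarith
  have t0 : (0 : ℝ) < t := by linarith
  have p1 : t ^ (A + 2) ≤ t ^ B := pow_le_pow_right₀ t1 hAB
  have p2 : t ^ 2 ≤ t ^ B := pow_le_pow_right₀ t1 (by omega)
  have p3 : 176 * t ≤ t ^ 2 := by nlinarith
  have p0 : 0 < t ^ B := by positivity
  set z := zz B X with hz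
  have z1 : t ^ B / 2 ≤ z := by
    have := Nat.lt_floor_add_one (t ^ B)
    have e : (z : ℝ) = (⌊t ^ B⌋₊ : ℝ) := rfl
    rw [e]
    linarith
  have z2 : (z : ℝ) ≤ t ^ B := Nat.floor_le p0.le
  have z3 : 2 ≤ z := Nat.le_floor (by push_cast; linarith)
  have z3' : (2 : ℝ) ≤ z := by exact_mod_cast z3
  have z0 : (0 : ℝ) < z := by linarith
  have l1 : 0 < Real.log z := Real.log_pos (by linarith)
  have l2 : Real.log z ≤ B * Real.log t := by
    have := Real.log_le_log z0 z2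
    rwa [Real.log_pow] at this
  have r1 := hrho z z3
  have r0 : 0 < c / Real.log z := by positivity
  have r2 : ((rho z) ^ 2)⁻¹ ≤ ((B : ℝ) / c) ^ 2 * Real.log t ^ 2 := by
    calc ((rho z) ^ 2)⁻¹ ≤ ((c / Real.log z) ^ 2)⁻¹ :=
          inv_anti₀ (by positivity) (pow_le_pow_left₀ r0.le r1 2)
      _ = (Real.log z / c) ^ 2 := by rw [← inv_pow, inv_div]
      _ ≤ (B * Real.log t / c) ^ 2 :=
          pow_le_pow_left₀ (by positivity) (div_le_div_of_nonneg_right l2 hc.le) 2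
      _ = _ := by ring
  have e1 : (24 + 16 * ((h * (h + 1)).primeFactors.card : ℝ)) / z ≤ 176 * t / t ^ B := by
    have := Sing_card_pf hh hX
    calc (24 + 16 * ((h * (h + 1)).primeFactors.card : ℝ)) / z ≤ (88 * t) / z :=
          div_le_div_of_nonneg_right (by linarith) z0.le
      _ ≤ (88 * t) / (t ^ B / 2) :=
          div_le_div_of_nonneg_left (by positivity) (by positivity) z1
      _ = _ := by field_simp; ring
  have e2 : 176 * t / t ^ B ≤ 1 := by
    rw [div_le_one p0]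
    linarith
  have e0 : 0 ≤ (24 + 16 * ((h * (h + 1)).primeFactors.card : ℝ)) / z := by positivity
  have e3 : Real.exp ((24 + 16 * ((h * (h + 1)).primeFactors.card : ℝ)) / z) - 1 ≤
      2 * (176 * t / t ^ B) := by
    have := Real.abs_exp_sub_one_le (x := (24 + 16 * ((h * (h + 1)).primeFactors.card : ℝ)) / z)
      (by rw [abs_of_nonneg e0]; linarith)
    rw [abs_of_nonneg e0] at this
    have h9 := le_abs_self (Real.exp ((24 + 16 * ((h * (h + 1)).primeFactors.card : ℝ)) / z) - 1)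
    linarith
  have e4 : 0 ≤ Real.exp ((24 + 16 * ((h * (h + 1)).primeFactors.card : ℝ)) / z) - 1 := by
    have := Real.one_le_exp e0
    linarith
  refine (Sing_tail hh (by omega)).trans ?_
  calc |GS z (Sing_S h)| *
        (Real.exp ((24 + 16 * ((h * (h + 1)).primeFactors.card : ℝ)) / z) - 1)
      ≤ (((B : ℝ) / c) ^ 2 * Real.log t ^ 2) * (2 * (176 * t / t ^ B)) :=
        mul_le_mul ((Sing_GS_abs h z).trans r2) e3 e4 (by positivity)
    _ = (352 * ((B : ℝ) / c) ^ 2 * Real.log t ^ 2) * t / t ^ B := by ring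
    _ ≤ 1 / t ^ A := by
        rw [div_le_div_iff₀ p0 (by positivity)]
        calc (352 * ((B : ℝ) / c) ^ 2 * Real.log t ^ 2) * t * t ^ A
            ≤ t * t * t ^ A := by gcongr
          _ = t ^ (A + 2) := by ring
          _ ≤ 1 * t ^ B := by linarith

theorem Sing_zero {h : ℕ} (hh : ¬ (h % 2 = 0 ∧ h % 3 ≠ 1)) : SG h = 0 := by
  unfold SG
  refine tprod_of_exists_eq_zero ?_
  by_cases h2 : h % 2 = 0
  · have h3 : h % 3 = 1 := by
      by_contra hcon
      exact hh ⟨h2, hcon⟩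
    refine ⟨⟨3, Nat.prime_three⟩, ?_⟩
    have hc : (({0, (h : ℤ), (h : ℤ) ^ 2 + h} : Finset ℤ).image
        (fun x => x % ((3 : ℕ) : ℤ))).card = 3 := by
      have e1 : (h : ℤ) % 3 = 1 := by omega
      have e2 : ((h : ℤ) ^ 2 + h) % 3 = 2 := by
        rw [Int.add_emod, pow_two, Int.mul_emod, e1]
        rfl
      rw [image_insert, image_insert, image_singleton]
      push_cast
      rw [e1, e2]
      rfl
    unfold locf
    simp only [hc]
    norm_num
  · refine ⟨⟨2, Nat.prime_two⟩, ?_⟩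
    have hc : (({0, (h : ℤ), (h : ℤ) ^ 2 + h} : Finset ℤ).image
        (fun x => x % ((2 : ℕ) : ℤ))).card = 2 := by
      have e1 : (h : ℤ) % 2 = 1 := by omega
      have e2 : ((h : ℤ) ^ 2 + h) % 2 = 0 := by
        rw [Int.add_emod, pow_two, Int.mul_emod, e1]
        rfl
      rw [image_insert, image_insert, image_singleton]
      push_cast
      rw [e1, e2]
      rfl
    unfold locf
    simp only [hc]
    norm_num

theorem Sing_two {h : ℕ} (h2 : h % 2 = 0) : 1 ≤ locf (Sing_S h) 3 2 := by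
  have hc : (({0, (h : ℤ), (h : ℤ) ^ 2 + h} : Finset ℤ).image
      (fun x => x % ((2 : ℕ) : ℤ))).card = 1 := by
    have e1 : (h : ℤ) % 2 = 0 := by omega
    have e2 : ((h : ℤ) ^ 2 + h) % 2 = 0 := by
      rw [Int.add_emod, pow_two, Int.mul_emod, e1]
      rfl
    rw [image_insert, image_insert, image_singleton]
    push_cast
    rw [e1, e2]
    rfl
  unfold locf
  simp only [hc]
  norm_num

theorem Sing_three {h : ℕ} (h3 : h % 3 ≠ 1) : 1 ≤ locf (Sing_S h) 3 3 := by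
  have hc : (({0, (h : ℤ), (h : ℤ) ^ 2 + h} : Finset ℤ).image
      (fun x => x % ((3 : ℕ) : ℤ))).card ≤ 2 := by
    have e2 : ((h : ℤ) ^ 2 + h) % 3 = 0 := by
      have h4 : (h : ℤ) % 3 = 0 ∨ (h : ℤ) % 3 = 2 := by omega
      rw [Int.add_emod, pow_two, Int.mul_emod]
      rcases h4 with e1 | e1 <;> rw [e1] <;> rfl
    rw [image_insert, image_insert, image_singleton]
    push_cast
    rw [e2]
    refine (card_le_card (t := {0, (h : ℤ) % 3}) ?_).trans card_le_two
    intro x hx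
    simp only [mem_insert, mem_singleton] at hx ⊢
    rcases hx with rfl | rfl | rfl
    · left; rfl
    · right; rfl
    · left; rfl
  unfold locf
  have hc' : ((({0, (h : ℤ), (h : ℤ) ^ 2 + h} : Finset ℤ).image
      (fun x => x % ((3 : ℕ) : ℤ))).card : ℝ) ≤ 2 := by exact_mod_cast hc
  rw [le_div_iff₀ (by norm_num)]
  push_cast at hc' ⊢
  linarith

theorem Sing_pos : ∃ c : ℝ, 0 < c ∧ ∀ h : ℕ, 1 ≤ h → h % 2 = 0 → h % 3 ≠ 1 → c ≤ SG h := by
  refine ⟨Real.exp (-12), Real.exp_pos _, fun h hh h2 h3 => ?_⟩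
  have h1 : Tendsto (fun s : Finset Nat.Primes => ∏ p ∈ s, locf (Sing_S h) 3 p) atTop
      (nhds (SG h)) := (Sing_mult h hh).hasProd
  refine ge_of_tendsto' h1 fun s => ?_
  have h4 : ∀ p : ℕ, p.Prime → Real.exp (-(12 * ((p : ℝ) ^ 2)⁻¹)) ≤ locf (Sing_S h) 3 p := by
    intro p hp
    have hle : Real.exp (-(12 * ((p : ℝ) ^ 2)⁻¹)) ≤ 1 :=
      Real.exp_le_one_iff.2 (neg_nonpos.2 (by positivity))
    rcases lt_or_ge p 5 with h5 | h5
    · have : p = 2 ∨ p = 3 ∨ p = 4 := by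
        have := hp.two_le
        omega
      rcases this with rfl | rfl | rfl
      · exact hle.trans (Sing_two h2)
      · exact hle.trans (Sing_three h3)
      · exact absurd hp (by norm_num)
    · rw [← div_eq_mul_inv, Sing_locf_eq]
      exact Sing_low h5 (Sing_card_le _ _ _ _)
  have h5 := Sing_sq (z := 1) le_rfl (s.map (Function.Embedding.subtype _)) (fun p hp => by
      rw [Finset.mem_map] at hp
      obtain ⟨q, -, rfl⟩ := hp
      exact q.2.one_lt)
  rw [sum_map] at h5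
  have h5' : ∑ p ∈ s, (((p : ℕ) : ℝ) ^ 2)⁻¹ ≤ 1 :=
    h5.trans (by norm_num)
  calc Real.exp (-12) ≤ Real.exp (-(12 * ∑ p ∈ s, (((p : ℕ) : ℝ) ^ 2)⁻¹)) :=
        Real.exp_le_exp.2 (by linarith)
    _ = ∏ p ∈ s, Real.exp (-(12 * (((p : ℕ) : ℝ) ^ 2)⁻¹)) := by
        rw [← Real.exp_sum, sum_neg_distrib, mul_sum]
    _ ≤ ∏ p ∈ s, locf (Sing_S h) 3 p :=
        prod_le_prod (fun _ _ => (Real.exp_pos _).le) fun p _ => h4 p p.2

/-- the singular series -/
theorem thm_Sing : St_Sing := by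
  refine ⟨Sing_mult, ?_, ?_, ?_, fun h _ => Sing_zero, Sing_pos⟩
  · intro h z
    have e : ({0, (h : ℤ) ^ 2, (h : ℤ) ^ 2 + h} : Finset ℤ) =
        (Sing_S h).image (fun x => ((h : ℤ) ^ 2 + h) - x) := by
      rw [image_insert, image_insert, image_singleton]
      ext x
      simp only [mem_insert, mem_singleton, sub_zero, sub_self, add_sub_cancel_right]
      tauto
    rw [e, Sing_GS_refl]
  · intro h z
    have e : ({0, -h, -h ^ 2 - h} : Finset ℤ) =
        ({0, h, h ^ 2 + h} : Finset ℤ).image (fun x => 0 - x) := by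
      rw [image_insert, image_insert, image_singleton]
      congr 2
      · ring
      · congr 1
        ring
    rw [e, Sing_GS_refl]
  · intro A
    obtain ⟨c, hc, hrho⟩ := GBQ.thm_RhoLow
    exact ⟨A + 2, fun B hB => Sing_calc A B hB c hc hrho⟩

end Pool.Agent.NRP
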