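import Mathlib
import Pool.Agent.NRP.StN
import Pool.Agent.GBQ.Sup
import Pool.Agent.GBQ.Major
import Pool.Agent.GBQ.Bridge
import Pool.Agent.GBQ.RhoLow
import Pool.Agent.BVX.A9

set_option autoImplicit false

/-!
# NRP / SupS: the Fourier transform of `Λ - Λ_z` with sharp cutoffs is small everywhere
-/

namespace Pool.Agent.NRP

open Finset Filter
open Pool.Agent.GBQ (ee nd gm lam LamS zz rho pr)

private theorem supS_abel_eq (f g : ℕ → ℂ) (w : ℕ) :
    ∑ n ∈ Ioc 0 w, f n * g n = (∑ n ∈ Ioc 0 w, f n) * g w -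
      ∑ m ∈ range w, (∑ n ∈ Ioc 0 m, f n) * (g (m + 1) - g m) := by
  induction w with
  | zero => simp
  | succ w ih =>
    rw [Finset.sum_Ioc_succ_top (Nat.zero_le w), ih, sum_range_succ,
      Finset.sum_Ioc_succ_top (Nat.zero_le w)]
    ring

private theorem supS_ee_sub_one (x : ℝ) : ‖ee x - 1‖ ≤ 2 * Real.pi * |x| := by
  unfold ee
  rw [mul_comm]
  refine (Real.norm_exp_I_mul_ofReal_sub_one_le).trans ?_
  rw [Real.norm_eq_abs, abs_mul, abs_mul, abs_of_pos Real.pi_pos,
    abs_of_pos (by norm_num : (0 : ℝ) < 2)]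

private theorem supS_abel (f : ℕ → ℂ) (β T : ℝ) (w : ℕ)
    (hT : ∀ m ≤ w, ‖∑ n ∈ Ioc 0 m, f n‖ ≤ T) :
    ‖∑ n ∈ Ioc 0 w, f n * ee (β * n)‖ ≤ T * (1 + 2 * Real.pi * (|β| * w)) := by
  have hT0 : 0 ≤ T := (norm_nonneg _).trans (hT 0 (Nat.zero_le w))
  rw [supS_abel_eq f (fun n => ee (β * n)) w]
  refine (norm_sub_le _ _).trans ?_
  have h1 : ‖(∑ n ∈ Ioc 0 w, f n) * ee (β * w)‖ ≤ T := by
    rw [norm_mul, GBQ.ee_norm, mul_one]
    exact hT w le_rfl
  have h2 : ‖∑ m ∈ range w, (∑ n ∈ Ioc 0 m, f n) *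
      (ee (β * ((m + 1 : ℕ) : ℝ)) - ee (β * m))‖ ≤ ∑ _m ∈ range w, T * (2 * Real.pi * |β|) := by
    refine norm_sum_le_of_le _ fun m hm => ?_
    rw [norm_mul]
    refine mul_le_mul (hT m (mem_range.1 hm).le) ?_ (norm_nonneg _) hT0
    have h3 : ee (β * ((m + 1 : ℕ) : ℝ)) - ee (β * m) = ee (β * m) * (ee β - 1) := by
      rw [mul_sub, mul_one, ← GBQ.ee_add]
      congr 2
      push_cast
      ring
    rw [h3, norm_mul, GBQ.ee_norm, one_mul]
    exact supS_ee_sub_one β
  rw [sum_const, card_range, nsmul_eq_mul] at h2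
  calc _ ≤ T + w * (T * (2 * Real.pi * |β|)) := add_le_add h1 h2
    _ = _ := by ring

private theorem supS_range (w : ℕ) : range (w + 1) = insert 0 (Ioc 0 w) := by
  ext x
  simp only [mem_range, mem_insert, mem_Ioc]
  omega

/-- major arcs -/
private theorem supS_major (z q w : ℕ) (a : ℤ) (β T : ℝ) (hq1 : 1 ≤ q)
    (hT : ∀ c < q, ∀ m ≤ w,
      |∑ n ∈ (Ioc 0 m).filter (fun n => n % q = c), (lam n - LamS z n)| ≤ T) :
    ‖∑ n ∈ Ioc 0 w, ((lam n - LamS z n : ℝ) : ℂ) * ee ((a / q + β) * n)‖ ≤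
      q * (T * (1 + 2 * Real.pi * (|β| * w))) := by
  have hmaps : ∀ x ∈ Ioc 0 w, x % q ∈ range q := fun x _ => mem_range.2 (Nat.mod_lt _ hq1)
  rw [← sum_fiberwise_of_maps_to hmaps]
  calc _ ≤ ∑ _c ∈ range q, (T * (1 + 2 * Real.pi * (|β| * w))) := by
        refine norm_sum_le_of_le _ fun c hc => ?_
        have h1 : ∑ n ∈ (Ioc 0 w).filter (fun x => x % q = c),
            ((lam n - LamS z n : ℝ) : ℂ) * ee ((a / q + β) * n) =
            ee ((a : ℝ) * (c : ℝ) / q) * ∑ n ∈ Ioc 0 w,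
              (if n % q = c then ((lam n - LamS z n : ℝ) : ℂ) else 0) * ee (β * n) := by
          rw [mul_sum, sum_filter]
          refine sum_congr rfl fun x _ => ?_
          split_ifs with hx
          · have h := GBQ.major_ee a q x β 1 hq1
            simp only [div_one] at h
            rw [h, hx]
            ring
          · rw [zero_mul, mul_zero]
        rw [h1, norm_mul, GBQ.ee_norm, one_mul]
        refine supS_abel _ β T w fun m hm => ?_
        rw [← sum_filter, ← Complex.ofReal_sum, Complex.norm_real, Real.norm_eq_abs]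
        exact hT c (mem_range.1 hc) m hm
    _ = _ := by rw [sum_const, card_range, nsmul_eq_mul]

/-- a class which is not coprime to the modulus -/
private theorem supS_bad (z q c m : ℕ) (hq1 : 1 ≤ q) (hq : q ≤ z) (hm : 1 ≤ m)
    (hc : ¬ c.Coprime q) :
    |∑ n ∈ (Ioc 0 m).filter (fun n => n % q = c), (lam n - LamS z n)| ≤ Real.log m := by
  obtain ⟨p, hp, hpc, hpq⟩ := Nat.Prime.not_coprime_iff_dvd.1 hc
  have hpz : p ≤ z := (Nat.le_of_dvd hq1 hpq).trans hq
  calc _ ≤ ∑ n ∈ (Ioc 0 m).filter (fun n => n % q = c), |lam n - LamS z n| :=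
        abs_sum_le_sum_abs _ _
    _ ≤ ∑ x ∈ (Ioc 0 m).filter (fun x => x % q = c), lam x := by
        refine sum_le_sum fun x hx => ?_
        rw [mem_filter] at hx
        have hpx : p ∣ x := by
          have h1 : p ∣ x % q := by rw [hx.2]; exact hpc
          exact (Nat.dvd_mod_iff hpq).1 h1
        have h2 : LamS z x = 0 := by
          unfold LamS
          rw [if_neg]
          intro h3
          exact h3 p (GBQ.mem_pr.2 ⟨hpz, hp⟩) hpx
        rw [h2, sub_zero, abs_of_nonneg (GBQ.lam_nonneg x)]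
    _ ≤ ∑ x ∈ (range (m + 1)).filter (fun x => p ∣ x), lam x := by
        refine sum_le_sum_of_subset_of_nonneg ?_ fun x _ _ => GBQ.lam_nonneg x
        intro x hx
        rw [mem_filter, mem_Ioc] at hx
        rw [mem_filter, mem_range]
        refine ⟨by omega, ?_⟩
        have h1 : p ∣ x % q := by rw [hx.2]; exact hpc
        exact (Nat.dvd_mod_iff hpq).1 h1
    _ ≤ _ := GBQ.major_powers m p hm hp

/-- a class which is coprime to the modulus -/
private theorem supS_good (z q c m : ℕ) (T₁ T₂ : ℝ)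
    (h1 : |(∑ n ∈ (range (m + 1)).filter (fun n => n % q = c % q), lam n) -
      (m : ℝ) / (q.totient : ℝ)| ≤ T₁)
    (h2 : |(∑ n ∈ (Ioc 0 m).filter (fun n => n % q = c % q), LamS z n) -
      (m : ℝ) / (q.totient : ℝ)| ≤ T₂) (hc : c < q) :
    |∑ n ∈ (Ioc 0 m).filter (fun n => n % q = c), (lam n - LamS z n)| ≤ T₁ + T₂ := by
  rw [Nat.mod_eq_of_lt hc] at h1 h2
  have h3 : ∑ n ∈ (range (m + 1)).filter (fun n => n % q = c), lam n =
      ∑ n ∈ (Ioc 0 m).filter (fun n => n % q = c), lam n := by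
    rw [sum_filter, sum_filter, supS_range, sum_insert (by simp)]
    rw [GBQ.lam_zero, ite_self, zero_add]
  rw [h3] at h1
  rw [sum_sub_distrib]
  have h4 : (∑ n ∈ (Ioc 0 m).filter (fun n => n % q = c), lam n) -
      ∑ n ∈ (Ioc 0 m).filter (fun n => n % q = c), LamS z n =
      ((∑ n ∈ (Ioc 0 m).filter (fun n => n % q = c), lam n) - (m : ℝ) / (q.totient : ℝ)) -
      ((∑ n ∈ (Ioc 0 m).filter (fun n => n % q = c), LamS z n) -
        (m : ℝ) / (q.totient : ℝ)) := by ring
  rw [h4]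
  exact (abs_sub _ _).trans (add_le_add h1 h2)

/-- the trivial bound for the model -/
private theorem supS_LamS_sum (z q c m : ℕ) (R : ℝ) (hR : (rho z)⁻¹ ≤ R) :
    |∑ n ∈ (Ioc 0 m).filter (fun n => n % q = c % q), LamS z n| ≤ m * R := by
  have h0 : 0 ≤ (rho z)⁻¹ := inv_nonneg.2 (GBQ.rho_pos z).le
  calc _ ≤ ∑ n ∈ (Ioc 0 m).filter (fun n => n % q = c % q), |LamS z n| :=
        abs_sum_le_sum_abs _ _
    _ ≤ ∑ _n ∈ (Ioc 0 m).filter (fun n => n % q = c % q), R := by
        refine sum_le_sum fun n _ => ?_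
        rw [abs_of_nonneg (GBQ.LamS_nonneg z n)]
        unfold LamS
        split_ifs
        · exact hR
        · exact h0.trans hR
    _ ≤ _ := by
        rw [sum_const, nsmul_eq_mul]
        refine mul_le_mul_of_nonneg_right ?_ (h0.trans hR)
        have h1 := card_filter_le (Ioc 0 m) (fun n => n % q = c % q)
        rw [Nat.card_Ioc, Nat.sub_zero] at h1
        exact_mod_cast h1

/-- the trivial bound -/
private theorem supS_triv (z w : ℕ) (α R₁ R₂ : ℝ) (h1 : ∀ n ∈ Ioc 0 w, lam n ≤ R₁)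
    (h2 : (rho z)⁻¹ ≤ R₂) :
    ‖∑ n ∈ Ioc 0 w, ((lam n - LamS z n : ℝ) : ℂ) * ee (α * n)‖ ≤ w * (R₁ + R₂) := by
  have h0 : 0 ≤ (rho z)⁻¹ := inv_nonneg.2 (GBQ.rho_pos z).le
  have h3 : ‖∑ n ∈ Ioc 0 w, ((lam n - LamS z n : ℝ) : ℂ) * ee (α * n)‖ ≤
      ∑ _n ∈ Ioc 0 w, (R₁ + R₂) := by
    refine norm_sum_le_of_le _ fun n hn => ?_
    rw [norm_mul, GBQ.ee_norm, mul_one, Complex.norm_real, Real.norm_eq_abs]
    refine (abs_sub _ _).trans (add_le_add ?_ ?_)
    · rw [abs_of_nonneg (GBQ.lam_nonneg n)]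
      exact h1 n hn
    · rw [abs_of_nonneg (GBQ.LamS_nonneg z n)]
      unfold LamS
      split_ifs
      · exact h2
      · exact h0.trans h2
  rw [sum_const, Nat.card_Ioc, Nat.sub_zero, nsmul_eq_mul] at h3
  exact h3

private theorem supS_a (L : ℝ) (h : 12 ≤ L) : 2 * L ≤ L ^ 2 := by nlinarith

private theorem supS_b (t L : ℝ) (ht : 0 ≤ t) (h : 12 ≤ L) : 2 * t ≤ t * L := by nlinarith

/-- sums over `(0, w]`, one `X` -/
private theorem supS_core (A k B C₁ C₂ X z : ℕ) (L P : ℝ) (hL : L = Real.log X) (hP : P = L ^ k)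
    (hX9 : 9 ≤ X) (hL12 : 12 ≤ L) (hLC : 64 * (C₁ : ℝ) * 2 ^ C₁ ≤ L)
    (hk1 : A + C₁ + 4 ≤ k) (hk2 : A + C₂ + 4 ≤ k) (hkB : k * 2 ≤ B)
    (hz2 : 2 ≤ z) (hzB : (z : ℝ) ≤ L ^ B) (hzf : z = ⌊L ^ B⌋₊) (hrho : (rho z)⁻¹ ≤ L ^ 2)
    (hpow : L ^ (A + 4 * k + 3 + 3) ≤ (X : ℝ) ^ (1 / 6 : ℝ))
    (hvin : ∀ (N : ℕ) (α : ℝ) (a : ℤ) (q : ℕ), 3 ≤ N → 1 ≤ q →
      Int.gcd a q = 1 → |α - a / q| ≤ 1 / (q : ℝ) ^ 2 →
      ‖∑ n ∈ range (N + 1), ((lam n : ℝ) : ℂ) * ee (α * n)‖ ≤
        C₁ * (N / Real.sqrt q + (N : ℝ) ^ (5 / 6 : ℝ) + Real.sqrt (N * q)) * Real.log N ^ C₁)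
    (hmin : ∀ z : ℕ, 2 ≤ z → (z : ℝ) ≤ L ^ B → ∀ u Y : ℕ, (X : ℝ) ^ (1 / 2 : ℝ) ≤ Y →
      Y ≤ X ^ 2 → ∀ (α : ℝ) (a : ℤ) (q : ℕ), 1 ≤ q → q ≤ Y → Int.gcd a q = 1 →
      |α - a / q| ≤ 1 / (q : ℝ) ^ 2 →
      ‖∑ n ∈ Ioc u (u + Y), ((LamS z n : ℝ) : ℂ) * ee (α * n)‖ ≤
        ((Y : ℝ) / q + (X : ℝ) ^ ((1 / 2 : ℝ) / 2) + q) * L ^ C₂ + Y / L ^ (A + 2))
    (hmod : ∀ z : ℕ, 2 ≤ z → (z : ℝ) ≤ L ^ B → ∀ q b u Y : ℕ, 1 ≤ q → q ≤ z → u ≤ X ^ 2 →
      (X : ℝ) ^ (1 / 2 : ℝ) ≤ Y →
      |∑ n ∈ (Ioc u (u + Y)).filter (fun n => n % q = b % q), LamS z n -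
        (if b.Coprime q then (Y : ℝ) / (q.totient : ℝ) else 0)| ≤ Y / L ^ (A + 4 * k + 3))
    (hsw : ∀ q r : ℕ, 1 ≤ q → (q : ℝ) ≤ Real.log ((3 * X : ℕ) : ℝ) ^ (k * 2) → r.Coprime q →
      ∀ M : ℕ, M ≤ 3 * X →
      |(∑ n ∈ (range (M + 1)).filter (fun n => n % q = r % q), ArithmeticFunction.vonMangoldt n) -
        (M : ℝ) / (q.totient : ℝ)| ≤
        ((3 * X : ℕ) : ℝ) / Real.log ((3 * X : ℕ) : ℝ) ^ (A + 4 * k + 3))
    (w : ℕ) (hw : w ≤ 3 * X) (α : ℝ) :
    ‖∑ n ∈ Ioc 0 w, ((lam n - LamS z n : ℝ) : ℂ) * ee (α * n)‖ ≤ X / L ^ A / 2 := by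
  have hX9' : (9 : ℝ) ≤ X := by exact_mod_cast hX9
  have hX0 : (0 : ℝ) < X := by linarith
  have hX1 : (1 : ℝ) ≤ X := by linarith
  have hL0 : 0 < L := by linarith
  have hL1 : 1 ≤ L := by linarith
  have hw' : (w : ℝ) ≤ 3 * X := by exact_mod_cast hw
  have hw0 : (0 : ℝ) ≤ w := Nat.cast_nonneg w
  have hP1 : 1 ≤ P := hP ▸ one_le_pow₀ hL1
  have hP0 : 0 < P := by linarith
  have hPX6 : P ≤ (X : ℝ) ^ (1 / 6 : ℝ) := by
    rw [hP]
    exact (pow_le_pow_right₀ hL1 (by omega)).trans hpow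
  have hPsq : L ^ (k * 2) = P ^ 2 := by rw [pow_mul, ← hP]
  have hLA : 0 < L ^ A := pow_pos hL0 A
  have hPX : P ^ 2 ≤ X := by
    calc P ^ 2 ≤ ((X : ℝ) ^ (1 / 6 : ℝ)) ^ 2 := pow_le_pow_left₀ hP0.le hPX6 2
      _ = (X : ℝ) ^ (1 / 3 : ℝ) := by
          rw [← Real.rpow_natCast, ← Real.rpow_mul hX0.le]
          norm_num
      _ ≤ (X : ℝ) ^ (1 : ℝ) := Real.rpow_le_rpow_of_exponent_le hX1 (by norm_num)
      _ = X := Real.rpow_one _
  have hcast : ((3 * X : ℕ) : ℝ) = 3 * X := by push_cast; ring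
  have hlog3 : Real.log ((3 * X : ℕ) : ℝ) ≤ 2 * L := by
    rw [hcast, Real.log_mul (by norm_num) hX0.ne', hL]
    have : Real.log 3 ≤ Real.log X := Real.log_le_log (by norm_num) (by linarith)
    linarith
  have hlog3' : L ≤ Real.log ((3 * X : ℕ) : ℝ) := by
    rw [hL]
    apply Real.log_le_log hX0
    rw [hcast]
    linarith
  have hlogm : ∀ m : ℕ, 1 ≤ m → m ≤ 3 * X → Real.log m ≤ 2 * L := by
    intro m hm1 hm
    refine le_trans ?_ hlog3
    exact Real.log_le_log (by exact_mod_cast hm1) (by exact_mod_cast hm)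
  have h2L : 2 * L ≤ L ^ 2 := supS_a L hL12
  obtain ⟨a, q, hq1, hcop, hqX, hap, hb⟩ :=
    GBQ.sup_dirichlet α X (P ^ 2) (by positivity) hPX
  have hq0 : (0 : ℝ) < q := by exact_mod_cast hq1
  rcases le_or_gt (q : ℝ) (P ^ 2) with hcase | hcase
  · -- major arcs
    have hqz : q ≤ z := by
      rw [hzf]
      apply Nat.le_floor
      refine hcase.trans ?_
      rw [← hPsq]
      exact pow_le_pow_right₀ hL1 hkB
    obtain ⟨E, hE⟩ : ∃ E, E = L ^ (A + 4 * k + 3) := ⟨_, rfl⟩
    rw [← hE] at hmod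
    have hE1 : 1 ≤ E := hE ▸ one_le_pow₀ hL1
    have hE0 : 0 < E := by linarith
    have hT : ∀ c < q, ∀ m ≤ w,
        |∑ n ∈ (Ioc 0 m).filter (fun n => n % q = c), (lam n - LamS z n)| ≤ 6 * X / E := by
      intro c hc m hm
      have hm3 : m ≤ 3 * X := hm.trans hw
      have hm3' : (m : ℝ) ≤ 3 * X := by exact_mod_cast hm3
      have hsqrt : (X : ℝ) ^ (1 / 2 : ℝ) * (2 * L ^ 2) ≤ 3 * X / E := by
        rw [le_div_iff₀ hE0]
        have e1 : L ^ 2 * E * L ≤ (X : ℝ) ^ (1 / 6 : ℝ) := by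
          calc L ^ 2 * E * L = L ^ (A + 4 * k + 3 + 3) := by
                rw [hE]
                ring
            _ ≤ _ := hpow
        have e2 : (X : ℝ) ^ (1 / 6 : ℝ) ≤ (X : ℝ) ^ (1 / 2 : ℝ) :=
          Real.rpow_le_rpow_of_exponent_le hX1 (by norm_num)
        have e3 : (X : ℝ) ^ (1 / 2 : ℝ) * (X : ℝ) ^ (1 / 2 : ℝ) = X := by
          rw [← Real.rpow_add hX0]
          norm_num
        have e4 : 0 < (X : ℝ) ^ (1 / 2 : ℝ) := Real.rpow_pos_of_pos hX0 _
        have e5 : 2 * (L ^ 2 * E) ≤ (X : ℝ) ^ (1 / 2 : ℝ) := by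
          have : 2 * (L ^ 2 * E) ≤ L ^ 2 * E * L := 
            supS_b _ L (mul_pos (pow_pos hL0 2) hE0).le hL12
          linarith
        calc (X : ℝ) ^ (1 / 2 : ℝ) * (2 * L ^ 2) * E =
              (X : ℝ) ^ (1 / 2 : ℝ) * (2 * (L ^ 2 * E)) := by ring
          _ ≤ (X : ℝ) ^ (1 / 2 : ℝ) * (X : ℝ) ^ (1 / 2 : ℝ) :=
              mul_le_mul_of_nonneg_left e5 e4.le
          _ = X := e3
          _ ≤ 3 * X := by linarith
      by_cases hcop' : c.Coprime q
      · have h1 := hsw q c hq1 (by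
          refine hcase.trans ?_
          rw [← hPsq]
          exact pow_le_pow_left₀ hL0.le hlog3' _) hcop' m hm3
        have h1' : ((3 * X : ℕ) : ℝ) / Real.log ((3 * X : ℕ) : ℝ) ^ (A + 4 * k + 3) ≤
            3 * X / E := by
          rw [hcast] at hlog3' ⊢
          rw [hE]
          exact div_le_div_of_nonneg_left (by positivity) (pow_pos hL0 _)
            (pow_le_pow_left₀ hL0.le hlog3' _)
        have h2 : |(∑ n ∈ (Ioc 0 m).filter (fun n => n % q = c % q), LamS z n) -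
            (m : ℝ) / (q.totient : ℝ)| ≤ 3 * X / E := by
          rcases le_or_gt ((X : ℝ) ^ (1 / 2 : ℝ)) m with hmX | hmX
          · have h3 := hmod z hz2 hzB q c 0 m hq1 hqz (Nat.zero_le _) hmX
            rw [if_pos hcop', Nat.zero_add] at h3
            exact h3.trans (div_le_div_of_nonneg_right hm3' hE0.le)
          · refine le_trans ?_ hsqrt
            have h3 := supS_LamS_sum z q c m (L ^ 2) hrho
            have h4 : (m : ℝ) / (q.totient : ℝ) ≤ m := by
              apply div_le_self (Nat.cast_nonneg m)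
              exact_mod_cast Nat.totient_pos.2 hq1
            have h5 : 0 ≤ (m : ℝ) / (q.totient : ℝ) := by positivity
            have h6 : (1 : ℝ) ≤ L ^ 2 := one_le_pow₀ hL1
            have hm0 : (0 : ℝ) ≤ m := Nat.cast_nonneg m
            calc _ ≤ |∑ n ∈ (Ioc 0 m).filter (fun n => n % q = c % q), LamS z n| +
                  |(m : ℝ) / (q.totient : ℝ)| := abs_sub _ _
              _ ≤ m * L ^ 2 + m * L ^ 2 := by
                  refine add_le_add h3 ?_
                  rw [abs_of_nonneg h5]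
                  exact h4.trans (le_mul_of_one_le_right hm0 h6)
              _ = m * (2 * L ^ 2) := by ring
              _ ≤ _ := mul_le_mul_of_nonneg_right hmX.le (by positivity)
        have h7 := supS_good z q c m (3 * X / E) (3 * X / E) (h1.trans h1') h2 hc
        refine h7.trans (le_of_eq ?_)
        ring
      · rcases Nat.eq_zero_or_pos m with h0 | h0
        · subst h0
          simp only [Ioc_self, filter_empty, sum_empty, abs_zero]
          positivity
        · refine (supS_bad z q c m hq1 hqz h0 hcop').trans ((hlogm m h0 hm3).trans ?_)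
          have e1 : 1 ≤ (X : ℝ) ^ (1 / 2 : ℝ) := Real.one_le_rpow hX1 (by norm_num)
          have e2 : 2 * L ≤ (X : ℝ) ^ (1 / 2 : ℝ) * (2 * L ^ 2) := 
            (h2L.trans (by linarith [pow_pos hL0 2] : L ^ 2 ≤ 2 * L ^ 2)).trans
              (le_mul_of_one_le_left (by positivity) e1)
          have e3 : 3 * X / E ≤ 6 * X / E := div_le_div_of_nonneg_right (by linarith) hE0.le
          linarith
    have hmaj := supS_major z q w a (α - a / q) (6 * X / E) hq1 hT
    have he : ((a : ℝ) / q + (α - a / q)) = α := by ring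
    rw [he] at hmaj
    refine hmaj.trans ?_
    have h1 : |α - a / q| * w ≤ 3 * P ^ 2 := by
      calc |α - a / q| * w ≤ |α - a / q| * (3 * X) :=
            mul_le_mul_of_nonneg_left hw' (abs_nonneg _)
        _ = 3 * (|α - a / q| * X) := by ring
        _ ≤ 3 * P ^ 2 := by linarith
    have hPP1 : 1 ≤ P ^ 2 := one_le_pow₀ hP1
    have h2 : 1 + 2 * Real.pi * (|α - a / q| * w) ≤ 20 * P ^ 2 := by
      have hpi := Real.pi_lt_d2
      have hpi0 := Real.pi_pos
      have h3 : 2 * Real.pi * (|α - a / q| * w) ≤ 2 * Real.pi * (3 * P ^ 2) :=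
        mul_le_mul_of_nonneg_left h1 (by positivity)
      have h4 : Real.pi * P ^ 2 ≤ 3.15 * P ^ 2 :=
        mul_le_mul_of_nonneg_right hpi.le (by positivity)
      linarith
    have hT0 : 0 ≤ 6 * (X : ℝ) / E := by positivity
    have h20 : 0 ≤ 1 + 2 * Real.pi * (|α - a / q| * w) := by
      have := Real.pi_pos
      positivity
    calc (q : ℝ) * (6 * X / E * (1 + 2 * Real.pi * (|α - a / q| * w))) ≤
          P ^ 2 * (6 * X / E * (20 * P ^ 2)) := by
          refine mul_le_mul hcase ?_ (mul_nonneg hT0 h20) (by positivity)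
          exact mul_le_mul_of_nonneg_left h2 hT0
      _ = 120 * X * (P ^ 2 * P ^ 2) / E := by ring
      _ = X / L ^ A * (120 / L ^ 3) := by
          have h3 : E = L ^ A * (P ^ 2 * P ^ 2) * L ^ 3 := by
            rw [hE, hP]
            ring
          rw [h3]
          have hPne : P ≠ 0 := hP0.ne'
          have hLne : L ≠ 0 := hL0.ne'
          field_simp
      _ ≤ X / L ^ A * (1 / 2) := by
          refine mul_le_mul_of_nonneg_left ?_ (by positivity)
          rw [div_le_iff₀ (by positivity)]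
          have : (12 : ℝ) ^ 3 ≤ L ^ 3 := pow_le_pow_left₀ (by norm_num) hL12 3
          norm_num at this
          linarith
      _ = _ := by ring
  · -- minor arcs
    obtain ⟨m1, m2, m3, m4, m5, m6⟩ := GBQ.sup_minor_bounds X P q hX1 hP1 hPX6 hcase.le hqX
    have hXP : 0 ≤ (X : ℝ) / P := by positivity
    rcases le_or_gt (w : ℝ) (X / P) with hwc | hwc
    · have h1 := supS_triv z w α (L ^ 2) (L ^ 2) (fun n hn => by
        rw [mem_Ioc] at hn
        exact (GBQ.lam_le_log n).trans ((hlogm n hn.1 (hn.2.trans hw)).trans h2L)) hrho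
      refine h1.trans ?_
      have h2 : P = L ^ A * L ^ 4 * L ^ (k - A - 4) := by
        rw [hP, ← pow_add, ← pow_add]
        congr 1
        omega
      have h3 : 1 ≤ L ^ (k - A - 4) := one_le_pow₀ hL1
      have h4 : L ^ A * L ^ 4 ≤ P := by
        rw [h2]
        exact le_mul_of_one_le_right (by positivity) h3
      calc (w : ℝ) * (L ^ 2 + L ^ 2) ≤ X / P * (L ^ 2 + L ^ 2) :=
            mul_le_mul_of_nonneg_right hwc (by positivity)
        _ ≤ X / (L ^ A * L ^ 4) * (L ^ 2 + L ^ 2) := by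
            refine mul_le_mul_of_nonneg_right ?_ (by positivity)
            exact div_le_div_of_nonneg_left hX0.le (by positivity) h4
        _ = X / L ^ A * (2 / L ^ 2) := by
            have hLne : L ≠ 0 := hL0.ne'
            field_simp
            ring
        _ ≤ X / L ^ A * (1 / 2) := by
            refine mul_le_mul_of_nonneg_left ?_ (by positivity)
            rw [div_le_iff₀ (by positivity)]
            linarith
        _ = _ := by ring
    · have hsX : (3 : ℝ) ≤ Real.sqrt X := by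
        apply Real.le_sqrt_of_sq_le
        linarith
      have hw3 : 3 ≤ w := by
        have : (3 : ℝ) ≤ w := by linarith
        exact_mod_cast this
      have hhalf : (X : ℝ) ^ (1 / 2 : ℝ) ≤ w := by
        rw [← Real.sqrt_eq_rpow]
        linarith
      have hwX2 : w ≤ X ^ 2 := by
        calc w ≤ 3 * X := hw
          _ ≤ X * X := Nat.mul_le_mul_right X (by omega)
          _ = X ^ 2 := (sq X).symm
      have hqw : q ≤ w := by
        have : (q : ℝ) ≤ w := by linarith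
        exact_mod_cast this
      have h1 := hvin w α a q hw3 hq1 hcop hap
      have h2 := hmin z hz2 hzB 0 w hhalf hwX2 α a q hq1 hqw hcop hap
      rw [Nat.zero_add] at h2
      rw [supS_range, sum_insert (by simp), GBQ.lam_zero, Complex.ofReal_zero, zero_mul,
        zero_add] at h1
      have hsplit : ∑ n ∈ Ioc 0 w, ((lam n - LamS z n : ℝ) : ℂ) * ee (α * n) =
          ∑ n ∈ Ioc 0 w, ((lam n : ℝ) : ℂ) * ee (α * n) -
          ∑ n ∈ Ioc 0 w, ((LamS z n : ℝ) : ℂ) * ee (α * n) := by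
        rw [← sum_sub_distrib]
        refine sum_congr rfl fun x _ => ?_
        push_cast
        ring
      rw [hsplit]
      refine (norm_sub_le _ _).trans ?_
      have hlw0 : 0 ≤ Real.log w := Real.log_nonneg (by exact_mod_cast (by omega : 1 ≤ w))
      have hlw : Real.log w ≤ 2 * L := hlogm w (by omega) hw
      have hPk : ∀ j : ℕ, A + j + 4 ≤ k → X / P * L ^ j ≤ X / L ^ A * (1 / L ^ 4) := by
        intro j hj
        have g1 : L ^ A * L ^ 4 * L ^ j ≤ P := by
          rw [hP, ← pow_add, ← pow_add]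
          exact pow_le_pow_right₀ hL1 (by omega)
        have hLne : L ≠ 0 := hL0.ne'
        calc X / P * L ^ j ≤ X / (L ^ A * L ^ 4 * L ^ j) * L ^ j := by
              refine mul_le_mul_of_nonneg_right ?_ (by positivity)
              exact div_le_div_of_nonneg_left hX0.le (by positivity) g1
          _ = _ := by field_simp
      have hsq0 : 0 < Real.sqrt q := Real.sqrt_pos.2 hq0
      have b1 : (C₁ : ℝ) * (w / Real.sqrt q + (w : ℝ) ^ (5 / 6 : ℝ) + Real.sqrt (w * q)) *
          Real.log w ^ C₁ ≤ X / L ^ A * (1 / 8) := by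
        have g1 : (w : ℝ) / Real.sqrt q ≤ 3 * (X / P) := by
          calc (w : ℝ) / Real.sqrt q ≤ 3 * X / Real.sqrt q :=
                div_le_div_of_nonneg_right hw' hsq0.le
            _ = 3 * (X / Real.sqrt q) := by ring
            _ ≤ _ := by linarith
        have g2 : (w : ℝ) ^ (5 / 6 : ℝ) ≤ 3 * (X / P) := by
          calc (w : ℝ) ^ (5 / 6 : ℝ) ≤ (3 * X : ℝ) ^ (5 / 6 : ℝ) :=
                Real.rpow_le_rpow hw0 hw' (by norm_num)
            _ = (3 : ℝ) ^ (5 / 6 : ℝ) * (X : ℝ) ^ (5 / 6 : ℝ) :=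
                Real.mul_rpow (by norm_num) hX0.le
            _ ≤ 3 * (X : ℝ) ^ (5 / 6 : ℝ) := by
                refine mul_le_mul_of_nonneg_right ?_ (by positivity)
                calc (3 : ℝ) ^ (5 / 6 : ℝ) ≤ (3 : ℝ) ^ (1 : ℝ) :=
                      Real.rpow_le_rpow_of_exponent_le (by norm_num) (by norm_num)
                  _ = 3 := Real.rpow_one _
            _ ≤ _ := by linarith
        have g3 : Real.sqrt (w * q) ≤ 2 * (X / P) := by
          calc Real.sqrt (w * q) ≤ Real.sqrt (2 ^ 2 * (X * q)) := by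
                apply Real.sqrt_le_sqrt
                have e1 := mul_le_mul_of_nonneg_right hw' hq0.le
                have e2 := mul_pos hX0 hq0
                linarith
            _ = 2 * Real.sqrt (X * q) := by
                rw [Real.sqrt_mul (by norm_num), Real.sqrt_sq (by norm_num)]
            _ ≤ _ := by linarith
        have g4 : Real.log w ^ C₁ ≤ 2 ^ C₁ * L ^ C₁ := by
          rw [← mul_pow]
          exact pow_le_pow_left₀ hlw0 hlw _
        have hC0 : (0 : ℝ) ≤ C₁ := Nat.cast_nonneg _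
        calc _ ≤ (C₁ : ℝ) * (8 * (X / P)) * (2 ^ C₁ * L ^ C₁) := by
              refine mul_le_mul ?_ g4 (pow_nonneg hlw0 _) (by positivity)
              refine mul_le_mul_of_nonneg_left ?_ hC0
              linarith
          _ = 8 * C₁ * 2 ^ C₁ * (X / P * L ^ C₁) := by ring
          _ ≤ 8 * C₁ * 2 ^ C₁ * (X / L ^ A * (1 / L ^ 4)) :=
              mul_le_mul_of_nonneg_left (hPk C₁ hk1) (by positivity)
          _ ≤ L / 8 * (X / L ^ A * (1 / L ^ 4)) := by
              refine mul_le_mul_of_nonneg_right ?_ (by positivity)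
              linarith
          _ = X / L ^ A * (1 / 8) * (1 / L ^ 3) := by
              have hLne : L ≠ 0 := hL0.ne'
              field_simp
          _ ≤ X / L ^ A * (1 / 8) * 1 := by
              refine mul_le_mul_of_nonneg_left ?_ (by positivity)
              rw [div_le_one (by positivity)]
              exact one_le_pow₀ hL1
          _ = _ := mul_one _
      have b2 : ((w : ℝ) / q + (X : ℝ) ^ ((1 / 2 : ℝ) / 2) + q) * L ^ C₂ + w / L ^ (A + 2) ≤
          X / L ^ A * (5 / L ^ 4 + 3 / L ^ 2) := by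
        have g1 : (w : ℝ) / q ≤ 3 * (X / P) := by
          calc (w : ℝ) / q ≤ 3 * X / q := div_le_div_of_nonneg_right hw' hq0.le
            _ = 3 * (X / q) := by ring
            _ ≤ _ := by linarith
        have g2 : (X : ℝ) ^ ((1 / 2 : ℝ) / 2) ≤ X / P := by
          refine le_trans ?_ m5
          rw [Real.sqrt_eq_rpow]
          exact Real.rpow_le_rpow_of_exponent_le hX1 (by norm_num)
        have g3 : (w : ℝ) / L ^ (A + 2) ≤ X / L ^ A * (3 / L ^ 2) := by
          calc (w : ℝ) / L ^ (A + 2) ≤ 3 * X / L ^ (A + 2) :=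
                div_le_div_of_nonneg_right hw' (by positivity)
            _ = _ := by
                rw [pow_add]
                have hLne : L ≠ 0 := hL0.ne'
                field_simp
        have g4 : ((w : ℝ) / q + (X : ℝ) ^ ((1 / 2 : ℝ) / 2) + q) * L ^ C₂ ≤
            X / L ^ A * (5 / L ^ 4) := by
          calc _ ≤ 5 * (X / P) * L ^ C₂ := by
                refine mul_le_mul_of_nonneg_right ?_ (by positivity)
                linarith
            _ = 5 * (X / P * L ^ C₂) := by ring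
            _ ≤ 5 * (X / L ^ A * (1 / L ^ 4)) :=
                mul_le_mul_of_nonneg_left (hPk C₂ hk2) (by norm_num)
            _ = _ := by ring
        rw [mul_add]
        exact add_le_add g4 g3
      have hfin : (1 / 8 : ℝ) + (5 / L ^ 4 + 3 / L ^ 2) ≤ 1 / 2 := by
        have f1 : 5 / L ^ 4 ≤ 1 / 8 := by
          rw [div_le_iff₀ (by positivity)]
          have : (12 : ℝ) ^ 4 ≤ L ^ 4 := pow_le_pow_left₀ (by norm_num) hL12 4
          norm_num at this
          linarith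
        have f2 : 3 / L ^ 2 ≤ 1 / 4 := by
          rw [div_le_iff₀ (by positivity)]
          linarith
        linarith
      calc _ ≤ X / L ^ A * (1 / 8) + X / L ^ A * (5 / L ^ 4 + 3 / L ^ 2) :=
            add_le_add (h1.trans b1) (h2.trans b2)
        _ = X / L ^ A * (1 / 8 + (5 / L ^ 4 + 3 / L ^ 2)) := by ring
        _ ≤ X / L ^ A * (1 / 2) := mul_le_mul_of_nonneg_left hfin (by positivity)
        _ = _ := by ring

/-- see `St_SupS` in `StN.lean` -/
theorem thm_SupS (hM : St_ModS) (hS : St_MinS) : St_SupS := by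
  intro A
  obtain ⟨C₁, hC₁⟩ := GBQ.thm_Vin
  obtain ⟨C₂, hC₂⟩ := hS (1 / 2) (by norm_num) (by norm_num)
  obtain ⟨c, hc0, hc⟩ := GBQ.thm_RhoLow
  obtain ⟨k, hk⟩ : ∃ k, k = A + (C₁ + C₂) + 4 := ⟨_, rfl⟩
  refine ⟨k * 2, fun B hB => ?_⟩
  have htend : Tendsto (fun X : ℕ => 3 * X) atTop atTop :=
    tendsto_atTop_mono (fun X => (by omega : X ≤ 3 * X)) tendsto_id
  filter_upwards [htend.eventually (BVX.sw_ap (A + 4 * k + 3) (k * 2)),
    hM (A + 4 * k + 3) B (1 / 2) (by norm_num), hC₂ (A + 2) B,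
    GBQ.sup_log_pow_le (A + 4 * k + 3 + 3), GBQ.sup_log_pow_le B,
    GBQ.sup_log_ge (12 + 64 * (C₁ : ℝ) * 2 ^ C₁ + 1 / c), eventually_ge_atTop 9] with
    X hsw hmod hmin hpow hpowB hlog hX9
  have hC0 : 0 ≤ 64 * (C₁ : ℝ) * 2 ^ C₁ := by positivity
  have hc1 : 0 < 1 / c := by positivity
  have hX9' : (9 : ℝ) ≤ X := by exact_mod_cast hX9
  have hX0 : (0 : ℝ) < X := by linarith
  have hX1 : (1 : ℝ) ≤ X := by linarith
  have hL12 : 12 ≤ Real.log X := by linarith
  have hL0 : 0 < Real.log X := by linarith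
  have hL1 : 1 ≤ Real.log X := by linarith
  have hzB : (zz B X : ℝ) ≤ Real.log X ^ B := Nat.floor_le (by positivity)
  have hz2 : 2 ≤ zz B X := by
    unfold zz
    apply Nat.le_floor
    have hB1 : 1 ≤ B := by
      have hB' : k * 2 ≤ B := hB
      omega
    have h1 : Real.log X ^ 1 ≤ Real.log X ^ B := pow_le_pow_right₀ hL1 hB1
    rw [pow_one] at h1
    push_cast
    linarith
  have hz2' : (2 : ℝ) ≤ zz B X := by exact_mod_cast hz2
  have hrho : (rho (zz B X))⁻¹ ≤ Real.log X ^ 2 := by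
    have h1 := hc (zz B X) hz2
    have h2 : (zz B X : ℝ) ≤ X := by
      refine hzB.trans (hpowB.trans ?_)
      calc (X : ℝ) ^ (1 / 6 : ℝ) ≤ (X : ℝ) ^ (1 : ℝ) :=
            Real.rpow_le_rpow_of_exponent_le hX1 (by norm_num)
        _ = X := Real.rpow_one _
    have h3 : Real.log (zz B X) ≤ Real.log X := Real.log_le_log (by linarith) h2
    have h4 : 0 < Real.log (zz B X) := Real.log_pos (by linarith)
    calc (rho (zz B X))⁻¹ ≤ (c / Real.log (zz B X))⁻¹ := inv_anti₀ (by positivity) h1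
      _ = Real.log (zz B X) * (1 / c) := by
          rw [inv_div]
          ring
      _ ≤ Real.log X * Real.log X := by
          refine mul_le_mul h3 ?_ hc1.le hL0.le
          linarith
      _ = _ := by ring
  have hcore := supS_core A k B C₁ C₂ X (zz B X) (Real.log X) (Real.log X ^ k) rfl rfl hX9 hL12
    (by linarith) (by omega) (by omega) hB hz2 hzB rfl hrho hpow hC₁ hmin hmod hsw
  intro u v hv α
  rcases le_or_gt v u with hvu | hvu
  · rw [Ioc_eq_empty (by omega), sum_empty, norm_zero]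
    positivity
  · have h1 := hcore v hv α
    have h2 := hcore u (by omega) α
    have h3 : ∑ n ∈ Ioc u v, ((lam n - LamS (zz B X) n : ℝ) : ℂ) * ee (α * n) =
        ∑ n ∈ Ioc 0 v, ((lam n - LamS (zz B X) n : ℝ) : ℂ) * ee (α * n) -
        ∑ n ∈ Ioc 0 u, ((lam n - LamS (zz B X) n : ℝ) : ℂ) * ee (α * n) := by
      rw [← Finset.sum_Ioc_consecutive _ (Nat.zero_le u) hvu.le]
      ring
    rw [h3]
    refine (norm_sub_le _ _).trans ?_
    linarith

end Pool.Agent.NRP
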