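import Mathlib
import Pool.Agent.NRP.StN
import Pool.Agent.NRP.StJ
import Pool.Agent.GBQ.Basic
import Pool.Agent.GBQ.RhoLow

set_option autoImplicit false

/-!
# NRP: module TW1, the second place
-/

namespace Pool.Agent.NRP

open Finset Filter
open Pool.Agent.GBQ (ee nd gm lam LamS zz rho pr)
open scoped ComplexConjugate

/-- the model is at most `log² X` -/
private theorem TW1_rho (B : ℕ) : ∀ᶠ X : ℕ in atTop, ∀ n : ℕ, LamS (zz B X) n ≤ Real.log X ^ 2 := by
  obtain ⟨c, hc, hrho⟩ := Pool.Agent.GBQ.thm_RhoLow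
  have hlog : Tendsto (fun X : ℕ => Real.log X) atTop atTop :=
    Real.tendsto_log_atTop.comp tendsto_natCast_atTop_atTop
  filter_upwards [hlog.eventually_ge_atTop (max 1 (B / c))] with X hX n
  have h1 : 1 ≤ Real.log X := (le_max_left _ _).trans hX
  have h2 : (B : ℝ) / c ≤ Real.log X := (le_max_right _ _).trans hX
  have h3 : (rho (zz B X))⁻¹ ≤ Real.log X ^ 2 := by
    rcases Nat.lt_or_ge (zz B X) 2 with hz | hz
    · have hpr : pr (zz B X) = ∅ := by
        ext p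
        rw [Pool.Agent.GBQ.mem_pr]
        constructor
        · rintro ⟨a1, a2⟩
          have := a2.two_le
          omega
        · intro h
          simp at h
      have : rho (zz B X) = 1 := by
        unfold rho
        rw [hpr, Finset.prod_empty]
      rw [this, inv_one]
      nlinarith
    · have h4 := hrho _ hz
      have hz' : (1 : ℝ) < (zz B X : ℝ) := by exact_mod_cast (by omega : 1 < zz B X)
      have h5 : 0 < Real.log (zz B X) := Real.log_pos hz'
      have h6 : (rho (zz B X))⁻¹ ≤ (c / Real.log (zz B X))⁻¹ :=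
        inv_anti₀ (div_pos hc h5) h4
      refine h6.trans ?_
      rw [inv_div, div_le_iff₀ hc]
      have h7 : (zz B X : ℝ) ≤ Real.log X ^ B := Nat.floor_le (by positivity)
      have h8 : Real.log (zz B X) ≤ B * Real.log (Real.log X) := by
        rw [← Real.log_pow]
        exact Real.log_le_log (by linarith) h7
      have h9 : Real.log (Real.log X) ≤ Real.log X := by
        have := Real.log_le_sub_one_of_pos (by linarith : 0 < Real.log X)
        linarith
      have h10 : (B : ℝ) ≤ Real.log X * c := by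
        rw [div_le_iff₀ hc] at h2
        exact h2
      calc Real.log (zz B X) ≤ B * Real.log (Real.log X) := h8
        _ ≤ B * Real.log X := mul_le_mul_of_nonneg_left h9 (Nat.cast_nonneg B)
        _ ≤ (Real.log X * c) * Real.log X := mul_le_mul_of_nonneg_right h10 (by linarith)
        _ = Real.log X ^ 2 * c := by ring
  unfold LamS
  split_ifs
  · exact h3
  · positivity

/-- `|gI| ≤ log² X` -/
private theorem TW1_gI (B : ℕ) : ∀ᶠ X : ℕ in atTop, ∀ (u v : ℕ) (n : ℤ), v ≤ 3 * X →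
    |gI (zz B X) u v n| ≤ Real.log X ^ 2 := by
  have hlog : Tendsto (fun X : ℕ => Real.log X) atTop atTop :=
    Real.tendsto_log_atTop.comp tendsto_natCast_atTop_atTop
  filter_upwards [TW1_rho B, hlog.eventually_ge_atTop 3, eventually_ge_atTop 3] with X h1 h2 h3 u v n hv
  unfold gI
  split_ifs with h
  · have hn : 0 < n := by omega
    have hn1 : 0 < n.toNat := by omega
    have hn2 : n.toNat ≤ 3 * X := by omega
    have a1 : 0 ≤ lamZ n := Pool.Agent.GBQ.lam_nonneg _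
    have a2 : lamZ n ≤ Real.log X ^ 2 := by
      refine (Pool.Agent.GBQ.lam_le_log _).trans ?_
      have hX0 : (0 : ℝ) < X := by exact_mod_cast (by omega : 0 < X)
      have b1 : Real.log n.toNat ≤ Real.log (3 * X) :=
        Real.log_le_log (by exact_mod_cast hn1) (by exact_mod_cast hn2)
      have b2 : Real.log (3 * X) ≤ 2 * Real.log X := by
        rw [Real.log_mul (by norm_num) hX0.ne']
        have : Real.log 3 ≤ Real.log X := Real.log_le_log (by norm_num) (by exact_mod_cast h3)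
        linarith
      nlinarith
    have a3 : 0 ≤ LamZ (zz B X) n := by
      unfold LamZ
      rw [if_pos hn]
      exact Pool.Agent.GBQ.LamS_nonneg _ _
    have a4 : LamZ (zz B X) n ≤ Real.log X ^ 2 := by
      unfold LamZ
      rw [if_pos hn]
      exact h1 _
    rw [abs_le]
    constructor <;> linarith
  · rw [abs_zero]
    positivity

private theorem TW1_norm_ee (x : ℝ) : ‖ee x‖ = 1 := Pool.Agent.GBQ.ee_norm x

/-- reflection -/
private theorem TW1_refl (g : ℤ → ℂ) (q L : ℕ) (β : ℝ) :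
    ∑' n : ℤ, ‖∑ y ∈ Icc (1 : ℤ) L, g (-(n + q * y)) * ee (β * (q * y))‖ ^ 2 =
      ∑' n : ℤ, ‖∑ y ∈ Icc (1 : ℤ) L, g (n + q * y) * ee (-β * (q * y))‖ ^ 2 := by
  let e : ℤ ≃ ℤ :=
    { toFun := fun n => -n - q * (L + 1)
      invFun := fun n => -n - q * (L + 1)
      left_inv := fun n => by ring
      right_inv := fun n => by ring }
  rw [← e.tsum_eq fun n : ℤ => ‖∑ y ∈ Icc (1 : ℤ) L, g (n + q * y) * ee (-β * (q * y))‖ ^ 2]
  refine tsum_congr fun n => ?_
  have h1 : ∑ y ∈ Icc (1 : ℤ) L, g (-(n + q * y)) * ee (β * (q * y)) =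
      ee (β * (q * (L + 1))) *
        ∑ y ∈ Icc (1 : ℤ) L, g (e n + q * y) * ee (-β * (q * y)) := by
    rw [Finset.mul_sum]
    refine Finset.sum_nbij' (fun y => (L : ℤ) + 1 - y) (fun y => (L : ℤ) + 1 - y) ?_ ?_ ?_ ?_ ?_
    · intro y hy
      rw [Finset.mem_Icc] at hy ⊢
      omega
    · intro y hy
      rw [Finset.mem_Icc] at hy ⊢
      omega
    · intro y _
      ring
    · intro y _
      ring
    · intro y _
      have e1 : e n + q * ((L : ℤ) + 1 - y) = -(n + q * y) := by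
        show -n - q * (L + 1) + q * ((L : ℤ) + 1 - y) = -(n + q * y)
        ring
      rw [e1]
      have e2 : ee (β * (q * y)) =
          ee (β * (q * (L + 1))) * ee (-β * (q * (((L : ℤ) + 1 - y : ℤ) : ℝ))) := by
        rw [← Pool.Agent.GBQ.ee_add]
        congr 1
        push_cast
        ring
      rw [e2]
      ring
  rw [h1, norm_mul, TW1_norm_ee, one_mul]

private theorem TW1_scale (c : ℤ) (H : ℕ) (w f0 f1 f2 : ℤ → ℂ) (t : ℂ) :
    TW c H w (fun n => t * f0 n) (fun n => t * f1 n) (fun n => t * f2 n) =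
      t ^ 3 * TW c H w f0 f1 f2 := by
  unfold TW
  rw [Finset.mul_sum]
  refine Finset.sum_congr rfl fun h _ => ?_
  have e1 : ∑' n : ℤ, t * f0 n * (t * f1 (n + h)) * (t * f2 (n + pp c h)) =
      t ^ 3 * ∑' n : ℤ, f0 n * f1 (n + h) * f2 (n + pp c h) := by
    rw [← tsum_mul_left]
    refine tsum_congr fun n => ?_
    ring
  rw [e1]
  ring

/-- the sum over progressions for both signs -/
private theorem TW1_ap (z u v q L : ℕ) (s : ℤ) (hs : s = 1 ∨ s = -1) (T : ℝ)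
    (hT : ∀ β : ℝ, ∑' n : ℤ,
      ‖∑ y ∈ Icc (1 : ℤ) L, ((gI z u v (n + q * y) : ℝ) : ℂ) * ee (β * (q * y))‖ ^ 2 ≤ T)
    (β : ℝ) :
    ∑' n : ℤ,
      ‖∑ y ∈ Icc (1 : ℤ) L, ((gI z u v (s * (n + q * y)) : ℝ) : ℂ) * ee (β * (q * y))‖ ^ 2 ≤ T := by
  rcases hs with rfl | rfl
  · simp only [one_mul]
    exact hT β
  · simp only [neg_mul, one_mul]
    have h := TW1_refl (fun n => ((gI z u v n : ℝ) : ℂ)) q L β
    rw [h]
    exact hT (-β)

private theorem TW1_num (ℓ H X δC A'' : ℝ) (h1 : 2 ≤ ℓ) (hX : 0 < X) (hδ : 0 < δC)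
    (hA : A'' = δC) (hH : X ≤ 4 * H ^ 2)
    (h : δC * H ^ 2 ≤ (1 / ℓ ^ 2) ^ 2 * (X * A'')) : False := by
  subst hA
  have hl : 0 < ℓ := by linarith
  have h2 : A'' * (H ^ 2 * ℓ ^ 4) ≤ A'' * X := by
    have h3 := mul_le_mul_of_nonneg_right h (by positivity : 0 ≤ ℓ ^ 4)
    have e : (1 / ℓ ^ 2) ^ 2 * (X * A'') * ℓ ^ 4 = A'' * X := by
      field_simp
    rw [e] at h3
    linarith
  have h4 : H ^ 2 * ℓ ^ 4 ≤ X := le_of_mul_le_mul_left h2 hδ
  have h5 : (16 : ℝ) ≤ ℓ ^ 4 := by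
    have : (2 : ℝ) ^ 4 ≤ ℓ ^ 4 := by gcongr
    norm_num at this
    exact this
  nlinarith [sq_nonneg H]

theorem thm_TW1 (hI : St_Inv1w) (hL : St_LocAP) : St_TW1 := by
  intro A
  obtain ⟨C, hC⟩ := hI 12
  obtain ⟨B₀, hB₀⟩ := hL ((A + 6) * C) ((A + 6) * C + 1)
  refine ⟨B₀, fun B hB => ?_⟩
  have hlog : Tendsto (fun X : ℕ => Real.log X) atTop atTop :=
    Real.tendsto_log_atTop.comp tendsto_natCast_atTop_atTop
  have hsmall : ∀ᶠ X : ℕ in atTop, 4 * Real.log X ^ ((A + 6) * C) ≤ Real.sqrt X := by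
    have h1 : (fun x : ℝ => Real.log x ^ ((A + 6) * C)) =o[atTop] fun x : ℝ => x ^ (1 / 2 : ℝ) := by
      have := isLittleO_log_rpow_rpow_atTop (((A + 6) * C : ℕ) : ℝ) (by norm_num : (0 : ℝ) < 1 / 2)
      refine this.congr_left fun x => ?_
      rw [Real.rpow_natCast]
    have h2 := (h1.bound (by norm_num : (0 : ℝ) < 1 / 4)).and (eventually_ge_atTop (1 : ℝ))
    have h3 := tendsto_natCast_atTop_atTop (R := ℝ) |>.eventually h2
    filter_upwards [h3] with X hX
    obtain ⟨hX1, hX2⟩ := hX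
    rw [Real.norm_of_nonneg (by have := Real.log_nonneg hX2; positivity),
      Real.norm_of_nonneg (by positivity), ← Real.sqrt_eq_rpow] at hX1
    linarith
  filter_upwards [hB₀ B hB, TW1_gI B, hlog.eventually_ge_atTop 4, hsmall,
    eventually_ge_atTop 1] with X hAP hg hℓ hsm hX1
  intro c hc w f0 f2 u v s hv hs hw hf0 hf2 hsupp
  set ℓ := Real.log X with hℓd
  set H := Nat.sqrt X with hHd
  have hℓ0 : 0 < ℓ := by linarith
  have hX0 : (0 : ℝ) < X := by exact_mod_cast (by omega : 0 < X)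
  have hHs : (H : ℝ) ≤ Real.sqrt X := Real.nat_sqrt_le_real_sqrt
  have hH1 : 1 ≤ H := by
    rw [hHd, Nat.le_sqrt]
    omega
  have hH1' : (1 : ℝ) ≤ H := by exact_mod_cast hH1
  have hsH : Real.sqrt X ≤ 2 * H := by
    have h := Real.real_sqrt_le_nat_sqrt_succ (a := X)
    rw [← hHd] at h
    linarith
  have hXH : (X : ℝ) ≤ 4 * (H : ℝ) ^ 2 := by
    have h := Real.sq_sqrt hX0.le
    nlinarith [Real.sqrt_nonneg (X : ℝ)]
  have hXHn : X ≤ 4 * H ^ 2 := by exact_mod_cast hXH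
  by_contra hcon
  push Not at hcon
  set f1 : ℤ → ℂ := fun n => ((gI (zz B X) u v (s * n) : ℝ) : ℂ) with hf1d
  set t : ℂ := ((1 / ℓ ^ 2 : ℝ) : ℂ) with htd
  have ht : ‖t‖ = 1 / ℓ ^ 2 := by
    rw [htd, Complex.norm_real, Real.norm_of_nonneg (by positivity)]
  have hb : ∀ x : ℂ, ‖x‖ ≤ ℓ ^ 2 → ‖t * x‖ ≤ 1 := by
    intro x hx
    rw [norm_mul, ht, one_div, inv_mul_le_iff₀ (by positivity), mul_one]
    exact hx
  have hbig : ∀ n : ℤ, ((12 * H ^ 2 : ℕ) : ℤ) < |n| → 3 * (X : ℤ) < |n| := by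
    intro n hn
    refine lt_of_le_of_lt ?_ hn
    push_cast
    have : (X : ℤ) ≤ 4 * (H : ℤ) ^ 2 := by exact_mod_cast hXHn
    linarith
  have hF0 : Bd (12 * H ^ 2) (fun n => t * f0 n) :=
    ⟨fun n => hb _ (hf0 n), fun n hn => by
      show t * f0 n = 0
      rw [(hsupp n (hbig n hn)).1, mul_zero]⟩
  have hF2 : Bd (12 * H ^ 2) (fun n => t * f2 n) :=
    ⟨fun n => hb _ (hf2 n), fun n hn => by
      show t * f2 n = 0
      rw [(hsupp n (hbig n hn)).2, mul_zero]⟩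
  have hF1 : Bd (12 * H ^ 2) (fun n => t * f1 n) := by
    refine ⟨fun n => hb _ ?_, fun n hn => ?_⟩
    · rw [hf1d]
      show ‖((gI (zz B X) u v (s * n) : ℝ) : ℂ)‖ ≤ ℓ ^ 2
      rw [Complex.norm_real, Real.norm_eq_abs]
      exact hg u v (s * n) hv
    · have h3 := hbig n hn
      have h4 : ¬ ((u : ℤ) < s * n ∧ s * n ≤ v) := by
        rintro ⟨h5, h6⟩
        have h7 : |s * n| = |n| := by
          rcases hs with rfl | rfl <;> simp
        have h8 : |s * n| = s * n := abs_of_nonneg (by omega)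
        omega
      show t * ((gI (zz B X) u v (s * n) : ℝ) : ℂ) = 0
      unfold gI
      rw [if_neg h4]
      simp
  -- the parameter
  set δ : ℝ := 1 / ℓ ^ (A + 6) with hδd
  have hδ0 : 0 < δ := by positivity
  have hpow2 : ℓ ^ 2 ≤ ℓ ^ (A + 6) := pow_le_pow_right₀ (by linarith) (by omega)
  have hδC : δ ^ C = 1 / ℓ ^ ((A + 6) * C) := by
    rw [hδd, div_pow, one_pow, ← pow_mul]
  have hHX : (H : ℝ) ≤ X := by exact_mod_cast Nat.sqrt_le_self X
  have hbH : 2 ≤ δ ^ C * H := by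
    rw [hδC, one_div, inv_mul_eq_div, le_div_iff₀ (by positivity)]
    linarith
  have hR : Rg C H δ := by
    refine ⟨hδ0, ?_, ?_, by linarith⟩
    · rw [hδd, div_le_div_iff₀ (by positivity) (by norm_num)]
      nlinarith
    · rw [hδd, one_div, inv_mul_le_iff₀ (by positivity), mul_one]
      have h1 : Real.log H ≤ ℓ := Real.log_le_log (by linarith) hHX
      nlinarith
  have hbigTW : δ * (H : ℝ) ^ 3 ≤
      ‖TW c H w (fun n => t * f0 n) (fun n => t * f1 n) (fun n => t * f2 n)‖ := by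
    rw [TW1_scale, norm_mul, norm_pow, ht]
    have h1 : (H : ℝ) ^ 3 ≤ X * Real.sqrt X := by
      have h2 : (H : ℝ) ^ 2 ≤ X := by
        have := Real.sq_sqrt hX0.le
        nlinarith
      calc (H : ℝ) ^ 3 = (H : ℝ) ^ 2 * H := by ring
        _ ≤ X * Real.sqrt X := by gcongr
    have h3 : δ * (H : ℝ) ^ 3 = (1 / ℓ ^ 2) ^ 3 * ((H : ℝ) ^ 3 / ℓ ^ A) := by
      rw [hδd, pow_add]
      field_simp
    rw [h3]
    have h4 : (H : ℝ) ^ 3 / ℓ ^ A ≤ ‖TW c H w f0 f1 f2‖ := by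
      refine le_trans ?_ hcon.le
      gcongr
    exact mul_le_mul_of_nonneg_left h4 (by positivity)
  obtain ⟨q, hq1, hq2, hq3⟩ := hC H δ hR c hc w _ _ _ hw hF0 hF1 hF2 hbigTW
  set L := ⌊δ ^ C * H⌋₊ with hLd
  have hL1 : 1 ≤ L := by
    rw [hLd, Nat.one_le_floor_iff]
    linarith
  have hL2 : (L : ℝ) ≤ δ ^ C * H := Nat.floor_le (by positivity)
  have hL3 : δ ^ C * H < L + 1 := Nat.lt_floor_add_one _
  obtain ⟨β, hβ⟩ := hq3 L hL1 hL2
  have hδC1 : δ ^ C ≤ 1 := pow_le_one₀ hδ0.le (by linarith [hR.2.1])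
  have hq4 : (q : ℝ) ≤ ℓ ^ ((A + 6) * C + 1) := by
    refine hq2.trans ?_
    have : (1 / δ) ^ C = ℓ ^ ((A + 6) * C) := by
      rw [hδd, one_div_one_div, ← pow_mul]
    rw [this]
    exact pow_le_pow_right₀ (by linarith) (by omega)
  have hL4 : Real.sqrt X / ℓ ^ ((A + 6) * C + 1) ≤ L := by
    have h1 : δ ^ C * H ≤ 2 * L := by
      have : (1 : ℝ) ≤ L := by exact_mod_cast hL1
      linarith
    rw [hδC] at h1
    rw [div_le_iff₀ (by positivity)]
    have h2 : (H : ℝ) ≤ 2 * L * ℓ ^ ((A + 6) * C) := by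
      rw [one_div, inv_mul_le_iff₀ (by positivity)] at h1
      linarith
    calc Real.sqrt X ≤ 2 * H := hsH
      _ ≤ 2 * (2 * L * ℓ ^ ((A + 6) * C)) := by linarith
      _ = L * (ℓ ^ ((A + 6) * C) * 4) := by ring
      _ ≤ L * (ℓ ^ ((A + 6) * C) * ℓ) := by gcongr
      _ = L * ℓ ^ ((A + 6) * C + 1) := by rw [pow_succ]
  have hL5 : (L : ℝ) ≤ Real.sqrt X := by
    refine hL2.trans (le_trans ?_ hHs)
    nlinarith
  have hsum := TW1_ap (zz B X) u v q L s hs _ (fun β => hAP u v hv q L hq1 hq4 hL4 hL5 β) β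
  have hscale : ∑' n : ℤ, ‖∑ y ∈ Icc (1 : ℤ) L, (t * f1 (n + q * y)) * ee (β * (q * y))‖ ^ 2 =
      (1 / ℓ ^ 2) ^ 2 * ∑' n : ℤ,
        ‖∑ y ∈ Icc (1 : ℤ) L, ((gI (zz B X) u v (s * (n + q * y)) : ℝ) : ℂ) *
          ee (β * (q * y))‖ ^ 2 := by
    rw [← tsum_mul_left]
    refine tsum_congr fun n => ?_
    rw [← ht, ← mul_pow, ← norm_mul, Finset.mul_sum]
    congr 2
    refine Finset.sum_congr rfl fun y _ => ?_
    rw [hf1d]
    ring
  rw [hscale] at hβ
  have hL0 : (0 : ℝ) < (L : ℝ) ^ 2 := by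
    have : (1 : ℝ) ≤ L := by exact_mod_cast hL1
    positivity
  have hfin : δ ^ C * (H : ℝ) ^ 2 ≤ (1 / ℓ ^ 2) ^ 2 * (X * δ ^ C) := by
    have h1 := hβ.trans (mul_le_mul_of_nonneg_left hsum (by positivity))
    have h2 : (1 / ℓ ^ 2) ^ 2 * (X * (L : ℝ) ^ 2 / ℓ ^ ((A + 6) * C)) =
        (1 / ℓ ^ 2) ^ 2 * (X * δ ^ C) * (L : ℝ) ^ 2 := by
      rw [hδC]
      ring
    rw [h2] at h1
    exact le_of_mul_le_mul_right h1 hL0
  exact TW1_num ℓ H X (δ ^ C) (δ ^ C) (by linarith) hX0 (by positivity) rfl hXH hfin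

end Pool.Agent.NRP
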