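import Pool.Agent.NRP.StN
import Pool.Agent.NRP.StJ
import Pool.Agent.GBQ.RhoLow

set_option autoImplicit false

/-!
# NRP, module TW2: the third place
-/

namespace Pool.Agent.NRP

open Finset Filter
open Pool.Agent.GBQ (ee nd gm lam LamS zz rho pr)
open scoped ComplexConjugate

/-- scaling of the three functions -/
theorem TW2_scale (c : ℤ) (H : ℕ) (w f0 f1 f2 : ℤ → ℂ) (a b d : ℂ) :
    TW c H w (fun n => a * f0 n) (fun n => b * f1 n) (fun n => d * f2 n) =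
      a * b * d * TW c H w f0 f1 f2 := by
  unfold TW
  rw [Finset.mul_sum]
  refine Finset.sum_congr rfl fun h _ => ?_
  have h1 : ∀ n : ℤ, a * f0 n * (b * f1 (n + h)) * (d * f2 (n + pp c h)) =
      a * b * d * (f0 n * f1 (n + h) * f2 (n + pp c h)) := fun n => by ring
  simp only [h1]
  rw [tsum_mul_left]
  ring

/-- the values of `gI` at the natural numbers of the interval -/
theorem TW2_val (z u v n : ℕ) (hn : n ∈ Ioc u v) :
    gI z u v (n : ℤ) = lam n - LamS z n := by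
  obtain ⟨h1, h2⟩ := mem_Ioc.1 hn
  have h3 : (0 : ℤ) < n := by
    have : 0 < n := by omega
    exact_mod_cast this
  unfold gI
  rw [if_pos ⟨by exact_mod_cast h1, by exact_mod_cast h2⟩]
  unfold lamZ LamZ
  rw [if_pos h3, Int.toNat_natCast]

/-- the exponential sum over the integers -/
theorem TW2_sum (z u v : ℕ) (s : ℤ) (hs : s = 1 ∨ s = -1) (β : ℝ) (a : ℂ) :
    ∑' n : ℤ, (a * ((gI z u v (s * n) : ℝ) : ℂ)) * ee (β * n) =
      a * ∑ n ∈ Ioc u v, ((lam n - LamS z n : ℝ) : ℂ) * ee ((β * s) * n) := by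
  obtain ⟨F, hF⟩ : ∃ F : ℤ → ℂ, F = fun m =>
      (a * ((gI z u v m : ℝ) : ℂ)) * ee ((β * s) * m) := ⟨_, rfl⟩
  have h1 : ∑' n : ℤ, (a * ((gI z u v (s * n) : ℝ) : ℂ)) * ee (β * n) = ∑' m : ℤ, F m := by
    rcases hs with rfl | rfl
    · rw [hF]
      refine tsum_congr fun n => ?_
      simp
    · rw [← (Equiv.neg ℤ).tsum_eq F, hF]
      refine tsum_congr fun n => ?_
      simp
  have h2 : ∑' m : ℤ, F m = ∑ m ∈ (Ioc u v).map Nat.castEmbedding, F m := by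
    refine tsum_eq_sum fun m hm => ?_
    have h3 : gI z u v m = 0 := by
      unfold gI
      rw [if_neg]
      rintro ⟨h4, h5⟩
      apply hm
      refine mem_map.2 ⟨m.toNat, mem_Ioc.2 ⟨?_, ?_⟩, ?_⟩
      · omega
      · omega
      · show ((m.toNat : ℕ) : ℤ) = m
        omega
    rw [hF]
    simp [h3]
  rw [h1, h2, sum_map, Finset.mul_sum]
  refine sum_congr rfl fun n hn => ?_
  rw [hF]
  show (a * ((gI z u v (n : ℤ) : ℝ) : ℂ)) * ee ((β * s) * ((n : ℤ) : ℝ)) = _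
  rw [TW2_val z u v n hn, Int.cast_natCast, mul_assoc]

/-- the size of `gI` -/
theorem TW2_bd (B : ℕ) (hB : 1 ≤ B) : ∀ᶠ X : ℕ in atTop, ∀ (u v : ℕ) (n : ℤ), v ≤ 3 * X →
    |gI (zz B X) u v n| ≤ 2 * Real.log X := by
  obtain ⟨c, hc, hrho⟩ := Pool.Agent.GBQ.thm_RhoLow
  have hlog : Tendsto (fun X : ℕ => Real.log X) atTop atTop :=
    Real.tendsto_log_atTop.comp tendsto_natCast_atTop_atTop
  have h1 : ∀ᶠ X : ℕ in atTop, (2 : ℝ) ≤ Real.log X := hlog.eventually_ge_atTop 2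
  have h2 : ∀ᶠ X : ℕ in atTop, (B : ℝ) * Real.log (Real.log X) ≤ c * Real.log X := by
    have h3 := (Real.isLittleO_log_id_atTop.bound (show (0 : ℝ) < c / B by positivity))
    have h4 := hlog.eventually h3
    filter_upwards [h4, h1] with X h5 h6
    simp only [id, Real.norm_eq_abs] at h5
    rw [abs_of_nonneg (by linarith : (0 : ℝ) ≤ Real.log X)] at h5
    have h7 := (le_abs_self _).trans h5
    have hB' : (0 : ℝ) < B := by exact_mod_cast hB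
    calc (B : ℝ) * Real.log (Real.log X) ≤ B * (c / B * Real.log X) :=
          mul_le_mul_of_nonneg_left h7 hB'.le
      _ = c * Real.log X := by field_simp
  filter_upwards [h1, h2, eventually_ge_atTop 3] with X h1 h2 hX u v n hv
  have hX' : (3 : ℝ) ≤ X := by exact_mod_cast hX
  unfold gI
  split_ifs with h
  swap
  · rw [abs_zero]
    linarith
  have hn0 : 0 < n := lt_of_le_of_lt (by positivity) h.1
  have ha : 0 ≤ lamZ n ∧ lamZ n ≤ 2 * Real.log X := by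
    refine ⟨ArithmeticFunction.vonMangoldt_nonneg, ?_⟩
    refine (ArithmeticFunction.vonMangoldt_le_log).trans ?_
    have h3 : (n.toNat : ℝ) ≤ X ^ 2 := by
      have h4 : n.toNat ≤ 3 * X := by omega
      have h5 : (n.toNat : ℝ) ≤ 3 * X := by exact_mod_cast h4
      nlinarith
    have h4 : (0 : ℝ) < (n.toNat : ℝ) := by
      have : 0 < n.toNat := by omega
      exact_mod_cast this
    calc Real.log (n.toNat : ℝ) ≤ Real.log (X ^ 2) := Real.log_le_log h4 h3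
      _ = 2 * Real.log X := by rw [Real.log_pow]; norm_num
  have hb : 0 ≤ LamZ (zz B X) n ∧ LamZ (zz B X) n ≤ 2 * Real.log X := by
    unfold LamZ
    rw [if_pos hn0]
    have hz2 : 2 ≤ zz B X := by
      unfold zz
      refine Nat.le_floor ?_
      have h3 : (2 : ℝ) ≤ Real.log X ^ 1 := by rw [pow_one]; exact h1
      calc ((2 : ℕ) : ℝ) = 2 := by norm_num
        _ ≤ Real.log X ^ 1 := h3
        _ ≤ Real.log X ^ B := pow_le_pow_right₀ (by linarith) hB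
    have h3 := hrho _ hz2
    have hzp : (2 : ℝ) ≤ (zz B X : ℝ) := by exact_mod_cast hz2
    have hlz : 0 < Real.log (zz B X : ℝ) := Real.log_pos (by linarith)
    have h4 : Real.log (zz B X : ℝ) ≤ c * Real.log X := by
      refine le_trans ?_ h2
      have h5 : (zz B X : ℝ) ≤ Real.log X ^ B := Nat.floor_le (by positivity)
      calc Real.log (zz B X : ℝ) ≤ Real.log (Real.log X ^ B) :=
            Real.log_le_log (by linarith) h5
        _ = B * Real.log (Real.log X) := Real.log_pow _ _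
    have h5 : (rho (zz B X))⁻¹ ≤ Real.log X := by
      have h6 : 0 < c / Real.log (zz B X : ℝ) := div_pos hc hlz
      calc (rho (zz B X))⁻¹ ≤ (c / Real.log (zz B X : ℝ))⁻¹ := inv_anti₀ h6 h3
        _ = Real.log (zz B X : ℝ) / c := inv_div _ _
        _ ≤ Real.log X := by
          rw [div_le_iff₀ hc]
          linarith
    have h6 : 0 < rho (zz B X) := lt_of_lt_of_le (div_pos hc hlz) h3
    unfold LamS
    split_ifs
    · exact ⟨inv_nonneg.2 h6.le, by linarith⟩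
    · exact ⟨le_rfl, by linarith⟩
  rw [abs_le]
  constructor <;> linarith [ha.1, ha.2, hb.1, hb.2]

theorem thm_TW2 (hI : St_Inv2w) (hS : St_SupS) : St_TW2 := by
  intro A
  obtain ⟨C, hC⟩ := hI 12
  obtain ⟨k, hk⟩ : ∃ k : ℕ, k = A + 6 := ⟨_, rfl⟩
  obtain ⟨B₁, hB₁⟩ := hS (k * C + 1)
  refine ⟨max B₁ 1, fun B hB => ?_⟩
  have hlog : Tendsto (fun X : ℕ => Real.log X) atTop atTop :=
    Real.tendsto_log_atTop.comp tendsto_natCast_atTop_atTop
  have e1 : ∀ᶠ X : ℕ in atTop, (2 : ℝ) ≤ Real.log X := hlog.eventually_ge_atTop 2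
  have e2 : ∀ᶠ X : ℕ in atTop, 4 * Real.log X ^ (2 * (k * C)) ≤ (X : ℝ) := by
    have h3 := (Real.isLittleO_pow_log_id_atTop (n := 2 * (k * C))).bound
      (show (0 : ℝ) < 1 / 4 by norm_num)
    have h4 := tendsto_natCast_atTop_atTop.eventually h3
    filter_upwards [h4] with X h5
    simp only [id, Real.norm_eq_abs] at h5
    rw [abs_of_nonneg (show (0 : ℝ) ≤ (X : ℝ) from Nat.cast_nonneg X)] at h5
    have h7 := (le_abs_self _).trans h5
    linarith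
  filter_upwards [e1, e2, hB₁ B (le_trans (le_max_left _ _) hB),
    TW2_bd B (le_trans (le_max_right _ _) hB), eventually_ge_atTop 1] with X h1 h2 hsup hbd hX1
  intro c hc w f0 f1 u v s hv hs hw hf0 hf1 hsup01
  obtain ⟨ℓ, hℓ⟩ : ∃ ℓ : ℝ, ℓ = Real.log X := ⟨_, rfl⟩
  obtain ⟨H, hH⟩ : ∃ H : ℕ, H = Nat.sqrt X := ⟨_, rfl⟩
  rw [← hℓ] at h1 h2 hf0 hf1
  rw [← hH, ← hℓ]
  have hℓ0 : 0 < ℓ := by linarith
  have hXp : (0 : ℝ) < X := by exact_mod_cast hX1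
  have hH1 : 1 ≤ H := by
    rw [hH]
    exact Nat.sqrt_pos.2 hX1
  have hHX : H ^ 2 ≤ X := by
    rw [hH, sq]
    exact Nat.sqrt_le X
  have hXH : X < (H + 1) ^ 2 := by
    rw [hH, sq]
    exact Nat.lt_succ_sqrt X
  have hXH4 : X ≤ 4 * H ^ 2 := by nlinarith
  have hHs : (H : ℝ) ≤ Real.sqrt X := by
    refine Real.le_sqrt_of_sq_le ?_
    exact_mod_cast hHX
  have hH0 : (0 : ℝ) < H := by exact_mod_cast hH1
  have hpow1 : ∀ m : ℕ, 1 ≤ ℓ ^ m := fun m => one_le_pow₀ (by linarith)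
  by_contra hcon
  push Not at hcon
  -- the parameter
  obtain ⟨δ, hδ⟩ : ∃ δ : ℝ, δ = (ℓ ^ k)⁻¹ := ⟨_, rfl⟩
  have hlk : ℓ ^ 2 ≤ ℓ ^ k := pow_le_pow_right₀ (by linarith) (by omega)
  have hlk0 : 0 < ℓ ^ k := by positivity
  have hδ0 : 0 < δ := by
    rw [hδ]
    positivity
  have hδC : δ ^ C = (ℓ ^ (k * C))⁻¹ := by rw [hδ, inv_pow, pow_mul]
  have hHlow : ℓ ^ (k * C) ≤ H := by
    have h3 : (2 * ℓ ^ (k * C)) ^ 2 ≤ X := by
      calc (2 * ℓ ^ (k * C)) ^ 2 = 4 * ℓ ^ (2 * (k * C)) := by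
            rw [mul_pow, ← pow_mul]
            ring_nf
        _ ≤ X := h2
    have h4 : (X : ℝ) < ((H : ℝ) + 1) ^ 2 := by exact_mod_cast hXH
    have h5 : 2 * ℓ ^ (k * C) < (H : ℝ) + 1 :=
      lt_of_pow_lt_pow_left₀ 2 (by positivity) (lt_of_le_of_lt h3 h4)
    have h6 := hpow1 (k * C)
    linarith
  have hRg : Rg C H δ := by
    refine ⟨hδ0, ?_, ?_, ?_⟩
    · rw [hδ, show (1 : ℝ) / 2 = 2⁻¹ by norm_num]
      refine inv_anti₀ (by norm_num) ?_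
      nlinarith
    · have h3 : Real.log H ≤ ℓ := by
        rw [hℓ]
        refine Real.log_le_log hH0 ?_
        have : H ≤ X := le_trans (Nat.le_self_pow (by norm_num) H) hHX
        exact_mod_cast this
      rw [hδ, inv_mul_le_iff₀ hlk0, mul_one]
      nlinarith
    · rw [hδC, le_inv_mul_iff₀ (by positivity), mul_one]
      exact hHlow
  have hl2 : (0 : ℝ) < ℓ ^ 2 := by positivity
  have hcn : ‖(((ℓ ^ 2)⁻¹ : ℝ) : ℂ)‖ = (ℓ ^ 2)⁻¹ := by
    rw [Complex.norm_real, Real.norm_eq_abs, abs_of_pos (inv_pos.2 hl2)]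
  have hM : (3 * (X : ℤ)) ≤ ((12 * H ^ 2 : ℕ) : ℤ) := by
    have : 3 * X ≤ 12 * H ^ 2 := by omega
    exact_mod_cast this
  have hbd' : ∀ f : ℤ → ℂ, (∀ n, ‖f n‖ ≤ ℓ ^ 2) → (∀ n : ℤ, 3 * (X : ℤ) < |n| → f n = 0) →
      Bd (12 * H ^ 2) (fun n => (((ℓ ^ 2)⁻¹ : ℝ) : ℂ) * f n) := by
    intro f h3 h4
    refine ⟨fun n => ?_, fun n hn => ?_⟩
    · rw [norm_mul, hcn, inv_mul_le_iff₀ hl2, mul_one]
      exact h3 n
    · show _ * f n = 0
      rw [h4 n (lt_of_le_of_lt hM hn), mul_zero]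
  have hg1 : ∀ n : ℤ, ‖((gI (zz B X) u v (s * n) : ℝ) : ℂ)‖ ≤ ℓ ^ 2 := by
    intro n
    rw [Complex.norm_real, Real.norm_eq_abs]
    refine (hbd u v (s * n) hv).trans ?_
    rw [← hℓ]
    nlinarith
  have hg2 : ∀ n : ℤ, 3 * (X : ℤ) < |n| → ((gI (zz B X) u v (s * n) : ℝ) : ℂ) = 0 := by
    intro n hn
    have h3 : gI (zz B X) u v (s * n) = 0 := by
      unfold gI
      rw [if_neg]
      rintro ⟨h4, h5⟩
      have h6 : |s * n| = |n| := by
        rcases hs with rfl | rfl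
        · rw [one_mul]
        · rw [neg_one_mul, abs_neg]
      have h7 : |s * n| = s * n := abs_of_nonneg (le_trans (by positivity) h4.le)
      have h8 : (v : ℤ) ≤ 3 * X := by exact_mod_cast hv
      omega
    rw [h3, Complex.ofReal_zero]
  have hTW : δ * (H : ℝ) ^ 3 ≤ ‖TW c H w (fun n => (((ℓ ^ 2)⁻¹ : ℝ) : ℂ) * f0 n)
      (fun n => (((ℓ ^ 2)⁻¹ : ℝ) : ℂ) * f1 n)
      (fun n => (((ℓ ^ 2)⁻¹ : ℝ) : ℂ) * ((gI (zz B X) u v (s * n) : ℝ) : ℂ))‖ := by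
    rw [TW2_scale, norm_mul, norm_mul, norm_mul, hcn]
    have h3 : (H : ℝ) ^ 3 ≤ X * Real.sqrt X := by
      calc (H : ℝ) ^ 3 = (H : ℝ) ^ 2 * H := by ring
        _ ≤ X * Real.sqrt X := by
          refine mul_le_mul ?_ hHs hH0.le hXp.le
          exact_mod_cast hHX
    have h4 : (ℓ ^ 2)⁻¹ * (ℓ ^ 2)⁻¹ * (ℓ ^ 2)⁻¹ = (ℓ ^ 6)⁻¹ := by
      rw [← mul_inv, ← mul_inv]
      ring_nf
    rw [h4, hδ]
    calc (ℓ ^ k)⁻¹ * (H : ℝ) ^ 3 ≤ (ℓ ^ k)⁻¹ * (X * Real.sqrt X) :=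
          mul_le_mul_of_nonneg_left h3 (by positivity)
      _ = (ℓ ^ 6)⁻¹ * (X * Real.sqrt X / ℓ ^ A) := by
          rw [hk, pow_add]
          field_simp
      _ ≤ _ := mul_le_mul_of_nonneg_left hcon.le (by positivity)
  obtain ⟨β, hβ⟩ := hC H δ hRg c hc w _ _ _ hw (hbd' f0 hf0 fun n hn => (hsup01 n hn).1)
    (hbd' f1 hf1 fun n hn => (hsup01 n hn).2) (hbd' _ hg1 hg2) hTW
  rw [TW2_sum _ _ _ s hs, norm_mul, hcn] at hβ
  have h3 := hsup u v hv (β * s)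
  rw [← hℓ] at h3
  have h4 : δ ^ C * (H : ℝ) ^ 2 ≤ (ℓ ^ 2)⁻¹ * (X / ℓ ^ (k * C + 1)) :=
    hβ.trans (mul_le_mul_of_nonneg_left h3 (by positivity))
  rw [hδC] at h4
  have hP : 0 < ℓ ^ (k * C) := by positivity
  have h5 : (H : ℝ) ^ 2 ≤ X / ℓ ^ 3 := by
    calc (H : ℝ) ^ 2 = ℓ ^ (k * C) * ((ℓ ^ (k * C))⁻¹ * (H : ℝ) ^ 2) := by field_simp
      _ ≤ ℓ ^ (k * C) * ((ℓ ^ 2)⁻¹ * (X / ℓ ^ (k * C + 1))) :=
          mul_le_mul_of_nonneg_left h4 hP.le
      _ = X / ℓ ^ 3 := by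
          rw [show ℓ ^ (k * C + 1) = ℓ ^ (k * C) * ℓ from pow_succ _ _]
          field_simp
  have h6 : (8 : ℝ) ≤ ℓ ^ 3 := by
    calc (8 : ℝ) = 2 ^ 3 := by norm_num
      _ ≤ ℓ ^ 3 := pow_le_pow_left₀ (by norm_num) h1 3
  have h7 : (X : ℝ) ≤ 4 * (H : ℝ) ^ 2 := by exact_mod_cast hXH4
  have h8 : (X : ℝ) / ℓ ^ 3 ≤ X / 8 := div_le_div_of_nonneg_left hXp.le (by norm_num) h6
  linarith

end Pool.Agent.NRP
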