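import Mathlib
import Pool.Agent.NRP.AllI
import Pool.Agent.NRP.ModS
import Pool.Agent.NRP.MinS
import Pool.Agent.NRP.SupS
import Pool.Agent.NRP.MajL
import Pool.Agent.NRP.LocD
import Pool.Agent.NRP.Loc
import Pool.Agent.NRP.LocAP
import Pool.Agent.NRP.BVS
import Pool.Agent.NRP.BVM
import Pool.Agent.NRP.Sing
import Pool.Agent.NRP.A3
import Pool.Agent.NRP.GAl
import Pool.Agent.NRP.TW2
import Pool.Agent.NRP.TW1
import Pool.Agent.NRP.Ba
import Pool.Agent.NRP.Bb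
import Pool.Agent.NRP.Aa
import Pool.Agent.NRP.Ab
import Pool.Agent.NRP.Cnt
import Pool.Agent.NRP.Ca
import Pool.Agent.NRP.Cb
import Pool.Agent.NRP.Cd
import Pool.Agent.NRP.Ea
import Pool.Agent.NRP.Eb
import Pool.Agent.LMS.All
import Pool.Agent.NRV.All
import Pool.Agent.NRW.WCls
import Pool.Agent.NRW.WMV
import Pool.Agent.NRW.WPr
import Pool.Agent.NRW.WRem
import Pool.Agent.NRW.WInt
import Pool.Agent.NRW.WOne
import Pool.Agent.NRW.WVar
import Pool.Agent.NRW.WLong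
import Pool.Agent.NRW.WSm
import Pool.Agent.NRW.Sap
import Pool.Agent.SI.Asm

set_option autoImplicit false

/-!
# NRP: assembly
-/

namespace Pool.Agent.NRP

open Pool.Agent

theorem asm_fac : NRV.St_FaC := NRV.wFaC

theorem asm_sap : St_Sap := by
  have i : NRW.St_WInt := NRW.thm_WInt (NRW.thm_WRem NRW.thm_WPr NRW.thm_WMV SI.thm_Cof) asm_fac
  have o : NRW.St_WOne := NRW.thm_WOne NRW.thm_WCls i SI.thm_Cof SI.thm_Four
  exact NRW.thm_Sap (NRW.thm_WSm (NRW.thm_WVar (SI.thm_Box SI.thm_HB) o SI.thm_Cof) NRW.thm_WLong)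

theorem asm_sup : St_SupS := thm_SupS thm_ModS thm_MinS

theorem asm_locap : St_LocAP :=
  thm_LocAP (thm_Loc (thm_LocD (LMS.wMinL thm_MinS) (thm_MajL asm_sap thm_ModS)))

theorem asm_tw2 : St_TW2 := thm_TW2 asm_inv2w asm_sup

theorem asm_tw1 : St_TW1 := thm_TW1 asm_inv1w asm_locap

theorem asm_ba : St_Ba := thm_Ba asm_tw2 asm_tw1 (thm_BVM thm_BVS) thm_Sing

theorem asm_bb : St_Bb := thm_Bb asm_tw2 asm_tw1 (thm_BVM thm_BVS) thm_Sing

theorem asm_ab : St_Ab := thm_Ab (thm_Aa asm_tw2 asm_tw1 thm_A3 thm_GAl) thm_GAl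

theorem asm_ca : St_Ca := thm_Ca asm_ba asm_bb

theorem asm_cb : St_Cb := thm_Cb asm_ca thm_Cnt thm_Sing

theorem asm_cd : St_Cd := thm_Cd thm_Sing

theorem asm_ea : St_Ea := thm_Ea asm_ab

theorem asm_eb : St_Eb := thm_Eb asm_ea thm_GAl

end Pool.Agent.NRP
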