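import Pool.Agent.MT.LargeSieve
import Pool.Agent.BVX.MulLS

set_option autoImplicit false

/-!
# NRP, block BVS, part 1: bilinear sums with a sharp cutoff (helper24)

The cutoff `lk ≤ N` is a sum of `O(log N)` smooth functions `ψ (2 ^ j log (lk/N) / log N)`.
-/

namespace Pool.Agent.NRP

open Finset MeasureTheory
open Pool.Agent.MT Pool.Agent.BVX
open scoped ContDiff FourierTransform SchwartzMap

/-- the additive character -/
noncomputable def bsE (ξ y : ℝ) : ℂ :=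
  Complex.exp (((2 * Real.pi * (ξ * y) : ℝ) : ℂ) * Complex.I)

theorem bsE_norm (ξ y : ℝ) : ‖bsE ξ y‖ = 1 := Complex.norm_exp_ofReal_mul_I _

theorem bsE_add (ξ x y : ℝ) : bsE ξ (x + y) = bsE ξ x * bsE ξ y := by
  rw [bsE, bsE, bsE, ← Complex.exp_add]
  congr 1
  push_cast
  ring

theorem bsE_cont (y : ℝ) : Continuous fun ξ => bsE ξ y := by
  unfold bsE
  fun_prop

theorem bs_int {g : ℝ → ℂ} (hg : Integrable g) (y : ℝ) : Integrable fun ξ => bsE ξ y * g ξ := by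
  refine hg.mono ((bsE_cont y).aestronglyMeasurable.mul hg.1) ?_
  refine Filter.Eventually.of_forall fun ξ => ?_
  rw [norm_mul, bsE_norm, one_mul]

/-- separation of variables -/
theorem bs_sep (h : ℝ → ℂ) (h1 : ContDiff ℝ ∞ h) (h2 : HasCompactSupport h) :
    ∃ g : ℝ → ℂ, Integrable g ∧ ∀ y : ℝ, h y = ∫ ξ : ℝ, bsE ξ y * g ξ := by
  set H : 𝓢(ℝ, ℂ) := h2.toSchwartzMap h1 with hH
  have hHc : (H : ℝ → ℂ) = h := rfl
  have hFi : Integrable (𝓕 h) := by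
    have := (𝓕 H : 𝓢(ℝ, ℂ)).integrable (μ := volume)
    rw [SchwartzMap.fourier_coe, hHc] at this
    exact this
  have hi : Integrable h := by
    have := H.integrable (μ := volume)
    rwa [hHc] at this
  refine ⟨𝓕 h, hFi, fun x => ?_⟩
  have hinv := hi.fourierInv_fourier_eq hFi (v := x) h1.continuous.continuousAt
  rw [← hinv, Real.fourierInv_eq']
  refine integral_congr_ae (Filter.Eventually.of_forall fun ξ => ?_)
  simp only [smul_eq_mul, bsE]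
  congr 3
  simp [mul_comm]

/-- the bilinear sum with a separated weight -/
theorem bs_bil (g : ℝ → ℂ) (hg : Integrable g) (lam c : ℝ) (R M K : ℕ) (hM : 1 ≤ M)
    (a b : ℕ → ℂ) :
    ∑ q ∈ Icc 1 R, ∑ χ ∈ prim q,
      ‖∑ l ∈ Ioc M (2 * M), ∑ k ∈ Icc 1 K, (a l * b k * χ ((l * k : ℕ) : ZMod q)) *
        ∫ ξ : ℝ, bsE ξ (lam * (Real.log ((l * k : ℕ) : ℝ) + c)) * g ξ‖ ≤
      (∫ ξ, ‖g ξ‖) * (16 * (Real.sqrt (((M : ℝ) + (R : ℝ) ^ 2) * ∑ l ∈ Ioc M (2 * M), ‖a l‖ ^ 2) *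
        Real.sqrt (((K : ℝ) + (R : ℝ) ^ 2) * ∑ k ∈ Icc 1 K, ‖b k‖ ^ 2))) := by
  set X : ℝ := ((M : ℝ) + (R : ℝ) ^ 2) * ∑ l ∈ Ioc M (2 * M), ‖a l‖ ^ 2 with hX
  set Y : ℝ := ((K : ℝ) + (R : ℝ) ^ 2) * ∑ k ∈ Icc 1 K, ‖b k‖ ^ 2 with hY
  set A : (q : ℕ) → DirichletCharacter ℂ q → ℝ → ℂ := fun q χ ξ =>
    ∑ l ∈ Ioc M (2 * M), (a l * bsE ξ (lam * Real.log l)) * χ (l : ZMod q) with hA
  set B : (q : ℕ) → DirichletCharacter ℂ q → ℝ → ℂ := fun q χ ξ =>
    ∑ k ∈ Icc 1 K, (b k * bsE ξ (lam * Real.log k)) * χ (k : ZMod q) with hB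
  set F : (q : ℕ) → DirichletCharacter ℂ q → ℝ → ℂ := fun q χ ξ =>
    ∑ l ∈ Ioc M (2 * M), ∑ k ∈ Icc 1 K, (a l * b k * χ ((l * k : ℕ) : ZMod q)) *
      (bsE ξ (lam * (Real.log ((l * k : ℕ) : ℝ) + c)) * g ξ) with hF
  have hFi : ∀ q (χ : DirichletCharacter ℂ q), Integrable (F q χ) := by
    intro q χ
    exact integrable_finsetSum _ fun l _ => integrable_finsetSum _ fun k _ =>
      (bs_int hg _).const_mul _
  have hFAB : ∀ q (χ : DirichletCharacter ℂ q) ξ, ‖F q χ ξ‖ = ‖g ξ‖ * (‖A q χ ξ‖ * ‖B q χ ξ‖) := by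
    intro q χ ξ
    have e1 : F q χ ξ = (g ξ * bsE ξ (lam * c)) * (A q χ ξ * B q χ ξ) := by
      simp only [hF, hA, hB]
      rw [Finset.sum_mul_sum, Finset.mul_sum]
      refine Finset.sum_congr rfl fun l hl => ?_
      rw [Finset.mul_sum]
      refine Finset.sum_congr rfl fun k hk => ?_
      have hl' : (0 : ℝ) < l := by
        have := (Finset.mem_Ioc.1 hl).1
        exact_mod_cast (by omega : 0 < l)
      have hk' : (0 : ℝ) < k := by
        have := (Finset.mem_Icc.1 hk).1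
        exact_mod_cast (by omega : 0 < k)
      have e2 : lam * (Real.log ((l * k : ℕ) : ℝ) + c) =
          lam * Real.log l + lam * Real.log k + lam * c := by
        rw [Nat.cast_mul, Real.log_mul hl'.ne' hk'.ne']
        ring
      rw [e2, bsE_add, bsE_add, Nat.cast_mul (α := ZMod q), map_mul]
      ring
    rw [e1, norm_mul, norm_mul, norm_mul, bsE_norm, mul_one]
  have hS : ∀ q (χ : DirichletCharacter ℂ q),
      ∑ l ∈ Ioc M (2 * M), ∑ k ∈ Icc 1 K, (a l * b k * χ ((l * k : ℕ) : ZMod q)) *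
        (∫ ξ : ℝ, bsE ξ (lam * (Real.log ((l * k : ℕ) : ℝ) + c)) * g ξ) = ∫ ξ, F q χ ξ := by
    intro q χ
    simp only [hF]
    rw [integral_finsetSum _ fun l _ => integrable_finsetSum _ fun k _ =>
      (bs_int hg _).const_mul _]
    refine Finset.sum_congr rfl fun l hl => ?_
    rw [integral_finsetSum _ fun k _ => (bs_int hg _).const_mul _]
    refine Finset.sum_congr rfl fun k hk => ?_
    rw [integral_const_mul]
  have hAl : ∀ ξ, ∑ q ∈ Icc 1 R, ∑ χ ∈ prim q, ‖A q χ ξ‖ ^ 2 ≤ 16 * X := by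
    intro ξ
    have h1 := large_sieve2 R M (2 * M) (by omega) (fun l => a l * bsE ξ (lam * Real.log l))
    simp only [norm_mul, bsE_norm, mul_one] at h1
    rw [show (((2 * M : ℕ) : ℝ) - M + (R : ℝ) ^ 2) = (M : ℝ) + (R : ℝ) ^ 2 by
      push_cast; ring] at h1
    rw [hX, ← mul_assoc]
    exact h1
  have hBl : ∀ ξ, ∑ q ∈ Icc 1 R, ∑ χ ∈ prim q, ‖B q χ ξ‖ ^ 2 ≤ 16 * Y := by
    intro ξ
    have h1 := large_sieve2 R 0 K (Nat.zero_le _) (fun k => b k * bsE ξ (lam * Real.log k))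
    simp only [norm_mul, bsE_norm, mul_one] at h1
    have h2 : Ioc 0 K = Icc 1 K := by
      ext k; simp only [Finset.mem_Ioc, Finset.mem_Icc]; omega
    rw [h2] at h1
    refine h1.trans (le_of_eq ?_)
    rw [hY, ← mul_assoc]
    push_cast
    ring
  have hCS : ∀ ξ, ∑ q ∈ Icc 1 R, ∑ χ ∈ prim q, ‖A q χ ξ‖ * ‖B q χ ξ‖ ≤
      16 * (Real.sqrt X * Real.sqrt Y) := by
    intro ξ
    have h16 : Real.sqrt 16 = 4 := by
      rw [show (16 : ℝ) = 4 ^ 2 by norm_num]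
      exact Real.sqrt_sq (by norm_num)
    have hsX : Real.sqrt (16 * X) = 4 * Real.sqrt X := by
      rw [Real.sqrt_mul (by norm_num), h16]
    have hsY : Real.sqrt (16 * Y) = 4 * Real.sqrt Y := by
      rw [Real.sqrt_mul (by norm_num), h16]
    have h1 := Real.sum_mul_le_sqrt_mul_sqrt ((Icc 1 R).sigma prim)
      (fun p => ‖A p.1 p.2 ξ‖) (fun p => ‖B p.1 p.2 ξ‖)
    rw [Finset.sum_sigma, Finset.sum_sigma, Finset.sum_sigma] at h1
    refine h1.trans ?_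
    refine (mul_le_mul (Real.sqrt_le_sqrt (hAl ξ)) (Real.sqrt_le_sqrt (hBl ξ))
      (Real.sqrt_nonneg _) (Real.sqrt_nonneg _)).trans (le_of_eq ?_)
    rw [hsX, hsY]
    ring
  calc _ = ∑ q ∈ Icc 1 R, ∑ χ ∈ prim q, ‖∫ ξ, F q χ ξ‖ := by
        refine Finset.sum_congr rfl fun q _ => Finset.sum_congr rfl fun χ _ => ?_
        rw [hS]
    _ ≤ ∑ q ∈ Icc 1 R, ∑ χ ∈ prim q, ∫ ξ, ‖F q χ ξ‖ :=
        Finset.sum_le_sum fun q _ => Finset.sum_le_sum fun χ _ => norm_integral_le_integral_norm _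
    _ = ∫ ξ, ∑ q ∈ Icc 1 R, ∑ χ ∈ prim q, ‖F q χ ξ‖ := by
        rw [integral_finsetSum _ fun q _ => integrable_finsetSum _ fun χ _ => (hFi q χ).norm]
        refine Finset.sum_congr rfl fun q _ => ?_
        rw [integral_finsetSum _ fun χ _ => (hFi q χ).norm]
    _ ≤ ∫ ξ, ‖g ξ‖ * (16 * (Real.sqrt X * Real.sqrt Y)) := by
        refine integral_mono (integrable_finsetSum _ fun q _ => integrable_finsetSum _ fun χ _ =>
          (hFi q χ).norm) (hg.norm.mul_const _) fun ξ => ?_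
        simp only [hFAB, ← Finset.mul_sum]
        exact mul_le_mul_of_nonneg_left (hCS ξ) (norm_nonneg _)
    _ = (∫ ξ, ‖g ξ‖) * (16 * (Real.sqrt X * Real.sqrt Y)) := integral_mul_const _ _

/-- the smooth step: `1` for `v ≤ 0`, `0` for `v ≥ 1` -/
noncomputable def bsS (v : ℝ) : ℝ := Real.smoothTransition (1 - v)

theorem bsS_one {v : ℝ} (h : v ≤ 0) : bsS v = 1 := Real.smoothTransition.one_of_one_le (by linarith)

theorem bsS_zero {v : ℝ} (h : 1 ≤ v) : bsS v = 0 :=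
  Real.smoothTransition.zero_of_nonpos (by linarith)

theorem bsS_smooth : ContDiff ℝ ∞ bsS := by
  unfold bsS
  exact Real.smoothTransition.contDiff.comp (contDiff_const.sub contDiff_id)

/-- the plateau: `bsS` for `v ≥ -1` -/
noncomputable def bsH (v : ℝ) : ℝ := Real.smoothTransition (v + 2) * bsS v

theorem bsH_eq {v : ℝ} (h : -1 ≤ v) : bsH v = bsS v := by
  unfold bsH
  rw [Real.smoothTransition.one_of_one_le (by linarith), one_mul]

/-- the telescoping function -/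
noncomputable def bsP (v : ℝ) : ℝ := bsS (2 * v) - bsS v

theorem bs_tel (v : ℝ) (h : -1 ≤ v) (J : ℕ) :
    bsH v + ∑ j ∈ range J, bsP (2 ^ j * v) = bsS (2 ^ J * v) := by
  rw [bsH_eq h]
  induction J with
  | zero => simp
  | succ J ih =>
    rw [sum_range_succ, ← add_assoc, ih]
    unfold bsP
    rw [pow_succ']
    rw [mul_assoc]
    ring

theorem bsH_smooth : ContDiff ℝ ∞ (fun v => ((bsH v : ℝ) : ℂ)) := by
  unfold bsH
  exact Complex.ofRealCLM.contDiff.comp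
    ((Real.smoothTransition.contDiff.comp (contDiff_id.add contDiff_const)).mul bsS_smooth)

theorem bsH_supp : HasCompactSupport (fun v => ((bsH v : ℝ) : ℂ)) := by
  refine HasCompactSupport.of_support_subset_isCompact (isCompact_Icc (a := -2) (b := 1)) ?_
  intro v hv
  rw [Function.mem_support] at hv
  by_contra h
  apply hv
  rw [Set.mem_Icc, not_and_or, not_le, not_le] at h
  rcases h with h | h
  · unfold bsH
    rw [Real.smoothTransition.zero_of_nonpos (by linarith), zero_mul, Complex.ofReal_zero]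
  · unfold bsH
    rw [bsS_zero h.le, mul_zero, Complex.ofReal_zero]

theorem bsP_smooth : ContDiff ℝ ∞ (fun v => ((bsP v : ℝ) : ℂ)) := by
  unfold bsP
  exact Complex.ofRealCLM.contDiff.comp
    ((bsS_smooth.comp (contDiff_const.mul contDiff_id)).sub bsS_smooth)

theorem bsP_supp : HasCompactSupport (fun v => ((bsP v : ℝ) : ℂ)) := by
  refine HasCompactSupport.of_support_subset_isCompact (isCompact_Icc (a := 0) (b := 1)) ?_
  intro v hv
  rw [Function.mem_support] at hv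
  by_contra h
  apply hv
  rw [Set.mem_Icc, not_and_or, not_le, not_le] at h
  unfold bsP
  rcases h with h | h
  · rw [bsS_one (by linarith), bsS_one (by linarith), sub_self, Complex.ofReal_zero]
  · rw [bsS_zero (by linarith), bsS_zero (by linarith), sub_self, Complex.ofReal_zero]

/-- the cutoff `n ≤ N` -/
theorem bs_cut (N : ℕ) (hN : 3 ≤ N) : ∃ J : ℕ, (J : ℝ) ≤ 6 * Real.log N ∧ ∀ n : ℕ, 1 ≤ n →
    (if n ≤ N then (1 : ℝ) else 0) =
      bsH ((Real.log N)⁻¹ * (Real.log n + -Real.log N)) +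
        ∑ j ∈ range J, bsP (2 ^ j * ((Real.log N)⁻¹ * (Real.log n + -Real.log N))) := by
  have hN0 : (0 : ℝ) < N := by positivity
  have hN3 : (3 : ℝ) ≤ N := by exact_mod_cast hN
  have hL1 : 1 ≤ Real.log N := by
    rw [Real.le_log_iff_exp_le hN0]
    have h1 := Real.exp_one_lt_d9
    linarith
  have hL0 : 0 < Real.log N := by linarith
  set m := Nat.log 2 N with hm
  have hm1 : (2 : ℝ) ^ m ≤ N := by exact_mod_cast Nat.pow_log_le_self 2 (by omega)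
  have hm2 : (N : ℝ) < 2 ^ (m + 1) := by exact_mod_cast Nat.lt_pow_succ_log_self (by norm_num) N
  refine ⟨2 * (m + 1) + 1, ?_, ?_⟩
  · have h2 := Real.log_le_log (by positivity) hm1
    rw [Real.log_pow] at h2
    have h3 : (0.6931471803 : ℝ) < Real.log 2 := Real.log_two_gt_d9
    have h4 : (0 : ℝ) ≤ (m : ℝ) := Nat.cast_nonneg _
    push_cast
    nlinarith
  · intro n hn
    have hn1 : (1 : ℝ) ≤ n := by exact_mod_cast hn
    set v := (Real.log N)⁻¹ * (Real.log n + -Real.log N) with hv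
    have hlogn : 0 ≤ Real.log n := Real.log_nonneg hn1
    have hv1 : -1 ≤ v := by
      rw [hv, mul_add, mul_neg, inv_mul_cancel₀ hL0.ne']
      have : 0 ≤ (Real.log N)⁻¹ * Real.log n := by positivity
      linarith
    rw [bs_tel v hv1]
    by_cases hnN : n ≤ N
    · rw [if_pos hnN, bsS_one]
      have h1 : Real.log n ≤ Real.log N := Real.log_le_log (by linarith) (by exact_mod_cast hnN)
      have h2 : v ≤ 0 := mul_nonpos_of_nonneg_of_nonpos (by positivity) (by linarith)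
      exact mul_nonpos_of_nonneg_of_nonpos (by positivity) h2
    · rw [if_neg hnN, bsS_zero]
      have h1 : (N : ℝ) + 1 ≤ n := by exact_mod_cast (by omega : N + 1 ≤ n)
      have h2 : Real.log ((N : ℝ) + 1) ≤ Real.log n := Real.log_le_log (by linarith) h1
      have h3 : 1 - (((N : ℝ) + 1) / N)⁻¹ ≤ Real.log (((N : ℝ) + 1) / N) :=
        Real.one_sub_inv_le_log_of_pos (by positivity)
      rw [Real.log_div (by positivity) (by positivity)] at h3
      have h4 : 1 - (((N : ℝ) + 1) / N)⁻¹ = 1 / ((N : ℝ) + 1) := by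
        field_simp
        ring
      rw [h4] at h3
      have h5 : 1 / ((N : ℝ) + 1) ≤ Real.log n + -Real.log N := by linarith
      have h6 : (Real.log N)⁻¹ * (1 / ((N : ℝ) + 1)) ≤ v := by
        rw [hv]
        exact mul_le_mul_of_nonneg_left h5 (by positivity)
      have h7 : ((N : ℝ) + 1) * Real.log N ≤ 2 ^ (2 * (m + 1) + 1) := by
        have h8 : Real.log N ≤ N := (Real.log_le_sub_one_of_pos hN0).trans (by linarith)
        have h9 : (2 : ℝ) ^ (2 * (m + 1) + 1) = (2 ^ (m + 1)) ^ 2 * 2 := by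
          rw [pow_succ, pow_mul' 2 2 (m + 1)]
        rw [h9]
        have h10 : (N : ℝ) ^ 2 ≤ (2 ^ (m + 1)) ^ 2 := pow_le_pow_left₀ hN0.le hm2.le 2
        nlinarith
      calc (1 : ℝ) = ((N : ℝ) + 1) * Real.log N * ((Real.log N)⁻¹ * (1 / ((N : ℝ) + 1))) := by
            field_simp
        _ ≤ 2 ^ (2 * (m + 1) + 1) * v := mul_le_mul h7 h6 (by positivity) (by positivity)

/-- bilinear sums with a sharp cutoff -/
theorem bs_typeII : ∃ C : ℝ, 0 < C ∧ ∀ (N R M : ℕ), 3 ≤ N → 1 ≤ M → ∀ (a b : ℕ → ℂ),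
    ∑ q ∈ Icc 1 R, ∑ χ ∈ prim q,
      ‖∑ l ∈ Ioc M (2 * M), ∑ k ∈ Icc 1 (N / l), a l * b k * χ ((l * k : ℕ) : ZMod q)‖ ≤
      C * Real.log N * Real.sqrt (((M : ℝ) + (R : ℝ) ^ 2) * ∑ l ∈ Ioc M (2 * M), ‖a l‖ ^ 2) *
        Real.sqrt (((N : ℝ) / M + (R : ℝ) ^ 2) * ∑ k ∈ Icc 1 (N / M), ‖b k‖ ^ 2) := by
  obtain ⟨gH, hgH, hH⟩ := bs_sep _ bsH_smooth bsH_supp
  obtain ⟨gP, hgP, hP⟩ := bs_sep _ bsP_smooth bsP_supp
  set IH : ℝ := ∫ ξ, ‖gH ξ‖ with hIH
  set IP : ℝ := ∫ ξ, ‖gP ξ‖ with hIP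
  have hIH0 : 0 ≤ IH := integral_nonneg fun ξ => norm_nonneg _
  have hIP0 : 0 ≤ IP := integral_nonneg fun ξ => norm_nonneg _
  refine ⟨16 * (IH + 6 * IP + 1), by positivity, ?_⟩
  intro N R M hN hM a b
  obtain ⟨J, hJ, hcut⟩ := bs_cut N hN
  set X : ℝ := ((M : ℝ) + (R : ℝ) ^ 2) * ∑ l ∈ Ioc M (2 * M), ‖a l‖ ^ 2 with hX
  set K : ℕ := N / M with hK
  set Y' : ℝ := ((K : ℝ) + (R : ℝ) ^ 2) * ∑ k ∈ Icc 1 K, ‖b k‖ ^ 2 with hY'
  set Y : ℝ := ((N : ℝ) / M + (R : ℝ) ^ 2) * ∑ k ∈ Icc 1 K, ‖b k‖ ^ 2 with hY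
  have hYY : Real.sqrt Y' ≤ Real.sqrt Y := by
    apply Real.sqrt_le_sqrt
    refine mul_le_mul_of_nonneg_right ?_ (Finset.sum_nonneg fun k _ => sq_nonneg _)
    have h3 : ((N / M : ℕ) : ℝ) ≤ (N : ℝ) / M := Nat.cast_div_le
    rw [hK]
    linarith
  set u : ℝ := (Real.log N)⁻¹ with hu
  set c : ℝ := -Real.log N with hc
  have hN0 : (0 : ℝ) < N := by positivity
  have hN3 : (3 : ℝ) ≤ N := by exact_mod_cast hN
  have hL1 : 1 ≤ Real.log N := by
    rw [Real.le_log_iff_exp_le hN0]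
    have h1 := Real.exp_one_lt_d9
    linarith
  -- the weights
  have hterm : ∀ (q : ℕ) (χ : DirichletCharacter ℂ q),
      ∑ l ∈ Ioc M (2 * M), ∑ k ∈ Icc 1 (N / l), a l * b k * χ ((l * k : ℕ) : ZMod q) =
      (∑ l ∈ Ioc M (2 * M), ∑ k ∈ Icc 1 K, (a l * b k * χ ((l * k : ℕ) : ZMod q)) *
        ∫ ξ : ℝ, bsE ξ (u * (Real.log ((l * k : ℕ) : ℝ) + c)) * gH ξ) +
      ∑ j ∈ range J, ∑ l ∈ Ioc M (2 * M), ∑ k ∈ Icc 1 K,
        (a l * b k * χ ((l * k : ℕ) : ZMod q)) *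
        ∫ ξ : ℝ, bsE ξ ((2 ^ j * u) * (Real.log ((l * k : ℕ) : ℝ) + c)) * gP ξ := by
    intro q χ
    rw [sum_comm (s := range J), ← sum_add_distrib]
    refine sum_congr rfl fun l hl => ?_
    rw [sum_comm (s := range J), ← sum_add_distrib]
    obtain ⟨hl1, hl2⟩ := mem_Ioc.1 hl
    have hsub : Icc 1 (N / l) ⊆ Icc 1 K := by
      refine Icc_subset_Icc le_rfl ?_
      exact Nat.div_le_div_left hl1.le (by omega)
    have e2 : ∀ k ∈ Icc 1 K, (a l * b k * χ ((l * k : ℕ) : ZMod q)) *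
        (∫ ξ : ℝ, bsE ξ (u * (Real.log ((l * k : ℕ) : ℝ) + c)) * gH ξ) +
        ∑ j ∈ range J, (a l * b k * χ ((l * k : ℕ) : ZMod q)) *
          ∫ ξ : ℝ, bsE ξ ((2 ^ j * u) * (Real.log ((l * k : ℕ) : ℝ) + c)) * gP ξ =
        if k ≤ N / l then a l * b k * χ ((l * k : ℕ) : ZMod q) else 0 := by
      intro k hk
      have hk1 := (mem_Icc.1 hk).1
      have hlk : 1 ≤ l * k := Nat.mul_pos (by omega) (by omega)
      have h1 := hcut (l * k) hlk
      rw [← mul_sum, ← mul_add]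
      have h2 : (∫ ξ : ℝ, bsE ξ (u * (Real.log ((l * k : ℕ) : ℝ) + c)) * gH ξ) +
          ∑ j ∈ range J, (∫ ξ : ℝ, bsE ξ ((2 ^ j * u) * (Real.log ((l * k : ℕ) : ℝ) + c)) * gP ξ) =
          (((if l * k ≤ N then (1 : ℝ) else 0) : ℝ) : ℂ) := by
        rw [h1]
        push_cast
        rw [← hH]
        congr 1
        refine sum_congr rfl fun j _ => ?_
        rw [← hP, mul_assoc]
      rw [h2]
      have h3 : (k ≤ N / l) ↔ (l * k ≤ N) := by
        rw [Nat.le_div_iff_mul_le (by omega), mul_comm]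
      by_cases h4 : l * k ≤ N
      · rw [if_pos h4, if_pos (h3.2 h4)]
        push_cast
        ring
      · rw [if_neg h4, if_neg (fun h => h4 (h3.1 h))]
        push_cast
        ring
    rw [sum_congr rfl e2, ← sum_filter]
    refine sum_congr ?_ fun _ _ => rfl
    ext k
    rw [mem_filter, mem_Icc, mem_Icc]
    constructor
    · intro h
      have := hsub (mem_Icc.2 h)
      exact ⟨mem_Icc.1 this, h.2⟩
    · intro h
      exact ⟨h.1.1, h.2⟩
  have hle : ∑ q ∈ Icc 1 R, ∑ χ ∈ prim q,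
      ‖∑ l ∈ Ioc M (2 * M), ∑ k ∈ Icc 1 (N / l), a l * b k * χ ((l * k : ℕ) : ZMod q)‖ ≤
      ∑ q ∈ Icc 1 R, ∑ χ ∈ prim q, (‖∑ l ∈ Ioc M (2 * M), ∑ k ∈ Icc 1 K,
        (a l * b k * χ ((l * k : ℕ) : ZMod q)) *
        ∫ ξ : ℝ, bsE ξ (u * (Real.log ((l * k : ℕ) : ℝ) + c)) * gH ξ‖ +
      ∑ j ∈ range J, ‖∑ l ∈ Ioc M (2 * M), ∑ k ∈ Icc 1 K,
        (a l * b k * χ ((l * k : ℕ) : ZMod q)) *
        ∫ ξ : ℝ, bsE ξ ((2 ^ j * u) * (Real.log ((l * k : ℕ) : ℝ) + c)) * gP ξ‖) := by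
    refine sum_le_sum fun q _ => sum_le_sum fun χ _ => ?_
    rw [hterm]
    exact (norm_add_le _ _).trans (add_le_add_right (norm_sum_le _ _) _)
  refine hle.trans ?_
  have hsplit : ∑ q ∈ Icc 1 R, ∑ χ ∈ prim q, (‖∑ l ∈ Ioc M (2 * M), ∑ k ∈ Icc 1 K,
        (a l * b k * χ ((l * k : ℕ) : ZMod q)) *
        ∫ ξ : ℝ, bsE ξ (u * (Real.log ((l * k : ℕ) : ℝ) + c)) * gH ξ‖ +
      ∑ j ∈ range J, ‖∑ l ∈ Ioc M (2 * M), ∑ k ∈ Icc 1 K,
        (a l * b k * χ ((l * k : ℕ) : ZMod q)) *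
        ∫ ξ : ℝ, bsE ξ ((2 ^ j * u) * (Real.log ((l * k : ℕ) : ℝ) + c)) * gP ξ‖) =
      (∑ q ∈ Icc 1 R, ∑ χ ∈ prim q, ‖∑ l ∈ Ioc M (2 * M), ∑ k ∈ Icc 1 K,
        (a l * b k * χ ((l * k : ℕ) : ZMod q)) *
        ∫ ξ : ℝ, bsE ξ (u * (Real.log ((l * k : ℕ) : ℝ) + c)) * gH ξ‖) +
      ∑ j ∈ range J, ∑ q ∈ Icc 1 R, ∑ χ ∈ prim q, ‖∑ l ∈ Ioc M (2 * M), ∑ k ∈ Icc 1 K,
        (a l * b k * χ ((l * k : ℕ) : ZMod q)) *
        ∫ ξ : ℝ, bsE ξ ((2 ^ j * u) * (Real.log ((l * k : ℕ) : ℝ) + c)) * gP ξ‖ := by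
    rw [sum_comm (s := range J), ← sum_add_distrib]
    refine sum_congr rfl fun q _ => ?_
    rw [sum_comm (s := range J), ← sum_add_distrib]
  rw [hsplit]
  have hb1 := bs_bil gH hgH u c R M K hM a b
  have hb2 : ∀ j ∈ range J, ∑ q ∈ Icc 1 R, ∑ χ ∈ prim q,
      ‖∑ l ∈ Ioc M (2 * M), ∑ k ∈ Icc 1 K, (a l * b k * χ ((l * k : ℕ) : ZMod q)) *
        ∫ ξ : ℝ, bsE ξ ((2 ^ j * u) * (Real.log ((l * k : ℕ) : ℝ) + c)) * gP ξ‖ ≤
      IP * (16 * (Real.sqrt X * Real.sqrt Y')) := fun j _ =>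
    bs_bil gP hgP (2 ^ j * u) c R M K hM a b
  have hb3 := (sum_le_card_nsmul _ _ _ hb2)
  rw [nsmul_eq_mul, card_range] at hb3
  have hZ0 : 0 ≤ Real.sqrt X * Real.sqrt Y := by positivity
  have hZ : Real.sqrt X * Real.sqrt Y' ≤ Real.sqrt X * Real.sqrt Y :=
    mul_le_mul_of_nonneg_left hYY (Real.sqrt_nonneg _)
  calc _ ≤ IH * (16 * (Real.sqrt X * Real.sqrt Y')) +
        J * (IP * (16 * (Real.sqrt X * Real.sqrt Y'))) := add_le_add hb1 hb3
    _ ≤ IH * (16 * (Real.sqrt X * Real.sqrt Y)) +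
        (6 * Real.log N) * (IP * (16 * (Real.sqrt X * Real.sqrt Y))) := by
        gcongr
    _ ≤ 16 * (IH + 6 * IP + 1) * Real.log N * (Real.sqrt X * Real.sqrt Y) := by
        have h1 : IH * (16 * (Real.sqrt X * Real.sqrt Y)) ≤
            (16 * IH * Real.log N) * (Real.sqrt X * Real.sqrt Y) := by
          have h2 : IH * 16 ≤ 16 * IH * Real.log N := by nlinarith
          calc _ = (IH * 16) * (Real.sqrt X * Real.sqrt Y) := by ring
            _ ≤ _ := mul_le_mul_of_nonneg_right h2 hZ0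
        have h2 : 0 ≤ 16 * Real.log N * (Real.sqrt X * Real.sqrt Y) := by positivity
        calc _ ≤ (16 * IH * Real.log N) * (Real.sqrt X * Real.sqrt Y) +
              (6 * Real.log N) * (IP * (16 * (Real.sqrt X * Real.sqrt Y))) := by linarith
          _ ≤ (16 * IH * Real.log N) * (Real.sqrt X * Real.sqrt Y) +
              (6 * Real.log N) * (IP * (16 * (Real.sqrt X * Real.sqrt Y))) +
              16 * Real.log N * (Real.sqrt X * Real.sqrt Y) := by linarith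
          _ = _ := by ring
    _ = _ := by ring

end Pool.Agent.NRP
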