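import Pool.Agent.NRP.BS1
import Pool.Agent.MT.LargeCond

set_option autoImplicit false

/-!
# NRP, block BVS, part 2: large conductors with a sharp cutoff (helper24)
-/

namespace Pool.Agent.NRP

open Finset
open Pool.Agent.MT

/-- the sharp cutoff: `psiChi bs1 N χ = ∑_{n ≤ N} Λ(n) χ(n)` -/
noncomputable def bs1 : ℝ → ℝ := fun _ => 1

theorem bs1_norm (x : ℝ) : ‖((bs1 x : ℝ) : ℂ)‖ ≤ 1 := by
  unfold bs1
  simp

theorem bs_F {η : ℝ → ℝ} (hη : ∀ x : ℝ, ‖((η x : ℝ) : ℂ)‖ ≤ 1) (N : ℕ) {q : ℕ}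
    (χ : DirichletCharacter ℂ q) (n : ℕ) : ‖lcF η N χ n‖ ≤ 1 := by
  unfold lcF
  rw [norm_mul]
  exact mul_le_one₀ (lc_chi χ _) (norm_nonneg _) (hη _)

theorem bs_abel_id (f : ℕ → ℂ) (g : ℕ → ℝ) (K : ℕ) (hK : 1 ≤ K) :
    ∑ k ∈ Icc 1 K, f k * ((g k : ℝ) : ℂ) = (∑ k ∈ Icc 1 K, f k) * ((g K : ℝ) : ℂ) -
      ∑ k ∈ Ico 1 K, (∑ j ∈ Icc 1 k, f j) * (((g (k + 1) - g k : ℝ)) : ℂ) := by
  induction K, hK using Nat.le_induction with
  | base => simp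
  | succ K hK ih =>
    rw [sum_Icc_succ_top (by omega), sum_Icc_succ_top (by omega), sum_Ico_succ_top hK, ih]
    push_cast
    ring

theorem bs_abel (f : ℕ → ℂ) (g : ℕ → ℝ) (B : ℝ) (hB : ∀ K, ‖∑ k ∈ Icc 1 K, f k‖ ≤ B)
    (K : ℕ) (hK : 1 ≤ K) :
    ‖∑ k ∈ Icc 1 K, f k * ((g k : ℝ) : ℂ)‖ ≤
      B * (|g K| + ∑ k ∈ Ico 1 K, |g (k + 1) - g k|) := by
  rw [bs_abel_id f g K hK]
  have hB0 : 0 ≤ B := (norm_nonneg _).trans (hB 0)
  calc _ ≤ ‖(∑ k ∈ Icc 1 K, f k) * ((g K : ℝ) : ℂ)‖ +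
        ‖∑ k ∈ Ico 1 K, (∑ j ∈ Icc 1 k, f j) * (((g (k + 1) - g k : ℝ)) : ℂ)‖ := norm_sub_le _ _
    _ ≤ B * |g K| + ∑ k ∈ Ico 1 K, B * |g (k + 1) - g k| := by
        apply add_le_add
        · rw [norm_mul, Complex.norm_real, Real.norm_eq_abs]
          exact mul_le_mul_of_nonneg_right (hB K) (abs_nonneg _)
        · refine (norm_sum_le _ _).trans (sum_le_sum fun k _ => ?_)
          rw [norm_mul, Complex.norm_real, Real.norm_eq_abs]
          exact mul_le_mul_of_nonneg_right (hB k) (abs_nonneg _)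
    _ = _ := by rw [mul_add, mul_sum]

theorem bs_typeI : ∃ C : ℝ, 0 < C ∧ ∀ (N : ℕ), 2 ≤ N → ∀ (q : ℕ) [NeZero q]
    (χ : DirichletCharacter ℂ q), χ ≠ 1 → ∀ m : ℕ, 1 ≤ m →
    ‖∑ k ∈ Icc 1 (N / m), χ (k : ZMod q) * ((bs1 (((m * k : ℕ) : ℝ) / N) : ℝ) : ℂ)‖ ≤ C * q ∧
    ‖∑ k ∈ Icc 1 (N / m), ((Real.log k : ℝ) : ℂ) *
      (χ (k : ZMod q) * ((bs1 (((m * k : ℕ) : ℝ) / N) : ℝ) : ℂ))‖ ≤ C * q * Real.log N := by
  refine ⟨2, by norm_num, fun N hN q _ χ hχ m hm => ?_⟩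
  have hq0 : (0 : ℝ) ≤ q := Nat.cast_nonneg q
  have hlogN : 0 ≤ Real.log N := Real.log_natCast_nonneg N
  set K := N / m with hK
  rcases Nat.eq_zero_or_pos K with h0 | hKpos
  · rw [h0]
    simp only [show Icc 1 0 = (∅ : Finset ℕ) from rfl, sum_empty, norm_zero]
    exact ⟨by positivity, by positivity⟩
  have hKN : K ≤ N := Nat.div_le_self N m
  have hS : ∀ J : ℕ, ‖∑ k ∈ Icc 1 J, χ ((k : ℕ) : ZMod q)‖ ≤ (q : ℝ) := by
    intro J
    have := char_sum_le χ hχ 0 J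
    have h2 : Ioc 0 J = Icc 1 J := by
      ext x; simp only [mem_Ioc, mem_Icc]; omega
    rwa [h2] at this
  constructor
  · have h1 : ∑ k ∈ Icc 1 K, χ (k : ZMod q) * ((bs1 (((m * k : ℕ) : ℝ) / N) : ℝ) : ℂ) =
        ∑ k ∈ Icc 1 K, χ (k : ZMod q) := by
      refine sum_congr rfl fun k _ => ?_
      unfold bs1
      rw [Complex.ofReal_one, mul_one]
    rw [h1]
    exact (hS K).trans (by linarith)
  · have h1 : ∑ k ∈ Icc 1 K, ((Real.log k : ℝ) : ℂ) *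
        (χ (k : ZMod q) * ((bs1 (((m * k : ℕ) : ℝ) / N) : ℝ) : ℂ)) =
        ∑ k ∈ Icc 1 K, χ (k : ZMod q) * ((Real.log k : ℝ) : ℂ) := by
      refine sum_congr rfl fun k _ => ?_
      unfold bs1
      rw [Complex.ofReal_one, mul_one, mul_comm]
    rw [h1]
    refine (bs_abel (fun k => χ (k : ZMod q)) (fun k => Real.log k) q hS K hKpos).trans ?_
    have hlogK0 : 0 ≤ Real.log K := Real.log_natCast_nonneg K
    have hlogK : Real.log K ≤ Real.log N :=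
      Real.log_le_log (by exact_mod_cast hKpos) (by exact_mod_cast hKN)
    have htel : ∑ k ∈ Ico 1 K, (Real.log ((k + 1 : ℕ) : ℝ) - Real.log (k : ℝ)) = Real.log K := by
      rw [sum_Ico_sub (fun k : ℕ => Real.log (k : ℝ)) hKpos]
      simp
    have h2 : ∑ k ∈ Ico 1 K, |Real.log ((k + 1 : ℕ) : ℝ) - Real.log (k : ℝ)| = Real.log K := by
      rw [← htel]
      refine sum_congr rfl fun k hk => ?_
      rw [mem_Ico] at hk
      have hk0 : (0 : ℝ) < k := by exact_mod_cast hk.1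
      have hk1 : (k : ℝ) ≤ ((k + 1 : ℕ) : ℝ) := by push_cast; linarith
      exact abs_of_nonneg (by linarith [Real.log_le_log hk0 hk1])
    rw [h2, abs_of_nonneg hlogK0]
    calc (q : ℝ) * (Real.log K + Real.log K) ≤ q * (Real.log N + Real.log N) :=
          mul_le_mul_of_nonneg_left (by linarith) hq0
      _ = _ := by ring

theorem bs_typeII4 : ∃ C : ℝ, 0 < C ∧ ∀ N : ℕ, 3 ≤ N → ∀ (R M : ℕ), 1 ≤ M → ∀ (a b : ℕ → ℂ),
    ∑ q ∈ Icc 1 R, ∑ χ ∈ prim q,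
      ‖∑ l ∈ Ioc M (2 * M), ∑ k ∈ Icc 1 (N / l), a l * b k *
        (χ ((l * k : ℕ) : ZMod q) * ((bs1 (((l * k : ℕ) : ℝ) / N) : ℝ) : ℂ))‖ ≤
      C * Real.log N * Real.sqrt (((M : ℝ) + (R : ℝ) ^ 4) * ∑ l ∈ Ioc M (2 * M), ‖a l‖ ^ 2) *
        Real.sqrt (((N : ℝ) / M + (R : ℝ) ^ 4) * ∑ k ∈ Icc 1 (N / M), ‖b k‖ ^ 2) := by
  obtain ⟨C, hC, h⟩ := bs_typeII
  refine ⟨C, hC, fun N hN R M hM a b => ?_⟩
  have hR : (R : ℝ) ^ 2 ≤ (R : ℝ) ^ 4 := by
    rcases Nat.eq_zero_or_pos R with h0 | h0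
    · rw [h0]; norm_num
    · exact pow_le_pow_right₀ (by exact_mod_cast h0) (by norm_num)
  have hlog : 0 ≤ Real.log N := Real.log_natCast_nonneg N
  refine le_trans (le_of_eq ?_) ((h N R M hN hM a b).trans ?_)
  · refine sum_congr rfl fun q _ => sum_congr rfl fun χ _ => ?_
    congr 1
    refine sum_congr rfl fun l _ => sum_congr rfl fun k _ => ?_
    unfold bs1
    rw [Complex.ofReal_one, mul_one]
  · have h1 : Real.sqrt (((M : ℝ) + (R : ℝ) ^ 2) * ∑ l ∈ Ioc M (2 * M), ‖a l‖ ^ 2) ≤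
        Real.sqrt (((M : ℝ) + (R : ℝ) ^ 4) * ∑ l ∈ Ioc M (2 * M), ‖a l‖ ^ 2) :=
      Real.sqrt_le_sqrt (mul_le_mul_of_nonneg_right (by linarith) (by positivity))
    have h2 : Real.sqrt (((N : ℝ) / M + (R : ℝ) ^ 2) * ∑ k ∈ Icc 1 (N / M), ‖b k‖ ^ 2) ≤
        Real.sqrt (((N : ℝ) / M + (R : ℝ) ^ 4) * ∑ k ∈ Icc 1 (N / M), ‖b k‖ ^ 2) :=
      Real.sqrt_le_sqrt (mul_le_mul_of_nonneg_right (by linarith) (by positivity))
    gcongr

theorem bs_single {η : ℝ → ℝ} (hη : ∀ x : ℝ, ‖((η x : ℝ) : ℂ)‖ ≤ 1) {C : ℝ} (hC : 0 < C)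
    (hI : ∀ (N : ℕ), 2 ≤ N → ∀ (q : ℕ) [NeZero q]
      (χ : DirichletCharacter ℂ q), χ ≠ 1 → ∀ m : ℕ, 1 ≤ m →
      ‖∑ k ∈ Icc 1 (N / m), χ (k : ZMod q) * ((η (((m * k : ℕ) : ℝ) / N) : ℝ) : ℂ)‖ ≤ C * q ∧
      ‖∑ k ∈ Icc 1 (N / m), ((Real.log k : ℝ) : ℂ) *
        (χ (k : ZMod q) * ((η (((m * k : ℕ) : ℝ) / N) : ℝ) : ℂ))‖ ≤ C * q * Real.log N)
    {N U J q : ℕ} [NeZero q] (hN : 3 ≤ N) (hU : 1 ≤ U) (hUN : U ≤ N) (hJ : N ≤ U * 2 ^ J)
    (χ : DirichletCharacter ℂ q) (hχ : χ ≠ 1) :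
    ‖psiChi η N χ‖ ≤ U * Real.log N + U * (C * q * Real.log N) + U * (U * (Real.log N * (C * q))) +
      ∑ i ∈ range J, ‖lcB η N U (U * 2 ^ i) χ‖ := by
  have hL : 0 ≤ Real.log N := Real.log_natCast_nonneg N
  have hqR : (0 : ℝ) ≤ q := Nat.cast_nonneg q
  rw [lc_psi, vaughan U U N]
  have t0 : ‖∑ n ∈ (Icc 1 N).filter (fun n => n ≤ U),
      ((ArithmeticFunction.vonMangoldt n : ℝ) : ℂ) * lcF η N χ n‖ ≤ U * Real.log N := by
    refine (norm_sum_le _ _).trans ?_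
    have h1 : ∀ n ∈ (Icc 1 N).filter (fun n => n ≤ U),
        ‖((ArithmeticFunction.vonMangoldt n : ℝ) : ℂ) * lcF η N χ n‖ ≤ Real.log N := by
      intro n hn
      rw [mem_filter, mem_Icc] at hn
      rw [norm_mul]
      calc _ ≤ Real.log N * 1 := mul_le_mul (lc_Lam hn.1.1 hn.1.2) (bs_F hη N χ n)
            (norm_nonneg _) hL
        _ = Real.log N := mul_one _
    refine (sum_le_card_nsmul _ _ _ h1).trans ?_
    rw [nsmul_eq_mul]
    refine mul_le_mul_of_nonneg_right ?_ hL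
    have h2 : ((Icc 1 N).filter (fun n => n ≤ U)).card ≤ (Icc 1 U).card := by
      refine card_le_card fun n hn => ?_
      rw [mem_filter, mem_Icc] at hn
      rw [mem_Icc]
      omega
    rw [Nat.card_Icc] at h2
    exact_mod_cast h2.trans (by omega)
  have t1 : ‖∑ m ∈ Icc 1 U, (ArithmeticFunction.moebius m : ℂ) *
      ∑ k ∈ Icc 1 (N / m), ((Real.log k : ℝ) : ℂ) * lcF η N χ (m * k)‖ ≤
      U * (C * q * Real.log N) := by
    refine (norm_sum_le _ _).trans ?_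
    have h1 : ∀ m ∈ Icc 1 U, ‖(ArithmeticFunction.moebius m : ℂ) *
        ∑ k ∈ Icc 1 (N / m), ((Real.log k : ℝ) : ℂ) * lcF η N χ (m * k)‖ ≤ C * q * Real.log N := by
      intro m hm
      rw [mem_Icc] at hm
      have e1 : ∑ k ∈ Icc 1 (N / m), ((Real.log k : ℝ) : ℂ) * lcF η N χ (m * k) =
          χ (m : ZMod q) * ∑ k ∈ Icc 1 (N / m), ((Real.log k : ℝ) : ℂ) *
            (χ (k : ZMod q) * ((η (((m * k : ℕ) : ℝ) / N) : ℝ) : ℂ)) := by
        rw [mul_sum]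
        refine sum_congr rfl fun k _ => ?_
        unfold lcF
        rw [Nat.cast_mul (α := ZMod q) m k, map_mul]
        ring
      rw [e1, norm_mul, norm_mul]
      have h2 := (hI N (by omega) q χ hχ m hm.1).2
      calc _ ≤ 1 * (1 * (C * q * Real.log N)) := by
            refine mul_le_mul (lc_mu m) ?_ (by positivity) (by norm_num)
            exact mul_le_mul (lc_chi χ _) h2 (norm_nonneg _) (by norm_num)
        _ = C * q * Real.log N := by ring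
    refine (sum_le_card_nsmul _ _ _ h1).trans ?_
    rw [nsmul_eq_mul, Nat.card_Icc, Nat.add_sub_cancel]
  have t2 : ‖∑ m ∈ Icc 1 U, ∑ l ∈ Icc 1 U, (ArithmeticFunction.moebius m : ℂ) *
      ((ArithmeticFunction.vonMangoldt l : ℝ) : ℂ) *
      ∑ k ∈ Icc 1 (N / (m * l)), lcF η N χ (m * l * k)‖ ≤ U * (U * (Real.log N * (C * q))) := by
    refine (norm_sum_le _ _).trans ?_
    have h1 : ∀ m ∈ Icc 1 U, ‖∑ l ∈ Icc 1 U, (ArithmeticFunction.moebius m : ℂ) *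
        ((ArithmeticFunction.vonMangoldt l : ℝ) : ℂ) *
        ∑ k ∈ Icc 1 (N / (m * l)), lcF η N χ (m * l * k)‖ ≤ U * (Real.log N * (C * q)) := by
      intro m hm
      rw [mem_Icc] at hm
      refine (norm_sum_le _ _).trans ?_
      have h2 : ∀ l ∈ Icc 1 U, ‖(ArithmeticFunction.moebius m : ℂ) *
          ((ArithmeticFunction.vonMangoldt l : ℝ) : ℂ) *
          ∑ k ∈ Icc 1 (N / (m * l)), lcF η N χ (m * l * k)‖ ≤ Real.log N * (C * q) := by
        intro l hl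
        rw [mem_Icc] at hl
        have e1 : ∑ k ∈ Icc 1 (N / (m * l)), lcF η N χ (m * l * k) =
            χ ((m * l : ℕ) : ZMod q) * ∑ k ∈ Icc 1 (N / (m * l)),
              (χ (k : ZMod q) * ((η (((m * l * k : ℕ) : ℝ) / N) : ℝ) : ℂ)) := by
          rw [mul_sum]
          refine sum_congr rfl fun k _ => ?_
          unfold lcF
          rw [Nat.cast_mul (α := ZMod q) (m * l) k, map_mul]
          ring
        have h3 := (hI N (by omega) q χ hχ (m * l) (Nat.mul_pos hm.1 hl.1)).1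
        rw [e1, norm_mul, norm_mul, norm_mul]
        calc _ ≤ 1 * Real.log N * (1 * (C * q)) := by
              refine mul_le_mul ?_ ?_ (by positivity) (by positivity)
              · exact mul_le_mul (lc_mu m) (lc_Lam hl.1 (hl.2.trans hUN)) (norm_nonneg _)
                  (by norm_num)
              · exact mul_le_mul (lc_chi χ _) h3 (norm_nonneg _) (by norm_num)
          _ = Real.log N * (C * q) := by ring
      refine (sum_le_card_nsmul _ _ _ h2).trans ?_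
      rw [nsmul_eq_mul, Nat.card_Icc, Nat.add_sub_cancel]
    refine (sum_le_card_nsmul _ _ _ h1).trans ?_
    rw [nsmul_eq_mul, Nat.card_Icc, Nat.add_sub_cancel]
  have t3 : ‖∑ l ∈ Ioc U N, ∑ k ∈ Icc 1 (N / l), ((ArithmeticFunction.vonMangoldt l : ℝ) : ℂ) *
      (cU U k : ℂ) * lcF η N χ (l * k)‖ ≤ ∑ i ∈ range J, ‖lcB η N U (U * 2 ^ i) χ‖ := by
    have hsub : Ioc U N ⊆ Ioc U (U * 2 ^ J) := Ioc_subset_Ioc_right hJ
    rw [sum_subset hsub, lc_dyadic]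
    · exact norm_sum_le _ _
    · intro l hl hl'
      rw [mem_Ioc] at hl hl'
      have h0 : N / l = 0 := Nat.div_eq_of_lt (by omega)
      rw [h0]
      simp
  calc _ ≤ ‖∑ n ∈ (Icc 1 N).filter (fun n => n ≤ U),
      ((ArithmeticFunction.vonMangoldt n : ℝ) : ℂ) * lcF η N χ n‖ +
      ‖∑ m ∈ Icc 1 U, (ArithmeticFunction.moebius m : ℂ) *
        ∑ k ∈ Icc 1 (N / m), ((Real.log k : ℝ) : ℂ) * lcF η N χ (m * k)‖ +
      ‖∑ m ∈ Icc 1 U, ∑ l ∈ Icc 1 U, (ArithmeticFunction.moebius m : ℂ) *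
        ((ArithmeticFunction.vonMangoldt l : ℝ) : ℂ) *
        ∑ k ∈ Icc 1 (N / (m * l)), lcF η N χ (m * l * k)‖ +
      ‖∑ l ∈ Ioc U N, ∑ k ∈ Icc 1 (N / l), ((ArithmeticFunction.vonMangoldt l : ℝ) : ℂ) *
        (cU U k : ℂ) * lcF η N χ (l * k)‖ := by
        refine (norm_add_le _ _).trans (add_le_add_left ?_ _)
        refine (norm_sub_le _ _).trans (add_le_add_left ?_ _)
        exact norm_add_le _ _
    _ ≤ _ := by
        refine add_le_add (add_le_add (add_le_add t0 t1) t2) t3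

theorem bs_block {η : ℝ → ℝ} {C : ℝ} (hC : 0 < C) {N U M R : ℕ}
    (hII : ∀ (R M : ℕ), 1 ≤ M →
      ∀ (a b : ℕ → ℂ),
      ∑ q ∈ Icc 1 R, ∑ χ ∈ prim q,
        ‖∑ l ∈ Ioc M (2 * M), ∑ k ∈ Icc 1 (N / l), a l * b k *
          (χ ((l * k : ℕ) : ZMod q) * ((η (((l * k : ℕ) : ℝ) / N) : ℝ) : ℂ))‖ ≤
        C * Real.sqrt (((M : ℝ) + (R : ℝ) ^ 4) * ∑ l ∈ Ioc M (2 * M), ‖a l‖ ^ 2) *
          Real.sqrt (((N : ℝ) / M + (R : ℝ) ^ 4) * ∑ k ∈ Icc 1 (N / M), ‖b k‖ ^ 2))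
    (hN : 3 ≤ N) (hU : 1 ≤ U) (hRU : R ^ 4 ≤ U) (hUM : U ≤ M)
    (hL : 1 ≤ Real.log N) :
    ∑ q ∈ Icc 1 (2 * R), ∑ χ ∈ prim q, ‖lcB η N U M χ‖ ≤ 108 * C * N * Real.log N ^ 3 := by
  have hM : 1 ≤ M := hU.trans hUM
  have hMR : (0 : ℝ) < M := by exact_mod_cast hM
  have hNR : (0 : ℝ) < N := by exact_mod_cast (by omega : 0 < N)
  set L := Real.log N with hLdef
  rcases Nat.lt_or_ge U (N / M) with hlt | hge
  · have hNM : 1 ≤ N / M := by omega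
    have hMN : M ≤ N := by
      by_contra h
      have : N / M = 0 := Nat.div_eq_of_lt (by omega)
      omega
    have hdiv : ((N / M : ℕ) : ℝ) ≤ (N : ℝ) / M := Nat.cast_div_le
    have hRU' : ((R : ℝ)) ^ 4 ≤ U := by exact_mod_cast hRU
    have hUM' : (U : ℝ) ≤ M := by exact_mod_cast hUM
    have hUN' : (U : ℝ) ≤ (N : ℝ) / M := by
      have : (U : ℝ) ≤ ((N / M : ℕ) : ℝ) := by exact_mod_cast hlt.le
      linarith
    have h1 := hII (2 * R) M hM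
      (fun l => ((ArithmeticFunction.vonMangoldt l : ℝ) : ℂ)) (fun k => (cU U k : ℂ))
    refine le_trans (le_of_eq ?_) (h1.trans ?_)
    · rfl
    have ha : ∑ l ∈ Ioc M (2 * M), ‖((ArithmeticFunction.vonMangoldt l : ℝ) : ℂ)‖ ^ 2 ≤
        M * (2 * L) ^ 2 := by
      have h2 : ∀ l ∈ Ioc M (2 * M), ‖((ArithmeticFunction.vonMangoldt l : ℝ) : ℂ)‖ ^ 2 ≤
          (2 * L) ^ 2 := by
        intro l hl
        rw [mem_Ioc] at hl
        refine pow_le_pow_left₀ (norm_nonneg _) ?_ 2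
        have h3 := lc_Lam (n := l) (N := N ^ 2) (by omega) (by nlinarith)
        rwa [Nat.cast_pow, Real.log_pow, Nat.cast_ofNat] at h3
      refine (sum_le_card_nsmul _ _ _ h2).trans ?_
      rw [nsmul_eq_mul, Nat.card_Ioc]
      have : 2 * M - M = M := by omega
      rw [this]
    have hb : ∑ k ∈ Icc 1 (N / M), ‖(cU U k : ℂ)‖ ^ 2 ≤ (N : ℝ) / M * (2 * L) ^ 3 := by
      have h2 : ∑ k ∈ Icc 1 (N / M), ‖(cU U k : ℂ)‖ ^ 2 ≤
          ∑ k ∈ Icc 1 (N / M), (k.divisors.card : ℝ) ^ 2 := by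
        refine sum_le_sum fun k _ => ?_
        refine pow_le_pow_left₀ (norm_nonneg _) ?_ 2
        rw [Complex.norm_intCast]
        have := cU_abs_le U k
        exact_mod_cast this
      refine h2.trans ((sum_divisors_sq (N / M) hNM).trans ?_)
      have h3 : Real.log ((N / M : ℕ) : ℝ) ≤ L :=
        Real.log_le_log (by exact_mod_cast hNM) (by exact_mod_cast Nat.div_le_self N M)
      have h4 : 0 ≤ Real.log ((N / M : ℕ) : ℝ) := Real.log_natCast_nonneg _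
      have h5 : (1 + Real.log ((N / M : ℕ) : ℝ)) ^ 3 ≤ (2 * L) ^ 3 :=
        pow_le_pow_left₀ (by linarith) (by linarith) 3
      exact mul_le_mul hdiv h5 (by positivity) (by positivity)
    have hR4 : ((2 * R : ℕ) : ℝ) ^ 4 = 16 * (R : ℝ) ^ 4 := by
      push_cast
      ring
    have hX : Real.sqrt (((M : ℝ) + ((2 * R : ℕ) : ℝ) ^ 4) *
        ∑ l ∈ Ioc M (2 * M), ‖((ArithmeticFunction.vonMangoldt l : ℝ) : ℂ)‖ ^ 2) ≤ 9 * M * L := by
      refine Real.sqrt_le_iff.2 ⟨by positivity, ?_⟩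
      calc _ ≤ (17 * (M : ℝ)) * (M * (2 * L) ^ 2) := by
            refine mul_le_mul ?_ ha (sum_nonneg fun _ _ => by positivity) (by positivity)
            rw [hR4]
            linarith
        _ ≤ (9 * M * L) ^ 2 := by
            have : (0 : ℝ) ≤ (M * L) ^ 2 := by positivity
            nlinarith
    have hY : Real.sqrt (((N : ℝ) / M + ((2 * R : ℕ) : ℝ) ^ 4) *
        ∑ k ∈ Icc 1 (N / M), ‖(cU U k : ℂ)‖ ^ 2) ≤ 12 * (N / M) * L ^ 2 := by
      have hNM0 : (0 : ℝ) < (N : ℝ) / M := by positivity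
      refine Real.sqrt_le_iff.2 ⟨by positivity, ?_⟩
      calc _ ≤ (17 * ((N : ℝ) / M)) * ((N : ℝ) / M * (2 * L) ^ 3) := by
            refine mul_le_mul ?_ hb (sum_nonneg fun _ _ => by positivity) (by positivity)
            rw [hR4]
            linarith
        _ = 136 * ((N : ℝ) / M) ^ 2 * L ^ 3 := by ring
        _ ≤ 144 * ((N : ℝ) / M) ^ 2 * L ^ 4 := by
            refine mul_le_mul ?_ (pow_le_pow_right₀ hL (by norm_num)) (by positivity)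
              (by positivity)
            have : (0 : ℝ) ≤ ((N : ℝ) / M) ^ 2 := by positivity
            linarith
        _ = (12 * (N / M) * L ^ 2) ^ 2 := by ring
    calc _ ≤ C * (9 * M * L) * (12 * (N / M) * L ^ 2) := by
          refine mul_le_mul (mul_le_mul_of_nonneg_left hX hC.le) hY (Real.sqrt_nonneg _)
            (by positivity)
      _ = 108 * C * N * L ^ 3 := by
          field_simp
          ring
  · have hz : ∀ (q : ℕ) (χ : DirichletCharacter ℂ q), lcB η N U M χ = 0 := by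
      intro q χ
      unfold lcB
      refine sum_eq_zero fun l hl => sum_eq_zero fun k hk => ?_
      rw [mem_Ioc] at hl
      rw [mem_Icc] at hk
      have h1 : N / l ≤ N / M := Nat.div_le_div_left hl.1.le (by omega)
      rw [cU_eq_zero U k (by omega)]
      simp
    refine le_trans (le_of_eq ?_) (by positivity : (0 : ℝ) ≤ 108 * C * N * L ^ 3)
    refine sum_eq_zero fun q _ => sum_eq_zero fun χ _ => ?_
    rw [hz, norm_zero]

theorem bs_large : ∃ C : ℕ, ∀ N R : ℕ, 3 ≤ N → 1 ≤ R → R ^ 12 ≤ N →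
    ∑ q ∈ Ioc R (2 * R), ∑ χ ∈ prim q, ‖psiChi bs1 N χ‖ ≤ C * N * Real.log N ^ C := by
  obtain ⟨C1, hC1, hI⟩ := bs_typeI
  obtain ⟨C2, hC2, hII⟩ := bs_typeII4
  obtain ⟨C, hC⟩ := exists_nat_ge (4 + 16 * C1 + 324 * C2)
  refine ⟨C + 5, fun N R hN hR hRN => ?_⟩
  have hL : 1 ≤ Real.log N := by
    rw [Real.le_log_iff_exp_le (by exact_mod_cast (by omega : 0 < N))]
    have h1 := Real.exp_one_lt_d9
    have h2 : (3 : ℝ) ≤ N := by exact_mod_cast hN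
    linarith
  obtain ⟨U, hU, hU3, hU3'⟩ := lc_cube N (by omega)
  have hRU : R ^ 4 ≤ U := by
    have h1 : (R ^ 4) ^ 3 < (U + 1) ^ 3 := by
      calc (R ^ 4) ^ 3 = R ^ 12 := by ring
        _ ≤ N := hRN
        _ < (U + 1) ^ 3 := hU3'
    have := lt_of_pow_lt_pow_left₀ 3 (Nat.zero_le _) h1
    omega
  have hUN : U ≤ N := (Nat.le_self_pow (by norm_num) U).trans hU3
  obtain ⟨J, hJ, hJL⟩ := lc_J N hN hL
  have hJ' : N ≤ U * 2 ^ J := hJ.trans (Nat.le_mul_of_pos_left _ hU)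
  set L := Real.log N with hLdef
  have hL0 : 0 ≤ L := by linarith
  have hsubset : Ioc R (2 * R) ⊆ Icc 1 (2 * R) := fun q hq => by
    rw [mem_Ioc] at hq
    rw [mem_Icc]
    omega
  set K : ℝ := U * L + U * (C1 * (2 * R) * L) + U * (U * (L * (C1 * (2 * R)))) with hK
  have hK0 : 0 ≤ K := by positivity
  have step1 : ∑ q ∈ Ioc R (2 * R), ∑ χ ∈ prim q, ‖psiChi bs1 N χ‖ ≤
      ∑ q ∈ Ioc R (2 * R), ∑ χ ∈ prim q, (K + ∑ i ∈ range J, ‖lcB bs1 N U (U * 2 ^ i) χ‖) := by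
    refine sum_le_sum fun q hq => sum_le_sum fun χ hχ => ?_
    rw [mem_Ioc] at hq
    have : NeZero q := ⟨by omega⟩
    have hq2 : (q : ℝ) ≤ 2 * R := by exact_mod_cast hq.2
    refine (bs_single bs1_norm hC1 hI hN hU hUN hJ' χ ((mem_prim χ).1 hχ).2).trans ?_
    refine add_le_add_left ?_ _
    rw [hK]
    gcongr
  have step2 : ∑ q ∈ Ioc R (2 * R), ∑ χ ∈ prim q,
      (K + ∑ i ∈ range J, ‖lcB bs1 N U (U * 2 ^ i) χ‖) ≤
      ∑ q ∈ Icc 1 (2 * R), ∑ χ ∈ prim q, (K + ∑ i ∈ range J, ‖lcB bs1 N U (U * 2 ^ i) χ‖) :=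
    sum_le_sum_of_subset_of_nonneg hsubset fun q _ _ => sum_nonneg fun χ _ => by positivity
  have step3 : ∑ q ∈ Icc 1 (2 * R), ∑ χ ∈ prim q,
      (K + ∑ i ∈ range J, ‖lcB bs1 N U (U * 2 ^ i) χ‖) =
      (∑ q ∈ Icc 1 (2 * R), ((prim q).card : ℝ)) * K +
        ∑ i ∈ range J, ∑ q ∈ Icc 1 (2 * R), ∑ χ ∈ prim q, ‖lcB bs1 N U (U * 2 ^ i) χ‖ := by
    rw [sum_comm (s := range J), sum_mul, ← sum_add_distrib]
    refine sum_congr rfl fun q _ => ?_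
    rw [sum_add_distrib, sum_const, nsmul_eq_mul, sum_comm]
  have step4 : (∑ q ∈ Icc 1 (2 * R), ((prim q).card : ℝ)) * K ≤ (4 * (R : ℝ) ^ 2) * K := by
    refine mul_le_mul_of_nonneg_right ?_ hK0
    have h1 := card_prim_le (2 * R)
    have h2 : (((∑ q ∈ Icc 1 (2 * R), (prim q).card) : ℕ) : ℝ) ≤ (((2 * R) ^ 2 : ℕ) : ℝ) := by
      exact_mod_cast h1
    push_cast at h2
    linarith
  have step5 : ∑ i ∈ range J, ∑ q ∈ Icc 1 (2 * R), ∑ χ ∈ prim q, ‖lcB bs1 N U (U * 2 ^ i) χ‖ ≤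
      (3 * L) * (108 * (C2 * L) * N * L ^ 3) := by
    have h1 : ∀ i ∈ range J, ∑ q ∈ Icc 1 (2 * R), ∑ χ ∈ prim q, ‖lcB bs1 N U (U * 2 ^ i) χ‖ ≤
        108 * (C2 * L) * N * L ^ 3 := fun i _ =>
      bs_block (by positivity) (hII N hN) hN hU hRU (Nat.le_mul_of_pos_right _ (by positivity)) hL
    refine (sum_le_card_nsmul _ _ _ h1).trans ?_
    rw [nsmul_eq_mul, card_range]
    exact mul_le_mul_of_nonneg_right hJL (by positivity)
  have hRU' : (R : ℝ) ^ 4 ≤ U := by exact_mod_cast hRU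
  have hU3r : (U : ℝ) ^ 3 ≤ N := by exact_mod_cast hU3
  have hR1 : (1 : ℝ) ≤ R := by exact_mod_cast hR
  have hU1 : (1 : ℝ) ≤ U := by exact_mod_cast hU
  have hR2 : (R : ℝ) ^ 2 ≤ U := (pow_le_pow_right₀ hR1 (by norm_num)).trans hRU'
  have hR3 : (R : ℝ) ^ 3 ≤ U := (pow_le_pow_right₀ hR1 (by norm_num)).trans hRU'
  have hU2N : (U : ℝ) ^ 2 ≤ N := (pow_le_pow_right₀ hU1 (by norm_num)).trans hU3r
  have step6 : (4 * (R : ℝ) ^ 2) * K ≤ (4 + 16 * C1) * N * L := by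
    have e : (4 * (R : ℝ) ^ 2) * K =
        4 * ((R : ℝ) ^ 2 * U) * L + 8 * C1 * ((R : ℝ) ^ 3 * U) * L +
          8 * C1 * ((R : ℝ) ^ 3 * U ^ 2) * L := by
      rw [hK]
      ring
    rw [e]
    have h1 : (R : ℝ) ^ 2 * U ≤ N := by nlinarith
    have h2 : (R : ℝ) ^ 3 * U ≤ N := by nlinarith
    have h3 : (R : ℝ) ^ 3 * U ^ 2 ≤ N := by
      calc (R : ℝ) ^ 3 * U ^ 2 ≤ U * U ^ 2 := mul_le_mul_of_nonneg_right hR3 (by positivity)
        _ = U ^ 3 := by ring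
        _ ≤ N := hU3r
    calc _ ≤ 4 * (N : ℝ) * L + 8 * C1 * N * L + 8 * C1 * N * L := by
          gcongr
      _ = (4 + 16 * C1) * N * L := by ring
  have hN0 : (0 : ℝ) ≤ N := Nat.cast_nonneg N
  calc ∑ q ∈ Ioc R (2 * R), ∑ χ ∈ prim q, ‖psiChi bs1 N χ‖ ≤
      (4 + 16 * C1) * N * L + (3 * L) * (108 * (C2 * L) * N * L ^ 3) := by
        refine step1.trans (step2.trans ?_)
        rw [step3]
        exact add_le_add (step4.trans step6) step5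
    _ ≤ (4 + 16 * C1) * N * L ^ 5 + 324 * C2 * N * L ^ 5 := by
        have h1 : L ≤ L ^ 5 := by
          calc L = L ^ 1 := (pow_one L).symm
            _ ≤ L ^ 5 := pow_le_pow_right₀ hL (by norm_num)
        have h2 : (4 + 16 * C1) * N * L ≤ (4 + 16 * C1) * N * L ^ 5 := by gcongr
        have h3 : (3 * L) * (108 * (C2 * L) * N * L ^ 3) = 324 * C2 * N * L ^ 5 := by ring
        linarith
    _ = (4 + 16 * C1 + 324 * C2) * N * L ^ 5 := by ring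
    _ ≤ ((C + 5 : ℕ) : ℝ) * N * L ^ (C + 5) := by
        have h1 : 4 + 16 * C1 + 324 * C2 ≤ ((C + 5 : ℕ) : ℝ) := by
          push_cast
          linarith
        have h2 : L ^ 5 ≤ L ^ (C + 5) := pow_le_pow_right₀ hL (by omega)
        gcongr

end Pool.Agent.NRP
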