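import Pool.Agent.NRP.StN
import Pool.Agent.GBQ.RhoLow

/-!
# NRP, module `Bb`: the pattern `n, n + h², n + h² + h` by reflection
-/

set_option autoImplicit false

namespace Pool.Agent.NRP

open Finset Filter
open Pool.Agent.GBQ (ee nd gm lam LamS zz rho pr lam_nonneg lam_le_log lam_zero LamS_nonneg rho_pos
  St_RhoLow thm_RhoLow mem_pr)

private theorem Bb_zz (B X : ℕ) (hX : 1 ≤ X) : (zz B X : ℝ) ≤ Real.log X ^ B := by
  unfold zz
  exact Nat.floor_le (pow_nonneg (Real.log_nonneg (by exact_mod_cast hX)) _)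

/-- the factor `1 / rho z` -/
private theorem Bb_rho (B : ℕ) :
    ∀ᶠ X : ℕ in atTop, (rho (zz B X))⁻¹ ≤ Real.log X := by
  obtain ⟨c, hc, h7⟩ := thm_RhoLow
  have hlog : Tendsto (fun X : ℕ => Real.log X) atTop atTop :=
    Real.tendsto_log_atTop.comp tendsto_natCast_atTop_atTop
  have h8 : ∀ᶠ y : ℝ in atTop, Real.log y ≤ (c / (B + 1)) * y := by
    have h9 := Real.isLittleO_log_id_atTop.def (c := c / (B + 1)) (by positivity)
    filter_upwards [h9, eventually_ge_atTop (1 : ℝ)] with y hy hy1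
    rw [Real.norm_eq_abs, Real.norm_eq_abs, id, abs_of_nonneg (Real.log_nonneg hy1),
      abs_of_nonneg (by linarith)] at hy
    exact hy
  filter_upwards [hlog.eventually h8, hlog.eventually (eventually_ge_atTop (1 : ℝ)),
    eventually_ge_atTop 3] with X hX1 hX2 hX3
  obtain ⟨z, hz⟩ : ∃ z, z = zz B X := ⟨_, rfl⟩
  rw [← hz]
  rcases Nat.lt_or_ge z 2 with hz2 | hz2
  · have : pr z = ∅ := by
      rw [eq_empty_iff_forall_notMem]
      intro p hp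
      rw [mem_pr] at hp
      have := hp.2.two_le
      omega
    have : rho z = 1 := by
      unfold rho
      rw [this, prod_empty]
    rw [this, inv_one]
    exact hX2
  · have h9 := h7 z hz2
    have hz0 : (0 : ℝ) < z := by positivity
    have hz1 : 0 < Real.log z := Real.log_pos (by exact_mod_cast hz2)
    have h10 : Real.log z ≤ B * Real.log (Real.log X) := by
      rw [← Real.log_pow]
      refine Real.log_le_log hz0 ?_
      rw [hz]
      exact Bb_zz B X (by omega)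
    have h11 : Real.log z ≤ c * Real.log X := by
      have hB0 : (0 : ℝ) ≤ B := Nat.cast_nonneg B
      have h12 : B * Real.log (Real.log X) ≤ B * ((c / (B + 1)) * Real.log X) :=
        mul_le_mul_of_nonneg_left hX1 hB0
      have h13 : B * ((c / (B + 1)) * Real.log X) ≤ c * Real.log X := by
        have h14 : (B : ℝ) / (B + 1) ≤ 1 := by
          rw [div_le_one (by positivity)]
          linarith
        calc (B : ℝ) * ((c / (B + 1)) * Real.log X) = (B / (B + 1)) * (c * Real.log X) := by ring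
          _ ≤ 1 * (c * Real.log X) := mul_le_mul_of_nonneg_right h14 (by positivity)
          _ = _ := one_mul _
      linarith
    rw [inv_le_iff_one_le_mul₀ (rho_pos z)]
    have h12 : Real.log X * (c / Real.log z) ≤ Real.log X * rho z :=
      mul_le_mul_of_nonneg_left h9 (by linarith)
    refine le_trans ?_ h12
    rw [← mul_div_assoc, one_le_div hz1]
    linarith

/-- sums over integers and natural numbers -/
private theorem Bb_cast {M : Type} [AddCommMonoid M] (N : ℕ) (F : ℤ → M) :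
    ∑ k ∈ Icc (1 : ℤ) N, F k = ∑ n ∈ Icc 1 N, F (n : ℤ) := by
  refine Finset.sum_nbij' (fun k => k.toNat) (fun n => (n : ℤ)) ?_ ?_ ?_ ?_ ?_
  · intro k hk
    rw [Finset.mem_Icc] at hk ⊢
    omega
  · intro n hn
    rw [Finset.mem_Icc] at hn ⊢
    omega
  · intro k hk
    rw [Finset.mem_Icc] at hk
    exact Int.toNat_of_nonneg (by omega)
  · intro n _
    exact Int.toNat_natCast n
  · intro k hk
    rw [Finset.mem_Icc] at hk
    rw [Int.toNat_of_nonneg (by omega)]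

/-- the inner sum, reflected -/
private theorem Bb_refl (X h : ℕ) (a0 a1 a2 : ℤ → ℝ)
    (h2 : ∀ k : ℤ, ¬ (1 ≤ k ∧ k ≤ X) → a2 k = 0) :
    ∑' m : ℤ, ((a0 (-m) : ℝ) : ℂ) * ((a1 (-(m + h)) : ℝ) : ℂ) * ((a2 (-(m + pp 1 h)) : ℝ) : ℂ) =
      ((∑ n ∈ Icc 1 X, a0 ((n : ℤ) + h ^ 2 + h) * a1 ((n : ℤ) + h ^ 2) * a2 n : ℝ) : ℂ) := by
  have e : ∑' m : ℤ, ((a0 (-m) : ℝ) : ℂ) * ((a1 (-(m + h)) : ℝ) : ℂ) *
      ((a2 (-(m + pp 1 h)) : ℝ) : ℂ) = ∑' k : ℤ, ((a0 (k + h ^ 2 + h) : ℝ) : ℂ) *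
      ((a1 (k + h ^ 2) : ℝ) : ℂ) * ((a2 k : ℝ) : ℂ) := by
    rw [← Equiv.tsum_eq ((Equiv.neg ℤ).trans (Equiv.subRight (pp 1 (h : ℤ))))]
    refine tsum_congr fun k => ?_
    have e1 : -(((Equiv.neg ℤ).trans (Equiv.subRight (pp 1 (h : ℤ)))) k) = k + h ^ 2 + h := by
      simp only [Equiv.trans_apply, Equiv.neg_apply, Equiv.subRight_apply, pp]
      ring
    have e2 : -(((Equiv.neg ℤ).trans (Equiv.subRight (pp 1 (h : ℤ)))) k + h) = k + h ^ 2 := by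
      simp only [Equiv.trans_apply, Equiv.neg_apply, Equiv.subRight_apply, pp]
      ring
    have e3 : -(((Equiv.neg ℤ).trans (Equiv.subRight (pp 1 (h : ℤ)))) k + pp 1 h) = k := by
      simp only [Equiv.trans_apply, Equiv.neg_apply, Equiv.subRight_apply, pp]
      ring
    rw [e1, e2, e3]
  rw [e, tsum_eq_sum (s := Icc (1 : ℤ) X), Bb_cast]
  · push_cast
    rfl
  · intro k hk
    rw [Finset.mem_Icc] at hk
    rw [h2 k hk, Complex.ofReal_zero, mul_zero]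

/-- the trilinear sum with the weight that makes all terms nonnegative -/
private theorem Bb_TW (X H : ℕ) (a0 a1 a2 : ℤ → ℝ)
    (h2 : ∀ k : ℤ, ¬ (1 ≤ k ∧ k ≤ X) → a2 k = 0) (S : ℕ → ℝ)
    (hS : ∀ h : ℕ, S h = ∑ n ∈ Icc 1 X, a0 ((n : ℤ) + h ^ 2 + h) * a1 ((n : ℤ) + h ^ 2) * a2 n) :
    TW 1 H (fun k => if 0 ≤ S k.toNat then 1 else -1) (fun m => ((a0 (-m) : ℝ) : ℂ))
      (fun m => ((a1 (-m) : ℝ) : ℂ)) (fun m => ((a2 (-m) : ℝ) : ℂ)) =
      ((∑ h ∈ Icc 1 H, |S h| : ℝ) : ℂ) := by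
  unfold TW
  rw [Bb_cast H (fun h : ℤ => (if 0 ≤ S h.toNat then (1 : ℂ) else -1) *
    ∑' n : ℤ, ((a0 (-n) : ℝ) : ℂ) * ((a1 (-(n + h)) : ℝ) : ℂ) * ((a2 (-(n + pp 1 h)) : ℝ) : ℂ)),
    Complex.ofReal_sum]
  refine Finset.sum_congr rfl fun h _ => ?_
  rw [Bb_refl X h a0 a1 a2 h2, ← hS h, Int.toNat_natCast]
  by_cases h0 : 0 ≤ S h
  · rw [if_pos h0, one_mul, abs_of_nonneg h0]
  · rw [if_neg h0, abs_of_neg (not_le.1 h0)]
    push_cast
    ring

private theorem Bb_w (S : ℕ → ℝ) (h : ℤ) :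
    ‖(fun k : ℤ => if 0 ≤ S k.toNat then (1 : ℂ) else -1) h‖ ≤ 1 := by
  by_cases h0 : 0 ≤ S h.toNat
  · simp [h0]
  · simp [h0]

/-- `Λ`, cut at `3X` -/
private noncomputable def Bb_aL (X : ℕ) (k : ℤ) : ℝ := if k ≤ 3 * (X : ℤ) then lamZ k else 0

/-- the model on `[1, X]` -/
private noncomputable def Bb_aM (z X : ℕ) (k : ℤ) : ℝ := if 1 ≤ k ∧ k ≤ (X : ℤ) then LamZ z k else 0

private theorem Bb_lamZ (n : ℕ) : lamZ (n : ℤ) = lam n := by
  unfold lamZ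
  rw [Int.toNat_natCast]

private theorem Bb_aL_bd (X : ℕ) (hX : Real.log (3 * X) ≤ Real.log X ^ 2) (hX1 : 1 ≤ X) (n : ℤ) :
    ‖(fun m : ℤ => ((Bb_aL X (-m) : ℝ) : ℂ)) n‖ ≤ Real.log X ^ 2 := by
  change ‖((Bb_aL X (-n) : ℝ) : ℂ)‖ ≤ _
  rw [Complex.norm_real, Real.norm_eq_abs]
  unfold Bb_aL
  split_ifs with h
  · unfold lamZ
    rw [abs_of_nonneg (lam_nonneg _)]
    refine (lam_le_log _).trans (le_trans ?_ hX)
    rcases Nat.eq_zero_or_pos (-n).toNat with h0 | h0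
    · rw [h0, Nat.cast_zero, Real.log_zero]
      refine Real.log_nonneg ?_
      have : (1 : ℝ) ≤ X := by exact_mod_cast hX1
      linarith
    · refine Real.log_le_log (by exact_mod_cast h0) ?_
      have h1 : (-n).toNat ≤ 3 * X := by omega
      exact_mod_cast h1
  · rw [abs_zero]
    positivity

private theorem Bb_aL_supp (X : ℕ) (n : ℤ) (h : 3 * (X : ℤ) < |n|) :
    (fun m : ℤ => ((Bb_aL X (-m) : ℝ) : ℂ)) n = 0 := by
  change ((Bb_aL X (-n) : ℝ) : ℂ) = 0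
  have h1 : Bb_aL X (-n) = 0 := by
    unfold Bb_aL
    split_ifs with h2
    · unfold lamZ
      have h3 : (-n).toNat = 0 := by
        rcases abs_cases n with h4 | h4 <;> omega
      rw [h3, lam_zero]
    · rfl
  rw [h1, Complex.ofReal_zero]

private theorem Bb_aM_bd (z X : ℕ) (hz : (rho z)⁻¹ ≤ Real.log X) (hX : 1 ≤ Real.log X) (n : ℤ) :
    ‖(fun m : ℤ => ((Bb_aM z X (-m) : ℝ) : ℂ)) n‖ ≤ Real.log X ^ 2 := by
  change ‖((Bb_aM z X (-n) : ℝ) : ℂ)‖ ≤ _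
  have h0 : Real.log X ≤ Real.log X ^ 2 := by
    have := mul_le_mul_of_nonneg_left hX (by linarith : (0 : ℝ) ≤ Real.log X)
    rw [mul_one] at this
    rw [sq]
    exact this
  have h1 : ∀ x, LamS z x ≤ Real.log X := by
    intro x
    unfold LamS
    split_ifs
    · exact hz
    · linarith
  rw [Complex.norm_real, Real.norm_eq_abs]
  unfold Bb_aM LamZ
  split_ifs
  · rw [abs_of_nonneg (LamS_nonneg _ _)]
    exact (h1 _).trans h0
  · rw [abs_zero]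
    positivity
  · rw [abs_zero]
    positivity

private theorem Bb_aM_supp (z X : ℕ) (n : ℤ) (h : 3 * (X : ℤ) < |n|) :
    (fun m : ℤ => ((Bb_aM z X (-m) : ℝ) : ℂ)) n = 0 := by
  change ((Bb_aM z X (-n) : ℝ) : ℂ) = 0
  have h1 : Bb_aM z X (-n) = 0 := by
    unfold Bb_aM
    rw [if_neg]
    rintro ⟨h2, h3⟩
    rcases abs_cases n with h4 | h4 <;> omega
  rw [h1, Complex.ofReal_zero]

/-- the decomposition of one sum -/
private theorem Bb_split (z X h : ℕ) (hh : h ^ 2 + h ≤ 2 * X) :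
    T3b X h =
      (∑ n ∈ Icc 1 X, Bb_aL X ((n : ℤ) + h ^ 2 + h) * Bb_aL X ((n : ℤ) + h ^ 2) * gI z 0 X n) +
      (∑ n ∈ Icc 1 X, Bb_aL X ((n : ℤ) + h ^ 2 + h) * gI z 0 (3 * X) ((n : ℤ) + h ^ 2) *
        Bb_aM z X n) +
      ∑ n ∈ Ioc (h ^ 2 + h) (X + (h ^ 2 + h)), lam n * LamZ z ((n : ℤ) + -(h : ℤ)) *
        LamZ z ((n : ℤ) + (-(h : ℤ) ^ 2 - h)) := by
  have h3 : ∑ n ∈ Ioc (h ^ 2 + h) (X + (h ^ 2 + h)), lam n * LamZ z ((n : ℤ) + -(h : ℤ)) *
        LamZ z ((n : ℤ) + (-(h : ℤ) ^ 2 - h)) =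
      ∑ n ∈ Icc 1 X, lam (n + h ^ 2 + h) * LamZ z ((n : ℤ) + h ^ 2) * LamZ z n := by
    symm
    refine Finset.sum_nbij' (fun n => n + (h ^ 2 + h)) (fun n => n - (h ^ 2 + h)) ?_ ?_ ?_ ?_ ?_
    · intro n hn
      rw [Finset.mem_Icc] at hn
      rw [Finset.mem_Ioc]
      omega
    · intro n hn
      rw [Finset.mem_Ioc] at hn
      rw [Finset.mem_Icc]
      omega
    · intro n _
      exact Nat.add_sub_cancel n (h ^ 2 + h)
    · intro n hn
      rw [Finset.mem_Ioc] at hn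
      exact Nat.sub_add_cancel hn.1.le
    · intro n _
      have e1 : ((n + (h ^ 2 + h) : ℕ) : ℤ) + -(h : ℤ) = (n : ℤ) + h ^ 2 := by
        push_cast
        ring
      have e2 : ((n + (h ^ 2 + h) : ℕ) : ℤ) + (-(h : ℤ) ^ 2 - h) = (n : ℤ) := by
        push_cast
        ring
      change lam (n + h ^ 2 + h) * LamZ z ((n : ℤ) + h ^ 2) * LamZ z n =
        lam (n + (h ^ 2 + h)) * LamZ z (((n + (h ^ 2 + h) : ℕ) : ℤ) + -(h : ℤ)) *
        LamZ z (((n + (h ^ 2 + h) : ℕ) : ℤ) + (-(h : ℤ) ^ 2 - h))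
      rw [e1, e2, add_assoc]
  rw [h3, ← Finset.sum_add_distrib, ← Finset.sum_add_distrib]
  unfold T3b
  refine Finset.sum_congr rfl fun n hn => ?_
  rw [Finset.mem_Icc] at hn
  have c1 : ((n : ℤ) + h ^ 2 + h) = ((n + h ^ 2 + h : ℕ) : ℤ) := by push_cast; ring
  have c2 : ((n : ℤ) + h ^ 2) = ((n + h ^ 2 : ℕ) : ℤ) := by push_cast; ring
  have l1 : Bb_aL X ((n : ℤ) + h ^ 2 + h) = lam (n + h ^ 2 + h) := by
    unfold Bb_aL
    rw [c1, if_pos (by omega), Bb_lamZ]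
  have l2 : Bb_aL X ((n : ℤ) + h ^ 2) = lam (n + h ^ 2) := by
    unfold Bb_aL
    rw [c2, if_pos (by omega), Bb_lamZ]
  have l3 : gI z 0 X n = lam n - LamZ z n := by
    unfold gI
    rw [if_pos (by omega), Bb_lamZ]
  have l4 : gI z 0 (3 * X) ((n : ℤ) + h ^ 2) = lam (n + h ^ 2) - LamZ z ((n : ℤ) + h ^ 2) := by
    unfold gI
    rw [c2, if_pos (by omega), Bb_lamZ]
  have l5 : Bb_aM z X n = LamZ z n := by
    unfold Bb_aM
    rw [if_pos (by omega)]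
  rw [l1, l2, l3, l4, l5]
  ring

/-- **Bb** -/
theorem thm_Bb (h2 : St_TW2) (h1 : St_TW1) (hM : St_BVM) (hS : St_Sing) : St_Bb := by
  intro A
  obtain ⟨-, -, hS3, hS4, -, -⟩ := hS
  obtain ⟨B2, hB2⟩ := h2 (A + 1)
  obtain ⟨B1, hB1⟩ := h1 (A + 1)
  obtain ⟨B3, hB3⟩ := hS4 (A + 1)
  obtain ⟨B, hB⟩ : ∃ B, B = max (max B1 B2) (max B3 1) := ⟨_, rfl⟩
  have hlog : Tendsto (fun X : ℕ => Real.log X) atTop atTop :=
    Real.tendsto_log_atTop.comp tendsto_natCast_atTop_atTop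
  filter_upwards [hB2 B (by omega), hB1 B (by omega), hB3 B (by omega), hM (A + 1) B, Bb_rho B,
    hlog.eventually (eventually_ge_atTop (4 : ℝ)), eventually_ge_atTop 3] with
    X e2 e1 e3 eM eR hX4 hX3
  have hz2 : 2 ≤ zz B X := by
    unfold zz
    refine Nat.le_floor ?_
    have h3 : Real.log X ^ 1 ≤ Real.log X ^ B := pow_le_pow_right₀ (by linarith) (by omega)
    rw [pow_one] at h3
    push_cast
    linarith
  have hX1 : 1 ≤ X := by omega
  have hzle : (zz B X : ℝ) ≤ Real.log X ^ B := Bb_zz B X hX1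
  have hXR : (1 : ℝ) ≤ X := by exact_mod_cast hX1
  have hlog3 : Real.log (3 * X) ≤ Real.log X ^ 2 := by
    rw [Real.log_mul (by norm_num) (by positivity)]
    have h3 : Real.log 3 ≤ 2 := by
      have h4 := Real.log_le_sub_one_of_pos (by norm_num : (0 : ℝ) < 3)
      linarith
    have h4 : Real.log X * 4 ≤ Real.log X ^ 2 := by
      rw [sq]
      exact mul_le_mul_of_nonneg_left hX4 (by linarith)
    linarith
  obtain ⟨z, hz⟩ : ∃ z, z = zz B X := ⟨_, rfl⟩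
  rw [← hz] at hz2 hzle eR e3
  obtain ⟨H, hH⟩ : ∃ H, H = Nat.sqrt X := ⟨_, rfl⟩
  have hHX : H ≤ X := by rw [hH]; exact Nat.sqrt_le_self X
  have hH2 : H ^ 2 ≤ X := by rw [hH]; exact Nat.sqrt_le' X
  have hHs : (H : ℝ) ≤ Real.sqrt X := by
    rw [hH]
    exact Real.nat_sqrt_le_real_sqrt
  -- the first two sums
  obtain ⟨S1, hS1⟩ : ∃ S1 : ℕ → ℝ, ∀ h : ℕ, S1 h =
      ∑ n ∈ Icc 1 X, Bb_aL X ((n : ℤ) + h ^ 2 + h) * Bb_aL X ((n : ℤ) + h ^ 2) * gI z 0 X n :=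
    ⟨_, fun _ => rfl⟩
  obtain ⟨S2, hS2⟩ : ∃ S2 : ℕ → ℝ, ∀ h : ℕ, S2 h =
      ∑ n ∈ Icc 1 X, Bb_aL X ((n : ℤ) + h ^ 2 + h) * gI z 0 (3 * X) ((n : ℤ) + h ^ 2) *
        Bb_aM z X n :=
    ⟨_, fun _ => rfl⟩
  have b1 : ∑ h ∈ Icc 1 H, |S1 h| ≤ X * Real.sqrt X / Real.log X ^ (A + 1) := by
    have h3 := e2 1 (Or.inr rfl) (fun k => if 0 ≤ S1 k.toNat then 1 else -1)
      (fun m => ((Bb_aL X (-m) : ℝ) : ℂ)) (fun m => ((Bb_aL X (-m) : ℝ) : ℂ)) 0 X (-1)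
      (by omega) (Or.inr rfl) (Bb_w S1) (Bb_aL_bd X hlog3 hX1) (Bb_aL_bd X hlog3 hX1)
      (fun n hn => ⟨Bb_aL_supp X n hn, Bb_aL_supp X n hn⟩)
    have h4 : (fun n : ℤ => ((gI (zz B X) 0 X (-1 * n) : ℝ) : ℂ)) =
        fun m : ℤ => ((gI z 0 X (-m) : ℝ) : ℂ) := by
      funext m
      rw [hz, neg_one_mul]
    rw [h4, ← hH, Bb_TW X H (Bb_aL X) (Bb_aL X) (gI z 0 X) ?_ S1 hS1, Complex.norm_real,
      Real.norm_eq_abs] at h3
    · exact (le_abs_self _).trans h3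
    · intro k hk
      unfold gI
      rw [if_neg]
      rintro ⟨h5, h6⟩
      exact hk (by omega)
  have b2 : ∑ h ∈ Icc 1 H, |S2 h| ≤ X * Real.sqrt X / Real.log X ^ (A + 1) := by
    have h3 := e1 1 (Or.inr rfl) (fun k => if 0 ≤ S2 k.toNat then 1 else -1)
      (fun m => ((Bb_aL X (-m) : ℝ) : ℂ)) (fun m => ((Bb_aM z X (-m) : ℝ) : ℂ)) 0 (3 * X) (-1)
      (by omega) (Or.inr rfl) (Bb_w S2) (Bb_aL_bd X hlog3 hX1)
      (Bb_aM_bd z X eR (by linarith))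
      (fun n hn => ⟨Bb_aL_supp X n hn, Bb_aM_supp z X n hn⟩)
    have h4 : (fun n : ℤ => ((gI (zz B X) 0 (3 * X) (-1 * n) : ℝ) : ℂ)) =
        fun m : ℤ => ((gI z 0 (3 * X) (-m) : ℝ) : ℂ) := by
      funext m
      rw [hz, neg_one_mul]
    rw [h4, ← hH, Bb_TW X H (Bb_aL X) (gI z 0 (3 * X)) (Bb_aM z X) ?_ S2 hS2, Complex.norm_real,
      Real.norm_eq_abs] at h3
    · exact (le_abs_self _).trans h3
    · intro k hk
      unfold Bb_aM
      rw [if_neg hk]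
  -- the remaining sum
  have b3 : ∀ h ∈ Icc 1 H, |T3b X h - SG h * X| ≤ |S1 h| + |S2 h| +
      2 * (X / Real.log X ^ (A + 1)) := by
    intro h hh
    rw [Finset.mem_Icc] at hh
    have hh2 : h ^ 2 ≤ X := (Nat.pow_le_pow_left hh.2 2).trans hH2
    have hh3 : h ≤ X := hh.2.trans hHX
    obtain ⟨R, hR⟩ : ∃ R : ℝ, R = ∑ n ∈ Ioc (h ^ 2 + h) (X + (h ^ 2 + h)), lam n *
        LamZ z ((n : ℤ) + -(h : ℤ)) * LamZ z ((n : ℤ) + (-(h : ℤ) ^ 2 - h)) := ⟨_, rfl⟩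
    have h3 := Bb_split z X h (by omega)
    rw [← hS1 h, ← hS2 h, ← hR] at h3
    have hhZ : ((h ^ 2 : ℕ) : ℤ) = (h : ℤ) ^ 2 := by push_cast; ring
    have h4 := eM z hz2 hzle (-(h : ℤ)) (-(h : ℤ) ^ 2 - h) (h ^ 2 + h) (X + (h ^ 2 + h))
      (by omega) (by omega) (by rw [abs_neg, abs_of_nonneg (by omega)]; omega)
      (by rw [← neg_add', abs_neg, ← hhZ, abs_of_nonneg (by omega)]; omega)
      (by push_cast; nlinarith [sq_nonneg (h : ℤ)])
      (by push_cast; linarith)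
    rw [← hR, hS3 h z] at h4
    have h5 := e3 h hh.1 hh3
    have h6 : (((X + (h ^ 2 + h) : ℕ) : ℝ) - ((h ^ 2 + h : ℕ) : ℝ)) = X := by
      push_cast
      ring
    rw [h6] at h4
    have hX0 : (0 : ℝ) ≤ X := by linarith
    have h7 : |X * GS z {0, (h : ℤ), (h : ℤ) ^ 2 + h} - SG h * X| ≤
        X / Real.log X ^ (A + 1) := by
      have h8 : X * GS z {0, (h : ℤ), (h : ℤ) ^ 2 + h} - SG h * X =
          X * (GS z {0, (h : ℤ), (h : ℤ) ^ 2 + h} - SG h) := by ring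
      rw [h8, abs_mul, abs_of_nonneg hX0]
      calc (X : ℝ) * |GS z {0, (h : ℤ), (h : ℤ) ^ 2 + h} - SG h| ≤
          X * (1 / Real.log X ^ (A + 1)) := mul_le_mul_of_nonneg_left h5 hX0
        _ = X / Real.log X ^ (A + 1) := by ring
    have h9 : T3b X h - SG h * X = S1 h + S2 h +
        (R - X * GS z {0, (h : ℤ), (h : ℤ) ^ 2 + h}) +
        (X * GS z {0, (h : ℤ), (h : ℤ) ^ 2 + h} - SG h * X) := by
      rw [h3]
      ring
    rw [h9]
    have t1 := abs_add_le (S1 h + S2 h + (R - X * GS z {0, (h : ℤ), (h : ℤ) ^ 2 + h}))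
      (X * GS z {0, (h : ℤ), (h : ℤ) ^ 2 + h} - SG h * X)
    have t2 := abs_add_le (S1 h + S2 h) (R - X * GS z {0, (h : ℤ), (h : ℤ) ^ 2 + h})
    have t3 := abs_add_le (S1 h) (S2 h)
    linarith
  rw [← hH]
  have hL : 0 < Real.log X ^ (A + 1) := by
    have : (0 : ℝ) < Real.log X := by linarith
    positivity
  have hsum := Finset.sum_le_sum b3
  rw [Finset.sum_add_distrib, Finset.sum_add_distrib, Finset.sum_const, Nat.card_Icc,
    Nat.add_sub_cancel, nsmul_eq_mul] at hsum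
  refine hsum.trans ?_
  have hX0 : (0 : ℝ) ≤ X := by linarith
  have h3 : (H : ℝ) * (2 * (X / Real.log X ^ (A + 1))) ≤
      2 * (X * Real.sqrt X / Real.log X ^ (A + 1)) := by
    have h4 : (H : ℝ) * (2 * (X / Real.log X ^ (A + 1))) ≤
        Real.sqrt X * (2 * (X / Real.log X ^ (A + 1))) :=
      mul_le_mul_of_nonneg_right hHs (by positivity)
    refine h4.trans (le_of_eq ?_)
    ring
  have h4 : 4 * (X * Real.sqrt X / Real.log X ^ (A + 1)) ≤ X * Real.sqrt X / Real.log X ^ A := by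
    have h5 : (0 : ℝ) ≤ X * Real.sqrt X := mul_nonneg hX0 (Real.sqrt_nonneg _)
    have hl0 : (0 : ℝ) < Real.log X := by linarith
    have h6 : 4 * (X * Real.sqrt X / Real.log X ^ (A + 1)) =
        (4 / Real.log X) * (X * Real.sqrt X / Real.log X ^ A) := by
      rw [pow_succ]
      field_simp
    rw [h6]
    have h7 : 4 / Real.log X ≤ 1 := by
      rw [div_le_one hl0]
      exact hX4
    have h8 : 0 ≤ X * Real.sqrt X / Real.log X ^ A := by positivity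
    calc (4 / Real.log X) * (X * Real.sqrt X / Real.log X ^ A) ≤
        1 * (X * Real.sqrt X / Real.log X ^ A) := mul_le_mul_of_nonneg_right h7 h8
      _ = _ := one_mul _
  linarith

end Pool.Agent.NRP
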