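import Pool.Agent.NRP.StI

set_option autoImplicit false

/-!
# NRP: the lemma of Vinogradov
-/

namespace Pool.Agent.NRP

open Finset
open Pool.Agent.GBQ (ee nd)

theorem Vl_nd_le (x : ℝ) (k : ℤ) : nd x ≤ |x - k| := round_le x k

/-- Step 1: two elements at a small distance. -/
theorem Vl_close (H L : ℕ) (hL : 1 ≤ L) (A : Finset ℤ) (hA : A ⊆ Icc (-(H : ℤ)) H)
    (hc : 2 * H / L + 1 < A.card) : ∃ a ∈ A, ∃ a' ∈ A, a' < a ∧ a - a' < L := by
  have hLz : (0 : ℤ) < L := by exact_mod_cast hL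
  have hmaps : ∀ a ∈ A, ((a + H) / L).toNat ∈ Finset.range (2 * H / L + 1) := by
    intro a ha
    have h1 := Finset.mem_Icc.1 (hA ha)
    rw [Finset.mem_range]
    have h2 : (a + H) / L ≤ ((2 * H / L : ℕ) : ℤ) := by
      push_cast
      exact Int.ediv_le_ediv hLz (by linarith [h1.2])
    have h3 : 0 ≤ (a + H) / L := Int.ediv_nonneg (by linarith [h1.1]) hLz.le
    omega
  obtain ⟨a, ha, a', ha', hne, he⟩ := Finset.exists_ne_map_eq_of_card_lt_of_maps_to
    (by rw [Finset.card_range]; exact hc) hmaps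
  have key : ∀ x ∈ A, ∀ y ∈ A, ((x + H) / L).toNat = ((y + H) / L).toNat → x - y < L := by
    intro x hx y hy hxy
    have h1 := Finset.mem_Icc.1 (hA hx)
    have h2 := Finset.mem_Icc.1 (hA hy)
    have h3 : 0 ≤ (x + H) / L := Int.ediv_nonneg (by linarith [h1.1]) hLz.le
    have h4 : 0 ≤ (y + H) / L := Int.ediv_nonneg (by linarith [h2.1]) hLz.le
    have h5 : (x + H) / L = (y + H) / L := by omega
    have h6 := Int.mul_ediv_add_emod (x + H) L
    have h7 := Int.mul_ediv_add_emod (y + H) L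
    have h8 := Int.emod_lt_of_pos (x + H) hLz
    have h9 := Int.emod_nonneg (y + H) hLz.ne'
    rw [h5] at h6
    linarith
  rcases lt_or_gt_of_ne hne with h | h
  · exact ⟨a', ha', a, ha, h, key a' ha' a ha he.symm⟩
  · exact ⟨a, ha, a', ha', h, key a ha a' ha' he⟩

/-- Integers at pairwise distance at most `w` are at most `w + 1` in number. -/
theorem Vl_interval (T : Finset ℤ) (w : ℝ) (hw : 0 ≤ w)
    (hT : ∀ s ∈ T, ∀ t ∈ T, ((t - s : ℤ) : ℝ) ≤ w) : (T.card : ℝ) ≤ w + 1 := by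
  rcases T.eq_empty_or_nonempty with rfl | hne
  · simp only [Finset.card_empty, Nat.cast_zero]
    linarith
  · obtain ⟨s, hs, hmin⟩ := T.exists_min_image id hne
    have hsub : T ⊆ Icc s (s + ⌊w⌋) := by
      intro t ht
      rw [Finset.mem_Icc]
      refine ⟨hmin t ht, ?_⟩
      have : t - s ≤ ⌊w⌋ := Int.le_floor.2 (hT s hs t ht)
      linarith
    have h0 : 0 ≤ ⌊w⌋ := Int.floor_nonneg.2 hw
    have h1 := Finset.card_le_card hsub
    rw [Int.card_Icc] at h1
    have h2 : ((s + ⌊w⌋ + 1 - s).toNat : ℤ) = ⌊w⌋ + 1 := by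
      rw [Int.toNat_of_nonneg (by linarith)]
      ring
    have h3 : (T.card : ℤ) ≤ ⌊w⌋ + 1 := by
      rw [← h2]
      exact_mod_cast h1
    have h4 : (T.card : ℝ) ≤ (⌊w⌋ : ℝ) + 1 := by exact_mod_cast h3
    have h5 := Int.floor_le w
    linarith

/-- Step 2: counting. -/
theorem Vl_count (H q : ℕ) (hq : 1 ≤ q) (α ε η D : ℝ) (hε : 0 ≤ ε) (hε2 : ε ≤ 1 / 2) (hη : 0 < η)
    (hD : 1 ≤ D) (hηe : nd (q * α) = η) (hηε : H * η ≤ 2 * D) (A : Finset ℤ)
    (hA : A ⊆ Icc (-(H : ℤ)) H) (hAn : ∀ a ∈ A, nd (a * α) ≤ ε) :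
    (A.card : ℝ) ≤ q * (7 * D) * (2 * ε / η + 1) := by
  have hqz : (0 : ℤ) < q := by exact_mod_cast hq
  set p : ℤ := round ((q : ℝ) * α) with hp
  set β : ℝ := q * α - p with hβ
  have hβη : |β| = η := hηe
  set φ : ℤ → ℤ × ℤ := fun a => (a % q, round (a * α) - (a / q) * p - round (((a % q : ℤ) : ℝ) * α))
    with hφ
  have hdec : ∀ a : ℤ, (a : ℝ) * α =
      ((a % q : ℤ) : ℝ) * α + ((a / q : ℤ) : ℝ) * (β + p) := by
    intro a
    have h := Int.mul_ediv_add_emod a q
    have h' : (a : ℝ) = (q : ℝ) * ((a / q : ℤ) : ℝ) + ((a % q : ℤ) : ℝ) := by exact_mod_cast h.symm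
    rw [h', hβ]
    have h2 : (((q : ℝ) * ((a / q : ℤ) : ℝ) + ((a % q : ℤ) : ℝ))) * α =
      ((a % q : ℤ) : ℝ) * α + ((a / q : ℤ) : ℝ) * (q * α) := by ring
    rw [h2]
    ring
  set Q : ℤ := ⌊3 * D⌋ with hQ
  have himg : A.image φ ⊆ (Ico (0 : ℤ) q) ×ˢ (Icc (-Q) Q) := by
    intro x hx
    obtain ⟨a, ha, rfl⟩ := Finset.mem_image.1 hx
    refine Finset.mem_product.2 ⟨?_, ?_⟩
    · rw [Finset.mem_Ico]
      exact ⟨Int.emod_nonneg a hqz.ne', Int.emod_lt_of_pos a hqz⟩
    · have h1 := Finset.mem_Icc.1 (hA ha)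
      have h2 : |a * α - round ((a : ℝ) * α)| ≤ ε := hAn a ha
      have h3 : |((a % q : ℤ) : ℝ) * α - round (((a % q : ℤ) : ℝ) * α)| ≤ 1 / 2 := abs_sub_round _
      have h4 : |(((a / q : ℤ) : ℝ)) * β| ≤ 2 * D := by
        rw [abs_mul, hβη]
        have h5 : |((a / q : ℤ) : ℝ)| ≤ H := by
          have h6 : |a / (q : ℤ)| ≤ H := by
            rw [abs_le]
            constructor
            · rw [Int.le_ediv_iff_mul_le hqz]
              nlinarith
            · rw [← Int.lt_add_one_iff]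
              rw [Int.ediv_lt_iff_lt_mul hqz]
              nlinarith
          exact_mod_cast h6
        calc |((a / q : ℤ) : ℝ)| * η ≤ H * η := by gcongr
          _ ≤ 2 * D := hηε
      have h7 : |((round ((a : ℝ) * α) - (a / q) * p - round (((a % q : ℤ) : ℝ) * α) : ℤ) : ℝ)| ≤
          3 * D := by
        have e : ((round ((a : ℝ) * α) - (a / q) * p - round (((a % q : ℤ) : ℝ) * α) : ℤ) : ℝ) =
            -(a * α - round ((a : ℝ) * α)) + ((((a / q : ℤ) : ℝ)) * β) +
              (((a % q : ℤ) : ℝ) * α - round (((a % q : ℤ) : ℝ) * α)) := by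
          push_cast
          have h := hdec a
          rw [mul_add] at h
          linarith
        rw [e]
        refine (abs_add_le _ _).trans ?_
        refine (add_le_add (abs_add_le _ _) le_rfl).trans ?_
        rw [abs_neg]
        linarith
      have h8 := abs_le.1 h7
      rw [Finset.mem_Icc]
      constructor
      · have : -(round ((a : ℝ) * α) - (a / q) * p - round (((a % q : ℤ) : ℝ) * α)) ≤ Q := by
          rw [hQ]
          refine Int.le_floor.2 ?_
          rw [Int.cast_neg]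
          linarith [h8.1]
        show -Q ≤ round ((a : ℝ) * α) - (a / q) * p - round (((a % q : ℤ) : ℝ) * α)
        linarith
      · rw [hQ]
        exact Int.le_floor.2 h8.2
  have hQ0 : 0 ≤ Q := Int.floor_nonneg.2 (by linarith)
  have hcard : ((A.image φ).card : ℝ) ≤ q * (7 * D) := by
    have h1 := Finset.card_le_card himg
    rw [Finset.card_product, Int.card_Ico, Int.card_Icc] at h1
    have h2 : (((q : ℤ) - 0).toNat : ℝ) = q := by
      rw [sub_zero, Int.toNat_natCast]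
    have h3 : ((Q + 1 - -Q).toNat : ℝ) ≤ 7 * D := by
      have h4 : (((Q + 1 - -Q).toNat : ℤ) : ℝ) = ((Q + 1 - -Q : ℤ) : ℝ) := by
        rw [Int.toNat_of_nonneg (by linarith)]
      rw [Int.cast_natCast] at h4
      rw [h4]
      push_cast
      have := Int.floor_le (3 * D)
      rw [← hQ] at this
      linarith
    calc ((A.image φ).card : ℝ) ≤ (((q : ℤ) - 0).toNat : ℝ) * ((Q + 1 - -Q).toNat : ℝ) := by
          exact_mod_cast h1
      _ ≤ q * (7 * D) := by
          rw [h2]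
          gcongr
  have hfib : ∀ x ∈ A.image φ, ((A.filter (fun a => φ a = x)).card : ℝ) ≤ 2 * ε / η + 1 := by
    intro x _
    have hinj : Set.InjOn (fun a : ℤ => a / (q : ℤ)) (A.filter (fun a => φ a = x)) := by
      intro a ha b hb hab
      have h1 := (Finset.mem_filter.1 (Finset.mem_coe.1 ha)).2
      have h2 := (Finset.mem_filter.1 (Finset.mem_coe.1 hb)).2
      have h3 : a % q = b % q := by
        have := congrArg Prod.fst (h1.trans h2.symm)
        exact this
      have h4 := Int.mul_ediv_add_emod a q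
      have h5 := Int.mul_ediv_add_emod b q
      have h6 : a / (q : ℤ) = b / (q : ℤ) := hab
      rw [h6, h3] at h4
      linarith
    rw [← Finset.card_image_of_injOn hinj]
    refine Vl_interval _ _ (by positivity) ?_
    intro s hs t ht
    obtain ⟨a, ha, rfl⟩ := Finset.mem_image.1 hs
    obtain ⟨b, hb, rfl⟩ := Finset.mem_image.1 ht
    have h1 := (Finset.mem_filter.1 ha).2
    have h2 := (Finset.mem_filter.1 hb).2
    have h3 : a % q = b % q := by
      have := congrArg Prod.fst (h1.trans h2.symm)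
      exact this
    have h4 : round ((a : ℝ) * α) - (a / q) * p - round (((a % q : ℤ) : ℝ) * α) =
        round ((b : ℝ) * α) - (b / q) * p - round (((b % q : ℤ) : ℝ) * α) := by
      have := congrArg Prod.snd (h1.trans h2.symm)
      exact this
    rw [h3] at h4
    have h5 : |a * α - round ((a : ℝ) * α)| ≤ ε := hAn a (Finset.mem_filter.1 ha).1
    have h6 : |b * α - round ((b : ℝ) * α)| ≤ ε := hAn b (Finset.mem_filter.1 hb).1
    have h7 : (((b / q - a / q : ℤ) : ℝ)) * β =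
        (b * α - round ((b : ℝ) * α)) - (a * α - round ((a : ℝ) * α)) := by
      have ha' := hdec a
      have hb' := hdec b
      rw [h3, mul_add] at ha'
      rw [mul_add] at hb'
      have h4' : (round ((a : ℝ) * α) : ℝ) - ((a / q : ℤ) : ℝ) * p =
          (round ((b : ℝ) * α) : ℝ) - ((b / q : ℤ) : ℝ) * p := by
        have h8 : round ((a : ℝ) * α) - (a / q) * p = round ((b : ℝ) * α) - (b / q) * p := by
          linarith
        exact_mod_cast h8
      push_cast
      rw [sub_mul]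
      linarith
    have h8 : |((b / q - a / q : ℤ) : ℝ)| * η ≤ 2 * ε := by
      rw [← hβη, ← abs_mul, h7]
      refine (abs_sub _ _).trans ?_
      linarith
    rw [le_div_iff₀ hη]
    exact (mul_le_mul_of_nonneg_right (le_abs_self _) hη.le).trans h8
  have hsum : A.card = ∑ x ∈ A.image φ, (A.filter (fun a => φ a = x)).card :=
    Finset.card_eq_sum_card_image φ A
  have hw : 0 ≤ 2 * ε / η + 1 := by positivity
  calc (A.card : ℝ) = ∑ x ∈ A.image φ, ((A.filter (fun a => φ a = x)).card : ℝ) := by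
        rw [hsum]
        push_cast
        rfl
    _ ≤ ∑ _x ∈ A.image φ, (2 * ε / η + 1) := Finset.sum_le_sum hfib
    _ = ((A.image φ).card : ℝ) * (2 * ε / η + 1) := by rw [Finset.sum_const, nsmul_eq_mul]
    _ ≤ q * (7 * D) * (2 * ε / η + 1) := mul_le_mul_of_nonneg_right hcard hw

theorem thm_Vl : St_Vl := by
  intro C0
  refine ⟨4 * C0 + 8, ?_⟩
  intro H δ hR α hcount
  obtain ⟨hδ, hδ2, -, hH⟩ := hR
  set D : ℝ := (1 / δ) ^ C0 with hD
  have hinv2 : 2 ≤ 1 / δ := by
    rw [le_div_iff₀ hδ]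
    linarith
  have hinv1 : 1 ≤ 1 / δ := by linarith
  have hD1 : 1 ≤ D := one_le_pow₀ hinv1
  have hB : 256 * D ^ 4 ≤ (1 / δ) ^ (4 * C0 + 8) := by
    have h1 : (1 / δ) ^ (4 * C0 + 8) = (1 / δ) ^ 8 * D ^ 4 := by
      rw [hD, ← pow_mul, ← pow_add]
      congr 1
      ring
    rw [h1]
    have h2 : (256 : ℝ) ≤ (1 / δ) ^ 8 := by
      calc (256 : ℝ) = 2 ^ 8 := by norm_num
        _ ≤ (1 / δ) ^ 8 := by gcongr
    gcongr
  have hHB : (1 / δ) ^ (4 * C0 + 8) ≤ H := by
    rw [one_div, inv_pow, inv_le_iff_one_le_mul₀ (by positivity)]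
    rw [mul_comm]
    exact hH
  have hH256 : 256 * D ^ 4 ≤ H := hB.trans hHB
  have hD4 : D ≤ D ^ 4 := le_self_pow₀ hD1 (by norm_num)
  have hD34 : D ^ 3 ≤ D ^ 4 := pow_le_pow_right₀ hD1 (by norm_num)
  have hD0 : 0 < D := by linarith
  have hH0 : (0 : ℝ) < H := by nlinarith
  have hδD : δ ^ C0 = 1 / D := by
    rw [hD, one_div, one_div, inv_pow, inv_inv]
  set A := (Icc (-(H : ℤ)) H).filter (fun a : ℤ => nd (a * α) ≤ D / H) with hA
  have hN : (H : ℝ) / D ≤ A.card := by
    rw [hδD] at hcount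
    calc (H : ℝ) / D = 1 / D * H := by ring
      _ ≤ A.card := hcount
  -- step 1
  set L : ℕ := ⌈4 * D⌉₊ with hL
  have hL4 : 4 * D ≤ L := Nat.le_ceil _
  have hL5 : (L : ℝ) ≤ 5 * D := by
    have := (Nat.ceil_lt_add_one (by linarith : 0 ≤ 4 * D)).le
    linarith
  have hL0 : (0 : ℝ) < L := by linarith
  have hL1 : 1 ≤ L := by exact_mod_cast hL0
  have hcl : 2 * H / L + 1 < A.card := by
    have h1 : (((2 * H / L + 1 : ℕ)) : ℝ) < A.card := by
      have h2 : ((2 * H / L : ℕ) : ℝ) ≤ ((2 * H : ℕ) : ℝ) / L := Nat.cast_div_le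
      have h3 : ((2 * H : ℕ) : ℝ) / L ≤ H / (2 * D) := by
        push_cast
        rw [div_le_div_iff₀ hL0 (by linarith)]
        nlinarith
      have h4 : 1 < (H : ℝ) / (2 * D) := by
        rw [lt_div_iff₀ (by linarith)]
        nlinarith
      have h5 : (H : ℝ) / D = H / (2 * D) + H / (2 * D) := by
        field_simp
        norm_num
      push_cast
      linarith
    exact_mod_cast h1
  obtain ⟨a, ha, a', ha', hlt, hdiff⟩ := Vl_close H L hL1 A (Finset.filter_subset _ _) hcl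
  obtain ⟨q, hq⟩ : ∃ q : ℕ, (q : ℤ) = a - a' := ⟨(a - a').toNat, Int.toNat_of_nonneg (by linarith)⟩
  have hq1 : 1 ≤ q := by
    have : (1 : ℤ) ≤ q := by rw [hq]; linarith
    exact_mod_cast this
  have hqL : (q : ℝ) ≤ 5 * D := by
    have h1 : (q : ℤ) < L := by rw [hq]; exact hdiff
    have h2 : (q : ℝ) < L := by exact_mod_cast h1
    linarith
  have hqn : nd (q * α) ≤ 2 * (D / H) := by
    have h1 : |a * α - round ((a : ℝ) * α)| ≤ D / H := (Finset.mem_filter.1 ha).2
    have h2 : |a' * α - round ((a' : ℝ) * α)| ≤ D / H := (Finset.mem_filter.1 ha').2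
    have h3 : (q : ℝ) = a - a' := by exact_mod_cast hq
    refine (Vl_nd_le _ (round ((a : ℝ) * α) - round ((a' : ℝ) * α))).trans ?_
    have e : (q : ℝ) * α - ((round ((a : ℝ) * α) - round ((a' : ℝ) * α) : ℤ) : ℝ) =
        (a * α - round ((a : ℝ) * α)) - (a' * α - round ((a' : ℝ) * α)) := by
      rw [h3]
      push_cast
      ring
    rw [e]
    refine (abs_sub _ _).trans ?_
    linarith
  have h5B : 5 * D ≤ (1 / δ) ^ (4 * C0 + 8) := by nlinarith
  refine ⟨q, hq1, hqL.trans h5B, ?_⟩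
  by_contra hcon
  rw [not_le] at hcon
  set η : ℝ := nd (q * α) with hη
  have hη0 : 0 < η := lt_of_le_of_lt (by positivity) hcon
  have hηH : H * η ≤ 2 * D := by
    calc H * η ≤ H * (2 * (D / H)) := by gcongr
      _ = 2 * D := by field_simp
  have hε2 : D / H ≤ 1 / 2 := by
    rw [div_le_div_iff₀ hH0 (by norm_num)]
    nlinarith
  have hct := Vl_count H q hq1 α (D / H) η D (by positivity) hε2 hη0 hD1 rfl hηH A
    (Finset.filter_subset _ _) fun a ha => (Finset.mem_filter.1 ha).2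
  have h1 : 2 * (D / H) / η ≤ H / (128 * D ^ 3) := by
    rw [div_le_div_iff₀ hη0 (by positivity)]
    have h2 : 256 * D ^ 4 ≤ H ^ 2 * η := by
      have h3 : (1 / δ) ^ (4 * C0 + 8) < η * (H : ℝ) ^ 2 := by
        rwa [div_lt_iff₀ (by positivity)] at hcon
      linarith
    have h4 : 2 * (D / H) * (128 * D ^ 3) = 256 * D ^ 4 / H := by ring
    rw [h4, div_le_iff₀ hH0]
    nlinarith
  have h2 : (H : ℝ) / D ≤ 35 * D ^ 2 * (H / (128 * D ^ 3) + 1) := by
    calc (H : ℝ) / D ≤ A.card := hN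
      _ ≤ q * (7 * D) * (2 * (D / H) / η + 1) := hct
      _ ≤ (5 * D) * (7 * D) * (H / (128 * D ^ 3) + 1) := by gcongr
      _ = 35 * D ^ 2 * (H / (128 * D ^ 3) + 1) := by ring
  have h3 : 35 * D ^ 2 * (H / (128 * D ^ 3) + 1) = 35 / 128 * (H / D) + 35 * D ^ 2 := by
    field_simp
  rw [h3] at h2
  have h4 : (256 : ℝ) * D ^ 3 ≤ H / D := by
    rw [le_div_iff₀ hD0]
    have h5 : 256 * D ^ 3 * D = 256 * D ^ 4 := by ring
    rw [h5]
    exact hH256
  have h5 : D ^ 2 ≤ D ^ 3 := pow_le_pow_right₀ hD1 (by norm_num)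
  have h6 : 0 < D ^ 3 := by positivity
  nlinarith

end Pool.Agent.NRP
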